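import Pool.Agent.P.MP_1e185c_lc.Cert0Aux

/-! Certificate for separation by a regular language. -/

set_option autoImplicit false

namespace Pool.Agent.P.MP_1e185c_lc

open Filter Pool.Agent.Lib.ComputableProp

namespace C0

/-- all letters which occur in an instance -/
def lets (p : Inst) : List ℕ :=
  p.2.1 ++ p.2.2 ++ p.1.1.flatMap (fun x => x) ++ p.1.2.flatMap (fun x => x)

theorem mem_getD {t : List (List ℕ)} {b c : ℕ} (h : c ∈ t.getD b []) :
    c ∈ t.flatMap (fun x => x) := by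
  rw [List.getD_eq_getElem?_getD] at h
  cases hb : t[b]? with
  | none => simp [hb] at h
  | some x =>
    rw [hb] at h
    exact List.mem_flatMap.2 ⟨x, List.mem_of_getElem? hb, h⟩

theorem lets_g (p : Inst) : ∀ b ∈ lets p, ∀ c ∈ it (gOf p) 1 [b], c ∈ lets p := by
  intro b _ c hc
  have : c ∈ p.1.1.getD b [] := by simpa [it, app, gOf] using hc
  have := mem_getD this
  simp only [lets, List.mem_append]
  tauto

theorem lets_h (p : Inst) : ∀ b ∈ lets p, ∀ c ∈ it (hOf p) 1 [b], c ∈ lets p := by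
  intro b _ c hc
  have : c ∈ p.1.2.getD b [] := by simpa [it, app, hOf] using hc
  have := mem_getD this
  simp only [lets, List.mem_append]
  tauto

theorem lets_u (p : Inst) : ∀ a ∈ p.2.1, a ∈ lets p := by
  intro a ha; simp only [lets, List.mem_append]; tauto

theorem lets_v (p : Inst) : ∀ a ∈ p.2.2, a ∈ lets p := by
  intro a ha; simp only [lets, List.mem_append]; tauto

/-- the finite check -/
def Chk (z : Inst × ℕ × ℕ) (d : List (List ℕ) × ℕ × ℕ) : Prop :=
  d.2.2 < d.2.1 ∧ (∀ q < d.2.1, ∀ a ∈ lets z.1, st d.1 q a < d.2.1) ∧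
  (∀ a ∈ lets z.1, ∀ q < d.2.1,
    act d.1 (itT z.1.1.1 z.2.2 [a]) q = act d.1 (itT z.1.1.1 (z.2.2 + z.2.1) [a]) q) ∧
  (∀ a ∈ lets z.1, ∀ q < d.2.1,
    act d.1 (itT z.1.1.2 z.2.2 [a]) q = act d.1 (itT z.1.1.2 (z.2.2 + z.2.1) [a]) q) ∧
  act d.1 (itT z.1.1.1 z.2.2 z.1.2.1) d.2.2 ≠ act d.1 (itT z.1.1.2 z.2.2 z.1.2.2) d.2.2

@[fun_prop] theorem c_lets {α : Type} [Primcodable α] {p : α → Inst} (hp : Computable p) :
    Computable (fun a => lets (p a)) := by
  unfold lets; fun_prop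

theorem re_chk : RE (fun y : (Inst × ℕ × ℕ) × (List (List ℕ) × ℕ × ℕ) => Chk y.1 y.2) := by
  unfold Chk
  refine RE.and (RE.lt (by fun_prop) (by fun_prop)) (RE.and ?_ (RE.and ?_ (RE.and ?_ ?_)))
  · exact RE.forall_lt (by fun_prop) (RE.forall_mem (by fun_prop)
      (RE.lt (by fun_prop) (by fun_prop)))
  · exact RE.forall_mem (by fun_prop) (RE.forall_lt (by fun_prop)
      (RE.eq (by fun_prop) (by fun_prop)))
  · exact RE.forall_mem (by fun_prop) (RE.forall_lt (by fun_prop)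
      (RE.eq (by fun_prop) (by fun_prop)))
  · exact RE.ne (by fun_prop) (by fun_prop)

theorem chk_const {p : Inst} {M N : ℕ} {dt : List (List ℕ)} {n : ℕ}
    (h1 : ∀ q < n, ∀ a ∈ lets p, st dt q a < n) (g : ℕ → List ℕ)
    (hg : ∀ b ∈ lets p, ∀ c ∈ it g 1 [b], c ∈ lets p)
    (h2 : ∀ a ∈ lets p, ∀ q < n, act dt (it g N [a]) q = act dt (it g (N + M) [a]) q)
    (x : List ℕ) (hx : ∀ a ∈ x, a ∈ lets p) (j : ℕ) (q : ℕ) (hq : q < n) :
    act dt (it g (N + j * M) x) q = act dt (it g N x) q := by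
  have := act_per dt n (lets p) h1 g 1 hg N M (by simpa using h2) x hx j q hq
  simpa using this

end C0

open C0 in
theorem cert0 : ∃ C : Inst × ℕ × ℕ → Prop, RE C ∧ (∀ p M N, C (p, M, N) → Sep p M N) ∧
    ∀ p (U : Ultrafilter ℕ), (U : Filter ℕ) ≤ atTop → ¬ H0 (gOf p) (hOf p) p.2.1 p.2.2 U →
      ∃ M N, 1 ≤ M ∧ InCl U M N ∧ C (p, M, N) := by
  refine ⟨fun z => ∃ d, Chk z d, RE.ex re_chk, ?_, ?_⟩
  · rintro p M N ⟨⟨dt, n, q0⟩, h0, h1, h2, h3, h4⟩ j hj
    apply h4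
    have e1 := chk_const h1 (gOf p) (lets_g p) h2 p.2.1 (lets_u p) j q0 h0
    have e2 := chk_const h1 (hOf p) (lets_h p) h3 p.2.2 (lets_v p) j q0 h0
    rw [hj, e2] at e1
    exact e1.symm
  · intro p U hU hH
    unfold H0 at hH
    push Not at hH
    obtain ⟨R, hR, hH⟩ := hH
    obtain ⟨dt, n, q0, φ, h0, h1, hφ0, hφ⟩ := exists_dfa R hR (lets p)
    obtain ⟨i, M, hM, hg, hh⟩ := exists_rep dt n (lets p) h1 (gOf p) (hOf p) 1 (lets_g p) (lets_h p)
    obtain ⟨r, hr⟩ := inCl_refine (inCl_shift hU le_rfl (inCl_one U) i) hM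
    simp only [mul_one, zero_add] at hr
    have h2 : ∀ a ∈ lets p, ∀ q < n,
        act dt (it (gOf p) (i + r) [a]) q = act dt (it (gOf p) (i + r + M) [a]) q := by
      intro a ha
      simpa using act_rep dt n (lets p) h1 (gOf p) 1 (lets_g p) i M hg r [a] (by simpa using ha)
    have h3 : ∀ a ∈ lets p, ∀ q < n,
        act dt (it (hOf p) (i + r) [a]) q = act dt (it (hOf p) (i + r + M) [a]) q := by
      intro a ha
      simpa using act_rep dt n (lets p) h1 (hOf p) 1 (lets_h p) i M hh r [a] (by simpa using ha)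
    refine ⟨M, i + r, hM, hr, (dt, n, q0), h0, h1, h2, h3, fun h4 => ?_⟩
    obtain ⟨j, hj⟩ := hH M (i + r) hM hr
    have e1 := chk_const h1 (gOf p) (lets_g p) h2 p.2.1 (lets_u p) j q0 h0
    have e2 := chk_const h1 (hOf p) (lets_h p) h3 p.2.2 (lets_v p) j q0 h0
    have h5 : act dt (it (gOf p) (i + r + j * M) p.2.1) q0 =
        act dt (it (hOf p) (i + r + j * M) p.2.2) q0 := by
      rw [e1, e2]; exact h4
    have k1 := hφ _ (by simpa using it_over (gOf p) 1 _ (lets_g p) (i + r + j * M) _ (lets_u p))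
      q0 h0 []
    have k2 := hφ _ (by simpa using it_over (hOf p) 1 _ (lets_h p) (i + r + j * M) _ (lets_v p))
      q0 h0 []
    rw [List.append_assoc, hφ0, List.append_nil, List.append_nil] at k1 k2
    rw [h5, k2] at k1
    tauto

end Pool.Agent.P.MP_1e185c_lc
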