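import Pool.Agent.P.MP_1e185c_lc.Defs
import Pool.Agent.Lib.ComputableProp.Basic

/-! Shared lemmas for the certificates: iterates, residue classes, finite automata. -/

set_option autoImplicit false

namespace Pool.Agent.P.MP_1e185c_lc.C0

open Filter Pool.Agent.Lib.ComputableProp

section basic

variable {A : Type}

theorem app_append (g : A → List A) (x y : List A) : app g (x ++ y) = app g x ++ app g y := by
  simp [app]

theorem it_zero (g : A → List A) (w : List A) : it g 0 w = w := rfl

theorem it_succ (g : A → List A) (n : ℕ) (w : List A) : it g (n + 1) w = app g (it g n w) := by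
  simp [it, Function.iterate_succ_apply']

theorem it_add (g : A → List A) (m n : ℕ) (w : List A) : it g (m + n) w = it g m (it g n w) := by
  simp [it, Function.iterate_add_apply]

theorem it_nil (g : A → List A) (n : ℕ) : it g n [] = [] := by
  induction n with
  | zero => rfl
  | succ n ih => rw [it_succ, ih]; rfl

theorem it_append (g : A → List A) (n : ℕ) (x y : List A) :
    it g n (x ++ y) = it g n x ++ it g n y := by
  induction n with
  | zero => rfl
  | succ n ih => rw [it_succ, it_succ, it_succ, ih, app_append]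

theorem it_flat (g : A → List A) (n : ℕ) (x : List A) :
    it g n x = x.flatMap fun a => it g n [a] := by
  induction x with
  | nil => simp [it_nil]
  | cons a x ih =>
    rw [List.flatMap_cons, ← ih, ← it_append]; rfl

theorem it_factor (g : A → List A) (n : ℕ) {x y : List A} (h : x <:+: y) :
    it g n x <:+: it g n y := by
  obtain ⟨s, t, rfl⟩ := h
  rw [it_append, it_append]
  exact ⟨_, _, rfl⟩

/-- words over a set of letters closed under `it g M` stay over it -/
theorem it_over (g : A → List A) (M : ℕ) (J : List A)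
    (hJ : ∀ b ∈ J, ∀ c ∈ it g M [b], c ∈ J) (k : ℕ) :
    ∀ x : List A, (∀ a ∈ x, a ∈ J) → ∀ c ∈ it g (k * M) x, c ∈ J := by
  induction k with
  | zero => intro x hx; simpa [it_zero] using hx
  | succ k ih =>
    intro x hx c hc
    rw [Nat.succ_mul, add_comm, it_add, it_flat] at hc
    obtain ⟨a, ha, hc⟩ := List.mem_flatMap.1 hc
    exact hJ a (ih x hx a ha) c hc

end basic

section classes

theorem inCl_shift {U : Ultrafilter ℕ} (hU : (U : Filter ℕ) ≤ atTop) {M N : ℕ} (hM : 1 ≤ M)
    (h : InCl U M N) (k : ℕ) : InCl U M (N + k * M) := by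
  have h1 : {n | N + k * M ≤ n} ∈ (U : Filter ℕ) := hU (mem_atTop _)
  have h2 : {n | ∃ j, n = N + j * M} ∈ (U : Filter ℕ) := h
  refine (mem_of_superset (inter_mem h1 h2) ?_ : _ ∈ (U : Filter ℕ))
  rintro n ⟨hn, j, rfl⟩
  have hkj : k ≤ j := by
    have : k * M ≤ j * M := by simpa using hn
    exact Nat.le_of_mul_le_mul_right this hM
  obtain ⟨i, rfl⟩ := Nat.exists_eq_add_of_le hkj
  exact ⟨i, by ring⟩

theorem inCl_refine {U : Ultrafilter ℕ} {M N : ℕ} (h : InCl U M N) {p : ℕ} (hp : 1 ≤ p) :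
    ∃ r, InCl U (p * M) (N + r * M) := by
  have h2 : {n | ∃ j, n = N + j * M} ∈ U := h
  have h3 : (⋃ r ∈ Set.Iio p, {n | ∃ j, n = N + r * M + j * (p * M)}) ∈ U := by
    refine (mem_of_superset h2 ?_ : _ ∈ (U : Filter ℕ))
    rintro n ⟨j, rfl⟩
    simp only [Set.mem_iUnion]
    refine ⟨j % p, Nat.mod_lt _ hp, j / p, ?_⟩
    conv_lhs => rw [← Nat.mod_add_div j p]
    ring
  obtain ⟨r, -, hr⟩ := (Ultrafilter.finite_biUnion_mem_iff (Set.finite_Iio p)).1 h3
  exact ⟨r, hr⟩

theorem inCl_one (U : Ultrafilter ℕ) : InCl U 1 0 := by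
  refine (mem_of_superset univ_mem ?_ : _ ∈ (U : Filter ℕ))
  intro n _
  exact ⟨n, by simp⟩

end classes

section dfa

/-- one step of an automaton given by a table -/
def st (dt : List (List ℕ)) (q a : ℕ) : ℕ := (dt.getD q []).getD a 0

/-- run of an automaton -/
def act (dt : List (List ℕ)) (w : List ℕ) (q : ℕ) : ℕ := w.foldl (st dt) q

theorem act_nil (dt : List (List ℕ)) (q : ℕ) : act dt [] q = q := rfl

theorem act_cons (dt : List (List ℕ)) (a : ℕ) (w : List ℕ) (q : ℕ) :
    act dt (a :: w) q = act dt w (st dt q a) := rfl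

theorem act_append (dt : List (List ℕ)) (x y : List ℕ) (q : ℕ) :
    act dt (x ++ y) q = act dt y (act dt x q) := by
  simp [act, List.foldl_append]

theorem act_closed (dt : List (List ℕ)) (S : ℕ → Prop) (L : List ℕ)
    (h : ∀ q, S q → ∀ a ∈ L, S (st dt q a)) :
    ∀ w : List ℕ, (∀ a ∈ w, a ∈ L) → ∀ q, S q → S (act dt w q) := by
  intro w
  induction w with
  | nil => intro _ q hq; exact hq
  | cons a w ih =>
    intro hw q hq
    rw [act_cons]
    exact ih (fun b hb => hw b (List.mem_cons_of_mem _ hb)) _ (h q hq a (hw a List.mem_cons_self))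

theorem act_flat (dt : List (List ℕ)) (n : ℕ) (L : List ℕ)
    (h : ∀ q < n, ∀ a ∈ L, st dt q a < n) (f f' : ℕ → List ℕ) :
    ∀ x : List ℕ, (∀ a ∈ x, ∀ c ∈ f a, c ∈ L) →
      (∀ a ∈ x, ∀ q < n, act dt (f a) q = act dt (f' a) q) →
      ∀ q < n, act dt (x.flatMap f) q = act dt (x.flatMap f') q := by
  intro x
  induction x with
  | nil => intro _ _ q _; rfl
  | cons a x ih =>
    intro h1 h2 q hq
    rw [List.flatMap_cons, List.flatMap_cons, act_append, act_append,
      ← h2 a List.mem_cons_self q hq]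
    exact ih (fun b hb => h1 b (List.mem_cons_of_mem _ hb))
      (fun b hb => h2 b (List.mem_cons_of_mem _ hb)) _
      (act_closed dt (· < n) L h _ (h1 a List.mem_cons_self) q hq)

/-- a repetition on letters propagates to all later times and all words -/
theorem act_rep (dt : List (List ℕ)) (n : ℕ) (L : List ℕ)
    (h : ∀ q < n, ∀ a ∈ L, st dt q a < n) (g : ℕ → List ℕ) (M : ℕ)
    (hL : ∀ b ∈ L, ∀ c ∈ it g M [b], c ∈ L) (i p : ℕ)
    (hp : ∀ a ∈ L, ∀ q < n, act dt (it g (i * M) [a]) q = act dt (it g ((i + p) * M) [a]) q)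
    (k : ℕ) (x : List ℕ) (hx : ∀ a ∈ x, a ∈ L) :
    ∀ q < n, act dt (it g ((i + k) * M) x) q = act dt (it g ((i + k + p) * M) x) q := by
  intro q hq
  have e1 : (i + k) * M = i * M + k * M := by ring
  have e2 : (i + k + p) * M = (i + p) * M + k * M := by ring
  rw [e1, e2, it_add, it_add, it_flat g (i * M), it_flat g ((i + p) * M)]
  have hy := it_over g M L hL k x hx
  refine act_flat dt n L h _ _ _ (fun a ha => ?_) (fun a ha => hp a (hy a ha)) q hq
  exact it_over g M L hL i [a] (by simpa using hy a ha)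

theorem act_per (dt : List (List ℕ)) (n : ℕ) (L : List ℕ)
    (h : ∀ q < n, ∀ a ∈ L, st dt q a < n) (g : ℕ → List ℕ) (M : ℕ)
    (hL : ∀ b ∈ L, ∀ c ∈ it g M [b], c ∈ L) (i p : ℕ)
    (hp : ∀ a ∈ L, ∀ q < n, act dt (it g (i * M) [a]) q = act dt (it g ((i + p) * M) [a]) q)
    (x : List ℕ) (hx : ∀ a ∈ x, a ∈ L) (j : ℕ) :
    ∀ q < n, act dt (it g ((i + j * p) * M) x) q = act dt (it g (i * M) x) q := by
  intro q hq
  induction j with
  | zero => simp
  | succ j ih =>
    rw [← ih, act_rep dt n L h g M hL i p hp (j * p) x hx q hq]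
    congr 2
    ring

/-- a repetition exists, for two morphisms at once -/
theorem exists_rep (dt : List (List ℕ)) (n : ℕ) (L : List ℕ)
    (h : ∀ q < n, ∀ a ∈ L, st dt q a < n) (g g' : ℕ → List ℕ) (M : ℕ)
    (hL : ∀ b ∈ L, ∀ c ∈ it g M [b], c ∈ L) (hL' : ∀ b ∈ L, ∀ c ∈ it g' M [b], c ∈ L) :
    ∃ i p, 1 ≤ p ∧
      (∀ a ∈ L, ∀ q < n, act dt (it g (i * M) [a]) q = act dt (it g ((i + p) * M) [a]) q) ∧
      (∀ a ∈ L, ∀ q < n, act dt (it g' (i * M) [a]) q = act dt (it g' ((i + p) * M) [a]) q) := by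
  have hlt : ∀ (g : ℕ → List ℕ), (∀ b ∈ L, ∀ c ∈ it g M [b], c ∈ L) → ∀ i, ∀ a ∈ L, ∀ q < n,
      act dt (it g (i * M) [a]) q < n := fun g hL i a ha q hq =>
    act_closed dt (· < n) L h _ (it_over g M L hL i [a] (by simpa using ha)) q hq
  have : Finite {a // a ∈ L} := List.finite_toSet L
  let F : ℕ → ({a // a ∈ L} → Fin n → Fin n × Fin n) := fun i a q =>
    (⟨act dt (it g (i * M) [a.1]) q, hlt g hL i a.1 a.2 q q.2⟩,
     ⟨act dt (it g' (i * M) [a.1]) q, hlt g' hL' i a.1 a.2 q q.2⟩)
  obtain ⟨i, j, hij, hF⟩ := Finite.exists_ne_map_eq_of_infinite F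
  wlog hlt' : i < j generalizing i j
  · exact this j i hij.symm hF.symm (lt_of_le_of_ne (not_lt.1 hlt') hij.symm)
  obtain ⟨p, rfl⟩ := Nat.exists_eq_add_of_lt hlt'
  refine ⟨i, p + 1, by omega, fun a ha q hq => ?_, fun a ha q hq => ?_⟩
  · have := congrArg (fun z => (z.1 : ℕ)) (congrFun (congrFun hF ⟨a, ha⟩) ⟨q, hq⟩)
    simpa [F, add_assoc] using this
  · have := congrArg (fun z => (z.2 : ℕ)) (congrFun (congrFun hF ⟨a, ha⟩) ⟨q, hq⟩)
    simpa [F, add_assoc] using this

/-- the automaton of left quotients -/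
theorem exists_dfa (R : Set (List ℕ)) (hR : (Set.range fun w => {w' | w ++ w' ∈ R}).Finite)
    (L : List ℕ) : ∃ (dt : List (List ℕ)) (n q0 : ℕ) (φ : ℕ → List ℕ), q0 < n ∧
      (∀ q < n, ∀ a ∈ L, st dt q a < n) ∧ (∀ y, φ q0 ++ y ∈ R ↔ y ∈ R) ∧
      ∀ x : List ℕ, (∀ a ∈ x, a ∈ L) → ∀ q < n, ∀ y, φ (act dt x q) ++ y ∈ R ↔ φ q ++ x ++ y ∈ R := by
  classical
  set S := Set.range fun w => {w' | w ++ w' ∈ R} with hS
  have : Finite S := hR
  obtain ⟨n, ⟨e⟩⟩ := Finite.exists_equiv_fin S
  let c : List ℕ → S := fun w => ⟨{w' | w ++ w' ∈ R}, w, rfl⟩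
  have hc : ∀ s : S, ∃ w, c w = s := by
    rintro ⟨s, w, rfl⟩
    exact ⟨w, rfl⟩
  choose r hr using hc
  let φ : ℕ → List ℕ := fun q => if h : q < n then r (e.symm ⟨q, h⟩) else []
  let D := L.sum + 1
  let dt : List (List ℕ) := (List.range n).map fun q =>
    (List.range D).map fun a => (e (c (φ q ++ [a])) : ℕ)
  have hst : ∀ q < n, ∀ a ∈ L, st dt q a = (e (c (φ q ++ [a])) : ℕ) := by
    intro q hq a ha
    have haD : a < D := Nat.lt_succ_of_le (List.single_le_sum (by simp) a ha)
    simp [st, dt, List.getD_eq_getElem?_getD, hq, haD]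
  have hφ : ∀ w y, φ (e (c w)) ++ y ∈ R ↔ w ++ y ∈ R := by
    intro w y
    have h1 : φ (e (c w)) = r (c w) := by simp [φ]
    have h2 := congrArg Subtype.val (hr (c w))
    rw [h1]
    exact Set.ext_iff.1 h2 y
  have hcl : ∀ q < n, ∀ a ∈ L, st dt q a < n := fun q hq a ha => by
    rw [hst q hq a ha]; exact (e _).2
  refine ⟨dt, n, e (c []), φ, (e _).2, hcl, fun y => by simpa using hφ [] y, ?_⟩
  intro x
  induction x with
  | nil => intro _ q _ y; simp [act_nil]
  | cons a x ih =>
    intro hx q hq y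
    have ha := hx a List.mem_cons_self
    rw [act_cons, ih (fun b hb => hx b (List.mem_cons_of_mem _ hb)) _ (hcl q hq a ha) y,
      hst q hq a ha, List.append_assoc, hφ]
    simp

end dfa

section comp

variable {α : Type} [Primcodable α]

/-- iterate of a morphism given by a table -/
def itT (t : List (List ℕ)) (n : ℕ) (w : List ℕ) : List ℕ := it (fun a => t.getD a []) n w

@[fun_prop] theorem c_flatMap {β σ : Type} [Primcodable β] [Primcodable σ] {f : α → List β}
    {g : α → β → List σ} (hf : Computable f) (hg : Computable (fun x : α × β => g x.1 x.2)) :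
    Computable (fun a => (f a).flatMap (g a)) := by
  have : Computable (fun a => (f a).foldr (fun b s => g a b ++ s) []) :=
    c_foldr (h := fun a b s => g a b ++ s) hf (Computable.const [])
      (c_append (hg.comp (g := fun x : α × β × List σ => (x.1, x.2.1)) (by fun_prop))
        (by fun_prop))
  refine this.of_eq fun a => ?_
  induction f a with
  | nil => rfl
  | cons b l ih => simp [ih]

@[fun_prop] theorem c_itT {t : α → List (List ℕ)} {n : α → ℕ} {w : α → List ℕ}
    (ht : Computable t) (hn : Computable n) (hw : Computable w) :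
    Computable (fun a => itT (t a) (n a) (w a)) := by
  have : Computable (fun a => (List.range (n a)).foldl
      (fun (s : List ℕ) (_ : ℕ) => s.flatMap fun b => (t a).getD b []) (w a)) := by
    fun_prop
  refine this.of_eq fun a => ?_
  induction n a with
  | zero => rfl
  | succ k ih =>
    rw [List.range_succ, List.foldl_append, ih, itT, itT, it_succ]; rfl

@[fun_prop] theorem c_st {t : α → List (List ℕ)} {q b : α → ℕ}
    (ht : Computable t) (hq : Computable q) (hb : Computable b) :
    Computable (fun a => st (t a) (q a) (b a)) := by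
  unfold st; fun_prop

@[fun_prop] theorem c_act {t : α → List (List ℕ)} {w : α → List ℕ} {q : α → ℕ}
    (ht : Computable t) (hw : Computable w) (hq : Computable q) :
    Computable (fun a => act (t a) (w a) (q a)) := by
  unfold act
  exact c_foldl (h := fun a s b => st (t a) s b) hw hq (by fun_prop)

end comp

end Pool.Agent.P.MP_1e185c_lc.C0
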