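import Pool.Agent.P.MP_1e185c_lc.Cert0Aux

/-! Counting occurrences of a word. -/

set_option autoImplicit false

namespace Pool.Agent.P.MP_1e185c_lc.C1

open Filter C0

variable {A : Type}

theorem cnt_nil (w : List A) : cnt w [] = 0 := by
  simp [cnt]

open Classical in
theorem cnt_cons (w : List A) (a : A) (y : List A) :
    cnt w (a :: y) = (if w <+: a :: y then 1 else 0) + cnt w y := by
  unfold cnt
  rw [Finset.card_filter, Finset.card_filter, List.length_cons, Finset.sum_range_succ', add_comm]
  simp only [List.drop_zero, List.drop_succ_cons]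

theorem cnt_le_length (w x : List A) : cnt w x ≤ x.length := by
  induction x with
  | nil => simp [cnt_nil]
  | cons a x ih =>
    rw [cnt_cons, List.length_cons]
    split_ifs <;> omega

theorem cnt_super (w x y : List A) : cnt w x + cnt w y ≤ cnt w (x ++ y) := by
  induction x with
  | nil => simp [cnt_nil]
  | cons a x ih =>
    rw [List.cons_append, cnt_cons, cnt_cons]
    by_cases h : w <+: a :: x
    · have h' : w <+: a :: (x ++ y) := by
        rw [← List.cons_append]; exact h.trans (List.prefix_append _ _)
      rw [if_pos h, if_pos h']; omega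
    · rw [if_neg h]; omega

theorem cnt_sub (w x y : List A) :
    cnt w (x ++ y) ≤ cnt w x + cnt w y + min x.length w.length := by
  induction x with
  | nil => simp [cnt_nil]
  | cons a x ih =>
    rw [List.cons_append, cnt_cons, cnt_cons, List.length_cons]
    by_cases h : w <+: a :: x
    · rw [if_pos h]; split_ifs <;> omega
    · rw [if_neg h]
      by_cases h' : w <+: a :: (x ++ y)
      · rw [if_pos h']
        have : x.length + 1 ≤ w.length := by
          by_contra hc
          apply h
          rw [← List.cons_append] at h'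
          exact List.prefix_of_prefix_length_le h' (List.prefix_append _ _)
            (by rw [List.length_cons]; omega)
        omega
      · rw [if_neg h']; omega

theorem cnt_mono (w : List A) {x y : List A} (h : x <:+: y) : cnt w x ≤ cnt w y := by
  obtain ⟨s, t, rfl⟩ := h
  have h1 := cnt_super w s x
  have h2 := cnt_super w (s ++ x) t
  omega

theorem cnt_pos {w : List A} (hw : w ≠ []) {x : List A} (h : w <:+: x) : 1 ≤ cnt w x := by
  refine le_trans ?_ (cnt_mono w h)
  obtain ⟨a, y, rfl⟩ := List.exists_cons_of_ne_nil hw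
  rw [cnt_cons, if_pos (List.prefix_refl _)]
  omega

theorem cnt_zero {w x : List A} (h : ¬ w <:+: x) : cnt w x = 0 := by
  induction x with
  | nil => exact cnt_nil w
  | cons a x ih =>
    rw [cnt_cons, if_neg (fun h' => h h'.isInfix), ih]
    intro h'
    exact h (h'.trans (List.suffix_cons a x).isInfix)

/-- number of letters of `x` which lie in `B` -/
def inA (B x : List ℕ) : ℕ := (x.map fun a => cond (B.any fun b => Pool.Agent.Lib.ComputableProp.eqb b a) 1 0).sum

theorem inA_nil (B : List ℕ) : inA B [] = 0 := rfl

theorem inA_cons (B : List ℕ) (a : ℕ) (x : List ℕ) :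
    inA B (a :: x) = (if a ∈ B then 1 else 0) + inA B x := by
  unfold inA
  rw [List.map_cons, List.sum_cons]
  congr 1
  by_cases h : a ∈ B
  · have : (B.any fun b => Pool.Agent.Lib.ComputableProp.eqb b a) = true := by simpa using h
    rw [this, if_pos h]; rfl
  · have : (B.any fun b => Pool.Agent.Lib.ComputableProp.eqb b a) = false := by
      rw [← Bool.not_eq_true]; simpa using h
    rw [this, if_neg h]; rfl

theorem cnt_flat_le (w : List ℕ) (f : ℕ → List ℕ) (B : List ℕ) (O : ℕ) (x : List ℕ)
    (h1 : ∀ a ∈ x, cnt w (f a) ≤ O) (h2 : ∀ a ∈ x, a ∉ B → cnt w (f a) = 0) :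
    cnt w (x.flatMap f) ≤ inA B x * O + x.length * w.length := by
  induction x with
  | nil => simp [cnt_nil]
  | cons a x ih =>
    have ih' := ih (fun b hb => h1 b (List.mem_cons_of_mem _ hb))
      (fun b hb => h2 b (List.mem_cons_of_mem _ hb))
    have h3 := cnt_sub w (f a) (x.flatMap f)
    have h4 : min (f a).length w.length ≤ w.length := min_le_right _ _
    rw [List.flatMap_cons, inA_cons, List.length_cons, add_mul, add_mul]
    by_cases h : a ∈ B
    · have := h1 a List.mem_cons_self
      rw [if_pos h]; omega
    · have := h2 a List.mem_cons_self h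
      rw [if_neg h]; omega

theorem cnt_flat_le' (w : List ℕ) (f : ℕ → List ℕ) (O : ℕ) (x : List ℕ)
    (h1 : ∀ a ∈ x, cnt w (f a) ≤ O) : cnt w (x.flatMap f) ≤ x.length * (O + w.length) := by
  induction x with
  | nil => simp [cnt_nil]
  | cons a x ih =>
    have ih' := ih (fun b hb => h1 b (List.mem_cons_of_mem _ hb))
    have h3 := cnt_sub w (f a) (x.flatMap f)
    have h4 : min (f a).length w.length ≤ w.length := min_le_right _ _
    have := h1 a List.mem_cons_self
    rw [List.flatMap_cons, List.length_cons, add_mul]
    omega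

theorem le_cnt_flat (w : List ℕ) (f : ℕ → List ℕ) (B : List ℕ) (x : List ℕ)
    (h1 : ∀ a ∈ x, a ∈ B → 1 ≤ cnt w (f a)) : inA B x ≤ cnt w (x.flatMap f) := by
  induction x with
  | nil => simp [inA_nil]
  | cons a x ih =>
    have ih' := ih (fun b hb => h1 b (List.mem_cons_of_mem _ hb))
    have h3 := cnt_super w (f a) (x.flatMap f)
    rw [List.flatMap_cons, inA_cons]
    by_cases h : a ∈ B
    · have := h1 a List.mem_cons_self h
      rw [if_pos h]; omega
    · rw [if_neg h]; omega

theorem cnt_lower (g : A → List A) (M : ℕ) {w : List A} (hw : w ≠ []) (xs : List (List A))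
    (xl : List A) (h : it g M w = xs.flatMap (fun x => x ++ w) ++ xl) (j : ℕ) :
    xs.length ^ j ≤ cnt w (it g (j * M) w) := by
  induction j with
  | zero => simpa [it_zero] using cnt_pos hw (List.infix_refl w)
  | succ j ih =>
    rw [Nat.succ_mul, it_add, h, it_append]
    refine le_trans ?_ (cnt_mono w (List.prefix_append _ _).isInfix)
    have key : ∀ ys : List (List A), ys.length * xs.length ^ j ≤
        cnt w (it g (j * M) (ys.flatMap fun x => x ++ w)) := by
      intro ys
      induction ys with
      | nil => simp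
      | cons y ys ihy =>
        rw [List.flatMap_cons, it_append, it_append, List.length_cons, add_mul]
        have h1 := cnt_super w (it g (j * M) y ++ it g (j * M) w)
          (it g (j * M) (ys.flatMap fun x => x ++ w))
        have h2 := cnt_super w (it g (j * M) y) (it g (j * M) w)
        omega
    rw [pow_succ, mul_comm]
    exact key xs

theorem factor_it (g : A → List A) (M : ℕ) {w : List A} (xs : List (List A))
    (xl : List A) (h : it g M w = xs.flatMap (fun x => x ++ w) ++ xl) (hx : 1 ≤ xs.length)
    (r : ℕ) : w <:+: it g (r * M) w := by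
  have h1 : w <:+: it g M w := by
    rw [h]
    obtain ⟨y, ys, rfl⟩ := List.exists_cons_of_ne_nil (List.ne_nil_of_length_pos hx)
    rw [List.flatMap_cons]
    exact ⟨y, ys.flatMap (fun x => x ++ w) ++ xl, by simp⟩
  induction r with
  | zero => simpa [it_zero] using List.infix_refl w
  | succ r ih =>
    rw [Nat.succ_mul, it_add]
    exact ih.trans (it_factor g _ h1)

theorem pow_dom {a b : ℕ} (h : a < b) (C : ℕ) : ∃ k0, ∀ k, k0 ≤ k → C * a ^ k < b ^ k := by
  have hb : (0 : ℝ) < b := by exact_mod_cast (Nat.zero_le a).trans_lt h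
  have h1 : (a : ℝ) / b < 1 := by rw [div_lt_one hb]; exact_mod_cast h
  have h2 := (tendsto_pow_atTop_nhds_zero_of_lt_one (r := (a : ℝ) / b) (by positivity) h1).const_mul
    (C : ℝ)
  rw [mul_zero] at h2
  obtain ⟨k0, hk⟩ := eventually_atTop.1 (h2.eventually (gt_mem_nhds (show (0 : ℝ) < 1 by norm_num)))
  refine ⟨k0, fun k hk0 => ?_⟩
  have h3 := hk k hk0
  rw [div_pow, ← mul_div_assoc, div_lt_one (by positivity)] at h3
  exact_mod_cast h3

/-- the language of words with a given factor has finitely many left quotients -/
theorem factor_finite (w : List ℕ) :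
    (Set.range fun x : List ℕ => {y | x ++ y ∈ {z : List ℕ | w <:+: z}}).Finite := by
  classical
  let F : Prop × (Fin (w.length + 1) → Prop) → Set (List ℕ) := fun s =>
    {y | s.1 ∨ w <:+: y ∨ ∃ i : Fin (w.length + 1), s.2 i ∧ w.drop i <+: y}
  refine (Set.finite_range F).subset ?_
  rintro _ ⟨x, rfl⟩
  refine ⟨(w <:+: x, fun i => w.take i <:+ x), ?_⟩
  ext y
  simp only [F, Set.mem_setOf_eq]
  rw [List.infix_append_iff]
  refine or_congr Iff.rfl (or_congr Iff.rfl ⟨?_, ?_⟩)
  · rintro ⟨i, h1, h2⟩
    exact ⟨_, _, (List.take_append_drop i w).symm, h1, h2⟩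
  · rintro ⟨l1, l2, rfl, h1, h2⟩
    exact ⟨⟨l1.length, by simp⟩, by simpa using h1, by simpa using h2⟩

end Pool.Agent.P.MP_1e185c_lc.C1
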