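import Pool.Agent.P.MP_1e185c_lc.Cert0
import Pool.Agent.P.MP_1e185c_lc.Cert1Aux

/-! Certificate for separation by growth rates of numbers of occurrences. -/

set_option autoImplicit false

namespace Pool.Agent.P.MP_1e185c_lc

open Filter Pool.Agent.Lib.ComputableProp

namespace C1

open C0

/-- first part of the finite check: the word `w` reproduces itself -/
def Chk1 (p : Inst) (M0 N0 : ℕ) (w : List ℕ) (xs : List (List ℕ)) (xl : List ℕ) : Prop :=
  w ≠ [] ∧ w <:+: itT p.1.1 N0 p.2.1 ∧ itT p.1.1 M0 w = xs.flatMap (fun x => x ++ w) ++ xl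

/-- second part: the automaton accepts all words with the factor `w` -/
def Chk2 (w : List ℕ) (dt : List (List ℕ)) (n q0 : ℕ) (Acc J : List ℕ) : Prop :=
  q0 < n ∧ (∀ q < n, ∀ a ∈ J, st dt q a < n) ∧ (∀ q < n, act dt w q ∈ Acc) ∧
    ∀ q ∈ Acc, ∀ a ∈ J, st dt q a ∈ Acc

/-- third part: conditions on the letters -/
def Chk3 (t : List (List ℕ)) (M0 : ℕ) (dt : List (List ℕ)) (n q0 : ℕ) (Acc J B : List ℕ)
    (P i0 μ c0 l0 : ℕ) : Prop :=
  ∀ b ∈ J, (∀ c ∈ itT t M0 [b], c ∈ J) ∧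
    (∀ q < n, act dt (itT t (i0 * M0) [b]) q = act dt (itT t ((i0 + P) * M0) [b]) q) ∧
    (b ∈ B ∨ act dt (itT t (i0 * M0) [b]) q0 ∉ Acc) ∧
    inA B (itT t (P * M0) [b]) ≤ μ ∧ (itT t (P * M0) [b]).length ≤ c0 ∧
    (itT t (i0 * M0) [b]).length ≤ l0

/-- fourth part: numerical conditions -/
def Chk4 (M N M0 N0 lw m lT P i0 k0 μ c0 l0 : ℕ) : Prop :=
  2 ≤ μ ∧ μ ≤ m ^ P ∧ lT * μ ^ k0 * (l0 + c0 * lw + lw) < m ^ (i0 + k0 * P) ∧
    M = P * M0 ∧ N = N0 + (i0 + k0 * P) * M0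

/-- certificate data -/
abbrev Dat : Type := (ℕ × ℕ × List ℕ × List (List ℕ) × List ℕ) ×
  (List (List ℕ) × ℕ × ℕ × List ℕ × List ℕ × List ℕ) × (ℕ × ℕ × ℕ × ℕ × ℕ × ℕ)

/-- the finite check -/
def Chk (z : Inst × ℕ × ℕ) (d : Dat) : Prop :=
  Chk1 z.1 d.1.1 d.1.2.1 d.1.2.2.1 d.1.2.2.2.1 d.1.2.2.2.2 ∧
  Chk2 d.1.2.2.1 d.2.1.1 d.2.1.2.1 d.2.1.2.2.1 d.2.1.2.2.2.1 d.2.1.2.2.2.2.1 ∧
  Chk3 z.1.1.2 d.1.1 d.2.1.1 d.2.1.2.1 d.2.1.2.2.1 d.2.1.2.2.2.1 d.2.1.2.2.2.2.1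
    d.2.1.2.2.2.2.2 d.2.2.1 d.2.2.2.1 d.2.2.2.2.2.1 d.2.2.2.2.2.2.1 d.2.2.2.2.2.2.2 ∧
  Chk4 z.2.1 z.2.2 d.1.1 d.1.2.1 d.1.2.2.1.length d.1.2.2.2.1.length
    (itT z.1.1.2 d.1.2.1 z.1.2.2).length d.2.2.1 d.2.2.2.1 d.2.2.2.2.1 d.2.2.2.2.2.1
    d.2.2.2.2.2.2.1 d.2.2.2.2.2.2.2 ∧
  ∀ a ∈ itT z.1.1.2 d.1.2.1 z.1.2.2, a ∈ d.2.1.2.2.2.2.1

section re

variable {α : Type} [Primcodable α]

@[fun_prop] theorem c_inA {B x : α → List ℕ} (hB : Computable B) (hx : Computable x) :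
    Computable (fun a => inA (B a) (x a)) := by
  unfold inA; fun_prop

theorem re_factor {x y : α → List ℕ} (hx : Computable x) (hy : Computable y) :
    RE (fun a => x a <:+: y a) := by
  have : RE (fun a => ∃ s : List ℕ × List ℕ, s.1 ++ x a ++ s.2 = y a) :=
    RE.ex (RE.eq (by fun_prop) (by fun_prop))
  refine this.of_iff fun a => ⟨fun ⟨s, hs⟩ => ⟨s.1, s.2, hs⟩, fun ⟨s, t, h⟩ => ⟨(s, t), h⟩⟩

theorem re_chk1 {p : α → Inst} {M0 N0 : α → ℕ} {w : α → List ℕ} {xs : α → List (List ℕ)}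
    {xl : α → List ℕ} (h1 : Computable p) (h2 : Computable M0) (h3 : Computable N0)
    (h4 : Computable w) (h5 : Computable xs) (h6 : Computable xl) :
    RE (fun a => Chk1 (p a) (M0 a) (N0 a) (w a) (xs a) (xl a)) := by
  unfold Chk1
  exact RE.and (RE.ne (by fun_prop) (by fun_prop)) (RE.and (re_factor (by fun_prop) (by fun_prop))
    (RE.eq (by fun_prop) (by fun_prop)))

theorem re_chk2 {w : α → List ℕ} {dt : α → List (List ℕ)} {n q0 : α → ℕ} {Acc J : α → List ℕ}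
    (h1 : Computable w) (h2 : Computable dt) (h3 : Computable n) (h4 : Computable q0)
    (h5 : Computable Acc) (h6 : Computable J) :
    RE (fun a => Chk2 (w a) (dt a) (n a) (q0 a) (Acc a) (J a)) := by
  unfold Chk2
  refine RE.and (RE.lt (by fun_prop) (by fun_prop)) (RE.and ?_ (RE.and ?_ ?_))
  · exact RE.forall_lt (by fun_prop) (RE.forall_mem (by fun_prop)
      (RE.lt (by fun_prop) (by fun_prop)))
  · exact RE.forall_lt (by fun_prop) (RE.mem (by fun_prop) (by fun_prop))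
  · exact RE.forall_mem (by fun_prop) (RE.forall_mem (by fun_prop)
      (RE.mem (by fun_prop) (by fun_prop)))

theorem re_chk3 {t : α → List (List ℕ)} {M0 : α → ℕ} {dt : α → List (List ℕ)} {n q0 : α → ℕ}
    {Acc J B : α → List ℕ} {P i0 μ c0 l0 : α → ℕ} (h1 : Computable t) (h2 : Computable M0)
    (h3 : Computable dt) (h4 : Computable n) (h5 : Computable q0) (h6 : Computable Acc)
    (h7 : Computable J) (h8 : Computable B) (h9 : Computable P) (h10 : Computable i0)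
    (h11 : Computable μ) (h12 : Computable c0) (h13 : Computable l0) :
    RE (fun a => Chk3 (t a) (M0 a) (dt a) (n a) (q0 a) (Acc a) (J a) (B a) (P a) (i0 a) (μ a)
      (c0 a) (l0 a)) := by
  unfold Chk3
  refine RE.forall_mem (by fun_prop) (RE.and ?_ (RE.and ?_ (RE.and ?_ (RE.and ?_ (RE.and ?_ ?_)))))
  · exact RE.forall_mem (by fun_prop) (RE.mem (by fun_prop) (by fun_prop))
  · exact RE.forall_lt (by fun_prop) (RE.eq (by fun_prop) (by fun_prop))
  · exact RE.or (RE.mem (by fun_prop) (by fun_prop)) (RE.not_mem (by fun_prop) (by fun_prop))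
  · exact RE.le (by fun_prop) (by fun_prop)
  · exact RE.le (by fun_prop) (by fun_prop)
  · exact RE.le (by fun_prop) (by fun_prop)

theorem re_chk4 {M N M0 N0 lw m lT P i0 k0 μ c0 l0 : α → ℕ} (h1 : Computable M)
    (h2 : Computable N) (h3 : Computable M0) (h4 : Computable N0) (h5 : Computable lw)
    (h6 : Computable m) (h7 : Computable lT) (h8 : Computable P) (h9 : Computable i0)
    (h10 : Computable k0) (h11 : Computable μ) (h12 : Computable c0) (h13 : Computable l0) :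
    RE (fun a => Chk4 (M a) (N a) (M0 a) (N0 a) (lw a) (m a) (lT a) (P a) (i0 a) (k0 a) (μ a)
      (c0 a) (l0 a)) := by
  unfold Chk4
  exact RE.and (RE.le (by fun_prop) (by fun_prop)) (RE.and (RE.le (by fun_prop) (by fun_prop))
    (RE.and (RE.lt (by fun_prop) (by fun_prop)) (RE.and (RE.eq (by fun_prop) (by fun_prop))
      (RE.eq (by fun_prop) (by fun_prop)))))

theorem re_chk : RE (fun y : (Inst × ℕ × ℕ) × Dat => Chk y.1 y.2) := by
  unfold Chk
  refine RE.and ?_ (RE.and ?_ (RE.and ?_ (RE.and ?_ ?_)))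
  · apply re_chk1 <;> fun_prop
  · apply re_chk2 <;> fun_prop
  · apply re_chk3 <;> fun_prop
  · apply re_chk4 <;> fun_prop
  · exact RE.forall_mem (by fun_prop) (RE.mem (by fun_prop) (by fun_prop))

end re

theorem acc_of_factor {w : List ℕ} {dt : List (List ℕ)} {n q0 : ℕ} {Acc J : List ℕ}
    (h : Chk2 w dt n q0 Acc J) {x : List ℕ} (hx : ∀ a ∈ x, a ∈ J) (hw : w <:+: x) :
    act dt x q0 ∈ Acc := by
  obtain ⟨h0, h1, h2, h3⟩ := h
  obtain ⟨y, z, rfl⟩ := hw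
  rw [act_append, act_append]
  refine act_closed dt (· ∈ Acc) J h3 z (fun a ha => hx a (by simp [ha])) _ (h2 _ ?_)
  exact act_closed dt (· < n) J h1 y (fun a ha => hx a (by simp [ha])) _ h0

theorem upper {t : List (List ℕ)} {w : List ℕ} {M0 : ℕ} {dt : List (List ℕ)} {n q0 : ℕ}
    {Acc J B : List ℕ} {P i0 μ c0 l0 : ℕ} (h2 : Chk2 w dt n q0 Acc J)
    (h3 : Chk3 t M0 dt n q0 Acc J B P i0 μ c0 l0) (hμ : 2 ≤ μ) (k : ℕ) :
    ∀ b ∈ J, cnt w (itT t ((i0 + k * P) * M0) [b]) + c0 * w.length ≤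
      μ ^ k * (l0 + c0 * w.length) := by
  set g : ℕ → List ℕ := fun a => t.getD a [] with hg
  have hJ : ∀ b ∈ J, ∀ c ∈ it g M0 [b], c ∈ J := fun b hb => (h3 b hb).1
  have hover : ∀ k, ∀ b ∈ J, ∀ c ∈ it g (k * M0) [b], c ∈ J := fun k b hb =>
    it_over g M0 J hJ k [b] (by simpa using hb)
  have hz : ∀ k, ∀ b ∈ J, b ∉ B → cnt w (it g ((i0 + k * P) * M0) [b]) = 0 := by
    intro k b hb hB
    refine cnt_zero fun hw => ?_
    have h4 := acc_of_factor h2 (hover _ b hb) hw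
    rw [act_per dt n J h2.2.1 g M0 hJ i0 P (fun a ha => (h3 a ha).2.1) [b] (by simpa using hb) k
      q0 h2.1] at h4
    exact ((h3 b hb).2.2.1.resolve_left hB) h4
  induction k with
  | zero =>
    intro b hb
    have h4 := cnt_le_length w (itT t (i0 * M0) [b])
    have h5 := (h3 b hb).2.2.2.2.2
    simp only [zero_mul, add_zero, pow_zero, one_mul]
    omega
  | succ k ih =>
    intro b hb
    have e : (i0 + (k + 1) * P) * M0 = (i0 + k * P) * M0 + P * M0 := by ring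
    have hV : c0 * w.length ≤ μ ^ k * (l0 + c0 * w.length) := by
      have := ih b hb
      omega
    obtain ⟨O, hO⟩ := Nat.exists_eq_add_of_le hV
    have h4 := cnt_flat_le w (fun a => it g ((i0 + k * P) * M0) [a]) B O (it g (P * M0) [b])
      (fun a ha => by
        have := ih a (hover P b hb a ha)
        rw [hO] at this
        change cnt w (it g _ [a]) + _ ≤ _ at this
        omega)
      (fun a ha => hz k a (hover P b hb a ha))
    rw [← it_flat, ← it_add, ← e] at h4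
    have h5 : inA B (it g (P * M0) [b]) * O ≤ μ * O :=
      Nat.mul_le_mul_right _ (h3 b hb).2.2.2.1
    have h6 : (it g (P * M0) [b]).length * w.length ≤ c0 * w.length :=
      Nat.mul_le_mul_right _ (h3 b hb).2.2.2.2.1
    have h7 : 2 * (c0 * w.length) ≤ μ * (c0 * w.length) := Nat.mul_le_mul_right _ hμ
    rw [pow_succ, mul_comm (μ ^ k) μ, mul_assoc, hO, mul_add]
    change cnt w (it g _ [b]) + _ ≤ _
    omega

theorem sound {p : Inst} {M N : ℕ} {d : Dat} (h : Chk (p, M, N) d) : Sep p M N := by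
  obtain ⟨⟨M0, N0, w, xs, xl⟩, ⟨dt, n, q0, Acc, J, B⟩, ⟨P, i0, k0, μ, c0, l0⟩⟩ := d
  obtain ⟨⟨hw, hf, hg⟩, h2, h3, ⟨hμ, hμm, hlt, hM, hN⟩, hT⟩ := h
  dsimp only at hw hf hg h2 h3 hμ hμm hlt hM hN hT
  intro j hj
  have e : N + j * M = (i0 + (k0 + j) * P) * M0 + N0 := by rw [hM, hN]; ring
  rw [e, it_add, it_add] at hj
  have l1 : xs.length ^ (i0 + (k0 + j) * P) ≤
      cnt w (it (gOf p) ((i0 + (k0 + j) * P) * M0) (it (gOf p) N0 p.2.1)) :=
    (cnt_lower (gOf p) M0 hw xs xl hg _).trans (cnt_mono w (it_factor _ _ hf))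
  have l2 := cnt_flat_le' w (fun a => it (hOf p) ((i0 + (k0 + j) * P) * M0) [a])
    (μ ^ (k0 + j) * (l0 + c0 * w.length)) (it (hOf p) N0 p.2.2)
    (fun a ha => le_trans (Nat.le_add_right _ _) (upper h2 h3 hμ (k0 + j) a (hT a ha)))
  rw [← it_flat, ← hj] at l2
  have l3 := l1.trans l2
  change (it (hOf p) N0 p.2.2).length * _ * _ < _ at hlt
  set lT := (it (hOf p) N0 p.2.2).length
  have hp1 : 1 ≤ μ ^ (k0 + j) := Nat.one_le_pow _ _ (by omega)
  have l4 : μ ^ (k0 + j) * (l0 + c0 * w.length) + w.length ≤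
      μ ^ (k0 + j) * (l0 + c0 * w.length + w.length) := by
    rw [mul_add _ _ w.length]
    have := Nat.mul_le_mul_right w.length hp1
    omega
  have l5 : lT * (μ ^ (k0 + j) * (l0 + c0 * w.length + w.length)) <
      μ ^ j * xs.length ^ (i0 + k0 * P) := by
    have := Nat.mul_lt_mul_of_pos_left hlt (show 0 < μ ^ j by positivity)
    refine lt_of_eq_of_lt ?_ this
    ring
  have l6 : μ ^ j * xs.length ^ (i0 + k0 * P) ≤ xs.length ^ (i0 + (k0 + j) * P) := by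
    have := Nat.mul_le_mul_right (xs.length ^ (i0 + k0 * P)) (Nat.pow_le_pow_left hμm j)
    refine this.trans (le_of_eq ?_)
    ring
  have l7 := Nat.mul_le_mul_left lT l4
  omega

theorem exists_bound (J : List ℕ) (f : ℕ → ℕ) : ∃ c, ∀ b ∈ J, f b ≤ c :=
  ⟨(J.map f).sum, fun b hb => List.single_le_sum (by simp) _ (List.mem_map_of_mem hb)⟩

theorem complete (p : Inst) (U : Ultrafilter ℕ) (hU : (U : Filter ℕ) ≤ atTop)
    (hH : ¬ H1 (gOf p) (hOf p) p.2.1 p.2.2 U) :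
    ∃ M N, 1 ≤ M ∧ InCl U M N ∧ ∃ d, Chk (p, M, N) d := by
  classical
  unfold H1 at hH
  push Not at hH
  obtain ⟨M0, N1, w, xs, xl, C, hM0, hcl, hw, hf, hg, hm, hC⟩ := hH
  set h := hOf p with hh
  let J : List ℕ := (lets p).filter fun a => decide (∃ j, a ∈ it h (N1 + j * M0) p.2.2)
  have hJ : ∀ a, a ∈ J ↔ ∃ j, a ∈ it h (N1 + j * M0) p.2.2 := by
    intro a
    simp only [J, List.mem_filter, decide_eq_true_eq]
    refine ⟨fun h => h.2, fun ⟨j, hj⟩ => ⟨?_, j, hj⟩⟩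
    exact it_over h 1 _ (lets_h p) (N1 + j * M0) _ (lets_v p) a (by simpa using hj)
  have hfac : ∀ b j k, b ∈ it h (N1 + j * M0) p.2.2 →
      it h (k * M0) [b] <:+: it h (N1 + (j + k) * M0) p.2.2 := by
    intro b j k hb
    have e : N1 + (j + k) * M0 = k * M0 + (N1 + j * M0) := by ring
    rw [e, it_add]
    exact it_factor _ _ (List.singleton_infix_iff _ _ |>.2 hb)
  have hJc : ∀ b ∈ J, ∀ c ∈ it h M0 [b], c ∈ J := by
    intro b hb c hc
    obtain ⟨j, hj⟩ := (hJ b).1 hb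
    exact (hJ c).2 ⟨j + 1, (hfac b j 1 hj).subset (by simpa using hc)⟩
  have hover : ∀ k, ∀ b ∈ J, ∀ c ∈ it h (k * M0) [b], c ∈ J := fun k b hb =>
    it_over h M0 J hJc k [b] (by simpa using hb)
  obtain ⟨dt, n, q0, φ, h0, h1, hφ0, hφ⟩ := exists_dfa _ (factor_finite w) (J ++ w)
  simp only [Set.mem_setOf_eq] at hφ0 hφ
  have h1' : ∀ q < n, ∀ a ∈ J, st dt q a < n := fun q hq a ha =>
    h1 q hq a (List.mem_append_left _ ha)
  let Acc : List ℕ := (List.range n).filter fun q => decide (w <:+: φ q)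
  have hAcc : ∀ q, q ∈ Acc ↔ q < n ∧ w <:+: φ q := by
    intro q; simp [Acc]
  have hφ' : ∀ x : List ℕ, (∀ a ∈ x, a ∈ J ++ w) → ∀ q < n,
      (act dt x q ∈ Acc ↔ w <:+: φ q ++ x) := by
    intro x hx q hq
    have k1 := hφ x hx q hq []
    rw [List.append_nil, List.append_nil] at k1
    rw [hAcc, k1]
    exact and_iff_right (act_closed dt (· < n) _ h1 x hx q hq)
  have c2 : Chk2 w dt n q0 Acc J := by
    refine ⟨h0, h1', fun q hq => ?_, fun q hq a ha => ?_⟩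
    · exact (hφ' w (fun a ha => List.mem_append_right _ ha) q hq).2
        (List.suffix_append _ _).isInfix
    · have k1 := (hAcc q).1 hq
      exact (hφ' [a] (by simp [ha]) q k1.1).2 (k1.2.trans (List.prefix_append _ _).isInfix)
  obtain ⟨i0, p0, hp0, hrep, -⟩ := exists_rep dt n J h1' h h M0 hJc hJc
  let B : List ℕ := J.filter fun a => decide (w <:+: it h (i0 * M0) [a])
  have hB : ∀ a, a ∈ B ↔ a ∈ J ∧ w <:+: it h (i0 * M0) [a] := by
    intro a; simp [B]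
  have hgrow : ∀ b, ∃ P0, b ∈ J → ∀ P, P0 ≤ P → inA B (it h (P * M0) [b]) < xs.length ^ P := by
    intro b
    by_cases hb : b ∈ J
    swap
    · exact ⟨0, fun h => absurd h hb⟩
    obtain ⟨j, hj⟩ := (hJ b).1 hb
    obtain ⟨P0, hP0⟩ := pow_dom (show 2 * xs.length - 1 < 2 * xs.length by omega)
      (C * (2 * xs.length - 1) ^ (j + i0))
    refine ⟨P0, fun _ P hP => ?_⟩
    have k1 := le_cnt_flat w (fun a => it h (i0 * M0) [a]) B (it h (P * M0) [b])
      (fun a _ ha => cnt_pos hw ((hB a).1 ha).2)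
    rw [← it_flat, ← it_add, ← add_mul] at k1
    have k2 := cnt_mono w (hfac b j (i0 + P) hj)
    have k3 := hC (j + (i0 + P))
    have k4 := hP0 P hP
    have k5 : 2 ^ P * inA B (it h (P * M0) [b]) ≤
        2 ^ (j + (i0 + P)) * cnt w (it h (N1 + (j + (i0 + P)) * M0) p.2.2) :=
      Nat.mul_le_mul (Nat.pow_le_pow_right (by norm_num) (by omega)) (k1.trans k2)
    have k6 : C * (2 * xs.length - 1) ^ (j + (i0 + P)) =
        C * (2 * xs.length - 1) ^ (j + i0) * (2 * xs.length - 1) ^ P := by ring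
    rw [mul_pow] at k4
    have k7 : 2 ^ P * inA B (it h (P * M0) [b]) < 2 ^ P * xs.length ^ P := by omega
    exact Nat.lt_of_mul_lt_mul_left k7
  choose P0 hP0 using hgrow
  obtain ⟨P1, hP1⟩ := exists_bound J P0
  set P := (P1 + 2) * p0 with hP
  have hPge : P1 + 2 ≤ P := Nat.le_mul_of_pos_right _ hp0
  have hmP : 4 ≤ xs.length ^ P :=
    calc 4 = 2 ^ 2 := by norm_num
      _ ≤ xs.length ^ 2 := Nat.pow_le_pow_left hm 2
      _ ≤ xs.length ^ P := Nat.pow_le_pow_right (by omega) (by omega)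
  obtain ⟨c0, hc0⟩ := exists_bound J fun b => (it h (P * M0) [b]).length
  obtain ⟨l0, hl0⟩ := exists_bound J fun b => (it h (i0 * M0) [b]).length
  have c3 : Chk3 p.1.2 M0 dt n q0 Acc J B P i0 (xs.length ^ P - 1) c0 l0 := by
    intro b hb
    refine ⟨hJc b hb, fun q hq => ?_, ?_, ?_, hc0 b hb, hl0 b hb⟩
    · exact (act_per dt n J h1' h M0 hJc i0 p0 hrep [b] (by simpa using hb) (P1 + 2) q hq).symm
    · by_cases hb' : b ∈ B
      · exact Or.inl hb'
      · refine Or.inr fun k1 => hb' ((hB b).2 ⟨hb, ?_⟩)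
        have k2 := (hφ' _ (fun a ha => List.mem_append_left _ (hover i0 b hb a ha)) q0 h0).1 k1
        exact (hφ0 _).1 k2
    · have := hP0 b hb P (by have := hP1 b hb; omega)
      change inA B (it h (P * M0) [b]) ≤ _
      omega
  obtain ⟨r, hr⟩ := inCl_refine (inCl_shift hU hM0 hcl i0) (show 1 ≤ P by omega)
  obtain ⟨k0, hk0⟩ := pow_dom (show xs.length ^ P - 1 < xs.length ^ P by omega)
    ((it h (N1 + r * M0) p.2.2).length * (l0 + c0 * w.length + w.length))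
  have hPM : 1 ≤ P * M0 := Nat.mul_pos (by omega) hM0
  refine ⟨P * M0, N1 + i0 * M0 + r * M0 + k0 * (P * M0), hPM, inCl_shift hU hPM hr k0,
    ((M0, N1 + r * M0, w, xs, xl), (dt, n, q0, Acc, J, B), (P, i0, k0, xs.length ^ P - 1, c0, l0)),
    ⟨hw, ?_, hg⟩, c2, c3, ⟨?_, ?_, ?_, rfl, ?_⟩, fun a ha => (hJ a).2 ⟨r, ha⟩⟩
  · change w <:+: it (gOf p) (N1 + r * M0) p.2.1
    rw [add_comm, it_add]
    exact (factor_it (gOf p) M0 xs xl hg (by omega) r).trans (it_factor _ _ hf)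
  · dsimp only; omega
  · dsimp only; omega
  · have k1 := hk0 k0 le_rfl
    change (it h (N1 + r * M0) p.2.2).length * (xs.length ^ P - 1) ^ k0 *
      (l0 + c0 * w.length + w.length) < xs.length ^ (i0 + k0 * P)
    calc _ = _ := by ring
      _ < (xs.length ^ P) ^ k0 := k1
      _ = xs.length ^ (k0 * P) := by ring
      _ ≤ xs.length ^ (i0 + k0 * P) := Nat.pow_le_pow_right (by omega) (by omega)
  · dsimp only; ring

end C1

theorem cert1 : ∃ C : Inst × ℕ × ℕ → Prop, RE C ∧ (∀ p M N, C (p, M, N) → Sep p M N) ∧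
    ∀ p (U : Ultrafilter ℕ), (U : Filter ℕ) ≤ atTop → ¬ H1 (gOf p) (hOf p) p.2.1 p.2.2 U →
      ∃ M N, 1 ≤ M ∧ InCl U M N ∧ C (p, M, N) :=
  ⟨fun z => ∃ d, C1.Chk z d, RE.ex C1.re_chk, fun _ _ _ ⟨_, h⟩ => C1.sound h, C1.complete⟩

end Pool.Agent.P.MP_1e185c_lc
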