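import Pool.Agent.P.MP_1e185c_lc.Cert3Aux3
import Pool.Agent.Lib.ComputableProp.Basic

/-! The certificate for longest periodic runs is computably enumerable. -/

set_option autoImplicit false

namespace Pool.Agent.P.MP_1e185c_lc

open Filter Pool.Agent.Lib.ComputableProp

namespace C3

variable {α : Type} [Primcodable α]

@[fun_prop] theorem c_take {f : α → ℕ} {g : α → List ℕ} (hf : Computable f)
    (hg : Computable g) : Computable fun a => List.take (f a) (g a) :=
  Primrec.list_take.to_comp.comp hf hg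

@[fun_prop] theorem c_drop {f : α → ℕ} {g : α → List ℕ} (hf : Computable f)
    (hg : Computable g) : Computable fun a => List.drop (f a) (g a) :=
  Primrec.list_drop.to_comp.comp hf hg

@[fun_prop] theorem c_app {σ : α → ℕ → List ℕ} {w : α → List ℕ}
    (hσ : Computable fun x : α × ℕ => σ x.1 x.2) (hw : Computable w) :
    Computable fun a => app (σ a) (w a) := by
  have : Computable (fun a => (w a).foldr (fun b s => σ a b ++ s) []) :=
    c_foldr (h := fun a b s => σ a b ++ s) hw (Computable.const [])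
      (c_append (hσ.comp (g := fun x : α × ℕ × List ℕ => (x.1, x.2.1)) (by fun_prop))
        (by fun_prop))
  refine this.of_eq fun a => ?_
  induction w a with
  | nil => rfl
  | cons b l ih => simp [ih]

@[fun_prop] theorem c_tab {T : α → List (List ℕ)} {d : α → ℕ} (hT : Computable T)
    (hd : Computable d) : Computable fun a => tab (T a) (d a) := by
  unfold tab
  fun_prop

@[fun_prop] theorem c_rp {p : α → List ℕ} {m : α → ℕ} (hp : Computable p) (hm : Computable m) :
    Computable fun a => rp (p a) (m a) := by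
  have : Computable fun a => app (fun _ => p a) (List.range (m a)) := by fun_prop
  refine this.of_eq fun a => ?_
  induction m a with
  | zero => rfl
  | succ n ih => rw [List.range_succ, app_append, ih, rp_add, rp_one]; simp

@[fun_prop] theorem c_it {T : α → List (List ℕ)} {m : α → ℕ} {w : α → List ℕ}
    (hT : Computable T) (hm : Computable m) (hw : Computable w) :
    Computable fun a => it (tab (T a)) (m a) (w a) := by
  have : Computable fun a => (List.range (m a)).foldl (fun s _ => app (tab (T a)) s) (w a) := by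
    fun_prop
  refine this.of_eq fun a => ?_
  induction m a with
  | zero => rfl
  | succ n ih => rw [List.range_succ, List.foldl_append, ih, it_succ]; rfl

@[fun_prop] theorem c_pw {T : α → List (List ℕ)} {m x : α → ℕ}
    (hT : Computable T) (hm : Computable m) (hx : Computable x) :
    Computable fun a => pw (tab (T a)) (m a) (x a) := by
  unfold pw
  fun_prop

@[fun_prop] theorem c_cf {σ : α → ℕ → List ℕ} {w : α → List ℕ} {i : α → ℕ}
    (hσ : Computable fun x : α × ℕ => σ x.1 x.2) (hw : Computable w) (hi : Computable i) :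
    Computable fun a => cf (σ a) (w a) (i a) := by
  unfold cf
  fun_prop

/-- window of a padded word -/
def win (z : List ℕ) (i n m : ℕ) : List ℕ := seg (pad 0 z) ((i : ℤ) - n) m

@[fun_prop] theorem c_win {z : α → List ℕ} {i n m : α → ℕ} (hz : Computable z)
    (hi : Computable i) (hn : Computable n) (hm : Computable m) :
    Computable fun a => win (z a) (i a) (n a) (m a) := by
  have : Computable fun a => (List.range (m a)).map fun k =>
      cond (leb (n a) (i a + k)) ((z a).getD (i a + k - n a) 0) 0 := by fun_prop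
  refine this.of_eq fun a => ?_
  rw [win, seg_eq]
  refine List.map_congr_left fun k _ => ?_
  unfold pad
  by_cases h : n a ≤ i a + k
  · rw [if_pos (by omega), (leb_iff _ _).2 h, cond_true]
    congr 1
    omega
  · rw [if_neg (by omega), Bool.eq_false_iff.2 fun h' => h ((leb_iff _ _).1 h'), cond_false]

theorem re_imp {P Q : α → Prop} (hP : RE fun a => ¬ P a) (hQ : RE Q) : RE fun a => P a → Q a :=
  (hP.or hQ).of_iff fun _ => imp_iff_not_or.symm

theorem re_not_le {f g : α → ℕ} (hf : Computable f) (hg : Computable g) :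
    RE fun a => ¬ f a ≤ g a := (RE.lt hg hf).of_iff fun _ => not_le.symm

theorem re_not_lt {f g : α → ℕ} (hf : Computable f) (hg : Computable g) :
    RE fun a => ¬ f a < g a := (RE.le hg hf).of_iff fun _ => not_lt.symm

theorem re_occ {w u : α → List ℕ} {i : α → ℕ} (hw : Computable w) (hi : Computable i)
    (hu : Computable u) : RE fun a => Occ (w a) (i a) (u a) :=
  (RE.eq (f := u) (g := fun a => ((w a).drop (i a)).take (u a).length) hu (by fun_prop)).of_iff
    fun _ => List.prefix_iff_eq_take.symm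

theorem re_not_occ {w u : α → List ℕ} {i : α → ℕ} (hw : Computable w) (hi : Computable i)
    (hu : Computable u) : RE fun a => ¬ Occ (w a) (i a) (u a) :=
  (RE.ne (f := u) (g := fun a => ((w a).drop (i a)).take (u a).length) hu (by fun_prop)).of_iff
    fun _ => not_congr List.prefix_iff_eq_take.symm

theorem re_infix {w u : α → List ℕ} (hu : Computable u) (hw : Computable w) :
    RE fun a => u a <:+: w a :=
  RE.ex (RE.ex (RE.eq (by fun_prop) (by fun_prop)))

section

variable {σ H : α → ℕ → List ℕ} {c p d c' p' d' w z : α → List ℕ}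
  {κ e L oL oR L0 L1 j1 K : α → ℕ} {Z : α → List (List ℕ)}

theorem re_low (hσ : Computable fun x : α × ℕ => σ x.1 x.2) (h1 : Computable c)
    (h2 : Computable p) (h3 : Computable d) (h4 : Computable c') (h5 : Computable p')
    (h6 : Computable d') (h7 : Computable κ) (h8 : Computable e) :
    RE fun a => Low (σ a) ⟨c a, p a, d a⟩ ⟨c' a, p' a, d' a⟩ (κ a) (e a) := by
  unfold Low
  dsimp only
  exact RE.ex (RE.ex (RE.ex (RE.ex ((RE.eq (by fun_prop) (by fun_prop)).and
    ((RE.eq (by fun_prop) (by fun_prop)).and ((RE.eq (by fun_prop) (by fun_prop)).and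
      (RE.eq (by fun_prop) (by fun_prop))))))))

theorem re_upW (hσ : Computable fun x : α × ℕ => σ x.1 x.2) (h1 : Computable c)
    (h2 : Computable p) (h3 : Computable d) (h4 : Computable c') (h5 : Computable p')
    (h6 : Computable d') (h7 : Computable κ) (h8 : Computable oL) (h9 : Computable oR)
    (h10 : Computable L0) (h11 : Computable L1) (h12 : Computable j1) (h13 : Computable K)
    (h14 : Computable w) :
    RE fun a => UpW (σ a) ⟨c a, p a, d a⟩ ⟨c' a, p' a, d' a⟩ (κ a) (oL a) (oR a) (L0 a) (L1 a)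
      (j1 a) (K a) (w a) := by
  unfold UpW
  dsimp only
  refine RE.and (RE.of_iff (P := fun a => ∀ q < cf (σ a) (w a) (K a + 1),
      cf (σ a) (w a) (K a) ≤ q → (c' a).length ≤ q →
      Occ (app (σ a) (w a)) (q - (c' a).length) (c' a ++ rp (p' a) (L0 a)) →
      ∃ i, i ≤ 2 * K a ∧ (c a).length ≤ i ∧
        Occ (w a) (i - (c a).length) (c a ++ rp (p a) (L1 a)) ∧ cf (σ a) (w a) i = q + oL a) ?_
      fun a => ⟨fun h q a1 a2 => h q a2 a1, fun h q a1 a2 => h q a2 a1⟩) ?_
  · refine RE.forall_lt (by fun_prop) (re_imp (re_not_le (by fun_prop) (by fun_prop))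
      (re_imp (re_not_le (by fun_prop) (by fun_prop))
      (re_imp (re_not_occ (by fun_prop) (by fun_prop) (by fun_prop)) (RE.ex ?_))))
    exact (RE.le (by fun_prop) (by fun_prop)).and ((RE.le (by fun_prop) (by fun_prop)).and
      ((re_occ (by fun_prop) (by fun_prop) (by fun_prop)).and
        (RE.eq (by fun_prop) (by fun_prop))))
  · refine re_imp (re_not_occ (by fun_prop) (by fun_prop) (by fun_prop)) (RE.and
      (re_imp (re_not_occ (by fun_prop) (by fun_prop) (by fun_prop))
        (re_occ (by fun_prop) (by fun_prop) (by fun_prop))) ?_)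
    refine RE.forall_lt (by fun_prop) (re_imp (re_not_le (by fun_prop) (by fun_prop))
      (re_imp (re_not_occ (by fun_prop) (by fun_prop) (by fun_prop)) (RE.ex ?_)))
    exact (RE.le (by fun_prop) (by fun_prop)).and
      ((re_occ (by fun_prop) (by fun_prop) (by fun_prop)).and
        (RE.eq (by fun_prop) (by fun_prop)))

theorem re_num (hσ : Computable fun x : α × ℕ => σ x.1 x.2)
    (h2 : Computable p) (h4 : Computable c') (h5 : Computable p')
    (h6 : Computable d') (h7 : Computable κ) (h8 : Computable oL) (h9 : Computable oR)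
    (h10 : Computable L0) (h11 : Computable L1) (h12 : Computable j1) (h13 : Computable K)
    (h14 : Computable e) (h15 : Computable L) :
    RE fun a => Num (σ a) ⟨c a, p a, d a⟩ ⟨c' a, p' a, d' a⟩ (κ a) (e a) (L a) (oL a) (oR a)
      (L0 a) (L1 a) (j1 a) (K a) := by
  unfold Num
  dsimp only
  exact (RE.ne (by fun_prop) (by fun_prop)).and ((RE.le (by fun_prop) (by fun_prop)).and
    ((RE.eq (by fun_prop) (by fun_prop)).and ((RE.eq (by fun_prop) (by fun_prop)).and
    ((RE.le (by fun_prop) (by fun_prop)).and ((RE.le (by fun_prop) (by fun_prop)).and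
    ((RE.le (by fun_prop) (by fun_prop)).and ((RE.le (by fun_prop) (by fun_prop)).and
    ((RE.le (by fun_prop) (by fun_prop)).and (RE.le (by fun_prop) (by fun_prop))))))))))

theorem re_clo (hH : Computable fun x : α × ℕ => H x.1 x.2) (h1 : Computable z)
    (h2 : Computable K) (h3 : Computable Z) : RE fun a => Clo (H a) 0 (z a) (K a) (Z a) := by
  unfold Clo
  refine RE.and (RE.forall_lt (R := fun a i => win (z a) i (2 * K a) (2 * K a) ∈ Z a)
    (by fun_prop) (RE.mem (by fun_prop) (by fun_prop))) (RE.forall_mem h3 (RE.and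
      (RE.forall_mem (by fun_prop) (RE.ne (by fun_prop) (by fun_prop))) ?_))
  exact RE.forall_lt (by fun_prop) (re_imp (re_not_le (by fun_prop) (by fun_prop))
    (RE.mem (by fun_prop) (by fun_prop)))

theorem re_upC (hH : Computable fun x : α × ℕ => H x.1 x.2)
    (hσ : Computable fun x : α × ℕ => σ x.1 x.2) (h0 : Computable z) (h1 : Computable c)
    (h2 : Computable p) (h3 : Computable d) (h4 : Computable c') (h5 : Computable p')
    (h6 : Computable d') (h7 : Computable κ) (h8 : Computable e) (h9 : Computable L) :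
    RE fun a => UpC (H a) (σ a) (z a) ⟨c a, p a, d a⟩ ⟨c' a, p' a, d' a⟩ (κ a) (e a) (L a) := by
  unfold UpC
  refine RE.ex (RE.ex (RE.and ?_ (RE.and ?_ (RE.forall_mem (by fun_prop) (RE.and
    (RE.forall_mem (by fun_prop) (RE.ne (by fun_prop) (by fun_prop))) ?_)))))
  · apply re_num <;> fun_prop
  · apply re_clo <;> fun_prop
  · apply re_upW <;> fun_prop

theorem re_noOcc (h0 : Computable z) (h1 : Computable c) (h2 : Computable p)
    (h3 : Computable d) (h4 : Computable L) :
    RE fun a => NoOcc (z a) ⟨c a, p a, d a⟩ (L a) := by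
  unfold NoOcc Pat.W
  dsimp only
  refine RE.and (RE.exists_mem (by fun_prop) (RE.ne (by fun_prop) (by fun_prop)))
    (RE.and (RE.exists_mem (by fun_prop) (RE.ne (by fun_prop) (by fun_prop)))
    (RE.forall_lt (by fun_prop) (re_imp (re_not_lt (by fun_prop) (by fun_prop)) ?_)))
  exact RE.forall_lt (R := fun (x : α × ℕ) i => win (z x.1) i
    (c x.1 ++ rp (p x.1) x.2 ++ d x.1).length (c x.1 ++ rp (p x.1) x.2 ++ d x.1).length ≠
      c x.1 ++ rp (p x.1) x.2 ++ d x.1) (by fun_prop) (RE.ne (by fun_prop) (by fun_prop))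

end

theorem re_body {gl hl Rl Ql ws : α → List (List ℕ)} {u v ns : α → List ℕ} {M N' : α → ℕ}
    (h1 : Computable gl) (h2 : Computable hl) (h3 : Computable Rl) (h4 : Computable Ql)
    (h5 : Computable ws) (h6 : Computable u) (h7 : Computable v) (h8 : Computable ns)
    (h9 : Computable M) (h10 : Computable N') :
    RE fun x => Body (gl x) (hl x) (u x) (v x) (M x) (N' x) ((ns x).getD 0 0) (Rl x) (Ql x)
      ⟨tab (ws x) 0, tab (ws x) 1, tab (ws x) 2⟩ ⟨tab (ws x) 3, tab (ws x) 4, tab (ws x) 5⟩
      ⟨tab (ws x) 6, tab (ws x) 7, tab (ws x) 8⟩ ((ns x).getD 1 0) ((ns x).getD 2 0)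
      ((ns x).getD 3 0) ((ns x).getD 4 0) ((ns x).getD 5 0) ((ns x).getD 6 0) ((ns x).getD 7 0)
      ((ns x).getD 8 0) ((ns x).getD 9 0) ((ns x).getD 10 0) := by
  unfold Body Pat.W
  dsimp only
  refine RE.and (RE.eq (by fun_prop) (by fun_prop)) (RE.and (RE.le (by fun_prop) (by fun_prop))
    (RE.and (RE.le (by fun_prop) (by fun_prop))
    (RE.and (RE.forall_lt (by fun_prop) (RE.eq (by fun_prop) (by fun_prop)))
    (RE.and (RE.forall_mem (by fun_prop) (RE.eq (by fun_prop) (by fun_prop)))
    (RE.and (RE.forall_mem (by fun_prop) (RE.eq (by fun_prop) (by fun_prop)))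
    (RE.and ?_ (RE.and ?_ (RE.and (re_infix (by fun_prop) (by fun_prop)) (RE.and ?_ (RE.and ?_
    (RE.and ?_ (RE.and (RE.le (by fun_prop) (by fun_prop))
    (RE.and (RE.lt (by fun_prop) (by fun_prop)) (RE.le (by fun_prop) (by fun_prop)))))))))))))))
  · apply re_low <;> fun_prop
  · apply re_low <;> fun_prop
  · apply re_upC <;> fun_prop
  · apply re_upC <;> fun_prop
  · apply re_noOcc <;> fun_prop

end C3

open C3 in
theorem cert3 : ∃ C : Inst × ℕ × ℕ → Prop, RE C ∧ (∀ p M N, C (p, M, N) → Sep p M N) ∧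
    ∀ p (U : Ultrafilter ℕ), (U : Filter ℕ) ≤ atTop → ¬ H3 (gOf p) (hOf p) p.2.1 p.2.2 U →
      ∃ M N, 1 ≤ M ∧ InCl U M N ∧ C (p, M, N) := by
  refine ⟨fun x => ∃ y : (List (List ℕ) × List (List ℕ)) × (List (List ℕ) × List ℕ),
    Body x.1.1.1 x.1.1.2 x.1.2.1 x.1.2.2 x.2.1 x.2.2 (y.2.2.getD 0 0) y.1.1 y.1.2
      ⟨tab y.2.1 0, tab y.2.1 1, tab y.2.1 2⟩ ⟨tab y.2.1 3, tab y.2.1 4, tab y.2.1 5⟩
      ⟨tab y.2.1 6, tab y.2.1 7, tab y.2.1 8⟩ (y.2.2.getD 1 0) (y.2.2.getD 2 0)
      (y.2.2.getD 3 0) (y.2.2.getD 4 0) (y.2.2.getD 5 0) (y.2.2.getD 6 0) (y.2.2.getD 7 0)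
      (y.2.2.getD 8 0) (y.2.2.getD 9 0) (y.2.2.getD 10 0), RE.ex ?_, ?_, ?_⟩
  · apply re_body <;> fun_prop
  · rintro p M N ⟨y, hy⟩ j
    exact hy.sound j
  · intro p U hU h
    obtain ⟨M, N', hM, hcl, N, Rl, Ql, θ, θ', η, κ, e, a, b, κ', e', a', b', A0, B0, hb⟩ :=
      complete p.1.1 p.1.2 p.2.1 p.2.2 U hU h
    exact ⟨M, N', hM, hcl, ((Rl, Ql), ([θ.c, θ.p, θ.d, θ'.c, θ'.p, θ'.d, η.c, η.p, η.d],
      [N, κ, e, a, b, κ', e', a', b', A0, B0])), hb⟩

end Pool.Agent.P.MP_1e185c_lc
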