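import Pool.Agent.P.MP_1e185c_lc.Defs

/-! Occurrences in bi-infinite words, tilings, and soundness of the local conditions. -/

set_option autoImplicit false

namespace Pool.Agent.P.MP_1e185c_lc.C3

variable {A B : Type}

@[simp] theorem app_nil (σ : A → List B) : app σ [] = [] := rfl

@[simp] theorem app_cons (σ : A → List B) (a : A) (w : List A) :
    app σ (a :: w) = σ a ++ app σ w := by simp [app]

@[simp] theorem app_append (σ : A → List B) (u w : List A) :
    app σ (u ++ w) = app σ u ++ app σ w := by simp [app]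

theorem app_app {C : Type} (σ : A → List B) (τ : B → List C) (w : List A) :
    app τ (app σ w) = app (fun a => app τ (σ a)) w := by
  induction w with
  | nil => rfl
  | cons a w ih => simp [ih]

@[simp] theorem rp_zero (p : List A) : rp p 0 = [] := rfl

theorem rp_succ (p : List A) (m : ℕ) : rp p (m + 1) = p ++ rp p m := by
  simp [rp, List.replicate_succ]

theorem rp_add (p : List A) (m n : ℕ) : rp p (m + n) = rp p m ++ rp p n := by
  rw [rp, List.replicate_add, List.flatten_append]
  rfl

theorem rp_one (p : List A) : rp p 1 = p := by simp [rp]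

@[simp] theorem rp_length (p : List A) (m : ℕ) : (rp p m).length = m * p.length := by
  induction m with
  | zero => simp
  | succ m ih => rw [rp_succ, List.length_append, ih]; ring

theorem app_rp (σ : A → List B) (p : List A) (m : ℕ) : app σ (rp p m) = rp (app σ p) m := by
  induction m with
  | zero => rfl
  | succ m ih => rw [rp_succ, rp_succ, app_append, ih]

theorem app_infix (σ : A → List B) {u w : List A} (h : u <:+: w) : app σ u <:+: app σ w := by
  obtain ⟨s, t, rfl⟩ := h
  exact ⟨app σ s, app σ t, by simp⟩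

theorem low_sound {σ : A → List B} {θ : Pat A} {η : Pat B} {κ e : ℕ} (h : Low σ θ η κ e)
    (m : ℕ) : η.W (κ * m + e) <:+: app σ (θ.W m) := by
  obtain ⟨x, y, y', x', h1, h2, h3, h4⟩ := h
  have key : ∀ m, y ++ rp (app σ θ.p) m = rp η.p (κ * m) ++ y := by
    intro m
    induction m with
    | zero => simp
    | succ m ih =>
      rw [rp_succ, ← List.append_assoc, h3, List.append_assoc, ih, Nat.mul_succ, add_comm,
        rp_add, List.append_assoc]
  refine ⟨x, x', ?_⟩
  simp only [Pat.W, app_append, h1, h2, app_rp, rp_add, ← h4]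
  have := key m
  simp only [List.append_assoc]
  rw [← List.append_assoc y (rp (app σ θ.p) m), this]
  simp only [List.append_assoc]

/-- `u` occurs at position `a` of the bi-infinite word `y` -/
def At (y : ℤ → A) (a : ℤ) (u : List A) : Prop := seg y a u.length = u

theorem seg_eq (y : ℤ → A) (a : ℤ) (n : ℕ) :
    seg y a n = (List.range n).map fun i : ℕ => y (a + i) := rfl

@[simp] theorem seg_length (y : ℤ → A) (a : ℤ) (n : ℕ) : (seg y a n).length = n := by
  simp [seg_eq]

theorem seg_getElem (y : ℤ → A) (a : ℤ) (n k : ℕ) (h : k < (seg y a n).length) :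
    (seg y a n)[k] = y (a + k) := by simp [seg_eq]

theorem seg_add (y : ℤ → A) (a : ℤ) (n m : ℕ) :
    seg y a (n + m) = seg y a n ++ seg y (a + n) m := by
  simp only [seg_eq, List.range_add, List.map_append, List.map_map]
  congr 1
  refine List.map_congr_left fun i _ => ?_
  simp [add_assoc]

theorem seg_one (y : ℤ → A) (a : ℤ) : seg y a 1 = [y a] := by simp [seg]

theorem seg_take (y : ℤ → A) (a : ℤ) {n i : ℕ} (h : i ≤ n) : (seg y a n).take i = seg y a i := by
  obtain ⟨m, rfl⟩ := Nat.exists_eq_add_of_le h
  rw [seg_add, List.take_left' (by simp)]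

theorem seg_drop (y : ℤ → A) (a : ℤ) {n i : ℕ} (h : i ≤ n) :
    (seg y a n).drop i = seg y (a + i) (n - i) := by
  obtain ⟨m, rfl⟩ := Nat.exists_eq_add_of_le h
  rw [seg_add, List.drop_left' (by simp), Nat.add_sub_cancel_left]

theorem at_seg (y : ℤ → A) (a : ℤ) (n : ℕ) : At y a (seg y a n) := by simp [At]

theorem at_nil (y : ℤ → A) (a : ℤ) : At y a [] := by simp [At, seg]

theorem at_append {y : ℤ → A} {a : ℤ} {u v : List A} :
    At y a (u ++ v) ↔ At y a u ∧ At y (a + u.length) v := by
  unfold At
  rw [List.length_append, seg_add]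
  constructor
  · intro h
    exact List.append_inj h (by simp)
  · rintro ⟨h1, h2⟩
    rw [h1, h2]

theorem At.drop {y : ℤ → A} {a : ℤ} {u : List A} (h : At y a u) (k : ℕ) :
    At y (a + k) (u.drop k) := by
  by_cases hk : k ≤ u.length
  · rw [← List.take_append_drop k u, at_append] at h
    simpa [hk] using h.2
  · rw [List.drop_eq_nil_of_le (by omega)]
    exact at_nil _ _

theorem At.of_eq {y : ℤ → A} {a b : ℤ} {u : List A} (h : At y a u) (e : a = b) : At y b u :=
  e ▸ h

theorem at_of_occ {y : ℤ → A} {a : ℤ} {w u : List A} {i : ℕ} (hw : At y a w) (h : Occ w i u) :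
    At y (a + i) u := by
  obtain ⟨t, ht⟩ := h
  have := hw.drop i
  rw [← ht, at_append] at this
  exact this.1

theorem occ_of_at {y : ℤ → A} {a : ℤ} {w u : List A} {i : ℕ} (hw : At y a w)
    (h : At y (a + i) u) (hl : i + u.length ≤ w.length) : Occ w i u := by
  unfold Occ
  rw [← hw, seg_drop y a (by omega), ← h]
  obtain ⟨m, hm⟩ := Nat.exists_eq_add_of_le hl
  rw [show w.length - i = u.length + m by omega, seg_add]
  simp

/-- `Y` is the image of `y` under `σ`, and `F i` is the position of the image of letter `i` -/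
structure Tile (σ : A → List B) (y : ℤ → A) (Y : ℤ → B) (F : ℤ → ℤ) : Prop where
  ne : ∀ i, σ (y i) ≠ []
  step : ∀ i, F (i + 1) = F i + (σ (y i)).length
  img : ∀ i, At Y (F i) (σ (y i))

namespace Tile

variable {σ : A → List B} {y : ℤ → A} {Y : ℤ → B} {F : ℤ → ℤ}

theorem seg_img (T : Tile σ y Y F) (a : ℤ) (n : ℕ) :
    F (a + n) = F a + (app σ (seg y a n)).length ∧ At Y (F a) (app σ (seg y a n)) := by
  induction n with
  | zero => simp [seg, at_nil]
  | succ n ih =>
    rw [seg_add, seg_one, app_append, at_append, ← ih.1]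
    refine ⟨?_, ih.2, by simpa using T.img _⟩
    push_cast
    rw [← add_assoc, T.step, ih.1]
    simp [add_assoc]

theorem at_img (T : Tile σ y Y F) {a : ℤ} {u : List A} (h : At y a u) :
    F (a + u.length) = F a + (app σ u).length ∧ At Y (F a) (app σ u) := by
  have := T.seg_img a u.length
  rwa [h] at this

theorem le_add (T : Tile σ y Y F) (a : ℤ) (n : ℕ) : F a + n ≤ F (a + n) := by
  induction n with
  | zero => simp
  | succ n ih =>
    push_cast
    rw [← add_assoc, ← add_assoc, T.step]
    have := List.length_pos_iff.2 (T.ne (a + n))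
    omega

theorem exists_tile (T : Tile σ y Y F) (q : ℤ) : ∃ a, F a ≤ q ∧ q < F (a + 1) := by
  obtain ⟨a, ha, hm⟩ := Int.exists_greatest_of_bdd (P := fun a => F a ≤ q)
    ⟨(q - F 0).toNat, fun z hz => by
      by_contra hc
      have := T.le_add 0 z.toNat
      rw [zero_add, show ((z.toNat : ℕ) : ℤ) = z by omega] at this
      omega⟩
    ⟨-((F 0 - q).toNat : ℤ), by
      have := T.le_add (-((F 0 - q).toNat : ℤ)) (F 0 - q).toNat
      rw [neg_add_cancel] at this
      omega⟩
  refine ⟨a, ha, ?_⟩
  by_contra hc
  have := hm (a + 1) (by omega)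
  omega

theorem cf_seg (T : Tile σ y Y F) (a : ℤ) {n i : ℕ} (h : i ≤ n) :
    (cf σ (seg y a n) i : ℤ) = F (a + i) - F a := by
  unfold cf
  rw [seg_take y a h, (T.seg_img a i).1]
  ring

theorem len_seg (T : Tile σ y Y F) (a : ℤ) (n : ℕ) :
    ((app σ (seg y a n)).length : ℤ) = F (a + n) - F a := by
  rw [(T.seg_img a n).1]
  ring

end Tile

theorem at_pad (o : B) (W V : List B) (hV : ∀ x ∈ V, x = o) : At (pad o W) 0 (W ++ V) := by
  unfold At
  refine List.ext_getElem (by simp) fun k h1 h2 => ?_
  rw [seg_getElem]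
  simp only [pad, zero_add, Nat.cast_nonneg, if_true, Int.toNat_natCast]
  by_cases hk : k < W.length
  · rw [List.getElem_append_left hk, List.getD_eq_getElem _ _ hk]
  · rw [List.getD_eq_default _ _ (by omega), List.getElem_append_right (by omega)]
    exact (hV _ (List.getElem_mem _)).symm

theorem seg_pad (o : A) (z : List A) (n : ℕ) :
    seg (pad o z) 0 (z.length + n) = z ++ List.replicate n o := by
  have := at_pad o z (List.replicate n o) (fun x hx => List.eq_of_mem_replicate hx)
  simpa [At] using this

theorem exists_tile_pad (σ : A → List B) (o : A) (o' : B) (z : List A)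
    (hne : ∀ i, σ (pad o z i) ≠ []) (ho : ∀ x ∈ σ o, x = o') :
    ∃ F, Tile σ (pad o z) (pad o' (app σ z)) F := by
  have hneg : ∀ i : ℤ, i < 0 → pad o z i = o := fun i hi => by simp [pad, hi.not_ge]
  refine ⟨fun i => if 0 ≤ i then ((app σ (seg (pad o z) 0 i.toNat)).length : ℤ)
    else i * (σ o).length, hne, fun i => ?_, fun i => ?_⟩
  · by_cases hi : 0 ≤ i
    · obtain ⟨n, rfl⟩ := Int.eq_ofNat_of_zero_le hi
      rw [if_pos (by omega), if_pos hi, show ((n : ℤ) + 1).toNat = n + 1 by omega,
        Int.toNat_natCast, seg_add, seg_one]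
      simp
    · rw [if_neg hi, hneg i (by omega)]
      by_cases hi' : 0 ≤ i + 1
      · rw [if_pos hi', show i = -1 by omega]
        simp [seg]
      · rw [if_neg hi']
        ring
  · by_cases hi : 0 ≤ i
    · obtain ⟨n, rfl⟩ := Int.eq_ofNat_of_zero_le hi
      simp only [if_pos hi, Int.toNat_natCast]
      have h1 : At (pad o' (app σ z)) 0 (app σ (seg (pad o z) 0 (z.length + (n + 1)))) := by
        rw [seg_pad, app_append]
        refine at_pad _ _ _ fun x hx => ?_
        obtain ⟨a, ha, hx⟩ := List.mem_flatMap.1 hx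
        rw [List.eq_of_mem_replicate ha] at hx
        exact ho x hx
      rw [show z.length + (n + 1) = n + 1 + z.length by ring, seg_add, seg_add, seg_one,
        app_append, app_append, at_append, at_append] at h1
      simpa using h1.1.2
    · simp only [if_neg hi]
      rw [hneg i (by omega)]
      unfold At
      refine List.ext_getElem (by simp) fun k h1 h2 => ?_
      rw [seg_getElem, ho _ (List.getElem_mem _)]
      have : i * (σ o).length + k < 0 := by nlinarith [show (k : ℤ) < (σ o).length by exact_mod_cast h2]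
      simp [pad, this.not_ge]

end Pool.Agent.P.MP_1e185c_lc.C3
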