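import Pool.Agent.P.MP_1e185c_lc.Cert3Aux1

/-! Soundness of the local window conditions, and closure of a finite set of windows. -/

set_option autoImplicit false

namespace Pool.Agent.P.MP_1e185c_lc.C3

variable {A B : Type}

/-- numerical side conditions -/
def Num (σ : A → List B) (θ : Pat A) (η : Pat B) (κ e L oL oR L0 L1 j1 K : ℕ) : Prop :=
  η.p ≠ [] ∧ 1 ≤ κ ∧ e * η.p.length = oL + oR ∧
    (app σ θ.p).length = κ * η.p.length ∧
    η.c.length + L0 * η.p.length ≤ K ∧ L1 * θ.p.length ≤ K ∧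
    j1 * η.p.length + η.d.length ≤ K ∧ oL + κ * η.p.length ≤ j1 * η.p.length ∧
    L0 ≤ L ∧ j1 + L1 * κ ≤ L

theorem Num.one_le {σ : A → List B} {θ : Pat A} {η : Pat B} {κ e L oL oR L0 L1 j1 K : ℕ}
    (h : Num σ θ η κ e L oL oR L0 L1 j1 K) : 1 ≤ K := by
  obtain ⟨h1, h2, -, -, -, -, h3, h4, -⟩ := h
  have := List.length_pos_iff.2 h1
  nlinarith

theorem up_run {σ : A → List B} {y : ℤ → A} {Y : ℤ → B} {F : ℤ → ℤ} (T : Tile σ y Y F)
    {θ : Pat A} {η : Pat B} {κ e L oL oR L0 L1 j1 K : ℕ}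
    (hn : Num σ θ η κ e L oL oR L0 L1 j1 K)
    (hw : ∀ a, UpW σ θ η κ oL oR L0 L1 j1 K (seg y a (2 * K))) (j : ℕ) :
    ∀ c P : ℤ, At y (c - (L1 * θ.p.length : ℕ)) (rp θ.p L1) → F c = P + oL →
      At Y P (rp η.p j ++ η.d) → j1 ≤ j + κ →
      ∃ m, At y c (rp θ.p m ++ θ.d) ∧ j = κ * m + e := by
  obtain ⟨h1, h2, h3, h4, h5, h6, h7, h8, h9, h10⟩ := hn
  have hg := List.length_pos_iff.2 h1
  induction j using Nat.strong_induction_on with
  | _ j ih =>
  intro c P hL hF hP hj
  have hW := at_seg y (c - K) (2 * K)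
  have hI := (T.seg_img (c - K) (2 * K)).2
  have hcf : (cf σ (seg y (c - K) (2 * K)) K : ℤ) = F c - F (c - K) := by
    rw [T.cf_seg _ (by omega), sub_add_cancel]
  have hlen := T.len_seg (c - K) (2 * K)
  have hle := T.le_add c K
  rw [show c - K + ((2 * K : ℕ) : ℤ) = c + K by push_cast; ring] at hlen
  obtain ⟨u1, u2⟩ := (hw (c - K)).2 (occ_of_at hW (hL.of_eq (by omega)) (by simp; omega))
  by_cases hjj : j < j1
  · have hoL : oL ≤ j * η.p.length := by nlinarith
    obtain ⟨m, -, hm, hm'⟩ := u2 j hjj hj (occ_of_at hI (by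
      have := hP.drop oL
      rw [List.drop_append_of_le_length (by simpa using hoL)] at this
      exact this.of_eq (by omega)) (by
      have : j * η.p.length ≤ j1 * η.p.length := Nat.mul_le_mul_right _ hjj.le
      simp only [List.length_append, List.length_drop, rp_length]
      omega))
    refine ⟨m, (at_of_occ hW hm).of_eq (by ring), ?_⟩
    refine Nat.eq_of_mul_eq_mul_right hg ?_
    rw [hm', add_mul, h3]
    ring
  · have hκ : κ ≤ j1 := by
      refine Nat.le_of_mul_le_mul_right (by omega) hg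
    obtain ⟨d, hd⟩ := Nat.exists_eq_add_of_le (show j1 ≤ j by omega)
    have hβ : At y c θ.p := by
      refine (at_of_occ hW (u1 (occ_of_at hI ?_ ?_))).of_eq (by ring)
      · rw [hd, rp_add, List.append_assoc, at_append] at hP
        exact (hP.1.drop oL).of_eq (by omega)
      · simp only [List.length_drop, rp_length]
        omega
    obtain ⟨j', hj'⟩ := Nat.exists_eq_add_of_le (show κ ≤ j by omega)
    obtain ⟨m, hm, hm'⟩ := ih j' (by omega) (c + θ.p.length) (P + (κ * η.p.length : ℕ))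
      (by
        have h : At y (c - (L1 * θ.p.length : ℕ)) (rp θ.p L1 ++ θ.p) :=
          at_append.2 ⟨hL, hβ.of_eq (by simp)⟩
        have e1 : rp θ.p L1 ++ θ.p = θ.p ++ rp θ.p L1 := by
          rw [← rp_succ, rp_add, rp_one]
        rw [e1, at_append] at h
        exact h.2.of_eq (by ring))
      (by rw [(T.at_img hβ).1, h4, hF]; ring)
      (by
        rw [hj', rp_add, List.append_assoc, at_append] at hP
        simpa using hP.2)
      (by omega)
    refine ⟨m + 1, ?_, by rw [hj', hm']; ring⟩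
    rw [rp_succ, List.append_assoc]
    exact at_append.2 ⟨hβ, hm⟩

theorem up_core {σ : A → List B} {y : ℤ → A} {Y : ℤ → B} {F : ℤ → ℤ} (T : Tile σ y Y F)
    {θ : Pat A} {η : Pat B} {κ e L oL oR L0 L1 j1 K : ℕ}
    (hn : Num σ θ η κ e L oL oR L0 L1 j1 K)
    (hw : ∀ a, UpW σ θ η κ oL oR L0 L1 j1 K (seg y a (2 * K))) {l : ℕ} {i0 : ℤ}
    (h : At Y i0 (η.W l)) (hl : L ≤ l) : ∃ m i, At y i (θ.W m) ∧ l = κ * m + e := by
  have hK := hn.one_le
  have hrun := up_run T hn hw
  obtain ⟨h1, h2, h3, h4, h5, h6, h7, h8, h9, h10⟩ := hn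
  obtain ⟨a, ha1, ha2⟩ := T.exists_tile (i0 + η.c.length)
  have hW := at_seg y (a - K) (2 * K)
  have hI := (T.seg_img (a - K) (2 * K)).2
  have hcf : (cf σ (seg y (a - K) (2 * K)) K : ℤ) = F a - F (a - K) := by
    rw [T.cf_seg _ (by omega), sub_add_cancel]
  have hcf' : (cf σ (seg y (a - K) (2 * K)) (K + 1) : ℤ) = F (a + 1) - F (a - K) := by
    rw [T.cf_seg _ (by omega)]
    congr 2
    push_cast
    ring
  have hlen := T.len_seg (a - K) (2 * K)
  have hle := T.le_add (a + 1) (K - 1)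
  have hle' := T.le_add (a - K) K
  rw [sub_add_cancel] at hle'
  rw [show a - K + ((2 * K : ℕ) : ℤ) = a + 1 + (K - 1 : ℕ) by omega] at hlen
  obtain ⟨p, hp⟩ := Int.eq_ofNat_of_zero_le (show 0 ≤ i0 + η.c.length - F (a - K) by omega)
  obtain ⟨d, hd⟩ := Nat.exists_eq_add_of_le (show L0 ≤ l by omega)
  obtain ⟨i, hi1, hi2, hi3, hi4⟩ := (hw (a - K)).1 p (by omega) (by omega) (by omega)
    (occ_of_at hI (by
      rw [Pat.W, hd, rp_add, ← List.append_assoc, at_append, at_append] at h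
      exact h.1.1.of_eq (by omega)) (by
      simp only [List.length_append, rp_length]
      omega))
  have hs := at_of_occ hW hi3
  have hFs := T.cf_seg (a - K) hi1
  rw [hi4] at hFs
  have hs' := at_append.1 hs
  have hs2 : At y (a - K + i) (rp θ.p L1) := hs'.2.of_eq (by omega)
  obtain ⟨j, hj⟩ := Nat.exists_eq_add_of_le (show L1 * κ ≤ l by omega)
  obtain ⟨m, hm, hm'⟩ := hrun j (a - K + i + (L1 * θ.p.length : ℕ))
    (i0 + η.c.length + (L1 * κ * η.p.length : ℕ)) (hs2.of_eq (by ring))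
    (by
      have := (T.at_img hs2).1
      rw [rp_length, app_rp, rp_length, h4] at this
      rw [this]
      push_cast at hFs ⊢
      linear_combination -hp - hFs)
    (by
      rw [Pat.W, hj, rp_add, List.append_assoc, List.append_assoc, at_append, at_append] at h
      simpa using h.2.2)
    (by omega)
  refine ⟨L1 + m, a - K + (i - θ.c.length : ℕ), ?_, by rw [hj, hm']; ring⟩
  rw [Pat.W, rp_add, ← List.append_assoc, List.append_assoc]
  refine at_append.2 ⟨hs, hm.of_eq ?_⟩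
  simp only [List.length_append, rp_length]
  omega

/-- a finite set of windows which contains the initial windows and is closed under `H` -/
def Clo (H : B → List B) (o : B) (z : List B) (K : ℕ) (Z : List (List B)) : Prop :=
  (∀ i < z.length + 2 * K + 1, seg (pad o z) ((i : ℤ) - (2 * K : ℕ)) (2 * K) ∈ Z) ∧
  ∀ w ∈ Z, (∀ d ∈ w, H d ≠ []) ∧
    ∀ q < cf H w (K + 1), cf H w K ≤ q → ((app H w).drop (q - K)).take (2 * K) ∈ Z

theorem seg_pad_out (o : B) (z : List B) (n : ℕ) (a : ℤ) (h : a + n ≤ 0 ∨ z.length ≤ a) :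
    seg (pad o z) a n = List.replicate n o := by
  refine List.ext_getElem (by simp) fun k h1 h2 => ?_
  rw [seg_getElem, List.getElem_replicate]
  simp only [seg_length] at h1
  unfold pad
  split_ifs with hc
  · exact List.getD_eq_default _ _ (by omega)
  · rfl

theorem mem_seg (y : ℤ → A) (a : ℤ) {K : ℕ} (hK : 1 ≤ K) : y a ∈ seg y a (2 * K) := by
  rw [seg_eq]
  exact List.mem_map.2 ⟨0, by simp; omega, by simp⟩

theorem Tile.window {σ : A → List B} {y : ℤ → A} {Y : ℤ → B} {F : ℤ → ℤ} (T : Tile σ y Y F)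
    (a : ℤ) {K : ℕ} (hK : 1 ≤ K) {q : ℕ} (h1 : q < cf σ (seg y a (2 * K)) (K + 1))
    (h2 : cf σ (seg y a (2 * K)) K ≤ q) :
    ((app σ (seg y a (2 * K))).drop (q - K)).take (2 * K) = seg Y (F a + q - K) (2 * K) := by
  have hI := (T.seg_img a (2 * K)).2
  have hcf := T.cf_seg a (show K ≤ 2 * K by omega)
  have hcf' := T.cf_seg a (show K + 1 ≤ 2 * K by omega)
  have hlen := T.len_seg a (2 * K)
  have hle := T.le_add (a + (K + 1 : ℕ)) (K - 1)
  have hle' := T.le_add a K
  rw [show a + (K + 1 : ℕ) + (K - 1 : ℕ) = a + (2 * K : ℕ) by omega] at hle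
  rw [← hI, seg_drop _ _ (by omega), seg_take _ _ (by omega)]
  congr 1
  omega

theorem it_succ (H : B → List B) (j : ℕ) (z : List B) : it H (j + 1) z = app H (it H j z) := by
  simp [it, Function.iterate_succ_apply']

theorem Clo.mem {H : B → List B} {o : B} {z : List B} {K : ℕ} {Z : List (List B)}
    (h : Clo H o z K Z) (hK : 1 ≤ K) (ho : ∀ d ∈ H o, d = o) (j : ℕ) :
    ∀ a, seg (pad o (it H j z)) a (2 * K) ∈ Z := by
  induction j with
  | zero =>
    intro a
    by_cases ha : a + (2 * K : ℕ) ≤ 0 ∨ z.length ≤ a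
    · have := h.1 0 (by omega)
      rw [seg_pad_out _ _ _ _ (by omega)] at this
      rwa [show it H 0 z = z from rfl, seg_pad_out _ _ _ _ ha]
    · have := h.1 (a + (2 * K : ℕ)).toNat (by omega)
      rwa [show (((a + (2 * K : ℕ)).toNat : ℕ) : ℤ) - (2 * K : ℕ) = a by omega] at this
  | succ j ih =>
    intro b
    obtain ⟨F, T⟩ := exists_tile_pad H o o (it H j z)
      (fun i => (h.2 _ (ih i)).1 _ (mem_seg _ _ hK)) ho
    obtain ⟨a, ha1, ha2⟩ := T.exists_tile (b + K)
    have hcf := T.cf_seg (a - K) (show K ≤ 2 * K by omega)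
    have hcf' := T.cf_seg (a - K) (show K + 1 ≤ 2 * K by omega)
    rw [sub_add_cancel] at hcf
    rw [show a - K + (K + 1 : ℕ) = a + 1 by omega] at hcf'
    have hle' := T.le_add (a - K) K
    rw [sub_add_cancel] at hle'
    obtain ⟨q, hq⟩ := Int.eq_ofNat_of_zero_le (show 0 ≤ b + K - F (a - K) by omega)
    have := (h.2 _ (ih (a - K))).2 q (by omega) (by omega)
    rw [T.window _ hK (by omega) (by omega), show F (a - K) + q - K = b by omega] at this
    rwa [it_succ]

theorem exists_clo {H : B → List B} {o : B} {z : List B} {K : ℕ} (hK : 1 ≤ K)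
    (S : Set B) (hS : S.Finite) (hmem : ∀ j i, pad o (it H j z) i ∈ S)
    (hne : ∀ d ∈ S, H d ≠ []) (ho : ∀ d ∈ H o, d = o) :
    ∃ Z, Clo H o z K Z ∧ ∀ w ∈ Z, ∃ j a, w = seg (pad o (it H j z)) a (2 * K) := by
  have hfin : {w | ∃ j a, w = seg (pad o (it H j z)) a (2 * K)}.Finite := by
    have := hS.to_subtype
    refine ((List.finite_length_eq S (2 * K)).image (List.map Subtype.val)).subset ?_
    rintro w ⟨j, a, rfl⟩
    refine ⟨seg (fun i => ⟨pad o (it H j z) i, hmem j i⟩) a (2 * K), by simp, ?_⟩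
    simp [seg_eq]
  refine ⟨hfin.toFinset.toList, ⟨fun i _ => ?_, fun w hw => ?_⟩, fun w hw => by simpa using hw⟩
  · simp only [Finset.mem_toList, Set.Finite.mem_toFinset, Set.mem_ofPred_eq]
    exact ⟨0, _, rfl⟩
  · simp only [Finset.mem_toList, Set.Finite.mem_toFinset, Set.mem_ofPred_eq] at hw ⊢
    obtain ⟨j, a, rfl⟩ := hw
    refine ⟨fun d hd => ?_, fun q h1 h2 => ?_⟩
    · rw [seg_eq] at hd
      obtain ⟨k, -, rfl⟩ := List.mem_map.1 hd
      exact hne _ (hmem _ _)
    · obtain ⟨F, T⟩ := exists_tile_pad H o o (it H j z) (fun i => hne _ (hmem _ _)) ho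
      exact ⟨j + 1, _, by rw [T.window _ hK h1 h2, it_succ]⟩

end Pool.Agent.P.MP_1e185c_lc.C3
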