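import Pool.Agent.P.MP_1e185c_lc.Cert3Aux2

/-! The certificate for longest periodic runs: definition, soundness and completeness. -/

set_option autoImplicit false

namespace Pool.Agent.P.MP_1e185c_lc.C3

open Filter

/-- a morphism given by a table -/
def tab (T : List (List ℕ)) (d : ℕ) : List ℕ := T.getD d []

/-- certificate for the local window conditions -/
def UpC (H σ : ℕ → List ℕ) (z : List ℕ) (θ η : Pat ℕ) (κ e L : ℕ) : Prop :=
  ∃ (n : List ℕ) (Z : List (List ℕ)),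
    Num σ θ η κ e L (n.getD 0 0) (n.getD 1 0) (n.getD 2 0) (n.getD 3 0) (n.getD 4 0)
      (n.getD 5 0) ∧ Clo H 0 z (n.getD 5 0) Z ∧
    ∀ w ∈ Z, (∀ d ∈ w, σ d ≠ []) ∧ UpW σ θ η κ (n.getD 0 0) (n.getD 1 0) (n.getD 2 0)
      (n.getD 3 0) (n.getD 4 0) (n.getD 5 0) w

/-- bounded form of the absence of long pattern words -/
def NoOcc (z : List ℕ) (θ : Pat ℕ) (B0 : ℕ) : Prop :=
  (∃ d ∈ θ.c ++ θ.p, d ≠ 0) ∧ (∃ d ∈ θ.p ++ θ.d, d ≠ 0) ∧
  ∀ m < z.length + 2, B0 < m → ∀ i < z.length + (θ.W m).length + 1,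
    seg (pad 0 z) ((i : ℤ) - ((θ.W m).length : ℕ)) (θ.W m).length ≠ θ.W m

/-- the finite check -/
def Body (gl hl : List (List ℕ)) (u v : List ℕ) (M N' N : ℕ) (Rl Ql : List (List ℕ))
    (θ θ' η : Pat ℕ) (κ e a b κ' e' a' b' A0 B0 : ℕ) : Prop :=
  N' = N + M ∧ 1 ≤ M ∧ hl.length ≤ Ql.length ∧
  (∀ x < Ql.length, app (tab Rl) (tab Ql x) = pw (tab hl) M x) ∧
  (∀ d ∈ app (tab Ql) (tab Rl 0), d = 0) ∧ (∀ x ∈ tab Rl 0, x = 0) ∧
  Low (pw (tab gl) M) θ θ κ e ∧ Low (fun x => [x]) θ η a b ∧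
  θ.W A0 <:+: it (tab gl) (N + M) u ∧
  UpC (fun d => app (tab Ql) (tab Rl d)) (fun d => app (tab Ql) (tab Rl d))
    (app (tab Ql) (it (tab hl) N v)) θ' θ' κ' e' B0 ∧
  UpC (fun d => app (tab Ql) (tab Rl d)) (tab Rl)
    (app (tab Ql) (it (tab hl) N v)) θ' η a' b' (a' * B0 + b') ∧
  NoOcc (app (tab Ql) (it (tab hl) N v)) θ' B0 ∧
  κ' ≤ κ ∧ a' * B0 + b' < a * A0 + b ∧
  (a * A0 + b) + (a' * (κ' * B0 + e') + b') ≤ (a * (κ * A0 + e) + b) + (a' * B0 + b')

theorem UpC.sound {H σ : ℕ → List ℕ} {z : List ℕ} {θ η : Pat ℕ} {κ e L : ℕ}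
    (h : UpC H σ z θ η κ e L) (hH : ∀ d ∈ H 0, d = 0) (hσ : ∀ d ∈ σ 0, d = 0) (j : ℕ)
    {l : ℕ} {i0 : ℤ} (hat : At (pad 0 (app σ (it H j z))) i0 (η.W l)) (hl : L ≤ l) :
    ∃ m i, At (pad 0 (it H j z)) i (θ.W m) ∧ l = κ * m + e := by
  obtain ⟨n, Z, hn, hc, hZ⟩ := h
  have hK := hn.one_le
  have hm := hc.mem hK hH j
  obtain ⟨F, T⟩ := exists_tile_pad σ 0 0 (it H j z)
    (fun i => (hZ _ (hm i)).1 _ (mem_seg _ _ hK)) hσ
  exact up_core T hn (fun a => (hZ _ (hm a)).2) hat hl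

theorem at_pad_pos {B : Type} {o : B} {z u : List B} {i : ℤ} (h : At (pad o z) i u)
    (hu : ∃ d ∈ u, d ≠ o) : ∃ k : ℕ, k < u.length ∧ 0 ≤ i + k ∧ i + k < z.length := by
  obtain ⟨d, hd, hdo⟩ := hu
  rw [← h, seg_eq] at hd
  obtain ⟨k, hk, rfl⟩ := List.mem_map.1 hd
  refine ⟨k, by simpa using hk, ?_⟩
  unfold pad at hdo
  split_ifs at hdo with hc
  · refine ⟨hc, ?_⟩
    by_contra hc'
    exact hdo (List.getD_eq_default _ _ (by omega))
  · exact absurd rfl hdo

theorem NoOcc.sound {z : List ℕ} {θ : Pat ℕ} {B0 : ℕ} (h : NoOcc z θ B0) (hp : θ.p ≠ [])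
    {m : ℕ} (hm : B0 < m) (i : ℤ) : ¬ At (pad 0 z) i (θ.W m) := by
  obtain ⟨h1, h2, h3⟩ := h
  intro hat
  have hg := List.length_pos_iff.2 hp
  by_cases hmz : m < z.length + 2
  · obtain ⟨m', rfl⟩ : ∃ m', m = m' + 1 := ⟨m - 1, by omega⟩
    obtain ⟨k, hk, hk1, hk2⟩ := at_pad_pos hat (by
      obtain ⟨d, hd, hd'⟩ := h1
      refine ⟨d, ?_, hd'⟩
      rw [Pat.W, rp_succ, ← List.append_assoc]
      exact List.mem_append_left _ (List.mem_append_left _ hd))
    refine h3 _ hmz hm (i + ((θ.W (m' + 1)).length : ℕ)).toNat (by omega) ?_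
    rw [show (((i + ((θ.W (m' + 1)).length : ℕ)).toNat : ℕ) : ℤ) - ((θ.W (m' + 1)).length : ℕ)
      = i by omega]
    exact hat
  · obtain ⟨m', rfl⟩ : ∃ m', m = 1 + m' + 1 := ⟨m - 2, by omega⟩
    have e : θ.W (1 + m' + 1) = (θ.c ++ θ.p) ++ rp θ.p m' ++ (θ.p ++ θ.d) := by
      simp [Pat.W, rp_add, rp_one]
    rw [e, at_append, at_append] at hat
    obtain ⟨k, hk, hk1, hk2⟩ := at_pad_pos hat.1.1 h1
    obtain ⟨k', hk', hk1', hk2'⟩ := at_pad_pos hat.2 h2
    have : m' ≤ m' * θ.p.length := Nat.le_mul_of_pos_right _ hg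
    simp only [List.length_append, rp_length] at hk hk2'
    omega

theorem it_app {A : Type} (g : A → List A) (M : ℕ) (w : List A) :
    app (pw g M) w = it g M w := by
  induction M generalizing w with
  | zero =>
    induction w with
    | nil => rfl
    | cons a w ih => rw [app_cons, ih]; rfl
  | succ M ih =>
    rw [it_succ, ← ih, app_app]
    congr 1
    funext a
    rw [pw, it_succ]
    rfl

theorem it_add {A : Type} (g : A → List A) (m n : ℕ) (w : List A) :
    it g (m + n) w = it g m (it g n w) := by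
  simp [it, Function.iterate_add_apply]

/-- affine orbit -/
def orb (κ e x : ℕ) : ℕ → ℕ
  | 0 => x
  | j + 1 => κ * orb κ e x j + e

theorem orb_diff (κ e x j : ℕ) :
    (orb κ e x (j + 1) : ℤ) - orb κ e x j = κ ^ j * ((κ * x + e : ℕ) - x : ℤ) := by
  induction j with
  | zero => simp [orb]
  | succ j ih =>
    rw [pow_succ, mul_right_comm, ← ih]
    simp only [orb]
    push_cast
    ring

theorem orb_lt {κ e a b κ' e' a' b' A0 B0 : ℕ} (h0 : 1 ≤ κ') (h1 : κ' ≤ κ)
    (h2 : a' * B0 + b' < a * A0 + b)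
    (h3 : (a * A0 + b) + (a' * (κ' * B0 + e') + b') ≤ (a * (κ * A0 + e) + b) + (a' * B0 + b'))
    (j : ℕ) : a' * orb κ' e' B0 j + b' < a * orb κ e A0 j + b := by
  induction j with
  | zero => exact h2
  | succ j ih =>
    have e1 := orb_diff κ e A0 j
    have e2 := orb_diff κ' e' B0 j
    have h4 : (0 : ℤ) ≤ a' * (((κ' * B0 + e' : ℕ) : ℤ) - B0) := by
      refine mul_nonneg (by positivity) ?_
      have : B0 ≤ κ' * B0 + e' := by nlinarith
      omega
    have h5 : (a' : ℤ) * (((κ' * B0 + e' : ℕ) : ℤ) - B0) ≤ a * (((κ * A0 + e : ℕ) : ℤ) - A0) := by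
      zify at h3
      push_cast
      linarith
    have h6 : (κ' : ℤ) ^ j ≤ κ ^ j := pow_le_pow_left₀ (by positivity) (by exact_mod_cast h1) j
    have h7 : (κ' : ℤ) ^ j * (a' * (((κ' * B0 + e' : ℕ) : ℤ) - B0)) ≤
        κ ^ j * (a * (((κ * A0 + e : ℕ) : ℤ) - A0)) :=
      mul_le_mul h6 h5 h4 (by positivity)
    zify at ih ⊢
    have e1' : (a : ℤ) * orb κ e A0 (j + 1) = a * orb κ e A0 j +
        κ ^ j * (a * (((κ * A0 + e : ℕ) : ℤ) - A0)) := by linear_combination a * e1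
    have e2' : (a' : ℤ) * orb κ' e' B0 (j + 1) = a' * orb κ' e' B0 j +
        κ' ^ j * (a' * (((κ' * B0 + e' : ℕ) : ℤ) - B0)) := by linear_combination a' * e2
    linarith

theorem le_orb {κ e x : ℕ} (h : 1 ≤ κ) (j : ℕ) : x ≤ orb κ e x j := by
  induction j with
  | zero => exact le_rfl
  | succ j ih =>
    simp only [orb]
    nlinarith

theorem pw_big (hl : List (List ℕ)) {M x : ℕ} (hM : 1 ≤ M) (hx : hl.length ≤ x) :
    pw (tab hl) M x = [] := by
  obtain ⟨M, rfl⟩ : ∃ M', M = M' + 1 := ⟨M - 1, by omega⟩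
  have : it (tab hl) 1 [x] = [] := by
    simp [it, tab, List.getElem?_eq_none hx]
  rw [pw, it_add, this, ← it_app]
  rfl

theorem Body.sound {gl hl : List (List ℕ)} {u v : List ℕ} {M N' N : ℕ} {Rl Ql : List (List ℕ)}
    {θ θ' η : Pat ℕ} {κ e a b κ' e' a' b' A0 B0 : ℕ}
    (h : Body gl hl u v M N' N Rl Ql θ θ' η κ e a b κ' e' a' b' A0 B0) (j : ℕ) :
    it (tab gl) (N' + j * M) u ≠ it (tab hl) (N' + j * M) v := by
  obtain ⟨rfl, hM, h1, h2, h3, h4, h5, h6, h7, h8, h9, h10, h11, h12, h13⟩ := h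
  have hRQ : ∀ w, app (tab Rl) (app (tab Ql) w) = it (tab hl) M w := by
    intro w
    rw [app_app, ← it_app]
    congr 1
    funext x
    by_cases hx : x < Ql.length
    · exact h2 x hx
    · rw [pw_big hl hM (by omega), tab, List.getD_eq_default _ _ (by omega)]
      rfl
  set H : ℕ → List ℕ := fun d => app (tab Ql) (tab Rl d) with hH
  set z := app (tab Ql) (it (tab hl) N v) with hz
  have hz' : ∀ j, it H j z = app (tab Ql) (it (tab hl) (N + j * M) v) := by
    intro j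
    induction j with
    | zero => simp [hz, it]
    | succ j ih =>
      rw [it_succ, ih, hH, ← app_app, hRQ, ← it_add]
      congr 2
      ring
  have hκ : 1 ≤ κ' ∧ θ'.p ≠ [] := by
    obtain ⟨n, Z, hn, -⟩ := h8
    exact ⟨hn.2.1, hn.1⟩
  have hB : ∀ j m, orb κ' e' B0 j < m → ∀ i, ¬ At (pad 0 (it H j z)) i (θ'.W m) := by
    intro j
    induction j with
    | zero => exact fun m hm i => h10.sound hκ.2 hm i
    | succ j ih =>
      intro l hl i hat
      rw [it_succ] at hat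
      obtain ⟨m, i', hm, hm'⟩ := h8.sound h3 h3 j hat ((le_orb hκ.1 _).trans hl.le)
      refine ih m ?_ i' hm
      simp only [orb] at hl
      exact Nat.lt_of_mul_lt_mul_left (a := κ') (by omega)
  have hA : ∀ j, θ.W (orb κ e A0 j) <:+: it (tab gl) (N + M + j * M) u := by
    intro j
    induction j with
    | zero => simpa [orb] using h7
    | succ j ih =>
      rw [show N + M + (j + 1) * M = M + (N + M + j * M) by ring, it_add, ← it_app]
      exact (low_sound h5 _).trans (app_infix _ ih)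
  intro heq
  have h14 : η.W (a * orb κ e A0 j + b) <:+: app (tab Rl) (it H j z) := by
    rw [hz', hRQ, ← it_add, show M + (N + j * M) = N + M + j * M by ring, ← heq]
    refine List.IsInfix.trans ?_ (hA j)
    simpa [app] using low_sound h6 (orb κ e A0 j)
  obtain ⟨s, t, hst⟩ := h14
  have hat := at_pad 0 (app (tab Rl) (it H j z)) [] (by simp)
  rw [List.append_nil] at hat
  nth_rewrite 2 [← hst] at hat
  rw [at_append, at_append] at hat
  have hlt := orb_lt hκ.1 h11 h12 h13 j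
  have hle : a' * B0 ≤ a' * orb κ' e' B0 j := Nat.mul_le_mul_left _ (le_orb hκ.1 j)
  obtain ⟨m, i', hm, hm'⟩ := h9.sound h3 h4 j hat.1.2 (by omega)
  exact hB j m (Nat.lt_of_mul_lt_mul_left (a := a') (by omega)) i' hm

/-- image of a pattern under a renaming of letters -/
def pmap {A A' : Type} (ι : A → A') (θ : Pat A) : Pat A' := ⟨θ.c.map ι, θ.p.map ι, θ.d.map ι⟩

section transport

variable {A A' B B' : Type}

theorem rp_map (ι : A → A') (p : List A) (m : ℕ) : rp (p.map ι) m = (rp p m).map ι := by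
  induction m with
  | zero => rfl
  | succ m ih => rw [rp_succ, rp_succ, ih, List.map_append]

theorem app_map {ι : A → A'} {ι' : B → B'} {σ : A → List B} {σ' : A' → List B'}
    (h : ∀ d, σ' (ι d) = (σ d).map ι') (w : List A) : app σ' (w.map ι) = (app σ w).map ι' := by
  induction w with
  | nil => rfl
  | cons a w ih => simp [h, ih]

theorem cf_map {ι : A → A'} {ι' : B → B'} {σ : A → List B} {σ' : A' → List B'}
    (h : ∀ d, σ' (ι d) = (σ d).map ι') (w : List A) (i : ℕ) : cf σ' (w.map ι) i = cf σ w i := by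
  rw [cf, ← List.map_take, app_map h, List.length_map, cf]

theorem occ_map {ι : A → A'} (hι : Function.Injective ι) (w u : List A) (i : ℕ) :
    Occ (w.map ι) i (u.map ι) ↔ Occ w i u := by
  unfold Occ
  rw [← List.map_drop]
  refine ⟨fun h => ?_, fun h => h.map ι⟩
  rw [List.prefix_iff_eq_take, List.length_map, ← List.map_take] at h
  rw [List.prefix_iff_eq_take]
  exact List.map_injective_iff.2 hι h

theorem upW_map {ι : A → A'} {ι' : B → B'} (hι : Function.Injective ι)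
    (hι' : Function.Injective ι') {σ : A → List B} {σ' : A' → List B'}
    (h : ∀ d, σ' (ι d) = (σ d).map ι') {θ : Pat A} {η : Pat B} {κ oL oR L0 L1 j1 K : ℕ}
    {w : List A} (hw : UpW σ θ η κ oL oR L0 L1 j1 K w) :
    UpW σ' (pmap ι θ) (pmap ι' η) κ oL oR L0 L1 j1 K (w.map ι) := by
  unfold UpW at hw ⊢
  simp only [pmap, cf_map h, app_map h, rp_map, List.length_map, ← List.map_append,
    ← List.map_drop, occ_map hι, occ_map hι']
  exact hw

theorem pad_map (ι : A → A') (o : A) (z : List A) :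
    pad (ι o) (z.map ι) = fun i => ι (pad o z i) := by
  funext i
  unfold pad
  split_ifs
  · exact List.getD_map _ _ _
  · rfl

theorem seg_map (ι : A → A') (y : ℤ → A) (a : ℤ) (n : ℕ) :
    seg (fun i => ι (y i)) a n = (seg y a n).map ι := by
  simp [seg_eq]

theorem it_map {ι : A → A'} {H : A → List A} {H' : A' → List A'}
    (h : ∀ d, H' (ι d) = (H d).map ι) (j : ℕ) (z : List A) :
    it H' j (z.map ι) = (it H j z).map ι := by
  induction j with
  | zero => rfl
  | succ j ih => rw [it_succ, it_succ, ih, app_map h]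

theorem W_map (ι : A → A') (θ : Pat A) (m : ℕ) : (pmap ι θ).W m = (θ.W m).map ι := by
  simp [Pat.W, pmap, rp_map]

end transport

theorem upC_of_up {B B2 : Type} [Finite B] {ι : B → ℕ} (hι : Function.Injective ι)
    {ι' : B2 → ℕ} (hι' : Function.Injective ι') {o : B} (ho : ι o = 0) {H : B → List B}
    {H' : ℕ → List ℕ} (hH : ∀ d, H' (ι d) = (H d).map ι) {σ : B → List B2} {σ' : ℕ → List ℕ}
    (hσ : ∀ d, σ' (ι d) = (σ d).map ι') (hne : ∀ d, H d ≠ []) (hne' : ∀ d, σ d ≠ [])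
    (hoo : ∀ d ∈ H o, d = o) {z : List B} {θ : Pat B} {η : Pat B2} {κ e L : ℕ}
    (h : Up σ θ η κ e L o (fun j => it H j z)) :
    UpC H' σ' (z.map ι) (pmap ι θ) (pmap ι' η) κ e L := by
  obtain ⟨oL, oR, L0, L1, j1, K, h1, h2, h3, h4, h5, h6, h7, h8, h9, h10, h11⟩ := h
  have hn : Num σ' (pmap ι θ) (pmap ι' η) κ e L oL oR L0 L1 j1 K := by
    unfold Num
    simp only [pmap, app_map hσ, List.length_map]
    exact ⟨by simpa using h1, h2, h3, h4, h5, h6, h7, h8, h9, h10⟩
  have hp : ∀ j, pad 0 (it H' j (z.map ι)) = fun i => ι (pad o (it H j z) i) := by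
    intro j
    rw [it_map hH, ← ho, pad_map]
  obtain ⟨Z, hZ, hZ'⟩ := exists_clo (H := H') (o := 0) (z := z.map ι) hn.one_le (Set.range ι)
    (Set.finite_range ι) (fun j i => by rw [hp]; exact ⟨_, rfl⟩)
    (by rintro _ ⟨d, rfl⟩; rw [hH]; simpa using hne d)
    (by
      intro d hd
      rw [← ho, hH] at hd
      obtain ⟨x, hx, rfl⟩ := List.mem_map.1 hd
      rw [hoo x hx, ho])
  refine ⟨[oL, oR, L0, L1, j1, K], Z, hn, hZ, fun w hw => ?_⟩
  obtain ⟨j, a, rfl⟩ := hZ' w hw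
  rw [hp, seg_map]
  refine ⟨fun d hd => ?_, upW_map hι hι' hσ (h11 j a)⟩
  obtain ⟨x, -, rfl⟩ := List.mem_map.1 hd
  rw [hσ]
  simpa using hne' x

theorem app_congr {A B : Type} {σ τ : A → List B} {w : List A} (h : ∀ x ∈ w, σ x = τ x) :
    app σ w = app τ w := by
  induction w with
  | nil => rfl
  | cons a w ih =>
    rw [app_cons, app_cons, h a List.mem_cons_self,
      ih fun x hx => h x (List.mem_cons_of_mem _ hx)]

theorem tab_range (f : ℕ → List ℕ) {D x : ℕ} (hx : x < D) :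
    tab ((List.range D).map f) x = f x := by
  rw [tab, List.getD_eq_getElem _ _ (by simpa using hx)]
  simp

theorem complete (gl hl : List (List ℕ)) (u v : List ℕ) (U : Ultrafilter ℕ)
    (hU : (U : Filter ℕ) ≤ atTop) (h : ¬ H3 (tab gl) (tab hl) u v U) :
    ∃ M N', 1 ≤ M ∧ InCl U M N' ∧ ∃ N Rl Ql θ θ' η κ e a b κ' e' a' b' A0 B0,
      Body gl hl u v M N' N Rl Ql θ θ' η κ e a b κ' e' a' b' A0 B0 := by
  classical
  unfold H3 at h
  push Not at h
  obtain ⟨M, N, A, B, _, _, P, Q, R, Q', o, θ, θ', η, κ, e, a, b, κ', e', a', b', A0, B0, hM,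
    hcl, hPQ, hRQ, hne, hne', hoo, hRo, hl1, hl2, hW, hu1, hu2, hd1, hd2, hno, hin⟩ := h
  obtain ⟨ι, hι, ho⟩ : ∃ ι : B → ℕ, Function.Injective ι ∧ ι o = 0 := by
    refine ⟨fun d => if d = o then 0 else (Fintype.equivFin B d : ℕ) + 1, fun x y hxy => ?_,
      by simp⟩
    by_cases hx : x = o <;> by_cases hy : y = o <;> simp [hx, hy] at hxy ⊢
    exact (Fintype.equivFin B).injective (Fin.ext hxy)
  obtain ⟨D, hD1, hD2, hD3, hD4⟩ : ∃ D, hl.length ≤ D ∧ (∀ d, ι d < D) ∧
      (∀ d, ∀ x ∈ R d, x < D) ∧ ∀ x ∈ it (tab hl) N v, x < D := by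
    have f1 : (Set.range ι ∪ (⋃ d, {x | x ∈ R d}) ∪ {x | x ∈ it (tab hl) N v}).Finite :=
      ((Set.finite_range ι).union (Set.finite_iUnion fun d => List.finite_toSet _)).union
        (List.finite_toSet _)
    obtain ⟨D, hD⟩ := f1.bddAbove
    refine ⟨hl.length + D + 1, by omega, fun d => ?_, fun d x hx => ?_, fun x hx => ?_⟩
    · have := hD (Or.inl (Or.inl ⟨d, rfl⟩))
      omega
    · have := hD (Or.inl (Or.inr (Set.mem_iUnion.2 ⟨d, hx⟩)))
      omega
    · have := hD (Or.inr hx)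
      omega
  have : Nonempty B := ⟨o⟩
  set Rl := (List.range D).map fun x => R (Function.invFun ι x) with hRl
  set Ql := (List.range D).map fun x => (Q' x).map ι with hQl
  have hR : ∀ d, tab Rl (ι d) = (R d).map id := by
    intro d
    rw [hRl, tab_range _ (hD2 d), Function.leftInverse_invFun hι, List.map_id]
  have hQ : ∀ w : List ℕ, (∀ x ∈ w, x < D) → app (tab Ql) w = (app Q' w).map ι := by
    intro w hw
    rw [app_congr (τ := fun x => (Q' x).map ι) fun x hx => tab_range _ (hw x hx)]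
    simpa using app_map (ι := id) (ι' := ι) (σ := Q') (σ' := fun x => (Q' x).map ι)
      (fun _ => rfl) w
  have hH : ∀ d, app (tab Ql) (tab Rl (ι d)) = (app Q' (R d)).map ι := by
    intro d
    rw [hR, List.map_id, hQ _ (hD3 d)]
  have hPQ' : ∀ w, app P (app Q w) = it (tab gl) M w := by
    intro w
    rw [app_app, ← it_app]
    exact app_congr fun x _ => hPQ x
  have hG : ∀ w, app (pw (tab gl) M) (app P w) = app P (app (fun d => app Q (P d)) w) := by
    intro w
    rw [it_app, ← hPQ', app_app P Q]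
  refine ⟨M, N + M, hM, ?_, N, Rl, Ql, ⟨app P θ.c, app P θ.p, app P θ.d⟩, pmap ι θ', η, κ, e,
    a, b, κ', e', a', b', A0, B0, rfl, hM, by simpa [hQl] using hD1, fun x hx => ?_, ?_, ?_, ?_,
    ?_, ?_, ?_, ?_, ?_, hin⟩
  · refine Filter.mem_of_superset (Filter.inter_mem hcl (hU (Filter.mem_atTop (N + M)))) ?_
    rintro n ⟨⟨j, rfl⟩, hn⟩
    have hn' : N + M ≤ N + j * M := hn
    obtain ⟨j, rfl⟩ : ∃ j', j = j' + 1 := ⟨j - 1, by
      rcases j with _ | j
      · omega
      · rfl⟩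
    exact ⟨j, by ring⟩
  · rw [hQl, tab_range _ (by simpa [hQl] using hx), app_map hR, List.map_id, hRQ]
  · intro d hd
    rw [← ho, hH] at hd
    obtain ⟨x, hx, rfl⟩ := List.mem_map.1 hd
    rw [hoo x hx, ho]
  · intro x hx
    rw [← ho, hR, List.map_id] at hx
    exact hRo x hx
  · obtain ⟨x, y, y', x', e1, e2, e3, e4⟩ := hl1
    refine ⟨app P x, app P y, app P y', app P x', ?_, ?_, ?_, ?_⟩
    · simp only [hG, e1, app_append]
    · simp only [hG, e2, app_append]
    · simp only [hG, ← app_rp, ← app_append, e3]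
    · simp only [← app_rp, ← app_append, e4]
  · obtain ⟨x, y, y', x', e1, e2, e3, e4⟩ := hl2
    have hid : ∀ w : List ℕ, app (fun x => [x]) w = w := fun w => by simp [app]
    exact ⟨x, y, y', x', by rw [hid]; exact e1, by rw [hid]; exact e2, by rw [hid]; exact e3, e4⟩
  · have := app_infix P hW
    rw [hPQ', ← it_add, add_comm M N] at this
    simpa [Pat.W, app_rp] using this
  · rw [hQ _ hD4]
    exact upC_of_up hι hι ho hH hH hne hne hoo hu1
  · rw [hQ _ hD4]
    have := upC_of_up (H' := fun d => app (tab Ql) (tab Rl d)) hι Function.injective_id ho hH hR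
      hne hne' hoo hu2
    simpa [pmap] using this
  · rw [hQ _ hD4]
    refine ⟨?_, ?_, fun m _ hm i _ heq => ?_⟩
    · obtain ⟨d, hd, hd'⟩ := hd1
      refine ⟨ι d, ?_, fun h0 => hd' (hι (h0.trans ho.symm))⟩
      simp only [pmap, ← List.map_append]
      exact List.mem_map_of_mem hd
    · obtain ⟨d, hd, hd'⟩ := hd2
      refine ⟨ι d, ?_, fun h0 => hd' (hι (h0.trans ho.symm))⟩
      simp only [pmap, ← List.map_append]
      exact List.mem_map_of_mem hd
    · rw [← ho, pad_map, seg_map, W_map, List.length_map] at heq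
      exact hno m hm _ (List.map_injective_iff.2 hι heq)

end Pool.Agent.P.MP_1e185c_lc.C3
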