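import Pool.Agent.P.MP_1e185c_lc.TestSet
import Pool.Agent.Lib.ComputableProp.Basic

/-! The certificate for the case where the second sequence is generated by the first morphism. -/

set_option autoImplicit false

namespace Pool.Agent.P.MP_1e185c_lc

open Filter Pool.Agent.Lib.ComputableProp

namespace CC

open TS

/-! ### kernel stabilisation -/

theorem it_factor {A C : Type} (f : A → List A) (P : C → List A) (Q : A → List C)
    (h : ∀ a, app P (Q a) = f a) (n : ℕ) (w : List A) :
    app Q (it f n w) = it (fun c => app Q (P c)) n (app Q w) := by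
  induction n with
  | zero => rfl
  | succ n ih =>
    rw [it_succ, it_succ, ← ih, ← app_app, app_app P Q]
    congr 2
    funext a
    exact (h a).symm

theorem exists_lift {A : Type} (C : Finset (List A)) (l : List (List A)) (hl : ∀ x ∈ l, x ∈ C) :
    ∃ q : List C, app Subtype.val q = l.flatten := by
  induction l with
  | nil => exact ⟨[], rfl⟩
  | cons x l ih =>
    obtain ⟨q, hq⟩ := ih fun y hy => hl y (List.mem_cons_of_mem _ hy)
    exact ⟨⟨x, hl x List.mem_cons_self⟩ :: q, by rw [app_cons, hq]; rfl⟩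

theorem ker_stab (hinj : ∀ (A B : Type) [Fintype A] (σ : A → List B), Elem σ →
      Function.Injective (app σ)) (k : ℕ) :
    ∀ (A : Type) [Fintype A], Fintype.card A ≤ k → ∀ (f : A → List A) (S T : List A) (n : ℕ),
      it f n S = it f n T → it f k S = it f k T := by
  induction k with
  | zero =>
    intro A _ hA f S T n _
    have : IsEmpty A := Fintype.card_eq_zero_iff.1 (by omega)
    have e : ∀ w : List A, w = [] := fun w => by
      cases w with
      | nil => rfl
      | cons a _ => exact isEmptyElim a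
    rw [e S, e T]
  | succ k ih =>
    intro A _ hA f S T n hn
    by_cases hE : Elem f
    · rw [(hinj A A f hE).iterate n hn]
    · simp only [Elem, not_forall, not_le] at hE
      obtain ⟨C, hC, hlt⟩ := hE
      have key : ∀ a, ∃ q : List C, app Subtype.val q = f a := fun a => by
        obtain ⟨l, hl, hl'⟩ := hC a
        exact hl' ▸ exists_lift C l hl
      choose Q hQ using key
      have h1 := ih C (by rw [Fintype.card_coe]; omega) (fun c => app Q c.1) (app Q S) (app Q T) n
        (by rw [← it_factor f Subtype.val Q hQ, ← it_factor f Subtype.val Q hQ, hn])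
      rw [← it_factor f Subtype.val Q hQ, ← it_factor f Subtype.val Q hQ] at h1
      have h2 := congrArg (app Subtype.val) h1
      rw [app_app, app_app] at h2
      simp only [hQ] at h2
      rw [it_succ, it_succ]
      exact h2

theorem exists_fin (E : ℕ) (w : List ℕ) (hw : ∀ a ∈ w, a < E) :
    ∃ w' : List (Fin E), w'.map Fin.val = w := by
  induction w with
  | nil => exact ⟨[], rfl⟩
  | cons a w ih =>
    obtain ⟨q, hq⟩ := ih fun y hy => hw y (List.mem_cons_of_mem _ hy)
    exact ⟨⟨a, hw a List.mem_cons_self⟩ :: q, by simp [hq]⟩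

theorem ker_stab_nat (hinj : ∀ (A B : Type) [Fintype A] (σ : A → List B), Elem σ →
      Function.Injective (app σ)) (E : ℕ) (f : ℕ → List ℕ) (hf : ∀ a < E, ∀ b ∈ f a, b < E)
    (S T : List ℕ) (hS : ∀ a ∈ S, a < E) (hT : ∀ a ∈ T, a < E) (n : ℕ)
    (h : it f n S = it f n T) : it f E S = it f E T := by
  choose f' hf' using fun a : Fin E => exists_fin E (f a) (hf a a.2)
  have h1 : ∀ w : List (Fin E), (app f' w).map Fin.val = app f (w.map Fin.val) := by
    intro w
    induction w with
    | nil => rfl
    | cons a w ih => rw [app_cons, List.map_append, ih, hf', List.map_cons, app_cons]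
  have h2 : ∀ n (w : List (Fin E)), (it f' n w).map Fin.val = it f n (w.map Fin.val) := by
    intro n w
    induction n with
    | zero => rfl
    | succ n ih => rw [it_succ, it_succ, h1, ih]
  obtain ⟨S', rfl⟩ := exists_fin E S hS
  obtain ⟨T', rfl⟩ := exists_fin E T hT
  rw [← h2, ← h2] at h ⊢
  rw [ker_stab hinj E (Fin E) (by simp) f' S' T' n
    ((List.map_injective_iff.2 Fin.val_injective) h)]

/-! ### coded polynomials -/

/-- value of a list of monomials -/
def ev {R : Type} [CommRing R] (x : ℕ → R) (p : List (List ℕ)) : R :=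
  (p.map fun m => (m.map x).prod).sum

/-- product of two lists of monomials -/
def mul (p q : List (List ℕ)) : List (List ℕ) := p.flatMap fun m => q.map fun m' => m ++ m'

/-- the positional value as a list of monomials -/
def Bc (i j : ℕ) (w : List ℕ) : List (List ℕ) :=
  w.foldr (fun a s => [4 * a + j] :: s.map fun m => (4 * a + i) :: m) []

/-- number of occurrences -/
def cn (x : ℕ) (m : List ℕ) : ℕ := (m.map fun y => cond (eqb x y) 1 0).sum

/-- permutation test -/
def permb (m m' : List ℕ) : Bool := (m ++ m').all fun x => eqb (cn x m) (cn x m')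

/-- number of occurrences up to permutation -/
def cntP (m : List ℕ) (L : List (List ℕ)) : ℕ := (L.map fun m' => cond (permb m m') 1 0).sum

/-- equality test for lists of monomials -/
def eqv (L R : List (List ℕ)) : Bool := (L ++ R).all fun m => eqb (cntP m L) (cntP m R)

/-- the multiset of monomials -/
def toMM (L : List (List ℕ)) : Multiset (Multiset ℕ) :=
  Multiset.ofList (L.map fun m : List ℕ => Multiset.ofList m)

section

variable {R : Type} [CommRing R] (x : ℕ → R)

theorem ev_nil : ev x [] = 0 := rfl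

theorem ev_cons (m : List ℕ) (p : List (List ℕ)) : ev x (m :: p) = (m.map x).prod + ev x p := by
  simp [ev]

theorem ev_append (p q : List (List ℕ)) : ev x (p ++ q) = ev x p + ev x q := by simp [ev]

theorem ev_map_append (m : List ℕ) (q : List (List ℕ)) :
    ev x (q.map fun m' => m ++ m') = (m.map x).prod * ev x q := by
  induction q with
  | nil => simp [ev]
  | cons a q ih => rw [List.map_cons, ev_cons, ev_cons, ih]; simp [mul_add]

theorem ev_mul (p q : List (List ℕ)) : ev x (mul p q) = ev x p * ev x q := by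
  induction p with
  | nil => simp [ev, mul]
  | cons m p ih =>
    rw [mul, List.flatMap_cons, ev_append, ev_map_append, ev_cons, add_mul, ← ih]
    rfl

theorem ev_Bc (i j : ℕ) (w : List ℕ) :
    ev x (Bc i j w) = Bw (fun a => x (4 * a + i)) (fun a => x (4 * a + j)) w := by
  induction w with
  | nil => rfl
  | cons a w ih =>
    have := ev_map_append x [4 * a + i] (Bc i j w)
    rw [Bw, ← ih, Bc, List.foldr_cons, ev_cons]
    simpa [Bc] using this

theorem ev_flatMap (n : ℕ) (F : ℕ → List (List ℕ)) :
    ev x ((List.range n).flatMap F) = ∑ i ∈ Finset.range n, ev x (F i) := by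
  induction n with
  | zero => rfl
  | succ n ih =>
    rw [List.range_succ, List.flatMap_append, ev_append, ih, Finset.sum_range_succ]
    simp

theorem ev_eq (L : List (List ℕ)) : ev x L = ((toMM L).map fun s => (s.map x).prod).sum := by
  simp [ev, toMM, Function.comp_def]

theorem Dv_eq (w : List ℕ) : Dv x w = ev x (Bc 0 1 w) - ev x (Bc 2 3 w) := by
  rw [ev_Bc, ev_Bc]
  rfl

end

theorem cn_eq (x : ℕ) (m : List ℕ) : cn x m = Multiset.count x (m : Multiset ℕ) := by
  induction m with
  | nil => rfl
  | cons a m ih =>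
    rw [← Multiset.cons_coe, Multiset.count_cons, ← ih]
    by_cases h : x = a <;> simp [cn, eqb, h, add_comm]

theorem permb_iff (m m' : List ℕ) : permb m m' = true ↔ (m : Multiset ℕ) = m' := by
  simp only [permb, List.all_eq_true, eqb_iff, cn_eq]
  refine ⟨fun h => Multiset.ext.2 fun x => ?_, fun h x _ => by rw [h]⟩
  by_cases hx : x ∈ m ++ m'
  · exact h x hx
  · rw [List.mem_append, not_or] at hx
    rw [Multiset.count_eq_zero.2 (by simpa using hx.1),
      Multiset.count_eq_zero.2 (by simpa using hx.2)]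

theorem cntP_eq (m : List ℕ) (L : List (List ℕ)) :
    cntP m L = Multiset.count (m : Multiset ℕ) (toMM L) := by
  induction L with
  | nil => rfl
  | cons a L ih =>
    have e : toMM (a :: L) = (a : Multiset ℕ) ::ₘ toMM L := rfl
    have e' : cntP m (a :: L) = cond (permb m a) 1 0 + cntP m L := by simp [cntP]
    rw [e, Multiset.count_cons, ← ih, e']
    by_cases h : (m : Multiset ℕ) = a
    · rw [(permb_iff m a).2 h, if_pos h, add_comm]
      rfl
    · rw [Bool.eq_false_iff.2 (mt (permb_iff m a).1 h), if_neg h, add_comm]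
      rfl

theorem eqv_iff (L R : List (List ℕ)) : eqv L R = true ↔ toMM L = toMM R := by
  simp only [eqv, List.all_eq_true, eqb_iff, cntP_eq]
  refine ⟨fun h => Multiset.ext.2 fun s => ?_, fun h x _ => by rw [h]⟩
  by_cases hs : ∃ m ∈ L ++ R, (m : Multiset ℕ) = s
  · obtain ⟨m, hm, rfl⟩ := hs
    exact h m hm
  · have key : ∀ K : List (List ℕ), (∀ m ∈ K, m ∈ L ++ R) → Multiset.count s (toMM K) = 0 := by
      intro K hK
      rw [Multiset.count_eq_zero]
      intro h
      simp only [toMM, Multiset.mem_coe, List.mem_map] at h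
      obtain ⟨m, hm, hm'⟩ := h
      exact hs ⟨m, hK m hm, hm'⟩
    rw [key L fun m hm => List.mem_append_left _ hm, key R fun m hm => List.mem_append_right _ hm]

open MvPolynomial in
theorem prod_X (m : List ℕ) : (m.map (X : ℕ → MvPolynomial ℕ ℤ)).prod =
    monomial (Multiset.toFinsupp (m : Multiset ℕ)) 1 := by
  induction m with
  | nil => simp
  | cons a m ih =>
    rw [List.map_cons, List.prod_cons, ih, ← Multiset.cons_coe, ← Multiset.singleton_add, map_add,
      Multiset.toFinsupp_singleton, X, monomial_mul, one_mul]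

open MvPolynomial in
theorem coeff_ev (s : Multiset ℕ) (L : List (List ℕ)) :
    coeff (Multiset.toFinsupp s) (ev (X : ℕ → MvPolynomial ℕ ℤ) L) = Multiset.count s (toMM L) := by
  induction L with
  | nil => simp [ev, toMM]
  | cons a L ih =>
    have e : toMM (a :: L) = (a : Multiset ℕ) ::ₘ toMM L := rfl
    rw [ev_cons, coeff_add, ih, prod_X, coeff_monomial, e, Multiset.count_cons]
    by_cases h : s = a
    · simp [h, add_comm]
    · have : ¬ Multiset.toFinsupp (a : Multiset ℕ) = Multiset.toFinsupp s := fun h' =>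
        h (Multiset.toFinsupp.injective h').symm
      simp [h, this]

open MvPolynomial in
theorem eqv_of_ev {L R : List (List ℕ)} (h : ev (X : ℕ → MvPolynomial ℕ ℤ) L = ev X R) :
    eqv L R = true := by
  rw [eqv_iff]
  refine Multiset.ext.2 fun s => ?_
  have := coeff_ev s L
  rw [h, coeff_ev] at this
  exact_mod_cast this.symm

open MvPolynomial in
theorem exists_code (c : MvPolynomial ℕ ℤ) :
    ∃ p : List (List ℕ) × List (List ℕ), c = ev X p.1 - ev X p.2 := by
  have rep : ∀ n : ℕ, ev (X : ℕ → MvPolynomial ℕ ℤ) (List.replicate n []) = n := by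
    intro n
    simp [ev]
  induction c using MvPolynomial.induction_on with
  | C a => exact ⟨(List.replicate a.toNat [], List.replicate (-a).toNat []), by
      rw [rep, rep, ← Int.cast_natCast a.toNat, ← Int.cast_natCast (-a).toNat, ← Int.cast_sub,
        Int.toNat_sub_toNat_neg]
      simp⟩
  | add p q hp hq =>
    obtain ⟨p, rfl⟩ := hp
    obtain ⟨q, rfl⟩ := hq
    exact ⟨(p.1 ++ q.1, p.2 ++ q.2), by rw [ev_append, ev_append]; ring⟩
  | mul_X p n hp =>
    obtain ⟨p, rfl⟩ := hp
    refine ⟨(mul p.1 [[n]], mul p.2 [[n]]), ?_⟩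
    rw [ev_mul, ev_mul]
    simp [ev, sub_mul]

/-- left side of the relation -/
def lhs (W : ℕ → List ℕ) (J : ℕ) (cs : List (List (List ℕ) × List (List ℕ))) : List (List ℕ) :=
  Bc 0 1 (W (J + 1)) ++ (List.range (J + 1)).flatMap fun i =>
    mul (cs.getD i ([], [])).1 (Bc 2 3 (W i)) ++ mul (cs.getD i ([], [])).2 (Bc 0 1 (W i))

/-- right side of the relation -/
def rhs (W : ℕ → List ℕ) (J : ℕ) (cs : List (List (List ℕ) × List (List ℕ))) : List (List ℕ) :=
  Bc 2 3 (W (J + 1)) ++ (List.range (J + 1)).flatMap fun i =>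
    mul (cs.getD i ([], [])).1 (Bc 0 1 (W i)) ++ mul (cs.getD i ([], [])).2 (Bc 2 3 (W i))

theorem ev_sub {R : Type} [CommRing R] (x : ℕ → R) (W : ℕ → List ℕ) (J : ℕ)
    (cs : List (List (List ℕ) × List (List ℕ))) :
    ev x (lhs W J cs) - ev x (rhs W J cs) = Dv x (W (J + 1)) - ∑ i ∈ Finset.range (J + 1),
      (ev x (cs.getD i ([], [])).1 - ev x (cs.getD i ([], [])).2) * Dv x (W i) := by
  rw [lhs, rhs, ev_append, ev_append, ev_flatMap, ev_flatMap, Dv_eq, add_sub_add_comm,
    ← Finset.sum_sub_distrib, sub_eq_add_neg (_ - _), ← Finset.sum_neg_distrib]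
  congr 1
  refine Finset.sum_congr rfl fun i _ => ?_
  rw [ev_append, ev_append, ev_mul, ev_mul, ev_mul, ev_mul, Dv_eq]
  ring

/-! ### computability -/

section Comp

variable {α β σ : Type} [Primcodable α] [Primcodable β] [Primcodable σ]

@[fun_prop] theorem c_flatMap {f : α → List β} {g : α → β → List σ} (hf : Computable f)
    (hg : Computable (fun x : α × β => g x.1 x.2)) :
    Computable (fun a => (f a).flatMap (g a)) := by
  have : Computable (fun a => (f a).foldr (fun b s => g a b ++ s) []) :=
    c_foldr (h := fun a b s => g a b ++ s) hf (Computable.const [])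
      (c_append (hg.comp (g := fun x : α × β × List σ => (x.1, x.2.1)) (by fun_prop))
        (by fun_prop))
  refine this.of_eq fun a => ?_
  induction f a with
  | nil => rfl
  | cons b l ih => simp [ih]

/-- iteration of a morphism given by a list -/
def itL (l : List (List ℕ)) (n : ℕ) (w : List ℕ) : List ℕ := it (fun a => l.getD a []) n w

@[fun_prop] theorem c_itL {l : α → List (List ℕ)} {n : α → ℕ} {w : α → List ℕ}
    (hl : Computable l) (hn : Computable n) (hw : Computable w) :
    Computable (fun a => itL (l a) (n a) (w a)) := by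
  have h := Computable.nat_rec (h := fun a (p : ℕ × List ℕ) =>
    p.2.flatMap fun b => (l a).getD b []) hn hw (by unfold Computable₂; fun_prop)
  refine h.of_eq fun a => ?_
  induction n a with
  | zero => rfl
  | succ k ih => rw [itL, it_succ, ← itL, ← ih]; rfl

@[fun_prop] theorem c_mulL {p q : α → List (List ℕ)} (hp : Computable p) (hq : Computable q) :
    Computable (fun a => mul (p a) (q a)) := by
  unfold mul
  fun_prop

@[fun_prop] theorem c_Bc (i j : ℕ) {w : α → List ℕ} (hw : Computable w) :
    Computable (fun a => Bc i j (w a)) := by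
  unfold Bc
  exact c_foldr (h := fun _ a s => [4 * a + j] :: s.map fun m => (4 * a + i) :: m) hw
    (Computable.const _) (by fun_prop)

@[fun_prop] theorem c_cn {x : α → ℕ} {m : α → List ℕ} (hx : Computable x) (hm : Computable m) :
    Computable (fun a => cn (x a) (m a)) := by
  unfold cn
  fun_prop

@[fun_prop] theorem c_permb {x m : α → List ℕ} (hx : Computable x) (hm : Computable m) :
    Computable (fun a => permb (x a) (m a)) := by
  unfold permb
  fun_prop

@[fun_prop] theorem c_cntP {x : α → List ℕ} {m : α → List (List ℕ)} (hx : Computable x)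
    (hm : Computable m) : Computable (fun a => cntP (x a) (m a)) := by
  unfold cntP
  fun_prop

@[fun_prop] theorem c_eqv {x m : α → List (List ℕ)} (hx : Computable x)
    (hm : Computable m) : Computable (fun a => eqv (x a) (m a)) := by
  unfold eqv
  fun_prop

end Comp

/-- the check -/
def Chk (z : Inst × ℕ × ℕ) (d : ℕ × ℕ × List (List (List ℕ) × List (List ℕ))) : Prop :=
  (∀ a ∈ z.1.2.1 ++ z.1.2.2 ++ (z.1.1.1 ++ z.1.1.2).flatMap (fun l => l), a < d.1) ∧
  (∀ j < d.2.1 + 1, itL z.1.1.1 z.2.1 (itL z.1.1.2 (z.2.2 + j * z.2.1) z.1.2.2) =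
    itL z.1.1.2 (z.2.2 + (j + 1) * z.2.1) z.1.2.2) ∧
  itL z.1.1.1 (d.1 * z.2.1) (itL z.1.1.1 z.2.2 z.1.2.1) ≠
    itL z.1.1.1 (d.1 * z.2.1) (itL z.1.1.2 z.2.2 z.1.2.2) ∧
  eqv (lhs (fun j => itL z.1.1.2 (z.2.2 + j * z.2.1) z.1.2.2) d.2.1 d.2.2)
    (rhs (fun j => itL z.1.1.2 (z.2.2 + j * z.2.1) z.1.2.2) d.2.1 d.2.2) = true

theorem re_Chk : RE (fun y : (Inst × ℕ × ℕ) × (ℕ × ℕ × List (List (List ℕ) × List (List ℕ))) =>
    Chk y.1 y.2) := by
  refine RE.and (RE.forall_mem (by fun_prop) (RE.lt (by fun_prop) (by fun_prop)))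
    (RE.and (RE.forall_lt (by fun_prop) (RE.eq (by fun_prop) (by fun_prop)))
      (RE.and (RE.ne (by fun_prop) (by fun_prop)) (RE.of_bool (c_eqv ?_ ?_))))
  · unfold lhs
    fun_prop
  · unfold rhs
    fun_prop

theorem bound_getD {E : ℕ} {l : List (List ℕ)} (h : ∀ a ∈ l.flatMap (fun l => l), a < E) (a : ℕ) :
    ∀ b ∈ l.getD a [], b < E := by
  intro b hb
  by_cases ha : a < l.length
  · rw [List.getD_eq_getElem _ _ ha] at hb
    exact h b (List.mem_flatMap.2 ⟨_, List.getElem_mem ha, hb⟩)
  · rw [List.getD_eq_default _ _ (by omega)] at hb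
    simp at hb

theorem bounds {p : Inst} {E : ℕ}
    (h : ∀ a ∈ p.2.1 ++ p.2.2 ++ (p.1.1 ++ p.1.2).flatMap (fun l => l), a < E) :
    (∀ a ∈ p.2.1, a < E) ∧ (∀ a ∈ p.2.2, a < E) ∧ (∀ a, ∀ b ∈ gOf p a, b < E) ∧
      ∀ a, ∀ b ∈ hOf p a, b < E := by
  simp only [List.mem_append, List.flatMap_append] at h
  exact ⟨fun a ha => h a (Or.inl (Or.inl ha)), fun a ha => h a (Or.inl (Or.inr ha)),
    bound_getD fun a ha => h a (Or.inr (Or.inl ha)),
    bound_getD fun a ha => h a (Or.inr (Or.inr ha))⟩

theorem gen_of_all {g h : ℕ → List ℕ} {v : List ℕ} {M N : ℕ}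
    (H : ∀ j, it g M (it h (N + j * M) v) = it h (N + (j + 1) * M) v) (j : ℕ) :
    it h (N + j * M) v = it g (j * M) (it h N v) := by
  induction j with
  | zero => simp [it_zero]
  | succ j ih => rw [← H, ih, ← it_add]; congr 1; ring

end CC

open TS CC in
theorem certC (hinj : ∀ (A B : Type) [Fintype A] (σ : A → List B), Elem σ →
      Function.Injective (app σ)) :
    ∃ C : Inst × ℕ × ℕ → Prop, RE C ∧ (∀ p M N, C (p, M, N) → Sep p M N) ∧
    ∀ p (U : Ultrafilter ℕ), (U : Filter ℕ) ≤ atTop → SC (gOf p) (hOf p) p.2.2 U →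
      (∀ n, it (gOf p) n p.2.1 ≠ it (hOf p) n p.2.2) →
      ∃ M N, 1 ≤ M ∧ InCl U M N ∧ C (p, M, N) := by
  refine ⟨fun z => ∃ d, Chk z d, RE.ex re_Chk, ?_, ?_⟩
  · rintro p M N ⟨⟨E, J, cs⟩, h1, h2, h3, h4⟩ j hj
    obtain ⟨b1, b2, b3, b4⟩ := bounds h1
    change ∀ j < J + 1, it (gOf p) M (it (hOf p) (N + j * M) p.2.2) =
      it (hOf p) (N + (j + 1) * M) p.2.2 at h2
    change it (gOf p) (E * M) (it (gOf p) N p.2.1) ≠ it (gOf p) (E * M) (it (hOf p) N p.2.2) at h3
    change eqv (lhs (fun j => it (hOf p) (N + j * M) p.2.2) J cs)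
      (rhs (fun j => it (hOf p) (N + j * M) p.2.2) J cs) = true at h4
    have hW : ∀ j, it (pw (hOf p) M) j (it (hOf p) N p.2.2) = it (hOf p) (N + j * M) p.2.2 := by
      intro j
      rw [it_pw, ← it_add, add_comm]
    have hW' : ∀ j, app (pw (hOf p) M) (it (hOf p) (N + j * M) p.2.2) =
        it (hOf p) (N + (j + 1) * M) p.2.2 := by
      intro j
      rw [app_pw, ← it_add]
      congr 1
      ring
    have hall := test_of_rel (pw (hOf p) M) (it (hOf p) N p.2.2) J (fun x hx => by
      simp only [hW] at hx ⊢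
      have e := ev_sub x (fun j => it (hOf p) (N + j * M) p.2.2) J cs
      rw [ev_eq, ev_eq, (eqv_iff _ _).1 h4, sub_self, Finset.sum_eq_zero fun i hi => by
        rw [hx i (by simpa [Nat.lt_succ_iff] using hi), mul_zero], sub_zero] at e
      exact e.symm) (pw (gOf p) M) (pw (hOf p) M) (fun j hj => by
      rw [hW, hW', app_pw]
      exact h2 j (by omega))
    simp only [hW, hW'] at hall
    simp only [app_pw] at hall
    rw [gen_of_all hall, add_comm, it_add, ← it_pw, ← it_pw] at hj
    have := ker_stab_nat hinj E (pw (gOf p) M)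
      (fun a ha => it_bound b3 (fun b hb => by rw [List.mem_singleton.1 hb]; exact ha) M)
      _ _ (it_bound b3 b1 N) (it_bound b4 b2 N) j hj
    rw [it_pw, it_pw] at this
    exact h3 this
  · rintro p U - ⟨M, N, hM, hU, H⟩ hne
    obtain ⟨E, hE⟩ := exists_bound (p.2.1 ++ p.2.2 ++ (p.1.1 ++ p.1.2).flatMap (fun l => l))
    obtain ⟨b1, b2, b3, b4⟩ := bounds hE
    obtain ⟨J, c, hc⟩ := exists_rel E (fun j => it (hOf p) (N + j * M) p.2.2)
      fun j => it_bound b4 b2 _
    choose q hq using fun i => exists_code (c i)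
    refine ⟨M, N, hM, hU, (E, J, (List.range (J + 1)).map q), hE, fun j _ => H j, ?_, ?_⟩
    · change it (gOf p) (E * M) (it (gOf p) N p.2.1) ≠ it (gOf p) (E * M) (it (hOf p) N p.2.2)
      rw [← gen_of_all H, ← it_add, add_comm]
      exact hne _
    · change eqv (lhs (fun j => it (hOf p) (N + j * M) p.2.2) J _)
        (rhs (fun j => it (hOf p) (N + j * M) p.2.2) J _) = true
      refine eqv_of_ev (sub_eq_zero.1 ?_)
      rw [ev_sub, hc, sub_eq_zero]
      refine Finset.sum_congr rfl fun i hi => ?_
      have hi' : i < J + 1 := Finset.mem_range.1 hi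
      rw [List.getD_eq_getElem _ _ (by simpa using hi'), hq i]
      simp

end Pool.Agent.P.MP_1e185c_lc
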