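import Mathlib

/-! Basic definitions for the D0L intersection problem. -/

set_option autoImplicit false

namespace Pool.Agent.P.MP_1e185c_lc

/-- apply a morphism, given on letters, to a word -/
def app {A B : Type} (g : A → List B) (w : List A) : List B := w.flatMap g

/-- iterate a morphism on a word -/
def it {A : Type} (g : A → List A) (n : ℕ) (w : List A) : List A := (app g)^[n] w

/-- the power of a morphism, on letters -/
def pw {A : Type} (g : A → List A) (n : ℕ) (a : A) : List A := it g n [a]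

/-- number of occurrences of `z` in `w` -/
noncomputable def cnt {A : Type} (z w : List A) : ℕ := by
  classical exact ((Finset.range w.length).filter fun i => z <+: w.drop i).card

/-- the residue class of `N` modulo `M`, from `N` on, is large -/
def InCl (U : Ultrafilter ℕ) (M N : ℕ) : Prop := {n | ∃ j, n = N + j * M} ∈ U

/-- a finite word padded on both sides -/
def pad {A : Type} (o : A) (w : List A) : ℤ → A :=
  fun i => if 0 ≤ i then w.getD i.toNat o else o

/-- window of a bi-infinite word -/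
def seg {A : Type} (y : ℤ → A) (a : ℤ) (n : ℕ) : List A := (List.range n).map fun i : ℕ => y (a + i)

/-- power of a word -/
def rp {A : Type} (p : List A) (m : ℕ) : List A := (List.replicate m p).flatten

/-- a pattern: left context, period, right context -/
structure Pat (A : Type) where
  c : List A
  p : List A
  d : List A

/-- the word of a pattern with `m` periods -/
def Pat.W {A : Type} (θ : Pat A) (m : ℕ) : List A := θ.c ++ rp θ.p m ++ θ.d

/-- local identities which make the image of a pattern word contain a pattern word -/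
def Low {A B : Type} (σ : A → List B) (θ : Pat A) (η : Pat B) (κ e : ℕ) : Prop :=
  ∃ x y y' x' : List B, app σ θ.c = x ++ η.c ++ y ∧ app σ θ.d = y' ++ η.d ++ x' ∧
    y ++ app σ θ.p = rp η.p κ ++ y ∧ y ++ y' = rp η.p e

/-- `u` occurs in `w` at position `i` -/
def Occ {A : Type} (w : List A) (i : ℕ) (u : List A) : Prop := u <+: w.drop i

/-- length of the image of the first `i` letters -/
def cf {A B : Type} (σ : A → List B) (w : List A) (i : ℕ) : ℕ := (app σ (w.take i)).length

/-- local conditions on a window `w` of length `2 * K` -/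
def UpW {A B : Type} (σ : A → List B) (θ : Pat A) (η : Pat B) (κ oL oR L0 L1 j1 K : ℕ)
    (w : List A) : Prop :=
  (∀ p, cf σ w K ≤ p → p < cf σ w (K + 1) → η.c.length ≤ p →
      Occ (app σ w) (p - η.c.length) (η.c ++ rp η.p L0) →
      ∃ i, i ≤ 2 * K ∧ θ.c.length ≤ i ∧ Occ w (i - θ.c.length) (θ.c ++ rp θ.p L1) ∧
        cf σ w i = p + oL) ∧
  (Occ w (K - L1 * θ.p.length) (rp θ.p L1) →
    (Occ (app σ w) (cf σ w K) ((rp η.p j1).drop oL) → Occ w K θ.p) ∧
    ∀ j, j < j1 → j1 ≤ j + κ → Occ (app σ w) (cf σ w K) ((rp η.p j).drop oL ++ η.d) →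
      ∃ m, m ≤ K ∧ Occ w K (rp θ.p m ++ θ.d) ∧
        j * η.p.length = oL + m * κ * η.p.length + oR)

/-- local conditions which make every long pattern word in the image of a padded word `z j`
come from a pattern word -/
def Up {A B : Type} (σ : A → List B) (θ : Pat A) (η : Pat B) (κ e L : ℕ) (o : A)
    (z : ℕ → List A) : Prop :=
  ∃ oL oR L0 L1 j1 K : ℕ, η.p ≠ [] ∧ 1 ≤ κ ∧ e * η.p.length = oL + oR ∧
    (app σ θ.p).length = κ * η.p.length ∧
    η.c.length + L0 * η.p.length ≤ K ∧ L1 * θ.p.length ≤ K ∧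
    j1 * η.p.length + η.d.length ≤ K ∧ oL + κ * η.p.length ≤ j1 * η.p.length ∧
    L0 ≤ L ∧ j1 + L1 * κ ≤ L ∧
    ∀ j (a : ℤ), UpW σ θ η κ oL oR L0 L1 j1 K (seg (pad o (z j)) a (2 * K))

/-- regular languages do not separate the two sequences -/
def H0 (g h : ℕ → List ℕ) (u v : List ℕ) (U : Ultrafilter ℕ) : Prop :=
  ∀ R : Set (List ℕ), (Set.range fun w => {w' | w ++ w' ∈ R}).Finite →
    ∃ M N, 1 ≤ M ∧ InCl U M N ∧ ∀ j, it g (N + j * M) u ∈ R ↔ it h (N + j * M) v ∈ R

/-- growth rates of numbers of occurrences do not separate the two sequences -/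
def H1 (g h : ℕ → List ℕ) (u v : List ℕ) (U : Ultrafilter ℕ) : Prop :=
  ∀ (M N : ℕ) (w : List ℕ) (xs : List (List ℕ)) (xl : List ℕ) (C : ℕ), 1 ≤ M → InCl U M N →
    w ≠ [] → w <:+: it g N u → it g M w = xs.flatMap (fun x => x ++ w) ++ xl →
    2 ≤ xs.length → ¬ ∀ j, 2 ^ j * cnt w (it h (N + j * M) v) ≤ C * (2 * xs.length - 1) ^ j

/-- lengths of longest periodic runs do not separate the two sequences -/
def H3 (g h : ℕ → List ℕ) (u v : List ℕ) (U : Ultrafilter ℕ) : Prop :=
  ∀ (M N : ℕ) (A B : Type) [Fintype A] [Fintype B] (P : A → List ℕ) (Q : ℕ → List A)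
    (R : B → List ℕ) (Q' : ℕ → List B) (o : B) (θ : Pat A) (θ' : Pat B) (η : Pat ℕ)
    (κ e a b κ' e' a' b' A0 B0 : ℕ),
    1 ≤ M → InCl U M N → (∀ x, app P (Q x) = pw g M x) → (∀ x, app R (Q' x) = pw h M x) →
    (∀ d, app Q' (R d) ≠ []) → (∀ d, R d ≠ []) → (∀ d ∈ app Q' (R o), d = o) →
    (∀ x ∈ R o, x = 0) →
    Low (fun d => app Q (P d)) θ θ κ e → Low P θ η a b → θ.W A0 <:+: app Q (it g N u) →
    Up (fun d => app Q' (R d)) θ' θ' κ' e' B0 o
      (fun j => it (fun d => app Q' (R d)) j (app Q' (it h N v))) →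
    Up R θ' η a' b' (a' * B0 + b') o
      (fun j => it (fun d => app Q' (R d)) j (app Q' (it h N v))) →
    (∃ d ∈ θ'.c ++ θ'.p, d ≠ o) → (∃ d ∈ θ'.p ++ θ'.d, d ≠ o) →
    (∀ m, B0 < m → ∀ i : ℤ, seg (pad o (app Q' (it h N v))) i (θ'.W m).length ≠ θ'.W m) →
    ¬ (κ' ≤ κ ∧ a' * B0 + b' < a * A0 + b ∧
      (a * A0 + b) + (a' * (κ' * B0 + e') + b') ≤ (a * (κ * A0 + e) + b) + (a' * B0 + b'))

/-- along a large class the second sequence is generated by a power of the first morphism -/
def SC (g h : ℕ → List ℕ) (v : List ℕ) (U : Ultrafilter ℕ) : Prop :=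
  ∃ M N, 1 ≤ M ∧ InCl U M N ∧ ∀ j, it g M (it h (N + j * M) v) = it h (N + (j + 1) * M) v

/-- elementary morphism: it does not factor through a smaller alphabet -/
def Elem {A B : Type} [Fintype A] (σ : A → List B) : Prop :=
  ∀ C : Finset (List B), (∀ a, ∃ l : List (List B), (∀ x ∈ l, x ∈ C) ∧ l.flatten = σ a) →
    Fintype.card A ≤ C.card

/-- instances of the problem -/
abbrev Inst : Type := (List (List ℕ) × List (List ℕ)) × (List ℕ × List ℕ)

/-- first morphism of an instance -/
def gOf (p : Inst) (a : ℕ) : List ℕ := p.1.1.getD a []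

/-- second morphism of an instance -/
def hOf (p : Inst) (a : ℕ) : List ℕ := p.1.2.getD a []

/-- the two sequences differ on the whole class -/
def Sep (p : Inst) (M N : ℕ) : Prop :=
  ∀ j, it (gOf p) (N + j * M) p.2.1 ≠ it (hOf p) (N + j * M) p.2.2

end Pool.Agent.P.MP_1e185c_lc
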