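import Pool.Agent.P.MP_1e185c_lc.Defs

/-! Windows of bi-infinite words and parses by a morphism. -/

set_option autoImplicit false

namespace Pool.Agent.P.MP_1e185c_lc

variable {A B C : Type}

@[simp] theorem app_nil (g : A → List B) : app g [] = [] := rfl

@[simp] theorem app_cons (g : A → List B) (a : A) (w : List A) :
    app g (a :: w) = g a ++ app g w := by simp [app]

@[simp] theorem app_append (g : A → List B) (v w : List A) :
    app g (v ++ w) = app g v ++ app g w := by simp [app]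

theorem app_singleton (g : A → List B) (a : A) : app g [a] = g a := by simp

theorem app_app (σ : B → List C) (τ : A → List B) (w : List A) :
    app σ (app τ w) = app (fun a => app σ (τ a)) w := by
  induction w with
  | nil => rfl
  | cons a w ih => simp [ih]

theorem mem_app {g : A → List B} {w : List A} {b : B} : b ∈ app g w ↔ ∃ a ∈ w, b ∈ g a := by
  simp [app]

theorem app_infix {g : A → List B} {v w : List A} (h : v <:+: w) : app g v <:+: app g w := by
  obtain ⟨s, t, rfl⟩ := h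
  exact ⟨app g s, app g t, by simp⟩

theorem app_reverse (g : A → List B) (w : List A) :
    app (fun a => (g a).reverse) w.reverse = (app g w).reverse := by
  induction w with
  | nil => rfl
  | cons a w ih => simp [ih]

@[simp] theorem it_zero (g : A → List A) (w : List A) : it g 0 w = w := rfl

theorem it_succ (g : A → List A) (n : ℕ) (w : List A) : it g (n + 1) w = it g n (app g w) := rfl

theorem it_succ' (g : A → List A) (n : ℕ) (w : List A) : it g (n + 1) w = app g (it g n w) :=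
  Function.iterate_succ_apply' _ _ _

theorem it_add (g : A → List A) (m n : ℕ) (w : List A) : it g (m + n) w = it g m (it g n w) :=
  Function.iterate_add_apply _ _ _ _

theorem app_pw (g : A → List A) (n : ℕ) (w : List A) : app (pw g n) w = it g n w := by
  induction n generalizing w with
  | zero =>
    induction w with
    | nil => rfl
    | cons a w ih => simp [pw] at ih ⊢; exact ih
  | succ n ih =>
    rw [it_succ', ← ih, app_app]
    congr 1
    funext a
    rw [pw, it_succ']; rfl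

@[simp] theorem it_nil (g : A → List A) (n : ℕ) : it g n [] = [] := by rw [← app_pw]; rfl

theorem it_append (g : A → List A) (n : ℕ) (v w : List A) :
    it g n (v ++ w) = it g n v ++ it g n w := by simp [← app_pw]

theorem pw_zero (g : A → List A) (a : A) : pw g 0 a = [a] := rfl

theorem pw_one (g : A → List A) : pw g 1 = g := by
  funext a; simp [pw, it]

theorem pw_succ (g : A → List A) (n : ℕ) (a : A) : pw g (n + 1) a = app (pw g n) (g a) := by
  rw [app_pw, pw, it_succ]; simp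

theorem pw_succ' (g : A → List A) (n : ℕ) (a : A) : pw g (n + 1) a = app g (pw g n a) :=
  it_succ' _ _ _

theorem pw_add (g : A → List A) (m n : ℕ) (a : A) : pw g (m + n) a = app (pw g m) (pw g n a) := by
  rw [app_pw, pw, it_add]; rfl

theorem it_pw (g : A → List A) (p n : ℕ) (w : List A) : it (pw g p) n w = it g (n * p) w := by
  induction n with
  | zero => simp
  | succ n ih => rw [it_succ', ih, app_pw, ← it_add]; congr 1; ring

theorem pw_pw (g : A → List A) (p n : ℕ) : pw (pw g p) n = pw g (n * p) := by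
  funext a; exact it_pw _ _ _ _

theorem it_infix {g : A → List A} {v w : List A} (n : ℕ) (h : v <:+: w) :
    it g n v <:+: it g n w := by
  rw [← app_pw, ← app_pw]; exact app_infix h

/-- nonerasing morphism -/
def NE (σ : A → List B) : Prop := ∀ a, σ a ≠ []

theorem NE.pos {σ : A → List B} (h : NE σ) (a : A) : 0 < (σ a).length :=
  List.length_pos_iff.2 (h a)

theorem NE.le_app {σ : A → List B} (h : NE σ) (w : List A) : w.length ≤ (app σ w).length := by
  induction w with
  | nil => simp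
  | cons a w ih => have := h.pos a; simp; omega

theorem NE.comp {σ : B → List C} {τ : A → List B} (h : NE σ) (h' : NE τ) :
    NE (fun a => app σ (τ a)) := by
  intro a ha
  have h1 := h.le_app (τ a)
  have h2 := h'.pos a
  simp only at ha
  rw [ha] at h1
  simp at h1
  exact h' a h1

theorem NE.pw {g : A → List A} (h : NE g) (n : ℕ) : NE (pw g n) := by
  induction n with
  | zero => intro a; simp [pw_zero]
  | succ n ih =>
    have := ih.comp h
    intro a
    rw [pw_succ]; exact this a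

theorem app_length_le {σ : A → List B} {b : ℕ} (hb : ∀ a, (σ a).length ≤ b) (w : List A) :
    (app σ w).length ≤ b * w.length := by
  induction w with
  | nil => simp
  | cons a w ih => have := hb a; simp [Nat.mul_succ]; omega

theorem exists_bound [Finite A] (σ : A → List B) : ∃ b : ℕ, 1 ≤ b ∧ ∀ a, (σ a).length ≤ b := by
  obtain ⟨b, hb⟩ := (Set.finite_range fun a => (σ a).length).bddAbove
  exact ⟨b + 1, by omega, fun a => Nat.le_succ_of_le (hb ⟨a, rfl⟩)⟩

@[simp] theorem seg_length (y : ℤ → A) (a : ℤ) (n : ℕ) : (seg y a n).length = n := by simp [seg]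

@[simp] theorem seg_zero (y : ℤ → A) (a : ℤ) : seg y a 0 = [] := rfl

theorem seg_getElem? (y : ℤ → A) (a : ℤ) {n i : ℕ} (h : i < n) :
    (seg y a n)[i]? = some (y (a + i)) := by
  simp [seg, h]

@[simp] theorem seg_getElem (y : ℤ → A) (a : ℤ) {n i : ℕ} (h : i < (seg y a n).length) :
    (seg y a n)[i] = y (a + i) := by
  simp [seg]

theorem seg_eq_iff {y : ℤ → A} {a : ℤ} {u : List A} :
    seg y a u.length = u ↔ ∀ i (h : i < u.length), y (a + i) = u[i] := by
  constructor
  · intro H i h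
    have := seg_getElem? y a h
    rw [H, List.getElem?_eq_getElem h] at this
    exact (Option.some.inj this).symm
  · intro H
    apply List.ext_getElem (by simp)
    intro i h1 h2
    simp [H i h2]

theorem seg_congr {y y' : ℤ → A} {a a' : ℤ} {n : ℕ}
    (h : ∀ i : ℕ, i < n → y (a + i) = y' (a' + i)) : seg y a n = seg y' a' n := by
  apply List.ext_getElem (by simp)
  intro i h1 h2
  simp only [seg_getElem]
  exact h i (by simpa using h1)

theorem seg_eq_seg {y y' : ℤ → A} {a a' : ℤ} {n : ℕ} (h : seg y a n = seg y' a' n) (i : ℤ)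
    (h0 : 0 ≤ i) (h1 : i < n) : y (a + i) = y' (a' + i) := by
  obtain ⟨i, rfl⟩ := Int.eq_ofNat_of_zero_le h0
  have h2 := seg_getElem? y a (n := n) (i := i) (by omega)
  have h3 := seg_getElem? y' a' (n := n) (i := i) (by omega)
  rw [h, h3] at h2
  exact (Option.some.inj h2).symm

theorem seg_add (y : ℤ → A) (a : ℤ) (m n : ℕ) :
    seg y a (m + n) = seg y a m ++ seg y (a + m) n := by
  simp only [seg, List.range_add, List.map_append, List.map_map]
  congr 1
  apply List.map_congr_left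
  intro i _
  simp [add_assoc]

theorem seg_one (y : ℤ → A) (a : ℤ) : seg y a 1 = [y a] := by simp [seg]

theorem seg_succ (y : ℤ → A) (a : ℤ) (n : ℕ) : seg y a (n + 1) = seg y a n ++ [y (a + n)] := by
  rw [seg_add, seg_one]

theorem seg_succ' (y : ℤ → A) (a : ℤ) (n : ℕ) : seg y a (n + 1) = y a :: seg y (a + 1) n := by
  rw [add_comm, seg_add, seg_one]; simp

theorem mem_seg {y : ℤ → A} {a : ℤ} {n : ℕ} {b : A} :
    b ∈ seg y a n ↔ ∃ i, a ≤ i ∧ i < a + n ∧ y i = b := by
  simp only [seg, List.mem_map, List.mem_range]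
  constructor
  · rintro ⟨i, h, rfl⟩; exact ⟨a + i, by omega, by omega, rfl⟩
  · rintro ⟨i, h1, h2, rfl⟩
    exact ⟨(i - a).toNat, by omega, by congr 1; omega⟩

theorem seg_infix (y : ℤ → A) {a a' : ℤ} {n n' : ℕ} (h1 : a ≤ a') (h2 : a' + n' ≤ a + n) :
    seg y a' n' <:+: seg y a n := by
  obtain ⟨k, rfl⟩ : ∃ k : ℕ, a' = a + k := ⟨(a' - a).toNat, by omega⟩
  obtain ⟨l, rfl⟩ : ∃ l : ℕ, n = k + n' + l := ⟨n - k - n', by omega⟩
  rw [seg_add, seg_add]
  exact ⟨_, _, rfl⟩

theorem infix_seg {y : ℤ → A} {a : ℤ} {n : ℕ} {u : List A} (h : u <:+: seg y a n) :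
    ∃ i, a ≤ i ∧ i + u.length ≤ a + n ∧ seg y i u.length = u := by
  obtain ⟨s, t, h⟩ := h
  have hl := congrArg List.length h
  simp at hl
  have h2 : seg y a n = seg y a s.length ++ seg y (a + s.length) u.length ++
      seg y (a + (s.length + u.length : ℕ)) t.length := by
    rw [← seg_add, ← seg_add]; congr 1; omega
  rw [h2] at h
  have h3 := List.append_inj h (by simp)
  have h4 := List.append_inj h3.1 (by simp)
  exact ⟨a + s.length, by omega, by omega, h4.2.symm⟩

theorem seg_rev (y : ℤ → A) (b a : ℤ) (n : ℕ) :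
    seg (fun i => y (b - 1 - i)) a n = (seg y (b - a - n) n).reverse := by
  apply List.ext_getElem (by simp)
  intro i h1 h2
  simp only [seg_length] at h1
  simp only [seg_getElem, List.getElem_reverse, seg_length]
  congr 1
  omega

/-- `y` is a parse of `x` by `σ` with cuts `f` -/
structure Parse (σ : A → List B) (x : ℤ → B) (y : ℤ → A) (f : ℤ → ℤ) : Prop where
  step : ∀ i, f (i + 1) = f i + (σ (y i)).length
  lett : ∀ i, seg x (f i) (σ (y i)).length = σ (y i)

namespace Parse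

variable {σ : A → List B} {x x' : ℤ → B} {y y' : ℤ → A} {f f' : ℤ → ℤ}

theorem get (h : Parse σ x y f) (i : ℤ) (o : ℕ) (ho : o < (σ (y i)).length) :
    x (f i + o) = (σ (y i))[o] := seg_eq_iff.1 (h.lett i) o ho

theorem get? (h : Parse σ x y f) (i p : ℤ) (h1 : f i ≤ p) (h2 : p < f (i + 1)) :
    (σ (y i))[(p - f i).toNat]? = some (x p) := by
  have := h.step i
  have h3 := h.get i (p - f i).toNat (by omega)
  rw [List.getElem?_eq_getElem (by omega), ← h3]
  congr 2; omega

theorem mem (h : Parse σ x y f) {i p : ℤ} (h1 : f i ≤ p) (h2 : p < f (i + 1)) :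
    x p ∈ σ (y i) := List.mem_of_getElem? (h.get? i p h1 h2)

theorem exists_of_mem (h : Parse σ x y f) {i : ℤ} {b : B} (hb : b ∈ σ (y i)) :
    ∃ p, f i ≤ p ∧ p < f (i + 1) ∧ x p = b := by
  rw [← h.lett i, mem_seg, ← h.step] at hb
  exact hb

theorem add (h : Parse σ x y f) (i : ℤ) (n : ℕ) :
    f (i + n) = f i + (app σ (seg y i n)).length ∧
      seg x (f i) (app σ (seg y i n)).length = app σ (seg y i n) := by
  induction n with
  | zero => simp
  | succ n ih =>
    rw [seg_succ, app_append, app_singleton, List.length_append, seg_add, ih.2, ← ih.1, h.lett]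
    refine ⟨?_, rfl⟩
    push_cast
    rw [← add_assoc, h.step, ih.1]; ring

theorem le_add (hσ : NE σ) (h : Parse σ x y f) {i j : ℤ} (hij : i ≤ j) :
    f i + (j - i) ≤ f j := by
  obtain ⟨n, rfl⟩ : ∃ n : ℕ, j = i + n := ⟨(j - i).toNat, by omega⟩
  have h1 := (h.add i n).1
  have h2 := hσ.le_app (seg y i n)
  simp at h2
  omega

theorem add_le {b : ℕ} (hb : ∀ a, (σ a).length ≤ b) (h : Parse σ x y f) {i j : ℤ} (hij : i ≤ j) :
    f j ≤ f i + b * (j - i) := by
  obtain ⟨n, rfl⟩ : ∃ n : ℕ, j = i + n := ⟨(j - i).toNat, by omega⟩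
  have h1 := (h.add i n).1
  have h2 := app_length_le hb (seg y i n)
  simp only [seg_length] at h2
  have : ((app σ (seg y i n)).length : ℤ) ≤ b * n := by exact_mod_cast h2
  rw [h1]; simp; exact this

theorem mono (h : Parse σ x y f) {i j : ℤ} (hij : i ≤ j) : f i ≤ f j := by
  obtain ⟨n, rfl⟩ : ∃ n : ℕ, j = i + n := ⟨(j - i).toNat, by omega⟩
  have h1 := (h.add i n).1
  omega

theorem lt (hσ : NE σ) (h : Parse σ x y f) {i j : ℤ} (hij : i < j) : f i < f j := by
  have := h.le_add hσ hij.le; omega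

theorem lt_of_lt (h : Parse σ x y f) {i j : ℤ} (hij : f i < f j) : i < j := by
  by_contra hc
  have := h.mono (not_lt.1 hc); omega

theorem le_of_le (hσ : NE σ) (h : Parse σ x y f) {i j : ℤ} (hij : f i ≤ f j) : i ≤ j := by
  by_contra hc
  have := h.lt hσ (not_le.1 hc); omega

theorem tile (hσ : NE σ) (h : Parse σ x y f) (p : ℤ) : ∃ i, f i ≤ p ∧ p < f (i + 1) := by
  have hb : ∃ i, f i ≤ p := by
    refine ⟨min 0 (p - f 0), ?_⟩
    have := h.le_add hσ (i := min 0 (p - f 0)) (j := 0) (by omega)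
    omega
  obtain ⟨i, hi, hmax⟩ := Int.exists_greatest_of_bdd (P := fun i => f i ≤ p)
    ⟨max 0 (p - f 0), fun z hz => by
      by_contra hc
      have := h.le_add hσ (i := 0) (j := z) (by omega)
      omega⟩ hb
  refine ⟨i, hi, ?_⟩
  by_contra hc
  have := hmax (i + 1) (not_lt.1 hc)
  omega

theorem tile_unique (h : Parse σ x y f) {i j p : ℤ} (h1 : f i ≤ p) (h2 : p < f (i + 1))
    (h3 : f j ≤ p) (h4 : p < f (j + 1)) : i = j := by
  have := h.lt_of_lt (i := i) (j := j + 1) (by omega)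
  have := h.lt_of_lt (i := j) (j := i + 1) (by omega)
  omega

theorem shift (h : Parse σ x y f) (s t : ℤ) :
    Parse σ (fun p => x (p + s)) (fun i => y (i + t)) (fun i => f (i + t) - s) where
  step i := by rw [show i + 1 + t = i + t + 1 by ring, h.step]; ring
  lett i := by
    conv_rhs => rw [← h.lett (i + t)]
    apply seg_congr
    intro k _
    congr 1; ring

theorem cuts_right (h : Parse σ x y f) (h' : Parse σ x' y' f') {c b s t : ℤ}
    (hy : ∀ i, c ≤ i → i < b → y' (i + t) = y i) (hc : f' (c + t) = f c + s) :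
    ∀ i, c ≤ i → i ≤ b → f' (i + t) = f i + s := by
  intro i hi
  induction i, hi using Int.leInduction with
  | base => intro _; exact hc
  | succ i hi ih =>
    intro hb
    rw [show i + 1 + t = i + t + 1 by ring, h'.step, h.step, ih (by omega), hy i hi (by omega)]
    ring

theorem cuts_left (h : Parse σ x y f) (h' : Parse σ x' y' f') {c a s t : ℤ}
    (hy : ∀ i, a ≤ i → i < c → y' (i + t) = y i) (hc : f' (c + t) = f c + s) :
    ∀ i, i ≤ c → a ≤ i → f' (i + t) = f i + s := by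
  intro i hi
  induction i, hi using Int.leInductionDown with
  | base => intro _; exact hc
  | pred i hi ih =>
    intro hb
    have h1 := h'.step (i - 1 + t)
    have h2 := h.step (i - 1)
    rw [show i - 1 + t + 1 = i + t by ring, ih (by omega), hy (i - 1) hb (by omega)] at h1
    rw [show i - 1 + 1 = i by ring] at h2
    omega

/-- locality of parses -/
theorem agree (hσ : NE σ) (h : Parse σ x y f) (h' : Parse σ x' y' f') {a b c s t : ℤ}
    (hy : ∀ i, a ≤ i → i < b → y' (i + t) = y i) (h1 : a ≤ c) (h2 : c ≤ b)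
    (hc : f' (c + t) = f c + s) :
    (∀ i, a ≤ i → i ≤ b → f' (i + t) = f i + s) ∧
      ∀ p, f a ≤ p → p < f b → x' (p + s) = x p := by
  have key : ∀ i, a ≤ i → i ≤ b → f' (i + t) = f i + s := by
    intro i hi1 hi2
    rcases le_total c i with hh | hh
    · exact h.cuts_right h' (fun j j1 j2 => hy j (by omega) j2) hc i hh hi2
    · exact h.cuts_left h' (fun j j1 j2 => hy j j1 (by omega)) hc i hh hi1
  refine ⟨key, fun p hp1 hp2 => ?_⟩
  obtain ⟨i, hi1, hi2⟩ := h.tile hσ p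
  have hai : a < i + 1 := h.lt_of_lt (by omega)
  have hib : i < b := h.lt_of_lt (by omega)
  have e1 := key i (by omega) (by omega)
  have e2 := key (i + 1) (by omega) (by omega)
  have e3 := h.get? i p hi1 hi2
  have e4 := h'.get? (i + t) (p + s) (by omega) (by rw [show i + t + 1 = i + 1 + t by ring]; omega)
  rw [hy i (by omega) hib, e1, show p + s - (f i + s) = p - f i by ring, e3] at e4
  exact (Option.some.inj e4).symm

theorem agree_all (hσ : NE σ) (h : Parse σ x y f) (h' : Parse σ x' y' f') {c s t : ℤ}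
    (hy : ∀ i, y' (i + t) = y i) (hc : f' (c + t) = f c + s) :
    (∀ i, f' (i + t) = f i + s) ∧ ∀ p, x' (p + s) = x p := by
  constructor
  · intro i
    exact (h.agree hσ h' (a := min i c) (b := max i c) (fun i _ _ => hy i) (by omega) (by omega)
      hc).1 i (by omega) (by omega)
  · intro p
    obtain ⟨i, hi1, hi2⟩ := h.tile hσ p
    exact (h.agree hσ h' (a := min i c) (b := max (i + 1) c) (fun i _ _ => hy i) (by omega)
      (by omega) hc).2 p (le_trans (h.mono (by omega)) hi1) (lt_of_lt_of_le hi2 (h.mono (by omega)))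

end Parse

end Pool.Agent.P.MP_1e185c_lc

/-! Existence, composition, reversal, splicing and limits of parses. -/

set_option autoImplicit false

namespace Pool.Agent.P.MP_1e185c_lc

open Filter

variable {A B C : Type}

theorem exists_cuts (l : ℤ → ℤ) (i0 p0 : ℤ) :
    ∃ f : ℤ → ℤ, f i0 = p0 ∧ ∀ i, f (i + 1) = f i + l i := by
  refine ⟨fun i => p0 + ∑ k ∈ Finset.Ico i0 i, l k - ∑ k ∈ Finset.Ico i i0, l k, by simp, ?_⟩
  intro i
  rcases le_or_gt i0 i with h | h
  · have e1 : Finset.Ico i0 (i + 1) = insert i (Finset.Ico i0 i) := by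
      ext k; simp; omega
    have e2 : Finset.Ico (i + 1) i0 = ∅ := by ext k; simp; omega
    have e3 : Finset.Ico i i0 = ∅ := by ext k; simp; omega
    simp only [e1, e2, e3]
    rw [Finset.sum_insert (by simp)]
    simp; ring
  · have e1 : Finset.Ico i i0 = insert i (Finset.Ico (i + 1) i0) := by
      ext k; simp; omega
    have e2 : Finset.Ico i0 (i + 1) = ∅ := by ext k; simp; omega
    have e3 : Finset.Ico i0 i = ∅ := by ext k; simp; omega
    simp only [e1, e2, e3]
    rw [Finset.sum_insert (by simp)]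
    simp; ring

theorem exists_parse {σ : A → List B} (hσ : NE σ) (y : ℤ → A) (i0 p0 : ℤ) :
    ∃ x f, Parse σ x y f ∧ f i0 = p0 := by
  obtain ⟨f, hf0, hf⟩ := exists_cuts (fun i => (σ (y i)).length) i0 p0
  have h0 : Parse (fun a => (σ a).map fun _ => ()) (fun _ => ()) y f :=
    ⟨by simpa using hf, fun i => by
      apply List.ext_getElem (by simp)
      intros; rfl⟩
  have hσ0 : NE (fun a => (σ a).map fun _ => ()) := fun a => by simpa using hσ a
  choose t ht using h0.tile hσ0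
  refine ⟨fun p => (σ (y (t p)))[(p - f (t p)).toNat]'(by
    have := ht p; have := hf (t p); omega), f, ⟨hf, fun i => ?_⟩, hf0⟩
  rw [seg_eq_iff]
  intro o ho
  have e : t (f i + o) = i :=
    h0.tile_unique (ht _).1 (ht _).2 (by omega) (by have := hf i; omega)
  simp only [e]
  congr 1
  omega

namespace Parse

variable {σ : A → List B} {x x' : ℤ → B} {y y' : ℤ → A} {f f' : ℤ → ℤ}

theorem comp {τ : C → List A} {z : ℤ → C} {g : ℤ → ℤ} (h : Parse σ x y f) (h' : Parse τ y z g) :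
    Parse (fun c => app σ (τ c)) x z (fun i => f (g i)) where
  step i := by
    have := (h.add (g i) (τ (z i)).length).1
    rw [h'.lett] at this
    rw [h'.step, this]
  lett i := by
    have := (h.add (g i) (τ (z i)).length).2
    rwa [h'.lett] at this

theorem decomp {τ : C → List A} {z : ℤ → C} {F : ℤ → ℤ} (hσ : NE σ) (hτ : NE τ)
    (h : Parse (fun c => app σ (τ c)) x z F) :
    ∃ y f g, Parse σ x y f ∧ Parse τ y z g ∧ ∀ i, F i = f (g i) := by
  obtain ⟨y, g, hg, hg0⟩ := exists_parse hτ z 0 0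
  obtain ⟨x', f, hf, hf0⟩ := exists_parse hσ y 0 (F 0)
  have := h.agree_all (hσ.comp hτ) (hf.comp hg) (c := 0) (s := 0) (t := 0) (by simp)
    (by simp [hg0, hf0])
  have e : x' = x := funext fun p => by simpa using this.2 p
  exact ⟨y, f, g, e ▸ hf, hg, fun i => by simpa using (this.1 i).symm⟩

theorem rev (h : Parse σ x y f) (a b : ℤ) :
    Parse (fun c => (σ c).reverse) (fun p => x (a - 1 - p)) (fun i => y (b - 1 - i))
      (fun i => a - f (b - i)) where
  step i := by
    have := h.step (b - 1 - i)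
    rw [show b - 1 - i + 1 = b - i by ring] at this
    rw [show b - (i + 1) = b - 1 - i by ring, this]
    simp; ring
  lett i := by
    have h1 := h.step (b - 1 - i)
    rw [show b - 1 - i + 1 = b - i by ring] at h1
    rw [seg_rev, List.length_reverse, List.reverse_inj]
    conv_rhs => rw [← h.lett (b - 1 - i)]
    congr 1
    omega

theorem splice (h : Parse σ x y f) (h' : Parse σ x' y' f') {c c' : ℤ}
    (hc : f c = f' c') :
    Parse σ (fun p => if p < f c then x p else x' p) (fun i => if i < c then y i else y' (i - c + c'))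
      (fun i => if i < c then f i else f' (i - c + c')) where
  step i := by
    rcases lt_trichotomy (i + 1) c with h1 | h1 | h1
    · simp only [h1, show i < c by omega, if_true]; exact h.step i
    · subst h1
      simp only [lt_irrefl, if_false, show i < i + 1 by omega, if_true, sub_self, zero_add]
      rw [← hc]; exact h.step i
    · simp only [show ¬ (i + 1 < c) by omega, show ¬ (i < c) by omega, if_false]
      rw [show i + 1 - c + c' = i - c + c' + 1 by ring]; exact h'.step _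
  lett i := by
    by_cases h1 : i < c
    · simp only [h1, if_true]
      conv_rhs => rw [← h.lett i]
      apply seg_congr
      intro k hk
      have := h.step i
      have := h.mono (i := i + 1) (j := c) (by omega)
      rw [if_pos (by omega)]
    · simp only [h1, if_false]
      conv_rhs => rw [← h'.lett _]
      apply seg_congr
      intro k hk
      have := h'.mono (i := c') (j := i - c + c') (by omega)
      rw [if_neg (by omega)]

theorem id_parse (y : ℤ → A) : Parse (fun a => [a]) y y (fun i => i) :=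
  ⟨by simp, fun i => by simp [seg_one]⟩

theorem of_single {z : ℤ → A} (h : Parse (fun a => [a]) z y f) (i : ℤ) :
    f i = f 0 + i ∧ z (f 0 + i) = y i := by
  have := (id_parse y).agree_all (fun a => by simp) h (c := 0) (s := f 0) (t := 0) (by simp)
    (by simp)
  exact ⟨by simpa [add_comm] using this.1 i, by simpa [add_comm] using this.2 i⟩

/-- a periodic parent has a periodic image -/
theorem periodic (hσ : NE σ) (h : Parse σ x y f) {q : ℤ} (hq : ∀ i, y (i + q) = y i) :
    (∀ i, f (i + q) = f i + (f q - f 0)) ∧ ∀ p, x (p + (f q - f 0)) = x p :=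
  h.agree_all hσ h (c := 0) hq (by simp)

end Parse

/-- the fixed nonprincipal ultrafilter -/
noncomputable abbrev VV : Filter ℕ := (hyperfilter ℕ : Filter ℕ)

theorem VV_ge (N : ℕ) : ∀ᶠ n in VV, N ≤ n :=
  Nat.hyperfilter_le_atTop (eventually_ge_atTop N)

/-- pointwise limit along the ultrafilter -/
def Lim (y : ℕ → ℤ → A) (z : ℤ → A) : Prop := ∀ i, ∀ᶠ n in VV, y n i = z i

theorem exists_lim_val {s : Set A} (hs : s.Finite) (a : ℕ → A) (ha : ∀ n, a n ∈ s) :
    ∃ b ∈ s, ∀ᶠ n in VV, a n = b := by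
  have : ∀ᶠ n in VV, ∃ b ∈ s, a n = b := Eventually.of_forall fun n => ⟨_, ha n, rfl⟩
  exact (Ultrafilter.eventually_exists_mem_iff hs).1 this

theorem exists_lim_fin [Finite A] (a : ℕ → A) : ∃ b, ∀ᶠ n in VV, a n = b := by
  obtain ⟨b, -, hb⟩ := exists_lim_val Set.finite_univ a (by simp)
  exact ⟨b, hb⟩

theorem exists_lim_int (a : ℕ → ℤ) (l r : ℤ) (ha : ∀ n, l ≤ a n ∧ a n ≤ r) :
    ∃ b, l ≤ b ∧ b ≤ r ∧ ∀ᶠ n in VV, a n = b := by
  obtain ⟨b, h1, hb⟩ := exists_lim_val (Set.finite_Icc l r) a ha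
  exact ⟨b, h1.1, h1.2, hb⟩

theorem exists_lim [Finite A] (y : ℕ → ℤ → A) : ∃ z, Lim y z := by
  choose z hz using fun i => exists_lim_fin (fun n => y n i)
  exact ⟨z, hz⟩

theorem Lim.Icc {y : ℕ → ℤ → A} {z : ℤ → A} (h : Lim y z) (a b : ℤ) :
    ∀ᶠ n in VV, ∀ i, a ≤ i → i ≤ b → y n i = z i := by
  have := (eventually_all_finite (Set.finite_Icc a b)).2 (fun i _ => h i)
  exact this.mono fun n hn i h1 h2 => hn i ⟨h1, h2⟩

theorem Parse.lim {σ : A → List B} (hσ : NE σ) {x : ℕ → ℤ → B} {y : ℕ → ℤ → A} {f : ℕ → ℤ → ℤ}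
    (h : ∀ n, Parse σ (x n) (y n) (f n)) {z : ℤ → A} (hz : Lim y z) {c p : ℤ}
    (hc : ∀ᶠ n in VV, f n c = p) :
    ∃ X F, Parse σ X z F ∧ Lim x X ∧ Lim f F := by
  obtain ⟨X, F, hF, hF0⟩ := exists_parse hσ z c p
  have key : ∀ a b : ℤ, a ≤ c → c ≤ b → ∀ᶠ n in VV, (∀ i, a ≤ i → i ≤ b → f n i = F i) ∧
      ∀ q, F a ≤ q → q < F b → x n q = X q := by
    intro a b ha hb
    filter_upwards [hz.Icc a b, hc] with n h1 h2
    have := hF.agree hσ (h n) (a := a) (b := b) (c := c) (s := 0) (t := 0)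
      (fun i i1 i2 => by simpa using h1 i i1 i2.le) ha hb (by simp [h2, hF0])
    simpa using this
  refine ⟨X, F, hF, fun q => ?_, fun i => ?_⟩
  · obtain ⟨i, h1, h2⟩ := hF.tile hσ q
    filter_upwards [key (min i c) (max (i + 1) c) (by omega) (by omega)] with n hn
    exact hn.2 q (le_trans (hF.mono (by omega)) h1) (lt_of_lt_of_le h2 (hF.mono (by omega)))
  · filter_upwards [key (min i c) (max i c) (by omega) (by omega)] with n hn
    exact hn.1 i (by omega) (by omega)

/-- limit of parses whose tile `0` covers position `0` -/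
theorem Parse.lim0 [Finite A] {σ : A → List B} (hσ : NE σ) {x : ℕ → ℤ → B} {y : ℕ → ℤ → A}
    {f : ℕ → ℤ → ℤ} (h : ∀ n, Parse σ (x n) (y n) (f n)) (h0 : ∀ n, f n 0 ≤ 0 ∧ 0 < f n 1)
    {z : ℤ → A} (hz : Lim y z) : ∃ X F, Parse σ X z F ∧ Lim x X ∧ Lim f F := by
  obtain ⟨b, -, hb⟩ := exists_bound σ
  obtain ⟨p, -, -, hp⟩ := exists_lim_int (fun n => f n 0) (-b) 0 (fun n => by
    have h1 := (h n).step 0
    have h2 := hb (y n 0)
    have := h0 n
    simp only [zero_add] at h1
    omega)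
  exact Parse.lim hσ h hz hp

end Pool.Agent.P.MP_1e185c_lc

/-! Elementary morphisms: two parses of one word coincide or the parent is periodic. -/

set_option autoImplicit false
set_option linter.unusedSectionVars false

namespace Pool.Agent.P.MP_1e185c_lc

open Filter

variable {A B : Type} [Fintype A]

theorem Elem.ne {σ : A → List B} (h : Elem σ) : NE σ := by
  classical
  intro a ha
  have := h ((Finset.univ.erase a).image σ) (fun b => by
    by_cases hb : b = a
    · exact ⟨[], by simp, by simp [hb, ha]⟩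
    · exact ⟨[σ b], by simp; exact ⟨b, hb, rfl⟩, by simp⟩)
  have h2 := Finset.card_image_le (s := Finset.univ.erase a) (f := σ)
  rw [Finset.card_erase_of_mem (Finset.mem_univ a), Finset.card_univ] at h2
  have : 0 < Fintype.card A := Fintype.card_pos_iff.2 ⟨a⟩
  omega

theorem Elem.rev {σ : A → List B} (h : Elem σ) : Elem (fun a => (σ a).reverse) := by
  classical
  intro C hC
  refine le_trans (h (C.image List.reverse) fun a => ?_) Finset.card_image_le
  obtain ⟨l, h1, h2⟩ := hC a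
  refine ⟨(l.map List.reverse).reverse, ?_, ?_⟩
  · intro x hx
    simp only [List.mem_reverse, List.mem_map] at hx
    obtain ⟨z, hz, rfl⟩ := hx
    exact Finset.mem_image_of_mem _ (h1 z hz)
  · rw [← List.reverse_flatten, h2]; simp

/-- position states of a parse -/
structure St (σ : A → List B) (y : ℤ → A) (f : ℤ → ℤ) (s : ℤ → A × ℕ) : Prop where
  spec : ∀ i (o : ℕ), o < (σ (y i)).length → s (f i + o) = (y i, o)

theorem Parse.exists_st {σ : A → List B} (hσ : NE σ) {x : ℤ → B} {y : ℤ → A} {f : ℤ → ℤ}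
    (h : Parse σ x y f) : ∃ s, St σ y f s := by
  choose T hT using h.tile hσ
  refine ⟨fun p => (y (T p), (p - f (T p)).toNat), ⟨fun i o ho => ?_⟩⟩
  have e : T (f i + o) = i :=
    h.tile_unique (hT _).1 (hT _).2 (by omega) (by have := h.step i; omega)
  simp [e]

theorem Parse.pos {σ : A → List B} (hσ : NE σ) {x : ℤ → B} {y : ℤ → A} {f : ℤ → ℤ}
    (h : Parse σ x y f) (p : ℤ) : ∃ (i : ℤ) (o : ℕ), o < (σ (y i)).length ∧ p = f i + o := by
  obtain ⟨i, h1, h2⟩ := h.tile hσ p
  exact ⟨i, (p - f i).toNat, by have := h.step i; omega, by omega⟩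

section pieces

variable (σ : A → List B) (D : A × ℕ → Prop)

theorem nxt_ex (s : A × ℕ) : ∃ t, 0 < t ∧ ((σ s.1).length ≤ s.2 + t ∨ D (s.1, s.2 + t)) :=
  ⟨(σ s.1).length + 1, by omega, Or.inl (by omega)⟩

open Classical in
/-- distance to the next refined cut -/
noncomputable def nxt (s : A × ℕ) : ℕ := Nat.find (nxt_ex σ D s)

/-- the piece up to the next refined cut -/
noncomputable def piece (s : A × ℕ) : List B := ((σ s.1).drop s.2).take (nxt σ D s)

variable {σ D}

theorem nxt_spec (s : A × ℕ) :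
    0 < nxt σ D s ∧ ((σ s.1).length ≤ s.2 + nxt σ D s ∨ D (s.1, s.2 + nxt σ D s)) := by
  classical exact Nat.find_spec (nxt_ex σ D s)

theorem nxt_min (s : A × ℕ) {t : ℕ} (h0 : 0 < t)
    (h : (σ s.1).length ≤ s.2 + t ∨ D (s.1, s.2 + t)) : nxt σ D s ≤ t := by
  classical exact Nat.find_min' (nxt_ex σ D s) ⟨h0, h⟩

theorem piece_pos (hσ : NE σ) (hD : ∀ b, D (b, 0)) {x : ℤ → B} {y : ℤ → A} {f : ℤ → ℤ}
    (h : Parse σ x y f) {s : ℤ → A × ℕ} (hs : St σ y f s) (p : ℤ) :
    0 < nxt σ D (s p) ∧ D (s (p + nxt σ D (s p))) ∧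
      (∀ t : ℕ, 0 < t → D (s (p + t)) → nxt σ D (s p) ≤ t) ∧
      piece σ D (s p) = seg x p (nxt σ D (s p)) := by
  obtain ⟨i, o, ho, rfl⟩ := h.pos hσ p
  rw [hs.spec i o ho]
  have h1 := nxt_spec (σ := σ) (D := D) (y i, o)
  have h2 : nxt σ D (y i, o) ≤ (σ (y i)).length - o := nxt_min _ (by omega) (Or.inl (by simp; omega))
  simp only at h1
  refine ⟨h1.1, ?_, ?_, ?_⟩
  · by_cases h3 : o + nxt σ D (y i, o) < (σ (y i)).length
    · have := hs.spec i _ h3
      rw [show f i + o + nxt σ D (y i, o) = f i + (o + nxt σ D (y i, o) : ℕ) by push_cast; ring,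
        this]
      exact h1.2.resolve_left (by omega)
    · have := hs.spec (i + 1) 0 (hσ.pos _)
      rw [show f i + o + nxt σ D (y i, o) = f (i + 1) + (0 : ℕ) by rw [h.step]; omega, this]
      exact hD _
  · intro t ht hd
    by_cases h3 : o + t < (σ (y i)).length
    · rw [show f i + o + t = f i + (o + t : ℕ) by push_cast; ring, hs.spec i _ h3] at hd
      exact nxt_min _ ht (Or.inr hd)
    · omega
  · apply List.ext_getElem
    · simp [piece]; omega
    · intro k k1 k2
      simp only [seg_length] at k2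
      simp only [piece, List.getElem_take, List.getElem_drop, seg_getElem]
      rw [← h.get i (o + k) (by omega)]
      congr 1; push_cast; ring

theorem pieces_gen (a : A) (n : ℕ) : ∀ o, (σ a).length ≤ o + n →
    ((σ a).length ≤ o ∨ D (a, o)) →
    ∃ l : List (List B), (∀ x ∈ l, ∃ s, D s ∧ x = piece σ D s) ∧ l.flatten = (σ a).drop o := by
  induction n with
  | zero => intro o h _; exact ⟨[], by simp, by simp; omega⟩
  | succ n ih =>
    intro o h hd
    rcases hd with hd | hd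
    · exact ⟨[], by simp, by simp; omega⟩
    · have h1 := nxt_spec (σ := σ) (D := D) (a, o)
      obtain ⟨l, l1, l2⟩ := ih (o + nxt σ D (a, o)) (by omega) h1.2
      refine ⟨piece σ D (a, o) :: l, ?_, ?_⟩
      · intro x hx
        rcases List.mem_cons.1 hx with rfl | hx
        · exact ⟨_, hd, rfl⟩
        · exact l1 x hx
      · rw [List.flatten_cons, l2, piece, ← List.drop_drop, List.take_append_drop]

end pieces

theorem Elem.code {σ : A → List B} (he : Elem σ) {x : ℤ → B} {y y' : ℤ → A} {f f' : ℤ → ℤ}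
    (h : Parse σ x y f) (h' : Parse σ x y' f') {s s' : ℤ → A × ℕ} (hs : St σ y f s)
    (hs' : St σ y' f' s') :
    ∃ φ : A × ℕ → List B, (∀ p, φ (s p) = φ (s' p)) ∧ Function.Injective fun b => φ (b, 0) := by
  classical
  let r : A × ℕ → A × ℕ → Prop := fun u v => ∃ p, s p = u ∧ s' p = v
  let D : A × ℕ → Prop := fun u => ∃ b, Relation.EqvGen r u (b, 0)
  have hD : ∀ b, D (b, 0) := fun b => ⟨b, Relation.EqvGen.refl _⟩
  have hDD : ∀ p, D (s p) ↔ D (s' p) := by
    intro p
    have e : Relation.EqvGen r (s p) (s' p) := Relation.EqvGen.rel _ _ ⟨p, rfl, rfl⟩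
    exact ⟨fun ⟨b, hb⟩ => ⟨b, (e.symm _ _).trans _ _ _ hb⟩, fun ⟨b, hb⟩ => ⟨b, e.trans _ _ _ hb⟩⟩
  have hp : ∀ p, piece σ D (s p) = piece σ D (s' p) := by
    intro p
    obtain ⟨a1, a2, a3, a4⟩ := piece_pos he.ne hD h hs p
    obtain ⟨b1, b2, b3, b4⟩ := piece_pos he.ne hD h' hs' p
    have := a3 _ b1 ((hDD _).2 b2)
    have := b3 _ a1 ((hDD _).1 a2)
    rw [a4, b4]; congr 1; omega
  have he2 : ∀ u v, Relation.EqvGen r u v → piece σ D u = piece σ D v := by
    intro u v huv
    induction huv with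
    | rel u v h => obtain ⟨p, rfl, rfl⟩ := h; exact hp p
    | refl => rfl
    | symm _ _ _ ih => exact ih.symm
    | trans _ _ _ _ _ ih1 ih2 => exact ih1.trans ih2
  refine ⟨piece σ D, hp, ?_⟩
  have := he (Finset.univ.image fun b => piece σ D (b, 0)) (fun a => by
    obtain ⟨l, l1, l2⟩ := pieces_gen (σ := σ) (D := D) a (σ a).length 0 (by omega) (Or.inr (hD a))
    refine ⟨l, fun x hx => ?_, by simpa using l2⟩
    obtain ⟨u, ⟨b, hb⟩, rfl⟩ := l1 x hx
    exact Finset.mem_image.2 ⟨b, Finset.mem_univ _, (he2 _ _ hb).symm⟩)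
  have h2 := Finset.card_image_le (s := (Finset.univ : Finset A)) (f := fun b => piece σ D (b, 0))
  have h3 := Finset.card_image_iff.1 (le_antisymm h2 (by simpa using this))
  intro a b hab
  exact h3 (Finset.mem_coe.2 (Finset.mem_univ a)) (Finset.mem_coe.2 (Finset.mem_univ b)) hab

theorem Elem.cut_letter {σ : A → List B} (he : Elem σ) {x : ℤ → B} {y y' : ℤ → A} {f f' : ℤ → ℤ}
    (h : Parse σ x y f) (h' : Parse σ x y' f') {i j : ℤ} (hc : f i = f' j) : y i = y' j := by
  obtain ⟨s, hs⟩ := h.exists_st he.ne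
  obtain ⟨s', hs'⟩ := h'.exists_st he.ne
  obtain ⟨φ, h1, h2⟩ := he.code h h' hs hs'
  have e1 := hs.spec i 0 (he.ne.pos _)
  have e2 := hs'.spec j 0 (he.ne.pos _)
  have := h1 (f i + (0 : ℕ))
  rw [e1, hc, e2] at this
  exact h2 this

/-- a common cut forces the parses to coincide -/
theorem Elem.eq_of_cut {σ : A → List B} (he : Elem σ) {x : ℤ → B} {y y' : ℤ → A} {f f' : ℤ → ℤ}
    (h : Parse σ x y f) (h' : Parse σ x y' f') {c t : ℤ} (hc : f' (c + t) = f c) (i : ℤ) :
    y' (i + t) = y i ∧ f' (i + t) = f i := by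
  have key : ∀ i, f' (i + t) = f i := by
    intro i
    rcases le_total c i with hi | hi
    · induction i, hi using Int.leInduction with
      | base => exact hc
      | succ i hi ih =>
        rw [show i + 1 + t = i + t + 1 by ring, h'.step, h.step, ih, he.cut_letter h h' ih.symm]
    · induction i, hi using Int.leInductionDown with
      | base => exact hc
      | pred i hi ih =>
        have := he.rev.cut_letter (h.rev 0 0) (h'.rev 0 0) (i := -i) (j := -(i + t))
          (by simp [ih])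
        have h1 := h'.step (i - 1 + t)
        have h2 := h.step (i - 1)
        rw [show (0 : ℤ) - 1 - -i = i - 1 by ring, show (0 : ℤ) - 1 - -(i + t) = i - 1 + t by ring]
          at this
        rw [show i - 1 + t + 1 = i + t by ring, ih, ← this] at h1
        rw [show i - 1 + 1 = i by ring] at h2
        omega
  exact ⟨(he.cut_letter h h' (key i).symm).symm, key i⟩

theorem seg_pad (o : B) (w : List B) : seg (pad o w) 0 w.length = w := by
  rw [seg_eq_iff]
  intro i hi
  simp [pad, hi]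

theorem Elem.inj {σ : A → List B} (he : Elem σ) : Function.Injective (app σ) := by
  intro w w' hw
  by_cases hA : Nonempty A
  swap
  · cases w with
    | nil =>
      cases w' with
      | nil => rfl
      | cons a _ => exact (hA ⟨a⟩).elim
    | cons a _ => exact (hA ⟨a⟩).elim
  obtain ⟨o⟩ := hA
  obtain ⟨x, f, h, h0⟩ := exists_parse he.ne (pad o w) 0 0
  obtain ⟨x', f', h', h0'⟩ := exists_parse he.ne (pad o w') 0 0
  have a1 := h.add 0 w.length
  have a2 := h'.add 0 w'.length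
  rw [seg_pad, h0] at a1
  rw [seg_pad, h0', ← hw] at a2
  have e : x' = x := by
    funext p
    obtain ⟨i, i1, i2⟩ := h.tile he.ne p
    rcases lt_or_ge p 0 with hp | hp
    · have := (h.agree he.ne h' (a := min i 0) (b := 0) (c := 0) (s := 0) (t := 0)
        (fun i _ hi => by simp [pad, not_le.2 hi]) (by omega) le_rfl (by simp [h0, h0'])).2 p
        (le_trans (h.mono (by omega)) i1) (by omega)
      simpa using this
    rcases lt_or_ge p (app σ w).length with hq | hq
    · have := seg_eq_seg (a2.2.trans a1.2.symm) p hp hq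
      simpa using this
    · have := (h.agree he.ne h' (a := w.length) (b := max (i + 1) w.length) (c := w.length)
        (s := 0) (t := w'.length - w.length)
        (fun i hi _ => by
          simp only [pad]
          rw [if_pos (by omega), if_pos (by omega), List.getD_eq_default _ _ (by omega),
            List.getD_eq_default _ _ (by omega)]) le_rfl (by omega)
        (by simp at a1 a2 ⊢; omega)).2 p (by simp at a1; omega)
        (lt_of_lt_of_le i2 (h.mono (by omega)))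
      simpa using this
  subst e
  have key := he.eq_of_cut h h' (c := 0) (t := 0) (by simp [h0, h0'])
  simp only [add_zero] at key
  have e2 : (w.length : ℤ) = w'.length := by
    apply le_antisymm <;> apply h.le_of_le he.ne <;> rw [← (key w'.length).2] <;>
      simp at a1 a2 <;> omega
  rw [← seg_pad o w, ← seg_pad o w', show w'.length = w.length by omega]
  exact seg_congr fun i _ => (key _).1.symm

theorem det_periodic {T : Type} (S : ℤ → T) (s : Finset T) (hs : ∀ p, S p ∈ s)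
    (hS : ∀ p q, S p = S q → S (p + 1) = S (q + 1)) :
    ∃ t : ℕ, 1 ≤ t ∧ t ≤ s.card ∧ ∀ p, S (p + t) = S p := by
  have h1 : ∀ n : ℕ, ∃ t : ℕ, 1 ≤ t ∧ t ≤ s.card ∧ ∀ p, -(n : ℤ) ≤ p → S (p + t) = S p := by
    intro n
    obtain ⟨i, hi, j, hj, hij, e⟩ := Finset.exists_ne_map_eq_of_card_lt_of_maps_to
      (s := Finset.range (s.card + 1)) (t := s) (by simp)
      (f := fun i => S (-(n : ℤ) - i)) (fun i _ => hs _)
    wlog hlt : i < j generalizing i j
    · exact this j hj i hi hij.symm e.symm (by omega)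
    simp only [Finset.mem_range] at hi hj
    have key : ∀ p, -(n : ℤ) - j ≤ p → S (p + (j - i : ℕ)) = S p := by
      intro p hp
      induction p, hp using Int.leInduction with
      | base => rw [← e]; congr 1; omega
      | succ p hp ih => rw [← hS _ _ ih]; congr 1; ring
    exact ⟨j - i, by omega, by omega, fun p hp => key p (by omega)⟩
  choose t t1 t2 t3 using h1
  obtain ⟨b, hb, hb'⟩ := exists_lim_val (Set.finite_Icc 1 s.card) t (fun n => ⟨t1 n, t2 n⟩)
  refine ⟨b, hb.1, hb.2, fun p => ?_⟩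
  obtain ⟨n, n1, n2⟩ := (hb'.and (VV_ge p.natAbs)).exists
  rw [← n1]
  exact t3 n p (by omega)

/-- two parses of the same word coincide up to a shift or the parent is periodic -/
theorem Elem.dichotomy {σ : A → List B} (he : Elem σ) : ∃ Q : ℕ, ∀ {x : ℤ → B} {y y' : ℤ → A}
    {f f' : ℤ → ℤ}, Parse σ x y f → Parse σ x y' f' →
    (∃ t, ∀ i, y' (i + t) = y i ∧ f' (i + t) = f i) ∨
      ∃ q : ℕ, 1 ≤ q ∧ q ≤ Q ∧ ∀ i, y (i + q) = y i := by
  classical
  obtain ⟨b, -, hb⟩ := exists_bound σ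
  let S0 : Finset (A × ℕ) := Finset.univ ×ˢ Finset.range b
  refine ⟨(S0 ×ˢ S0).card, fun {x y y' f f'} h h' => ?_⟩
  by_cases hc : ∃ i j, f i = f' j
  · obtain ⟨i, j, hc⟩ := hc
    exact Or.inl ⟨j - i, he.eq_of_cut h h' (c := i) (by simp [hc])⟩
  right
  push Not at hc
  obtain ⟨s, hs⟩ := h.exists_st he.ne
  obtain ⟨s', hs'⟩ := h'.exists_st he.ne
  obtain ⟨φ, h1, h2⟩ := he.code h h' hs hs'
  have next : ∀ {y : ℤ → A} {f : ℤ → ℤ} {s : ℤ → A × ℕ}, Parse σ x y f → St σ y f s → ∀ p,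
      ((s p).2 + 1 < (σ (s p).1).length ∧ s (p + 1) = ((s p).1, (s p).2 + 1)) ∨
      ((s p).2 + 1 = (σ (s p).1).length ∧ (s (p + 1)).2 = 0 ∧ ∃ i, f i = p + 1) := by
    intro y f s h hs p
    obtain ⟨i, o, ho, rfl⟩ := h.pos he.ne p
    rw [hs.spec i o ho]
    by_cases h3 : o + 1 < (σ (y i)).length
    · left
      refine ⟨h3, ?_⟩
      rw [← hs.spec i _ h3]; congr 1; push_cast; ring
    · right
      have e : f i + o + 1 = f (i + 1) + (0 : ℕ) := by rw [h.step]; omega
      refine ⟨by simp; omega, ?_, i + 1, by simpa using e.symm⟩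
      rw [e, hs.spec _ _ (he.ne.pos _)]
  have hin : ∀ {y : ℤ → A} {f : ℤ → ℤ} {s : ℤ → A × ℕ}, Parse σ x y f → St σ y f s → ∀ p,
      s p ∈ S0 := by
    intro y f s h hs p
    obtain ⟨i, o, ho, rfl⟩ := h.pos he.ne p
    rw [hs.spec i o ho]
    have := hb (y i)
    simp [S0]; omega
  obtain ⟨t, t1, t2, t3⟩ := det_periodic (fun p => (s p, s' p)) (S0 ×ˢ S0)
    (fun p => Finset.mem_product.2 ⟨hin h hs p, hin h' hs' p⟩) (fun p q e => by
      obtain ⟨e1, e2⟩ := Prod.mk.inj e
      have n1 := next h hs p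
      have n2 := next h hs q
      have n3 := next h' hs' p
      have n4 := next h' hs' q
      rw [← e1] at n2
      rw [← e2] at n4
      have p1 := h1 (p + 1)
      have p2 := h1 (q + 1)
      rcases n1 with n1 | n1 <;> rcases n2 with n2 | n2 <;> rcases n3 with n3 | n3 <;>
        rcases n4 with n4 | n4 <;> try omega
      · rw [n1.2, n2.2, n3.2, n4.2]
      · have : s' (p + 1) = s' (q + 1) := by
          rw [n1.2] at p1
          rw [n2.2, p1] at p2
          rw [show s' (p + 1) = ((s' (p + 1)).1, 0) from Prod.ext rfl n3.2.1,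
            show s' (q + 1) = ((s' (q + 1)).1, 0) from Prod.ext rfl n4.2.1] at p2 ⊢
          rw [h2 p2]
        rw [n1.2, n2.2, this]
      · have : s (p + 1) = s (q + 1) := by
          rw [n3.2] at p1
          rw [n4.2, ← p1] at p2
          rw [show s (p + 1) = ((s (p + 1)).1, 0) from Prod.ext rfl n1.2.1,
            show s (q + 1) = ((s (q + 1)).1, 0) from Prod.ext rfl n2.2.1] at p2 ⊢
          rw [h2 p2]
        rw [n3.2, n4.2, this]
      · obtain ⟨i, hi⟩ := n1.2.2
        obtain ⟨j, hj⟩ := n3.2.2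
        exact (hc i j (hi.trans hj.symm)).elim)
  have hJ : ∀ i, ∃ j, f j = f i + t ∧ y j = y i := by
    intro i
    obtain ⟨j, o, ho, e⟩ := h.pos he.ne (f i + t)
    have e1 := (Prod.mk.inj (t3 (f i))).1
    have e2 := hs.spec i 0 (he.ne.pos _)
    simp only [Nat.cast_zero, add_zero] at e2
    rw [e, hs.spec j o ho, e2] at e1
    obtain ⟨e3, e4⟩ := Prod.mk.inj e1
    exact ⟨j, by omega, e3⟩
  choose J J1 J2 using hJ
  have hJs : ∀ i, J (i + 1) = J i + 1 := by
    intro i
    have : f (J (i + 1)) = f (J i + 1) := by rw [J1, h.step, h.step, J1, J2]; ring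
    exact le_antisymm (h.le_of_le he.ne this.le) (h.le_of_le he.ne this.ge)
  have hJ0 : ∀ i, J i = i + J 0 := by
    intro i
    induction i using Int.induction_on with
    | zero => simp
    | succ i ih => rw [hJs, ih]; ring
    | pred i ih => have := hJs (-i - 1); rw [show -(i : ℤ) - 1 + 1 = -i by ring] at this; omega
  have p1 : 0 < J 0 := h.lt_of_lt (by rw [J1]; omega)
  have p2 := h.le_add he.ne p1.le
  rw [J1] at p2
  refine ⟨(J 0).toNat, by omega, by omega, fun i => ?_⟩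
  rw [← J2 i, hJ0 i]; congr 1; omega

end Pool.Agent.P.MP_1e185c_lc

/-! Factorial extendable languages, their bi-infinite points and desubstitution steps. -/

set_option autoImplicit false
set_option linter.unusedSectionVars false

namespace Pool.Agent.P.MP_1e185c_lc

open Filter

variable {A B : Type}

/-- factorial extendable language using finitely many letters -/
structure Lang (A : Type) where
  L : Set (List A)
  fac : ∀ {u w}, u <:+: w → w ∈ L → u ∈ L
  extR : ∀ w ∈ L, ∃ a, w ++ [a] ∈ L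
  extL : ∀ w ∈ L, ∃ a, a :: w ∈ L
  fin : {a | [a] ∈ L}.Finite

namespace Lang

variable (Λ : Lang A)

/-- words whose windows of length `n` are in the language -/
def V (n : ℕ) : Set (ℤ → A) := {y | ∀ i, seg y i n ∈ Λ.L}

/-- points of the language -/
def X : Set (ℤ → A) := {y | ∀ n, y ∈ Λ.V n}

variable {Λ}

theorem V_anti {m n : ℕ} (h : m ≤ n) {y : ℤ → A} (hy : y ∈ Λ.V n) : y ∈ Λ.V m :=
  fun i => Λ.fac (seg_infix y le_rfl (by omega)) (hy i)

theorem V_shift {n : ℕ} {y : ℤ → A} (hy : y ∈ Λ.V n) (t : ℤ) : (fun i => y (i + t)) ∈ Λ.V n := by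
  intro i
  have : seg (fun i => y (i + t)) i n = seg y (i + t) n := seg_congr fun k _ => by congr 1; ring
  rw [this]; exact hy _

theorem X_shift {y : ℤ → A} (hy : y ∈ Λ.X) (t : ℤ) : (fun i => y (i + t)) ∈ Λ.X :=
  fun n => V_shift (hy n) t

theorem X_of_lim {y : ℕ → ℤ → A} (hy : ∀ n, y n ∈ Λ.V n) {z : ℤ → A} (hz : Lim y z) :
    z ∈ Λ.X := by
  intro m i
  obtain ⟨n, h1, h2⟩ := ((hz.Icc i (i + m)).and (VV_ge m)).exists
  have : seg z i m = seg (y n) i m := seg_congr fun k _ => (h1 _ (by omega) (by omega)).symm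
  rw [this]
  exact V_anti h2 (hy n) i

theorem lim {y : ℕ → ℤ → A} (hy : ∀ n, y n ∈ Λ.V n) : ∃ z ∈ Λ.X, Lim y z := by
  have : ∀ i, ∃ b, ∀ᶠ n in VV, y n i = b := by
    intro i
    obtain ⟨b, -, hb⟩ := exists_lim_val (Λ.fin.insert (y 0 i)) (fun n => y n i) (fun n => by
      rcases Nat.eq_zero_or_pos n with rfl | h
      · simp
      · right
        have := V_anti h (hy n) i
        rwa [seg_one] at this)
    exact ⟨b, hb⟩
  choose z hz using this
  exact ⟨z, X_of_lim hy hz, hz⟩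

theorem ext_both {w : List A} (hw : w ∈ Λ.L) (n : ℕ) :
    ∃ l r : List A, l.length = n ∧ r.length = n ∧ l ++ w ++ r ∈ Λ.L := by
  induction n with
  | zero => exact ⟨[], [], rfl, rfl, by simpa⟩
  | succ n ih =>
    obtain ⟨l, r, h1, h2, h3⟩ := ih
    obtain ⟨a, ha⟩ := Λ.extR _ h3
    obtain ⟨b, hb⟩ := Λ.extL _ ha
    exact ⟨b :: l, r ++ [a], by simp [h1], by simp [h2], by simpa using hb⟩

theorem ext {w : List A} (hw : w ∈ Λ.L) (a : ℤ) : ∃ z ∈ Λ.X, seg z a w.length = w := by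
  obtain ⟨o, -⟩ := Λ.extR w hw
  choose l r h1 h2 h3 using ext_both hw
  let y : ℕ → ℤ → A := fun n i => pad o (l n ++ w ++ r n) (i - a + n)
  have hs : ∀ n, seg (y n) (a - n) (l n ++ w ++ r n).length = l n ++ w ++ r n := by
    intro n
    conv_rhs => rw [← seg_pad o (l n ++ w ++ r n)]
    exact seg_congr fun k _ => by simp only [y]; congr 1; ring
  have : ∀ i, ∃ b, ∀ᶠ n in VV, y n i = b := by
    intro i
    obtain ⟨b, -, hb⟩ := exists_lim_val (Λ.fin.insert o) (fun n => y n i) (fun n => by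
      simp only [y, pad]
      split_ifs with h
      · rcases lt_or_ge (i - a + n).toNat (l n ++ w ++ r n).length with h' | h'
        · right
          rw [List.getD_eq_getElem _ _ h']
          exact Λ.fac (List.infix_iff_prefix_suffix.2 ⟨_, by
            rw [List.drop_eq_getElem_cons h']; exact List.prefix_append [_] _,
            List.drop_suffix _ _⟩) (h3 n)
        · left; exact List.getD_eq_default _ _ h'
      · simp)
    exact ⟨b, hb⟩
  choose z hz using this
  refine ⟨z, fun m i => ?_, ?_⟩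
  · obtain ⟨n, e1, e2⟩ := ((Lim.Icc hz i (i + m)).and (VV_ge ((i - a).natAbs + m))).exists
    have : seg z i m = seg (y n) i m := seg_congr fun k _ => (e1 _ (by omega) (by omega)).symm
    rw [this]
    refine Λ.fac ?_ (h3 n)
    rw [← hs n]
    exact seg_infix _ (by omega) (by simp [h1, h2]; omega)
  · obtain ⟨n, e1⟩ := (Lim.Icc hz a (a + w.length)).exists
    have : seg z a w.length = seg (y n) a w.length :=
      seg_congr fun k _ => (e1 _ (by omega) (by omega)).symm
    rw [this]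
    have e := hs n
    rw [List.length_append, List.length_append, seg_add, seg_add] at e
    have e2 := (List.append_inj (List.append_inj e (by simp)).1 (by simp)).2
    rwa [h1, sub_add_cancel] at e2

theorem V_ext {n : ℕ} {y : ℤ → A} (hy : y ∈ Λ.V n) (a : ℤ) :
    ∃ z ∈ Λ.X, ∀ i, a ≤ i → i < a + n → z i = y i := by
  obtain ⟨z, hz, e⟩ := ext (hy a) a
  rw [seg_length] at e
  refine ⟨z, hz, fun i h1 h2 => ?_⟩
  have := seg_eq_seg e (i - a) (by omega) (by omega)
  simpa using this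

/-- the reversed language -/
def rev (Λ : Lang A) : Lang A where
  L := {w | w.reverse ∈ Λ.L}
  fac h hw := Λ.fac (List.reverse_infix.2 h) hw
  extR w hw := by
    obtain ⟨a, ha⟩ := Λ.extL _ hw
    exact ⟨a, by simpa using ha⟩
  extL w hw := by
    obtain ⟨a, ha⟩ := Λ.extR _ hw
    exact ⟨a, by simpa using ha⟩
  fin := by simpa using Λ.fin

theorem V_rev {n : ℕ} {y : ℤ → A} (hy : y ∈ Λ.V n) (b : ℤ) :
    (fun i => y (b - 1 - i)) ∈ Λ.rev.V n := by
  intro i
  show (seg _ i n).reverse ∈ Λ.L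
  rw [seg_rev, List.reverse_reverse]
  exact hy _

theorem X_rev {y : ℤ → A} (hy : y ∈ Λ.X) (b : ℤ) : (fun i => y (b - 1 - i)) ∈ Λ.rev.X :=
  fun n => V_rev (hy n) b

theorem rev_rev (Λ : Lang A) : Λ.rev.rev = Λ := by
  cases Λ
  simp [rev]

theorem X_rev' {y : ℤ → A} (hy : y ∈ Λ.rev.X) (b : ℤ) : (fun i => y (b - 1 - i)) ∈ Λ.X := by
  have := X_rev hy b
  rwa [rev_rev] at this

end Lang

/-- `q` is a period -/
def Per (y : ℤ → A) (q : ℤ) : Prop := ∀ i, y (i + q) = y i

/-- periodic word -/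
def IsPer (y : ℤ → A) : Prop := ∃ q : ℕ, 0 < q ∧ Per y q

theorem Per.mul {y : ℤ → A} {q : ℤ} (h : Per y q) (k : ℤ) : Per y (k * q) := by
  have := Function.Periodic.int_mul (f := y) (c := q) h k
  simpa [Per] using this

theorem Per.of_dvd {y : ℤ → A} {q r : ℤ} (h : Per y q) (hd : q ∣ r) : Per y r := by
  obtain ⟨k, rfl⟩ := hd
  rw [mul_comm]; exact h.mul k

theorem Per.rev {y : ℤ → A} {q : ℤ} (h : Per y q) (b : ℤ) : Per (fun i => y (b - 1 - i)) q := by
  intro i
  simp only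
  rw [← h (b - 1 - (i + q))]; congr 1; ring

theorem IsPer.rev {y : ℤ → A} (h : IsPer y) (b : ℤ) : IsPer (fun i => y (b - 1 - i)) :=
  let ⟨q, h1, h2⟩ := h; ⟨q, h1, h2.rev b⟩

theorem IsPer.shift {y : ℤ → A} (h : IsPer y) (t : ℤ) : IsPer (fun i => y (i + t)) :=
  let ⟨q, h1, h2⟩ := h; ⟨q, h1, fun i => by simp only; rw [← h2 (i + t)]; congr 1; ring⟩

theorem IsPer.of_shift {y y' : ℤ → A} {t : ℤ} (h : IsPer y) (e : ∀ i, y' (i + t) = y i) :
    IsPer y' := by
  have : y' = fun i => y (i + -t) := funext fun i => by rw [← e]; congr 1; ring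
  rw [this]; exact h.shift _

theorem Parse.isPer {σ : A → List B} (hσ : NE σ) {x : ℤ → B} {y : ℤ → A} {f : ℤ → ℤ}
    (h : Parse σ x y f) (hy : IsPer y) : IsPer x := by
  obtain ⟨q, h1, h2⟩ := hy
  have := h.lt hσ (i := 0) (j := q) (by omega)
  refine ⟨(f q - f 0).toNat, by omega, fun p => ?_⟩
  rw [show ((f q - f 0).toNat : ℤ) = f q - f 0 by omega]
  exact (h.periodic hσ h2).2 p

variable [Fintype A]

theorem Elem.isPer {σ : A → List B} (he : Elem σ) {x : ℤ → B} {y : ℤ → A} {f : ℤ → ℤ}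
    (h : Parse σ x y f) (hx : IsPer x) : IsPer y := by
  obtain ⟨q, h1, h2⟩ := hx
  obtain ⟨Q, hQ⟩ := he.dichotomy
  have h' := h.shift q 0
  rw [show (fun p => x (p + q)) = x from funext h2] at h'
  rcases hQ h h' with ⟨t, ht⟩ | ⟨r, r1, -, r2⟩
  · have := (ht 0).2
    simp only [zero_add, add_zero] at this
    have t0 : 0 < t := h.lt_of_lt (by omega)
    refine ⟨t.toNat, by omega, fun i => ?_⟩
    rw [show (t.toNat : ℤ) = t by omega]
    simpa using (ht i).1
  · exact ⟨r, r1, r2⟩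

theorem Elem.unique {σ : A → List B} (he : Elem σ) {x : ℤ → B} {y y' : ℤ → A} {f f' : ℤ → ℤ}
    (h : Parse σ x y f) (h' : Parse σ x y' f') (hy : ¬ IsPer y) :
    ∃ t, ∀ i, y' (i + t) = y i ∧ f' (i + t) = f i := by
  obtain ⟨Q, hQ⟩ := he.dichotomy
  exact (hQ h h').resolve_right fun ⟨r, r1, _, r2⟩ => hy ⟨r, r1, r2⟩

/-- bounded delay -/
theorem Elem.delay {σ : A → List B} (he : Elem σ) : ∃ ρ : ℕ, ∀ {x x' : ℤ → B} {y y' : ℤ → A}
    {f f' : ℤ → ℤ} {i i' : ℤ}, Parse σ x y f → Parse σ x' y' f' → f i = f' i' →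
    (∀ p, f i ≤ p → p < f i + ρ → x p = x' p) → y i = y' i' := by
  by_contra hc
  push Not at hc
  choose x x' y y' f f' i i' h h' e1 e2 e3 using hc
  obtain ⟨z, hz⟩ := exists_lim (fun n j => y n (j + i n))
  obtain ⟨z', hz'⟩ := exists_lim (fun n j => y' n (j + i' n))
  obtain ⟨X, F, hF, lX, lF⟩ := Parse.lim he.ne (fun n => (h n).shift (f n (i n)) (i n)) hz
    (c := 0) (p := 0) (by simp)
  obtain ⟨X', F', hF', lX', lF'⟩ := Parse.lim he.ne (fun n => (h' n).shift (f n (i n)) (i' n)) hz'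
    (c := 0) (p := 0) (by simp [e1])
  have F0 : F 0 = 0 := by obtain ⟨n, hn⟩ := (lF 0).exists; simpa using hn.symm
  have F0' : F' 0 = 0 := by obtain ⟨n, hn⟩ := (lF' 0).exists; simpa [e1] using hn.symm
  have hs := hF.splice hF' (c := 0) (c' := 0) (by rw [F0, F0'])
  have e : (fun p => if p < F 0 then X p else X' p) = X := by
    funext p
    split_ifs with hp
    · rfl
    · obtain ⟨n, ⟨n1, n2⟩, n3⟩ := (((lX p).and (lX' p)).and (VV_ge (p.toNat + 1))).exists
      rw [← n1, ← n2]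
      exact (e2 n _ (by omega) (by omega)).symm
  rw [e] at hs
  have := he.cut_letter hF hs (i := 0) (j := 0) (by simp [F0, F0'])
  obtain ⟨n, n1, n2⟩ := ((hz 0).and (hz' 0)).exists
  simp only [zero_add] at n1 n2
  simp only [lt_irrefl, if_false, sub_self, add_zero] at this
  exact e3 n (by rw [n1, n2, this])

/-- a morphism mapping one language onto another one -/
structure PreStep (σ : A → List B) (Lp : Lang A) (Lc : Lang B) : Prop where
  elem : Elem σ
  img : ∀ w ∈ Lp.L, app σ w ∈ Lc.L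
  par : ∀ w ∈ Lc.L, ∃ w' ∈ Lp.L, w <:+: app σ w'

namespace PreStep

variable {σ : A → List B} {Lp : Lang A} {Lc : Lang B}

theorem rev (S : PreStep σ Lp Lc) : PreStep (fun a => (σ a).reverse) Lp.rev Lc.rev where
  elem := S.elem.rev
  img w hw := by
    show (app _ w).reverse ∈ Lc.L
    have := S.img _ hw
    rwa [← List.reverse_reverse (app σ _), ← app_reverse, List.reverse_reverse] at this
  par w hw := by
    obtain ⟨w', h1, h2⟩ := S.par _ hw
    refine ⟨w'.reverse, by show w'.reverse.reverse ∈ Lp.L; simpa using h1, ?_⟩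
    rw [app_reverse, ← List.reverse_infix]; simpa using h2

theorem imgV (S : PreStep σ Lp Lc) {n : ℕ} {x : ℤ → B} {y : ℤ → A} {f : ℤ → ℤ}
    (hy : y ∈ Lp.V n) (h : Parse σ x y f) : x ∈ Lc.V n := by
  intro p
  obtain ⟨i, h1, h2⟩ := h.tile S.elem.ne p
  refine Lc.fac ?_ (S.img _ (hy i))
  rcases Nat.eq_zero_or_pos n with rfl | hn
  · simp
  obtain ⟨a1, a2⟩ := h.add i n
  have := h.le_add S.elem.ne (i := i + 1) (j := i + n) (by omega)
  rw [← a2]
  exact seg_infix _ h1 (by omega)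

theorem imgX (S : PreStep σ Lp Lc) {x : ℤ → B} {y : ℤ → A} {f : ℤ → ℤ}
    (hy : y ∈ Lp.X) (h : Parse σ x y f) : x ∈ Lc.X := fun n => S.imgV (hy n) h

theorem parent_win (S : PreStep σ Lp Lc) {w : List B} (hw : w ∈ Lc.L) (a : ℤ) :
    ∃ y ∈ Lp.X, ∃ x f, Parse σ x y f ∧ seg x a w.length = w := by
  obtain ⟨w', h1, s, t, h2⟩ := S.par _ hw
  obtain ⟨y, hy, e⟩ := Lang.ext h1 0
  obtain ⟨x, f, h, h0⟩ := exists_parse S.elem.ne y 0 (a - s.length)
  refine ⟨y, hy, x, f, h, ?_⟩
  have := (h.add 0 w'.length).2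
  rw [e, h0, ← h2, List.length_append, List.length_append, seg_add, seg_add] at this
  have e2 := (List.append_inj (List.append_inj this (by simp)).1 (by simp)).2
  rwa [sub_add_cancel] at e2

theorem parent (S : PreStep σ Lp Lc) {x : ℤ → B} (hx : x ∈ Lc.X) :
    ∃ y ∈ Lp.X, ∃ f, Parse σ x y f := by
  choose y hy x' f h e using fun n : ℕ => S.parent_win (hx (2 * n) (-n)) (-n)
  choose i hi using fun n => (h n).tile S.elem.ne 0
  obtain ⟨z, hz, lz⟩ := Lang.lim (y := fun n j => y n (j + i n))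
    (fun n => Lang.V_shift (hy n n) _)
  obtain ⟨X, F, hF, lX, -⟩ := Parse.lim0 S.elem.ne (fun n => (h n).shift 0 (i n))
    (fun n => by simpa [add_comm] using hi n) lz
  have : X = x := by
    funext p
    obtain ⟨n, n1, n2⟩ := ((lX p).and (VV_ge (p.natAbs + 1))).exists
    have e1 := e n
    rw [seg_length] at e1
    have := seg_eq_seg e1 (p + n) (by omega) (by push_cast; omega)
    rw [← n1]; simpa using this
  exact ⟨z, hz, F, this ▸ hF⟩

end PreStep

end Pool.Agent.P.MP_1e185c_lc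

/-! One-step lemmas: unbroken runs, local uniqueness of parses, ends of periodic runs. -/

set_option autoImplicit false
set_option linter.unusedSectionVars false

namespace Pool.Agent.P.MP_1e185c_lc

open Filter

variable {A B C : Type}

/-- all periodic points have period `ϖ` -/
def Lang.Good (Λ : Lang A) (ϖ : ℕ) : Prop := 0 < ϖ ∧ ∀ y ∈ Λ.X, IsPer y → Per y ϖ

theorem Lang.Good.rev {Λ : Lang A} {ϖ : ℕ} (h : Λ.Good ϖ) : Λ.rev.Good ϖ := by
  refine ⟨h.1, fun y hy hp => ?_⟩
  have := (h.2 _ (Lang.X_rev' hy 0) (hp.rev 0)).rev 0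
  simpa using this

/-- `y` is `ϖ`-periodic at the positions of `[a, b)` -/
def Unb (ϖ : ℕ) (y : ℤ → A) (a b : ℤ) : Prop := ∀ i, a ≤ i → i < b → y (i + ϖ) = y i

theorem Unb.mono {ϖ : ℕ} {y : ℤ → A} {a b a' b' : ℤ} (h : Unb ϖ y a b) (h1 : a ≤ a')
    (h2 : b' ≤ b) : Unb ϖ y a' b' := fun i i1 i2 => h i (by omega) (by omega)

theorem Unb.agree {ϖ : ℕ} (h0 : 0 < ϖ) {y y' : ℤ → A} {a b c t : ℤ} (h : Unb ϖ y a b)
    (h' : Unb ϖ y' (a + t) (b + t)) (h1 : a ≤ c) (h2 : c ≤ b)
    (e : ∀ i, c ≤ i → i < c + ϖ → y' (i + t) = y i) :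
    ∀ i, a ≤ i → i < b + ϖ → y' (i + t) = y i := by
  have up : ∀ n : ℕ, ∀ i, c ≤ i → i < c + n → i < b + ϖ → y' (i + t) = y i := by
    intro n
    induction n with
    | zero => intro i i1 i2; omega
    | succ n ih =>
      intro i i1 i2 i3
      by_cases hi : i < c + ϖ
      · exact e i i1 hi
      · have a1 := h (i - ϖ) (by omega) (by omega)
        have a2 := h' (i - ϖ + t) (by omega) (by omega)
        rw [sub_add_cancel] at a1
        rw [show i - ϖ + t + ϖ = i + t by ring] at a2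
        rw [a1, a2]
        exact ih _ (by omega) (by omega) (by omega)
  have down : ∀ n : ℕ, ∀ i, c - n ≤ i → i < c + ϖ → a ≤ i → y' (i + t) = y i := by
    intro n
    induction n with
    | zero => intro i i1 i2 _; exact e i (by omega) i2
    | succ n ih =>
      intro i i1 i2 i3
      by_cases hi : c ≤ i
      · exact e i hi i2
      · have a1 := h i i3 (by omega)
        have a2 := h' (i + t) (by omega) (by omega)
        rw [← a1, ← a2, show i + t + ϖ = i + ϖ + t by ring]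
        by_cases hj : c ≤ i + ϖ
        · exact e _ hj (by omega)
        · exact ih _ (by omega) (by omega) (by omega)
  intro i i1 i2
  rcases le_total c i with hi | hi
  · exact up (i - c + 1).toNat i hi (by omega) i2
  · exact down (c - i).toNat i (by omega) (by omega) i1

theorem Unb.of_agree {ϖ : ℕ} {y y' : ℤ → A} {a b t : ℤ} (h : Unb ϖ y a b)
    (e : ∀ i, a ≤ i → i < b + ϖ → y' (i + t) = y i) : Unb ϖ y' (a + t) (b + t) := by
  intro i i1 i2
  have e1 := e (i - t) (by omega) (by omega)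
  have e2 := e (i - t + ϖ) (by omega) (by omega)
  rw [sub_add_cancel] at e1
  rw [show i - t + ϖ + t = i + ϖ by ring] at e2
  rw [e1, e2]
  exact h _ (by omega) (by omega)

theorem Per.unb {ϖ : ℕ} {y : ℤ → A} (h : Per y ϖ) (a b : ℤ) : Unb ϖ y a b := fun i _ _ => h i

theorem Lang.perExt (Λ : Lang A) {ϖ : ℕ} (h0 : 0 < ϖ) : ∃ n : ℕ, ∀ y ∈ Λ.V n, ∀ a b : ℤ,
    Unb ϖ y a b → a + n ≤ b → ∃ ε ∈ Λ.X, Per ε ϖ ∧ ∀ i, a ≤ i → i < b + ϖ → ε i = y i := by
  have key : ∃ n : ℕ, ∀ y ∈ Λ.V n, Unb ϖ y (-n) n →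
      ∃ ε ∈ Λ.X, Per ε ϖ ∧ ∀ i : ℤ, 0 ≤ i → i < ϖ → ε i = y i := by
    by_contra hc
    push Not at hc
    choose y hy hu hn using hc
    obtain ⟨z, hz, lz⟩ := Lang.lim hy
    have pz : Per z ϖ := by
      intro i
      obtain ⟨n, ⟨n1, n2⟩, n3⟩ := (((lz i).and (lz (i + ϖ))).and (VV_ge (i.natAbs + 1))).exists
      rw [← n1, ← n2]
      exact hu n i (by omega) (by omega)
    obtain ⟨n, n1⟩ := (lz.Icc 0 ϖ).exists
    obtain ⟨i, i1, i2, i3⟩ := hn n z hz pz
    exact i3 (n1 i i1 i2.le).symm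
  obtain ⟨n, hn⟩ := key
  refine ⟨2 * n, fun y hy a b hu hab => ?_⟩
  obtain ⟨ε, e1, e2, e3⟩ := hn _ (Lang.V_shift (Lang.V_anti (by omega) hy) (a + n))
    (fun i i1 i2 => by
      have := hu (i + (a + n)) (by omega) (by push_cast at hab; omega)
      rw [← this]; congr 1; ring)
  have p : Per (fun i => ε (i + -(a + n))) ϖ := fun i => by
    simp only; rw [← e2 (i + -(a + n))]; congr 1; ring
  refine ⟨_, Lang.X_shift e1 (-(a + n)), p, ?_⟩
  have := hu.agree h0 (t := 0) (c := a + n) (p.unb _ _) (by omega) (by push_cast at hab; omega)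
    (fun i i1 i2 => by
      simp only [add_zero]
      rw [e3 _ (by omega) (by omega)]; congr 1; ring)
  simpa using this

/-- a point with a last (`d = 1`) or first (`d = -1`) break at position `0` -/
structure End (Λ : Lang A) (ϖ : ℕ) (d : ℤ) (ε : ℤ → A) : Prop where
  mem : ε ∈ Λ.X
  br : ε ϖ ≠ ε 0
  unb : ∀ i, 0 < d * i → ε (i + ϖ) = ε i

/-- a direction -/
def Dir (d : ℤ) : Prop := d = 1 ∨ d = -1

theorem End.aper {Λ : Lang A} {ϖ : ℕ} (hg : Λ.Good ϖ) {d : ℤ} {ε : ℤ → A} (h : End Λ ϖ d ε) :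
    ¬ IsPer ε := fun hp => h.br (by simpa using hg.2 _ h.mem hp 0)

theorem End.shift_eq {Λ : Lang A} {ϖ : ℕ} {d : ℤ} (hd : Dir d) {ε ε' : ℤ → A} (h : End Λ ϖ d ε)
    (h' : End Λ ϖ d ε') {t : ℤ} (e : ∀ i, ε' (i + t) = ε i) : t = 0 := by
  by_contra ht
  rcases (show 0 < d * t ∨ 0 < d * (-t) by rcases hd with rfl | rfl <;> omega) with h1 | h1
  · have := h'.unb t h1
    have e0 := e 0
    rw [zero_add] at e0
    rw [add_comm, e, e0] at this
    exact h.br this
  · have := h.unb _ h1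
    rw [← e, ← e] at this
    exact h'.br (by simpa [add_right_comm] using this)

theorem exists_end {Λ : Lang A} {ϖ : ℕ} {d : ℤ} (hd : Dir d) {y : ℤ → A} (hy : y ∈ Λ.X)
    {b N : ℤ} (hb : y (b + ϖ) ≠ y b) (hu : ∀ i, N < d * i → y (i + ϖ) = y i) :
    ∃ s, d * b ≤ d * s ∧ End Λ ϖ d (fun i => y (i + s)) := by
  have dd : ∀ i, d * (d * i) = i := by rcases hd with rfl | rfl <;> intro i <;> ring
  obtain ⟨j, j1, j2⟩ := Int.exists_greatest_of_bdd (P := fun j => y (d * j + ϖ) ≠ y (d * j))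
    ⟨N, fun j hj => by
      by_contra hc
      exact hj (hu _ (by rw [dd]; omega))⟩ ⟨d * b, by rwa [dd]⟩
  refine ⟨d * j, by rw [dd]; exact j2 _ (by rwa [dd]), Lang.X_shift hy _,
    by simpa [add_comm] using j1, fun i hi => ?_⟩
  by_contra hc
  have := j2 (d * i + j) (by
    rw [mul_add, dd]
    intro h; apply hc; rw [← h]; congr 1; ring)
  omega

theorem long_end (Λ : Lang A) (ϖ : ℕ) (d : ℤ) (K : ℕ) : ∃ n : ℕ, ∀ y ∈ Λ.V n,
    ∀ s : ℤ, y (s + ϖ) ≠ y s → (∀ i, 0 < d * i → d * i < n → y (s + i + ϖ) = y (s + i)) →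
    ∃ ε, End Λ ϖ d ε ∧ ∀ i : ℤ, -K ≤ i → i ≤ K → y (s + i) = ε i := by
  by_contra hc
  push Not at hc
  choose y hy s h1 h2 h3 using hc
  obtain ⟨z, hz, lz⟩ := Lang.lim (fun n => Lang.V_shift (hy n) (s n))
  have : End Λ ϖ d z := by
    refine ⟨hz, ?_, fun i hi => ?_⟩
    · obtain ⟨n, n1, n2⟩ := ((lz 0).and (lz ϖ)).exists
      rw [← n1, ← n2]
      simpa [add_comm] using h1 n
    · obtain ⟨n, ⟨n1, n2⟩, n3⟩ :=
        (((lz i).and (lz (i + ϖ))).and (VV_ge ((d * i).toNat + 1))).exists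
      rw [← n1, ← n2]
      have := h2 n i hi (by omega)
      rw [add_comm (s n) i] at this
      simp only
      rw [← this]; congr 1; ring
  obtain ⟨n, n1⟩ := (lz.Icc (-K) K).exists
  obtain ⟨i, i1, i2, i3⟩ := h3 n z this
  exact i3 (by rw [← n1 i i1 i2, add_comm])

variable [Fintype A]

/-- a desubstitution step between two languages with common period `ϖ` -/
structure Step (σ : A → List B) (Lp : Lang A) (Lc : Lang B) (ϖ : ℕ) : Prop
    extends PreStep σ Lp Lc where
  gp : Lp.Good ϖ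
  gc : Lc.Good ϖ

namespace Step

variable {σ : A → List B} {Lp : Lang A} {Lc : Lang B} {ϖ : ℕ}

theorem ne (S : Step σ Lp Lc ϖ) : NE σ := S.elem.ne

theorem rev (S : Step σ Lp Lc ϖ) : Step (fun a => (σ a).reverse) Lp.rev Lc.rev ϖ :=
  ⟨S.toPreStep.rev, S.gp.rev, S.gc.rev⟩

theorem down_per (S : Step σ Lp Lc ϖ) {x : ℤ → B} {y ε : ℤ → A} {f : ℤ → ℤ}
    (h : Parse σ x y f) (hε : ε ∈ Lp.X) (hp : Per ε ϖ) {a b : ℤ} (hab : a ≤ b)
    (e : ∀ i, a ≤ i → i < b → ε i = y i) :
    ∃ x' f', Parse σ x' ε f' ∧ Per x' ϖ ∧ x' ∈ Lc.X ∧ (∀ i, a ≤ i → i ≤ b → f' i = f i) ∧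
      ∀ p, f a ≤ p → p < f b → x' p = x p := by
  obtain ⟨x', f', h', h0⟩ := exists_parse S.ne ε a (f a)
  have hx := S.imgX hε h'
  have := h.agree S.ne h' (a := a) (b := b) (c := a) (s := 0) (t := 0) (by simpa using e) le_rfl
    hab (by simpa using h0)
  exact ⟨x', f', h', S.gc.2 _ hx (h'.isPer S.ne ⟨ϖ, S.gp.1, hp⟩), hx, by simpa using this.1,
    by simpa using this.2⟩

theorem down (S : Step σ Lp Lc ϖ) {x : ℤ → B} {y ε : ℤ → A} {f : ℤ → ℤ}
    (h : Parse σ x y f) (hε : ε ∈ Lp.X) (hp : Per ε ϖ) {a b : ℤ} (hab : a ≤ b)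
    (e : ∀ i, a ≤ i → i < b → ε i = y i) : Unb ϖ x (f a) (f b - ϖ) := by
  obtain ⟨x', f', -, h1, -, -, h2⟩ := S.down_per h hε hp hab e
  intro p p1 p2
  rw [← h2 p p1 (by omega), ← h2 _ (by omega) (by omega), h1]

theorem fd (S : Step σ Lp Lc ϖ) : ∃ ρ : ℕ, ∀ {x x' : ℤ → B} {y y' : ℤ → A} {f f' : ℤ → ℤ}
    {i : ℤ}, y ∈ Lp.V ρ → Parse σ x y f → Parse σ x' y' f' →
    (∀ p, f i - ρ ≤ p → p < f i + ρ → x' p = x p) → (∃ i', f' i' = f i) ∨ y (i + ϖ) = y i := by
  by_contra hc
  push Not at hc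
  choose x x' y y' f f' i hy h h' e1 e2 e3 using hc
  choose i' hi' using fun n => (h' n).tile S.ne (f n (i n))
  obtain ⟨z, hz, lz⟩ := Lang.lim (fun n => Lang.V_shift (hy n) (i n))
  obtain ⟨z', lz'⟩ := exists_lim (fun n j => y' n (j + i' n))
  obtain ⟨X, F, hF, lX, lF⟩ := Parse.lim S.ne (fun n => (h n).shift (f n (i n)) (i n)) lz
    (c := 0) (p := 0) (by simp)
  obtain ⟨X', F', hF', lX', lF'⟩ := Parse.lim0 S.ne (fun n => (h' n).shift (f n (i n)) (i' n))
    (fun n => by have := hi' n; simp [add_comm (1 : ℤ)]; omega) lz'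
  have : X' = X := by
    funext p
    obtain ⟨n, ⟨n1, n2⟩, n3⟩ := (((lX p).and (lX' p)).and (VV_ge (p.natAbs + 1))).exists
    rw [← n1, ← n2]
    exact e1 n _ (by omega) (by omega)
  subst this
  by_cases hp : IsPer z
  · obtain ⟨n, n1, n2⟩ := ((lz 0).and (lz ϖ)).exists
    have := S.gp.2 z hz hp 0
    rw [zero_add, ← n1, ← n2] at this
    exact e3 n (by simpa [add_comm] using this)
  · obtain ⟨t, ht⟩ := S.elem.unique hF hF' hp
    obtain ⟨n, n1, n2⟩ := ((lF 0).and (lF' t)).exists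
    have := (ht 0).2
    rw [zero_add, ← n1, ← n2] at this
    exact e2 n (t + i' n) (by simp at this; omega)

theorem up (S : Step σ Lp Lc ϖ) : ∃ ρ : ℕ, ∀ {x : ℤ → B} {y : ℤ → A} {f : ℤ → ℤ}
    {i : ℤ}, y ∈ Lp.V ρ → Parse σ x y f → Unb ϖ x (f i - ρ) (f i + ρ) → y (i + ϖ) = y i := by
  by_contra hc
  push Not at hc
  choose x y f i hy h e1 e2 using hc
  obtain ⟨z, hz, lz⟩ := Lang.lim (fun n => Lang.V_shift (hy n) (i n))
  obtain ⟨X, F, hF, lX, lF⟩ := Parse.lim S.ne (fun n => (h n).shift (f n (i n)) (i n)) lz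
    (c := 0) (p := 0) (by simp)
  have hp : IsPer X := by
    refine ⟨ϖ, S.gp.1, fun p => ?_⟩
    obtain ⟨n, ⟨n1, n2⟩, n3⟩ := (((lX p).and (lX (p + ϖ))).and (VV_ge (p.natAbs + 1))).exists
    rw [← n1, ← n2]
    simp only
    rw [← e1 n (p + f n (i n)) (by omega) (by omega)]
    congr 1; ring
  obtain ⟨n, n1, n2⟩ := ((lz 0).and (lz ϖ)).exists
  have := S.gp.2 z hz (S.elem.isPer hF hp) 0
  rw [zero_add, ← n1, ← n2] at this
  exact e2 n (by simpa [add_comm] using this)

end Step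

end Pool.Agent.P.MP_1e185c_lc

/-! Ends of periodic runs correspond to each other along a step. -/

set_option autoImplicit false
set_option linter.unusedSectionVars false

namespace Pool.Agent.P.MP_1e185c_lc

open Filter

variable {A B C : Type}

theorem End.perL {Λ : Lang A} {ϖ : ℕ} (h0 : 0 < ϖ) {ε : ℤ → A} (h : End Λ ϖ 1 ε) :
    ∃ π ∈ Λ.X, Per π ϖ ∧ ∀ i, 1 ≤ i → π i = ε i := by
  obtain ⟨n, hn⟩ := Λ.perExt h0
  obtain ⟨π, h1, h2, h3⟩ := hn ε (h.mem n) 1 (1 + n) (fun i i1 _ => h.unb i (by omega)) le_rfl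
  refine ⟨π, h1, h2, fun i hi => ?_⟩
  have := Unb.agree h0 (y := ε) (y' := π) (a := 1) (b := i + 1) (c := 1) (t := 0)
    (fun i i1 _ => h.unb i (by omega)) (h2.unb _ _) le_rfl (by omega)
    (fun j j1 j2 => by simpa using h3 j j1 (by omega)) i hi (by omega)
  simpa using this

theorem End.perR {Λ : Lang A} {ϖ : ℕ} (h0 : 0 < ϖ) {ε : ℤ → A} (h : End Λ ϖ (-1) ε) :
    ∃ π ∈ Λ.X, Per π ϖ ∧ ∀ i : ℤ, i < ϖ → π i = ε i := by
  obtain ⟨n, hn⟩ := Λ.perExt h0
  obtain ⟨π, h1, h2, h3⟩ := hn ε (h.mem n) (-n) 0 (fun i _ i1 => h.unb i (by omega)) (by omega)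
  refine ⟨π, h1, h2, fun i hi => ?_⟩
  have := Unb.agree h0 (y := ε) (y' := π) (a := min i 0) (b := 0) (c := 0) (t := 0)
    (fun i _ i1 => h.unb i (by omega)) (h2.unb _ _) (by omega) le_rfl
    (fun j j1 j2 => by simpa using h3 j (by omega) j2) i (by omega) (by omega)
  simpa using this

theorem End.rev {Λ : Lang A} {ϖ : ℕ} {d : ℤ} {ε : ℤ → A} (h : End Λ ϖ d ε) :
    End Λ.rev ϖ (-d) (fun i => ε (ϖ + 1 - 1 - i)) := by
  refine ⟨Lang.X_rev h.mem _, by simpa using h.br.symm, fun i hi => ?_⟩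
  have := h.unb (-i) (by linarith)
  rw [show (ϖ : ℤ) + 1 - 1 - (i + ϖ) = -i by ring, ← this]; congr 1; ring

variable [Fintype A]

namespace Step

variable {σ : A → List B} {Lp : Lang A} {Lc : Lang B} {ϖ : ℕ}

theorem unbL (S : Step σ Lp Lc ϖ) {x : ℤ → B} {ε : ℤ → A} {f : ℤ → ℤ} (h : Parse σ x ε f)
    (hε : End Lp ϖ 1 ε) (p : ℤ) (hp : f 1 ≤ p) : x (p + ϖ) = x p := by
  obtain ⟨π, h1, h2, h3⟩ := hε.perL S.gp.1
  have := h.le_add S.ne (i := 1) (j := 1 + (p - f 1) + ϖ + 1) (by omega)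
  exact S.down h h1 h2 (a := 1) (b := 1 + (p - f 1) + ϖ + 1) (by omega) (fun i i1 _ => h3 i i1)
    p hp (by omega)

theorem unbR (S : Step σ Lp Lc ϖ) {x : ℤ → B} {ε : ℤ → A} {f : ℤ → ℤ} (h : Parse σ x ε f)
    (hε : End Lp ϖ (-1) ε) (p : ℤ) (hp : p < f ϖ - ϖ) : x (p + ϖ) = x p := by
  obtain ⟨π, h1, h2, h3⟩ := hε.perR S.gp.1
  have := h.le_add S.ne (i := ϖ - (f ϖ - p)) (j := ϖ) (by omega)
  exact S.down h h1 h2 (a := ϖ - (f ϖ - p)) (b := ϖ) (by omega) (fun i _ i1 => h3 i i1)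
    p (by omega) hp

theorem cutL (S : Step σ Lp Lc ϖ) {x : ℤ → B} {ε : ℤ → A} {f : ℤ → ℤ} (h : Parse σ x ε f)
    (hε : End Lp ϖ 1 ε) (hx : End Lc ϖ 1 x) : 0 < f 1 := by
  by_contra hc
  exact hx.br (by simpa using S.unbL h hε 0 (by omega))

theorem cutR (S : Step σ Lp Lc ϖ) {x : ℤ → B} {ε : ℤ → A} {f : ℤ → ℤ} (h : Parse σ x ε f)
    (hε : End Lp ϖ (-1) ε) (hx : End Lc ϖ (-1) x) : f ϖ ≤ ϖ := by
  by_contra hc
  exact hx.br (by simpa using S.unbR h hε 0 (by omega))

theorem child_end (S : Step σ Lp Lc ϖ) {d : ℤ} (hd : Dir d) {ε : ℤ → A} (hε : End Lp ϖ d ε) :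
    ∃ x f, End Lc ϖ d x ∧ Parse σ x ε f := by
  obtain ⟨x, f, h, -⟩ := exists_parse S.ne ε 0 0
  have hb : ∃ b, x (b + ϖ) ≠ x b := by
    by_contra hc
    push Not at hc
    exact hε.aper S.gp (S.elem.isPer h ⟨ϖ, S.gp.1, hc⟩)
  obtain ⟨b, hb⟩ := hb
  have hN : ∃ N, ∀ i, N < d * i → x (i + ϖ) = x i := by
    rcases hd with rfl | rfl
    · exact ⟨f 1, fun i hi => S.unbL h hε i (by omega)⟩
    · exact ⟨ϖ - f ϖ, fun i hi => S.unbR h hε i (by omega)⟩
  obtain ⟨N, hN⟩ := hN
  obtain ⟨s, -, hs⟩ := exists_end hd (S.imgX hε.mem h) hb hN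
  exact ⟨_, _, hs, by simpa using h.shift s 0⟩

theorem parent_end (S : Step σ Lp Lc ϖ) {d : ℤ} (hd : Dir d) {x : ℤ → B} (hx : End Lc ϖ d x) :
    ∃ ε f, End Lp ϖ d ε ∧ Parse σ x ε f := by
  obtain ⟨y, hy, f, h⟩ := S.parent hx.mem
  obtain ⟨ρ, hρ⟩ := S.up
  have hb : ∃ b, y (b + ϖ) ≠ y b := by
    by_contra hc
    push Not at hc
    exact hx.aper S.gc (h.isPer S.ne ⟨ϖ, S.gp.1, hc⟩)
  obtain ⟨b, hb⟩ := hb
  have hN : ∀ i, (f 0).natAbs + ρ < d * i → y (i + ϖ) = y i := by
    intro i hi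
    refine hρ (hy ρ) h fun p p1 p2 => hx.unb p ?_
    rcases hd with rfl | rfl
    · have := h.le_add S.ne (i := 0) (j := i) (by omega)
      omega
    · have := h.le_add S.ne (i := i) (j := 0) (by omega)
      omega
  obtain ⟨s, -, hs⟩ := exists_end hd hy hb hN
  exact ⟨_, _, hs, by simpa using h.shift 0 s⟩

theorem parent_unique (S : Step σ Lp Lc ϖ) {d : ℤ} (hd : Dir d) {x : ℤ → B} {ε ε' : ℤ → A}
    {f f' : ℤ → ℤ} (hε : End Lp ϖ d ε) (hε' : End Lp ϖ d ε') (h : Parse σ x ε f)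
    (h' : Parse σ x ε' f') : ε' = ε ∧ f' = f := by
  obtain ⟨t, ht⟩ := S.elem.unique h h' (hε.aper S.gp)
  have := hε.shift_eq hd hε' fun i => (ht i).1
  subst this
  exact ⟨funext fun i => by simpa using (ht i).1, funext fun i => by simpa using (ht i).2⟩

theorem child_unique (S : Step σ Lp Lc ϖ) {d : ℤ} (hd : Dir d) {x x' : ℤ → B} {ε : ℤ → A}
    {f f' : ℤ → ℤ} (hx : End Lc ϖ d x) (hx' : End Lc ϖ d x') (h : Parse σ x ε f)
    (h' : Parse σ x' ε f') : x' = x ∧ f' = f := by
  have e := h.agree_all S.ne h' (c := 0) (s := f' 0 - f 0) (t := 0) (by simp) (by simp)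
  have := hx.shift_eq hd hx' e.2
  rw [this] at e
  exact ⟨funext fun i => by simpa using e.2 i, funext fun i => by simpa using e.1 i⟩

theorem finite_child (S : Step σ Lp Lc ϖ) {d : ℤ} (hd : Dir d) (hf : {ε | End Lp ϖ d ε}.Finite) :
    {x | End Lc ϖ d x}.Finite := by
  choose c f hc using fun ε : {ε | End Lp ϖ d ε} => S.child_end hd ε.2
  have := hf.to_subtype
  refine (Set.finite_range c).subset fun x hx => ?_
  obtain ⟨ε, g, h1, h2⟩ := S.parent_end hd hx
  exact ⟨⟨ε, h1⟩, (S.child_unique hd hx (hc _).1 h2 (hc _).2).1⟩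

/-- one-sided ascent -/
theorem asc (S : Step σ Lp Lc ϖ) {d : ℤ} (hd : Dir d) (K : ℕ) : ∃ n : ℕ, ∀ {x : ℤ → B}
    {y : ℤ → A} {F : ℤ → ℤ} {P : ℤ}, y ∈ Lp.V n → Parse σ x y F → x (P + ϖ) ≠ x P →
    (∀ i, 0 < d * i → d * i < n → x (P + i + ϖ) = x (P + i)) →
    ∃ s ε ε' f, End Lp ϖ d ε ∧ End Lc ϖ d ε' ∧ Parse σ ε' ε f ∧
      (∀ i : ℤ, -K ≤ i → i ≤ K → y (s + i) = ε i) ∧
      (∀ i : ℤ, -K ≤ i → i ≤ K → x (P + i) = ε' i) ∧ F s = P + f 0 ∧ (f 0).natAbs ≤ n := by
  by_contra hc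
  simp only [not_exists, not_forall] at hc
  choose x y F P hy h h1 h2 h3 using hc
  choose i hi using fun n => (h n).tile S.ne (P n)
  obtain ⟨z, hz, lz⟩ := Lang.lim (fun n => Lang.V_shift (hy n) (i n))
  obtain ⟨X, G, hG, lX, lG⟩ := Parse.lim0 S.ne (fun n => (h n).shift (P n) (i n))
    (fun n => by have := hi n; simp [add_comm (1 : ℤ)]; omega) lz
  have hX : End Lc ϖ d X := by
    refine ⟨S.imgX hz hG, ?_, fun j hj => ?_⟩
    · obtain ⟨n, n1, n2⟩ := ((lX 0).and (lX ϖ)).exists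
      rw [← n1, ← n2]
      simpa [add_comm] using h1 n
    · obtain ⟨n, ⟨n1, n2⟩, n3⟩ :=
        (((lX j).and (lX (j + ϖ))).and (VV_ge ((d * j).toNat + 1))).exists
      rw [← n1, ← n2]
      have := h2 n j hj (by omega)
      rw [add_comm (P n) j] at this
      simp only
      rw [← this]; congr 1; ring
  obtain ⟨ε, f, e1, e2⟩ := S.parent_end hd hX
  obtain ⟨t, ht⟩ := S.elem.unique e2 hG (e1.aper S.gp)
  obtain ⟨n, ⟨⟨n1, n2⟩, n3⟩, n4⟩ := ((((lz.Icc (t - K) (t + K)).and (lX.Icc (-K) K)).and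
    (lG t)).and (VV_ge (f 0).natAbs)).exists
  refine h3 n (t + i n) ε X f ⟨e1, hX, e2, fun j j1 j2 => ?_, fun j j1 j2 => ?_, ?_, n4⟩
  · rw [← (ht j).1, ← n1 _ (by omega) (by omega)]; congr 1; ring
  · rw [← n2 j j1 j2, add_comm]
  · have := (ht 0).2
    simp only [zero_add] at this n3
    omega

end Step

theorem sep_end {Λ : Lang B} {ϖ : ℕ} {d : ℤ} (hf : {ε | End Λ ϖ d ε}.Finite) :
    ∃ K : ℕ, ∀ {ε ε' : ℤ → B}, End Λ ϖ d ε → End Λ ϖ d ε' →
      (∀ i : ℤ, -K ≤ i → i ≤ K → ε i = ε' i) → ε = ε' := by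
  have : ∀ p : (ℤ → B) × (ℤ → B), ∃ K : ℕ, (∀ i : ℤ, -K ≤ i → i ≤ K → p.1 i = p.2 i) →
      p.1 = p.2 := by
    intro p
    by_cases h : p.1 = p.2
    · exact ⟨0, fun _ => h⟩
    · obtain ⟨i, hi⟩ := Function.ne_iff.1 h
      exact ⟨i.natAbs, fun h' => (hi (h' i (by omega) (by omega))).elim⟩
  choose k hk using this
  obtain ⟨K, hK⟩ := ((hf.prod hf).image k).bddAbove
  refine ⟨K, fun {ε ε'} h h' e => hk (ε, ε') fun i i1 i2 => ?_⟩
  have := hK ⟨(ε, ε'), ⟨h, h'⟩, rfl⟩
  exact e i (by omega) (by omega)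

end Pool.Agent.P.MP_1e185c_lc

/-! Normal form of an elementary endomorphism, reached by passing to a power. -/

set_option autoImplicit false
set_option linter.unusedSectionVars false

namespace Pool.Agent.P.MP_1e185c_lc

variable {A B : Type}

/-- growing letter -/
def Grow (G : A → List A) (a : A) : Prop := G a ≠ [a]

/-- `b` is the first letter of `w` with property `g` -/
def FG (g : A → Prop) (w : List A) (b : A) : Prop :=
  ∃ α β, w = α ++ b :: β ∧ (∀ c ∈ α, ¬ g c) ∧ g b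

theorem FG.exists {g : A → Prop} {w : List A} (h : ∃ c ∈ w, g c) : ∃ b, FG g w b := by
  induction w with
  | nil => simp at h
  | cons a w ih =>
    by_cases ha : g a
    · exact ⟨a, [], w, rfl, by simp, ha⟩
    · obtain ⟨b, α, β, h1, h2, h3⟩ := ih (by simpa [ha] using h)
      exact ⟨b, a :: α, β, by simp [h1], by simpa [ha] using h2, h3⟩

theorem FG.unique {g : A → Prop} {w : List A} {b c : A} (h : FG g w b) (h' : FG g w c) :
    b = c := by
  obtain ⟨α, β, h1, h2, h3⟩ := h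
  obtain ⟨α', β', h1', h2', h3'⟩ := h'
  rw [h1] at h1'
  rcases List.append_eq_append_iff.1 h1' with ⟨γ, e1, e2⟩ | ⟨γ, e1, e2⟩
  · cases γ with
    | nil => simpa using (List.cons.inj e2).1
    | cons d γ =>
      have := (List.cons.inj e2).1
      subst this
      exact (h2' _ (by simp [e1]) h3).elim
  · cases γ with
    | nil => simpa using (List.cons.inj e2).1.symm
    | cons d γ =>
      have := (List.cons.inj e2).1
      subst this
      exact (h2 _ (by simp [e1]) h3').elim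

theorem FG.app {g : A → Prop} {G : A → List A} (hg : ∀ c, ¬ g c → ∀ d ∈ G c, ¬ g d) {w : List A}
    {b c : A} (h : FG g w b) (h' : FG g (G b) c) : FG g (app G w) c := by
  obtain ⟨α, β, h1, h2, h3⟩ := h
  obtain ⟨α', β', h1', h2', h3'⟩ := h'
  refine ⟨MP_1e185c_lc.app G α ++ α', β' ++ MP_1e185c_lc.app G β, by simp [h1, h1'], ?_, h3'⟩
  intro d hd
  rcases List.mem_append.1 hd with hd | hd
  · obtain ⟨e, e1, e2⟩ := mem_app.1 hd
    exact hg e (h2 e e1) d e2
  · exact h2' d hd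

theorem FG.of_app {g : A → Prop} {G : A → List A} {w : List A} {b : A}
    (h : FG g (MP_1e185c_lc.app G w) b) : ∃ c ∈ w, FG g (G c) b := by
  induction w with
  | nil => obtain ⟨α, β, h, -⟩ := h; simp at h
  | cons a w ih =>
    by_cases ha : ∃ c ∈ G a, g c
    · obtain ⟨c, α, β, h1, h2, h3⟩ := FG.exists ha
      have : FG g (MP_1e185c_lc.app G (a :: w)) c :=
        ⟨α, β ++ MP_1e185c_lc.app G w, by simp [h1], h2, h3⟩
      rw [h.unique this]
      exact ⟨a, by simp, α, β, h1, h2, h3⟩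
    · obtain ⟨α, β, h1, h2, h3⟩ := h
      rw [app_cons] at h1
      rcases List.append_eq_append_iff.1 h1 with ⟨γ, e1, e2⟩ | ⟨γ, e1, e2⟩
      · obtain ⟨c, c1, c2⟩ := ih ⟨γ, β, e2, fun c hc => h2 c (by simp [e1, hc]), h3⟩
        exact ⟨c, by simp [c1], c2⟩
      · cases γ with
        | nil =>
          obtain ⟨c, c1, c2⟩ := ih ⟨[], β, by simpa using e2.symm, by simp, h3⟩
          exact ⟨c, by simp [c1], c2⟩
        | cons d γ =>
          have := (List.cons.inj e2).1
          subst this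
          exact (ha ⟨_, by simp [e1], h3⟩).elim

/-- the first `g`-letter map is idempotent -/
def Idem (g : A → Prop) (G : A → List A) : Prop := ∀ a b, FG g (G a) b → FG g (G b) b

theorem FG.pw_self {g : A → Prop} {G : A → List A} (hg : ∀ c, ¬ g c → ∀ d ∈ G c, ¬ g d) {b : A}
    (h : FG g (G b) b) (n : ℕ) : FG g (pw G n b) b := by
  induction n with
  | zero => exact ⟨[], [], rfl, by simp, h.choose_spec.choose_spec.2.2⟩
  | succ n ih => rw [pw_succ']; exact ih.app hg h

theorem Idem.pow {g : A → Prop} {G : A → List A} (hg : ∀ c, ¬ g c → ∀ d ∈ G c, ¬ g d)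
    (h : Idem g G) {m : ℕ} (hm : 1 ≤ m) : Idem g (pw G m) := by
  intro a b hab
  obtain ⟨m, rfl⟩ : ∃ k, m = k + 1 := ⟨m - 1, by omega⟩
  rw [pw_succ'] at hab
  obtain ⟨c, -, hc⟩ := hab.of_app
  exact FG.pw_self hg (h c b hc) _

theorem exists_idem_iter [Finite A] (φ : A → A) :
    ∃ p, 1 ≤ p ∧ ∀ a, φ^[p] (φ^[p] a) = φ^[p] a := by
  obtain ⟨i, j, hij, e⟩ := Finite.exists_ne_map_eq_of_infinite (fun n : ℕ => φ^[n])
  wlog h : i < j generalizing i j
  · exact this j i hij.symm e.symm (by omega)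
  obtain ⟨d, rfl⟩ : ∃ d, j = i + (d + 1) := ⟨j - i - 1, by omega⟩
  have k1 : ∀ k, φ^[i + k * (d + 1)] = φ^[i] := by
    intro k
    induction k with
    | zero => simp
    | succ k ih =>
      rw [show i + (k + 1) * (d + 1) = k * (d + 1) + (i + (d + 1)) by ring, Function.iterate_add,
        ← e, ← Function.iterate_add, add_comm, ih]
  refine ⟨(i + 1) * (d + 1), by nlinarith, fun a => ?_⟩
  obtain ⟨r, hr⟩ : ∃ r, (i + 1) * (d + 1) = r + i := ⟨(i + 1) * (d + 1) - i, by
    have : i ≤ (i + 1) * (d + 1) := by nlinarith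
    omega⟩
  rw [← Function.iterate_add_apply]
  have : (i + 1) * (d + 1) + (i + 1) * (d + 1) = r + (i + (i + 1) * (d + 1)) := by omega
  rw [this, Function.iterate_add, k1, ← Function.iterate_add, ← hr]

theorem not_g_pw {g : A → Prop} {G : A → List A} (hg : ∀ c, ¬ g c → ∀ d ∈ G c, ¬ g d) (n : ℕ) :
    ∀ c, ¬ g c → ∀ d ∈ pw G n c, ¬ g d := by
  induction n with
  | zero => intro c hc d hd; simp [pw_zero] at hd; exact hd ▸ hc
  | succ n ih =>
    intro c hc d hd
    rw [pw_succ'] at hd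
    obtain ⟨e, e1, e2⟩ := mem_app.1 hd
    exact hg e (ih c hc e e1) d e2

theorem exists_idem [Finite A] {g : A → Prop} {G : A → List A}
    (hg : ∀ c, ¬ g c → ∀ d ∈ G c, ¬ g d) (hg' : ∀ c, g c → ∃ d ∈ G c, g d) :
    ∃ p, 1 ≤ p ∧ ∀ m, 1 ≤ m → Idem g (pw G (m * p)) := by
  have : ∀ c, ∃ d, g c → FG g (G c) d := by
    intro c
    by_cases hc : g c
    · obtain ⟨d, hd⟩ := FG.exists (hg' c hc)
      exact ⟨d, fun _ => hd⟩
    · exact ⟨c, fun h => (hc h).elim⟩
  choose φ hφ using this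
  have key : ∀ n a, g a → FG g (pw G n a) (φ^[n] a) := by
    intro n a ha
    induction n with
    | zero => exact ⟨[], [], rfl, by simp, ha⟩
    | succ n ih =>
      rw [pw_succ', Function.iterate_succ_apply']
      exact ih.app hg (hφ _ ih.choose_spec.choose_spec.2.2)
  obtain ⟨p, p1, p2⟩ := exists_idem_iter φ
  refine ⟨p, p1, fun m hm => ?_⟩
  rw [← pw_pw]
  refine Idem.pow (not_g_pw hg p) (fun a b hab => ?_) hm
  have hb : g b := hab.choose_spec.choose_spec.2.2
  have ha : g a := by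
    by_contra ha
    obtain ⟨α, β, h1, -⟩ := hab
    exact not_g_pw hg p a ha b (by simp [h1]) hb
  have := key p b hb
  rwa [hab.unique (key p a ha), p2, ← hab.unique (key p a ha)] at this

theorem pw_rev (G : A → List A) (n : ℕ) :
    pw (fun a => (G a).reverse) n = fun a => (pw G n a).reverse := by
  induction n with
  | zero => funext a; simp [pw_zero]
  | succ n ih => funext a; rw [pw_succ', pw_succ', ih, app_reverse]

theorem grow_rev (G : A → List A) : Grow (fun a => (G a).reverse) = Grow G := by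
  funext a; simp [Grow, List.reverse_eq_iff]

theorem self_pw {G : A → List A} (h : ∀ a, a ∈ G a) (n : ℕ) (a : A) : a ∈ pw G n a := by
  induction n with
  | zero => simp [pw_zero]
  | succ n ih => rw [pw_succ']; exact mem_app.2 ⟨a, ih, h a⟩

theorem pw_fixed {G : A → List A} {a : A} (h : ¬ Grow G a) (n : ℕ) : pw G n a = [a] := by
  induction n with
  | zero => rfl
  | succ n ih => rw [pw_succ', ih]; simpa [Grow] using h

theorem Grow.two {G : A → List A} (h : ∀ a, a ∈ G a) {a : A} (ha : Grow G a) :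
    2 ≤ (G a).length := by
  have h1 := h a
  rcases hG : G a with _ | ⟨b, _ | ⟨c, l⟩⟩
  · simp [hG] at h1
  · rw [hG] at h1; simp at h1; exact (ha (by rw [hG, h1])).elim
  · simp

theorem self_ne {G : A → List A} (h : ∀ a, a ∈ G a) : NE G := fun a => List.ne_nil_of_mem (h a)

theorem grow_pw {G : A → List A} (h : ∀ a, a ∈ G a) {n : ℕ} (hn : 1 ≤ n) :
    Grow (pw G n) = Grow G := by
  funext a
  apply propext
  constructor
  · intro h1; by_contra h2; exact h1 (pw_fixed h2 n)
  · intro h1 h2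
    obtain ⟨m, rfl⟩ : ∃ k, n = k + 1 := ⟨n - 1, by omega⟩
    have := ((self_ne h).pw m).le_app (G a)
    rw [← pw_succ, h2] at this
    have := h1.two h
    simp at *; omega

theorem not_grow_mem {G : A → List A} : ∀ c, ¬ Grow G c → ∀ d ∈ G c, ¬ Grow G d := by
  intro c hc d hd
  have : G c = [c] := by simpa [Grow] using hc
  rw [this] at hd; simp at hd; exact hd ▸ hc

variable [Fintype A]

/-- normal form -/
structure Norm (G : A → List A) : Prop where
  elem : ∀ j, Elem (pw G j)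
  self : ∀ a, a ∈ G a
  alph : ∀ a b c, b ∈ G a → c ∈ G b → c ∈ G a
  first : Idem (fun _ => True) G
  last : Idem (fun _ => True) (fun a => (G a).reverse)
  fg : Idem (Grow G) G
  lg : Idem (Grow G) (fun a => (G a).reverse)

theorem Norm.rev {G : A → List A} (h : Norm G) : Norm (fun a => (G a).reverse) where
  elem j := by rw [pw_rev]; exact (h.elem j).rev
  self a := by simpa using h.self a
  alph a b c := by simpa using h.alph a b c
  first := h.last
  last := by simpa using h.first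
  fg := by rw [grow_rev]; exact h.lg
  lg := by rw [grow_rev]; simpa using h.fg

theorem Norm.ne {G : A → List A} (h : Norm G) : NE G := self_ne h.self

theorem Norm.elem1 {G : A → List A} (h : Norm G) : Elem G := by
  have := h.elem 1; rwa [pw_one] at this

theorem Norm.mem_pw {G : A → List A} (h : Norm G) {n : ℕ} {a b : A} (hb : b ∈ pw G n a) :
    b ∈ G a := by
  induction n generalizing b with
  | zero => simp [pw_zero] at hb; exact hb ▸ h.self a
  | succ n ih =>
    rw [pw_succ'] at hb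
    obtain ⟨c, c1, c2⟩ := mem_app.1 hb
    exact h.alph _ _ _ (ih c1) c2

theorem mem_pw_of_mem {G : A → List A} (h : ∀ a, a ∈ G a) {m n : ℕ} (hn : m ≤ n) {a b : A}
    (hb : b ∈ pw G m a) : b ∈ pw G n a := by
  obtain ⟨k, rfl⟩ : ∃ k, n = k + m := ⟨n - m, by omega⟩
  rw [pw_add]; exact mem_app.2 ⟨b, hb, self_pw h _ _⟩

theorem Norm.pow {G : A → List A} (h : Norm G) {m : ℕ} (hm : 1 ≤ m) : Norm (pw G m) where
  elem j := by rw [pw_pw]; exact h.elem _
  self := self_pw h.self m
  alph a b c h1 h2 := mem_pw_of_mem h.self hm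
    (by rw [pw_one]; exact h.alph _ _ _ (h.mem_pw h1) (h.mem_pw h2))
  first := h.first.pow (by simp) hm
  last := by rw [← pw_rev]; exact h.last.pow (by simp) hm
  fg := by rw [grow_pw h.self hm]; exact h.fg.pow not_grow_mem hm
  lg := by
    rw [grow_pw h.self hm, ← pw_rev]
    exact h.lg.pow (by simpa using not_grow_mem) hm

theorem Elem.exists_self {G : A → List A} (h : Elem G) : ∃ p, 1 ≤ p ∧ ∀ a, a ∈ pw G p a := by
  classical
  obtain ⟨π, h1, h2⟩ := (Finset.all_card_le_biUnion_card_iff_exists_injective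
    (fun a => (G a).toFinset)).1 (fun s => by
      have := h ((s.biUnion fun a => (G a).toFinset).image (fun b => [b]) ∪ sᶜ.image G)
        (fun a => by
          by_cases ha : a ∈ s
          · refine ⟨(G a).map fun b => [b], ?_, by
              induction G a with
              | nil => rfl
              | cons b l ih => simpa using ih⟩
            intro x hx
            obtain ⟨b, b1, rfl⟩ := List.mem_map.1 hx
            exact Finset.mem_union_left _ (Finset.mem_image_of_mem _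
              (Finset.mem_biUnion.2 ⟨a, ha, by simpa using b1⟩))
          · exact ⟨[G a], by
              simp only [List.mem_singleton, forall_eq]
              exact Finset.mem_union_right _ (Finset.mem_image_of_mem _ (by simpa)), by simp⟩)
      have h1 := Finset.card_union_le
        ((s.biUnion fun a => (G a).toFinset).image (fun b => [b])) (sᶜ.image G)
      have h2 := Finset.card_image_le (s := s.biUnion fun a => (G a).toFinset) (f := fun b => [b])
      have h3 := Finset.card_image_le (s := sᶜ) (f := G)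
      have h4 := Finset.card_compl s
      have h5 := Finset.card_le_univ s
      omega)
  obtain ⟨p, p1, p2⟩ := exists_idem_iter π
  refine ⟨p, p1, fun a => ?_⟩
  have key : ∀ n, π^[n] a ∈ pw G n a := by
    intro n
    induction n with
    | zero => simp [pw_zero]
    | succ n ih =>
      rw [pw_succ', Function.iterate_succ_apply']
      exact mem_app.2 ⟨_, ih, by simpa using h2 _⟩
  have := key p
  rwa [(h1.iterate p) (p2 a)] at this

theorem exists_norm {G : A → List A} (h : ∀ j, Elem (pw G j)) : ∃ p, 1 ≤ p ∧ Norm (pw G p) := by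
  obtain ⟨p0, h0, hs⟩ := (pw_one G ▸ h 1).exists_self
  set H := pw G p0 with hH
  obtain ⟨N, hN⟩ := WellFoundedGT.monotone_chain_condition'
    (⟨fun n => {x : A × A | x.2 ∈ pw H n x.1}, fun m n hmn x hx => mem_pw_of_mem hs hmn hx⟩ :
      ℕ →o Set (A × A))
  have hN' : ∀ m n, N ≤ n → ∀ a b, b ∈ pw H m a → b ∈ pw H n a := by
    intro m n hn a b hb
    rcases le_total m n with h1 | h1
    · exact mem_pw_of_mem hs h1 hb
    · have e : {x : A × A | x.2 ∈ pw H N x.1} = {x : A × A | x.2 ∈ pw H m x.1} :=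
        (eq_or_lt_of_le (fun x hx => mem_pw_of_mem hs (by omega) hx)).resolve_right
          (hN m (by omega))
      have : (a, b) ∈ {x : A × A | x.2 ∈ pw H N x.1} := by rw [e]; exact hb
      exact mem_pw_of_mem hs hn this
  obtain ⟨p1, a1, b1⟩ := exists_idem (g := fun _ => True) (G := H) (by simp)
    (fun c _ => ⟨c, hs c, trivial⟩)
  obtain ⟨p2, a2, b2⟩ := exists_idem (g := fun _ => True) (G := fun a => (H a).reverse) (by simp)
    (fun c _ => ⟨c, by simpa using hs c, trivial⟩)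
  obtain ⟨p3, a3, b3⟩ := exists_idem (g := Grow H) (G := H) not_grow_mem
    (fun c hc => ⟨c, hs c, hc⟩)
  obtain ⟨p4, a4, b4⟩ := exists_idem (g := Grow H) (G := fun a => (H a).reverse)
    (by simpa using not_grow_mem) (fun c hc => ⟨c, by simpa using hs c, hc⟩)
  have hq : 1 ≤ p1 * p2 * p3 * p4 := Nat.one_le_iff_ne_zero.2 (by positivity)
  have hp : N + 1 ≤ (N + 1) * (p1 * p2 * p3 * p4) := Nat.le_mul_of_pos_right _ hq
  refine ⟨(N + 1) * (p1 * p2 * p3 * p4) * p0, Nat.one_le_iff_ne_zero.2 (by positivity), ?_⟩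
  rw [← pw_pw, ← hH]
  refine ⟨fun j => by rw [pw_pw, hH, pw_pw]; exact h _, self_pw hs _, fun a b c h1 h2 => ?_,
    ?_, ?_, ?_, ?_⟩
  · refine hN' ((N + 1) * (p1 * p2 * p3 * p4) + (N + 1) * (p1 * p2 * p3 * p4)) _ (by omega) a c ?_
    rw [pw_add]; exact mem_app.2 ⟨b, h1, h2⟩
  · rw [show (N + 1) * (p1 * p2 * p3 * p4) = (N + 1) * p2 * p3 * p4 * p1 by ring]
    exact b1 _ (Nat.one_le_iff_ne_zero.2 (by positivity))
  · rw [show (N + 1) * (p1 * p2 * p3 * p4) = (N + 1) * p1 * p3 * p4 * p2 by ring, ← pw_rev]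
    exact b2 _ (Nat.one_le_iff_ne_zero.2 (by positivity))
  · rw [grow_pw hs (by omega),
      show (N + 1) * (p1 * p2 * p3 * p4) = (N + 1) * p1 * p2 * p4 * p3 by ring]
    exact b3 _ (Nat.one_le_iff_ne_zero.2 (by positivity))
  · rw [grow_pw hs (by omega),
      show (N + 1) * (p1 * p2 * p3 * p4) = (N + 1) * p1 * p2 * p3 * p4 by ring, ← pw_rev]
    exact b4 _ (Nat.one_le_iff_ne_zero.2 (by positivity))

end Pool.Agent.P.MP_1e185c_lc

/-! Counting letters in windows; fixed and growing letters in a parse. -/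

set_option autoImplicit false
set_option linter.unusedSectionVars false

namespace Pool.Agent.P.MP_1e185c_lc

variable {A B : Type}

open Classical in
/-- number of letters with property `g` -/
noncomputable def cp (g : A → Prop) (w : List A) : ℕ := w.countP fun c => decide (g c)

@[simp] theorem cp_nil (g : A → Prop) : cp g [] = 0 := rfl

@[simp] theorem cp_append (g : A → Prop) (v w : List A) : cp g (v ++ w) = cp g v + cp g w := by
  simp [cp]

theorem cp_cons_pos {g : A → Prop} {a : A} (h : g a) (w : List A) :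
    cp g (a :: w) = cp g w + 1 := by simp [cp, h]

theorem cp_cons_neg {g : A → Prop} {a : A} (h : ¬ g a) (w : List A) :
    cp g (a :: w) = cp g w := by simp [cp, h]

theorem cp_le (g : A → Prop) (w : List A) : cp g w ≤ w.length := List.countP_le_length

theorem cp_pos {g : A → Prop} {w : List A} : 0 < cp g w ↔ ∃ c ∈ w, g c := by
  simp [cp]

theorem cp_eq_zero {g : A → Prop} {w : List A} : cp g w = 0 ↔ ∀ c ∈ w, ¬ g c := by
  simp [cp]

theorem cp_mono {g g' : A → Prop} {w : List A} (h : ∀ c ∈ w, g c → g' c) : cp g w ≤ cp g' w := by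
  classical
  exact List.countP_mono_left (by simpa using h)

theorem cp_infix {g : A → Prop} {v w : List A} (h : v <:+: w) : cp g v ≤ cp g w := by
  obtain ⟨s, t, rfl⟩ := h
  simp; omega

theorem cp_reverse (g : A → Prop) (w : List A) : cp g w.reverse = cp g w := by simp [cp]

theorem cp_app_ge {g : A → Prop} {g' : B → Prop} {σ : A → List B} {r : ℕ} {w : List A}
    (h : ∀ c ∈ w, g c → r ≤ cp g' (σ c)) : r * cp g w ≤ cp g' (app σ w) := by
  induction w with
  | nil => simp
  | cons a w ih =>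
    have := ih fun c hc => h c (by simp [hc])
    by_cases ha : g a
    · have := h a (by simp) ha
      rw [cp_cons_pos ha, app_cons, cp_append, Nat.mul_succ]; omega
    · rw [cp_cons_neg ha, app_cons, cp_append]; omega

theorem cp_app_le {g : A → Prop} {g' : B → Prop} {σ : A → List B} {r : ℕ} {w : List A}
    (h : ∀ c ∈ w, g c → cp g' (σ c) ≤ r) (h0 : ∀ c ∈ w, ¬ g c → cp g' (σ c) = 0) :
    cp g' (app σ w) ≤ r * cp g w := by
  induction w with
  | nil => simp
  | cons a w ih =>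
    have := ih (fun c hc => h c (by simp [hc])) (fun c hc => h0 c (by simp [hc]))
    by_cases ha : g a
    · have := h a (by simp) ha
      rw [cp_cons_pos ha, app_cons, cp_append, Nat.mul_succ]; omega
    · have := h0 a (by simp) ha
      rw [cp_cons_neg ha, app_cons, cp_append]; omega

/-- number of positions of `[a, b)` whose letter has property `g` -/
noncomputable def gc (g : A → Prop) (y : ℤ → A) (a b : ℤ) : ℕ := cp g (seg y a (b - a).toNat)

theorem gc_add (g : A → Prop) (y : ℤ → A) {a b c : ℤ} (h1 : a ≤ b) (h2 : b ≤ c) :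
    gc g y a c = gc g y a b + gc g y b c := by
  simp only [gc]
  rw [show (c - a).toNat = (b - a).toNat + (c - b).toNat by omega, seg_add, cp_append]
  congr 3; omega

theorem gc_le (g : A → Prop) (y : ℤ → A) (a b : ℤ) : gc g y a b ≤ (b - a).toNat := by
  simpa [gc] using cp_le g (seg y a (b - a).toNat)

theorem gc_pos {g : A → Prop} {y : ℤ → A} {a b : ℤ} :
    0 < gc g y a b ↔ ∃ i, a ≤ i ∧ i < b ∧ g (y i) := by
  rw [gc, cp_pos]
  constructor
  · rintro ⟨c, hc, h⟩
    obtain ⟨i, i1, i2, rfl⟩ := mem_seg.1 hc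
    exact ⟨i, i1, by omega, h⟩
  · rintro ⟨i, i1, i2, h⟩
    exact ⟨_, mem_seg.2 ⟨i, i1, by omega, rfl⟩, h⟩

theorem gc_mono_prop {g g' : A → Prop} {y : ℤ → A} {a b : ℤ}
    (h : ∀ i, a ≤ i → i < b → g (y i) → g' (y i)) : gc g y a b ≤ gc g' y a b := by
  apply cp_mono
  intro c hc
  obtain ⟨i, i1, i2, rfl⟩ := mem_seg.1 hc
  exact h i i1 (by omega)

theorem gc_mono (g : A → Prop) (y : ℤ → A) {a b a' b' : ℤ} (h1 : a ≤ a') (h2 : b' ≤ b) :
    gc g y a' b' ≤ gc g y a b := by
  rcases le_or_gt b' a' with h | h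
  · have := gc_le g y a' b'; omega
  · exact cp_infix (seg_infix _ h1 (by omega))

theorem gc_rev (g : A → Prop) (y : ℤ → A) (c a b : ℤ) :
    gc g (fun i => y (c - 1 - i)) a b = gc g y (c - b) (c - a) := by
  rcases le_or_gt b a with h | h
  · have := gc_le g y (c - b) (c - a)
    have := gc_le g (fun i => y (c - 1 - i)) a b
    omega
  · simp only [gc]
    rw [seg_rev, cp_reverse]
    congr 2 <;> omega

theorem Parse.seg_app {σ : A → List B} {x : ℤ → B} {y : ℤ → A} {f : ℤ → ℤ} (h : Parse σ x y f)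
    {a b : ℤ} (hab : a ≤ b) :
    seg x (f a) (f b - f a).toNat = app σ (seg y a (b - a).toNat) := by
  obtain ⟨h1, h2⟩ := h.add a (b - a).toNat
  rw [show a + (b - a).toNat = b by omega] at h1
  rw [← h2]; congr 1; omega

theorem Parse.gc_ge {σ : A → List B} {x : ℤ → B} {y : ℤ → A} {f : ℤ → ℤ} (h : Parse σ x y f)
    {g : A → Prop} {g' : B → Prop} {r : ℕ} (hr : ∀ c, g c → r ≤ cp g' (σ c)) (a b : ℤ) :
    r * gc g y a b ≤ gc g' x (f a) (f b) := by
  rcases le_or_gt a b with hab | hab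
  · simp only [gc]
    rw [h.seg_app hab]
    exact cp_app_ge fun c _ => hr c
  · have := gc_le g y a b
    rw [show gc g y a b = 0 by omega]; simp

namespace Parse

variable {G : A → List A} {y y1 : ℤ → A} {φ : ℤ → ℤ}

theorem fixed (h : Parse G y1 y φ) {i : ℤ} (hi : ¬ Grow G (y i)) :
    φ (i + 1) = φ i + 1 ∧ y1 (φ i) = y i := by
  have e : G (y i) = [y i] := by simpa [Grow] using hi
  have h1 := h.step i
  have h2 := h.lett i
  rw [e] at h1 h2
  exact ⟨by simpa using h1, by simpa [seg_one] using h2⟩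

theorem fixed_cut (h : Parse G y1 y φ) {a b : ℤ} (hi : ∀ i, a ≤ i → i < b → ¬ Grow G (y i))
    (i : ℤ) (h1 : a ≤ i) (h2 : i ≤ b) : φ i = φ a + (i - a) := by
  induction i, h1 using Int.leInduction with
  | base => simp
  | succ i h1 ih => rw [(h.fixed (hi i h1 (by omega))).1, ih (by omega)]; ring

theorem fixed_val (h : Parse G y1 y φ) {a b : ℤ} (hi : ∀ i, a ≤ i → i < b → ¬ Grow G (y i))
    (p : ℤ) (h1 : φ a ≤ p) (h2 : p < φ a + (b - a)) : y1 p = y (a + (p - φ a)) := by
  have := h.fixed_cut hi (a + (p - φ a)) (by omega) (by omega)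
  rw [← (h.fixed (hi (a + (p - φ a)) (by omega) (by omega))).2, this]
  congr 1; ring

theorem grow_child (hs : ∀ a, a ∈ G a) (h : Parse G y1 y φ) (i : ℤ) :
    ∃ p, φ i ≤ p ∧ p < φ (i + 1) ∧ y1 p = y i := h.exists_of_mem (hs _)

theorem grow_parent (h : Parse G y1 y φ) {i p : ℤ} (h1 : φ i ≤ p) (h2 : p < φ (i + 1))
    (hp : Grow G (y1 p)) : Grow G (y i) := by
  by_contra hc
  exact not_grow_mem _ hc _ (h.mem h1 h2) hp

theorem decomp_at {σ : A → List B} {x : ℤ → B} (h : Parse σ x y φ) {i : ℤ} {α β : List B} {c : B}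
    (e : σ (y i) = α ++ c :: β) : x (φ i + α.length) = c ∧
      φ (i + 1) = φ i + α.length + 1 + β.length ∧
      (∀ p, φ i ≤ p → p < φ i + α.length → x p ∈ α) ∧
      ∀ p, φ i + α.length < p → p < φ (i + 1) → x p ∈ β := by
  have h1 := h.step i
  have h2 := h.lett i
  rw [e] at h1 h2
  rw [List.length_append, seg_add, List.length_cons, seg_succ'] at h2
  have h3 := List.append_inj h2 (by simp)
  have h4 := List.cons.inj h3.2
  simp only [List.length_append, List.length_cons] at h1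
  refine ⟨h4.1, by omega, fun p p1 p2 => ?_, fun p p1 p2 => ?_⟩
  · rw [← h3.1]; exact mem_seg.2 ⟨p, p1, p2, rfl⟩
  · rw [← h4.2]; exact mem_seg.2 ⟨p, by omega, by omega, rfl⟩

theorem fg_of {σ : A → List B} {x : ℤ → B} (h : Parse σ x y φ) {g : B → Prop} {i p : ℤ}
    (h1 : φ i ≤ p) (h2 : p < φ (i + 1)) (hf : ∀ q, φ i ≤ q → q < p → ¬ g (x q)) (hp : g (x p)) :
    FG g (σ (y i)) (x p) := by
  have e := h.seg_app (a := i) (b := i + 1) (by omega)
  rw [show (i + 1 - i).toNat = 1 by omega, seg_one, app_singleton,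
    show (φ (i + 1) - φ i).toNat = (p - φ i).toNat + ((φ (i + 1) - p - 1).toNat + 1) by omega,
    seg_add, seg_succ', show φ i + (p - φ i).toNat = p by omega] at e
  refine ⟨_, _, e.symm, fun c hc => ?_, hp⟩
  obtain ⟨q, q1, q2, rfl⟩ := mem_seg.1 hc
  exact hf q q1 (by omega)

end Parse

theorem exists_first {P : ℤ → Prop} {a b : ℤ} (h1 : a ≤ b) (hb : P b) :
    ∃ c, a ≤ c ∧ c ≤ b ∧ P c ∧ ∀ i, a ≤ i → i < c → ¬ P i := by
  obtain ⟨c, ⟨c1, c2⟩, c3⟩ := Int.exists_least_of_bdd (P := fun i => a ≤ i ∧ P i)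
    ⟨a, fun z hz => hz.1⟩ ⟨b, h1, hb⟩
  exact ⟨c, c1, c3 b ⟨h1, hb⟩, c2, fun i i1 i2 hi => by have := c3 i ⟨i1, hi⟩; omega⟩

theorem exists_last {P : ℤ → Prop} {a b : ℤ} (h1 : a ≤ b) (ha : P a) :
    ∃ c, a ≤ c ∧ c ≤ b ∧ P c ∧ ∀ i, c < i → i ≤ b → ¬ P i := by
  obtain ⟨c, ⟨c1, c2⟩, c3⟩ := Int.exists_greatest_of_bdd (P := fun i => i ≤ b ∧ P i)
    ⟨b, fun z hz => hz.1⟩ ⟨a, h1, ha⟩
  exact ⟨c, c3 a ⟨h1, ha⟩, c1, c2, fun i i1 i2 hi => by have := c3 i ⟨i2, hi⟩; omega⟩

end Pool.Agent.P.MP_1e185c_lc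

/-! Uniform bounded delay for the powers of a normalized morphism. -/

set_option autoImplicit false
set_option linter.unusedSectionVars false

namespace Pool.Agent.P.MP_1e185c_lc

variable {A B : Type}

namespace U

/-- the first growing letter from `m` on reproduces itself first -/
def FGp (G : A → List A) (y : ℤ → A) (m : ℤ) : Prop :=
  ∀ g, m ≤ g → (∀ i, m ≤ i → i < g → ¬ Grow G (y i)) → Grow G (y g) → FG (Grow G) (G (y g)) (y g)

/-- growing letter without linear descendant -/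
def ET (G : A → List A) (c : A) : Prop :=
  Grow G c ∧ ∀ b ∈ G c, Grow G b → 2 ≤ cp (Grow G) (G b)

/-- emits fixed letters to the left -/
def LinL (G : A → List A) (c : A) : Prop :=
  ∃ α β, G c = α ++ c :: β ∧ α ≠ [] ∧ ∀ d ∈ α, ¬ Grow G d

/-- emits fixed letters to the right -/
def LinR (G : A → List A) (c : A) : Prop :=
  ∃ α β, G c = α ++ c :: β ∧ β ≠ [] ∧ ∀ d ∈ β, ¬ Grow G d

/-- the invariant of the induction -/
def Inv (G : A → List A) (ρ : ℕ) (y y' : ℤ → A) (m m' j : ℤ) : Prop :=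
  (FGp G y m ∧ FGp G y' m' ∧ ∃ g, m ≤ g ∧ g < j ∧ Grow G (y g)) ∨
  (∃ b g, m ≤ b + ρ ∧ (∀ i, b ≤ i → i < b + 2 * ρ → ¬ Grow G (y i)) ∧ b + 2 * ρ ≤ g ∧ g < j ∧
    Grow G (y g)) ∨
  ρ ≤ gc (ET G) y m j ∨
  (∃ (t : ℕ) (u v g : ℤ), 1 ≤ t ∧ u ≤ v ∧ u + 2 * ρ ≤ v + t ∧ m + t * ρ ≤ u - 1 ∧
    (∀ i, u ≤ i → i < v → ¬ Grow G (y i)) ∧ (LinL G (y v) ∨ LinR G (y (u - 1))) ∧
    v ≤ g ∧ g < j ∧ Grow G (y g)) ∨
  (∃ b g, m + (2 * ρ + 1) * ρ + 1 ≤ b ∧ b < g ∧ g < j ∧ Grow G (y g) ∧ Grow G (y b) ∧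
    ¬ ET G (y b))

theorem Inv.lt {G : A → List A} {ρ : ℕ} (h0 : 1 ≤ ρ) {y y' : ℤ → A} {m m' j : ℤ}
    (h : Inv G ρ y y' m m' j) : m < j := by
  rcases h with ⟨-, -, g, h⟩ | ⟨b, g, h⟩ | h | ⟨t, u, v, g, h⟩ | ⟨b, g, h⟩
  · omega
  · omega
  · have := gc_le (ET G) y m j; omega
  · have : (0 : ℤ) ≤ t * ρ := by positivity
    omega
  · have : (0 : ℤ) ≤ (2 * ρ + 1) * ρ := by positivity
    omega

theorem inv_start {G : A → List A} {ρ : ℕ} {y y' : ℤ → A} {m m' j : ℤ}
    (h : ρ + (2 * ρ + 1) * ρ + 3 ≤ gc (Grow G) y m j) : Inv G ρ y y' m m' j := by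
  by_cases h3 : ρ ≤ gc (ET G) y m j
  · exact Or.inr (Or.inr (Or.inl h3))
  refine Or.inr (Or.inr (Or.inr (Or.inr ?_)))
  obtain ⟨N, hN⟩ : ∃ N : ℕ, N = (2 * ρ + 1) * ρ := ⟨_, rfl⟩
  have hN' : (2 * (ρ : ℤ) + 1) * ρ = N := by rw [hN]; push_cast; ring
  rw [hN']
  rw [← hN] at h
  have e0 := gc_le (Grow G) y m j
  have e1 := gc_add (Grow G) y (a := m) (b := m + N + 1) (c := j) (by omega) (by omega)
  have e2 := gc_le (Grow G) y m (m + N + 1)
  obtain ⟨i, i1, i2, i3⟩ := gc_pos.1 (show 0 < gc (Grow G) y (m + N + 1) j by omega)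
  obtain ⟨g, g1, g2, g3, g4⟩ := exists_last (P := fun i => Grow G (y i)) (a := i) (b := j - 1)
    (by omega) i3
  have e3 := gc_add (Grow G) y (a := m + N + 1) (b := g) (c := j) (by omega) (by omega)
  have e4 := gc_add (Grow G) y (a := g) (b := g + 1) (c := j) (by omega) (by omega)
  have e5 := gc_le (Grow G) y g (g + 1)
  have e6 : gc (Grow G) y (g + 1) j = 0 := by
    by_contra hc
    obtain ⟨k, k1, k2, k3⟩ := gc_pos.1 (Nat.pos_of_ne_zero hc)
    exact g4 k (by omega) (by omega) k3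
  by_contra hc
  push Not at hc
  have e7 := gc_mono_prop (g := Grow G) (g' := ET G) (y := y) (a := m + N + 1) (b := g)
    (fun b b1 b2 b3 => hc b g b1 b2 (by omega) g3 b3)
  have e8 := gc_mono (ET G) y (a := m) (b := j) (a' := m + N + 1) (b' := g) (by omega) (by omega)
  omega

variable [Fintype A] {G : A → List A} {y y' y1 y1' : ℤ → A} {φ φ' : ℤ → ℤ}

theorem fgp_child (hG : Norm G) (h : Parse G y1 y φ) {m m1 : ℤ} (h1 : φ m ≤ m1)
    (hf : ∀ p, φ m ≤ p → p < m1 → ¬ Grow G (y1 p)) : FGp G y1 m1 := by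
  intro g g1 g2 g3
  obtain ⟨i, i1, i2⟩ := h.tile hG.ne g
  have : m < i + 1 := h.lt_of_lt (by omega)
  have := h.mono (i := m) (j := i) (by omega)
  refine hG.fg _ _ (h.fg_of i1 i2 (fun q q1 q2 => ?_) g3)
  rcases lt_or_ge q m1 with hq | hq
  · exact hf q (by omega) hq
  · exact g2 q hq q2

theorem first_grow (hG : Norm G) (h : Parse G y1 y φ) {m g : ℤ} (h1 : m ≤ g)
    (hf : ∀ i, m ≤ i → i < g → ¬ Grow G (y i)) (hg : Grow G (y g)) :
    ∃ g1, φ g ≤ g1 ∧ g1 < φ (g + 1) ∧ Grow G (y1 g1) ∧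
      ∀ p, φ m ≤ p → p < g1 → ¬ Grow G (y1 p) := by
  obtain ⟨p, p1, p2, p3⟩ := h.grow_child hG.self g
  obtain ⟨c, c1, c2, c3, c4⟩ := exists_first (P := fun i => Grow G (y1 i)) p1 (p3 ▸ hg)
  refine ⟨c, c1, by omega, c3, fun q q1 q2 => ?_⟩
  rcases lt_or_ge q (φ g) with hq | hq
  · have e := h.fixed_cut hf g h1 le_rfl
    rw [h.fixed_val hf q q1 (by omega)]
    exact hf _ (by omega) (by omega)
  · exact c4 q hq q2

theorem inactive (hG : Norm G) (h : Parse G y1 y φ) (h' : Parse G y1' y' φ') {m m' m1 s : ℤ}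
    (hs : φ' m' = φ m + s) (hne : y m ≠ y' m') (ha : ∀ p, φ m ≤ p → p < m1 → y1' (p + s) = y1 p)
    (f1 : FGp G y m) (f2 : FGp G y' m') {g g1 : ℤ} (h1 : m ≤ g)
    (hf : ∀ i, m ≤ i → i < g → ¬ Grow G (y i)) (hg : Grow G (y g)) (a1 : φ g ≤ g1)
    (a2 : g1 < φ (g + 1)) (a3 : Grow G (y1 g1)) (a4 : ∀ p, φ m ≤ p → p < g1 → ¬ Grow G (y1 p)) :
    m1 ≤ g1 := by
  by_contra hc
  have mg := h.mono h1
  obtain ⟨i, i1, i2⟩ := h'.tile hG.ne (g1 + s)
  have mi : m' < i + 1 := h'.lt_of_lt (by omega)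
  have mi2 := h'.mono (i := m') (j := i) (by omega)
  have b0 : y1' (g1 + s) = y1 g1 := ha g1 (by omega) (by omega)
  have b1 : ∀ p, φ' m' ≤ p → p < g1 + s → ¬ Grow G (y1' p) := by
    intro p p1 p2
    have := ha (p - s) (by omega) (by omega)
    rw [sub_add_cancel] at this
    rw [this]; exact a4 _ (by omega) (by omega)
  have b2 : Grow G (y' i) := h'.grow_parent i1 i2 (b0 ▸ a3)
  have b3 : ∀ k, m' ≤ k → k < i → ¬ Grow G (y' k) := by
    intro k k1 k2 hk
    obtain ⟨p, p1, p2, p3⟩ := h'.grow_child hG.self k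
    have := h'.mono k1
    have := h'.mono (i := k + 1) (j := i) (by omega)
    exact b1 p (by omega) (by omega) (p3 ▸ hk)
  have c1 := (f1 g h1 hf hg).unique (h.fg_of a1 a2 (fun q q1 q2 => a4 q (by omega) q2) a3)
  have c2 := (f2 i (by omega) b3 b2).unique
    (h'.fg_of i1 i2 (fun q q1 q2 => b1 q (by omega) q2) (b0 ▸ a3))
  have c3 : y' i = y g := by rw [c1, c2, b0]
  have s1 := h.step g
  have s2 := h'.step i
  have d : g1 - φ g = g1 + s - φ' i := by
    rcases lt_trichotomy (g1 - φ g) (g1 + s - φ' i) with d | d | d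
    · have e1 := h.get? g g1 a1 a2
      have e2 := h'.get? i (φ' i + (g1 - φ g)) (by omega) (by omega)
      rw [c3, show φ' i + (g1 - φ g) - φ' i = g1 - φ g by ring, e1] at e2
      exact (b1 _ (by omega) (by omega) (Option.some.inj e2 ▸ a3)).elim
    · exact d
    · have e1 := h'.get? i (g1 + s) i1 i2
      have e2 := h.get? g (φ g + (g1 + s - φ' i)) (by omega) (by omega)
      rw [← c3, show φ g + (g1 + s - φ' i) - φ g = g1 + s - φ' i by ring, e1] at e2
      exact (a4 _ (by omega) (by omega) (Option.some.inj e2 ▸ b0 ▸ a3)).elim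
  have e1 := h.fixed_cut hf g h1 le_rfl
  have e2 := h'.fixed_cut b3 i (by omega) le_rfl
  by_cases hm : g = m
  · exact hne (by rw [← hm, ← c3]; congr 1; omega)
  · have e3 := (h.fixed (hf m le_rfl (by omega))).2
    have e4 := (h'.fixed (b3 m' le_rfl (by omega))).2
    exact hne (by rw [← e3, ← e4, hs, ha _ le_rfl (by omega)])

theorem ET.child (hG : Norm G) {c : A} (hc : ET G c) : 2 ≤ cp (ET G) (G c) :=
  le_trans (hc.2 c (hG.self c) hc.1) (cp_mono fun _ hb hg =>
    ⟨hg, fun d hd => hc.2 d (hG.alph _ _ _ hb hd)⟩)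

theorem lin_of (hG : Norm G) {c : A} (h1 : Grow G c) (h2 : ¬ 2 ≤ cp (Grow G) (G c)) :
    LinL G c ∨ LinR G c := by
  obtain ⟨α, β, e⟩ := List.append_of_mem (hG.self c)
  rw [e, cp_append, cp_cons_pos h1] at h2
  have a1 := cp_eq_zero.1 (show cp (Grow G) α = 0 by omega)
  have a2 := cp_eq_zero.1 (show cp (Grow G) β = 0 by omega)
  by_cases hα : α = []
  · refine Or.inr ⟨α, β, e, fun hβ => h1 ?_, a2⟩
    rw [e, hα, hβ]; rfl
  · exact Or.inl ⟨α, β, e, hα, a1⟩

theorem Inv.step (hG : Norm G) {ρ : ℕ} (h0 : 1 ≤ ρ) (h : Parse G y1 y φ) (h' : Parse G y1' y' φ')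
    {m m' m1 s j : ℤ} (hs : φ' m' = φ m + s) (hne : y m ≠ y' m') (b1 : φ m ≤ m1)
    (b2 : m1 < φ m + ρ) (ha : ∀ p, φ m ≤ p → p < m1 → y1' (p + s) = y1 p)
    (hI : Inv G ρ y y' m m' j) : Inv G ρ y1 y1' m1 (m1 + s) (φ j) := by
  have inact : ∀ g g1, g < j → g1 < φ (g + 1) → Grow G (y1 g1) →
      (∀ p, φ m ≤ p → p < g1 → ¬ Grow G (y1 p)) → m1 ≤ g1 →
      Inv G ρ y1 y1' m1 (m1 + s) (φ j) := by
    intro g g1 c1 c2 c3 c4 c5
    have := h.mono (i := g + 1) (j := j) (by omega)
    refine Or.inl ⟨fgp_child hG h b1 (fun p p1 p2 => c4 p p1 (by omega)),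
      fgp_child hG h' (m := m') (by omega) (fun p p1 p2 => ?_), g1, c5, by omega, c3⟩
    have := ha (p - s) (by omega) (by omega)
    rw [sub_add_cancel] at this
    rw [this]; exact c4 _ (by omega) (by omega)
  have child : ∀ g, g < j → Grow G (y g) → ∃ g1, φ g ≤ g1 ∧ g1 < φ j ∧ Grow G (y1 g1) := by
    intro g c1 c2
    obtain ⟨p, p1, p2, p3⟩ := h.grow_child hG.self g
    have := h.mono (i := g + 1) (j := j) (by omega)
    exact ⟨p, p1, by omega, p3 ▸ c2⟩
  rcases hI with ⟨f1, f2, g0, c1, c2, c3⟩ | ⟨b, g, c1, c2, c3, c4, c5⟩ | c |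
    ⟨t, u, v, g, c0, c1, c2, c3, c4, c5, c6, c7, c8⟩ | ⟨b, g, c1, c2, c3, c4, c5, c6⟩
  · obtain ⟨g, d1, d2, d3, d4⟩ := exists_first (P := fun i => Grow G (y i)) c1 c3
    obtain ⟨g1, a1, a2, a3, a4⟩ := first_grow hG h d1 d4 d3
    exact inact g g1 (by omega) a2 a3 a4 (inactive hG h h' hs hne ha f1 f2 d1 d4 d3 a1 a2 a3 a4)
  · rcases le_or_gt b m with hb | hb
    · obtain ⟨g', d1, d2, d3, d4⟩ := exists_first (P := fun i => Grow G (y i)) (a := m) (b := g)
        (by omega) c5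
      obtain ⟨g1, a1, a2, a3, a4⟩ := first_grow hG h d1 d4 d3
      have : m + ρ ≤ g' := by
        by_contra hc
        exact c2 g' (by omega) (by omega) d3
      have := h.le_add hG.ne d1
      exact inact g' g1 (by omega) a2 a3 a4 (by omega)
    · obtain ⟨g1, a1, a2, a3⟩ := child g c4 c5
      have e1 := h.mono hb.le
      have e2 := h.le_add hG.ne (i := b) (j := g) (by omega)
      refine Or.inr (Or.inl ⟨φ b, g1, by omega, fun p p1 p2 => ?_, by omega, a2, a3⟩)
      rw [h.fixed_val c2 p p1 (by omega)]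
      exact c2 _ (by omega) (by omega)
  · refine Or.inr (Or.inr (Or.inl ?_))
    have e1 := h.gc_ge (g := ET G) (g' := ET G) (fun c hc => ET.child hG hc) m j
    have e2 := gc_le (ET G) y1 (φ m) m1
    have e3 := gc_le (ET G) y1 (φ m) (φ j)
    have e4 := gc_add (ET G) y1 (a := φ m) (b := m1) (c := φ j) b1 (by omega)
    omega
  · obtain ⟨g1, a1, a2, a3⟩ := child g c7 c8
    have t0 : (0 : ℤ) ≤ t * ρ := by positivity
    have e1 := h.le_add hG.ne (i := m) (j := u - 1) (by omega)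
    have e2 := h.fixed_cut c4 v c1 le_rfl
    have e3 := h.lt hG.ne (i := u - 1) (j := u) (by omega)
    have e4 := h.mono c6
    have key : ∃ u1 v1, φ (u - 1) ≤ u1 - 1 ∧ u1 ≤ φ v ∧ u1 + (v - u) + 1 ≤ v1 ∧
        (∀ i, u1 ≤ i → i < v1 → ¬ Grow G (y1 i)) ∧ (LinL G (y1 v1) ∨ LinR G (y1 (u1 - 1))) := by
      have hf : ∀ p, φ u ≤ p → p < φ v → ¬ Grow G (y1 p) := by
        intro p p1 p2
        rw [h.fixed_val c4 p p1 (by omega)]
        exact c4 _ (by omega) (by omega)
      rcases c5 with ⟨α, β, e, n1, n2⟩ | ⟨α, β, e, n1, n2⟩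
      · obtain ⟨d1, d2, d3, d4⟩ := h.decomp_at e
        have := List.length_pos_iff.2 n1
        refine ⟨φ u, φ v + α.length, by omega, by omega, by omega, fun p p1 p2 => ?_,
          Or.inl (d1 ▸ ⟨α, β, e, n1, n2⟩)⟩
        rcases lt_or_ge p (φ v) with hp | hp
        · exact hf p p1 hp
        · exact n2 _ (d3 p hp p2)
      · obtain ⟨d1, d2, d3, d4⟩ := h.decomp_at e
        rw [sub_add_cancel] at d2 d4
        have := List.length_pos_iff.2 n1
        refine ⟨φ (u - 1) + α.length + 1, φ v, by omega, by omega, by omega, fun p p1 p2 => ?_,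
          Or.inr (by rw [add_sub_cancel_right, d1]; exact ⟨α, β, e, n1, n2⟩)⟩
        rcases lt_or_ge p (φ u) with hp | hp
        · exact n2 _ (d4 p (by omega) hp)
        · exact hf p hp p2
    obtain ⟨u1, v1, k1, k2, k3, k4, k5⟩ := key
    have k6 : v1 ≤ g1 := by
      by_contra hc
      exact k4 g1 (by omega) (by omega) a3
    obtain ⟨t, rfl⟩ : ∃ t', t = t' + 1 := ⟨t - 1, by omega⟩
    push_cast at c2 c3
    rw [add_mul] at c3
    rcases Nat.eq_zero_or_pos t with rfl | ht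
    · refine Or.inr (Or.inl ⟨u1, g1, by omega, fun i i1 i2 => k4 i i1 (by omega), by omega, a2, a3⟩)
    · exact Or.inr (Or.inr (Or.inr (Or.inl ⟨t, u1, v1, g1, ht, by omega, by omega, by omega,
        k4, k5, k6, a2, a3⟩)))
  · obtain ⟨g1, a1, a2, a3⟩ := child g c3 c4
    have : ∃ c ∈ G (y b), Grow G c ∧ ¬ 2 ≤ cp (Grow G) (G c) := by
      by_contra hc
      push Not at hc
      exact c6 ⟨c5, hc⟩
    obtain ⟨c, d1, d2, d3⟩ := this
    obtain ⟨w, w1, w2, w3⟩ := h.exists_of_mem d1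
    have t0 : (0 : ℤ) ≤ (2 * ρ + 1) * ρ := by positivity
    have e1 := h.le_add hG.ne (i := m) (j := b) (by omega)
    have e2 := h.mono (i := b + 1) (j := g) (by omega)
    rw [add_mul] at c1
    rcases lin_of hG d2 d3 with l | l
    · exact Or.inr (Or.inr (Or.inr (Or.inl ⟨2 * ρ, w, w, g1, by omega, le_rfl, by omega,
        by push_cast; omega, by omega, Or.inl (w3 ▸ l), by omega, a2, a3⟩)))
    · exact Or.inr (Or.inr (Or.inr (Or.inl ⟨2 * ρ, w + 1, w + 1, g1, by omega, le_rfl, by omega,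
        by push_cast; omega, by omega, Or.inr (by rw [add_sub_cancel_right, w3]; exact l),
        by omega, a2, a3⟩)))

end U

variable [Fintype A]

theorem Elem.mismatch {σ : A → List B} (he : Elem σ) : ∃ ρ : ℕ, 1 ≤ ρ ∧ ∀ {x x' : ℤ → B}
    {y y' : ℤ → A} {f f' : ℤ → ℤ} {m m' s : ℤ}, Parse σ x y f → Parse σ x' y' f' →
    f' m' = f m + s → y m ≠ y' m' → ∃ m1, f m ≤ m1 ∧ m1 < f m + ρ ∧ x' (m1 + s) ≠ x m1 ∧
      ∀ p, f m ≤ p → p < m1 → x' (p + s) = x p := by
  obtain ⟨ρ, hρ⟩ := he.delay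
  refine ⟨ρ + 1, by omega, fun {x x' y y' f f' m m' s} h h' hs hne => ?_⟩
  have : ∃ p, f m ≤ p ∧ p < f m + ρ ∧ x' (p + s) ≠ x p := by
    by_contra hc
    push Not at hc
    exact hne (by
      simpa using hρ (i := m) (i' := m') h (h'.shift s 0) (by simp [hs])
        (fun p p1 p2 => (hc p p1 p2).symm))
  obtain ⟨p, p1, p2, p3⟩ := this
  obtain ⟨c, c1, c2, c3, c4⟩ := exists_first (P := fun p => x' (p + s) ≠ x p) p1 p3
  exact ⟨c, c1, by push_cast; omega, c3, fun q q1 q2 => not_not.1 (c4 q q1 q2)⟩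

/-- uniform bounded delay -/
theorem Norm.lemU {G : A → List A} (hG : Norm G) : ∃ ρ : ℕ, ∀ (k : ℕ) {x x' y y' : ℤ → A}
    {F F' : ℤ → ℤ} {m m' j s : ℤ}, Parse (pw G k) x y F → Parse (pw G k) x' y' F' →
    F' m' = F m + s → y m ≠ y' m' → ρ ≤ gc (Grow G) y m j →
    ∃ p, F m ≤ p ∧ p < F j ∧ x' (p + s) ≠ x p := by
  obtain ⟨ρ, h0, hρ⟩ := hG.elem1.mismatch
  suffices H : ∀ (k : ℕ) {x x' y y' : ℤ → A} {F F' : ℤ → ℤ} {m m' j s : ℤ},
      Parse (pw G k) x y F → Parse (pw G k) x' y' F' → F' m' = F m + s → y m ≠ y' m' →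
      U.Inv G ρ y y' m m' j → ∃ p, F m ≤ p ∧ p < F j ∧ x' (p + s) ≠ x p from
    ⟨ρ + (2 * ρ + 1) * ρ + 3, fun k x x' y y' F F' m m' j s h h' hs hne hc =>
      H k h h' hs hne (U.inv_start hc)⟩
  intro k
  induction k with
  | zero =>
    intro x x' y y' F F' m m' j s h h' hs hne hI
    have e1 := h.of_single m
    have e2 := h'.of_single m'
    refine ⟨F m, le_rfl, h.lt (hG.ne.pw 0) (hI.lt h0), ?_⟩
    rw [← hs, e1.1, e2.1, e1.2, e2.2]
    exact hne.symm
  | succ k ih =>
    intro x x' y y' F F' m m' j s h h' hs hne hI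
    rw [show pw G (k + 1) = fun a => app (pw G k) (G a) from funext (pw_succ G k)] at h h'
    obtain ⟨y1, F1, φ, a1, a2, a3⟩ := h.decomp (hG.ne.pw k) hG.ne
    obtain ⟨y1', F1', φ', a1', a2', a3'⟩ := h'.decomp (hG.ne.pw k) hG.ne
    obtain ⟨m1, b1, b2, b3, b4⟩ := hρ (s := φ' m' - φ m) a2 a2' (by simp) hne
    have e := a1.cuts_right a1' (c := φ m) (b := m1) (s := s) b4
      (by rw [add_sub_cancel, ← a3, ← a3', hs]) m1 b1 le_rfl
    obtain ⟨p, p1, p2, p3⟩ := ih a1 a1' e b3.symm (hI.step hG h0 a2 a2' (by simp) hne b1 b2 b4)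
    exact ⟨p, by rw [a3]; exact le_trans (a1.mono b1) p1, by rw [a3]; exact p2, p3⟩

end Pool.Agent.P.MP_1e185c_lc

/-! Marked normalized D0L systems and their limit language. -/

set_option autoImplicit false
set_option linter.unusedSectionVars false

namespace Pool.Agent.P.MP_1e185c_lc

open Filter

variable {A B : Type}

theorem parse_pad {σ : A → List B} (hσ : NE σ) (o : A) (Y : List A) :
    ∃ x f, Parse σ x (pad o Y) f ∧ f 0 = 0 ∧ f Y.length = (app σ Y).length ∧
      seg x 0 (app σ Y).length = app σ Y := by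
  obtain ⟨x, f, h, h0⟩ := exists_parse hσ (pad o Y) 0 0
  have := h.add 0 Y.length
  rw [seg_pad, h0] at this
  exact ⟨x, f, h, h0, by simpa using this.1, this.2⟩

theorem Parse.fg_last {σ : A → List B} (hσ : NE σ) {x : ℤ → B} {y : ℤ → A} {f : ℤ → ℤ}
    (h : Parse σ x y f) (i : ℤ) : FG (fun _ => True) (σ (y i)).reverse (x (f (i + 1) - 1)) := by
  have h1 := h.step i
  have h2 := h.lett i
  have h3 := hσ.pos (y i)
  obtain ⟨n, hn⟩ : ∃ n, (σ (y i)).length = n + 1 := ⟨(σ (y i)).length - 1, by omega⟩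
  rw [hn, seg_succ] at h2
  refine ⟨[], (seg x (f i) n).reverse, ?_, by simp, trivial⟩
  rw [← h2]; simp; congr 1; omega

/-- a cover of a word by as many tiles as it has letters -/
def Tight (G : A → List A) (z W : List A) : Prop :=
  W.length = z.length ∧ ∀ k (hk : k < z.length) (hk' : k < W.length),
    (0 < k → FG (fun _ => True) (G W[k]) z[k]) ∧
    (k + 1 < z.length → FG (fun _ => True) (G W[k]).reverse z[k])

theorem cover {σ : A → List B} (hσ : NE σ) {z : List B} {Y : List A} (hz : z ≠ [])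
    (h : z <:+: app σ Y) : ∃ (x : ℤ → B) (y : ℤ → A) (f : ℤ → ℤ) (i p : ℤ) (n : ℕ),
      Parse σ x y f ∧ seg y i n <:+: Y ∧ seg x p z.length = z ∧ f i ≤ p ∧ p < f (i + 1) ∧
      1 ≤ n ∧ f (i + n - 1) < p + z.length ∧ p + z.length ≤ f (i + n) := by
  have hY : Y ≠ [] := by rintro rfl; simp at h; exact hz h
  obtain ⟨x, f, hp, h0, h1, h2⟩ := parse_pad hσ (Y.head hY) Y
  rw [← h2] at h
  obtain ⟨p, p1, p2, p3⟩ := infix_seg h
  have := List.length_pos_iff.2 hz
  obtain ⟨i, i1, i2⟩ := hp.tile hσ p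
  obtain ⟨j, j1, j2⟩ := hp.tile hσ (p + z.length - 1)
  have a1 : 0 < i + 1 := hp.lt_of_lt (by omega)
  have a2 : j < Y.length := hp.lt_of_lt (by omega)
  have a3 : i < j + 1 := hp.lt_of_lt (by omega)
  refine ⟨x, _, f, i, p, (j + 1 - i).toNat, hp, ?_, p3, i1, i2, by omega, ?_, ?_⟩
  · conv_rhs => rw [← seg_pad (Y.head hY) Y]
    exact seg_infix _ (by omega) (by omega)
  · rw [show i + (j + 1 - i).toNat - 1 = j by omega]; omega
  · rw [show i + (j + 1 - i).toNat = j + 1 by omega]; omega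

theorem cover_len {σ : A → List B} (hσ : NE σ) {z : List B} {Y : List A}
    (h : z <:+: app σ Y) : ∃ W, W <:+: Y ∧ z <:+: app σ W ∧ W.length ≤ z.length := by
  by_cases hz : z = []
  · exact ⟨[], by simp, by simp [hz], by simp⟩
  obtain ⟨x, y, f, i, p, n, hp, h1, h2, h3, h4, h5, h6, h7⟩ := cover hσ hz h
  refine ⟨_, h1, ?_, ?_⟩
  · obtain ⟨a1, a2⟩ := hp.add i n
    rw [← a2, ← h2]
    exact seg_infix _ h3 (by omega)
  · have := List.length_pos_iff.2 hz
    rcases eq_or_lt_of_le h5 with h | h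
    · simp; omega
    · have := hp.le_add hσ (i := i + 1) (j := i + n - 1) (by omega)
      simp; omega

theorem cover_tight {G : A → List A} (hσ : NE G) {z Y : List A} (hz : z ≠ [])
    (h : z <:+: app G Y) : ∃ W, W <:+: Y ∧ z <:+: app G W ∧ (W.length < z.length ∨ Tight G z W) := by
  obtain ⟨x, y, f, i, p, n, hp, h1, h2, h3, h4, h5, h6, h7⟩ := cover hσ hz h
  refine ⟨_, h1, ?_, ?_⟩
  · obtain ⟨a1, a2⟩ := hp.add i n
    rw [← a2, ← h2]
    exact seg_infix _ h3 (by omega)
  by_cases hl : n < z.length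
  · left; simpa using hl
  right
  have := List.length_pos_iff.2 hz
  have key : ∀ k : ℕ, 0 < k → k < n → f (i + k) = p + k ∧ n = z.length := by
    intro k k1 k2
    have := hp.le_add hσ (i := i + 1) (j := i + k) (by omega)
    have := hp.le_add hσ (i := i + k) (j := i + n - 1) (by omega)
    omega
  have hn : n = z.length := by
    rcases eq_or_lt_of_le h5 with h | h
    · omega
    · exact (key 1 (by omega) h).2
  refine ⟨by simpa using hn, fun k hk hk' => ⟨fun k0 => ?_, fun k1 => ?_⟩⟩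
  · have e := (key k k0 (by omega)).1
    rw [seg_getElem, ← seg_eq_iff.1 h2 k hk, ← e]
    exact hp.fg_of le_rfl (hp.lt hσ (by omega)) (by intros; omega) trivial
  · have e := (key (k + 1) (by omega) (by omega)).1
    have := hp.fg_last hσ (i + k)
    rw [seg_getElem, ← seg_eq_iff.1 h2 k hk]
    rwa [show f (i + k + 1) - 1 = p + k by push_cast at e; rw [add_assoc, e]; ring] at this

theorem grow_len {G : A → List A} (h : ∀ a, a ∈ G a) {a : A} (ha : Grow G a) (n : ℕ) :
    n + 1 ≤ (pw G n a).length := by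
  induction n with
  | zero => simp [pw_zero]
  | succ n ih =>
    obtain ⟨α, β, e⟩ := List.append_of_mem (h a)
    have h2 := ha.two h
    have h3 := ((self_ne h).pw n).le_app α
    have h4 := ((self_ne h).pw n).le_app β
    rw [pw_succ, e]
    rw [e] at h2
    simp at h2 ⊢
    omega

variable [Fintype A]

theorem Norm.stable {G : A → List A} (hG : Norm G) (y0 : List A) (l : ℕ) : ∀ (z : List A) (n : ℕ),
    z.length ≤ l → 2 * l ≤ n → z <:+: it G n y0 → z <:+: it G (n + 1) y0 := by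
  induction l with
  | zero => intro z n h _ _; simp at h; simp [h]
  | succ l ih =>
    intro z n h1 h2 h3
    by_cases hz : z.length ≤ l
    · exact ih z n hz (by omega) h3
    rcases Nat.eq_zero_or_pos l with rfl | hl
    · obtain ⟨a, rfl⟩ := List.length_eq_one_iff.1 (show z.length = 1 by omega)
      rw [it_succ']
      refine List.IsInfix.trans ?_ (app_infix h3)
      rw [app_singleton]
      exact (List.singleton_infix_iff _ _).2 (hG.self a)
    obtain ⟨n, rfl⟩ : ∃ m, n = m + 2 := ⟨n - 2, by omega⟩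
    have h3' := h3
    rw [it_succ'] at h3
    obtain ⟨W, w1, w2, w3⟩ := cover_tight hG.ne (List.length_pos_iff.1 (by omega)) h3
    rw [it_succ']
    refine w2.trans (app_infix ?_)
    rcases w3 with w3 | w3
    · exact ih W _ (by omega) (by omega) w1
    rw [it_succ'] at w1
    obtain ⟨W', v1, v2, v3⟩ := cover_tight hG.ne (List.length_pos_iff.1 (by have := w3.1; omega)) w1
    rcases v3 with v3 | v3
    · rw [it_succ']
      exact v2.trans (app_infix (ih W' _ (by have := w3.1; omega) (by omega) v1))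
    · have : W = z := by
        apply List.ext_getElem w3.1
        intro k k1 k2
        have k3 : k < W'.length := by have := v3.1; omega
        rcases Nat.eq_zero_or_pos k with rfl | k0
        · exact (hG.last _ _ ((v3.2 0 k1 k3).2 (by have := w3.1; omega))).unique
            ((w3.2 0 k2 k1).2 (by omega))
        · exact (hG.first _ _ ((v3.2 k k1 k3).1 k0)).unique ((w3.2 k k2 k1).1 k0)
      exact this ▸ h3'

theorem Norm.ev_of_freq {G : A → List A} (hG : Norm G) {y0 z : List A}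
    (h : ∃ᶠ n in atTop, z <:+: it G n y0) : ∀ᶠ n in atTop, z <:+: it G n y0 := by
  obtain ⟨n, h1, h2⟩ := (h.and_eventually (eventually_ge_atTop (2 * z.length))).exists
  refine eventually_atTop.2 ⟨n, fun m hm => ?_⟩
  induction m, hm using Nat.le_induction with
  | base => exact h1
  | succ m hm ih => exact hG.stable y0 _ z m le_rfl (by omega) ih

/-- a normalized system whose start word is enclosed by a growing marker -/
structure Sys (G : A → List A) (y0 : List A) (o : A) : Prop where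
  norm : Norm G
  mark : ∀ c ∈ G o, c = o
  grow : Grow G o
  left : [o] <+: y0
  right : [o] <:+ y0

namespace Sys

variable {G : A → List A} {y0 : List A} {o : A}

theorem rev (S : Sys G y0 o) : Sys (fun a => (G a).reverse) y0.reverse o where
  norm := S.norm.rev
  mark := by simpa using S.mark
  grow := by rw [grow_rev]; exact S.grow
  left := by rw [← List.reverse_suffix]; simpa using S.right
  right := by rw [← List.reverse_prefix]; simpa using S.left

theorem mark_pw (S : Sys G y0 o) (n : ℕ) : ∀ c ∈ pw G n o, c = o :=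
  fun c hc => S.mark c (S.norm.mem_pw hc)

theorem rep_pw (S : Sys G y0 o) (n : ℕ) : pw G n o = List.replicate (pw G n o).length o :=
  List.eq_replicate_iff.2 ⟨rfl, S.mark_pw n⟩

theorem pw_pre (S : Sys G y0 o) (n : ℕ) : pw G n o <+: it G n y0 := by
  obtain ⟨t, rfl⟩ := S.left
  rw [it_append]; exact List.prefix_append _ _

theorem pw_suf (S : Sys G y0 o) (n : ℕ) : pw G n o <:+ it G n y0 := by
  obtain ⟨t, rfl⟩ := S.right
  rw [it_append]; exact List.suffix_append _ _

theorem pow (S : Sys G y0 o) {p : ℕ} (hp : 1 ≤ p) (r : ℕ) : Sys (pw G p) (it G r y0) o where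
  norm := S.norm.pow hp
  mark := S.mark_pw p
  grow := by rw [grow_pw S.norm.self hp]; exact S.grow
  left := by
    refine List.IsPrefix.trans ?_ (S.pw_pre r)
    have := grow_len S.norm.self S.grow r
    rw [S.rep_pw, show (pw G r o).length = 1 + ((pw G r o).length - 1) by omega,
      List.replicate_add]
    exact List.prefix_append _ _
  right := by
    refine List.IsSuffix.trans ?_ (S.pw_suf r)
    have := grow_len S.norm.self S.grow r
    rw [S.rep_pw, show (pw G r o).length = ((pw G r o).length - 1) + 1 by omega,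
      List.replicate_add]
    exact List.suffix_append _ _

theorem it_rev (G : A → List A) (n : ℕ) (w : List A) :
    it (fun a => (G a).reverse) n w.reverse = (it G n w).reverse := by
  rw [← app_pw, ← app_pw, pw_rev, app_reverse]

theorem extR (S : Sys G y0 o) {w : List A} (hw : ∀ᶠ n in atTop, w <:+: it G n y0) :
    ∃ a, ∀ᶠ n in atTop, w ++ [a] <:+: it G n y0 := by
  have : ∀ᶠ n in atTop, ∃ a, w ++ [a] <:+: it G n y0 := by
    filter_upwards [hw, eventually_ge_atTop w.length] with n ⟨s, t, h⟩ hn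
    cases t with
    | cons a t => exact ⟨a, s, t, by simpa using h⟩
    | nil =>
      have h1 := grow_len S.norm.self S.grow n
      have h2 : w <:+ pw G n o :=
        List.suffix_of_suffix_length_le ⟨s, by simpa using h⟩ (S.pw_suf n) (by omega)
      have h3 : w = List.replicate w.length o :=
        List.eq_replicate_iff.2 ⟨rfl, fun c hc => S.mark_pw n c (h2.subset hc)⟩
      refine ⟨o, List.IsInfix.trans ?_ (S.pw_suf n).isInfix⟩
      rw [h3, ← List.replicate_succ', S.rep_pw,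
        show (pw G n o).length = (w.length + 1) + ((pw G n o).length - w.length - 1) by omega,
        List.replicate_add (w.length + 1) ((pw G n o).length - w.length - 1)]
      exact (List.prefix_append _ _).isInfix
  by_contra hc
  push Not at hc
  have h2 : ∀ a, ∀ᶠ n in atTop, ¬ w ++ [a] <:+: it G n y0 := by
    intro a
    by_contra h3
    exact (hc a).and_eventually (S.norm.ev_of_freq h3) |>.exists.elim
      fun n hn => hn.1 hn.2
  obtain ⟨n, ⟨a, h3⟩, h4⟩ := (this.and (eventually_all.2 h2)).exists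
  exact h4 a h3

/-- the words occurring at all large times -/
def lang (S : Sys G y0 o) : Lang A where
  L := {z | ∀ᶠ n in atTop, z <:+: it G n y0}
  fac h hw := hw.mono fun _ hn => h.trans hn
  extR _ hw := S.extR hw
  extL w hw := by
    obtain ⟨a, ha⟩ := S.rev.extR (w := w.reverse)
      (hw.mono fun n hn => by rw [it_rev]; exact List.reverse_infix.2 hn)
    refine ⟨a, ha.mono fun n hn => ?_⟩
    rw [it_rev, ← List.reverse_infix] at hn
    simpa using hn
  fin := Set.toFinite _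

theorem lang_rev (S : Sys G y0 o) : S.rev.lang = S.lang.rev := by
  simp only [lang, Lang.rev]
  congr 1
  ext z
  simp only [Set.mem_ofPred_eq, it_rev]
  refine eventually_congr (Eventually.of_forall fun n => ?_)
  rw [← List.reverse_infix, List.reverse_reverse]

theorem lang_pow (S : Sys G y0 o) {p : ℕ} (hp : 1 ≤ p) (r : ℕ) : (S.pow hp r).lang = S.lang := by
  simp only [lang]
  congr 1
  ext z
  simp only [Set.mem_ofPred_eq, it_pw, ← it_add]
  have ht : Tendsto (fun n => n * p + r) atTop atTop :=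
    tendsto_atTop_mono (fun n => by simp only [id]; nlinarith) tendsto_id
  exact ⟨fun h => S.norm.ev_of_freq (ht.frequently h.frequently), fun h => ht.eventually h⟩

theorem mem_lang (S : Sys G y0 o) {z : List A} {n : ℕ} (h : z <:+: it G n y0)
    (hn : 2 * z.length ≤ n) : z ∈ S.lang.L := by
  refine eventually_atTop.2 ⟨n, fun m hm => ?_⟩
  induction m, hm using Nat.le_induction with
  | base => exact h
  | succ m hm ih => exact S.norm.stable y0 _ z m le_rfl (by omega) ih

theorem img_pw (S : Sys G y0 o) (k : ℕ) {w : List A} (hw : w ∈ S.lang.L) :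
    app (pw G k) w ∈ S.lang.L := by
  obtain ⟨N, hN⟩ := eventually_atTop.1 hw
  refine eventually_atTop.2 ⟨N + k, fun m hm => ?_⟩
  rw [show m = k + (m - k) by omega, it_add, app_pw]
  exact it_infix _ (hN _ (by omega))

theorem par_pw (S : Sys G y0 o) {σ : A → List B} (hσ : NE σ) {w : List B}
    (hw : ∃ᶠ n in atTop, w <:+: app σ (it G n y0)) : ∃ w' ∈ S.lang.L, w <:+: app σ w' := by
  obtain ⟨n, h1, h2⟩ := (hw.and_eventually (eventually_ge_atTop (2 * w.length))).exists
  obtain ⟨W, w1, w2, w3⟩ := cover_len hσ h1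
  exact ⟨W, S.mem_lang w1 (by omega), w2⟩

theorem pre (S : Sys G y0 o) (k : ℕ) : PreStep (pw G k) S.lang S.lang where
  elem := S.norm.elem k
  img _ hw := S.img_pw k hw
  par w hw := by
    refine S.par_pw (S.norm.ne.pw k) (Eventually.frequently ?_)
    obtain ⟨N, hN⟩ := eventually_atTop.1 hw
    refine eventually_atTop.2 ⟨N, fun m hm => ?_⟩
    rw [app_pw, ← it_add]; exact hN _ (by omega)

theorem pre1 (S : Sys G y0 o) : PreStep G S.lang S.lang := by
  have := S.pre 1; rwa [pw_one] at this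

/-- the image of the limit language under a nonerasing morphism -/
def imgLang (S : Sys G y0 o) {P : A → List B} (hP : NE P) : Lang B where
  L := {z | ∃ w ∈ S.lang.L, z <:+: app P w}
  fac h := fun ⟨w, h1, h2⟩ => ⟨w, h1, h.trans h2⟩
  extR z := fun ⟨w, h1, s, t, h2⟩ => by
    cases t with
    | cons a t => exact ⟨a, w, h1, s, t, by simpa using h2⟩
    | nil =>
      obtain ⟨a, ha⟩ := S.lang.extR w h1
      obtain ⟨b, l, e⟩ := List.exists_cons_of_ne_nil (hP a)
      exact ⟨b, _, ha, s, l, by simp [← h2, e]⟩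
  extL z := fun ⟨w, h1, s, t, h2⟩ => by
    rcases List.eq_nil_or_concat s with rfl | ⟨s, a, rfl⟩
    · obtain ⟨a, ha⟩ := S.lang.extL w h1
      obtain ⟨l, b, e⟩ := (List.eq_nil_or_concat (P a)).resolve_left (hP a)
      exact ⟨b, _, ha, l, t, by simp [← h2, e]⟩
    · exact ⟨a, w, h1, s, t, by simpa using h2⟩
  fin := by
    refine (Set.finite_iUnion fun a => (List.finite_toSet (P a))).subset ?_
    rintro b ⟨w, -, h⟩
    obtain ⟨a, -, ha⟩ := mem_app.1 (h.subset (List.mem_singleton_self b))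
    exact Set.mem_iUnion.2 ⟨a, ha⟩

end Sys

end Pool.Agent.P.MP_1e185c_lc

/-! Runs of fixed letters between growing letters. -/

set_option autoImplicit false
set_option linter.unusedSectionVars false

namespace Pool.Agent.P.MP_1e185c_lc

open Filter

variable {A B : Type}

@[simp] theorem rp_zero (p : List A) : rp p 0 = [] := rfl

theorem rp_succ (p : List A) (m : ℕ) : rp p (m + 1) = p ++ rp p m := by
  simp [rp, List.replicate_succ]

theorem rp_add (p : List A) (m n : ℕ) : rp p (m + n) = rp p m ++ rp p n := by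
  rw [rp, List.replicate_add, List.flatten_append]; rfl

theorem rp_one (p : List A) : rp p 1 = p := by simp [rp]

theorem rp_succ' (p : List A) (m : ℕ) : rp p (m + 1) = rp p m ++ p := by rw [rp_add, rp_one]

@[simp] theorem rp_length (p : List A) (m : ℕ) : (rp p m).length = m * p.length := by simp [rp]

theorem per_of_rp {y : ℤ → A} {a : ℤ} {β : List A} {m : ℕ}
    (h : seg y a (m * β.length) = rp β m) (p : ℤ) (h1 : a ≤ p)
    (h2 : p + β.length < a + m * β.length) : y (p + β.length) = y p := by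
  cases m with
  | zero => simp at h2; omega
  | succ m =>
    have e1 := h
    have e2 := h
    rw [rp_succ, show (m + 1) * β.length = β.length + m * β.length by ring, seg_add] at e1
    rw [rp_succ', show (m + 1) * β.length = m * β.length + β.length by ring, seg_add] at e2
    have e3 := (List.append_inj e1 (by simp)).2
    have e4 := (List.append_inj e2 (by simp)).1
    have := seg_eq_seg (e3.trans e4.symm) (p - a) (by omega) (by push_cast at h2 ⊢; linarith)
    rw [show a + (p - a) = p by ring] at this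
    rw [← this]; congr 1; ring

theorem rp_of_per {y : ℤ → A} {a : ℤ} {q : ℕ} (m : ℕ)
    (h : ∀ p, a ≤ p → p + q < a + m * q → y (p + q) = y p) : seg y a (m * q) = rp (seg y a q) m := by
  induction m generalizing a with
  | zero => simp
  | succ m ih =>
    rw [rp_succ, show (m + 1) * q = q + m * q by ring, seg_add]
    congr 1
    cases m with
    | zero => simp
    | succ m =>
      rw [ih (fun p p1 p2 => h p (by omega) (by push_cast at p2 ⊢; linarith))]
      congr 1
      refine seg_congr fun i hi => ?_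
      rw [← h (a + i) (by omega) (by push_cast; nlinarith)]; congr 1; ring

theorem unb_of_per {y : ℤ → A} {a b : ℤ} {q ϖ : ℕ} (hd : q ∣ ϖ)
    (h : ∀ p, a ≤ p → p + q < b → y (p + q) = y p) : Unb ϖ y a (b - ϖ) := by
  obtain ⟨k, rfl⟩ := hd
  have key : ∀ k : ℕ, ∀ p, a ≤ p → p + q * k < b → y (p + q * k) = y p := by
    intro k p p1
    induction k with
    | zero => simp
    | succ k ih =>
      intro p2
      have h0 : (0 : ℤ) ≤ q * k := by positivity
      push_cast at p2 ⊢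
      rw [mul_add, mul_one, ← add_assoc] at p2 ⊢
      rw [h _ (by omega) p2, ih (by omega)]
  intro p p1 p2
  push_cast at p2 ⊢
  exact key k p p1 (by omega)

theorem parse_pad_pad {σ : A → List B} (hσ : NE σ) {o : A} {o' : B} (ho : ∀ c ∈ σ o, c = o')
    (w : List A) : ∃ f, Parse σ (pad o' (app σ w)) (pad o w) f ∧ f 0 = 0 ∧
      f w.length = (app σ w).length := by
  obtain ⟨x, f, h, h0, h1, h2⟩ := parse_pad hσ o w
  have : x = pad o' (app σ w) := by
    funext p
    obtain ⟨i, i1, i2⟩ := h.tile hσ p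
    have hm := h.mem i1 i2
    rcases lt_or_ge p 0 with hp | hp
    · have : i < 0 := h.lt_of_lt (by omega)
      simp only [pad, not_le.2 this, not_le.2 hp, if_false] at hm ⊢
      exact ho _ hm
    rcases lt_or_ge p (app σ w).length with hq | hq
    · have := seg_eq_seg (h2.trans (seg_pad o' _).symm) p hp hq
      simpa using this
    · have : (w.length : ℤ) < i + 1 := h.lt_of_lt (by omega)
      simp only [pad] at hm ⊢
      rw [if_pos (by omega), List.getD_eq_default _ _ (by omega)] at hm ⊢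
      exact ho _ hm
  exact ⟨f, this ▸ h, h0, h1⟩

theorem pad_out {o : A} {w : List A} {p : ℤ} (h : p < 0 ∨ (w.length : ℤ) ≤ p) : pad o w p = o := by
  simp only [pad]
  split_ifs with h1
  · exact List.getD_eq_default _ _ (by omega)
  · rfl

theorem FG.unique2 {g : A → Prop} {α β α' β' : List A} {b c : A}
    (e : α ++ b :: β = α' ++ c :: β') (h2 : ∀ c ∈ α, ¬ g c) (h3 : g b) (h2' : ∀ c ∈ α', ¬ g c)
    (h3' : g c) : α = α' := by
  rcases List.append_eq_append_iff.1 e with ⟨γ, e1, e2⟩ | ⟨γ, e1, e2⟩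
  · cases γ with
    | nil => simpa using e1.symm
    | cons d γ =>
      have := (List.cons.inj e2).1
      subst this
      exact (h2' _ (by simp [e1]) h3).elim
  · cases γ with
    | nil => simpa using e1
    | cons d γ =>
      have := (List.cons.inj e2).1
      subst this
      exact (h2 _ (by simp [e1]) h3').elim

/-- structure of an old gap -/
def GapS (G : A → List A) (W : ℕ) (Y : ℤ → A) (g g' : ℤ) : Prop :=
  ∃ (i : ℕ) (β α β' α' : List A), G (Y g) = β' ++ Y g :: β ∧ G (Y g') = α ++ Y g' :: α' ∧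
    (∀ c ∈ β, ¬ Grow G c) ∧ (∀ c ∈ α, ¬ Grow G c) ∧
    g + 1 + i * β.length + i * α.length ≤ g' ∧ g' ≤ g + 1 + i * β.length + W + i * α.length ∧
    seg Y (g + 1) (i * β.length) = rp β i ∧ seg Y (g' - i * α.length) (i * α.length) = rp α i

theorem Parse.split_at {σ : A → List B} {x : ℤ → B} {y : ℤ → A} {f : ℤ → ℤ} (h : Parse σ x y f)
    {i p : ℤ} (h1 : f i ≤ p) (h2 : p < f (i + 1)) :
    σ (y i) = seg x (f i) (p - f i).toNat ++ x p :: seg x (p + 1) (f (i + 1) - p - 1).toNat := by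
  have e := h.seg_app (a := i) (b := i + 1) (by omega)
  rw [show (i + 1 - i).toNat = 1 by omega, seg_one, app_singleton,
    show (f (i + 1) - f i).toNat = (p - f i).toNat + ((f (i + 1) - p - 1).toNat + 1) by omega,
    seg_add, seg_succ', show f i + (p - f i).toNat = p by omega] at e
  exact e.symm

variable [Fintype A]

theorem gap_step {G : A → List A} (hG : Norm G) {b W : ℕ} (hb : ∀ a, (G a).length ≤ b)
    (hW : b ≤ W) {Y Y1 : ℤ → A} {φ : ℤ → ℤ} (h : Parse G Y1 Y φ)
    (ih : ∀ g g', g < g' → Grow G (Y g) → Grow G (Y g') →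
      (∀ p, g < p → p < g' → ¬ Grow G (Y p)) → g' ≤ g + W ∨ GapS G (W + 2 * b) Y g g') :
    ∀ g g', g < g' → Grow G (Y1 g) → Grow G (Y1 g') →
      (∀ p, g < p → p < g' → ¬ Grow G (Y1 p)) → g' ≤ g + W ∨ GapS G (W + 2 * b) Y1 g g' := by
  intro g1 g1' c1 c2 c3 c4
  obtain ⟨g, i1, i2⟩ := h.tile hG.ne g1
  obtain ⟨g', j1, j2⟩ := h.tile hG.ne g1'
  have s1 := h.step g
  have s2 := h.step g'
  have l1 := hb (Y g)
  have l2 := hb (Y g')
  have hle : g < g' + 1 := h.lt_of_lt (by omega)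
  rcases eq_or_lt_of_le (show g ≤ g' by omega) with rfl | hlt
  · left; omega
  right
  have m1 := h.mono (i := g + 1) (j := g') (by omega)
  have d1 := h.grow_parent i1 i2 c2
  have d2 := h.grow_parent j1 j2 c3
  have d3 : ∀ p, g + 1 ≤ p → p < g' → ¬ Grow G (Y p) := by
    intro p p1 p2 hp
    obtain ⟨q, q1, q2, q3⟩ := h.grow_child hG.self p
    have := h.mono p1
    have := h.mono (i := p + 1) (j := g') (by omega)
    exact c4 q (by omega) (by omega) (q3 ▸ hp)
  have e0 := h.fixed_cut d3 g' (by omega) le_rfl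
  have e1 := h.split_at i1 i2
  have e2 := h.split_at j1 j2
  have f1 : ∀ c ∈ seg Y1 (g1 + 1) (φ (g + 1) - g1 - 1).toNat, ¬ Grow G c := by
    intro c hc
    obtain ⟨p, p1, p2, rfl⟩ := mem_seg.1 hc
    exact c4 p (by omega) (by omega)
  have f2 : ∀ c ∈ seg Y1 (φ g') (g1' - φ g').toNat, ¬ Grow G c := by
    intro c hc
    obtain ⟨p, p1, p2, rfl⟩ := mem_seg.1 hc
    exact c4 p (by omega) (by omega)
  rcases ih g g' hlt d1 d2 (fun p p1 p2 => d3 p (by omega) p2) with k | k
  · obtain ⟨β, β', k1, k2, -⟩ := hG.lg (Y g) (Y1 g1) ⟨_, _,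
      by simp only; rw [e1, List.reverse_append, List.reverse_cons, List.append_assoc]; rfl,
      fun c hc => f1 c (List.mem_reverse.1 hc), c2⟩
    obtain ⟨α, α', k3, k4, -⟩ := hG.fg (Y g') (Y1 g1') ⟨_, _, e2, f2, c3⟩
    refine ⟨0, β.reverse, α, β'.reverse, α', ?_, k3, by simpa using k2, k4, by simp; omega,
      by simp; omega, by simp, by simp⟩
    simp only at k1
    rw [← List.reverse_inj, k1]; simp
  · obtain ⟨i, β, α, β', α', k1, k2, k3, k4, k5, k6, k7, k8⟩ := k
    have n1 := congrArg List.reverse (k1.symm.trans e1)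
    simp only [List.reverse_append, List.reverse_cons, List.append_assoc, List.singleton_append]
      at n1
    have n2 := FG.unique2 (g := Grow G) n1 (by simpa using k3) d1 (by simpa using f1) c2
    rw [n2] at n1
    have n3 := (List.cons.inj (List.append_cancel_left n1)).1
    have n4 := FG.unique2 (g := Grow G) (k2.symm.trans e2) k4 d2 f2 c3
    have n5 := k2.symm.trans e2
    rw [← n4] at n5
    have n6 := (List.cons.inj (List.append_cancel_left n5)).1
    rw [List.reverse_inj] at n2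
    have l3 := congrArg List.length n2
    have l4 := congrArg List.length n4
    simp only [seg_length] at l3 l4
    have hi1 : (0 : ℤ) ≤ i * β.length := by positivity
    have hi2 : (0 : ℤ) ≤ i * α.length := by positivity
    have l5 : (β.length : ℤ) = φ (g + 1) - g1 - 1 := by omega
    have l6 : (α.length : ℤ) = g1' - φ g' := by omega
    refine ⟨i + 1, β, α, β', α', n3 ▸ k1, n6 ▸ k2, k3, k4, by push_cast; linarith,
      by push_cast at k6 ⊢; linarith, ?_, ?_⟩
    · rw [rp_succ, show (i + 1) * β.length = β.length + i * β.length by ring, seg_add, ← k7]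
      congr 1
      · rw [l3]; exact n2.symm
      · refine seg_congr fun k hk => ?_
        have : (k : ℤ) < i * β.length := by exact_mod_cast hk
        rw [h.fixed_val d3 _ (by omega) (by omega)]; congr 1; omega
    · rw [rp_succ', show (i + 1) * α.length = i * α.length + α.length by ring, seg_add, ← k8]
      have e5 : ((i + 1 : ℕ) : ℤ) * α.length = i * α.length + α.length := by push_cast; ring
      congr 1
      · refine seg_congr fun k hk => ?_
        have : (k : ℤ) < i * α.length := by exact_mod_cast hk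
        rw [h.fixed_val d3 _ (by omega) (by omega)]; congr 1; omega
      · conv_rhs => rw [n4]
        rw [← l4]; congr 1; rw [e5]; push_cast; omega

theorem Sys.gap_pad {G : A → List A} {y0 : List A} {o : A} (S : Sys G y0 o) :
    ∃ W W' : ℕ, ∀ n g g', g < g' → Grow G (pad o (it G n y0) g) →
      Grow G (pad o (it G n y0) g') → (∀ p, g < p → p < g' → ¬ Grow G (pad o (it G n y0) p)) →
      g' ≤ g + W ∨ GapS G W' (pad o (it G n y0)) g g' := by
  obtain ⟨b, -, hb⟩ := exists_bound G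
  refine ⟨b + y0.length + 1, b + y0.length + 1 + 2 * b, fun n => ?_⟩
  induction n with
  | zero =>
    intro g g' h1 _ _ h4
    left
    by_contra hc
    rcases lt_or_ge (g + 1) 0 with h | h
    · exact h4 (g + 1) (by omega) (by omega) (by rw [pad_out (Or.inl h)]; exact S.grow)
    · exact h4 (g + 1 + y0.length) (by omega) (by omega)
        (by rw [pad_out (Or.inr (by simp; omega))]; exact S.grow)
  | succ n ih =>
    obtain ⟨φ, h, -⟩ := parse_pad_pad S.norm.ne S.mark (it G n y0)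
    rw [← it_succ'] at h
    exact gap_step S.norm hb (by omega) h ih

/-- every window of a point is found inside a gap of some padded word -/
theorem Sys.gap {G : A → List A} {y0 : List A} {o : A} (S : Sys G y0 o) :
    ∃ W : ℕ, ∀ {n : ℕ} {y : ℤ → A} {a b : ℤ}, y ∈ S.lang.V n → a ≤ b → b + 2 ≤ a + n →
      (∀ p, a ≤ p → p < b → ¬ Grow G (y p)) → ∃ (Y : ℤ → A) (g g' : ℤ), g < a ∧ b ≤ g' ∧
        (∀ p, a - 1 ≤ p → p ≤ b → Y p = y p) ∧ (Grow G (y (a - 1)) → g = a - 1) ∧
        (Grow G (y b) → g' = b) ∧ (g' ≤ g + W ∨ GapS G W Y g g') := by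
  obtain ⟨W, W', hW⟩ := S.gap_pad
  refine ⟨max W W', fun {n y a b} hy hab hn hf => ?_⟩
  obtain ⟨m, hm⟩ := (show ∀ᶠ m in atTop, seg y (a - 1) n <:+: it G m y0 from hy (a - 1)).exists
  rw [← seg_pad o (it G m y0)] at hm
  obtain ⟨t, t1, t2, t3⟩ := infix_seg hm
  rw [seg_length] at t2 t3
  have e : ∀ p, a - 1 ≤ p → p ≤ b → pad o (it G m y0) (p + (t - (a - 1))) = y p := by
    intro p p1 p2
    have := seg_eq_seg t3 (p - (a - 1)) (by omega) (by omega)
    rw [show a - 1 + (p - (a - 1)) = p by ring] at this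
    rw [← this]; congr 1; ring
  obtain ⟨g, g1, g2, g3, g4⟩ := exists_last (P := fun p => Grow G (pad o (it G m y0) p))
    (a := -1) (b := t) (by omega) (by rw [pad_out (Or.inl (by omega))]; exact S.grow)
  obtain ⟨g', j1, j2, j3, j4⟩ := exists_first (P := fun p => Grow G (pad o (it G m y0) p))
    (a := b + (t - (a - 1))) (b := (it G m y0).length) (by omega)
    (by rw [pad_out (Or.inr le_rfl)]; exact S.grow)
  refine ⟨fun p => pad o (it G m y0) (p + (t - (a - 1))), g - (t - (a - 1)), g' - (t - (a - 1)),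
    by omega, by omega, e, fun hg => ?_, fun hg => ?_, ?_⟩
  · by_contra hc
    exact g4 t (by omega) le_rfl (by rw [← e _ le_rfl (by omega)] at hg; simpa using hg)
  · by_contra hc
    exact j4 _ le_rfl (by omega) (by rw [← e _ (by omega) le_rfl] at hg; exact hg)
  · rcases hW m g g' (by omega) g3 j3 (fun p p1 p2 => by
      rcases le_or_gt p t with h | h
      · exact g4 p p1 h
      rcases le_or_gt (b + (t - (a - 1))) p with h' | h'
      · exact j4 p h' p2
      · have := e (p - (t - (a - 1))) (by omega) (by omega)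
        rw [sub_add_cancel] at this
        rw [this]; exact hf _ (by omega) (by omega)) with k | k
    · left; omega
    · right
      obtain ⟨i, β, α, β', α', k1, k2, k3, k4, k5, k6, k7, k8⟩ := k
      refine ⟨i, β, α, β', α', by simpa using k1, by simpa using k2, k3, k4, by omega, by omega,
        ?_, ?_⟩
      · rw [← k7]; exact seg_congr fun k _ => by congr 1; ring
      · rw [← k8]; exact seg_congr fun k _ => by congr 1; ring

end Pool.Agent.P.MP_1e185c_lc

/-! Consequences of the gap lemma and boundedness of the periods of periodic points. -/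

set_option autoImplicit false
set_option linter.unusedSectionVars false

namespace Pool.Agent.P.MP_1e185c_lc

open Filter

variable {A B : Type}

theorem GapS.parts {G : A → List A} {W b : ℕ} (hb : ∀ a, (G a).length ≤ b) {Y : ℤ → A} {g g' : ℤ}
    (h : GapS G W Y g g') : ∃ (c d : ℤ) (q r : ℕ), g < c ∧ c ≤ d ∧ d ≤ c + W ∧ d ≤ g' ∧
      q ≤ b ∧ r ≤ b ∧ (q = 0 → c = g + 1) ∧ (r = 0 → d = g') ∧
      (∀ p, g < p → p + q < c → Y (p + q) = Y p) ∧ (∀ p, d ≤ p → p + r < g' → Y (p + r) = Y p) ∧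
      (q ≠ 0 → U.LinR G (Y g) ∧ g' - d ≤ b * (c - g)) ∧ (r ≠ 0 → U.LinL G (Y g')) := by
  obtain ⟨i, β, α, β', α', k1, k2, k3, k4, k5, k6, k7, k8⟩ := h
  have hi1 : (0 : ℤ) ≤ i * β.length := by positivity
  have hi2 : (0 : ℤ) ≤ i * α.length := by positivity
  have l1 := hb (Y g)
  have l2 := hb (Y g')
  rw [k1] at l1
  rw [k2] at l2
  simp only [List.length_append, List.length_cons] at l1 l2
  refine ⟨g + 1 + i * β.length, g' - i * α.length, β.length, α.length, by omega, by omega,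
    by omega, by omega, by omega, by omega, fun h => by simp [h], fun h => by simp [h],
    fun p p1 p2 => per_of_rp k7 p (by omega) p2, fun p p1 p2 => per_of_rp k8 p p1 (by omega),
    fun h => ⟨⟨β', β, k1, fun e => h (by simp [e]), k3⟩, ?_⟩,
    fun h => ⟨α, α', k2, fun e => h (by simp [e]), k4⟩⟩
  have a1 : (1 : ℤ) ≤ β.length := by omega
  have a2 : (α.length : ℤ) ≤ b := by omega
  have a3 : (0 : ℤ) ≤ i := by positivity
  nlinarith [mul_le_mul_of_nonneg_left a2 a3, mul_le_mul_of_nonneg_left a1 a3,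
    mul_nonneg (show (0 : ℤ) ≤ b by positivity) (show (0 : ℤ) ≤ i * β.length - i by nlinarith)]

theorem per_of_window {y : ℤ → A} {q r : ℕ} (hq : 0 < q) (h : Per y q) {c : ℤ}
    (hw : ∀ p, c ≤ p → p < c + q → y (p + r) = y p) : Per y r := by
  intro p
  have e := Int.emod_add_mul_ediv (p - c) q
  have h1 := Int.emod_nonneg (p - c) (b := q) (by omega)
  have h2 := Int.emod_lt_of_pos (p - c) (b := q) (by omega)
  have h3 := h.mul ((p - c) / q)
  have := hw (c + (p - c) % q) (by omega) (by omega)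
  rw [← h3, ← h3 (c + _)] at this
  rw [show p = c + (p - c) % q + (p - c) / q * q by linarith]
  rw [← this]; congr 1; ring

/-- `ϖ` is a multiple of all numbers up to `b` -/
def DivB (b ϖ : ℕ) : Prop := ∀ q, 1 ≤ q → q ≤ b → q ∣ ϖ

variable [Fintype A]

namespace Sys

variable {G : A → List A} {y0 : List A} {o : A}

theorem per_fixed (S : Sys G y0 o) {b : ℕ} (hb : ∀ a, (G a).length ≤ b) {y : ℤ → A}
    (hy : y ∈ S.lang.X) (hp : IsPer y) (hf : ∀ p, ¬ Grow G (y p)) :
    ∃ r : ℕ, 1 ≤ r ∧ r ≤ b ∧ Per y r := by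
  obtain ⟨W, hW⟩ := S.gap
  obtain ⟨q, q0, hq⟩ := hp
  obtain ⟨Y, g, g', h1, h2, h3, -, -, h4⟩ := hW (hy (W + 2 * (q + b) + 3)) (a := 0)
    (b := W + 2 * (q + b) + 1) (by omega) (by omega) (fun p _ _ => hf p)
  obtain ⟨c, d, r, r', k1, k2, k3, k4, k5, k6, k7, k8, k9, k10, -⟩ :=
    (h4.resolve_left (by omega)).parts hb
  by_cases hc : q + b ≤ c
  · refine ⟨r, by omega, k5, per_of_window q0 hq (c := 0) fun p p1 p2 => ?_⟩
    rw [← h3 _ (by omega) (by omega), ← h3 _ (by omega) (by omega)]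
    exact k9 p (by omega) (by omega)
  · refine ⟨r', by omega, k6, per_of_window q0 hq (c := W + q + b) fun p p1 p2 => ?_⟩
    rw [← h3 _ (by omega) (by omega), ← h3 _ (by omega) (by omega)]
    exact k10 p (by omega) (by omega)

theorem dense (S : Sys G y0 o) {b ϖ : ℕ} (hb : ∀ a, (G a).length ≤ b) (hd : DivB b ϖ) (K : ℕ) :
    ∃ W : ℕ, ∀ y ∈ S.lang.V (W + 2), ∀ a : ℤ, (∀ p, a ≤ p → p < a + W → ¬ Grow G (y p)) →
      ∃ s, a ≤ s ∧ s + K ≤ a + W ∧ Unb ϖ y s (s + K) := by
  obtain ⟨W, hW⟩ := S.gap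
  refine ⟨W + 2 * (K + ϖ) + 1, fun y hy a hf => ?_⟩
  obtain ⟨Y, g, g', h1, h2, h3, -, -, h4⟩ := hW hy (a := a) (b := a + (W + 2 * (K + ϖ) + 1 : ℕ))
    (by omega) (by omega) hf
  obtain ⟨c, d, r, r', k1, k2, k3, k4, k5, k6, k7, k8, k9, k10, -⟩ :=
    (h4.resolve_left (by omega)).parts hb
  by_cases hc : a + K + ϖ < c
  · refine ⟨a, le_rfl, by omega, ?_⟩
    have := unb_of_per (y := y) (a := a) (b := a + K + ϖ) (hd r (by omega) k5) fun p p1 p2 => by
      rw [← h3 _ (by omega) (by omega), ← h3 _ (by omega) (by omega)]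
      exact k9 p (by omega) (by omega)
    simpa using this
  · refine ⟨a + W + K + ϖ, by omega, by omega, ?_⟩
    have := unb_of_per (y := y) (a := a + W + K + ϖ) (b := a + W + K + ϖ + K + ϖ)
      (hd r' (by omega) k6) fun p p1 p2 => by
      rw [← h3 _ (by omega) (by omega), ← h3 _ (by omega) (by omega)]
      exact k10 p (by omega) (by omega)
    simpa using this

theorem gapX (S : Sys G y0 o) {b ϖ : ℕ} (hb : ∀ a, (G a).length ≤ b) (hd : DivB b ϖ) :
    ∃ W : ℕ, ∀ y ∈ S.lang.X,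
      (∀ a q : ℤ, (∀ p, a ≤ p → p < q → ¬ Grow G (y p)) → Grow G (y q) → ¬ U.LinL G (y q) →
        Unb ϖ y a (q - W - ϖ)) ∧
      (∀ g g' : ℤ, g + W < g' → (∀ p, g < p → p < g' → ¬ Grow G (y p)) → Grow G (y g) →
        Grow G (y g') → U.LinL G (y g') ∨ U.LinR G (y g)) ∧
      (y ϖ ≠ y 0 → (∀ p : ℤ, -W ≤ p → ¬ Grow G (y p)) →
        ∀ p : ℤ, p < -W - ϖ → y (p + ϖ) = y p) := by
  obtain ⟨W, hW⟩ := S.gap
  refine ⟨W + ϖ + 1, fun y hy => ⟨fun a q h1 h2 h3 p p1 p2 => ?_, fun g g' h1 h2 h3 h4 => ?_,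
    fun h1 h2 => ?_⟩⟩
  · obtain ⟨Y, g, g', k1, k2, k3, -, k4, k5⟩ := hW (hy ((q - a).toNat + 2)) (a := a) (b := q)
      (by omega) (by omega) h1
    have := k4 h2
    subst this
    obtain ⟨c, d, r, r', j1, j2, j3, j4, j5, j6, j7, j8, j9, j10, -, j11⟩ :=
      (k5.resolve_left (by omega)).parts hb
    have : r' = 0 := by
      by_contra hc
      exact h3 (k3 g' (by omega) le_rfl ▸ j11 hc)
    have := unb_of_per (y := y) (a := a) (b := c) (hd r (by omega) j5) fun p p1 p2 => by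
      rw [← k3 _ (by omega) (by omega), ← k3 _ (by omega) (by omega)]
      exact j9 p (by omega) p2
    exact this p p1 (by omega)
  · obtain ⟨Y, g1, g1', k1, k2, k3, k6, k4, k5⟩ := hW (hy ((g' - g).toNat + 2)) (a := g + 1)
      (b := g') (by omega) (by omega) (fun p p1 p2 => h2 p (by omega) p2)
    have e1 := k4 h4
    have e2 := k6 (by simpa using h3)
    rw [add_sub_cancel_right] at e2
    subst e1 e2
    obtain ⟨c, d, r, r', j1, j2, j3, j4, j5, j6, j7, j8, j9, j10, j12, j11⟩ :=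
      (k5.resolve_left (by omega)).parts hb
    by_cases hr : r = 0
    · exact Or.inl (k3 g1' (by omega) le_rfl ▸ j11 (by omega))
    · exact Or.inr (k3 g1 (by omega) (by omega) ▸ (j12 hr).1)
  · have key : ∀ a T : ℤ, a ≤ -W - 1 → ϖ + W < T → (∀ p, a ≤ p → ¬ Grow G (y p)) →
        ∃ (g g' c d : ℤ) (r : ℕ), g < a ∧ T ≤ g' ∧ (Grow G (y (a - 1)) → g = a - 1) ∧
          c ≤ ϖ ∧ 0 < d ∧ d ≤ c + W ∧ (r = 0 → c = g + 1) ∧ (r ≠ 0 → g' - d ≤ b * (c - g)) ∧
          Unb ϖ y a (c - ϖ) := by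
      intro a T a1 a2 a3
      obtain ⟨Y, g, g', k1, k2, k3, k4, -, k5⟩ := hW (hy ((T - a).toNat + 2)) (a := a) (b := T)
        (by omega) (by omega) (fun p p1 _ => a3 p p1)
      obtain ⟨c, d, r, r', j1, j2, j3, j4, j5, j6, j7, j8, j9, j10, j12, -⟩ :=
        (k5.resolve_left (by omega)).parts hb
      have u1 : Unb ϖ y a (min c T - ϖ) := by
        by_cases hr : r = 0
        · intro p p1 p2; omega
        exact unb_of_per (hd r (by omega) j5) fun p p1 p2 => by
          rw [← k3 _ (by omega) (by omega), ← k3 _ (by omega) (by omega)]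
          exact j9 p (by omega) (by omega)
      have u2 : Unb ϖ y (max a d) (T - ϖ) := by
        by_cases hr : r' = 0
        · intro p p1 p2; omega
        exact unb_of_per (hd r' (by omega) j6) fun p p1 p2 => by
          rw [← k3 _ (by omega) (by omega), ← k3 _ (by omega) (by omega)]
          exact j10 p (by omega) (by omega)
      have c1 : c ≤ ϖ := by
        by_contra hc
        exact h1 (by simpa using u1 0 (by omega) (by omega))
      have c2 : 0 < d := by
        by_contra hc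
        exact h1 (by simpa using u2 0 (by omega) (by omega))
      exact ⟨g, g', c, d, r, k1, k2, k4, c1, c2, j3, j7, fun h => (j12 h).2,
        u1.mono le_rfl (by omega)⟩
    have all : ∀ p, ¬ Grow G (y p) := by
      intro p hp
      obtain ⟨g, g1, g2, g3, g4⟩ := exists_last (P := fun p => Grow G (y p)) (a := p)
        (b := -(W + ϖ + 1 : ℕ)) (by by_contra hc; exact h2 p (by omega) hp) hp
      have g5 : g ≠ -(W + ϖ + 1 : ℕ) := fun e => h2 g (by omega) g3
      obtain ⟨g', g'', c, d, r, k1, k2, k3, k4, k5, k6, k7, k8, -⟩ := key (g + 1)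
        (ϖ + W + 1 + b * (ϖ - g)) (by omega)
        (by have : (0 : ℤ) ≤ b * (ϖ - g) := mul_nonneg (by positivity) (by omega); omega)
        (fun p p1 => by
          rcases le_or_gt p (-(W + ϖ + 1 : ℕ)) with h | h
          · exact g4 p (by omega) h
          · exact h2 p (by omega))
      have := k3 (by simpa using g3)
      rw [add_sub_cancel_right] at this
      subst this
      by_cases hr : r = 0
      · omega
      · have := k8 hr
        have : (b : ℤ) * (c - g') ≤ b * (ϖ - g') :=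
          mul_le_mul_of_nonneg_left (by omega) (by positivity)
        omega
    intro p hp
    obtain ⟨g', g'', c, d, r, k1, k2, k3, k4, k5, k6, k7, k8, k9⟩ := key p (ϖ + W + 1) (by omega)
      (by omega) (fun p _ => all p)
    exact k9 p le_rfl (by omega)

end Sys

theorem finite_per (Q : ℕ) : {y : ℤ → A | ∃ q : ℕ, 1 ≤ q ∧ q ≤ Q ∧ Per y q}.Finite := by
  refine (Set.finite_range fun (v : Fin Q.factorial → A) (i : ℤ) =>
    v ⟨(i % Q.factorial).toNat, by
      have := Int.emod_lt_of_pos i (b := Q.factorial) (by exact_mod_cast Q.factorial_pos)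
      have := Int.emod_nonneg i (b := Q.factorial) (by exact_mod_cast Q.factorial_ne_zero)
      omega⟩).subset ?_
  rintro y ⟨q, q1, q2, h⟩
  refine ⟨fun k => y k, funext fun i => ?_⟩
  have h1 := Int.emod_nonneg i (b := Q.factorial) (by exact_mod_cast Q.factorial_ne_zero)
  have h2 := (h.of_dvd (r := Q.factorial) (by exact_mod_cast Nat.dvd_factorial q1 q2)).mul
    (i / Q.factorial) (i % Q.factorial)
  simp only
  rw [show (((i % Q.factorial).toNat : ℕ) : ℤ) = i % Q.factorial by omega, ← h2]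
  congr 1
  linarith [Int.emod_add_mul_ediv i Q.factorial]

theorem Sys.per_bound {G : A → List A} {y0 : List A} {o : A} (S : Sys G y0 o) :
    ∃ Q : ℕ, ∀ y ∈ S.lang.X, IsPer y → ∃ q : ℕ, 1 ≤ q ∧ q ≤ Q ∧ Per y q := by
  obtain ⟨b, -, hb⟩ := exists_bound G
  obtain ⟨Q, hQ⟩ := S.norm.elem1.dichotomy
  refine ⟨max b Q, fun y hy hp => ?_⟩
  by_cases hf : ∀ p, ¬ Grow G (y p)
  · obtain ⟨r, r1, r2, r3⟩ := S.per_fixed hb hy hp hf
    exact ⟨r, r1, by omega, r3⟩
  push Not at hf
  choose par hpar f hparse using fun z : S.lang.X => S.pre1.parent z.2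
  let z : ℕ → S.lang.X := fun n => (fun w : S.lang.X => (⟨par w, hpar w⟩ : S.lang.X))^[n] ⟨y, hy⟩
  have hz : ∀ n, Parse G (z n).1 (z (n + 1)).1 (f (z n)) := by
    intro n
    have : z (n + 1) = ⟨par (z n), hpar _⟩ := Function.iterate_succ_apply' _ _ _
    rw [this]; exact hparse _
  have hg : ∀ n, ∃ p, Grow G ((z n).1 p) := by
    intro n
    induction n with
    | zero => exact hf
    | succ n ih =>
      obtain ⟨p, hp⟩ := ih
      obtain ⟨i, i1, i2⟩ := (hz n).tile S.norm.ne p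
      exact ⟨i, (hz n).grow_parent i1 i2 hp⟩
  have step : ∀ n (q : ℕ), 1 ≤ q → Per (z n).1 q →
      ∃ r : ℕ, 1 ≤ r ∧ (r < q ∨ r ≤ Q) ∧ Per (z (n + 1)).1 r := by
    intro n q q1 h2
    have h := hz n
    have h' := h.shift q 0
    rw [show (fun p => (z n).1 (p + q)) = (z n).1 from funext h2] at h'
    rcases hQ h h' with ⟨t, ht⟩ | ⟨r, r1, r2, r3⟩
    · simp only [add_zero] at ht
      obtain ⟨i, hi⟩ := hg (n + 1)
      have e1 := (ht i).2
      have t0 : i < i + t := h.lt_of_lt (by omega)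
      have e2 := h.step i
      have e3 := hi.two S.norm.self
      have e4 := h.le_add S.norm.ne (i := i + 1) (j := i + t) (by omega)
      refine ⟨t.toNat, by omega, Or.inl (by omega), fun j => ?_⟩
      rw [show (t.toNat : ℤ) = t by omega]
      exact (ht j).1
    · exact ⟨r, r1, Or.inr r2, r3⟩
  obtain ⟨q, q0, hq⟩ := hp
  have down : ∀ n, ∃ r : ℕ, 1 ≤ r ∧ (r + n ≤ q ∨ r ≤ Q) ∧ Per (z n).1 r := by
    intro n
    induction n with
    | zero => exact ⟨q, q0, Or.inl le_rfl, hq⟩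
    | succ n ih =>
      obtain ⟨r, r1, r2, r3⟩ := ih
      obtain ⟨r', s1, s2, s3⟩ := step n r r1 r3
      exact ⟨r', s1, by omega, s3⟩
  have big : ∀ n, q ≤ n → ∃ r : ℕ, 1 ≤ r ∧ r ≤ Q ∧ Per (z n).1 r := by
    intro n hn
    obtain ⟨r, r1, r2, r3⟩ := down n
    exact ⟨r, r1, by omega, r3⟩
  obtain ⟨i, j, hij, e⟩ : ∃ i j, i < j ∧ (z (q + i)).1 = (z (q + j)).1 :=
    Set.Finite.exists_lt_map_eq_of_forall_mem (f := fun n => (z (q + n)).1)
      (fun n => big (q + n) (by omega)) (finite_per Q)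
  have sh : ∀ r n, n + r = q + i → ∃ t, ∀ p, (z (n + (j - i))).1 (p + t) = (z n).1 p := by
    intro r
    induction r with
    | zero =>
      intro n hn
      exact ⟨0, fun p => by
        rw [add_zero, show n + (j - i) = q + j by omega, ← e, show n = q + i by omega]⟩
    | succ r ih =>
      intro n hn
      obtain ⟨t, ht⟩ := ih (n + 1) (by omega)
      rw [show n + 1 + (j - i) = n + (j - i) + 1 by omega] at ht
      exact ⟨_, ((hz n).agree_all S.norm.ne (hz (n + (j - i))) (c := 0)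
        (s := f (z (n + (j - i))) (0 + t) - f (z n) 0) ht (by simp)).2⟩
  have fin : ∀ r n, q ≤ n + r → ∃ r : ℕ, 1 ≤ r ∧ r ≤ Q ∧ Per (z n).1 r := by
    intro r
    induction r with
    | zero => exact big
    | succ r ih =>
      intro n hn
      by_cases h : q ≤ n
      · exact big n h
      obtain ⟨t, ht⟩ := sh (q + i - n) n (by omega)
      obtain ⟨r, r1, r2, r3⟩ := ih (n + (j - i)) (by omega)
      exact ⟨r, r1, r2, fun p => by rw [← ht p, ← ht (p + r), ← r3 (p + t), add_right_comm]⟩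
  obtain ⟨r, r1, r2, r3⟩ := fin q 0 (by omega)
  exact ⟨r, r1, by omega, r3⟩

theorem PreStep.per_bound {σ : A → List B} {Lp : Lang A} {Lc : Lang B} (S : PreStep σ Lp Lc)
    (h : ∃ Q : ℕ, ∀ y ∈ Lp.X, IsPer y → ∃ q : ℕ, 1 ≤ q ∧ q ≤ Q ∧ Per y q) :
    ∃ Q : ℕ, ∀ y ∈ Lc.X, IsPer y → ∃ q : ℕ, 1 ≤ q ∧ q ≤ Q ∧ Per y q := by
  obtain ⟨Q, hQ⟩ := h
  obtain ⟨b, -, hb⟩ := exists_bound σ
  refine ⟨b * Q, fun x hx hp => ?_⟩
  obtain ⟨y, hy, f, h⟩ := S.parent hx
  obtain ⟨q, q1, q2, q3⟩ := hQ y hy (S.elem.isPer h hp)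
  have e1 := h.lt S.elem.ne (i := 0) (j := q) (by omega)
  have e2 := h.add_le hb (i := 0) (j := q) (by omega)
  have e3 : (b : ℤ) * (q - 0) ≤ (b * Q : ℕ) := by
    push_cast; exact mul_le_mul_of_nonneg_left (by omega) (by positivity)
  refine ⟨(f q - f 0).toNat, by omega, by omega, fun p => ?_⟩
  rw [show ((f q - f 0).toNat : ℤ) = f q - f 0 by omega]
  exact (h.periodic S.elem.ne q3).2 p

theorem good_of_bound {Λ : Lang B} {Q ϖ : ℕ} (h0 : 0 < ϖ) (hd : DivB Q ϖ)
    (h : ∀ y ∈ Λ.X, IsPer y → ∃ q : ℕ, 1 ≤ q ∧ q ≤ Q ∧ Per y q) : Λ.Good ϖ :=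
  ⟨h0, fun y hy hp => by
    obtain ⟨q, q1, q2, q3⟩ := h y hy hp
    exact q3.of_dvd (by exact_mod_cast hd q q1 q2)⟩

theorem divB_factorial {b N : ℕ} (h : b ≤ N) : DivB b N.factorial :=
  fun _ q1 q2 => Nat.dvd_factorial q1 (q2.trans h)

end Pool.Agent.P.MP_1e185c_lc

/-! Uniform recognizability. -/

set_option autoImplicit false
set_option linter.unusedSectionVars false

namespace Pool.Agent.P.MP_1e185c_lc

open Filter

variable {A B : Type}

/-- level `k` morphism -/
def sig (P : A → List B) (G : A → List A) (k : ℕ) (a : A) : List B := app P (pw G k a)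

theorem sig_zero (P : A → List B) (G : A → List A) : sig P G 0 = P := by
  funext a; simp [sig, pw_zero]

theorem sig_succ (P : A → List B) (G : A → List A) (k : ℕ) :
    sig P G (k + 1) = fun a => app (sig P G k) (G a) := by
  funext a; rw [sig, pw_succ, app_app]; rfl

theorem sig_add (P : A → List B) (G : A → List A) (k l : ℕ) :
    sig P G (k + l) = fun a => app (sig P G k) (pw G l a) := by
  funext a; rw [sig, pw_add, app_app]; rfl

theorem sig_id (G : A → List A) (k : ℕ) : sig (fun a => [a]) G k = pw G k := by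
  funext a; exact app_pw G 0 _

theorem sig_rev (P : A → List B) (G : A → List A) (k : ℕ) :
    sig (fun a => (P a).reverse) (fun a => (G a).reverse) k = fun a => (sig P G k a).reverse := by
  funext a; rw [sig, pw_rev, app_reverse]; rfl

theorem sig_pw (P : A → List B) (G : A → List A) (p k : ℕ) :
    sig P (pw G p) k = sig P G (k * p) := by
  funext a; rw [sig, pw_pw]; rfl

theorem app_sig (P : A → List B) (G : A → List A) (k : ℕ) (w : List A) :
    app (sig P G k) w = app P (it G k w) := by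
  rw [← app_pw, app_app]; rfl

variable [Fintype A]

theorem Norm.agR {G : A → List A} (hG : Norm G) {P : A → List B} (hP : Elem P) :
    ∃ ρ : ℕ, ∀ (k : ℕ) {x x' : ℤ → B} {y y' : ℤ → A} {F F' : ℤ → ℤ} {c j i s t : ℤ},
      Parse (sig P G k) x y F → Parse (sig P G k) x' y' F' → F' (c + t) = F c + s →
      (∀ p, F c ≤ p → p < F i → x' (p + s) = x p) → ρ ≤ gc (Grow G) y j i →
      ∀ m, c ≤ m → m < j → y' (m + t) = y m := by
  obtain ⟨ρ, hρ⟩ := hG.lemU
  obtain ⟨r, r0, hr⟩ := hP.mismatch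
  refine ⟨ρ + r, fun k x x' y y' F F' c j i s t h h' hs ha hc m m1 m2 => ?_⟩
  by_contra hne
  obtain ⟨m, m1, m3, hne, m4⟩ := exists_first (P := fun m => y' (m + t) ≠ y m) m1 hne
  have e := h.cuts_right h' (b := m) (fun i i1 i2 => not_not.1 (m4 i i1 i2)) hs m m1 le_rfl
  obtain ⟨z, f, g, a1, a2, a3⟩ := h.decomp hP.ne (hG.ne.pw k)
  obtain ⟨z', f', g', a1', a2', a3'⟩ := h'.decomp hP.ne (hG.ne.pw k)
  have c0 := gc_le (Grow G) y j i
  have c1 := gc_add (Grow G) y (a := j) (b := i - r) (c := i) (by omega) (by omega)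
  have c2 := gc_le (Grow G) y (i - r) i
  have c3 := gc_mono (Grow G) y (a := m) (b := i - r) (a' := j) (b' := i - r) (by omega) le_rfl
  obtain ⟨p, p1, p2, p3⟩ := hρ k (j := i - r) (s := g' (m + t) - g m) a2 a2' (by simp)
    (Ne.symm hne) (by omega)
  obtain ⟨p, p1, p4, p3, p5⟩ := exists_first (P := fun p => z' (p + (g' (m + t) - g m)) ≠ z p) p1 p3
  have e2 := a1.cuts_right a1' (c := g m) (b := p) (s := s)
    (fun i i1 i2 => not_not.1 (p5 i i1 i2)) (by rw [add_sub_cancel, ← a3, ← a3', e]) p p1 le_rfl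
  obtain ⟨q, q1, q2, q3, -⟩ := hr a1 a1' e2 (Ne.symm p3)
  have d1 := a2.le_add (hG.ne.pw k) (i := i - r) (j := i) (by omega)
  have d2 := a1.le_add hP.ne (i := p) (j := g i) (by omega)
  have d3 := a1.mono p1
  have d4 := h.mono m1
  exact q3 (ha q (by rw [a3 m] at d4; omega) (by rw [a3]; omega))

theorem Norm.ag {G : A → List A} (hG : Norm G) {P : A → List B} (hP : Elem P) :
    ∃ ρ : ℕ, ∀ (k : ℕ) {x x' : ℤ → B} {y y' : ℤ → A} {F F' : ℤ → ℤ} {c i0 j0 j1 i1 s t : ℤ},
      Parse (sig P G k) x y F → Parse (sig P G k) x' y' F' → F' (c + t) = F c + s →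
      (∀ p, F i0 ≤ p → p < F i1 → x' (p + s) = x p) → ρ ≤ gc (Grow G) y i0 j0 →
      ρ ≤ gc (Grow G) y j1 i1 → i0 ≤ c → c ≤ i1 →
      ∀ m, j0 ≤ m → m < j1 → y' (m + t) = y m := by
  obtain ⟨ρ, hρ⟩ := hG.agR hP
  obtain ⟨ρ', hρ'⟩ := hG.rev.agR hP.rev
  refine ⟨ρ + ρ', fun k x x' y y' F F' c i0 j0 j1 i1 s t h h' hs ha h1 h2 c1 c2 m m1 m2 => ?_⟩
  rcases le_or_gt c m with hm | hm
  · exact hρ k h h' hs (fun p p1 p2 => ha p (le_trans (h.mono c1) p1) p2) (by omega) m hm m2
  · have r := h.rev 0 0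
    have r' := h'.rev 0 0
    rw [← sig_rev] at r r'
    have := hρ' k (c := -c) (t := -t) (s := -s) (i := -i0) (j := -j0) r r'
      (by simp only [zero_sub, neg_neg]; rw [show -(-c + -t) = c + t by ring, hs]; ring)
      (fun p p1 p2 => by
        simp only [zero_sub, neg_neg] at p1 p2
        have := h.mono c2
        rw [← ha (0 - 1 - p) (by omega) (by omega)]; congr 1; ring)
      (by rw [grow_rev, gc_rev]; simp; omega) (-1 - m) (by omega) (by omega)
    rw [show (0 : ℤ) - 1 - (-1 - m + -t) = m + t by ring, show (0 : ℤ) - 1 - (-1 - m) = m by ring]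
      at this
    exact this

/-- a marked system with a coding onto a language, all periodic points having period `ϖ` -/
structure HS (G : A → List A) (y0 : List A) (o : A) (P : A → List B) (Lc : Lang B) (ϖ : ℕ) :
    Prop where
  sys : Sys G y0 o
  elem : ∀ k, Elem (sig P G k)
  step : Step P sys.lang Lc ϖ
  div : ∃ b, (∀ a, (G a).length ≤ b) ∧ DivB b ϖ

namespace HS

variable {G : A → List A} {y0 : List A} {o : A} {P : A → List B} {Lc : Lang B} {ϖ : ℕ}

theorem norm (S : HS G y0 o P Lc ϖ) : Norm G := S.sys.norm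

theorem pos (S : HS G y0 o P Lc ϖ) : 0 < ϖ := S.step.gp.1

theorem stepG (S : HS G y0 o P Lc ϖ) : Step G S.sys.lang S.sys.lang ϖ :=
  ⟨S.sys.pre1, S.step.gp, S.step.gp⟩

theorem stepP (S : HS G y0 o P Lc ϖ) (k : ℕ) : Step (pw G k) S.sys.lang S.sys.lang ϖ :=
  ⟨S.sys.pre k, S.step.gp, S.step.gp⟩

theorem stepK (S : HS G y0 o P Lc ϖ) (k : ℕ) : Step (sig P G k) S.sys.lang Lc ϖ where
  elem := S.elem k
  img w hw := by rw [app_sig, ← app_pw]; exact S.step.img _ (S.sys.img_pw k hw)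
  par w hw := by
    obtain ⟨w1, h1, h2⟩ := S.step.par w hw
    obtain ⟨w2, h3, h4⟩ := (S.sys.pre k).par w1 h1
    exact ⟨w2, h3, h2.trans (by rw [app_sig, ← app_pw]; exact app_infix h4)⟩
  gp := S.step.gp
  gc := S.step.gc

theorem neK (S : HS G y0 o P Lc ϖ) (k : ℕ) : NE (sig P G k) := (S.elem k).ne

theorem base (S : HS G y0 o P Lc ϖ) : HS G y0 o (fun a => [a]) S.sys.lang ϖ where
  sys := S.sys
  elem k := by rw [sig_id]; exact S.norm.elem k
  step := S.stepP 0
  div := S.div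

theorem rev (S : HS G y0 o P Lc ϖ) :
    HS (fun a => (G a).reverse) y0.reverse o (fun a => (P a).reverse) Lc.rev ϖ where
  sys := S.sys.rev
  elem k := by rw [sig_rev]; exact (S.elem k).rev
  step := by rw [S.sys.lang_rev]; exact S.step.rev
  div := by simpa using S.div

theorem dec (S : HS G y0 o P Lc ϖ) {k : ℕ} {x : ℤ → B} {y : ℤ → A} {F : ℤ → ℤ}
    (h : Parse (sig P G (k + 1)) x y F) :
    ∃ y1 F1 φ, Parse (sig P G k) x y1 F1 ∧ Parse G y1 y φ ∧ ∀ i, F i = F1 (φ i) := by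
  rw [sig_succ] at h
  exact h.decomp (S.neK k) S.norm.ne

theorem gc_child (S : HS G y0 o P Lc ϖ) {y y1 : ℤ → A} {φ : ℤ → ℤ} (h : Parse G y1 y φ)
    (a b : ℤ) : gc (Grow G) y a b ≤ gc (Grow G) y1 (φ a) (φ b) := by
  have := h.gc_ge (g := Grow G) (g' := Grow G) (r := 1)
    (fun c hc => cp_pos.2 ⟨c, S.norm.self c, hc⟩) a b
  omega

theorem upU (S : HS G y0 o P Lc ϖ) : ∃ ρ : ℕ, ∀ (k : ℕ) {x : ℤ → B} {y : ℤ → A} {F : ℤ → ℤ}
    {i0 j0 j1 i1 : ℤ}, y ∈ S.sys.lang.V ρ → Parse (sig P G k) x y F →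
    ρ ≤ gc (Grow G) y i0 j0 → ρ ≤ gc (Grow G) y j1 i1 → j0 + ρ ≤ j1 →
    Unb ϖ x (F i0) (F i1 - ϖ) → Unb ϖ y j0 (j1 - ϖ) := by
  obtain ⟨r1, h1⟩ := S.norm.ag S.step.elem
  obtain ⟨r2, h2⟩ := S.step.up
  obtain ⟨r3, h3⟩ := S.stepG.up
  obtain ⟨r4, h4⟩ := S.sys.lang.perExt S.pos
  refine ⟨r1 + r2 + 2 * r3 + r4 + ϖ + 1, fun k => ?_⟩
  induction k with
  | zero =>
    intro x y F i0 j0 j1 i1 hy h c1 c2 c3 hu i i1' i2
    rw [sig_zero] at h
    have := gc_le (Grow G) y i0 j0
    have := gc_le (Grow G) y j1 i1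
    have := h.le_add S.step.ne (i := i0) (j := i) (by omega)
    have := h.le_add S.step.ne (i := i) (j := i1) (by omega)
    exact h2 (Lang.V_anti (by omega) hy) h (hu.mono (by omega) (by omega))
  | succ k ih =>
    intro x y F i0 j0 j1 i1 hy h c1 c2 c3 hu
    obtain ⟨y1, F1, φ, a1, a2, a3⟩ := S.dec h
    have := gc_le (Grow G) y i0 j0
    have := gc_le (Grow G) y j1 i1
    have u1 := ih (S.stepG.imgV hy a2) a1 (c1.trans (S.gc_child a2 _ _))
      (c2.trans (S.gc_child a2 _ _))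
      (by have := a2.le_add S.norm.ne (i := j0) (j := j1) (by omega); omega)
      (by rwa [← a3, ← a3])
    have u2 : Unb ϖ y (j0 + r3) (j1 - ϖ - r3) := by
      intro i i1' i2
      have := a2.le_add S.norm.ne (i := j0) (j := i) (by omega)
      have := a2.le_add S.norm.ne (i := i) (j := j1) (by omega)
      exact h3 (Lang.V_anti (by omega) hy) a2 (u1.mono (by omega) (by omega))
    obtain ⟨ε, e1, e2, e3⟩ := h4 y (Lang.V_anti (by omega) hy) _ _ u2 (by omega)
    obtain ⟨x', f', b1, b2, -, b3, b4⟩ := (S.stepK (k + 1)).down_per h e1 e2 (a := j0 + r3)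
      (b := j1 - ϖ - r3 + ϖ) (by omega) e3
    have d1 := h.le_add (S.neK _) (i := i0) (j := j0 + r3) (by omega)
    have d2 := h.le_add (S.neK _) (i := j0 + r3) (j := j1 - ϖ - r3 + ϖ) (by omega)
    have d3 := h.le_add (S.neK _) (i := j1 - ϖ - r3 + ϖ) (j := i1) (by omega)
    have b5 := hu.agree S.pos (t := 0) (c := F (j0 + r3)) (b2.unb _ _) (by omega) (by omega)
      (fun p p1 p2 => by simpa using b4 p p1 (by omega))
    have b6 := h1 (k + 1) (c := j0 + r3) (t := 0) (s := 0) (i0 := i0) (i1 := i1) (j0 := j0)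
      (j1 := j1) h b1 (by simpa using b3 _ le_rfl (by omega))
      (fun p p1 p2 => b5 p p1 (by omega)) (by omega) (by omega) (by omega) (by omega)
    simp only [add_zero] at b6
    intro i i1' i2
    rw [← b6 i i1' (by omega), ← b6 _ (by omega) (by omega), e2]

theorem ur (S : HS G y0 o P Lc ϖ) : ∃ ρ : ℕ, ∀ (k : ℕ) {x x' : ℤ → B} {y y' : ℤ → A}
    {F F' : ℤ → ℤ} {i0 j0 j1 i1 : ℤ}, y ∈ S.sys.lang.V ρ → Parse (sig P G k) x y F →
    Parse (sig P G k) x' y' F' → (∀ p, F i0 ≤ p → p < F i1 → x' p = x p) →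
    ρ ≤ gc (Grow G) y i0 j0 → ρ ≤ gc (Grow G) y j1 i1 → j0 + 3 * ρ ≤ j1 →
    (∃ t, (∀ m, j0 ≤ m → m < j1 → y' (m + t) = y m) ∧ F' (j0 + t) = F j0) ∨
      Unb ϖ x (F (j0 + ρ)) (F (j1 - ρ) - ϖ) := by
  obtain ⟨r1, h1⟩ := S.norm.ag S.step.elem
  obtain ⟨r2, h2⟩ := S.step.fd
  obtain ⟨r3, h3⟩ := S.stepG.fd
  obtain ⟨r4, h4⟩ := S.sys.lang.perExt S.pos
  obtain ⟨ρ, hρ⟩ : ∃ ρ, ρ = r1 + r2 + r3 + r4 + ϖ + 1 := ⟨_, rfl⟩
  have fin : ∀ (k : ℕ) {x x' : ℤ → B} {y y' : ℤ → A}
      {F F' : ℤ → ℤ} {i0 j0 j1 i1 : ℤ}, y ∈ S.sys.lang.V ρ → Parse (sig P G k) x y F →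
      Parse (sig P G k) x' y' F' → (∀ p, F i0 ≤ p → p < F i1 → x' p = x p) →
      ρ ≤ gc (Grow G) y i0 j0 → ρ ≤ gc (Grow G) y j1 i1 → j0 + 3 * ρ ≤ j1 →
      (∀ i, j0 + ρ ≤ i → i < j1 - ρ → (∃ i', F' i' = F i) ∨ y (i + ϖ) = y i) →
      (∃ t, (∀ m, j0 ≤ m → m < j1 → y' (m + t) = y m) ∧ F' (j0 + t) = F j0) ∨
        Unb ϖ x (F (j0 + ρ)) (F (j1 - ρ) - ϖ) := by
    intro k x x' y y' F F' i0 j0 j1 i1 hy h h' ha c1 c2 c3 hd
    have := gc_le (Grow G) y i0 j0
    have := gc_le (Grow G) y j1 i1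
    by_cases hc : ∃ i, j0 + ρ ≤ i ∧ i < j1 - ρ ∧ ∃ i', F' i' = F i
    · obtain ⟨i, n1, n2, i', n3⟩ := hc
      have := h1 k (c := i) (t := i' - i) (s := 0) (i0 := i0) (i1 := i1) (j0 := j0) (j1 := j1) h h'
        (by simpa using n3) (by simpa using ha) (by omega) (by omega) (by omega) (by omega)
      refine Or.inl ⟨i' - i, this, ?_⟩
      simpa using h.cuts_left h' (c := i) (a := j0) (s := 0)
        (fun m m1 m2 => this m m1 (by omega)) (by simpa using n3) j0 (by omega) le_rfl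
    · right
      obtain ⟨ε, e1, e2, e3⟩ := h4 y (Lang.V_anti (by omega) hy) (j0 + ρ) (j1 - ρ)
        (fun i n1 n2 => (hd i n1 n2).resolve_left fun n3 => hc ⟨i, n1, n2, n3⟩) (by omega)
      exact (S.stepK k).down h e1 e2 (by omega) (fun i n1 n2 => e3 i n1 (by omega))
  refine ⟨ρ, fun k => ?_⟩
  induction k with
  | zero =>
    intro x x' y y' F F' i0 j0 j1 i1 hy h h' ha c1 c2 c3
    refine fin 0 hy h h' ha c1 c2 c3 fun i n1 n2 => ?_
    rw [sig_zero] at h h'
    have := gc_le (Grow G) y i0 j0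
    have := gc_le (Grow G) y j1 i1
    have := h.le_add S.step.ne (i := i0) (j := i) (by omega)
    have := h.le_add S.step.ne (i := i) (j := i1) (by omega)
    exact h2 (Lang.V_anti (by omega) hy) h h' fun p p1 p2 => ha p (by omega) (by omega)
  | succ k ih =>
    intro x x' y y' F F' i0 j0 j1 i1 hy h h' ha c1 c2 c3
    obtain ⟨y1, F1, φ, a1, a2, a3⟩ := S.dec h
    obtain ⟨y1', F1', φ', a1', a2', a3'⟩ := S.dec h'
    have d0 := a2.le_add S.norm.ne (i := j0) (j := j1) (by omega)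
    rcases ih (S.stepG.imgV hy a2) a1 a1' (by rwa [← a3, ← a3]) (c1.trans (S.gc_child a2 _ _))
      (c2.trans (S.gc_child a2 _ _)) (by omega) with ⟨t, t1, t2⟩ | u
    · refine fin (k + 1) hy h h' ha c1 c2 c3 fun i n1 n2 => ?_
      have d1 := a2.le_add S.norm.ne (i := j0) (j := i) (by omega)
      have d2 := a2.le_add S.norm.ne (i := i) (j := j1) (by omega)
      refine (h3 (Lang.V_anti (by omega) hy) a2 (a2'.shift t 0)
        (fun p p1 p2 => t1 p (by omega) (by omega))).imp_left ?_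
      rintro ⟨i', e⟩
      refine ⟨i', ?_⟩
      rw [a3, a3', show φ' i' = φ i + t by simp at e; omega]
      simpa using a1.cuts_right a1' (c := φ j0) (b := φ j1) (s := 0) t1 (by simpa using t2) (φ i)
        (by omega) (by omega)
    · right
      have d1 := a2.le_add S.norm.ne (i := j0) (j := j0 + ρ) (by omega)
      have d2 := a2.le_add S.norm.ne (i := j1 - ρ) (j := j1) (by omega)
      rw [a3, a3]
      exact u.mono (a1.mono (by omega)) (by have := a1.mono (i := φ (j1 - ρ)) (j := φ j1 - ρ) (by omega); omega)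

end HS

/-- every window of length `K` inside `[a, b)` contains a break -/
def Rigid (ϖ K : ℕ) (y : ℤ → B) (a b : ℤ) : Prop :=
  ∀ s, a ≤ s → s + K ≤ b → ¬ Unb ϖ y s (s + K)

theorem Rigid.mono {ϖ K : ℕ} {y : ℤ → B} {a b a' b' : ℤ} (h : Rigid ϖ K y a b) (h1 : a ≤ a')
    (h2 : b' ≤ b) : Rigid ϖ K y a' b' := fun s s1 s2 => h s (by omega) (by omega)

namespace HS

variable {G : A → List A} {y0 : List A} {o : A} {P : A → List B} {Lc : Lang B} {ϖ : ℕ}

theorem dense (S : HS G y0 o P Lc ϖ) (K : ℕ) : ∃ W : ℕ, 1 ≤ W ∧ ∀ (r : ℕ) {y : ℤ → A} {a b : ℤ},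
    y ∈ S.sys.lang.V (W + 2) → Rigid ϖ K y a b → a + r * W ≤ b → r ≤ gc (Grow G) y a b := by
  obtain ⟨b0, hb, hd⟩ := S.div
  obtain ⟨W, hW⟩ := S.sys.dense hb hd K
  refine ⟨W + 1, by omega, fun r => ?_⟩
  induction r with
  | zero => intros; omega
  | succ r ih =>
    intro y a b hy hr hab
    have h0 : (0 : ℤ) ≤ r * (W + 1 : ℕ) := by positivity
    have e : ((r + 1 : ℕ) : ℤ) * (W + 1 : ℕ) = r * (W + 1 : ℕ) + W + 1 := by push_cast; ring
    have h1 := ih (a := a + W) (b := b) hy (hr.mono (by omega) le_rfl) (by omega)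
    have h2 := gc_add (Grow G) y (a := a) (b := a + W) (c := b) (by omega) (by omega)
    have : 0 < gc (Grow G) y a (a + W) := by
      by_contra hc
      obtain ⟨s, s1, s2, s3⟩ := hW y (Lang.V_anti (by omega) hy) a
        (fun p p1 p2 hp => hc (gc_pos.2 ⟨p, p1, p2, hp⟩))
      exact hr s s1 (by omega) s3
    omega

theorem upRigid (S : HS G y0 o P Lc ϖ) (K : ℕ) : ∃ D : ℕ, ∀ (k : ℕ) {x : ℤ → B} {y : ℤ → A}
    {F : ℤ → ℤ} {a b : ℤ}, y ∈ S.sys.lang.V D → Parse (sig P G k) x y F → Rigid ϖ K y a b →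
    Unb ϖ x (F a) (F b - ϖ) → b ≤ a + D := by
  obtain ⟨ρ, hρ⟩ := S.upU
  obtain ⟨W, W1, hW⟩ := S.dense K
  refine ⟨2 * (ρ * W) + ρ + K + ϖ + W + 2, fun k x y F a b hy h hr hu => ?_⟩
  by_contra hc
  push_cast at hc
  have h0 : (0 : ℤ) ≤ ρ * W := by positivity
  have := hρ k (j0 := a + ρ * W) (j1 := b - ρ * W) (Lang.V_anti (by omega) hy) h
    (hW ρ (Lang.V_anti (by omega) hy) (hr.mono le_rfl (by omega)) le_rfl)
    (hW ρ (Lang.V_anti (by omega) hy) (hr.mono (by omega) le_rfl) (by omega)) (by omega) hu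
  exact hr (a + ρ * W) (by omega) (by omega) (this.mono le_rfl (by omega))

theorem urRigid (S : HS G y0 o P Lc ϖ) (K : ℕ) : ∃ D : ℕ, ∀ (k : ℕ) {x x' : ℤ → B}
    {y y' : ℤ → A} {F F' : ℤ → ℤ} {a b : ℤ}, y ∈ S.sys.lang.V D → Parse (sig P G k) x y F →
    Parse (sig P G k) x' y' F' → (∀ p, F a ≤ p → p < F b → x' p = x p) → Rigid ϖ K y a b →
    a + 3 * D ≤ b → ∃ t, (∀ m, a + D ≤ m → m < b - D → y' (m + t) = y m) ∧
      ∀ m, a + D ≤ m → m ≤ b - D → F' (m + t) = F m := by
  obtain ⟨ρ, hρ⟩ := S.ur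
  obtain ⟨W, W1, hW⟩ := S.dense K
  obtain ⟨D, hD⟩ := S.upRigid K
  refine ⟨ρ * W + 3 * ρ + D + W + 3, fun k x x' y y' F F' a b hy h h' ha hr hab => ?_⟩
  push_cast at hab ⊢
  have h0 : (0 : ℤ) ≤ ρ * W := by positivity
  rcases hρ k (j0 := a + ρ * W) (j1 := b - ρ * W) (Lang.V_anti (by omega) hy) h h' ha
    (hW ρ (Lang.V_anti (by omega) hy) (hr.mono le_rfl (by omega)) le_rfl)
    (hW ρ (Lang.V_anti (by omega) hy) (hr.mono (by omega) le_rfl) (by omega)) (by omega)
    with ⟨t, t1, t2⟩ | u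
  · refine ⟨t, fun m m1 m2 => t1 m (by omega) (by omega), fun m m1 m2 => ?_⟩
    simpa using h.cuts_right h' (s := 0) t1 (by simpa using t2) m (by omega) (by omega)
  · have := hD k (Lang.V_anti (by omega) hy) h (hr.mono (by omega) (by omega)) u
    omega

end HS

end Pool.Agent.P.MP_1e185c_lc

/-! There are finitely many ends, and a power of the morphism fixes them all. -/

set_option autoImplicit false
set_option linter.unusedSectionVars false

namespace Pool.Agent.P.MP_1e185c_lc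

open Filter

variable {A B : Type}

theorem pw_linL {G : A → List A} {c : A} {α β : List A} (e : G c = α ++ c :: β)
    (hα : ∀ d ∈ α, ¬ Grow G d) (n : ℕ) : ∃ β', pw G n c = rp α n ++ c :: β' := by
  induction n with
  | zero => exact ⟨[], rfl⟩
  | succ n ih =>
    obtain ⟨β', h⟩ := ih
    have : app (pw G n) α = α := by
      clear e h
      induction α with
      | nil => rfl
      | cons a l ih =>
        rw [app_cons, pw_fixed (hα a (by simp)), ih fun d hd => hα d (by simp [hd])]; rfl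
    exact ⟨β' ++ app (pw G n) β, by rw [pw_succ, e, app_append, app_cons, this, h, rp_succ]; simp⟩

theorem pw_linR {G : A → List A} {c : A} {α β : List A} (e : G c = α ++ c :: β)
    (hβ : ∀ d ∈ β, ¬ Grow G d) (n : ℕ) : ∃ α', pw G n c = α' ++ c :: rp β n := by
  induction n with
  | zero => exact ⟨[], rfl⟩
  | succ n ih =>
    obtain ⟨α', h⟩ := ih
    have : app (pw G n) β = β := by
      clear e h
      induction β with
      | nil => rfl
      | cons a l ih =>
        rw [app_cons, pw_fixed (hβ a (by simp)), ih fun d hd => hβ d (by simp [hd])]; rfl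
    exact ⟨app (pw G n) α ++ α', by rw [pw_succ, e, app_append, app_cons, this, h, rp_succ']; simp⟩

theorem mem_rp {p : List A} {m : ℕ} {a : A} (h : a ∈ rp p m) : a ∈ p := by
  simp [rp] at h; exact h.2

theorem exists_run {g : A → Prop} {y : ℤ → A} (L : ℕ) (r : ℕ) {a : ℤ}
    (h : gc g y a (a + (r + 1) * L) ≤ r) :
    ∃ s, a ≤ s ∧ s + L ≤ a + (r + 1) * L ∧ ∀ p, s ≤ p → p < s + L → ¬ g (y p) := by
  induction r generalizing a with
  | zero =>
    refine ⟨a, le_rfl, by simp, fun p p1 p2 hp => ?_⟩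
    have := gc_pos.2 ⟨p, p1, show p < a + ((0 : ℕ) + 1) * L by simpa using p2, hp⟩
    omega
  | succ r ih =>
    have h0 : (0 : ℤ) ≤ (r + 1) * L := by positivity
    have e : a + ((r + 1 : ℕ) + 1) * L = a + L + (r + 1) * L := by push_cast; ring
    rw [e] at h ⊢
    by_cases hc : 0 < gc g y a (a + L)
    · have := gc_add g y (a := a) (b := a + L) (c := a + L + (r + 1) * L) (by omega) (by omega)
      obtain ⟨s, s1, s2, s3⟩ := ih (a := a + L) (by omega)
      exact ⟨s, by omega, s2, s3⟩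
    · exact ⟨a, le_rfl, by omega, fun p p1 p2 hp => hc (gc_pos.2 ⟨p, p1, p2, hp⟩)⟩

variable [Fintype A]

theorem Norm.agL {G : A → List A} (hG : Norm G) {P : A → List B} (hP : Elem P) :
    ∃ ρ : ℕ, ∀ (k : ℕ) {x x' : ℤ → B} {y y' : ℤ → A} {F F' : ℤ → ℤ} {c j i s t : ℤ},
      Parse (sig P G k) x y F → Parse (sig P G k) x' y' F' → F' (c + t) = F c + s →
      (∀ p, F i ≤ p → p < F c → x' (p + s) = x p) → ρ ≤ gc (Grow G) y i j →
      ∀ m, j ≤ m → m < c → y' (m + t) = y m := by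
  obtain ⟨ρ', hρ'⟩ := hG.rev.agR hP.rev
  refine ⟨ρ', fun k x x' y y' F F' c j0 i0 s t h h' hs ha h1 m m1 hm => ?_⟩
  have r := h.rev 0 0
  have r' := h'.rev 0 0
  rw [← sig_rev] at r r'
  have := hρ' k (c := -c) (t := -t) (s := -s) (i := -i0) (j := -j0) r r'
    (by simp only [zero_sub, neg_neg]; rw [show -(-c + -t) = c + t by ring, hs]; ring)
    (fun p p1 p2 => by
      simp only [zero_sub, neg_neg] at p1 p2
      rw [← ha (0 - 1 - p) (by omega) (by omega)]; congr 1; ring)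
    (by rw [grow_rev, gc_rev]; simpa using h1) (-1 - m) (by omega) (by omega)
  rw [show (0 : ℤ) - 1 - (-1 - m + -t) = m + t by ring, show (0 : ℤ) - 1 - (-1 - m) = m by ring]
    at this
  exact this

namespace HS

variable {G : A → List A} {y0 : List A} {o : A} {P : A → List B} {Lc : Lang B} {ϖ : ℕ}

theorem fixed_img (n : ℕ) {y Y : ℤ → A} {F : ℤ → ℤ} (h : Parse (pw G n) Y y F) {a b : ℤ}
    (hab : a ≤ b) (hf : ∀ p, a ≤ p → p < b → ¬ Grow G (y p)) :
    F b = F a + (b - a) ∧ ∀ p, F a ≤ p → p < F b → ¬ Grow G (Y p) := by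
  have hf' : ∀ p, a ≤ p → p < b → ¬ Grow (pw G n) (y p) :=
    fun p p1 p2 => not_not.2 (pw_fixed (hf p p1 p2) n)
  have e := h.fixed_cut hf' b hab le_rfl
  refine ⟨e, fun p p1 p2 => ?_⟩
  rw [h.fixed_val hf' p p1 (by omega)]
  exact hf _ (by omega) (by omega)

theorem contract (S : HS G y0 o P Lc ϖ) : ∃ D : ℕ, ∀ (n : ℕ) {y y' Y Y' : ℤ → A} {F F' : ℤ → ℤ},
    End S.sys.lang ϖ 1 y → End S.sys.lang ϖ 1 y' → End S.sys.lang ϖ 1 Y →
    Parse (pw G n) Y y F → Parse (pw G n) Y' y' F' → F' 0 = F 0 →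
    (∀ i : ℤ, -D ≤ i → y' i = y i) → ∀ p : ℤ, -n ≤ p → Y' p = Y p := by
  obtain ⟨b, hb, hd⟩ := S.div
  obtain ⟨W, hW⟩ := S.sys.gapX hb hd
  obtain ⟨ρ, hρ⟩ := S.norm.agL (S.norm.elem 0)
  obtain ⟨L, hL⟩ : ∃ L : ℕ, L = W + ϖ + b + 1 := ⟨_, rfl⟩
  refine ⟨(ρ + 1) * L, fun n y y' Y Y' F F' hy hy' hY h h' h0 ha => ?_⟩
  have ne := S.norm.ne.pw n
  have hD : (L : ℤ) ≤ (ρ + 1) * L := by nlinarith
  push_cast at ha
  obtain ⟨D, eD⟩ : ∃ D : ℤ, D = (ρ + 1) * L := ⟨_, rfl⟩
  rw [← eD] at ha hD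
  have ag : ∀ p, F (-D) ≤ p → Y' p = Y p := by
    intro p hp
    obtain ⟨i, i1, i2⟩ := h.tile ne p
    simpa using (h.agree ne h' (a := -D) (b := max (i + 1) 0) (c := 0) (s := 0) (t := 0)
      (fun i i1 _ => by simpa using ha i i1) (by omega) (by omega) (by simpa using h0)).2 p hp
      (lt_of_lt_of_le i2 (h.mono (by omega)))
  have agc : ∀ i, -D ≤ i → F' i = F i := by
    intro i hi
    simpa using (h.agree ne h' (a := -D) (b := max i 0) (c := 0) (s := 0) (t := 0)
      (fun i i1 _ => by simpa using ha i i1) (by omega) (by omega) (by simpa using h0)).1 i hi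
      (by omega)
  by_cases hc : ρ + 1 ≤ gc (Grow G) y (-D) 0
  · obtain ⟨g0, g1, g2, g3⟩ := gc_pos.1 (show 0 < gc (Grow G) y (-D) 0 by omega)
    obtain ⟨g, g1, g4, g3, g5⟩ := exists_first (P := fun i => Grow G (y i)) g1 g3
    have e1 := gc_add (Grow G) y (a := -D) (b := g) (c := 0) g1 (by omega)
    have e2 := gc_add (Grow G) y (a := g) (b := g + 1) (c := 0) (by omega) (by omega)
    have e3 := gc_le (Grow G) y g (g + 1)
    have e4 : gc (Grow G) y (-D) g = 0 := by
      by_contra hh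
      obtain ⟨k, k1, k2, k3⟩ := gc_pos.1 (Nat.pos_of_ne_zero hh)
      exact g5 k k1 k2 k3
    have e5 : F (g + 1) ≤ 0 := by
      by_contra hh
      obtain ⟨π, p1, p2, p3⟩ := hy.perL S.pos
      obtain ⟨x', f', b1, b2, -, b3, b4⟩ := (S.stepP n).down_per h p1 p2 (a := 1) (b := 1 + ϖ)
        (by omega) (fun i i1 _ => p3 i i1)
      have c1 := (S.stepP n).cutL h hy hY
      have c2 := h.le_add ne (i := 1) (j := 1 + ϖ) (by omega)
      have b5 := Unb.agree S.pos (y := Y) (y' := x') (a := 1) (b := F 1) (c := F 1) (t := 0)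
        (fun i i1 _ => hY.unb i (by omega)) (b2.unb _ _) (by omega) le_rfl
        (fun i i1 i2 => by simpa using b4 i i1 (by omega))
      rw [← sig_id] at h b1
      have := hρ n (c := 1) (t := 0) (s := 0) (i := g + 1) (j := 0) h b1
        (by simpa using b3 1 le_rfl (by omega)) (fun p p1 p2 => b5 p (by omega) (by omega))
        (by omega) 0 le_rfl (by omega)
      have e6 := p2 0
      have := S.pos
      simp only [add_zero, zero_add] at *
      exact hy.br (by rw [← p3 ϖ (by omega), e6]; assumption)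
    have e6 := h.step g
    have e7 := grow_len S.norm.self g3 n
    have e8 := h.mono g1
    intro p hp
    exact ag p (by omega)
  obtain ⟨a, a1, a2, a3⟩ := exists_run (g := Grow G) (y := y) L ρ (a := -D)
    (by rw [← eD, neg_add_cancel]; omega)
  rw [← eD, neg_add_cancel] at a2
  by_cases hg : ∃ g, a ≤ g ∧ Grow G (y g)
  swap
  · push Not at hg
    have u1 := (hW y hy.mem).2.2 hy.br (fun p hp => hg p (by omega))
    have u2 := (hW y' hy'.mem).2.2 hy'.br (fun p hp => by rw [ha p (by omega)]; exact hg p (by omega))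
    have : ∀ i, y' i = y i := by
      intro i
      rcases le_or_gt (-D) i with hi | hi
      · exact ha i hi
      · simpa using Unb.agree S.pos (y := y) (y' := y') (a := i) (b := -W - ϖ) (c := -W - ϖ)
          (t := 0) (fun p _ p2 => u1 p p2) (fun p _ p2 => u2 p (by omega)) (by omega) le_rfl
          (fun p p1 _ => by simpa using ha p (by omega)) i le_rfl (by omega)
    intro p _
    simpa using (h.agree_all ne h' (c := 0) (s := 0) (t := 0) (by simpa using this)
      (by simpa using h0)).2 p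
  obtain ⟨g0, g1, g2⟩ := hg
  obtain ⟨g, g1, -, g2, g3⟩ := exists_first (P := fun i => Grow G (y i)) g1 g2
  have g4 : a + L ≤ g := by
    by_contra hh
    exact a3 g g1 (by omega) g2
  obtain ⟨α, β, e, hα, -⟩ : FG (Grow G) (G (y g)) (y g) := by
    obtain ⟨z, -, φ, hz⟩ := S.sys.pre1.parent hy.mem
    obtain ⟨i, i1, i2⟩ := hz.tile S.norm.ne g
    have := hz.step i
    have := hb (z i)
    exact S.norm.fg _ _ (hz.fg_of i1 i2 (fun q q1 q2 => g3 q (by omega) q2) g2)
  obtain ⟨β', e'⟩ := pw_linL e hα n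
  obtain ⟨d1, -, d3, -⟩ := h.decomp_at e'
  obtain ⟨d4, d5⟩ := fixed_img n h g1 g3
  have d6 := h.mono a1
  have d7 : F g + (rp α n).length ≤ ϖ := by
    by_contra hh
    have := hY.unb (F g + (rp α n).length - ϖ) (by omega)
    rw [sub_add_cancel, d1] at this
    have p0 := S.pos
    rcases lt_or_ge (F g + (rp α n).length - ϖ) (F g) with h1 | h1
    · exact d5 _ (by omega) h1 (this ▸ g2)
    · exact hα _ (mem_rp (d3 _ h1 (by omega))) (this ▸ g2)
  by_cases hα0 : α = []
  swap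
  · have : (n : ℤ) ≤ (rp α n).length := by
      have := List.length_pos_iff.2 hα0
      rw [rp_length]; push_cast; nlinarith
    intro p hp
    exact ag p (by omega)
  subst hα0
  have nl : ¬ U.LinL G (y g) := by
    rintro ⟨α2, β2, e2, n1, n2⟩
    exact n1 (FG.unique2 (g := Grow G) (e2.symm.trans e) n2 g2 hα g2)
  have key : ∀ {y Y : ℤ → A} {F : ℤ → ℤ}, y ∈ S.sys.lang.X → Parse (pw G n) Y y F →
      (∀ p, a ≤ p → p < g → ¬ Grow G (y p)) → Grow G (y g) → ¬ U.LinL G (y g) → Y (F g) = y g →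
      Unb ϖ Y (F g - n - L) (F g - W - ϖ) := by
    intro y Y F hy h g3 g2 nl d1
    refine (hW Y ((S.stepP n).imgX hy h)).1 _ _ (fun p p1 p2 => ?_) (d1 ▸ g2) (d1 ▸ nl)
    by_cases hq : ∃ q, q ≤ a ∧ Grow G (y q)
    · obtain ⟨q0, q1, q2⟩ := hq
      obtain ⟨q, -, q1, q2, q3⟩ := exists_last (P := fun i => Grow G (y i)) q1 q2
      have q4 : q ≠ a := fun e => g3 a le_rfl (by omega) (e ▸ q2)
      have q5 : ∀ p, q + 1 ≤ p → p < g → ¬ Grow G (y p) := by
        intro p p1 p2
        rcases le_or_gt p a with h1 | h1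
        · exact q3 p (by omega) h1
        · exact g3 p h1.le p2
      obtain ⟨α2, β2, e2, n1, n2⟩ := ((hW y hy).2.1 q g (by omega)
        (fun p p1 p2 => q5 p (by omega) p2) q2 g2).resolve_left nl
      obtain ⟨α3, e3⟩ := pw_linR e2 n2 n
      obtain ⟨-, k2, -, k4⟩ := h.decomp_at e3
      obtain ⟨k5, k6⟩ := fixed_img n h (a := q + 1) (b := g) (by omega) q5
      have : (n : ℤ) ≤ (rp β2 n).length := by
        have := List.length_pos_iff.2 n1
        rw [rp_length]; push_cast; nlinarith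
      rcases lt_or_ge p (F (q + 1)) with h1 | h1
      · exact n2 _ (mem_rp (k4 p (by omega) h1))
      · exact k6 p h1 p2
    · push Not at hq
      obtain ⟨k5, k6⟩ := fixed_img n h (a := g - n - L) (b := g) (by omega) (fun p p1 p2 => by
        rcases le_or_gt p a with h1 | h1
        · exact hq p h1
        · exact g3 p h1.le p2)
      exact k6 p (by omega) p2
  simp only [rp, List.flatten_replicate_nil, List.length_nil, Nat.cast_zero,
    add_zero] at d1 d7
  have eg := ha g (by omega)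
  have u1 := key hy.mem h g3 g2 nl d1
  have u2 := key hy'.mem h' (fun p p1 p2 => by rw [ha p (by omega)]; exact g3 p p1 p2) (eg ▸ g2)
    (eg ▸ nl) (by rw [agc g (by omega), ag _ (by omega), d1, eg])
  rw [agc g (by omega)] at u2
  intro p hp
  rcases le_or_gt (F (-D)) p with h1 | h1
  · exact ag p h1
  · simpa using u1.agree S.pos (y' := Y') (t := 0) (c := F g - W - ϖ) (by simpa using u2)
      (by omega) le_rfl (fun p p1 _ => by simpa using ag p (by omega)) p (by omega) (by omega)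

theorem finL (S : HS G y0 o P Lc ϖ) : {ε | End S.sys.lang ϖ 1 ε}.Finite := by
  classical
  obtain ⟨D, hD⟩ := S.contract
  by_contra hc
  obtain ⟨T, T1, T2⟩ := Set.Infinite.exists_subset_card_eq hc
    (Fintype.card (Fin (D + ϖ + 1) → A) + 1)
  have : ∀ p : (ℤ → A) × (ℤ → A), ∃ K : ℕ, (∀ i : ℤ, -K ≤ i → p.1 i = p.2 i) → p.1 = p.2 := by
    intro p
    by_cases h : p.1 = p.2
    · exact ⟨0, fun _ => h⟩
    · obtain ⟨i, hi⟩ := Function.ne_iff.1 h
      exact ⟨i.natAbs, fun h' => (hi (h' i (by omega))).elim⟩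
  choose k hk using this
  obtain ⟨n, hn⟩ := ((T.finite_toSet.prod T.finite_toSet).image k).bddAbove
  have : ∀ Y : ℤ → A, ∃ y F, End S.sys.lang ϖ 1 Y → End S.sys.lang ϖ 1 y ∧ Parse (pw G n) Y y F := by
    intro Y
    by_cases hY : End S.sys.lang ϖ 1 Y
    · obtain ⟨y, F, h⟩ := (S.stepP n).parent_end (Or.inl rfl) hY
      exact ⟨y, F, fun _ => h⟩
    · exact ⟨Y, id, fun h => (hY h).elim⟩
  choose par F hpar using this
  obtain ⟨Y, Y1, Y', Y2, Y3, Y4⟩ := Finset.exists_ne_map_eq_of_card_lt_of_maps_to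
    (s := T) (t := (Finset.univ : Finset (Fin (D + ϖ + 1) → A))) (by simp [T2])
    (f := fun Y (i : Fin (D + ϖ + 1)) => par Y (i - D)) (by simp)
  obtain ⟨h1, h2⟩ := hpar Y (T1 Y1)
  obtain ⟨h1', h2'⟩ := hpar Y' (T1 Y2)
  have e0 : ∀ i : ℤ, -D ≤ i → i ≤ ϖ → par Y' i = par Y i := by
    intro i i1 i2
    have := congrFun Y4 ⟨(i + D).toNat, by omega⟩
    simp only at this
    rw [show (((i + D).toNat : ℕ) : ℤ) - D = i by omega] at this
    exact this.symm
  have e1 : ∀ i : ℤ, -D ≤ i → par Y' i = par Y i := by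
    intro i i1
    rcases le_or_gt i ϖ with h | h
    · exact e0 i i1 h
    · simpa using Unb.agree S.pos (y := par Y) (y' := par Y') (a := 1) (b := i) (c := 1) (t := 0)
        (fun p p1 _ => h1.unb p (by omega)) (fun p p1 _ => h1'.unb p (by omega)) le_rfl
        (by have := S.pos; omega) (fun p p1 p2 => by simpa using e0 p (by omega) (by omega)) i
        (by have := S.pos; omega) (by have := S.pos; omega)
  obtain ⟨Y'', F'', h3, h4⟩ := exists_parse (S.norm.ne.pw n) (par Y') 0 (F Y 0)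
  have e2 := hD n h1 h1' (T1 Y1) h2 h3 h4 e1
  have e3 : End S.sys.lang ϖ 1 Y'' := ⟨(S.stepP n).imgX h1'.mem h3,
    by rw [e2 _ (by omega), e2 _ (by omega)]; exact (T1 Y1).br,
    fun i hi => by rw [e2 _ (by omega), e2 _ (by omega)]; exact (T1 Y1).unb i hi⟩
  have e4 := ((S.stepP n).child_unique (Or.inl rfl) e3 (T1 Y2) h3 h2').1
  refine Y3 (hk (Y, Y') fun i hi => ?_)
  have := hn ⟨(Y, Y'), ⟨Y1, Y2⟩, rfl⟩
  simp only
  rw [e4, e2 i (by omega)]

theorem fin (S : HS G y0 o P Lc ϖ) {d : ℤ} (hd : Dir d) : {ε | End S.sys.lang ϖ d ε}.Finite := by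
  rcases hd with rfl | rfl
  · exact S.finL
  · refine (S.rev.finL.image fun ε i => ε (ϖ + 1 - 1 - i)).subset fun ε hε => ?_
    refine ⟨fun i => ε (ϖ + 1 - 1 - i), ?_, funext fun i => by simp⟩
    have := End.rev hε
    rw [← S.sys.lang_rev] at this
    simpa using this

theorem finc (S : HS G y0 o P Lc ϖ) {d : ℤ} (hd : Dir d) : {ε | End Lc ϖ d ε}.Finite :=
  S.step.finite_child hd (S.fin hd)

end HS

end Pool.Agent.P.MP_1e185c_lc

/-! Systems fixing all ends; the data attached to an end. -/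

set_option autoImplicit false
set_option linter.unusedSectionVars false

namespace Pool.Agent.P.MP_1e185c_lc

open Filter

variable {A B : Type}

theorem Parse.iter {G : A → List A} {ε : ℤ → A} {g : ℤ → ℤ} (h : Parse G ε ε g) (k : ℕ) :
    Parse (pw G k) ε ε (g^[k]) := by
  induction k with
  | zero => exact Parse.id_parse ε
  | succ k ih =>
    rw [show pw G (k + 1) = fun a => app (pw G k) (G a) from funext (pw_succ G k)]
    exact ih.comp h

theorem End.change {Λ : Lang A} {ϖ ϖ' : ℕ} (hg : Λ.Good ϖ) (hg' : Λ.Good ϖ') {d : ℤ} (hd : Dir d)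
    {ε : ℤ → A} (h : End Λ ϖ' d ε) : ∃ s, End Λ ϖ d (fun i => ε (i + s)) := by
  have hb : ∃ b, ε (b + ϖ) ≠ ε b := by
    by_contra hc
    push Not at hc
    exact h.aper hg' ⟨ϖ, hg.1, hc⟩
  obtain ⟨b, hb⟩ := hb
  have : ∃ N, ∀ i, N < d * i → ε (i + ϖ) = ε i := by
    rcases hd with rfl | rfl
    · obtain ⟨π, p1, p2, p3⟩ := h.perL hg'.1
      exact ⟨0, fun i hi => by
        rw [← p3 _ (by omega), ← p3 _ (by omega)]; exact hg.2 π p1 ⟨ϖ', hg'.1, p2⟩ i⟩
    · obtain ⟨π, p1, p2, p3⟩ := h.perR hg'.1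
      exact ⟨ϖ, fun i hi => by
        rw [← p3 _ (by omega), ← p3 _ (by omega)]; exact hg.2 π p1 ⟨ϖ', hg'.1, p2⟩ i⟩
  obtain ⟨N, hN⟩ := this
  obtain ⟨s, -, hs⟩ := exists_end hd h.mem hb hN
  exact ⟨s, hs⟩

theorem self_left {G : A → List A} (hs : ∀ a, a ∈ G a) {ε : ℤ → A} {g : ℤ → ℤ}
    (h : Parse G ε ε g) (hp : ¬ IsPer ε) : ∃ i0, ∀ i ≤ i0, g i ≤ i := by
  by_contra hc
  push Not at hc
  have ne := self_ne hs
  have pos : ∀ i, i < g i := by
    intro i
    obtain ⟨j, j1, j2⟩ := hc i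
    have := h.le_add ne j1
    omega
  obtain ⟨δ, ⟨i1, e1⟩, e2⟩ := Int.exists_least_of_bdd (P := fun z => ∃ i, g i - i = z)
    ⟨0, fun z ⟨i, hi⟩ => by have := pos i; omega⟩ ⟨_, 0, rfl⟩
  have d0 : 0 < δ := by have := pos i1; omega
  have base : ∀ i ≤ i1, g i = i + δ := by
    intro i hi
    have := h.le_add ne hi
    have := e2 _ ⟨i, rfl⟩
    omega
  have key : ∀ j, i1 ≤ j → (∀ i ≤ j, g i = i + δ) ∧ ∀ i < j, ¬ Grow G (ε i) := by
    intro j hj
    induction j, hj using Int.leInduction with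
    | base =>
      refine ⟨base, fun i hi hg => ?_⟩
      have := hg.two hs
      have := h.step i
      have := base i (by omega)
      have := base (i + 1) (by omega)
      omega
    | succ j hj ih =>
      have f1 : ¬ Grow G (ε j) := by
        have := (h.fixed (ih.2 (j - δ) (by omega))).2
        rw [ih.1 _ (by omega), sub_add_cancel] at this
        rw [this]; exact ih.2 _ (by omega)
      refine ⟨fun i hi => ?_, fun i hi => ?_⟩
      · rcases eq_or_lt_of_le hi with rfl | h1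
        · rw [(h.fixed f1).1, ih.1 j le_rfl]; ring
        · exact ih.1 i (by omega)
      · rcases eq_or_lt_of_le (show i ≤ j by omega) with rfl | h1
        · exact f1
        · exact ih.2 i h1
  refine hp ⟨δ.toNat, by omega, fun i => ?_⟩
  have := key (max i1 (i + 1)) (by omega)
  rw [← (h.fixed (this.2 i (by omega))).2, this.1 i (by omega)]; congr 1; omega

theorem self_right {G : A → List A} (hs : ∀ a, a ∈ G a) {ε : ℤ → A} {g : ℤ → ℤ}
    (h : Parse G ε ε g) (hp : ¬ IsPer ε) : ∃ i0, ∀ i, i0 ≤ i → i ≤ g i := by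
  obtain ⟨i0, h0⟩ := self_left (by simpa using hs) (h.rev 0 0) (fun hq => hp (by
    simpa using hq.rev 0))
  refine ⟨-i0, fun i hi => ?_⟩
  have := h0 (-i) (by omega)
  simp at this; exact this

variable [Fintype A]

theorem HS.exists_fix {G : A → List A} {y0 : List A} {o : A} {P : A → List B} {Lc : Lang B}
    {ϖ : ℕ} (S : HS G y0 o P Lc ϖ) : ∃ p, 1 ≤ p ∧ ∀ m ϖ' d ε, S.sys.lang.Good ϖ' → Dir d →
      End S.sys.lang ϖ' d ε → ∃ g, Parse (pw G (m * p)) ε ε g := by
  have key : ∀ d, Dir d → ∃ p, 1 ≤ p ∧ ∀ ε, End S.sys.lang ϖ d ε → ∃ g, Parse (pw G p) ε ε g := by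
    intro d hd
    have := (S.fin hd).to_subtype
    choose c f hc using fun ε : {ε | End S.sys.lang ϖ d ε} => S.stepG.child_end hd ε.2
    let φ : {ε | End S.sys.lang ϖ d ε} → {ε | End S.sys.lang ϖ d ε} := fun ε => ⟨c ε, (hc ε).1⟩
    have inj : Function.Injective φ := fun ε ε' e => by
      have e1 : c ε = c ε' := congrArg Subtype.val e
      exact Subtype.ext (S.stepG.parent_unique hd ε'.2 ε.2 (hc ε').2 (e1 ▸ (hc ε).2)).1
    obtain ⟨p, p1, p2⟩ := exists_idem_iter φ
    refine ⟨p, p1, fun ε hε => ?_⟩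
    have : ∀ n, ∃ g, Parse (pw G n) (φ^[n] ⟨ε, hε⟩).1 ε g := by
      intro n
      induction n with
      | zero => exact ⟨_, Parse.id_parse ε⟩
      | succ n ih =>
        obtain ⟨g, hg⟩ := ih
        rw [show pw G (n + 1) = fun a => app G (pw G n a) from funext (pw_succ' G n),
          Function.iterate_succ_apply']
        exact ⟨_, (hc _).2.comp hg⟩
    have e := this p
    rwa [(inj.iterate p) (p2 _)] at e
  obtain ⟨p1, a1, b1⟩ := key 1 (Or.inl rfl)
  obtain ⟨p2, a2, b2⟩ := key (-1) (Or.inr rfl)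
  refine ⟨p1 * p2, Nat.one_le_iff_ne_zero.2 (by positivity), fun m ϖ' d ε hg hd hε => ?_⟩
  obtain ⟨s, hs⟩ := hε.change S.step.gp hg hd
  have : ∃ g, Parse (pw G (m * (p1 * p2))) (fun i => ε (i + s)) (fun i => ε (i + s)) g := by
    rcases hd with rfl | rfl
    · obtain ⟨g, hg⟩ := b1 _ hs
      have := hg.iter (m * p2)
      rw [pw_pw, show m * p2 * p1 = m * (p1 * p2) by ring] at this
      exact ⟨_, this⟩
    · obtain ⟨g, hg⟩ := b2 _ hs
      have := hg.iter (m * p1)
      rw [pw_pw, show m * p1 * p2 = m * (p1 * p2) by ring] at this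
      exact ⟨_, this⟩
  obtain ⟨g, hg⟩ := this
  exact ⟨_, by simpa using hg.shift (-s) (-s)⟩

/-- a system fixing all its ends -/
structure FS (G : A → List A) (y0 : List A) (o : A) (P : A → List B) (Lc : Lang B) (ϖ : ℕ) :
    Prop extends HS G y0 o P Lc ϖ where
  fix : ∀ d ε, Dir d → End sys.lang ϖ d ε → ∃ g, Parse G ε ε g

/-- an end, its coding and the two cut maps -/
structure ED (G : A → List A) (P : A → List B) (Lp : Lang A) (Lc : Lang B) (ϖ : ℕ) (d : ℤ) where
  u : ℤ → A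
  v : ℤ → B
  g : ℤ → ℤ
  f : ℤ → ℤ
  eu : End Lp ϖ d u
  ev : End Lc ϖ d v
  pg : Parse G u u g
  pf : Parse P v u f

namespace ED

variable {G : A → List A} {P : A → List B} {Lp : Lang A} {Lc : Lang B} {ϖ : ℕ} {d : ℤ}

/-- cut map of level `k` -/
def cut (E : ED G P Lp Lc ϖ d) (k : ℕ) (i : ℤ) : ℤ := E.f (E.g^[k] i)

theorem parse (E : ED G P Lp Lc ϖ d) (k : ℕ) : Parse (sig P G k) E.v E.u (E.cut k) :=
  E.pf.comp (E.pg.iter k)

theorem cut_succ (E : ED G P Lp Lc ϖ d) (k : ℕ) (i : ℤ) : E.cut (k + 1) i = E.cut k (E.g i) := rfl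

theorem cut_zero (E : ED G P Lp Lc ϖ d) : E.cut 0 = E.f := rfl

end ED

namespace FS

variable {G : A → List A} {y0 : List A} {o : A} {P : A → List B} {Lc : Lang B} {ϖ : ℕ}

/-- end data of a system -/
abbrev E (S : FS G y0 o P Lc ϖ) (d : ℤ) : Type := ED G P S.sys.lang Lc ϖ d

theorem ed_u (S : FS G y0 o P Lc ϖ) {d : ℤ} (hd : Dir d) {ε : ℤ → A}
    (h : End S.sys.lang ϖ d ε) : ∃ E : S.E d, E.u = ε := by
  obtain ⟨g, hg⟩ := S.fix d ε hd h
  obtain ⟨v, f, h1, h2⟩ := S.step.child_end hd h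
  exact ⟨⟨ε, v, g, f, h, h1, hg, h2⟩, rfl⟩

theorem ed_v (S : FS G y0 o P Lc ϖ) {d : ℤ} (hd : Dir d) {v : ℤ → B}
    (h : End Lc ϖ d v) : ∃ E : S.E d, E.v = v := by
  obtain ⟨ε, f, h1, h2⟩ := S.step.parent_end hd h
  obtain ⟨g, hg⟩ := S.fix d ε hd h1
  exact ⟨⟨ε, v, g, f, h1, h, hg, h2⟩, rfl⟩

theorem ext_u (S : FS G y0 o P Lc ϖ) {d : ℤ} (hd : Dir d) {E E' : S.E d} (h : E.u = E'.u) :
    E = E' := by
  obtain ⟨u, v, g, f, a1, a2, a3, a4⟩ := E
  obtain ⟨u', v', g', f', b1, b2, b3, b4⟩ := E'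
  simp only at h
  subst h
  obtain ⟨rfl, rfl⟩ := S.step.child_unique hd a2 b2 a4 b4
  obtain ⟨-, rfl⟩ := S.stepG.child_unique hd a1 a1 a3 b3
  rfl

theorem ext_v (S : FS G y0 o P Lc ϖ) {d : ℤ} (hd : Dir d) {E E' : S.E d} (h : E.v = E'.v) :
    E = E' :=
  S.ext_u hd (S.step.parent_unique hd E'.eu E.eu E'.pf (h ▸ E.pf)).1

theorem finE (S : FS G y0 o P Lc ϖ) {d : ℤ} (hd : Dir d) : Finite (S.E d) := by
  have := (S.fin hd).to_subtype
  exact Finite.of_injective (fun E : S.E d => (⟨E.u, E.eu⟩ : {ε | End S.sys.lang ϖ d ε}))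
    fun E E' h => S.ext_u hd (congrArg Subtype.val h)

theorem unif (S : FS G y0 o P Lc ϖ) {d : ℤ} (hd : Dir d) (K : ℕ) : ∃ c : ℕ, K ≤ c ∧ ∀ E : S.E d,
    ∀ i : ℤ, c ≤ i → (E.g (-i) ≤ -i ∧ i ≤ E.g i) ∧ ∀ k, E.cut k (-i) ≤ -K ∧ K ≤ E.cut k i := by
  have := S.finE hd
  have key : ∀ E : S.E d, ∃ c : ℕ, ∀ i : ℤ, c ≤ i →
      (E.g (-i) ≤ -i ∧ i ≤ E.g i) ∧ ∀ k, E.cut k (-i) ≤ -K ∧ K ≤ E.cut k i := by
    intro E
    obtain ⟨i0, h0⟩ := self_left S.norm.self E.pg (E.eu.aper S.step.gp)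
    obtain ⟨i1, h1⟩ := self_right S.norm.self E.pg (E.eu.aper S.step.gp)
    refine ⟨i0.natAbs + i1.natAbs + (E.f 0).natAbs + K, fun i hi =>
      ⟨⟨h0 _ (by omega), h1 _ (by omega)⟩, fun k => ?_⟩⟩
    have a1 : ∀ k, E.g^[k] (-i) ≤ -i ∧ i ≤ E.g^[k] i := by
      intro k
      induction k with
      | zero => simp
      | succ k ih =>
        rw [Function.iterate_succ_apply', Function.iterate_succ_apply']
        have := h0 (E.g^[k] (-i)) (by omega)
        have := h1 (E.g^[k] i) (by omega)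
        omega
    have := a1 k
    have := E.pf.le_add S.step.ne (i := E.g^[k] (-i)) (j := 0) (by omega)
    have := E.pf.le_add S.step.ne (i := 0) (j := E.g^[k] i) (by omega)
    simp only [ED.cut]
    omega
  choose c hc using key
  obtain ⟨N, hN⟩ := (Set.finite_range c).bddAbove
  exact ⟨N + K, by omega, fun E i hi => hc E i (by have := hN ⟨E, rfl⟩; omega)⟩

theorem base (S : FS G y0 o P Lc ϖ) : FS G y0 o (fun a => [a]) S.sys.lang ϖ :=
  ⟨S.toHS.base, S.fix⟩

end FS

end Pool.Agent.P.MP_1e185c_lc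

/-! Interface statements between the layers of the proof. -/

set_option autoImplicit false

namespace Pool.Agent.P.MP_1e185c_lc

open Filter

/-- an instance with the end marker `0` -/
structure Marked (g h : ℕ → List ℕ) (u v : List ℕ) (D : ℕ) : Prop where
  gD : ∀ a, D ≤ a → g a = []
  hD : ∀ a, D ≤ a → h a = []
  g0 : g 0 = [0, 0]
  h0 : h 0 = [0, 0]
  gn : ∀ a, a ≠ 0 → 0 ∉ g a
  hn : ∀ a, a ≠ 0 → 0 ∉ h a
  hu : ∃ u0, 0 ∉ u0 ∧ u = 0 :: u0 ++ [0]
  hv : ∃ v0, 0 ∉ v0 ∧ v = 0 :: v0 ++ [0]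

/-- the combinatorial core of the proof -/
def Core : Prop :=
  ∀ (D : ℕ) (g h : ℕ → List ℕ) (u v : List ℕ) (U : Ultrafilter ℕ), Marked g h u v D →
    (U : Filter ℕ) ≤ atTop → H0 g h u v U → H1 g h u v U → H1 h g v u U → H3 g h u v U →
    H3 h g v u U → SC g h v U

variable {A B Z : Type}

/-- regular languages do not separate two sequences -/
def C0 (s t : ℕ → List Z) : Prop :=
  ∀ R : Set (List Z), (Set.range fun w => {w' | w ++ w' ∈ R}).Finite →
    ∃ᶠ j in atTop, (s j ∈ R ↔ t j ∈ R)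

/-- the coded iterates of a letter occur often in the sequence `t` -/
def C2 (G : A → List A) (P : A → List Z) (Λ : Lang A) (t : ℕ → List Z) : Prop :=
  ∀ b, [b] ∈ Λ.L → ∀ j p, 1 ≤ p → 2 ≤ cp (fun c => c = b) (pw G p b) → ∃ N, ∀ C, ∃ i,
    C * (2 * cp (fun c => c = b) (pw G p b) - 1) ^ i < 2 ^ i * cnt (sig P G j b) (t (N + i * p))

/-- lengths of longest periodic runs do not separate the two systems -/
def C3 (G : A → List A) (P : A → List Z) (y0 : List A) (H : B → List B) (R : B → List Z)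
    (z0 : List B) (o : B) : Prop :=
  ∀ (j : ℕ) (θ : Pat A) (θ' : Pat B) (η : Pat Z) (κ e a b κ' e' a' b' A0 B0 : ℕ),
    Low G θ θ κ e → Low P θ η a b → θ.W A0 <:+: it G j y0 →
    Up H θ' θ' κ' e' B0 o (fun i => it H i (it H j z0)) →
    Up R θ' η a' b' (a' * B0 + b') o (fun i => it H i (it H j z0)) →
    (∃ d ∈ θ'.c ++ θ'.p, d ≠ o) → (∃ d ∈ θ'.p ++ θ'.d, d ≠ o) →
    (∀ m, B0 < m → ∀ i : ℤ, seg (pad o (it H j z0)) i (θ'.W m).length ≠ θ'.W m) →
    ¬ (κ' ≤ κ ∧ a' * B0 + b' < a * A0 + b ∧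
      (a * A0 + b) + (a' * (κ' * B0 + e') + b') ≤ (a * (κ * A0 + e) + b) + (a' * B0 + b'))

/-- only the marker is coded with the letter `0` -/
def Mk (P : A → List ℕ) (o : A) : Prop := P o = [0] ∧ ∀ a, a ≠ o → 0 ∉ P a

/-- the main statement on a pair of normalized systems -/
def PairMain : Prop :=
  ∀ (A B : Type) [Fintype A] [Fintype B] (G : A → List A) (y0 : List A) (o : A) (P : A → List ℕ)
    (H : B → List B) (z0 : List B) (o' : B) (R : B → List ℕ) (Lc : Lang ℕ) (ϖ : ℕ)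
    (S : FS G y0 o P Lc ϖ) (T : FS H z0 o' R Lc ϖ), Mk P o → Mk R o' →
    (∀ a, a ≠ o → o ∉ G a) →
    C0 (fun j => app P (it G j y0)) (fun j => app R (it H j z0)) →
    C2 G P S.sys.lang (fun j => app R (it H j z0)) →
    C2 H R T.sys.lang (fun j => app P (it G j y0)) →
    C3 G P y0 H R z0 o' → C3 H R z0 G P y0 o →
    (∀ j, ∃ w, app R (it H j z0) = app P w) →
    ∃ N0, ∀ m, N0 ≤ m → ∃ C, ∀ k, ∃ w : List A, w.length ≤ C ∧
      (app (sig P G k) w).filter (fun c => c ≠ 0) =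
        (app R (it H (m + k) z0)).filter (fun c => c ≠ 0)

/-- an aperiodic letter of exponential growth is matched by a letter of the other system -/
def MatchM : Prop :=
  ∀ (A B Z : Type) [Fintype A] [Fintype B] (G : A → List A) (y0 : List A) (o : A) (P : A → List Z)
    (H : B → List B) (z0 : List B) (o' : B) (R : B → List Z) (Lc : Lang Z) (ϖ : ℕ)
    (S : HS G y0 o P Lc ϖ) (T : HS H z0 o' R Lc ϖ),
    C2 G P S.sys.lang (fun j => app R (it H j z0)) →
    C2 H R T.sys.lang (fun j => app P (it G j y0)) →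
    ∀ a, [a] ∈ S.sys.lang.L → (∃ p, 2 ≤ cp (fun c => c = a) (pw G p a)) →
      (∃ k i, i + ϖ < (sig P G k a).length ∧ (sig P G k a)[i + ϖ]? ≠ (sig P G k a)[i]?) →
      ∃ (c : ℕ) (b : B), ∀ k, sig P G k a <:+: sig R H (k + c) b

end Pool.Agent.P.MP_1e185c_lc
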