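import Pool.Agent.P.MP_1e185c_lc.Defs2
import Pool.Agent.P.MP_1e185c_lc.Cert0
import Pool.Agent.P.MP_1e185c_lc.Cert1
import Pool.Agent.P.MP_1e185c_lc.Cert3
import Pool.Agent.P.MP_1e185c_lc.CertC

/-! Global assembly: marker transform, cover by certified classes, decidability. -/

set_option autoImplicit false

namespace Pool.Agent.P.MP_1e185c_lc

open Filter Pool.Agent.Lib.ComputableProp

namespace FD

/-- a predicate in normal form is recursively enumerable -/
theorem re_pred {α : Type} [Primcodable α] {P : α → Prop} (h : RE P) : REPred P := by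
  obtain ⟨t, ht, H⟩ := h
  have h1 : Partrec fun a => Nat.rfind fun n => (Part.some (t (a, n)) : Part Bool) :=
    Partrec.rfind (p := fun a n => (Part.some (t (a, n)) : Part Bool)) ht.partrec
  refine h1.dom_re.of_eq fun a => ?_
  rw [H]
  refine Nat.rfind_dom.trans ⟨?_, ?_⟩
  · rintro ⟨n, hn, -⟩
    exact ⟨n, (Part.mem_some_iff.1 hn).symm⟩
  · rintro ⟨n, hn⟩
    exact ⟨n, Part.mem_some_iff.2 hn.symm, fun _ => trivial⟩

/-- finitely many certified classes cover all large numbers -/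
theorem cover (C : ℕ → ℕ → Prop)
    (h : ∀ U : Ultrafilter ℕ, (U : Filter ℕ) ≤ atTop → ∃ M N, 1 ≤ M ∧ InCl U M N ∧ C M N) :
    ∃ Mb N0, 1 ≤ Mb ∧ ∀ r < Mb, ∃ M N, C M N ∧ (∃ q, Mb = q * M) ∧ ∃ j, N0 + r = N + j * M := by
  by_contra hc
  let F : Filter ℕ :=
    { sets := {A | ∃ Mb N0, 1 ≤ Mb ∧ ∀ n, N0 ≤ n → n ∈ A ∨
        ∃ M N, C M N ∧ (∃ q, Mb = q * M) ∧ ∃ j, n = N + j * M}
      univ_sets := ⟨1, 0, le_rfl, fun n _ => Or.inl trivial⟩
      sets_of_superset := by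
        rintro A B ⟨Mb, N0, h1, h2⟩ hAB
        exact ⟨Mb, N0, h1, fun n hn => (h2 n hn).imp (fun h => hAB h) id⟩
      inter_sets := by
        rintro A B ⟨Mb, N0, h1, h2⟩ ⟨Mb', N0', h1', h2'⟩
        refine ⟨Mb * Mb', max N0 N0', Nat.mul_pos h1 h1', fun n hn => ?_⟩
        rcases h2 n (le_trans (le_max_left _ _) hn) with hA | ⟨M, N, hC, ⟨q, hq⟩, hj⟩
        · rcases h2' n (le_trans (le_max_right _ _) hn) with hB | ⟨M, N, hC, ⟨q, hq⟩, hj⟩
          · exact Or.inl ⟨hA, hB⟩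
          · exact Or.inr ⟨M, N, hC, ⟨Mb * q, by rw [hq]; ring⟩, hj⟩
        · exact Or.inr ⟨M, N, hC, ⟨Mb' * q, by rw [hq]; ring⟩, hj⟩ }
  have hF : F.NeBot := by
    rw [neBot_iff, Ne, ← empty_mem_iff_bot]
    rintro ⟨Mb, N0, h1, h2⟩
    refine hc ⟨Mb, N0, h1, fun r _ => ?_⟩
    rcases h2 (N0 + r) (Nat.le_add_right _ _) with h | h
    · exact h.elim
    · exact h
  have hle : (Ultrafilter.of F : Filter ℕ) ≤ F := Ultrafilter.of_le F
  have hFa : F ≤ atTop := by
    intro A hA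
    obtain ⟨N0, hN⟩ := mem_atTop_sets.1 hA
    exact ⟨1, N0, le_rfl, fun n hn => Or.inl (hN n hn)⟩
  obtain ⟨M, N, hM, hcl, hC⟩ := h (Ultrafilter.of F) (hle.trans hFa)
  have hco : {n | ∃ j, n = N + j * M}ᶜ ∈ F := by
    refine ⟨M, 0, hM, fun n _ => ?_⟩
    by_cases hn : ∃ j, n = N + j * M
    · exact Or.inr ⟨M, N, hC, ⟨1, by ring⟩, hn⟩
    · exact Or.inl hn
  exact (Ultrafilter.compl_mem_iff_notMem.1 (hle hco)) hcl

/-- shift the letters of a table and add the marker -/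
def mkT (t : List (List ℕ)) : List (List ℕ) := [0, 0] :: t.map fun w => w.map fun a => a + 1

/-- shift the letters of a word and add the markers -/
def mkW (w : List ℕ) : List ℕ := 0 :: (w.map fun a => a + 1) ++ [0]

/-- the marked instance -/
def mk (p : Inst) : Inst := ((mkT p.1.1, mkT p.1.2), (mkW p.2.1, mkW p.2.2))

/-- exchange the two systems -/
def sw (p : Inst) : Inst := ((p.1.2, p.1.1), (p.2.2, p.2.1))

theorem c_mk : Computable mk := by
  unfold mk mkT mkW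
  fun_prop

theorem c_sw : Computable sw := by
  unfold sw
  fun_prop

theorem mkT_zero (t : List (List ℕ)) : (mkT t).getD 0 [] = [0, 0] := rfl

theorem mkT_succ (t : List (List ℕ)) (a : ℕ) :
    (mkT t).getD (a + 1) [] = (t.getD a []).map fun a => a + 1 := by
  simp only [mkT, List.getD_eq_getElem?_getD, List.getElem?_cons_succ, List.getElem?_map]
  cases t[a]? <;> simp

theorem app_shift (t : List (List ℕ)) (w : List ℕ) :
    app (fun a => (mkT t).getD a []) (w.map fun a => a + 1) =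
      (app (fun a => t.getD a []) w).map fun a => a + 1 := by
  induction w with
  | nil => rfl
  | cons a w ih =>
    simp only [app, List.map_cons, List.flatMap_cons, List.map_append] at ih ⊢
    rw [ih, mkT_succ]

theorem app_zero (t : List (List ℕ)) (m : ℕ) :
    app (fun a => (mkT t).getD a []) (List.replicate m 0) = List.replicate (m * 2) 0 := by
  induction m with
  | zero => rfl
  | succ m ih =>
    simp only [app, List.replicate_succ, List.flatMap_cons] at ih ⊢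
    rw [ih, mkT_zero, show (m + 1) * 2 = m * 2 + 1 + 1 by ring, List.replicate_succ,
      List.replicate_succ]
    rfl

theorem it_mk (t : List (List ℕ)) (w : List ℕ) (n : ℕ) :
    it (fun a => (mkT t).getD a []) n (mkW w) = List.replicate (2 ^ n) 0 ++
      ((it (fun a => t.getD a []) n w).map fun a => a + 1) ++ List.replicate (2 ^ n) 0 := by
  induction n with
  | zero => rfl
  | succ n ih =>
    rw [C0.it_succ, ih, C0.app_append, C0.app_append, app_zero, app_shift, C0.it_succ, pow_succ]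

theorem mk_iff (p : Inst) (n : ℕ) :
    it (gOf (mk p)) n (mk p).2.1 = it (hOf (mk p)) n (mk p).2.2 ↔
      it (gOf p) n p.2.1 = it (hOf p) n p.2.2 := by
  change it (fun a => (mkT p.1.1).getD a []) n (mkW p.2.1) =
      it (fun a => (mkT p.1.2).getD a []) n (mkW p.2.2) ↔
    it (fun a => p.1.1.getD a []) n p.2.1 = it (fun a => p.1.2.getD a []) n p.2.2
  rw [it_mk, it_mk]
  constructor
  · intro h
    have h1 := List.append_cancel_left (List.append_cancel_right h)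
    exact List.map_injective_iff.2 (fun a b hab => by simpa using hab) h1
  · intro h
    rw [h]

theorem mkT_far (t : List (List ℕ)) (a : ℕ) (ha : t.length + 1 ≤ a) : (mkT t).getD a [] = [] := by
  rw [List.getD_eq_default]
  simpa [mkT] using ha

theorem mkT_free (t : List (List ℕ)) (a : ℕ) (ha : a ≠ 0) : 0 ∉ (mkT t).getD a [] := by
  obtain ⟨b, rfl⟩ := Nat.exists_eq_succ_of_ne_zero ha
  rw [Nat.succ_eq_add_one, mkT_succ]
  simp

theorem marked (p : Inst) : Marked (gOf (mk p)) (hOf (mk p)) (mk p).2.1 (mk p).2.2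
    (max p.1.1.length p.1.2.length + 1) where
  gD a ha := mkT_far p.1.1 a (by have := le_max_left p.1.1.length p.1.2.length; omega)
  hD a ha := mkT_far p.1.2 a (by have := le_max_right p.1.1.length p.1.2.length; omega)
  g0 := rfl
  h0 := rfl
  gn := mkT_free p.1.1
  hn := mkT_free p.1.2
  hu := ⟨p.2.1.map fun a => a + 1, by simp, rfl⟩
  hv := ⟨p.2.2.map fun a => a + 1, by simp, rfl⟩

theorem sep_sw {p : Inst} {M N : ℕ} (h : Sep (sw p) M N) : Sep p M N :=
  fun j hj => h j hj.symm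

/-- one enumerable family of sound certificates which is complete on marked instances -/
theorem cert_all (core : Core) : ∃ C : Inst × ℕ × ℕ → Prop, RE C ∧
    (∀ p M N, C (p, M, N) → Sep p M N) ∧
    ∀ p D (U : Ultrafilter ℕ), Marked (gOf p) (hOf p) p.2.1 p.2.2 D → (U : Filter ℕ) ≤ atTop →
      (∀ n, it (gOf p) n p.2.1 ≠ it (hOf p) n p.2.2) →
      ∃ M N, 1 ≤ M ∧ InCl U M N ∧ C (p, M, N) := by
  obtain ⟨K0, r0, s0, c0⟩ := cert0
  obtain ⟨K1, r1, s1, c1⟩ := cert1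
  obtain ⟨K3, r3, s3, c3⟩ := cert3
  obtain ⟨KC, rC, sC, cC⟩ := certC fun A B _ σ h => Elem.inj h
  have hsw : Computable fun z : Inst × ℕ × ℕ => (sw z.1, z.2) :=
    (c_sw.comp Computable.fst).pair Computable.snd
  refine ⟨fun z => K0 z ∨ K1 z ∨ K1 (sw z.1, z.2) ∨ K3 z ∨ K3 (sw z.1, z.2) ∨ KC z,
    r0.or (r1.or ((r1.comp hsw).or (r3.or ((r3.comp hsw).or rC)))), ?_, ?_⟩
  · rintro p M N (h | h | h | h | h | h)
    · exact s0 _ _ _ h
    · exact s1 _ _ _ h
    · exact sep_sw (s1 _ _ _ h)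
    · exact s3 _ _ _ h
    · exact sep_sw (s3 _ _ _ h)
    · exact sC _ _ _ h
  · intro p D U hm hU hne
    by_cases h0 : H0 (gOf p) (hOf p) p.2.1 p.2.2 U
    swap
    · obtain ⟨M, N, a, b, c⟩ := c0 p U hU h0
      exact ⟨M, N, a, b, Or.inl c⟩
    by_cases h1 : H1 (gOf p) (hOf p) p.2.1 p.2.2 U
    swap
    · obtain ⟨M, N, a, b, c⟩ := c1 p U hU h1
      exact ⟨M, N, a, b, Or.inr (Or.inl c)⟩
    by_cases h1' : H1 (hOf p) (gOf p) p.2.2 p.2.1 U
    swap
    · obtain ⟨M, N, a, b, c⟩ := c1 (sw p) U hU h1'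
      exact ⟨M, N, a, b, Or.inr (Or.inr (Or.inl c))⟩
    by_cases h3 : H3 (gOf p) (hOf p) p.2.1 p.2.2 U
    swap
    · obtain ⟨M, N, a, b, c⟩ := c3 p U hU h3
      exact ⟨M, N, a, b, Or.inr (Or.inr (Or.inr (Or.inl c)))⟩
    by_cases h3' : H3 (hOf p) (gOf p) p.2.2 p.2.1 U
    swap
    · obtain ⟨M, N, a, b, c⟩ := c3 (sw p) U hU h3'
      exact ⟨M, N, a, b, Or.inr (Or.inr (Or.inr (Or.inr (Or.inl c))))⟩
    obtain ⟨M, N, a, b, c⟩ := cC p U hU (core D _ _ _ _ U hm hU h0 h1 h1' h3 h3') hne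
    exact ⟨M, N, a, b, Or.inr (Or.inr (Or.inr (Or.inr (Or.inr c))))⟩

theorem re_pos : RE fun p : Inst => ∃ n, it (gOf p) n p.2.1 = it (hOf p) n p.2.2 :=
  RE.ex (R := fun (p : Inst) (n : ℕ) => C0.itT p.1.1 n p.2.1 = C0.itT p.1.2 n p.2.2)
    (RE.eq (by fun_prop) (by fun_prop))

theorem re_neg (core : Core) :
    RE fun p : Inst => ¬ ∃ n, it (gOf p) n p.2.1 = it (hOf p) n p.2.2 := by
  obtain ⟨C, hre, hs, hc⟩ := cert_all core
  have h1 : RE fun p : Inst => ∃ y : ℕ × ℕ, 1 ≤ y.1 ∧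
      (∀ n < y.2, C0.itT p.1.1 n p.2.1 ≠ C0.itT p.1.2 n p.2.2) ∧
      ∀ r < y.1, ∃ c : ℕ × ℕ, C (mk p, c) ∧ (∃ q, y.1 = q * c.1) ∧
        ∃ j, y.2 + r = c.2 + j * c.1 := by
    refine RE.ex (RE.and (RE.le (by fun_prop) (by fun_prop)) (RE.and ?_ ?_))
    · exact RE.forall_lt (by fun_prop) (RE.ne (by fun_prop) (by fun_prop))
    · refine RE.forall_lt (by fun_prop) (RE.ex (RE.and ?_ (RE.and ?_ ?_)))
      · exact hre.comp (f := fun z : ((Inst × ℕ × ℕ) × ℕ) × ℕ × ℕ => (mk z.1.1.1, z.2))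
          ((c_mk.comp (by fun_prop)).pair Computable.snd)
      · exact RE.ex (RE.eq (by fun_prop) (by fun_prop))
      · exact RE.ex (RE.eq (by fun_prop) (by fun_prop))
  refine h1.of_iff fun p => ⟨?_, fun hne => ?_⟩
  · rintro ⟨⟨Mb, N0⟩, hM, hlow, hcov⟩ ⟨n, hn⟩
    simp only at hM hlow hcov
    by_cases hlt : n < N0
    · exact hlow n hlt hn
    obtain ⟨m, rfl⟩ := Nat.exists_eq_add_of_le (not_lt.1 hlt)
    obtain ⟨⟨M, N⟩, hC, ⟨q, hq⟩, j, hj⟩ := hcov (m % Mb) (Nat.mod_lt _ hM)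
    simp only at hq hj
    refine hs _ _ _ hC (j + m / Mb * q) ?_
    have e : N + (j + m / Mb * q) * M = N0 + m := by
      have := Nat.mod_add_div m Mb
      calc N + (j + m / Mb * q) * M = N + j * M + (q * M) * (m / Mb) := by ring
        _ = N0 + m % Mb + Mb * (m / Mb) := by rw [← hj, ← hq]
        _ = N0 + m := by omega
    rw [e]
    exact (mk_iff p _).2 hn
  · have hne' : ∀ n, it (gOf (mk p)) n (mk p).2.1 ≠ it (hOf (mk p)) n (mk p).2.2 :=
      fun n hn => hne ⟨n, (mk_iff p n).1 hn⟩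
    obtain ⟨Mb, N0, hM, hcov⟩ := cover (fun M N => C (mk p, M, N))
      fun U hU => hc (mk p) _ U (marked p) hU hne'
    refine ⟨(Mb, N0), hM, fun n _ hn => hne ⟨n, hn⟩, fun r hr => ?_⟩
    obtain ⟨M, N, a, b, c⟩ := hcov r hr
    exact ⟨(M, N), a, b, c⟩

end FD

theorem final (core : Core) : ComputablePred (fun p : Inst => ∃ n : ℕ,
    (fun w : List ℕ => w.flatMap (fun a => p.1.1.getD a []))^[n] p.2.1 =
      (fun w : List ℕ => w.flatMap (fun a => p.1.2.getD a []))^[n] p.2.2) :=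
  ComputablePred.computable_iff_re_compl_re'.2
    ⟨FD.re_pred FD.re_pos, FD.re_pred (FD.re_neg core)⟩

end Pool.Agent.P.MP_1e185c_lc
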