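import Pool.Agent.P.MP_1e185c_lc.Defs2
import Pool.Agent.P.MP_1e185c_lc.Cert3Aux1

/-! Long periodic runs with their two ends: descent and ascent through the levels. -/

set_option autoImplicit false
set_option linter.unusedSectionVars false

namespace Pool.Agent.P.MP_1e185c_lc

open Filter

variable {A B : Type}

/-- `y` has a run from `s` to `e` which looks like the ends `uL`, `uR` with margin `K` -/
structure Glue (ϖ K : ℕ) (y : ℤ → A) (s e : ℤ) (uL uR : ℤ → A) : Prop where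
  lt : s < e
  left : ∀ i : ℤ, -K ≤ i → i < e - s + ϖ → y (s + i) = uL i
  right : ∀ i : ℤ, s + 1 - e ≤ i → i ≤ K → y (e + i) = uR i

/-- the two ends can be glued at distance `l` -/
def Adm (ϖ : ℕ) (uL uR : ℤ → A) (l : ℤ) : Prop :=
  1 ≤ l ∧ ∀ i : ℤ, 1 ≤ i + l → i < ϖ → uL (i + l) = uR i

namespace Glue

variable {ϖ K : ℕ} {y : ℤ → A} {s e : ℤ} {uL uR : ℤ → A} {Λ : Lang A}

theorem mono (h : Glue ϖ K y s e uL uR) {K' : ℕ} (hK : K' ≤ K) : Glue ϖ K' y s e uL uR :=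
  ⟨h.lt, fun i i1 i2 => h.left i (by omega) i2, fun i i1 i2 => h.right i i1 (by omega)⟩

theorem adm (h : Glue ϖ K y s e uL uR) (hK : ϖ ≤ K) : Adm ϖ uL uR (e - s) :=
  ⟨by have := h.lt; omega, fun i i1 i2 => by
    rw [← h.left _ (by omega) (by omega), ← h.right _ (by omega) (by omega)]; congr 1; ring⟩

theorem brL (h : Glue ϖ K y s e uL uR) (hL : End Λ ϖ 1 uL) : y (s + ϖ) ≠ y s := by
  have := h.lt
  have h0 := h.left 0 (by omega) (by omega)
  rw [add_zero] at h0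
  rw [h.left _ (by omega) (by omega), h0]; exact hL.br

theorem brR (h : Glue ϖ K y s e uL uR) (hK : ϖ ≤ K) (hR : End Λ ϖ (-1) uR) : y (e + ϖ) ≠ y e := by
  have := h.lt
  have h0 := h.right 0 (by omega) (by omega)
  rw [add_zero] at h0
  rw [h.right _ (by omega) (by omega), h0]; exact hR.br

theorem unb (h : Glue ϖ K y s e uL uR) (hL : End Λ ϖ 1 uL) : Unb ϖ y (s + 1) e := by
  intro i i1 i2
  have h1 := h.left (i - s) (by omega) (by omega)
  have h2 := h.left (i - s + ϖ) (by omega) (by omega)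
  rw [show s + (i - s) = i by ring] at h1
  rw [show s + (i - s + ϖ) = i + ϖ by ring] at h2
  rw [h1, h2]; exact hL.unb _ (by omega)

theorem of_ctx (h0 : 0 < ϖ) (hK : ϖ ≤ K) (hL : End Λ ϖ 1 uL) (hR : End Λ ϖ (-1) uR) (hlt : s < e)
    (hu : Unb ϖ y (s + 1) e) (h1 : ∀ i : ℤ, -K ≤ i → i ≤ K → y (s + i) = uL i)
    (h2 : ∀ i : ℤ, -K ≤ i → i ≤ K → y (e + i) = uR i) : Glue ϖ K y s e uL uR := by
  refine ⟨hlt, fun i i1 i2 => ?_, fun i i1 i2 => ?_⟩
  · rcases le_or_gt i K with h | h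
    · exact h1 i i1 h
    · have := Unb.agree h0 (y := uL) (y' := y) (a := 1) (b := e - s) (c := 1) (t := s)
        (fun i i1 _ => hL.unb i (by omega)) (hu.mono (by omega) (by omega)) le_rfl (by omega)
        (fun j j1 j2 => by rw [add_comm]; exact h1 j (by omega) (by omega)) i (by omega) i2
      rwa [add_comm] at this
  · rcases le_or_gt (-K : ℤ) i with h | h
    · exact h2 i h i2
    · have := Unb.agree h0 (y := uR) (y' := y) (a := s + 1 - e) (b := 0) (c := 0) (t := e)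
        (fun i _ i1 => hR.unb i (by omega)) (hu.mono (by omega) (by omega)) (by omega) le_rfl
        (fun j j1 j2 => by rw [add_comm]; exact h2 j (by omega) (by omega)) i i1 (by omega)
      rwa [add_comm] at this

theorem congr (h : Glue ϖ K y s e uL uR) (hK : ϖ ≤ K) {y' : ℤ → A} {t : ℤ}
    (ha : ∀ i, s - K ≤ i → i ≤ e + K → y' (i + t) = y i) : Glue ϖ K y' (s + t) (e + t) uL uR := by
  have := h.lt
  refine ⟨by omega, fun i i1 i2 => ?_, fun i i1 i2 => ?_⟩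
  · rw [← h.left i i1 (by omega), ← ha _ (by omega) (by omega)]; congr 1; ring
  · rw [← h.right i (by omega) i2, ← ha _ (by omega) (by omega)]; congr 1; ring

end Glue

theorem Adm.glue {ϖ : ℕ} {uL uR : ℤ → A} {l : ℤ} (h : Adm ϖ uL uR l) (s : ℤ) :
    ∃ y, ∀ K, Glue ϖ K y s (s + l) uL uR := by
  refine ⟨fun i => if i < s + l + ϖ then uL (i - s) else uR (i - s - l), fun K =>
    ⟨by have := h.1; omega, fun i i1 i2 => ?_, fun i i1 i2 => ?_⟩⟩
  · rw [if_pos (by omega)]; simp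
  · split_ifs with h1
    · rw [← h.2 i (by omega) (by omega)]; congr 1; ring
    · congr 1; ring

theorem Adm.cut {σ : A → List B} (hσ : NE σ) {ϖ : ℕ} {uL uR : ℤ → A} {vL vR : ℤ → B}
    {fL fR : ℤ → ℤ} (pL : Parse σ vL uL fL) (pR : Parse σ vR uR fR) {l : ℤ} (h : Adm ϖ uL uR l)
    {i : ℤ} (h1 : 1 ≤ i + l) (h2 : i ≤ ϖ) : fL (i + l) - fR i = fL l - fR 0 := by
  have := h.1
  have := (pR.agree hσ pL (a := 1 - l) (b := ϖ) (c := 0) (s := fL l - fR 0) (t := l)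
    (fun i i1 i2 => h.2 i (by omega) i2) (by omega) (by omega) (by simp)).1 i (by omega) h2
  omega

theorem Glue.cuts {σ : A → List B} (hσ : NE σ) {ϖ K : ℕ} {y uL uR : ℤ → A} {x vL vR : ℤ → B}
    {F fL fR : ℤ → ℤ} {s e : ℤ} (pL : Parse σ vL uL fL) (pR : Parse σ vR uR fR)
    (h : Parse σ x y F) (g : Glue ϖ K y s e uL uR) :
    ((∀ i : ℤ, -K ≤ i → i ≤ e - s + ϖ → F (s + i) = F s - fL 0 + fL i) ∧
      ∀ p, fL (-K) ≤ p → p < fL (e - s + ϖ) → x (F s - fL 0 + p) = vL p) ∧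
    ((∀ i : ℤ, s + 1 - e ≤ i → i ≤ K + 1 → F (e + i) = F e - fR 0 + fR i) ∧
      ∀ p, fR (s + 1 - e) ≤ p → p < fR (K + 1) → x (F e - fR 0 + p) = vR p) := by
  have := g.lt
  have a := pL.agree hσ h (a := -K) (b := e - s + ϖ) (c := 0) (s := F s - fL 0) (t := s)
    (fun i i1 i2 => by rw [add_comm]; exact g.left i i1 i2) (by omega) (by omega) (by simp)
  have b := pR.agree hσ h (a := s + 1 - e) (b := K + 1) (c := 0) (s := F e - fR 0) (t := e)
    (fun i i1 i2 => by rw [add_comm]; exact g.right i i1 (by omega)) (by omega) (by omega) (by simp)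
  exact ⟨⟨fun i i1 i2 => by rw [add_comm, a.1 i i1 i2, add_comm], fun p p1 p2 => by
    rw [add_comm]; exact a.2 p p1 p2⟩, ⟨fun i i1 i2 => by rw [add_comm, b.1 i i1 i2, add_comm],
    fun p p1 p2 => by rw [add_comm]; exact b.2 p p1 p2⟩⟩

variable [Fintype A]

namespace Step

variable {σ : A → List B} {Lp : Lang A} {Lc : Lang B} {ϖ : ℕ} {uL uR : ℤ → A} {vL vR : ℤ → B}
  {fL fR : ℤ → ℤ}

theorem cutR0 (S : Step σ Lp Lc ϖ) (h : Parse σ vR uR fR) (hu : End Lp ϖ (-1) uR)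
    (hv : End Lc ϖ (-1) vR) : fR 0 ≤ 0 := by
  have := S.cutR h hu hv
  have := h.le_add S.ne (i := 0) (j := ϖ) (by omega)
  omega

theorem desc (S : Step σ Lp Lc ϖ) (eL : End Lp ϖ 1 uL) (eL' : End Lc ϖ 1 vL)
    (eR : End Lp ϖ (-1) uR) (eR' : End Lc ϖ (-1) vR) (pL : Parse σ vL uL fL)
    (pR : Parse σ vR uR fR) {K K' : ℕ} (k1 : ϖ ≤ K) (k2 : ϖ ≤ K') (k3 : fL (-K) ≤ -K')
    (k4 : K' < fR (K + 1)) {x : ℤ → B} {y : ℤ → A} {F : ℤ → ℤ} {s e : ℤ} (h : Parse σ x y F)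
    (g : Glue ϖ K y s e uL uR) : Glue ϖ K' x (F s - fL 0) (F e - fR 0) vL vR ∧
      F e - fR 0 - (F s - fL 0) = fL (e - s) - fR 0 := by
  obtain ⟨⟨a1, a2⟩, b1, b2⟩ := g.cuts S.ne pL pR h
  have l := g.lt
  have c1 := S.cutL pL eL eL'
  have c2 := S.cutR0 pR eR eR'
  have c3 := a1 (e - s) (by omega) (by omega)
  rw [show s + (e - s) = e by ring] at c3
  have c4 := a1 1 (by omega) (by omega)
  have c5 := b1 (s + 1 - e) le_rfl (by omega)
  rw [show e + (s + 1 - e) = s + 1 by ring] at c5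
  have c6 := pL.mono (i := 1) (j := e - s) (by omega)
  have c7 := pL.le_add S.ne (i := 1) (j := e - s + ϖ) (by omega)
  have c8 := pR.le_add S.ne (i := s + 1 - e) (j := K + 1) (by omega)
  have hu : Unb ϖ x (F s - fL 0 + 1) (F e - fR 0) := by
    intro p p1 p2
    rcases lt_or_ge p (F (s + 1)) with hp | hp
    · have e1 := a2 (p - (F s - fL 0)) (by omega) (by omega)
      have e2 := a2 (p - (F s - fL 0) + ϖ) (by omega) (by omega)
      rw [add_sub_cancel] at e1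
      rw [← add_assoc, add_sub_cancel] at e2
      rw [e1, e2]; exact eL'.unb _ (by omega)
    · have e1 := b2 (p - (F e - fR 0)) (by omega) (by omega)
      have e2 := b2 (p - (F e - fR 0) + ϖ) (by omega) (by omega)
      rw [add_sub_cancel] at e1
      rw [← add_assoc, add_sub_cancel] at e2
      rw [e1, e2]; exact eR'.unb _ (by omega)
  refine ⟨⟨by omega, fun i i1 i2 => ?_, fun i i1 i2 => ?_⟩, by omega⟩
  · rcases lt_or_ge i (fL 1) with hi | hi
    · exact a2 i (by omega) (by omega)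
    · have := Unb.agree S.gp.1 (y := vL) (y' := x) (a := 1) (b := F e - fR 0 - (F s - fL 0))
        (c := fL 1) (t := F s - fL 0) (fun i i1 _ => eL'.unb i (by omega))
        (hu.mono (by omega) (by omega)) (by omega) (by omega)
        (fun j j1 j2 => by rw [add_comm]; exact a2 j (by omega) (by omega)) i (by omega) i2
      rwa [add_comm] at this
  · rcases le_or_gt (fR (s + 1 - e)) i with hi | hi
    · exact b2 i hi (by omega)
    · have := Unb.agree S.gp.1 (y := vR) (y' := x) (a := F s - fL 0 + 1 - (F e - fR 0)) (b := 0)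
        (c := fR (s + 1 - e)) (t := F e - fR 0) (fun i _ i1 => eR'.unb i (by omega))
        (hu.mono (by omega) (by omega)) (by omega) (by omega)
        (fun j j1 j2 => by rw [add_comm]; exact b2 j (by omega) (by omega)) i i1 (by omega)
      rwa [add_comm] at this

theorem adm_child (S : Step σ Lp Lc ϖ) (eL : End Lp ϖ 1 uL) (eL' : End Lc ϖ 1 vL)
    (eR : End Lp ϖ (-1) uR) (eR' : End Lc ϖ (-1) vR) (pL : Parse σ vL uL fL)
    (pR : Parse σ vR uR fR) {l : ℤ} (h : Adm ϖ uL uR l) :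
    Adm ϖ vL vR (fL l - fR 0) ∧ l ≤ fL l - fR 0 := by
  obtain ⟨y, hy⟩ := h.glue 0
  obtain ⟨x, F, hp, -⟩ := exists_parse S.ne y 0 0
  have a1 := pL.le_add S.ne (i := -(ϖ + (fL 0).natAbs + (fR 0).natAbs : ℕ)) (j := 0) (by omega)
  have a2 := pR.le_add S.ne (i := 0) (j := (ϖ + (fL 0).natAbs + (fR 0).natAbs : ℕ) + 1) (by omega)
  obtain ⟨g, e⟩ := S.desc eL eL' eR eR' pL pR (K := ϖ + (fL 0).natAbs + (fR 0).natAbs) (K' := ϖ)
    (by omega) le_rfl (by omega) (by omega) hp (hy _)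
  have := g.adm le_rfl
  rw [e] at this
  have c1 := S.cutL pL eL eL'
  have c2 := S.cutR0 pR eR eR'
  have c3 := pL.le_add S.ne h.1
  exact ⟨by simpa using this, by omega⟩

theorem asc2 (S : Step σ Lp Lc ϖ) (f1 : {ε | End Lc ϖ 1 ε}.Finite)
    (f2 : {ε | End Lc ϖ (-1) ε}.Finite) : ∃ Ks : ℕ, ∀ K : ℕ, ∃ n : ℕ, ∀ {uL uR : ℤ → A}
    {vL vR : ℤ → B} {fL fR : ℤ → ℤ} {x : ℤ → B} {y : ℤ → A} {F : ℤ → ℤ} {P Q : ℤ},
    End Lp ϖ 1 uL → End Lc ϖ 1 vL → End Lp ϖ (-1) uR → End Lc ϖ (-1) vR → Parse σ vL uL fL →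
    Parse σ vR uR fR → y ∈ Lp.V n → Parse σ x y F → Glue ϖ Ks x P Q vL vR → P + n ≤ Q →
    ∃ s e, Glue ϖ K y s e uL uR ∧ F s = P + fL 0 ∧ F e = Q + fR 0 := by
  obtain ⟨K1, h1⟩ := sep_end f1
  obtain ⟨K2, h2⟩ := sep_end f2
  obtain ⟨ρ, hρ⟩ := S.up
  refine ⟨K1 + K2 + ϖ, fun K => ?_⟩
  obtain ⟨K', hK'⟩ : ∃ K' : ℕ, K' = K + K1 + K2 + ρ + ϖ + 1 := ⟨_, rfl⟩
  obtain ⟨n1, a1⟩ := S.asc (d := 1) (Or.inl rfl) K'
  obtain ⟨n2, a2⟩ := S.asc (d := -1) (Or.inr rfl) K'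
  refine ⟨n1 + n2 + ρ + K1 + K2 + 1, fun {uL uR vL vR fL fR x y F P Q} eL eL' eR eR' pL pR hy h g
    hl => ?_⟩
  have u := g.unb eL'
  obtain ⟨s, ε, ε', f, b1, b2, b3, b4, b5, b6, b7⟩ := a1 (Lang.V_anti (by omega) hy) h
    (g.brL eL') (fun i i1 i2 => u _ (by omega) (by omega))
  obtain ⟨e, δ, δ', f', c1, c2, c3, c4, c5, c6, c7⟩ := a2 (Lang.V_anti (by omega) hy) h
    (g.brR (by omega) eR') (fun i i1 i2 => u _ (by omega) (by omega))
  obtain rfl : ε' = vL := h1 b2 eL' fun i i1 i2 => by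
    rw [← b5 i (by omega) (by omega), g.left i (by omega) (by omega)]
  obtain rfl : δ' = vR := h2 c2 eR' fun i i1 i2 => by
    rw [← c5 i (by omega) (by omega), g.right i (by omega) (by omega)]
  obtain ⟨rfl, rfl⟩ := S.parent_unique (Or.inl rfl) eL b1 pL b3
  obtain ⟨rfl, rfl⟩ := S.parent_unique (Or.inr rfl) eR c1 pR c3
  have lt : s < e := h.lt_of_lt (by omega)
  refine ⟨s, e, (Glue.of_ctx S.gp.1 (by omega) eL eR lt (fun i i1 i2 => ?_) b4 c4).mono (by omega),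
    b6, c6⟩
  rcases le_or_gt i (s + ρ) with d1 | d1
  · have e1 := b4 (i - s) (by omega) (by omega)
    have e2 := b4 (i - s + ϖ) (by omega) (by omega)
    rw [add_sub_cancel] at e1
    rw [← add_assoc, add_sub_cancel] at e2
    rw [e1, e2]; exact eL.unb _ (by omega)
  rcases le_or_gt (e - ρ) i with d2 | d2
  · have e1 := c4 (i - e) (by omega) (by omega)
    have e2 := c4 (i - e + ϖ) (by omega) (by omega)
    rw [add_sub_cancel] at e1
    rw [← add_assoc, add_sub_cancel] at e2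
    rw [e1, e2]; exact eR.unb _ (by omega)
  · have d3 := h.step s
    have d4 := pL.step 0
    have d5 := b4 0 (by omega) (by omega)
    rw [add_zero] at d5
    rw [d5] at d3
    rw [zero_add] at d4
    have d6 := S.cutL pL eL eL'
    have d7 := S.cutR0 pR eR eR'
    have d8 := h.le_add S.ne (i := s + 1) (j := i) (by omega)
    have d9 := h.le_add S.ne (i := i) (j := e) (by omega)
    exact hρ (Lang.V_anti (by omega) hy) h (u.mono (by omega) (by omega))

end Step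

namespace FS

variable {G : A → List A} {y0 : List A} {o : A} {P : A → List B} {Lc : Lang B} {ϖ : ℕ}

/-- coded length after `k` steps of a run of length `l` -/
def Lam {S : FS G y0 o P Lc ϖ} (L : S.E 1) (R : S.E (-1)) (k : ℕ) (l : ℤ) : ℤ :=
  L.cut k l - R.cut k 0

/-- length after one step of a run of length `l` -/
def phi {S : FS G y0 o P Lc ϖ} (L : S.E 1) (R : S.E (-1)) (l : ℤ) : ℤ := L.g l - R.g 0

variable {S : FS G y0 o P Lc ϖ} {L : S.E 1} {R : S.E (-1)}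

theorem adm_phi {l : ℤ} (h : Adm ϖ L.u R.u l) : Adm ϖ L.u R.u (phi L R l) ∧ l ≤ phi L R l :=
  S.stepG.adm_child L.eu L.eu R.eu R.eu L.pg R.pg h

theorem adm_lam (k : ℕ) {l : ℤ} (h : Adm ϖ L.u R.u l) :
    Adm ϖ L.v R.v (Lam L R k l) ∧ l ≤ Lam L R k l :=
  (S.stepK k).adm_child L.eu L.ev R.eu R.ev (L.parse k) (R.parse k) h

theorem lam_succ (k : ℕ) {l : ℤ} (h : Adm ϖ L.u R.u l) :
    Lam L R (k + 1) l = Lam L R k (phi L R l) := by
  have c1 := S.stepG.cutL L.pg L.eu L.eu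
  have c2 := S.stepG.cutR0 R.pg R.eu R.eu
  have c3 := L.pg.mono h.1
  have := (adm_phi h).1.cut (S.neK k) (L.parse k) (R.parse k) (i := R.g 0)
    (by simp only [phi]; omega) (by omega)
  simp only [Lam, ED.cut_succ]
  rw [← this]; simp [phi]

theorem adm_iter (j : ℕ) {l : ℤ} (h : Adm ϖ L.u R.u l) :
    Adm ϖ L.u R.u ((phi L R)^[j] l) ∧ l ≤ (phi L R)^[j] l := by
  induction j with
  | zero => exact ⟨h, le_rfl⟩
  | succ j ih =>
    rw [Function.iterate_succ_apply']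
    exact ⟨(adm_phi ih.1).1, ih.2.trans (adm_phi ih.1).2⟩

theorem lam_add (k j : ℕ) {l : ℤ} (h : Adm ϖ L.u R.u l) :
    Lam L R (k + j) l = Lam L R k ((phi L R)^[j] l) := by
  induction j generalizing l with
  | zero => rfl
  | succ j ih => rw [← add_assoc, lam_succ _ h, ih (adm_phi h).1]; rfl

variable (S)

theorem desc (K' : ℕ) : ∃ c : ℕ, ϖ ≤ c ∧ K' ≤ c ∧ ∀ (k : ℕ) (L : S.E 1) (R : S.E (-1)) {K : ℕ}
    {x : ℤ → B} {y : ℤ → A} {F : ℤ → ℤ} {s e : ℤ}, c ≤ K → Parse (sig P G k) x y F →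
    Glue ϖ K y s e L.u R.u → ∃ p q, Glue ϖ K' x p q L.v R.v ∧ q - p = Lam L R k (e - s) ∧
      F s = p + L.cut k 0 ∧ F e = q + R.cut k 0 ∧ F (s - c) + K' ≤ p ∧ p < F (s + 1) ∧
      F (e + ϖ) ≤ q + ϖ ∧ q + K' < F (e + c) := by
  obtain ⟨c1, a1, b1⟩ := S.unif (d := 1) (Or.inl rfl) (K' + ϖ)
  obtain ⟨c2, a2, b2⟩ := S.unif (d := -1) (Or.inr rfl) (K' + ϖ + 1)
  refine ⟨c1 + c2, by omega, by omega, fun k L R K x y F s e hK h g => ?_⟩
  have d1 := ((b1 L K (by omega)).2 k).1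
  have d2 := ((b2 R (K + 1) (by omega)).2 k).2
  have d3 := ((b1 L (c1 + c2 : ℕ) (by omega)).2 k).1
  have d4 := ((b2 R (c1 + c2 : ℕ) (by omega)).2 k).2
  obtain ⟨g1, g2⟩ := (S.stepK k).desc L.eu L.ev R.eu R.ev (L.parse k) (R.parse k) (K := K)
    (K' := K' + ϖ) (by omega) (by omega) d1 (by omega) h g
  obtain ⟨⟨e1, -⟩, e2, -⟩ := g.cuts (S.neK k) (L.parse k) (R.parse k) h
  have l := g.lt
  have e3 := e1 (-(c1 + c2 : ℕ)) (by omega) (by omega)
  have e4 := e1 1 (by omega) (by omega)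
  have e5 := e2 ϖ (by omega) (by omega)
  have e6 := e2 (c1 + c2 : ℕ) (by omega) (by omega)
  have e7 := (S.stepK k).cutL (L.parse k) L.eu L.ev
  have e8 := (S.stepK k).cutR (R.parse k) R.eu R.ev
  rw [← sub_eq_add_neg] at e3
  exact ⟨_, _, g1.mono (by omega), g2, by omega, by omega, by omega, by omega, by omega, by omega⟩

theorem asc : ∃ Ks : ℕ, ϖ ≤ Ks ∧ ∀ K : ℕ, ∃ n : ℕ, ∀ (k : ℕ) (L : S.E 1) (R : S.E (-1))
    {x : ℤ → B} {y : ℤ → A} {F : ℤ → ℤ} {p q : ℤ}, y ∈ S.sys.lang.V n →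
    Parse (sig P G k) x y F → Glue ϖ Ks x p q L.v R.v →
    ((p + n ≤ q ∧ ∀ j < k, ∀ l, Adm ϖ L.u R.u l → Lam L R j l = q - p → n ≤ l) ∨
      ∃ a a' : ℤ, a + n ≤ a' ∧ p ≤ F a ∧ F a' ≤ q + ϖ) →
    ∃ s e, Glue ϖ K y s e L.u R.u ∧ F s = p + L.cut k 0 ∧ F e = q + R.cut k 0 := by
  obtain ⟨K1, h1⟩ := S.step.asc2 (S.finc (Or.inl rfl)) (S.finc (Or.inr rfl))
  obtain ⟨K2, h2⟩ := S.stepG.asc2 (S.fin (Or.inl rfl)) (S.fin (Or.inr rfl))
  obtain ⟨c, c1, -, hc⟩ := S.desc ϖ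
  obtain ⟨b, hb, -⟩ := S.div
  refine ⟨K1 + ϖ, by omega, fun K => ?_⟩
  obtain ⟨n1, a1⟩ := h1 (K + K2 + c + b)
  obtain ⟨n2, a2⟩ := h2 (K + K2 + c + b)
  suffices H : ∀ (k : ℕ) (L : S.E 1) (R : S.E (-1))
      {x : ℤ → B} {y : ℤ → A} {F : ℤ → ℤ} {p q : ℤ}, y ∈ S.sys.lang.V (n1 + n2 + ϖ + 2 * c) →
      Parse (sig P G k) x y F → Glue ϖ (K1 + ϖ) x p q L.v R.v →
      ((p + (n1 + n2 + ϖ + 2 * c : ℕ) ≤ q ∧ ∀ j < k, ∀ l, Adm ϖ L.u R.u l → Lam L R j l = q - p →
        (n1 + n2 + ϖ + 2 * c : ℕ) ≤ l) ∨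
        ∃ a a' : ℤ, a + (n1 + n2 + ϖ + 2 * c : ℕ) ≤ a' ∧ p ≤ F a ∧ F a' ≤ q + ϖ) →
      ∃ s e, Glue ϖ (K + K2 + c + b) y s e L.u R.u ∧ F s = p + L.cut k 0 ∧ F e = q + R.cut k 0 by
    refine ⟨n1 + n2 + ϖ + 2 * c, fun k L R x y F p q hy h g hc => ?_⟩
    obtain ⟨s, e, g1, g2⟩ := H k L R hy h g hc
    exact ⟨s, e, g1.mono (by omega), g2⟩
  intro k L R
  induction k with
  | zero =>
    intro x y F p q hy h g hd
    rw [sig_zero] at h
    refine a1 L.eu L.ev R.eu R.ev L.pf R.pf (Lang.V_anti (by omega) hy) h (g.mono (by omega)) ?_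
    rcases hd with hd | ⟨a, a', d1, d2, d3⟩
    · omega
    · have := h.le_add S.step.ne (i := a) (j := a') (by omega)
      omega
  | succ k ih =>
    intro x y F p q hy h g hd
    obtain ⟨y1, F1, φ, b1, b2, b3⟩ := S.dec h
    obtain ⟨s1, e1, g1, g2, g3⟩ := ih (S.stepG.imgV hy b2) b1 g (by
      rcases hd with hd | ⟨a, a', d1, d2, d3⟩
      · exact Or.inl ⟨hd.1, fun j hj => hd.2 j (by omega)⟩
      · refine Or.inr ⟨φ a, φ a', ?_, by rwa [← b3], by rwa [← b3]⟩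
        have := b2.le_add S.norm.ne (i := a) (j := a') (by omega)
        omega)
    obtain ⟨p', q', -, r1, r2, r3, r4, -, -, r5⟩ := hc k L R (by omega) b1 g1
    obtain rfl : p = p' := by omega
    obtain rfl : q = q' := by omega
    obtain ⟨s, e, g4, g5, g6⟩ := a2 L.eu L.eu R.eu R.eu L.pg R.pg (Lang.V_anti (by omega) hy) b2
      (g1.mono (by omega)) (by
      rcases hd with hd | ⟨a, a', d1, d2, d3⟩
      · have := hd.2 k (by omega) _ (g1.adm (by omega)) r1.symm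
        omega
      · have := b2.le_add S.norm.ne (i := a) (j := a') (by omega)
        have := b1.le_of_le (S.neK k) (i := s1 - c) (j := φ a) (by rw [← b3]; omega)
        have := b1.le_of_le (S.neK k) (i := φ a') (j := e1 + c) (by rw [← b3]; omega)
        omega)
    obtain ⟨⟨t1, -⟩, t2, -⟩ := g1.cuts (S.neK k) (L.parse k) (R.parse k) b1
    obtain ⟨⟨t3, -⟩, -⟩ := g4.cuts S.norm.ne L.pg R.pg b2
    have l := g4.lt
    have t4 := t3 1 (by omega) (by omega)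
    have t5 := S.stepG.cutL L.pg L.eu L.eu
    have t6 := S.stepG.cutR0 R.pg R.eu R.eu
    have t7 := b2.mono (i := s + 1) (j := e) (by omega)
    have t8 := b2.lt S.norm.ne l
    have t9 := L.pg.step 0
    have t10 := hb (L.u 0)
    rw [zero_add] at t9
    refine ⟨s, e, g4, ?_, ?_⟩
    · rw [b3, g5, t1 _ (by omega) (by omega), ED.cut_succ]; omega
    · rw [b3, g6, t2 _ (by omega) (by omega), ED.cut_succ]; omega

end FS

end Pool.Agent.P.MP_1e185c_lc

/-! Pairs of systems: transfer of long periodic runs from one system to the other. -/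

set_option autoImplicit false
set_option linter.unusedSectionVars false

namespace Pool.Agent.P.MP_1e185c_lc

open Filter

variable {A B Z : Type} [Fintype A] [Fintype B] {G : A → List A} {y0 : List A} {o : A}
  {P : A → List Z} {G' : B → List B} {y0' : List B} {o' : B} {P' : B → List Z} {Lc : Lang Z}
  {ϖ : ℕ}

/-- a long run of the given type occurs in the sequence -/
def FS.Oc (S : FS G y0 o P Lc ϖ) (L : S.E 1) (R : S.E (-1)) (K n : ℕ) : Prop :=
  ∃ j s e, Glue ϖ K (pad o (it G j y0)) s e L.u R.u ∧ s + n ≤ e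

theorem pad_of_infix {w W : List A} (h : w <:+: W) (o : A) :
    ∃ t : ℤ, 0 ≤ t ∧ t + w.length ≤ W.length ∧ seg (pad o W) t w.length = w := by
  have h' : w <:+: seg (pad o W) 0 W.length := by rwa [seg_pad]
  obtain ⟨i, h1, h2, h3⟩ := infix_seg h'
  exact ⟨i, h1, by omega, h3⟩

theorem FS.oc_of_X (S : FS G y0 o P Lc ϖ) {L : S.E 1} {R : S.E (-1)} {K K0 n : ℕ}
    {y : ℤ → A} (hy : y ∈ S.sys.lang.X) {s e : ℤ} (g : Glue ϖ K y s e L.u R.u) (hK : ϖ ≤ K)
    (hK0 : K0 ≤ K) (hl : s + n ≤ e) : S.Oc L R K0 n := by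
  have l := g.lt
  obtain ⟨j, hj⟩ := (hy (e - s + 2 * K + 1).toNat (s - K)).exists
  obtain ⟨t, -, -, h⟩ := pad_of_infix hj o
  rw [seg_length] at h
  refine ⟨j, s + (t - s + K), e + (t - s + K), (g.congr hK fun i i1 i2 => ?_).mono hK0, by omega⟩
  have := seg_eq_seg h (i - s + K) (by omega) (by omega)
  rw [show s - K + (i - s + K) = i by ring] at this
  rw [← this]; congr 1; ring

/-- the coded lengths of runs grow in the same way in both systems -/
def C3L (S : FS G y0 o P Lc ϖ) (T : FS G' y0' o' P' Lc ϖ) : Prop :=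
  ∃ K0 n0 : ℕ, ∀ (L : S.E 1) (R : S.E (-1)) (L' : T.E 1) (R' : T.E (-1)), L.v = L'.v →
    R.v = R'.v → (S.Oc L R K0 n0 ∨ T.Oc L' R' K0 n0) → ∀ l l' j, Adm ϖ L.u R.u l →
    Adm ϖ L'.u R'.u l' →
    (FS.Lam L R j l = FS.Lam L' R' j l' ↔ FS.Lam L R 0 l = FS.Lam L' R' 0 l')

theorem C3L.swap {S : FS G y0 o P Lc ϖ} {T : FS G' y0' o' P' Lc ϖ} (h : C3L S T) : C3L T S := by
  obtain ⟨K0, n0, h⟩ := h
  refine ⟨K0, n0, fun L' R' L R e1 e2 ho l' l j a' a => ?_⟩
  rw [eq_comm, h L R L' R' e1.symm e2.symm ho.symm l l' j a a', eq_comm]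

/-- a word with two valid parses of the same level -/
structure Cf (S : FS G y0 o P Lc ϖ) (T : FS G' y0' o' P' Lc ϖ) (k : ℕ) (x : ℤ → Z) (y : ℤ → A)
    (f : ℤ → ℤ) (y' : ℤ → B) (f' : ℤ → ℤ) : Prop where
  hy : y ∈ S.sys.lang.X
  hy' : y' ∈ T.sys.lang.X
  p : Parse (sig P G k) x y f
  p' : Parse (sig P' G' k) x y' f'

theorem Cf.swap {S : FS G y0 o P Lc ϖ} {T : FS G' y0' o' P' Lc ϖ} {k : ℕ} {x : ℤ → Z}
    {y : ℤ → A} {f : ℤ → ℤ} {y' : ℤ → B} {f' : ℤ → ℤ} (h : Cf S T k x y f y' f') :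
    Cf T S k x y' f' y f := ⟨h.hy', h.hy, h.p', h.p⟩

/-- near `s` the word `y` and its cuts look like the end `E` -/
def At {Lp : Lang A} {d : ℤ} (E : ED G P Lp Lc ϖ d) (k K : ℕ) (y : ℤ → A) (f : ℤ → ℤ)
    (s p : ℤ) : Prop :=
  (∀ i : ℤ, -K ≤ i → i ≤ K → y (s + i) = E.u i) ∧ f s = p + E.cut k 0

theorem At.cuts {S : FS G y0 o P Lc ϖ} {d : ℤ} {E : S.E d} {k K : ℕ} {x : ℤ → Z} {y : ℤ → A}
    {f : ℤ → ℤ} {s p : ℤ} (h : At E k K y f s p) (hp : Parse (sig P G k) x y f) (i : ℤ)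
    (h1 : -K ≤ i) (h2 : i ≤ K + 1) : f (s + i) = p + E.cut k i := by
  have := ((E.parse k).agree (S.neK k) hp (a := -K) (b := K + 1) (c := 0) (s := p) (t := s)
    (fun i i1 i2 => by rw [add_comm]; exact h.1 i i1 (by omega)) (by omega) (by omega)
    (by rw [zero_add, h.2, add_comm])).1 i h1 h2
  rw [add_comm, this, add_comm]

theorem FS.lam0_le (S : FS G y0 o P Lc ϖ) : ∃ b : ℕ, 1 ≤ b ∧ ∀ (L : S.E 1) (R : S.E (-1)) (l : ℤ),
    0 ≤ l → FS.Lam L R 0 l ≤ b * (l + 1) := by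
  obtain ⟨b, b1, hb⟩ := exists_bound P
  obtain ⟨c1, -, h1⟩ := S.unif (d := 1) (Or.inl rfl) 0
  obtain ⟨c2, -, h2⟩ := S.unif (d := -1) (Or.inr rfl) 0
  refine ⟨b * (c1 + c2 + 1), by nlinarith, fun L R l hl => ?_⟩
  have a1 := ((h1 L c1 le_rfl).2 0).1
  have a2 := ((h2 R c2 le_rfl).2 0).2
  have a3 := L.pf.add_le hb (i := -c1) (j := l) (by omega)
  have a4 := R.pf.add_le hb (i := 0) (j := c2) (by omega)
  simp only [FS.Lam, ED.cut_zero] at *
  push_cast at *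
  nlinarith [mul_nonneg (mul_nonneg (Int.natCast_nonneg b) hl)
    (add_nonneg (Int.natCast_nonneg c1) (Int.natCast_nonneg c2))]

/-- output of the transfer of a run `[s, s + K)` of `y` -/
structure LTO (S : FS G y0 o P Lc ϖ) (T : FS G' y0' o' P' Lc ϖ) (c K' k : ℕ) (x : ℤ → Z)
    (y : ℤ → A) (f : ℤ → ℤ) (y' : ℤ → B) (f' : ℤ → ℤ) (s : ℤ) (K : ℕ) (p q s' e' : ℤ) : Prop where
  ux : Unb ϖ x (p + 1) q
  uy : Unb ϖ y' (s' + 1) e'
  p_lt : p < f s
  le_q : f (s + K) ≤ q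
  len : s' + K' ≤ e'
  l1 : f' (s' - c) ≤ p
  l2 : p < f' (s' + 1)
  r1 : f' (e' + ϖ) ≤ q + ϖ
  r2 : q < f' (e' + c)
  left : (∀ r, r ≤ p → x (r + ϖ) = x r) ∨ ∃ (L : S.E 1) (L' : T.E 1) (s0 : ℤ), L.v = L'.v ∧
    s0 < s ∧ Unb ϖ y (s0 + 1) s ∧ At L k K' y f s0 p ∧ At L' k K' y' f' s' p
  right : (∀ r, q ≤ r → x (r + ϖ) = x r) ∨ ∃ (R : S.E (-1)) (R' : T.E (-1)) (e0 : ℤ),
    R.v = R'.v ∧ s + K ≤ e0 ∧ Unb ϖ y (s + K) e0 ∧ At R k K' y f e0 q ∧ At R' k K' y' f' e' q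

variable {S : FS G y0 o P Lc ϖ} {T : FS G' y0' o' P' Lc ϖ} {k : ℕ} {x : ℤ → Z} {y : ℤ → A}
  {f : ℤ → ℤ} {y' : ℤ → B} {f' : ℤ → ℤ}

theorem Cf.half (h : Cf S T k x y f y' f') {d : ℤ} (hd : Dir d) {s0 : ℤ}
    (he : End S.sys.lang ϖ d fun i => y (i + s0)) :
    ∃ (E : S.E d) (E' : T.E d) (p s' : ℤ), E.v = E'.v ∧
      (∀ i, y (s0 + i) = E.u i ∧ f (s0 + i) = p + E.cut k i) ∧
      (∀ i, y' (s' + i) = E'.u i ∧ f' (s' + i) = p + E'.cut k i) ∧ ∀ r, x (p + r) = E.v r := by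
  obtain ⟨E, hE⟩ := S.ed_u hd he
  obtain ⟨E', hE'⟩ := T.ed_v hd E.ev
  have a := (E.parse k).agree_all (S.neK k) h.p (c := 0) (s := f s0 - E.cut k 0) (t := s0)
    (fun i => by rw [hE]) (by simp)
  have b := h.p'.shift (f s0 - E.cut k 0) 0
  rw [show (fun p => x (p + (f s0 - E.cut k 0))) = E'.v from funext fun r => by
    rw [a.2, hE']] at b
  obtain ⟨t, ht⟩ := (T.elem k).unique (E'.parse k) b (E'.eu.aper T.step.gp)
  refine ⟨E, E', f s0 - E.cut k 0, t, hE'.symm, fun i => ⟨by rw [hE, add_comm], ?_⟩,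
    fun i => ⟨?_, ?_⟩, fun r => by rw [add_comm, a.2]⟩
  · rw [add_comm, a.1, add_comm]
  · have := (ht i).1
    simp only [add_zero] at this
    rw [add_comm, this]
  · have := (ht i).2
    simp only [add_zero] at this
    rw [add_comm]; omega

theorem C3L.lt (h3 : C3L S T) : ∃ c : ℕ, ϖ ≤ c ∧ ∀ K' : ℕ, ∃ K : ℕ, ∀ {k : ℕ} {x : ℤ → Z}
    {y : ℤ → A} {f : ℤ → ℤ} {y' : ℤ → B} {f' : ℤ → ℤ} {s : ℤ}, Cf S T k x y f y' f' →
    Unb ϖ y s (s + K) → ∃ p q s' e', LTO S T c K' k x y f y' f' s K p q s' e' := by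
  obtain ⟨K0, n0, h3⟩ := h3
  obtain ⟨c0, c1, -, hc⟩ := T.desc ϖ
  obtain ⟨cL, -, uL⟩ := T.unif (d := 1) (Or.inl rfl) 1
  obtain ⟨cR, -, uR⟩ := T.unif (d := -1) (Or.inr rfl) 1
  obtain ⟨Ks, k1, ha⟩ := T.asc
  obtain ⟨cS, c2, -, hS⟩ := S.desc Ks
  obtain ⟨b, b1, hb⟩ := T.lam0_le
  have h0 := S.pos
  refine ⟨c0 + cL + cR, by omega, fun K' => ?_⟩
  obtain ⟨n1, a1⟩ := ha (K' + c0)
  obtain ⟨nL, eL⟩ := long_end S.sys.lang ϖ 1 (K' + cS + K0)
  obtain ⟨nR, eR⟩ := long_end S.sys.lang ϖ (-1) (K' + cS + K0)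
  obtain ⟨K, hK⟩ : ∃ K, K = nL + nR + n0 + n1 + b * (n1 + K' + 2) := ⟨_, rfl⟩
  refine ⟨K, fun {k x y f y' f' s} h hu => ?_⟩
  have ne := S.neK k
  have ne' := T.neK k
  by_cases hl : ∃ s0, s0 ≤ s - 1 ∧ y (s0 + ϖ) ≠ y s0 <;>
    by_cases hr : ∃ e0, s + K ≤ e0 ∧ y (e0 + ϖ) ≠ y e0
  · obtain ⟨s1, s2, s3⟩ := hl
    obtain ⟨s0, -, s4, s5, s6⟩ := exists_last (P := fun i => y (i + ϖ) ≠ y i) s2 s3
    obtain ⟨e1, e2, e3⟩ := hr
    obtain ⟨e0, e4, -, e5, e6⟩ := exists_first (P := fun i => y (i + ϖ) ≠ y i) e2 e3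
    have u1 : Unb ϖ y (s0 + 1) s := fun i i1 i2 => not_not.1 (s6 i (by omega) (by omega))
    have u2 : Unb ϖ y (s + K) e0 := fun i i1 i2 => not_not.1 (e6 i i1 i2)
    have u : Unb ϖ y (s0 + 1) e0 := fun i i1 i2 => by
      rcases lt_or_ge i s with j | j
      · exact u1 i i1 j
      rcases lt_or_ge i (s + K) with j' | j'
      · exact hu i j j'
      · exact u2 i j' i2
    obtain ⟨ε, d1, d2⟩ := eL y (h.hy _) s0 s5 fun i i1 i2 => u _ (by omega) (by omega)
    obtain ⟨δ, d3, d4⟩ := eR y (h.hy _) e0 e5 fun i i1 i2 => u _ (by omega) (by omega)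
    obtain ⟨L, rfl⟩ := S.ed_u (Or.inl rfl) d1
    obtain ⟨R, rfl⟩ := S.ed_u (Or.inr rfl) d3
    have g := Glue.of_ctx h0 (by omega) L.eu R.eu (by omega) u d2 d4
    obtain ⟨p, q, g1, r1, r2, r3, -, r4, r5, -⟩ := hS k L R (by omega) h.p g
    obtain ⟨L', hL'⟩ := T.ed_v (Or.inl rfl) L.ev
    obtain ⟨R', hR'⟩ := T.ed_v (Or.inr rfl) R.ev
    have ad := g.adm (by omega)
    have c3 := h3 L R L' R' hL'.symm hR'.symm
      (Or.inl (S.oc_of_X h.hy g (by omega) (by omega) (by omega)))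
    have key : ∀ j, j ≤ k → ∀ l, Adm ϖ L'.u R'.u l → FS.Lam L' R' j l = q - p →
        (n1 + K' + 1 : ℤ) ≤ l := by
      intro j hj l hl e
      obtain ⟨m, rfl⟩ := Nat.exists_eq_add_of_le hj
      rw [r1, FS.lam_add j m ad, eq_comm, c3 _ _ _ (FS.adm_iter m ad).1 hl] at e
      have t1 := (FS.adm_iter m ad).2
      have t2 := (FS.adm_lam 0 (FS.adm_iter m ad).1).2
      have t3 := hb L' R' l (by have := hl.1; omega)
      have t4 : (b : ℤ) * (n1 + K' + 2) ≤ b * (l + 1) := by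
        have : ((b * (n1 + K' + 2) : ℕ) : ℤ) ≤ K := by omega
        push_cast at this
        omega
      have := le_of_mul_le_mul_left t4 (by omega)
      omega
    have t2 := (FS.adm_lam k ad).2
    obtain ⟨s', e', g2, r6, r7⟩ := a1 k L' R' (h.hy' _) h.p' (by rw [hL', hR']; exact g1)
      (Or.inl ⟨by omega, fun j hj l hl e => by have := key j hj.le l hl e; omega⟩)
    obtain ⟨p', q', -, t3, t4, t5, t6, t7, t8, t9⟩ := hc k L' R' (by omega) h.p' g2
    obtain rfl : p = p' := by omega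
    obtain rfl : q = q' := by omega
    have t10 := key k le_rfl _ (g2.adm (by omega)) t3.symm
    have m1 := h.p.mono (i := s0 + 1) (j := s) (by omega)
    have m2 := h.p.le_add ne (i := s + K) (j := e0 + ϖ) (by omega)
    have m3 := h.p'.mono (i := s' - (c0 + cL + cR : ℕ)) (j := s' - c0) (by omega)
    have m4 := h.p'.mono (i := e' + c0) (j := e' + (c0 + cL + cR : ℕ)) (by omega)
    exact ⟨p, q, s', e', g1.unb L.ev, g2.unb L'.eu, by omega, by omega, by omega, by omega, t7, t8,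
      by omega, Or.inr ⟨L, L', s0, hL'.symm, by omega, u1,
        ⟨fun i i1 i2 => d2 i (by omega) (by omega), r2⟩,
        ⟨fun i i1 i2 => g2.left i (by omega) (by omega), r6⟩⟩,
      Or.inr ⟨R, R', e0, hR'.symm, e4, u2, ⟨fun i i1 i2 => d4 i (by omega) (by omega), r3⟩,
        ⟨fun i i1 i2 => g2.right i (by omega) (by omega), r7⟩⟩⟩
  · obtain ⟨s1, s2, s3⟩ := hl
    obtain ⟨s0, -, s4, s5, s6⟩ := exists_last (P := fun i => y (i + ϖ) ≠ y i) s2 s3
    push Not at hr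
    have u1 : Unb ϖ y (s0 + 1) s := fun i i1 i2 => not_not.1 (s6 i (by omega) (by omega))
    have u : ∀ i, s0 < i → y (i + ϖ) = y i := fun i i1 => by
      rcases lt_or_ge i s with j | j
      · exact u1 i i1 j
      rcases lt_or_ge i (s + K) with j' | j'
      · exact hu i j j'
      · exact hr i j'
    obtain ⟨L, L', p, s', d1, d2, d3, d4⟩ := h.half (Or.inl rfl) (s0 := s0)
      ⟨Lang.X_shift h.hy _, by simpa [add_comm] using s5, fun i hi => by
        have := u (i + s0) (by omega)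
        rw [← this]; congr 1; ring⟩
    have ux : ∀ r, p < r → x (r + ϖ) = x r := fun r hr => by
      have := L.ev.unb (r - p) (by omega)
      rwa [← d4, ← d4, ← add_assoc, add_sub_cancel] at this
    obtain ⟨e', he'⟩ : ∃ e' : ℤ, e' = s' + K' + (f (s + K) - f' s').natAbs + 1 := ⟨_, rfl⟩
    have m1 := h.p.mono (i := s0 + 1) (j := s) (by omega)
    have m2 := (S.stepK k).cutL (L.parse k) L.eu L.ev
    have m3 := (T.stepK k).cutL (L'.parse k) L'.eu L'.ev
    have m4 := (d2 1).2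
    have m5 := (d3 1).2
    have m6 := (d3 (-(c0 + cL + cR : ℕ))).2
    have m7 := ((uL L' (c0 + cL + cR : ℕ) (by omega)).2 k).1
    have m8 := h.p'.le_add ne' (i := s') (j := e' + ϖ) (by omega)
    have m9 := h.p'.mono (i := e' + ϖ) (j := e' + (c0 + cL + cR : ℕ)) (by omega)
    have m10 := h.p'.le_add ne' (i := s' + 1) (j := e' + ϖ) (by omega)
    rw [← sub_eq_add_neg] at m6
    refine ⟨p, f' (e' + ϖ) - ϖ, s', e', fun r r1 _ => ux r r1, fun i i1 _ => ?_, by omega,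
      by omega, by omega, by omega, by omega, by omega, by omega,
      Or.inr ⟨L, L', s0, d1, by omega, u1, ⟨fun i _ _ => (d2 i).1, by simpa using (d2 0).2⟩,
        ⟨fun i _ _ => (d3 i).1, by simpa using (d3 0).2⟩⟩, Or.inl fun r hr => ux r (by omega)⟩
    have := L'.eu.unb (i - s') (by omega)
    rwa [← (d3 _).1, ← (d3 _).1, ← add_assoc, add_sub_cancel] at this
  · obtain ⟨e1, e2, e3⟩ := hr
    obtain ⟨e0, e4, -, e5, e6⟩ := exists_first (P := fun i => y (i + ϖ) ≠ y i) e2 e3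
    push Not at hl
    have u2 : Unb ϖ y (s + K) e0 := fun i i1 i2 => not_not.1 (e6 i i1 i2)
    have u : ∀ i, i < e0 → y (i + ϖ) = y i := fun i i1 => by
      rcases lt_or_ge i s with j | j
      · exact hl i (by omega)
      rcases lt_or_ge i (s + K) with j' | j'
      · exact hu i j j'
      · exact u2 i j' i1
    obtain ⟨R, R', q, e', d1, d2, d3, d4⟩ := h.half (Or.inr rfl) (s0 := e0)
      ⟨Lang.X_shift h.hy _, by simpa [add_comm] using e5, fun i hi => by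
        have := u (i + e0) (by omega)
        rw [← this]; congr 1; ring⟩
    have ux : ∀ r, r < q → x (r + ϖ) = x r := fun r hr => by
      have := R.ev.unb (r - q) (by omega)
      rwa [← d4, ← d4, ← add_assoc, add_sub_cancel] at this
    obtain ⟨s', hs'⟩ : ∃ s' : ℤ, s' = e' - K' - (f s - f' e').natAbs - 1 := ⟨_, rfl⟩
    have m1 := h.p.mono (i := s + K) (j := e0) (by omega)
    have m2 := (S.stepK k).cutR0 (R.parse k) R.eu R.ev
    have m3 := (T.stepK k).cutR (R'.parse k) R'.eu R'.ev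
    have m3' := (T.stepK k).cutR0 (R'.parse k) R'.eu R'.ev
    have m4 := (d2 0).2
    have m5 := (d3 ϖ).2
    have m5' := (d3 0).2
    have m6 := (d3 (c0 + cL + cR : ℕ)).2
    have m7 := ((uR R' (c0 + cL + cR : ℕ) (by omega)).2 k).2
    have m8 := h.p'.le_add ne' (i := s') (j := e') (by omega)
    have m9 := h.p'.mono (i := s' - (c0 + cL + cR : ℕ)) (j := s') (by omega)
    have m10 := h.p'.lt ne' (i := s') (j := s' + 1) (by omega)
    rw [add_zero] at m4 m5'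
    refine ⟨f' s', q, s', e', fun r _ r1 => ux r r1, fun i _ i1 => ?_, by omega,
      by omega, by omega, by omega, by omega, by omega, by omega,
      Or.inl fun r hr => ux r (by omega),
      Or.inr ⟨R, R', e0, d1, e4, u2, ⟨fun i _ _ => (d2 i).1, m4⟩, ⟨fun i _ _ => (d3 i).1, m5'⟩⟩⟩
    have := R'.eu.unb (i - e') (by omega)
    rwa [← (d3 _).1, ← (d3 _).1, ← add_assoc, add_sub_cancel] at this
  · push Not at hl hr
    have u : Per y ϖ := fun i => by
      rcases lt_or_ge i s with j | j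
      · exact hl i (by omega)
      rcases lt_or_ge i (s + K) with j' | j'
      · exact hu i j j'
      · exact hr i j'
    have px := h.p.isPer ne ⟨ϖ, h0, u⟩
    have ux : Per x ϖ := S.step.gc.2 x ((S.stepK k).imgX h.hy h.p) px
    have uy : Per y' ϖ := T.step.gp.2 y' h.hy' ((T.elem k).isPer h.p' px)
    obtain ⟨s', hs'⟩ : ∃ s' : ℤ, s' = - (f s - f' 0).natAbs - 1 := ⟨_, rfl⟩
    obtain ⟨e', he'⟩ : ∃ e' : ℤ, e' = s' + K' + (f (s + K) - f' s').natAbs + 1 := ⟨_, rfl⟩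
    have m1 := h.p'.le_add ne' (i := s') (j := 0) (by omega)
    have m8 := h.p'.le_add ne' (i := s') (j := e' + ϖ) (by omega)
    have m9 := h.p'.mono (i := e' + ϖ) (j := e' + (c0 + cL + cR : ℕ)) (by omega)
    have m2 := h.p'.mono (i := s' - (c0 + cL + cR : ℕ)) (j := s') (by omega)
    have m10 := h.p'.lt ne' (i := s') (j := s' + 1) (by omega)
    exact ⟨f' s', f' (e' + ϖ) - ϖ, s', e', ux.unb _ _, uy.unb _ _, by omega, by omega, by omega,
      by omega, by omega, by omega, by omega, Or.inl fun r _ => ux r, Or.inl fun r _ => ux r⟩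

end Pool.Agent.P.MP_1e185c_lc

/-! Pairs of systems: between two breaks the numbers of tiles are comparable. -/

set_option autoImplicit false
set_option linter.unusedSectionVars false

namespace Pool.Agent.P.MP_1e185c_lc

open Filter

variable {A B Z : Type} [Fintype A] [Fintype B] {G : A → List A} {y0 : List A} {o : A}
  {P : A → List Z} {G' : B → List B} {y0' : List B} {o' : B} {P' : B → List Z} {Lc : Lang Z}
  {ϖ : ℕ}

/-- position `p` lies in the tile `i` -/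
def In (f : ℤ → ℤ) (i p : ℤ) : Prop := f i ≤ p ∧ p < f (i + 1)

variable {S : FS G y0 o P Lc ϖ} {T : FS G' y0' o' P' Lc ϖ}

theorem C3L.ar (h3 : C3L S T) (N : ℕ) : ∃ K : ℕ, ∀ {k : ℕ} {x : ℤ → Z} {y : ℤ → A} {f : ℤ → ℤ}
    {y' : ℤ → B} {f' : ℤ → ℤ} {p p' i i' a a' : ℤ}, Cf S T k x y f y' f' → x (p + ϖ) ≠ x p →
    x (p' + ϖ) ≠ x p' → In f i p → In f i' p' → i' ≤ i + N → In f' a p → In f' a' p' →
    Rigid ϖ K y' (a + 1) a' := by
  obtain ⟨c, -, hc⟩ := h3.swap.lt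
  obtain ⟨K, hK⟩ := hc (N + 1)
  refine ⟨K, fun {k x y f y' f' p p' i i' a a'} h b1 b2 i1 i2 hN a1 a2 s s1 s2 hu => ?_⟩
  obtain ⟨p0, q0, s', e', t⟩ := hK h.swap hu
  have m1 := h.p'.mono s1
  have m2 := h.p'.mono s2
  have m3 := h.p'.mono (i := s) (j := s + K) (by omega)
  have := t.p_lt; have := t.le_q; have := t.len; have := t.l2; have := t.r1
  obtain ⟨i1, i1'⟩ := i1; obtain ⟨i2, i2'⟩ := i2; obtain ⟨a1, a1'⟩ := a1; obtain ⟨a2, a2'⟩ := a2
  have d1 : p ≤ p0 := by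
    by_contra hc
    exact b1 (t.ux p (by omega) (by omega))
  have d2 : q0 ≤ p' := by
    by_contra hc
    exact b2 (t.ux p' (by omega) (by omega))
  have d3 := h.p.lt_of_lt (i := i) (j := s' + 1) (by omega)
  have d4 := h.p.le_add (S.neK k) (i := i' + 1) (j := i' + 1 + ϖ) (by omega)
  have d5 := h.p.lt_of_lt (i := e' + ϖ) (j := i' + 1 + ϖ) (by omega)
  omega

theorem C3L.gap (h3 : C3L S T) (N : ℕ) : ∃ D : ℕ, ∀ {k : ℕ} {x : ℤ → Z} {y : ℤ → A} {f : ℤ → ℤ}
    {y' : ℤ → B} {f' : ℤ → ℤ} {p p' i i' a a' : ℤ}, Cf S T k x y f y' f' → x (p + ϖ) ≠ x p →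
    x (p' + ϖ) ≠ x p' → In f i p → In f i' p' → i' ≤ i + N → In f' a p → In f' a' p' →
    Unb ϖ x (p + 1) p' → a' ≤ a + D := by
  obtain ⟨K, hK⟩ := h3.ar N
  obtain ⟨D, hD⟩ := T.upRigid K
  refine ⟨D + 1, fun {k x y f y' f' p p' i i' a a'} h b1 b2 i1 i2 hN a1 a2 hu => ?_⟩
  have := hD k (h.hy' _) h.p' (hK h b1 b2 i1 i2 hN a1 a2)
    (hu.mono (by have := a1.2; omega) (by have := a2.1; omega))
  omega

theorem C3L.split (h3 : C3L S T) (N : ℕ) : ∃ D : ℕ, ∀ {k : ℕ} {x : ℤ → Z} {y : ℤ → A}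
    {f : ℤ → ℤ} {y' : ℤ → B} {f' : ℤ → ℤ} {p1 p2 i1 i2 a1 a2 : ℤ} (K n0 : ℕ) (j : ℤ),
    Cf S T k x y f y' f' → x (p1 + ϖ) ≠ x p1 → x (p2 + ϖ) ≠ x p2 → p1 ≤ p2 → In f i1 p1 →
    In f i2 p2 → i2 ≤ i1 + N → In f' a1 p1 → In f' a2 p2 →
    (∀ i p p' a a', i1 ≤ i → i ≤ i2 → x (p + ϖ) ≠ x p → x (p' + ϖ) ≠ x p' → p ≤ p' → In f i p →
      In f i p' → In f' a p → In f' a' p' → a' ≤ a + K ∨ (i = j ∧ a' ≤ a + n0)) →
    a2 ≤ a1 + (N + 1) * (K + D) + n0 := by
  obtain ⟨D, hD⟩ := h3.gap N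
  refine ⟨D, fun {k x y f y' f' p1 p2 i1 i2 a1 a2} K n0 j h b1 b2 hp i1' i2' hN a1' a2' hJ => ?_⟩
  have key : ∀ (m : ℕ) (i p a : ℤ), i < i1 + m → i1 ≤ i → i ≤ i2 → p1 ≤ p → x (p + ϖ) ≠ x p →
      In f i p → In f' a p → a ≤ a1 + m * (K + D) + if j ≤ i then n0 else 0 := by
    intro m
    induction m with
    | zero => intro i p a h1 h2; omega
    | succ m ih =>
      intro i p a h1 h2 h3 h4 b hi ha
      obtain ⟨r, r1, r2, r3, r4⟩ := exists_first (P := fun p => x (p + ϖ) ≠ x p)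
        (a := max p1 (f i)) (b := p) (by have := hi.1; omega) b
      obtain ⟨a', ha'⟩ := h.p'.tile (T.neK k) r
      have t1 := hJ i r p a' a h2 h3 r3 b r2 ⟨by omega, by have := hi.2; omega⟩ hi ha' ha
      have t0 : (0 : ℤ) ≤ m * (K + D) := by positivity
      have t2 : a' ≤ a1 + m * (K + D) + D + if j ≤ i - 1 then n0 else 0 := by
        rcases eq_or_lt_of_le (show p1 ≤ r by omega) with e | e
        · subst e
          have := h.p'.tile_unique ha'.1 ha'.2 a1'.1 a1'.2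
          split_ifs <;> omega
        · have t3 : p1 < f i := by
            by_contra hc
            exact r4 p1 (by omega) e b1
          obtain ⟨r', s1, s2, s3, s4⟩ := exists_last (P := fun p => x (p + ϖ) ≠ x p)
            (a := p1) (b := r - 1) (by omega) b1
          have t4 : r' < f i := by
            by_contra hc
            exact r4 r' (by omega) (by omega) s3
          obtain ⟨i', hi'⟩ := h.p.tile (S.neK k) r'
          obtain ⟨a'', ha''⟩ := h.p'.tile (T.neK k) r'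
          have t5 := h.p.lt_of_lt (i := i') (j := i) (by omega)
          have t6 := h.p.lt_of_lt (i := i1) (j := i' + 1) (by have := i1'.1; omega)
          have t7 := ih i' r' a'' (by push_cast at h1; omega) (by omega) (by omega) s1 s3 hi' ha''
          have t8 := hD h s3 r3 hi' (i' := i) ⟨by omega, by have := hi.2; omega⟩ (by omega) ha''
            ha' fun q q1 q2 => not_not.1 (s4 q (by omega) (by omega))
          split_ifs at t7 ⊢ <;> omega
      push_cast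
      rw [add_mul, one_mul]
      split_ifs at t2 ⊢ <;> omega
  have t1 := h.p.lt_of_lt (i := i1) (j := i2 + 1) (by have := i1'.1; have := i2'.2; omega)
  have := key (N + 1) i2 p2 a2 (by push_cast; omega) (by omega) le_rfl hp b2 i2' a2'
  push_cast at this
  split_ifs at this <;> omega

theorem len_app_ge {G : A → List A} (hs : ∀ a, a ∈ G a) (w : List A) :
    w.length + cp (Grow G) w ≤ (app G w).length := by
  induction w with
  | nil => simp
  | cons a w ih =>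
    rw [app_cons, List.length_append, List.length_cons]
    by_cases ha : Grow G a
    · rw [cp_cons_pos ha]
      have := ha.two hs
      omega
    · rw [cp_cons_neg ha]
      have := (self_ne hs).pos a
      omega

theorem Parse.grow_ge {G : A → List A} (hs : ∀ a, a ∈ G a) {y y1 : ℤ → A} {φ : ℤ → ℤ}
    (h : Parse G y1 y φ) {a b : ℤ} (hab : a ≤ b) :
    φ a + (b - a) + gc (Grow G) y a b ≤ φ b := by
  have h1 := (h.add a (b - a).toNat).1
  have h2 := len_app_ge hs (seg y a (b - a).toNat)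
  rw [seg_length] at h2
  rw [show a + ((b - a).toNat : ℤ) = b by omega] at h1
  unfold gc
  omega

/-- inside a tile of the letter `a` at most `K` tiles of the other system separate two breaks -/
def CmpL (S : FS G y0 o P Lc ϖ) (T : FS G' y0' o' P' Lc ϖ) (a : A) (k K : ℕ) : Prop :=
  ∀ {x : ℤ → Z} {y : ℤ → A} {f : ℤ → ℤ} {y' : ℤ → B} {f' : ℤ → ℤ} {i p p' a1 a2 : ℤ},
    Cf S T k x y f y' f' → y i = a → x (p + ϖ) ≠ x p → x (p' + ϖ) ≠ x p' → p ≤ p' → In f i p →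
    In f i p' → In f' a1 p → In f' a2 p' → a2 ≤ a1 + K

theorem CmpL.mono {a : A} {k K K' : ℕ} (h : CmpL S T a k K) (hK : K ≤ K') : CmpL S T a k K' :=
  fun c e b1 b2 hp i1 i2 a1 a2 => by have := h c e b1 b2 hp i1 i2 a1 a2; omega

theorem cmp_unb {a : A} (h : ∀ k i, i + ϖ < (sig P G k a).length →
    (sig P G k a)[i + ϖ]? = (sig P G k a)[i]?) (k : ℕ) : CmpL S T a k ϖ := by
  intro x y f y' f' i p p' a1 a2 c e b1 b2 hp i1 i2 a1' a2'
  have t1 : f (i + 1) ≤ p + ϖ := by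
    by_contra hc
    have s1 := c.p.get? i p i1.1 i1.2
    have s2 := c.p.get? i (p + ϖ) (by have := i1.1; omega) (by omega)
    have s3 := c.p.step i
    have := i1.1
    rw [e] at s1 s2 s3
    rw [show (p + ϖ - f i).toNat = (p - f i).toNat + ϖ by omega, h k _ (by omega), s1] at s2
    exact b1 (Option.some.inj s2).symm
  by_contra hc
  have := c.p'.le_add (T.neK k) (i := a1 + 1) (j := a2) (by omega)
  have := i2.2; have := a1'.2; have := a2'.1
  omega

theorem C3L.cmp_exp (h3 : C3L S T) {a : A} {c : ℕ} {b : B}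
    (hb : ∀ k, sig P G k a <:+: sig P' G' (k + c) b) : ∃ K, ∀ k, CmpL S T a k K := by
  obtain ⟨K, hK⟩ := h3.ar 0
  obtain ⟨D, hD⟩ := T.urRigid K
  refine ⟨(pw G' c b).length + 3 * D + 1, fun k => ?_⟩
  intro x y f y' f' i p p' a1 a2 h e b1 b2 hp i1 i2 a1' a2'
  by_contra hc
  obtain ⟨x2, f2, q1, q2, q3, q4⟩ := parse_pad (T.neK k) o' (pw G' c b)
  have q5 : sig P G k a <:+: seg x2 0 (app (sig P' G' k) (pw G' c b)).length := by
    rw [q4]
    have := hb k
    rwa [sig_add] at this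
  obtain ⟨t, t1, t2, t3⟩ := infix_seg q5
  have q6 := q1.shift (t - f i) 0
  have s1 := h.p.step i
  have s2 := h.p.lett i
  rw [e] at s1 s2
  obtain ⟨i1, i1'⟩ := i1; obtain ⟨i2, i2'⟩ := i2
  obtain ⟨r, -, r2⟩ := hD k (h.hy' _) h.p' q6 (a := a1 + 1) (b := a2) (fun r r1 r2 => by
    have := a1'.2; have := a2'.1
    have := seg_eq_seg (t3.trans s2.symm) (r - f i) (by omega) (by omega)
    rw [add_sub_cancel] at this
    rw [← this]; congr 1; ring) (hK h b1 b2 ⟨i1, i1'⟩ ⟨i2, i2'⟩ (by omega) a1' a2')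
    (by push_cast at hc; omega)
  have r3 := r2 (a1 + 1 + D) le_rfl (by push_cast at hc; omega)
  have r4 := r2 (a2 - D) (by push_cast at hc; omega) le_rfl
  simp only [add_zero] at r3 r4
  have m1 := h.p'.mono (i := a1 + 1) (j := a1 + 1 + D) (by omega)
  have m2 := h.p'.mono (i := a2 - D) (j := a2) (by omega)
  have := a1'.2; have := a2'.1
  have m3 := q1.le_of_le (T.neK k) (i := 0) (j := a1 + 1 + D + r) (by omega)
  have m4 := q1.le_of_le (T.neK k) (i := a2 - D + r) (j := (pw G' c b).length) (by omega)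
  push_cast at hc
  omega

theorem C3L.cmp_loop (h3 : C3L S T) {a : A} (h1 : cp (fun c => c = a) (G a) ≤ 1) {K0 : ℕ}
    (h0 : ∀ b ∈ G a, b ≠ a → ∀ k, CmpL S T b k K0) : ∃ K, ∀ k, CmpL S T a k K := by
  obtain ⟨b, -, hb⟩ := exists_bound G
  obtain ⟨b0, -, hb0⟩ := exists_bound P
  obtain ⟨K, hK⟩ := h3.ar 0
  obtain ⟨W, -, hW⟩ := T.dense K
  obtain ⟨D, hD⟩ := h3.split b
  refine ⟨((b + 1) * (K0 + D) + 1) * W + b0, fun k => ?_⟩
  induction k with
  | zero =>
    intro x y f y' f' i p p' a1 a2 h e b1 b2 hp i1 i2 a1' a2'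
    by_contra hc
    have t1 := h.p'.le_add (T.neK 0) (i := a1 + 1) (j := a2) (by omega)
    have t2 := h.p.step i
    have t3 := hb0 (y i)
    rw [sig_zero] at t2
    have := i1.1; have := i2.2; have := a1'.2; have := a2'.1
    omega
  | succ k ih =>
    intro x y f y' f' i p p' a1 a2 h e b1 b2 hp i1 i2 a1' a2'
    by_contra hc
    obtain ⟨y1, f1, φ, c1, c2, c3⟩ := S.dec h.p
    obtain ⟨y1', f1', φ', d1, d2, d3⟩ := T.dec h.p'
    have h' : Cf S T k x y1 f1 y1' f1' := ⟨S.stepG.imgX h.hy c2, T.stepG.imgX h.hy' d2, c1, d1⟩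
    obtain ⟨j1, hj1⟩ := c1.tile (S.neK k) p
    obtain ⟨j2, hj2⟩ := c1.tile (S.neK k) p'
    obtain ⟨g1, hg1⟩ := d1.tile (T.neK k) p
    obtain ⟨g2, hg2⟩ := d1.tile (T.neK k) p'
    have t1 := c1.lt_of_lt (i := φ i) (j := j1 + 1) (by have := i1.1; rw [← c3]; omega)
    have t2 := c1.lt_of_lt (i := j2) (j := φ (i + 1)) (by have := i2.2; rw [← c3]; omega)
    have t3 := d1.lt_of_lt (i := g1) (j := φ' (a1 + 1)) (by have := a1'.2; rw [← d3]; omega)
    have t4 := d1.lt_of_lt (i := φ' a2) (j := g2 + 1) (by have := a2'.1; rw [← d3]; omega)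
    have t5 := c2.step i
    have t6 := hb (y i)
    obtain ⟨j, s1, s2, s3⟩ := c2.grow_child S.norm.self i
    have uq : ∀ m m', φ i ≤ m → m < m' → m' < φ (i + 1) → y1 m = a → y1 m' = a → False := by
      intro m m' m1 m2 m3 m4 m5
      have u1 := gc_add (fun c => c = a) y1 (a := φ i) (b := m') (c := φ (i + 1)) (by omega)
        (by omega)
      have u2 := (gc_pos (g := fun c => c = a) (y := y1) (a := φ i) (b := m')).2 ⟨m, m1, m2, m4⟩
      have u3 := (gc_pos (g := fun c => c = a) (y := y1) (a := m') (b := φ (i + 1))).2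
        ⟨m', le_rfl, m3, m5⟩
      have u4 : gc (fun c => c = a) y1 (φ i) (φ (i + 1)) = cp (fun c => c = a) (G a) := by
        unfold gc
        rw [show (φ (i + 1) - φ i).toNat = (G (y i)).length by omega, c2.lett, e]
      omega
    have t7 := hD K0 _ j h' b1 b2 hp hj1 hj2 (by omega) hg1 hg2
      fun m q q' g g' m1 m2 q1 q2 q3 q4 q5 q6 q7 => by
        by_cases hm : y1 m = a
        · refine Or.inr ⟨?_, ih h' hm q1 q2 q3 q4 q5 q6 q7⟩
          rcases lt_trichotomy m j with l | l | l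
          · exact (uq m j (by omega) l s2 hm (s3.trans e)).elim
          · exact l
          · exact (uq j m s1 l (by omega) (s3.trans e) hm).elim
        · exact Or.inl (h0 _ (e ▸ c2.mem (i := i) (by omega) (by omega)) hm k h' rfl q1 q2 q3 q4 q5
            q6 q7)
    have t8 := hW ((b + 1) * (K0 + D) + 1) (h.hy' _) (hK h b1 b2 i1 i2 (by omega) a1' a2')
      (by push_cast at hc ⊢; omega)
    have t9 := d2.grow_ge T.norm.self (a := a1 + 1) (b := a2) (by omega)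
    have t10 : (((b + 1) * (K0 + D) + 1 : ℕ) : ℤ) ≤ gc (Grow G') y' (a1 + 1) a2 := by
      exact_mod_cast t8
    push_cast at hc t7 t10
    omega

/-- the matching property for aperiodic letters of exponential growth -/
def Mt (S : FS G y0 o P Lc ϖ) (G' : B → List B) (P' : B → List Z) : Prop :=
  ∀ a, [a] ∈ S.sys.lang.L → (∃ p, 2 ≤ cp (fun c => c = a) (pw G p a)) →
    (∃ k i, i + ϖ < (sig P G k a).length ∧ (sig P G k a)[i + ϖ]? ≠ (sig P G k a)[i]?) →
    ∃ (c : ℕ) (b : B), ∀ k, sig P G k a <:+: sig P' G' (k + c) b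

theorem two_le_cp {G : A → List A} (hs : ∀ a, a ∈ G a) {a b : A} (h1 : b ∈ G a) (h2 : a ∈ G b)
    (hne : b ≠ a) : 2 ≤ cp (fun c => c = a) (pw G 2 a) := by
  rw [pw_succ, pw_one]
  have e := cp_app_ge (g := fun c => c = a ∨ c = b) (g' := fun c => c = a) (σ := G) (r := 1)
    (w := G a) (fun c _ hc => by
      rcases hc with rfl | rfl
      · exact cp_pos.2 ⟨_, hs _, rfl⟩
      · exact cp_pos.2 ⟨_, h2, rfl⟩)
  obtain ⟨s, t, e1⟩ := List.append_of_mem h1
  have h3 := hs a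
  rw [e1] at h3
  have : 2 ≤ cp (fun c => c = a ∨ c = b) (G a) := by
    rw [e1, cp_append, cp_cons_pos (g := fun c => c = a ∨ c = b) (Or.inr rfl)]
    rcases List.mem_append.1 h3 with h | h
    · have := (cp_pos (g := fun c => c = a ∨ c = b)).2 ⟨a, h, Or.inl rfl⟩
      omega
    · have := (cp_pos (g := fun c => c = a ∨ c = b)).2
        ⟨a, (List.mem_cons.1 h).resolve_left hne.symm, Or.inl rfl⟩
      omega
  omega

theorem C3L.cmp (h3 : C3L S T) (hm : Mt S G' P') : ∃ K, ∀ a k, CmpL S T a k K := by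
  classical
  have key : ∀ (r : ℕ) (a : A), (G a).toFinset.card ≤ r → ∃ K, ∀ k, CmpL S T a k K := by
    intro r
    induction r with
    | zero =>
      intro a ha
      have := Finset.card_pos.2 ⟨a, List.mem_toFinset.2 (S.norm.self a)⟩
      omega
    | succ r ih =>
      intro a ha
      by_cases h1 : [a] ∈ S.sys.lang.L
      swap
      · refine ⟨0, fun k x y f y' f' i p p' a1 a2 h e => (h1 ?_).elim⟩
        have := h.hy 1 i
        rwa [seg_one, e] at this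
      by_cases h2 : ∃ k i, i + ϖ < (sig P G k a).length ∧
        (sig P G k a)[i + ϖ]? ≠ (sig P G k a)[i]?
      swap
      · push Not at h2
        exact ⟨ϖ, cmp_unb h2⟩
      by_cases h4 : ∃ p, 2 ≤ cp (fun c => c = a) (pw G p a)
      · obtain ⟨c, b, hb⟩ := hm a h1 h4 h2
        exact h3.cmp_exp hb
      push Not at h4
      have : ∀ b, ∃ K, b ∈ G a → b ≠ a → ∀ k, CmpL S T b k K := by
        intro b
        by_cases hb : b ∈ G a ∧ b ≠ a
        · obtain ⟨K, hK⟩ := ih b (by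
            have h5 : a ∉ G b := fun h => by
              have := two_le_cp S.norm.self hb.1 h hb.2
              have := h4 2
              omega
            have : (G b).toFinset ⊂ (G a).toFinset := by
              refine ⟨fun c hc => List.mem_toFinset.2
                (S.norm.alph a b c hb.1 (List.mem_toFinset.1 hc)), fun h => h5 ?_⟩
              exact List.mem_toFinset.1 (h (List.mem_toFinset.2 (S.norm.self a)))
            have := Finset.card_lt_card this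
            omega)
          exact ⟨K, fun _ _ => hK⟩
        · exact ⟨0, fun b1 b2 => (hb ⟨b1, b2⟩).elim⟩
      choose K hK using this
      refine h3.cmp_loop (K0 := Finset.univ.sup K) ?_ fun b b1 b2 k =>
        CmpL.mono (hK b b1 b2 k) (Finset.le_sup (f := K) (Finset.mem_univ b))
      have := h4 1
      rw [pw_one] at this
      omega
  choose K hK using fun a => key _ a le_rfl
  exact ⟨Finset.univ.sup K, fun a k =>
    CmpL.mono (hK a k) (Finset.le_sup (f := K) (Finset.mem_univ a))⟩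

theorem C3L.jb (h3 : C3L S T) (hm : Mt S G' P') (N : ℕ) : ∃ C : ℕ, ∀ {k : ℕ} {x : ℤ → Z}
    {y : ℤ → A} {f : ℤ → ℤ} {y' : ℤ → B} {f' : ℤ → ℤ} {p p' i i' a a' : ℤ},
    Cf S T k x y f y' f' → x (p + ϖ) ≠ x p → x (p' + ϖ) ≠ x p' → p ≤ p' → In f i p → In f i' p' →
    i' ≤ i + N → In f' a p → In f' a' p' → a' ≤ a + C := by
  obtain ⟨K, hK⟩ := h3.cmp hm
  obtain ⟨D, hD⟩ := h3.split N
  refine ⟨(N + 1) * (K + D), fun {k x y f y' f' p p' i i' a a'} h b1 b2 hp i1 i2 hN a1 a2 => ?_⟩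
  have := hD K 0 0 h b1 b2 hp i1 i2 hN a1 a2 fun m q q' g g' _ _ q1 q2 q3 q4 q5 q6 q7 =>
    Or.inl (hK _ k h rfl q1 q2 q3 q4 q5 q6 q7)
  push_cast at this ⊢
  omega

end Pool.Agent.P.MP_1e185c_lc

/-! Pairs of systems: the tile of the first system at a break is determined by a bounded window
of the second system. -/

set_option autoImplicit false
set_option linter.unusedSectionVars false

namespace Pool.Agent.P.MP_1e185c_lc

open Filter

variable {A B Z : Type} [Fintype A] [Fintype B] {G : A → List A} {y0 : List A} {o : A}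
  {P : A → List Z} {G' : B → List B} {y0' : List B} {o' : B} {P' : B → List Z} {Lc : Lang Z}
  {ϖ : ℕ} {S : FS G y0 o P Lc ϖ} {T : FS G' y0' o' P' Lc ϖ}

theorem Elem.between {σ : A → List Z} (he : Elem σ) {x x2 : ℤ → Z} {y y2 : ℤ → A} {f f2 : ℤ → ℤ}
    (h : Parse σ x y f) (h2 : Parse σ x2 y2 f2) {il jl ir jr i j p : ℤ} (e1 : f il = f2 jl)
    (e2 : f ir = f2 jr) (ag : ∀ r, f il ≤ r → r < f ir → x2 r = x r) (p1 : f il ≤ p)
    (p2 : p < f ir) (hi : In f i p) (hj : In f2 j p) : f2 j = f i ∧ y2 j = y i := by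
  have l1 := h.lt_of_lt (i := il) (j := ir) (by omega)
  have l2 := h2.lt_of_lt (i := jl) (j := jr) (by omega)
  have s1 := h.seg_app l1.le
  have s2 := h2.seg_app l2.le
  have s3 : seg x2 (f2 jl) (f2 jr - f2 jl).toNat = seg x (f il) (f ir - f il).toNat := by
    rw [← e1, ← e2]
    exact seg_congr fun r hr => ag _ (by omega) (by omega)
  have s4 := he.inj (s2.symm.trans (s3.trans s1))
  have s5 := congrArg List.length s4
  rw [seg_length, seg_length] at s5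
  rw [s5] at s4
  have s6 : ∀ m, il ≤ m → m < ir → y2 (m + (jl - il)) = y m := fun m m1 m2 => by
    have := seg_eq_seg s4 (m - il) (by omega) (by omega)
    rw [add_sub_cancel] at this
    rw [← this]; congr 1; ring
  have s7 := h.cuts_right h2 (c := il) (b := ir) (s := 0) s6 (by simp [e1])
  obtain ⟨i1, i2⟩ := hi
  have t1 := h.lt_of_lt (i := il) (j := i + 1) (by omega)
  have t2 := h.lt_of_lt (i := i) (j := ir) (by omega)
  have t3 := s7 i (by omega) (by omega)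
  have t4 := s7 (i + 1) (by omega) (by omega)
  rw [show i + 1 + (jl - il) = i + (jl - il) + 1 by ring] at t4
  have := h2.tile_unique hj.1 hj.2 (j := i + (jl - il)) (by omega) (by omega)
  rw [this]
  exact ⟨by omega, s6 i (by omega) t2⟩

theorem At.br {d : ℤ} {E : S.E d} {k K : ℕ} {y : ℤ → A} {f : ℤ → ℤ} {s p : ℤ}
    (h : At E k K y f s p) (hK : ϖ ≤ K) : y (s + ϖ) ≠ y s := by
  have h0 := h.1 0 (by omega) (by omega)
  rw [add_zero] at h0
  rw [h.1 _ (by omega) (by omega), h0]; exact E.eu.br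

theorem At.same {d : ℤ} {E : S.E d} {k K : ℕ} {x x2 : ℤ → Z} {y y2 : ℤ → A} {f f2 : ℤ → ℤ}
    {s s2 p0 p i j : ℤ} (h : At E k K y f s p0) (h2 : At E k K y2 f2 s2 p0)
    (hp : Parse (sig P G k) x y f) (hp2 : Parse (sig P G k) x2 y2 f2) (p1 : f (s - K) ≤ p)
    (p2 : p < f (s + (K + 1))) (hi : In f i p) (hj : In f2 j p) : f2 j = f i ∧ y2 j = y i := by
  obtain ⟨i1, i2⟩ := hi
  have t1 := hp.lt_of_lt (i := s - K) (j := i + 1) (by omega)
  have t2 := hp.lt_of_lt (i := i) (j := s + (K + 1)) (by omega)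
  have a1 := h.cuts hp (i - s) (by omega) (by omega)
  have a2 := h.cuts hp (i - s + 1) (by omega) (by omega)
  have a3 := h2.cuts hp2 (i - s) (by omega) (by omega)
  have a4 := h2.cuts hp2 (i - s + 1) (by omega) (by omega)
  have a5 := h.1 (i - s) (by omega) (by omega)
  rw [add_sub_cancel] at a1 a5
  rw [← add_assoc, add_sub_cancel] at a2
  rw [← add_assoc] at a4
  have := hp2.tile_unique hj.1 hj.2 (j := s2 + (i - s)) (by omega) (by omega)
  rw [this]
  exact ⟨by omega, by rw [a5, h2.1 _ (by omega) (by omega)]⟩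

theorem C3L.rt (h3 : C3L S T) (K' : ℕ) : ∃ K c : ℕ, ∀ {k : ℕ} {x : ℤ → Z} {y : ℤ → A} {f : ℤ → ℤ}
    {y' : ℤ → B} {f' : ℤ → ℤ} {a b a1 b1 : ℤ}, Cf S T k x y f y' f' → Rigid ϖ K' y' a b →
    a + 2 * c ≤ b → f' (a + c) ≤ f a1 → f b1 ≤ f' (b - c) → Rigid ϖ K y a1 b1 := by
  obtain ⟨c, -, hc⟩ := h3.lt
  obtain ⟨K, hK⟩ := hc (K' + 1)
  refine ⟨K, c + K' + 1, fun {k x y f y' f' a b a1 b1} h hr l1 l2 l3 s s1 s2 hu => ?_⟩
  obtain ⟨p, q, s', e', t⟩ := hK h hu
  have := t.p_lt; have := t.le_q; have := t.len; have := t.l1; have := t.r2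
  have m1 := h.p.mono (i := s) (j := b1) (by omega)
  have m2 := h.p.mono (i := a1) (j := s + K) (by omega)
  have m3 := h.p'.lt_of_lt (i := s' - c) (j := b - (c + K' + 1 : ℕ)) (by omega)
  have m4 := h.p'.lt_of_lt (i := a + (c + K' + 1 : ℕ)) (j := e' + c) (by omega)
  exact hr (max a (s' + 1)) (by omega) (by omega) (t.uy.mono (by omega) (by omega))

theorem C3L.many (h3 : C3L S T) (hm : Mt S G' P') (K' N : ℕ) : ∃ W : ℕ, ∀ {k : ℕ} {x : ℤ → Z}
    {y : ℤ → A} {f : ℤ → ℤ} {y' : ℤ → B} {f' : ℤ → ℤ} {a b : ℤ}, Cf S T k x y f y' f' →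
    Rigid ϖ K' y' a b → a + W ≤ b → ∃ a1 b1, f' a ≤ f a1 ∧ f b1 ≤ f' b ∧ a1 + N ≤ b1 := by
  obtain ⟨D, hD⟩ := T.upRigid K'
  obtain ⟨C, hC⟩ := h3.jb hm (N + 1)
  refine ⟨C + 2 * D + 2, fun {k x y f y' f' a b} h hr l => ?_⟩
  have br : ∀ s, a ≤ s → s + (D + 1) ≤ b → ∃ p, f' s ≤ p ∧ p < f' (s + (D + 1)) ∧
      x (p + ϖ) ≠ x p := fun s s1 s2 => by
    by_contra hc
    push Not at hc
    have := hD k (h.hy' _) h.p' (hr.mono s1 s2) fun p p1 p2 => hc p p1 (by omega)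
    omega
  obtain ⟨p, p1, p2, p3⟩ := br a le_rfl (by omega)
  obtain ⟨q, q1, q2, q3⟩ := br (b - (D + 1)) (by omega) (by omega)
  rw [sub_add_cancel] at q2
  obtain ⟨i, hi⟩ := h.p.tile (S.neK k) p
  obtain ⟨j, hj⟩ := h.p.tile (S.neK k) q
  obtain ⟨i', hi'⟩ := h.p'.tile (T.neK k) p
  obtain ⟨j', hj'⟩ := h.p'.tile (T.neK k) q
  have m1 := h.p'.mono (i := a + (D + 1)) (j := b - (D + 1)) (by omega)
  have m2 := h.p'.lt_of_lt (i := i') (j := a + (D + 1)) (by omega)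
  have m3 := h.p'.lt_of_lt (i := b - (D + 1)) (j := j' + 1) (by omega)
  refine ⟨i + 1, j, by omega, by omega, ?_⟩
  by_contra hc
  have := hC h p3 q3 (by omega) hi hj (by omega) hi' hj'
  omega

theorem C3L.cut_rigid (h3 : C3L S T) (hm : Mt S G' P') (K' : ℕ) : ∃ W : ℕ, ∀ {k : ℕ}
    {x x2 : ℤ → Z} {y y2 : ℤ → A} {f f2 : ℤ → ℤ} {y' : ℤ → B} {f' : ℤ → ℤ} {a : ℤ},
    Cf S T k x y f y' f' → Parse (sig P G k) x2 y2 f2 →
    (∀ r, f' a ≤ r → r < f' (a + W) → x2 r = x r) → Rigid ϖ K' y' a (a + W) →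
    ∃ i j, f i = f2 j ∧ f' a ≤ f i ∧ f i ≤ f' (a + W) := by
  obtain ⟨K, c, hK⟩ := h3.rt K'
  obtain ⟨D, hD⟩ := S.urRigid K
  obtain ⟨W, hW⟩ := h3.many hm K' (3 * D)
  refine ⟨W + 2 * c, fun {k x x2 y y2 f f2 y' f' a} h h2 ag hr => ?_⟩
  obtain ⟨a1, b1, t1, t2, t3⟩ := hW (a := a + c) (b := a + (W + 2 * c : ℕ) - c) h
    (hr.mono (by omega) (by omega)) (by omega)
  have m1 := h.p'.mono (i := a) (j := a + c) (by omega)
  have m2 := h.p'.mono (i := a + (W + 2 * c : ℕ) - c) (j := a + (W + 2 * c : ℕ)) (by omega)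
  obtain ⟨t, -, t4⟩ := hD k (h.hy _) h.p h2 (fun r r1 r2 => ag r (by omega) (by omega))
    (hK h hr (by omega) t1 t2) (by omega)
  have m3 := h.p.mono (i := a1) (j := a1 + D) (by omega)
  have m4 := h.p.mono (i := a1 + D) (j := b1) (by omega)
  exact ⟨a1 + D, a1 + D + t, (t4 _ le_rfl (by omega)).symm, by omega, by omega⟩

theorem C3L.lu (h3 : C3L S T) (hm : Mt S G' P') : ∃ W : ℕ, ϖ < W ∧ ∀ {k : ℕ} {x x2 : ℤ → Z}
    {y y2 : ℤ → A} {f f2 : ℤ → ℤ} {y' y2' : ℤ → B} {f' f2' : ℤ → ℤ} {a p i j : ℤ},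
    Cf S T k x y f y' f' → Cf S T k x2 y2 f2 y2' f2' →
    (∀ m, a - W ≤ m → m < a + W → y2' m = y' m) → f2' a = f' a → In f' a p → x (p + ϖ) ≠ x p →
    In f i p → In f2 j p → f2 j = f i ∧ y2 j = y i := by
  obtain ⟨c, c1, hc⟩ := h3.swap.lt
  obtain ⟨K1, sL⟩ := sep_end (T.fin (d := 1) (Or.inl rfl))
  obtain ⟨K2, sR⟩ := sep_end (T.fin (d := -1) (Or.inr rfl))
  obtain ⟨K', hK'⟩ : ∃ K', K' = K1 + K2 + c := ⟨_, rfl⟩
  obtain ⟨K, hK⟩ := hc K'
  obtain ⟨W, hW⟩ := h3.cut_rigid hm K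
  refine ⟨W + K' + 2, by omega, fun {k x x2 y y2 f f2 y' y2' f' f2' a p i j} h h2 ag e0 ha b hi
    hj => ?_⟩
  obtain ⟨W', hW'⟩ : ∃ W' : ℤ, W' = (W + K' + 2 : ℕ) := ⟨_, rfl⟩
  rw [← hW'] at ag
  have ne' := T.neK k
  obtain ⟨ac, ax⟩ := h.p'.agree ne' h2.p' (a := a - W') (b := a + W') (c := a) (s := 0) (t := 0)
    (by simpa using ag) (by omega) (by omega) (by simpa using e0)
  simp only [add_zero] at ac ax
  obtain ⟨a1, a2⟩ := ha
  have m1 := h.p'.mono (i := a - W') (j := a) (by omega)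
  have m2 := h.p'.le_add ne' (i := a + 1) (j := a + W') (by omega)
  have b2 : x2 (p + ϖ) ≠ x2 p := by rwa [ax _ (by omega) (by omega), ax _ (by omega) (by omega)]
  have ub : ∀ s e, a - W ≤ s → e ≤ a + 1 + W → Unb ϖ y' s e → Unb ϖ y2' s e :=
    fun s e s1 s2 u m m1 m2 => by
      rw [ag _ (by omega) (by omega), ag _ (by omega) (by omega)]; exact u m m1 m2
  have ub' : ∀ s e, a - W ≤ s → e ≤ a + 1 + W → Unb ϖ y2' s e → Unb ϖ y' s e :=
    fun s e s1 s2 u m m1 m2 => by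
      rw [← ag _ (by omega) (by omega), ← ag _ (by omega) (by omega)]; exact u m m1 m2
  have aR : (f2 j = f i ∧ y2 j = y i) ∨ ∃ i' j', f i' = f2 j' ∧ p < f i' ∧ f i' ≤ f' (a + W') := by
    by_cases hr : Rigid ϖ K y' (a + 1) (a + 1 + W)
    · have m3 := h.p'.mono (i := a + 1 + W) (j := a + W') (by omega)
      obtain ⟨i', j', t1, t2, t3⟩ := hW h h2.p (fun r r1 r2 => ax r (by omega) (by omega)) hr
      exact Or.inr ⟨i', j', t1, by omega, by omega⟩
    unfold Rigid at hr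
    push Not at hr
    obtain ⟨s, s1, s2, hu⟩ := hr
    obtain ⟨p0, q0, s', e', t⟩ := hK h.swap hu
    obtain ⟨p1, q1, s1', e1', t'⟩ := hK h2.swap (ub _ _ (by omega) s2 hu)
    have n1 := h.p'.mono (i := a + 1) (j := s + K) (by omega)
    have n2 := ac (s + K) (by omega) (by omega)
    have n3 := h.p'.mono (i := s) (j := a + W') (by omega)
    have := t.le_q; have := t'.le_q; have := t.p_lt; have := t.l2
    have d1 : p ≤ p0 := by
      by_contra hc
      exact b (t.ux p (by omega) (by omega))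
    have d2 : p ≤ p1 := by
      by_contra hc
      exact b2 (t'.ux p (by omega) (by omega))
    obtain ⟨L', L, s0, v1, v2, v3, v4, v5⟩ := t.left.resolve_left fun h => b (h p d1)
    obtain ⟨M', M, s3, w1, w2, w3, w4, w5⟩ := t'.left.resolve_left fun h => b2 (h p d2)
    have n4 := v4.cuts h.p' 1 (by omega) (by omega)
    have n5 := w4.cuts h2.p' 1 (by omega) (by omega)
    have n6 := (T.stepK k).cutL (L'.parse k) L'.eu L'.ev
    have n7 := (T.stepK k).cutL (M'.parse k) M'.eu M'.ev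
    have n8 := h.p'.lt_of_lt (i := a) (j := s0 + 1) (by omega)
    have n9 := h2.p'.lt_of_lt (i := a) (j := s3 + 1) (by omega)
    obtain rfl : s0 = s3 := by
      rcases lt_trichotomy s0 s3 with l | l | l
      · exact (w4.br (by omega) (ub _ _ (by omega) (by omega) v3 s3 l w2)).elim
      · exact l
      · exact (v4.br (by omega) (ub' _ _ (by omega) (by omega) w3 s0 l v2)).elim
    obtain rfl : L' = M' := T.ext_u (Or.inl rfl) (sL L'.eu M'.eu fun m m1 m2 => by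
      rw [← v4.1 m (by omega) (by omega), ← w4.1 m (by omega) (by omega), ag _ (by omega)
        (by omega)])
    obtain rfl : L = M := S.ext_v (Or.inl rfl) (v1.symm.trans w1)
    have n10 := ac (s0 + 1) (by omega) (by omega)
    obtain rfl : p0 = p1 := by omega
    have n11 := h.p.mono (i := s' + 1) (j := s' + (K' + 1)) (by omega)
    rcases le_or_gt (f (s' - K')) p with l | l
    · exact Or.inl (v5.same w5 h.p h2.p l (by omega) hi hj)
    · have n12 := v5.cuts h.p (-K') le_rfl (by omega)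
      have n13 := w5.cuts h2.p (-K') le_rfl (by omega)
      have n14 := h.p.mono (i := s' - K') (j := s' - c) (by omega)
      have := t.l1
      rw [← sub_eq_add_neg] at n12
      exact Or.inr ⟨s' - K', _, n12.trans n13.symm, l, by omega⟩
  have aL : (f2 j = f i ∧ y2 j = y i) ∨ ∃ i' j', f i' = f2 j' ∧ f i' ≤ p ∧ f' (a - W') ≤ f i' := by
    by_cases hr : Rigid ϖ K y' (a - W) (a - W + W)
    · have m3 := h.p'.mono (i := a - W') (j := a - W) (by omega)
      obtain ⟨i', j', t1, t2, t3⟩ := hW h h2.p (fun r r1 r2 => ax r (by omega) (by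
        rw [sub_add_cancel] at r2; omega)) hr
      rw [sub_add_cancel] at t3
      exact Or.inr ⟨i', j', t1, by omega, by omega⟩
    unfold Rigid at hr
    push Not at hr
    obtain ⟨s, s1, s2, hu⟩ := hr
    obtain ⟨p0, q0, s', e', t⟩ := hK h.swap hu
    obtain ⟨p1, q1, s1', e1', t'⟩ := hK h2.swap (ub _ _ s1 (by omega) hu)
    have n1 := h.p'.mono (i := s) (j := a) (by omega)
    have n2 := ac s (by omega) (by omega)
    have n3 := h.p'.mono (i := a - W') (j := s + K) (by omega)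
    have := t.le_q; have := t'.p_lt; have := t.p_lt; have := t.r2
    have d1 : q0 ≤ p := by
      by_contra hc
      exact b (t.ux p (by omega) (by omega))
    have d2 : q1 ≤ p := by
      by_contra hc
      exact b2 (t'.ux p (by omega) (by omega))
    obtain ⟨L', L, s0, v1, v2, v3, v4, v5⟩ := t.right.resolve_left fun h => b (h p d1)
    obtain ⟨M', M, s3, w1, w2, w3, w4, w5⟩ := t'.right.resolve_left fun h => b2 (h p d2)
    have n4 := v4.2
    have n5 := w4.2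
    have n6 := (T.stepK k).cutR0 (L'.parse k) L'.eu L'.ev
    have n7 := (T.stepK k).cutR0 (M'.parse k) M'.eu M'.ev
    have n7' := ac (a + 1) (by omega) (by omega)
    have n8 := h.p'.lt_of_lt (i := s0) (j := a + 1) (by omega)
    have n9 := h2.p'.lt_of_lt (i := s3) (j := a + 1) (by omega)
    obtain rfl : s0 = s3 := by
      rcases lt_trichotomy s0 s3 with l | l | l
      · exact (v4.br (by omega) (ub' _ _ (by omega) (by omega) w3 s0 v2 l)).elim
      · exact l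
      · exact (w4.br (by omega) (ub _ _ (by omega) (by omega) v3 s3 w2 l)).elim
    obtain rfl : L' = M' := T.ext_u (Or.inr rfl) (sR L'.eu M'.eu fun m m1 m2 => by
      rw [← v4.1 m (by omega) (by omega), ← w4.1 m (by omega) (by omega), ag _ (by omega)
        (by omega)])
    obtain rfl : L = M := S.ext_v (Or.inr rfl) (v1.symm.trans w1)
    have n10 := ac s0 (by omega) (by omega)
    obtain rfl : q0 = q1 := by omega
    have n11 := h.p.mono (i := e' - K') (j := e') (by omega)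
    have n11' := (S.stepK k).cutR0 (L.parse k) L.eu L.ev
    have n12' := v5.2
    rcases lt_or_ge p (f (e' + (K' + 1))) with l | l
    · exact Or.inl (v5.same w5 h.p h2.p (by omega) l hi hj)
    · have n12 := v5.cuts h.p (K' + 1) (by omega) le_rfl
      have n13 := w5.cuts h2.p (K' + 1) (by omega) le_rfl
      have n14 := h.p.mono (i := e' + c) (j := e' + (K' + 1)) (by omega)
      exact Or.inr ⟨_, _, n12.trans n13.symm, l, by omega⟩
  rcases aR with t | ⟨ir, jr, r1, r2, r3⟩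
  · exact t
  rcases aL with t | ⟨il, jl, l1, l2, l3⟩
  · exact t
  exact (S.elem k).between h.p h2.p l1 r1 (fun r r1 r2 => ax r (by omega) (by omega)) l2 r2 hi hj

end Pool.Agent.P.MP_1e185c_lc

/-! An arbitrary parse of a long run with valid ends gives an admissible length. -/

set_option autoImplicit false
set_option linter.unusedSectionVars false

namespace Pool.Agent.P.MP_1e185c_lc

open Filter

variable {A B : Type}

theorem exists_unif {ι : Type} [Finite ι] (Q : ι → ℕ → Prop)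
    (mono : ∀ i m n, m ≤ n → Q i m → Q i n) (h : ∀ i, ∃ n, Q i n) : ∃ n, ∀ i, Q i n := by
  choose n hn using h
  obtain ⟨N, hN⟩ := (Set.finite_range n).bddAbove
  exact ⟨N, fun i => mono i _ _ (hN ⟨i, rfl⟩) (hn i)⟩

variable [Fintype A]

theorem Elem.run_right {σ : A → List B} (he : Elem σ) : ∃ ρ : ℕ, ∀ {x x' : ℤ → B} {y y' : ℤ → A}
    {f f' : ℤ → ℤ} {c t s b : ℤ}, Parse σ x y f → Parse σ x' y' f' → f' (c + t) = f c + s →
    (∀ r, f c ≤ r → r < b → x' (r + s) = x r) → ∀ m, c ≤ m → f m + ρ ≤ b →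
    y' (m + t) = y m ∧ f' (m + t) = f m + s := by
  obtain ⟨ρ, hρ⟩ := he.delay
  refine ⟨ρ, fun {x x' y y' f f' c t s b} h h' e ag m hm => ?_⟩
  have key : ∀ m, c ≤ m → f m + ρ ≤ b → f' (m + t) = f m + s → y' (m + t) = y m :=
    fun m m1 m2 m3 => by
      have := h.mono m1
      exact (hρ (i := m) (i' := m) h (h'.shift s t) (by omega)
        fun p p1 p2 => (ag p (by omega) (by omega)).symm).symm
  induction m, hm using Int.leInduction with
  | base => exact fun hb => ⟨key c le_rfl hb e, e⟩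
  | succ m hm ih =>
    intro hb
    have l := h.mono (i := m) (j := m + 1) (by omega)
    obtain ⟨i1, i2⟩ := ih (by omega)
    have s1 := h.step m
    have s2 := h'.step (m + t)
    rw [i1, show m + t + 1 = m + 1 + t by ring] at s2
    exact ⟨key _ (by omega) hb (by omega), by omega⟩

theorem Elem.run_left {σ : A → List B} (he : Elem σ) : ∃ ρ : ℕ, ∀ {x x' : ℤ → B} {y y' : ℤ → A}
    {f f' : ℤ → ℤ} {c t s b : ℤ}, Parse σ x y f → Parse σ x' y' f' → f' (c + t) = f c + s →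
    (∀ r, b ≤ r → r < f c → x' (r + s) = x r) → ∀ m, m < c → b + ρ ≤ f (m + 1) →
    y' (m + t) = y m ∧ f' (m + 1 + t) = f (m + 1) + s := by
  obtain ⟨ρ, hρ⟩ := he.rev.run_right
  refine ⟨ρ, fun {x x' y y' f f' c t s b} h h' e ag m hm hb => ?_⟩
  have := hρ (c := -c) (t := -t) (s := -s) (b := -b) (h.rev 0 0) (h'.rev 0 0)
    (by simp only [zero_sub, neg_neg]; rw [show -(-c + -t) = c + t by ring, e]; ring)
    (fun p p1 p2 => by
      simp only [zero_sub, neg_neg] at p1 p2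
      rw [← ag (0 - 1 - p) (by omega) (by omega)]; congr 1; ring) (-1 - m) (by omega)
    (by rw [show (0 : ℤ) - (-1 - m) = m + 1 by ring]; omega)
  rw [show (0 : ℤ) - 1 - (-1 - m + -t) = m + t by ring, show (0 : ℤ) - 1 - (-1 - m) = m by ring,
    show (0 : ℤ) - (-1 - m + -t) = m + 1 + t by ring, show (0 : ℤ) - (-1 - m) = m + 1 by ring]
    at this
  exact ⟨this.1, by omega⟩

theorem Step.adm_of_parse {σ : A → List B} {Lp : Lang A} {Lc : Lang B} {ϖ : ℕ} {uL uR : ℤ → A}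
    {vL vR : ℤ → B} {fL fR : ℤ → ℤ} (S : Step σ Lp Lc ϖ) (eL : End Lp ϖ 1 uL)
    (eR : End Lp ϖ (-1) uR) (pL : Parse σ vL uL fL) (pR : Parse σ vR uR fR) :
    ∃ n : ℕ, ∀ {x : ℤ → B} {w : ℤ → A} {F : ℤ → ℤ} {p q : ℤ}, Parse σ x w F →
      Glue ϖ n x p q vL vR → p + n ≤ q → ∃ l, Adm ϖ uL uR l ∧ fL l - fR 0 = q - p := by
  obtain ⟨ρ1, h1⟩ := S.fd
  obtain ⟨ρ2, h2⟩ := S.elem.run_right
  obtain ⟨ρ3, h3⟩ := S.elem.run_left
  obtain ⟨m0, hm0⟩ : ∃ m0 : ℤ, m0 = ρ3 + (fL 0).natAbs + 1 := ⟨_, rfl⟩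
  refine ⟨(fL 0).natAbs + (fR 0).natAbs + (fL (m0 + ϖ)).natAbs + ρ1 + ρ2 + 1,
    fun {x w F p q} h g hn => ?_⟩
  obtain ⟨iL, eL'⟩ := (h1 (i := 0) (eL.mem _) pL (h.shift p 0) fun r r1 r2 => by
    rw [add_comm]; exact g.left r (by omega) (by omega)).resolve_right (by simpa using eL.br)
  obtain ⟨iR, eR'⟩ := (h1 (i := 0) (eR.mem _) pR (h.shift q 0) fun r r1 r2 => by
    rw [add_comm]; exact g.right r (by omega) (by omega)).resolve_right (by simpa using eR.br)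
  simp only [add_zero] at eL' eR'
  have a1 := h2 (c := 0) (t := iL) (s := p) (b := q - p + ϖ) pL h (by rw [zero_add]; omega)
    fun r r1 r2 => by rw [add_comm]; exact g.left r (by omega) r2
  have a2 := h3 (c := iR) (t := -iR) (s := -q) (b := p + 1) h pR (by rw [add_neg_cancel]; omega)
    fun r r1 r2 => by
      rw [← g.right _ (by omega) (by omega)]; congr 1; ring
  have b : ∀ m, m0 - 1 ≤ m → m < m0 + ϖ → uR (m + iL + -iR) = uL m ∧ m + iL < iR ∧
      fR (m + 1 + iL + -iR) = fL (m + 1) + p - q := fun m m1 m2 => by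
    have c1 := pL.mono (i := m + 1) (j := m0 + ϖ) (by omega)
    have c2 := pL.le_add S.ne (i := 0) (j := m + 1) (by omega)
    have c3 := pL.mono (i := m) (j := m + 1) (by omega)
    obtain ⟨d1, d2⟩ := a1 m (by omega) (by omega)
    obtain ⟨-, d3⟩ := a1 (m + 1) (by omega) (by omega)
    have c4 := h.lt_of_lt (i := m + iL) (j := iR) (by omega)
    rw [show m + 1 + iL = m + iL + 1 by ring] at d3 ⊢
    obtain ⟨d4, d5⟩ := a2 (m + iL) c4 (by omega)
    exact ⟨d4.trans d1, c4, by omega⟩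
  have h0 := S.gp.1
  have l1 := (b (m0 + ϖ - 1) (by omega) (by omega)).2.1
  have ad : Adm ϖ uL uR (iR - iL) := by
    refine ⟨by omega, fun i i1 i2 => ?_⟩
    have := Unb.agree h0 (y := uL) (y' := uR) (a := 1) (b := iR - iL) (c := m0) (t := iL - iR)
      (fun i i1 _ => eL.unb i (by omega)) (fun i _ i1 => eR.unb i (by omega)) (by omega)
      (by omega) (fun j j1 j2 => by
        rw [← (b j (by omega) j2).1]; congr 1; ring) (i + (iR - iL)) i1 (by omega)
    rw [← this]; congr 1; ring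
  refine ⟨_, ad, ?_⟩
  have e1 := ad.cut S.ne pL pR (i := m0 - (iR - iL)) (by omega) (by omega)
  have e2 := (b (m0 - 1) le_rfl (by omega)).2.2
  rw [sub_add_cancel] at e1 e2
  rw [show m0 + iL + -iR = m0 - (iR - iL) by ring] at e2
  omega

theorem FS.adm0 {G : A → List A} {y0 : List A} {o : A} {P : A → List B} {Lc : Lang B} {ϖ : ℕ}
    (S : FS G y0 o P Lc ϖ) : ∃ n : ℕ, ∀ (L : S.E 1) (R : S.E (-1)) {x : ℤ → B} {w : ℤ → A}
      {F : ℤ → ℤ} {p q : ℤ}, Parse P x w F → Glue ϖ n x p q L.v R.v → p + n ≤ q →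
      ∃ l, Adm ϖ L.u R.u l ∧ FS.Lam L R 0 l = q - p := by
  have := S.finE (d := 1) (Or.inl rfl)
  have := S.finE (d := -1) (Or.inr rfl)
  obtain ⟨n, hn⟩ := exists_unif (ι := S.E 1 × S.E (-1)) (fun E n => ∀ {x : ℤ → B} {w : ℤ → A}
      {F : ℤ → ℤ} {p q : ℤ}, Parse P x w F → Glue ϖ n x p q E.1.v E.2.v → p + n ≤ q →
      ∃ l, Adm ϖ E.1.u E.2.u l ∧ FS.Lam E.1 E.2 0 l = q - p)
    (fun E m n hmn h _ _ _ _ _ h1 h2 h3 => h h1 (h2.mono hmn) (by omega))
    fun E => S.step.adm_of_parse E.1.eu E.2.eu E.1.pf E.2.pf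
  exact ⟨n, fun L R => hn (L, R)⟩

theorem pad_pre {o : A} {W : List A} {a : ℕ} (h : List.replicate a o <+: W) (i : ℤ) (hi : i < a) :
    pad o W i = o := by
  obtain ⟨t, rfl⟩ := h
  unfold pad
  split_ifs with h0
  · rw [List.getD_append _ _ _ _ (by simp; omega)]
    simp [List.getD_eq_getElem?_getD, List.getElem?_replicate]
    split_ifs <;> rfl
  · rfl

theorem pad_suf {o : A} {W : List A} {a : ℕ} (h : List.replicate a o <:+ W) (i : ℤ)
    (hi : (W.length : ℤ) ≤ i + a) : pad o W i = o := by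
  obtain ⟨t, rfl⟩ := h
  unfold pad
  simp only [List.length_append, List.length_replicate] at hi
  split_ifs with h0
  · rw [List.getD_append_right _ _ _ _ (by omega)]
    simp [List.getD_eq_getElem?_getD, List.getElem?_replicate]
    split_ifs <;> rfl
  · rfl

theorem Sys.rep_pre {G : A → List A} {y0 : List A} {o : A} (S : Sys G y0 o) {a m : ℕ}
    (h : a ≤ m + 1) : List.replicate a o <+: it G m y0 ∧ List.replicate a o <:+ it G m y0 := by
  have h1 := grow_len S.norm.self S.grow m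
  obtain ⟨c, hc⟩ := Nat.exists_eq_add_of_le (h.trans h1)
  have h2 := S.pw_pre m
  have h3 := S.pw_suf m
  rw [S.rep_pw m, hc] at h2 h3
  refine ⟨List.IsPrefix.trans ?_ h2, List.IsSuffix.trans ?_ h3⟩
  · rw [List.replicate_add]; exact List.prefix_append _ _
  · rw [add_comm, List.replicate_add]; exact List.suffix_append _ _

theorem seg_pad_infix {o : A} {W : List A} {i : ℤ} {n : ℕ} (h1 : 0 ≤ i)
    (h2 : i + n ≤ W.length) : seg (pad o W) i n <:+: W := by
  have := seg_infix (pad o W) (a := 0) (n := W.length) h1 (by omega : i + n ≤ 0 + W.length)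
  rwa [seg_pad] at this

theorem Sys.pad_V {G : A → List A} {y0 : List A} {o : A} (S : Sys G y0 o) {n m : ℕ}
    (h : 2 * n ≤ m) : pad o (it G m y0) ∈ S.lang.V n := by
  intro i
  refine S.mem_lang (n := m) ?_ (by rwa [seg_length])
  obtain ⟨h1, h2⟩ := S.rep_pre (a := n) (m := m) (by omega)
  by_cases hi : 0 ≤ i ∧ i + n ≤ (it G m y0).length
  · exact seg_pad_infix hi.1 hi.2
  · have : seg (pad o (it G m y0)) i n = List.replicate n o := by
      rw [List.eq_replicate_iff]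
      refine ⟨seg_length _ _ _, fun b hb => ?_⟩
      obtain ⟨j, j1, j2, rfl⟩ := mem_seg.1 hb
      rcases lt_or_ge j n with l | l
      · exact pad_pre h1 j l
      · exact pad_suf h2 j (by omega)
    rw [this]; exact h1.isInfix

end Pool.Agent.P.MP_1e185c_lc

/-! Patching local parses: a parse of the whole word with a bounded number of tiles. -/

set_option autoImplicit false
set_option linter.unusedSectionVars false

namespace Pool.Agent.P.MP_1e185c_lc

open Filter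

variable {A B Z : Type} [Fintype A] [Fintype B] {G : A → List A} {y0 : List A} {o : A}
  {P : A → List Z} {G' : B → List B} {y0' : List B} {o' : B} {P' : B → List Z} {Lc : Lang Z}
  {ϖ : ℕ} {S : FS G y0 o P Lc ϖ} {T : FS G' y0' o' P' Lc ϖ}

theorem Cf.of_ends {d : ℤ} (E : S.E d) (E' : T.E d) (h : E.v = E'.v) (k : ℕ) (p s s' : ℤ) :
    Cf S T k (fun r => E.v (r + -p)) (fun i => E.u (i + -s)) (fun i => E.cut k (i + -s) - -p)
      (fun i => E'.u (i + -s')) (fun i => E'.cut k (i + -s') - -p) :=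
  ⟨Lang.X_shift E.eu.mem _, Lang.X_shift E'.eu.mem _, (E.parse k).shift _ _,
    by rw [h]; exact (E'.parse k).shift _ _⟩

theorem Cf.exists_local (S : FS G y0 o P Lc ϖ) (T : FS G' y0' o' P' Lc ϖ) {k n : ℕ}
    {xh : ℤ → Z} {zh : ℤ → B} {fh : ℤ → ℤ} (hz : zh ∈ T.sys.lang.V n) (h : Parse (sig P' G' k) xh zh fh) (a : ℤ) :
    ∃ x y f y' f', Cf S T k x y f y' f' ∧ (∀ m, a ≤ m → m < a + n → y' m = zh m) ∧
      (∀ m, a ≤ m → m ≤ a + n → f' m = fh m) ∧ ∀ r, fh a ≤ r → r < fh (a + n) → x r = xh r := by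
  obtain ⟨y', h1, h2⟩ := Lang.V_ext hz a
  obtain ⟨x, f', h3, h4⟩ := exists_parse (T.neK k) y' a (fh a)
  obtain ⟨y, h5, f, h6⟩ := (S.stepK k).parent ((T.stepK k).imgX h1 h3)
  have := h.agree (T.neK k) h3 (a := a) (b := a + n) (c := a) (s := 0) (t := 0)
    (by simpa using h2) le_rfl (by omega) (by simpa using h4)
  exact ⟨x, y, f, y', f', ⟨h5, h1, h6, h3⟩, h2, by simpa using this.1, by simpa using this.2⟩

/-- the tile `(t, b)` at `p` is seen in a valid configuration that agrees locally with `zh` -/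
def Rep (S : FS G y0 o P Lc ϖ) (T : FS G' y0' o' P' Lc ϖ) (k W : ℕ) (zh : ℤ → B) (fh : ℤ → ℤ)
    (p t : ℤ) (b : A) : Prop :=
  ∃ x y f y' f' a i, Cf S T k x y f y' f' ∧ In fh a p ∧
    (∀ m, a - W ≤ m → m < a + W → y' m = zh m) ∧ f' a = fh a ∧ In f i p ∧ f i = t ∧ y i = b

/-- the word `xh` is parsed up to `p` with at most `n + 1` tiles which are not markers -/
def Inv (S : FS G y0 o P Lc ϖ) (T : FS G' y0' o' P' Lc ϖ) (k W : ℕ) (xh : ℤ → Z) (zh : ℤ → B)
    (fh : ℤ → ℤ) (p : ℤ) (n : ℕ) : Prop :=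
  ∃ x w F i, Parse (sig P G k) x w F ∧ (∀ r, r ≤ p → x r = xh r) ∧ In F i p ∧
    Rep S T k W zh fh p (F i) (w i) ∧ ∀ j, j < i - n → w j = o

variable {k W : ℕ} {xh : ℤ → Z} {zh : ℤ → B} {fh : ℤ → ℤ}

theorem Inv.mono {p : ℤ} {n n' : ℕ} (h : Inv S T k W xh zh fh p n) (hn : n ≤ n') :
    Inv S T k W xh zh fh p n' := by
  obtain ⟨x, w, F, i, h1, h2, h3, h4, h5⟩ := h
  exact ⟨x, w, F, i, h1, h2, h3, h4, fun j hj => h5 j (by omega)⟩

theorem loc_agree (h : Parse (sig P' G' k) xh zh fh) (T : FS G' y0' o' P' Lc ϖ) (hW : ϖ < W)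
    {x : ℤ → Z} {y' : ℤ → B} {f' : ℤ → ℤ} {a p : ℤ} (h' : Parse (sig P' G' k) x y' f')
    (ha : In fh a p) (h1 : ∀ m, a - W ≤ m → m < a + W → y' m = zh m) (h2 : f' a = fh a) :
    In f' a p ∧ ∀ r, p ≤ r → r ≤ p + ϖ → x r = xh r := by
  have := h.agree (T.neK k) h' (a := a - W) (b := a + W) (c := a) (s := 0) (t := 0)
    (by simpa using h1) (by omega) (by omega) (by simpa using h2)
  simp only [add_zero] at this
  obtain ⟨a1, a2⟩ := ha
  have m1 := h.mono (i := a - W) (j := a) (by omega)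
  have m2 := h.le_add (T.neK k) (i := a + 1) (j := a + W) (by omega)
  have m3 := this.1 (a + 1) (by omega) (by omega)
  exact ⟨⟨by omega, by omega⟩, fun r r1 r2 => this.2 r (by omega) (by omega)⟩

/-- local uniqueness of tiles with window `W` -/
def LUW (S : FS G y0 o P Lc ϖ) (T : FS G' y0' o' P' Lc ϖ) (W : ℕ) : Prop :=
  ϖ < W ∧ ∀ {k : ℕ} {x x2 : ℤ → Z}
    {y y2 : ℤ → A} {f f2 : ℤ → ℤ} {y' y2' : ℤ → B} {f' f2' : ℤ → ℤ} {a p i j : ℤ},
    Cf S T k x y f y' f' → Cf S T k x2 y2 f2 y2' f2' →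
    (∀ m, a - W ≤ m → m < a + W → y2' m = y' m) → f2' a = f' a → In f' a p → x (p + ϖ) ≠ x p →
    In f i p → In f2 j p → f2 j = f i ∧ y2 j = y i

theorem Rep.unique (hW : LUW S T W) (h : Parse (sig P' G' k) xh zh fh) {p t t' : ℤ} {b b' : A}
    (hb : xh (p + ϖ) ≠ xh p) (r : Rep S T k W zh fh p t b) (r' : Rep S T k W zh fh p t' b') :
    t' = t ∧ b' = b := by
  obtain ⟨x, y, f, y', f', a, i, c, a1, a2, a3, a4, rfl, rfl⟩ := r
  obtain ⟨x2, y2, f2, y2', f2', a', j, c2, b1, b2, b3, b4, rfl, rfl⟩ := r'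
  obtain rfl : a = a' := h.tile_unique a1.1 a1.2 b1.1 b1.2
  obtain ⟨d1, d2⟩ := loc_agree h T hW.1 c.p' a1 a2 a3
  exact hW.2 c c2 (fun m m1 m2 => by rw [a2 m m1 m2, b2 m m1 m2]) (b3.trans a3.symm) d1
    (by rwa [d2 _ (by omega) le_rfl, d2 _ le_rfl (by omega)]) a4 b4

theorem Inv.ext (hW : LUW S T W) (h : Parse (sig P' G' k) xh zh fh) {p p' : ℤ} {n C : ℕ}
    (hb : xh (p + ϖ) ≠ xh p) (I : Inv S T k W xh zh fh p n) {x1 : ℤ → Z} {y1 : ℤ → A}
    {f1 : ℤ → ℤ} {i1 j1 : ℤ} (h1 : Parse (sig P G k) x1 y1 f1) (hp : p ≤ p') (t1 : In f1 i1 p)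
    (t2 : In f1 j1 p') (r1 : Rep S T k W zh fh p (f1 i1) (y1 i1))
    (r2 : Rep S T k W zh fh p' (f1 j1) (y1 j1)) (ag : ∀ r, p < r → r ≤ p' → x1 r = xh r)
    (hC : j1 ≤ i1 + C) : Inv S T k W xh zh fh p' (n + C) := by
  obtain ⟨x, w, F, i, a1, a2, a3, a4, a5⟩ := I
  obtain ⟨e1, e2⟩ := r1.unique hW h hb a4
  have l := h1.lt_of_lt (i := i1) (j := j1 + 1) (by have := t1.1; have := t2.2; omega)
  have c1 : ¬ j1 - i1 + i < i := by omega
  have c2 : ¬ j1 - i1 + i + 1 < i := by omega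
  have c3 : j1 - i1 + i - i + i1 = j1 := by ring
  have c4 : j1 - i1 + i + 1 - i + i1 = j1 + 1 := by ring
  refine ⟨_, _, _, j1 - i1 + i, a1.splice h1 e1, fun r hr => ?_, ?_, ?_, fun j hj => ?_⟩
  · split_ifs with d
    · exact a2 r (by have := a3.1; omega)
    rcases lt_or_ge p r with d' | d'
    · exact ag r d' hr
    · have s1 := a1.get? i r (by omega) (by have := a3.2; omega)
      have s2 := h1.get? i1 r (by omega) (by have := t1.2; omega)
      rw [e1, e2, s2] at s1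
      rw [← a2 r d', Option.some.inj s1]
  · simp only [In, if_neg c1, if_neg c2, c3, c4]; exact t2
  · simp only [if_neg c1, c3]; exact r2
  · rw [if_pos (by omega)]; exact a5 j (by omega)

theorem C3L.close (h3 : C3L S T) (hm : Mt T G P) (hW : LUW S T W) (N : ℕ) : ∃ C : ℕ,
    ∀ {k : ℕ} {xh : ℤ → Z} {zh : ℤ → B} {fh : ℤ → ℤ} {p p' a a' : ℤ} {n : ℕ},
    zh ∈ T.sys.lang.V (N + 2 * W) → Parse (sig P' G' k) xh zh fh → xh (p + ϖ) ≠ xh p →
    xh (p' + ϖ) ≠ xh p' → p ≤ p' → In fh a p → In fh a' p' → a' ≤ a + N →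
    Inv S T k W xh zh fh p n → Inv S T k W xh zh fh p' (n + C) := by
  obtain ⟨C, hC⟩ := h3.swap.jb hm N
  refine ⟨C, fun {k xh zh fh p p' a a' n} hz h b b' hp ha ha' hN I => ?_⟩
  obtain ⟨x, y, f, y', f', c, a1, a2, a3⟩ := Cf.exists_local S T hz h (a - W)
  obtain ⟨i, hi⟩ := c.p.tile (S.neK k) p
  obtain ⟨j, hj⟩ := c.p.tile (S.neK k) p'
  have l := h.lt_of_lt (i := a) (j := a' + 1) (by have := ha.1; have := ha'.2; omega)
  have w1 : ∀ m, a - W ≤ m → m < a + W → y' m = zh m := fun m m1 m2 => a1 m m1 (by omega)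
  have w2 : ∀ m, a' - W ≤ m → m < a' + W → y' m = zh m :=
    fun m m1 m2 => a1 m (by omega) (by omega)
  have e1 := a2 a (by omega) (by omega)
  have e2 := a2 a' (by omega) (by omega)
  obtain ⟨d1, d2⟩ := loc_agree h T hW.1 c.p' ha w1 e1
  obtain ⟨d3, d4⟩ := loc_agree h T hW.1 c.p' ha' w2 e2
  have m1 := h.mono (i := a - W) (j := a) (by omega)
  have m2 := h.mono (i := a' + 1) (j := a - W + (N + 2 * W : ℕ)) (by have := hW.1; omega)
  exact I.ext hW h b c.p hp hi hj ⟨x, y, f, y', f', a, i, c, ha, w1, e1, hi, rfl, rfl⟩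
    ⟨x, y, f, y', f', a', j, c, ha', w2, e2, hj, rfl, rfl⟩
    (fun r r1 r2 => a3 r (by have := ha.1; omega) (by have := ha'.2; omega))
    (hC c.swap (by rwa [d2 _ (by omega) le_rfl, d2 _ le_rfl (by omega)])
      (by rwa [d4 _ (by omega) le_rfl, d4 _ le_rfl (by omega)]) hp d1 d3 hN hi hj)

theorem Rep.of_ends {d : ℤ} {E : S.E d} {E' : T.E d} (hE : E.v = E'.v) {K K' : ℕ} {x1 : ℤ → Z}
    {y1 : ℤ → A} {f1 : ℤ → ℤ} {s s' p0 p a i : ℤ} (h1 : Parse (sig P G k) x1 y1 f1)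
    (h : Parse (sig P' G' k) xh zh fh) (a1 : At E k K y1 f1 s p0) (a2 : At E' k K' zh fh s' p0)
    (ha : In fh a p) (w1 : s' - K' ≤ a - W) (w2 : a + W ≤ s' + K') (p1 : f1 (s - K) ≤ p)
    (p2 : p < f1 (s + (K + 1))) (hi : In f1 i p) : Rep S T k W zh fh p (f1 i) (y1 i) := by
  have c := Cf.of_ends E E' hE k p0 s s'
  obtain ⟨j, hj⟩ := c.p.tile (S.neK k) p
  have := a1.same (s2 := s) ⟨fun i _ _ => by simp, by simp [add_comm]⟩ h1 c.p p1 p2 hi hj
  refine ⟨_, _, _, _, _, a, j, c, ha, fun m m1 m2 => ?_, ?_, hj, this.1, this.2⟩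
  · rw [← a2.1 _ (by omega) (by omega)]; congr 1; ring
  · have := a2.cuts h (a + -s') (by omega) (by omega)
    rw [show s' + (a + -s') = a by ring] at this
    omega

theorem C3L.far (h3 : C3L S T) (hW : LUW S T W) : ∃ N b : ℕ, ∀ {k m : ℕ} {xh x0 : ℤ → Z}
    {fh f0 F0 : ℤ → ℤ} {w0 : ℤ → A} {p p' a a' : ℤ} {n l : ℕ},
    pad o' (it G' m y0') ∈ T.sys.lang.V N → Parse (sig P' G' k) xh (pad o' (it G' m y0')) fh →
    Parse P' x0 (pad o' (it G' m y0')) f0 → Parse P x0 w0 F0 → xh (p + ϖ) ≠ xh p →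
    xh (p' + ϖ) ≠ xh p' → Unb ϖ xh (p + 1) p' → In fh a p → In fh a' p' → a + N ≤ a' →
    a' ≤ a + l → Inv S T k W xh (pad o' (it G' m y0')) fh p n →
    Inv S T k W xh (pad o' (it G' m y0')) fh p' (n + b * (l + b)) := by
  obtain ⟨K0, n0, h3⟩ := h3
  obtain ⟨nA, hA⟩ := S.adm0
  obtain ⟨c, c1, -, hc⟩ := T.desc nA
  obtain ⟨Ks, k1, ha⟩ := T.asc
  obtain ⟨n1, a1⟩ := ha (c + K0 + W)
  obtain ⟨nL, eL⟩ := long_end Lc ϖ 1 Ks
  obtain ⟨nR, eR⟩ := long_end Lc ϖ (-1) Ks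
  obtain ⟨cS, c2, -, hS⟩ := S.desc ϖ
  obtain ⟨b, b1, hb⟩ := T.lam0_le
  obtain ⟨bS, b2, hbS⟩ := S.lam0_le
  obtain ⟨nS, hnS⟩ : ∃ nS, nS = bS * (cS + 2) := ⟨_, rfl⟩
  have h0 := S.pos
  refine ⟨n1 + nL + nR + 3 * c + n0 + nA + W + K0 + nS + 2, b + 2 * cS + 1,
    fun {k m xh x0 fh f0 F0 w0 p p' a a' n l} hz h q1 q2 br br' hu ia ia' hN hl I => ?_⟩
  have hx := (T.stepK k).imgV hz h
  have m1 := h.le_add (T.neK k) (i := a + 1) (j := a') (by omega)
  have m2 := ia.2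
  have m3 := ia'.1
  obtain ⟨vL, d1, d2⟩ := eL xh (Lang.V_anti (by omega) hx) p br
    fun i i1 i2 => hu _ (by omega) (by omega)
  obtain ⟨vR, d3, d4⟩ := eR xh (Lang.V_anti (by omega) hx) p' br'
    fun i i1 i2 => hu _ (by omega) (by omega)
  have g := Glue.of_ctx h0 k1 d1 d3 (by omega) hu d2 d4
  obtain ⟨L', rfl⟩ := T.ed_v (Or.inl rfl) d1
  obtain ⟨R', rfl⟩ := T.ed_v (Or.inr rfl) d3
  obtain ⟨L, hL⟩ := S.ed_v (Or.inl rfl) d1
  obtain ⟨R, hR⟩ := S.ed_v (Or.inr rfl) d3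
  obtain ⟨s', e', g2, r1, r2⟩ := a1 k L' R' (Lang.V_anti (by omega) hz) h g
    (Or.inr ⟨a + 1, a', by omega, by omega, by omega⟩)
  obtain ⟨p1, p2, -, t1, t2, t3, t4, t5, t6, t7⟩ := hc k L' R' (by omega) h g2
  obtain rfl : p = p1 := by omega
  obtain rfl : p' = p2 := by omega
  have u1 := h.lt_of_lt (i := s' - c) (j := a + 1) (by omega)
  have u2 := h.lt_of_lt (i := a) (j := s' + 1) (by have := ia.1; omega)
  have u3 := h.lt_of_lt (i := a') (j := e' + c) (by omega)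
  have u4 := h.le_add (T.neK k) (i := e') (j := e' + ϖ) (by omega)
  have u5 := h.lt_of_lt (i := e') (j := a' + 1) (by have := ia'.2; omega)
  have ad' := g2.adm (by omega)
  obtain ⟨p0, q0, g3, v1, -⟩ := hc 0 L' R' (by omega) (by rw [sig_zero]; exact q1) g2
  have v2 := (FS.adm_lam 0 ad').2
  obtain ⟨l0, ad, v3⟩ := hA L R q2 (by rw [hL, hR]; exact g3) (by omega)
  have v4 := (h3 L R L' R' hL hR (Or.inr ⟨m, s', e', g2.mono (by omega), by omega⟩) _ _ k ad
    ad').2 (v3.trans v1)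
  have v5 := (FS.adm_lam 0 ad).2
  have v6 := hb L' R' (e' - s') (by omega)
  have v7 : (b : ℤ) * (e' - s' + 1) ≤ b * (l + 1) := mul_le_mul_of_nonneg_left (by omega)
    (by omega)
  obtain ⟨y1, g4⟩ := ad.glue 0
  obtain ⟨x1, f1, h1, e1⟩ := exists_parse (S.neK k) y1 0 (p + L.cut k 0)
  obtain ⟨p1, p2, g5, s1, s2, s3, s4, s5, s6, s7⟩ := hS k L R le_rfl h1 (g4 cS)
  obtain rfl : p = p1 := by omega
  rw [show 0 + l0 - 0 = l0 by ring] at s1
  obtain rfl : p' = p2 := by omega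
  obtain ⟨i, hi⟩ := h1.tile (S.neK k) p
  obtain ⟨j, hj⟩ := h1.tile (S.neK k) p'
  have x1' := h1.lt_of_lt (i := 0 - cS) (j := i + 1) (by omega)
  have x2 := h1.lt_of_lt (i := j) (j := 0 + l0 + cS) (by omega)
  have x3 : (cS : ℤ) < l0 := by
    have y1 := hbS L R l0 (by have := ad.1; omega)
    have y2 : (bS : ℤ) * (cS + 2) ≤ bS * (l0 + 1) := by
      have : (nS : ℤ) = bS * (cS + 2) := by rw [hnS]; push_cast; ring
      omega
    have := le_of_mul_le_mul_left y2 (by omega)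
    omega
  have y1' := h1.mono (i := 0 + 1) (j := 0 + (cS + 1)) (by omega)
  have y2 := h1.mono (i := 0 + l0 + cS) (j := 0 + l0 + (cS + 1)) (by omega)
  have y3 := h1.le_add (S.neK k) (i := 0 + l0 - cS) (j := 0 + l0 + ϖ) (by omega)
  refine (I.ext (C := b * (l + 1) + 2 * cS) hW h br h1 (by omega) hi hj
    (Rep.of_ends (K := cS) (K' := c + W) hL h1 h
      ⟨fun i i1 i2 => (g4 cS).left i i1 (by omega), s2⟩
      ⟨fun i i1 i2 => g2.left i (by omega) (by omega), r1⟩ ia (by omega) (by omega) (by omega)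
      (by omega) hi)
    (Rep.of_ends (K := cS) (K' := c + W) hR h1 h
      ⟨fun i i1 i2 => (g4 cS).right i (by omega) i2, s3⟩
      ⟨fun i i1 i2 => g2.right i (by omega) (by omega), r2⟩ ia' (by omega) (by omega) (by omega)
      (by omega) hj) (fun r r1 r2 => ?_) (by push_cast; omega)).mono (by nlinarith)
  have z1 := g5.left (r - p) (by omega) (by omega)
  have z2 := g.left (r - p) (by omega) (by omega)
  rw [add_sub_cancel] at z1 z2
  rw [z1, z2, hL]

theorem filter_seg {x : ℤ → ℕ} {a a' : ℤ} {n n' : ℕ} (h1 : a ≤ a') (h2 : a' + n' ≤ a + n)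
    (h : ∀ r, r < a' ∨ a' + n' ≤ r → x r = 0) :
    (seg x a n).filter (fun c => c ≠ 0) = (seg x a' n').filter (fun c => c ≠ 0) := by
  obtain ⟨m, rfl⟩ : ∃ m : ℕ, a' = a + m := ⟨(a' - a).toNat, by omega⟩
  obtain ⟨l, rfl⟩ : ∃ l : ℕ, n = m + n' + l := ⟨n - m - n', by omega⟩
  rw [seg_add, seg_add, List.filter_append, List.filter_append]
  have e1 : (seg x a m).filter (fun c => c ≠ 0) = [] := by
    rw [List.filter_eq_nil_iff]
    intro c hc
    obtain ⟨i, i1, i2, rfl⟩ := mem_seg.1 hc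
    simp [h i (Or.inl i2)]
  have e2 : (seg x (a + (m + n' : ℕ)) l).filter (fun c => c ≠ 0) = [] := by
    rw [List.filter_eq_nil_iff]
    intro c hc
    obtain ⟨i, i1, i2, rfl⟩ := mem_seg.1 hc
    simp [h i (Or.inr (by omega))]
  rw [e1, e2, List.nil_append, List.append_nil]

theorem filter_pad {t : List ℕ} {a : ℤ} {n : ℕ} (h : ∀ r, r < a ∨ a + n ≤ r → pad 0 t r = 0) :
    (seg (pad 0 t) a n).filter (fun c => c ≠ 0) = t.filter (fun c => c ≠ 0) := by
  have e1 := filter_seg (a := -a.natAbs) (n := 2 * a.natAbs + n + t.length) (by omega) (by omega) h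
  have e2 := filter_seg (x := pad 0 t) (a := -a.natAbs) (n := 2 * a.natAbs + n + t.length) (a' := 0)
    (n' := t.length) (by omega) (by omega) fun r hr => pad_out (by omega)
  rw [← e1, e2, seg_pad]

theorem zero_left {t : List ℕ} {ϖ : ℕ} (h0 : 0 < ϖ) {p : ℤ}
    (h : ∀ r, r < p → pad 0 t (r + ϖ) = pad 0 t r) (r : ℤ) (hr : r < p + ϖ) : pad 0 t r = 0 := by
  have := Unb.agree h0 (y := fun _ => 0) (y' := pad 0 t) (a := min (min r p) (-ϖ)) (b := p)
    (c := min (min r p) (-ϖ)) (t := 0) (fun _ _ _ => rfl) (fun i _ i1 => h i (by omega)) le_rfl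
    (by omega) (fun i i1 i2 => pad_out (by omega)) r (by omega) hr
  simpa using this

theorem zero_right {t : List ℕ} {ϖ : ℕ} (h0 : 0 < ϖ) {p : ℤ}
    (h : ∀ r, p < r → pad 0 t (r + ϖ) = pad 0 t r) (r : ℤ) (hr : p < r) : pad 0 t r = 0 := by
  have := Unb.agree h0 (y := fun _ => 0) (y' := pad 0 t) (a := p + 1) (b := max r t.length)
    (c := max r t.length) (t := 0) (fun _ _ _ => rfl) (fun i i1 _ => h i (by omega)) (by omega)
    le_rfl (fun i i1 i2 => pad_out (by omega)) r (by omega) (by omega)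
  simpa using this

theorem sig_mark {P : A → List ℕ} {Lc : Lang ℕ} (S : FS G y0 o P Lc ϖ) (hm : Mk P o) (k : ℕ) :
    ∀ c ∈ sig P G k o, c = 0 := by
  intro c hc
  obtain ⟨a, h1, h2⟩ := mem_app.1 hc
  rw [S.sys.mark_pw k a h1, hm.1] at h2
  simpa using h2

theorem sig_nmark {P : A → List ℕ} {Lc : Lang ℕ} (S : FS G y0 o P Lc ϖ) (hm : Mk P o)
    (hg : ∀ a, a ≠ o → o ∉ G a) (k : ℕ) {a : A} (ha : a ≠ o) : 0 ∉ sig P G k a := by
  intro hc
  obtain ⟨b, h1, h2⟩ := mem_app.1 hc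
  refine hm.2 b (fun e => hg a ha ?_) h2
  rw [← e]; exact S.norm.mem_pw h1

theorem C3L.main {P : A → List ℕ} {P' : B → List ℕ} {Lc : Lang ℕ} {S : FS G y0 o P Lc ϖ}
    {T : FS G' y0' o' P' Lc ϖ} (h3 : C3L S T) (hm : Mt S G' P') (hm' : Mt T G P) (k1 : Mk P o)
    (k2 : Mk P' o') (hg : ∀ a, a ≠ o → o ∉ G a)
    (h4 : ∀ j, ∃ w, app P' (it G' j y0') = app P w) :
    ∃ N0, ∀ m, N0 ≤ m → ∃ C, ∀ k, ∃ w : List A, w.length ≤ C ∧
      (app (sig P G k) w).filter (fun c => c ≠ 0) =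
        (app P' (it G' (m + k) y0')).filter (fun c => c ≠ 0) := by
  obtain ⟨W, hW⟩ : ∃ W, LUW S T W := h3.lu hm
  obtain ⟨N, b, hF⟩ := h3.far hW
  obtain ⟨C, hC⟩ := h3.close hm' hW N
  have h0 := S.pos
  refine ⟨2 * (N + 2 * W), fun m hm => ?_⟩
  obtain ⟨l, hl⟩ : ∃ l, l = (it G' m y0').length + ϖ := ⟨_, rfl⟩
  refine ⟨l * (b * (l + b) + C) + 1, fun k => ?_⟩
  have hz := T.sys.pad_V hm
  obtain ⟨fh, h, e0, e1⟩ := parse_pad_pad (T.neK k) (sig_mark T k2 k) (it G' m y0')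
  obtain ⟨f0, q1, -⟩ := parse_pad_pad T.step.ne (o := o') (o' := 0) (by simp [k2.1]) (it G' m y0')
  obtain ⟨w0, hw0⟩ := h4 m
  obtain ⟨F0, q2, -⟩ := parse_pad_pad S.step.ne (o := o) (o' := 0) (by simp [k1.1]) w0
  rw [← hw0] at q2
  rw [add_comm m k, it_add, ← app_sig]
  obtain ⟨t, ht⟩ : ∃ t, t = app (sig P' G' k) (it G' m y0') := ⟨_, rfl⟩
  rw [← ht] at h e1 ⊢
  have bd : ∀ p, pad 0 t (p + ϖ) ≠ pad 0 t p → -ϖ ≤ p ∧ p < t.length := fun p hp => by
    constructor <;> by_contra hc <;> exact hp (by rw [pad_out (by omega), pad_out (by omega)])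
  have bd' : ∀ p a, pad 0 t (p + ϖ) ≠ pad 0 t p → In fh a p → -ϖ ≤ a ∧ a < -ϖ + l := by
    intro p a hp ha
    obtain ⟨b1, b2⟩ := bd p hp
    obtain ⟨a1, a2⟩ := ha
    have m1 := h.le_add (T.neK k) (i := -ϖ) (j := 0) (by omega)
    have m2 := h.lt_of_lt (i := -ϖ) (j := a + 1) (by omega)
    have m3 := h.lt_of_lt (i := a) (j := (it G' m y0').length) (by omega)
    omega
  have base : ∀ p a, pad 0 t (p + ϖ) ≠ pad 0 t p → In fh a p →
      (∀ r, r < p → pad 0 t (r + ϖ) = pad 0 t r) →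
      Inv S T k W (pad 0 t) (pad o' (it G' m y0')) fh p 0 := by
    intro p a hp ha hu
    have z := zero_left h0 hu
    obtain ⟨x, y, f, y', f', c, a1, a2, a3⟩ := Cf.exists_local S T hz h (a - W)
    obtain ⟨i, hi⟩ := c.p.tile (S.neK k) p
    have w1 : ∀ j, a - W ≤ j → j < a + W → y' j = pad o' (it G' m y0') j :=
      fun m m1 m2 => a1 m m1 (by omega)
    have e1 := a2 a (by omega) (by omega)
    obtain ⟨-, d2⟩ := loc_agree h T hW.1 c.p' ha w1 e1
    have e2 : y i = o := by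
      by_contra hc
      refine sig_nmark S k1 hg k hc ?_
      have := c.p.mem hi.1 hi.2
      rwa [d2 p le_rfl (by omega), z p (by omega)] at this
    obtain ⟨x1, f1, h1, e3⟩ := exists_parse (S.neK k) (fun _ => o) i (f i)
    have c1 : ¬ i + 1 < i := by omega
    refine ⟨_, _, _, i, h1.splice c.p e3, fun r hr => ?_, ?_, ?_, fun j hj => ?_⟩
    · rw [z r (by omega)]
      split_ifs with d
      · obtain ⟨j, hj⟩ := h1.tile (S.neK k) r
        exact sig_mark S k1 k _ (h1.mem hj.1 hj.2)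
      · have := c.p.mem (i := i) (p := r) (by omega) (by omega)
        rw [e2] at this
        exact sig_mark S k1 k _ this
    · simp only [In, lt_irrefl, if_false, if_neg c1, sub_add_cancel]; exact hi
    · simp only [lt_irrefl, if_false, sub_add_cancel]
      exact ⟨x, y, f, y', f', a, i, c, ha, w1, e1, hi, rfl, rfl⟩
    · rw [if_pos (by omega)]
  have key : ∀ (d : ℕ) (p a : ℤ), pad 0 t (p + ϖ) ≠ pad 0 t p → In fh a p → a < -ϖ + d →
      Inv S T k W (pad 0 t) (pad o' (it G' m y0')) fh p (d * (b * (l + b) + C)) := by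
    intro d
    induction d with
    | zero => intro p a hp ha hd; have := (bd' p a hp ha).1; omega
    | succ d ih =>
      intro p a hp ha hd
      obtain ⟨p0, s1, s2, s3, s4⟩ := exists_first (P := fun p => pad 0 t (p + ϖ) ≠ pad 0 t p)
        ha.1 hp
      have ha0 : In fh a p0 := ⟨s1, by have := ha.2; omega⟩
      by_cases hr : ∃ r, r ≤ p0 - 1 ∧ pad 0 t (r + ϖ) ≠ pad 0 t r
      swap
      · push Not at hr
        exact (hC hz h s3 hp s2 ha0 ha (by omega)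
          (base p0 a s3 ha0 fun r r1 => hr r (by omega))).mono (by rw [add_mul, one_mul]; omega)
      obtain ⟨r, r1, r2⟩ := hr
      obtain ⟨p1, -, t1, t2, t3⟩ := exists_last (P := fun p => pad 0 t (p + ϖ) ≠ pad 0 t p) r1 r2
      have t4 : p1 < fh a := by
        by_contra hc
        exact s4 p1 (by omega) (by omega) t2
      obtain ⟨a1, ha1⟩ := h.tile (T.neK k) p1
      have t5 := h.lt_of_lt (i := a1) (j := a) (by omega)
      have I := ih p1 a1 t2 ha1 (by push_cast at hd; omega)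
      rcases le_or_gt a (a1 + N) with u | u
      · exact (hC hz h t2 hp (by omega) ha1 ha u I).mono (by rw [add_mul, one_mul]; omega)
      · have u1 := (bd' p1 a1 t2 ha1).1
        have u2 := (bd' p a hp ha).2
        exact (hC hz h s3 hp s2 ha0 ha (by omega) (hF (l := l) (Lang.V_anti (by omega) hz) h q1 q2
          t2 s3 (fun q q1 q2 => not_not.1 (t3 q (by omega) (by omega))) ha1 ha0 (by omega)
          (by omega) I)).mono (by rw [add_mul, one_mul]; omega)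
  by_cases hb : ∃ p, pad 0 t (p + ϖ) ≠ pad 0 t p
  swap
  · push Not at hb
    refine ⟨[], by simp, ?_⟩
    rw [← filter_pad (t := t) (a := 0) (n := 0) fun r _ =>
      zero_left h0 (p := r) (fun r _ => hb r) r (by omega)]
    rfl
  obtain ⟨r, hr⟩ := hb
  obtain ⟨p, -, -, s1, s2⟩ := exists_last (P := fun p => pad 0 t (p + ϖ) ≠ pad 0 t p)
    (bd r hr).2.le hr
  have z := zero_right (t := t) h0 (p := p) fun r hr => by
    by_contra hc
    exact s2 r hr (bd r hc).2.le hc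
  obtain ⟨a, ha⟩ := h.tile (T.neK k) p
  obtain ⟨x, w, F, i, a1, a2, a3, ⟨x1, y, f, y', f', a', j, c, b1, b2, b3, b4, b5, b6⟩, a5⟩ :=
    key l p a s1 ha (bd' p a s1 ha).2
  obtain ⟨n, hn⟩ : ∃ n, n = l * (b * (l + b) + C) := ⟨_, rfl⟩
  rw [← hn] at a5 ⊢
  obtain ⟨-, d2⟩ := loc_agree h T hW.1 c.p' b1 b2 b3
  have e2 : y j ≠ o := fun e => by
    have := c.p.mem b4.1 b4.2
    rw [e, d2 p le_rfl (by omega)] at this
    exact s1 (by rw [sig_mark S k1 k _ this, z _ (by omega)])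
  have e3 : f (j + 1) = p + 1 := by
    by_contra hc
    have := c.p.mem (i := j) (p := p + 1) (by have := b4.1; omega) (by have := b4.2; omega)
    rw [d2 _ (by omega) (by omega), z _ (by omega)] at this
    exact sig_nmark S k1 hg k e2 this
  have e4 : F (i + 1) = p + 1 := by rw [a1.step, ← e3, c.p.step, b5, b6]
  obtain ⟨e5, e6⟩ := a1.add (i - n) (n + 1)
  rw [show i - n + (n + 1 : ℕ) = i + 1 by push_cast; ring] at e5
  refine ⟨seg w (i - n) (n + 1), by simp, ?_⟩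
  rw [← e6, ← filter_pad (t := t) (a := F (i - n))
    (n := (app (sig P G k) (seg w (i - n) (n + 1))).length) fun r hr => ?_]
  · congr 1
    exact seg_congr fun r hr => a2 _ (by omega)
  rcases hr with hr | hr
  · obtain ⟨j, hj⟩ := a1.tile (S.neK k) r
    have := a1.mem hj.1 hj.2
    rw [a5 j (a1.lt_of_lt (by omega)), a2 r (by omega)] at this
    exact sig_mark S k1 k _ this
  · exact z r (by omega)

end Pool.Agent.P.MP_1e185c_lc

/-! Runs of a fixed type as pattern words; the affine law for their lengths. -/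

set_option autoImplicit false
set_option linter.unusedSectionVars false

namespace Pool.Agent.P.MP_1e185c_lc

open Filter

variable {A B : Type}

theorem Per.eq_of_window {y y' : ℤ → A} {ϖ : ℕ} (h0 : 0 < ϖ) (h : Per y ϖ) (h' : Per y' ϖ)
    {c t : ℤ} (e : ∀ i, c ≤ i → i < c + ϖ → y' (i + t) = y i) (i : ℤ) : y' (i + t) = y i :=
  Unb.agree h0 (a := min i c) (b := max i c) (h.unb _ _) (h'.unb _ _) (by omega) (by omega) e i
    (by omega) (by omega)

theorem exists_minper {y : ℤ → A} {ϖ : ℕ} (h0 : 0 < ϖ) (h : Per y ϖ) :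
    ∃ q : ℕ, 1 ≤ q ∧ ∀ t : ℤ, Per y t ↔ (q : ℤ) ∣ t := by
  classical
  have ex : ∃ q : ℕ, 1 ≤ q ∧ Per y q := ⟨ϖ, h0, h⟩
  obtain ⟨h1, h2⟩ := Nat.find_spec ex
  refine ⟨Nat.find ex, h1, fun t => ⟨fun ht => ?_, h2.of_dvd⟩⟩
  by_contra hc
  have a1 := Int.emod_nonneg t (b := Nat.find ex) (by omega)
  have a2 := Int.emod_lt_of_pos t (b := Nat.find ex) (by omega)
  have a3 : t % Nat.find ex ≠ 0 := fun e => hc (Int.dvd_of_emod_eq_zero e)
  refine Nat.find_min ex (m := (t % Nat.find ex).toNat) (by omega) ⟨by omega, fun i => ?_⟩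
  rw [show ((t % Nat.find ex).toNat : ℤ) = t % Nat.find ex by omega,
    ← (h2.mul (t / Nat.find ex)) (i + t % Nat.find ex), ← ht i]
  congr 1
  have := Int.emod_add_ediv_mul t (Nat.find ex)
  omega

/-- the periodic word carried by a pair of ends -/
structure RunD (Λ : Lang A) (ϖ : ℕ) (uL uR π : ℤ → A) (q : ℕ) (r : ℤ) : Prop where
  eL : End Λ ϖ 1 uL
  eR : End Λ ϖ (-1) uR
  mem : π ∈ Λ.X
  pos : 0 < ϖ
  q1 : 1 ≤ q
  per : ∀ t : ℤ, Per π t ↔ (q : ℤ) ∣ t
  pv : Per π ϖ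
  left : ∀ i, 1 ≤ i → uL i = π i
  right : ∀ i : ℤ, i < ϖ → uR i = π (i + (1 - r))
  r0 : r ≤ 0

theorem exists_run_data {Λ : Lang A} {ϖ : ℕ} (h0 : 0 < ϖ) {uL uR : ℤ → A} (eL : End Λ ϖ 1 uL)
    (eR : End Λ ϖ (-1) uR) {l : ℤ} (h : Adm ϖ uL uR l) (c : ℕ) :
    ∃ π q r, RunD Λ ϖ uL uR π q r ∧ -c - ϖ < r ∧ r ≤ -c := by
  obtain ⟨π, h1, h2, h3⟩ := eL.perL h0
  obtain ⟨π', -, h5, h6⟩ := eR.perR h0
  obtain ⟨q, q1, hq⟩ := exists_minper h0 h2
  have a1 := Int.emod_nonneg (l - 1 - c) (b := ϖ) (by omega)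
  have a2 := Int.emod_lt_of_pos (l - 1 - c) (b := ϖ) (by omega)
  have a3 := Int.emod_add_ediv_mul (l - 1 - c) ϖ
  have := h.1
  refine ⟨π, q, -c - (l - 1 - c) % ϖ, ⟨eL, eR, h1, h0, q1, hq, h2, fun i hi => (h3 i hi).symm,
    fun i hi => ?_, by omega⟩, by omega, by omega⟩
  rw [← h6 i hi, ← Per.eq_of_window h0 h5 h2 (c := 0) (t := l) (fun j j1 j2 => by
    rw [h3 _ (by omega), h6 _ (by omega), h.2 j (by omega) (by omega)]) i,
    ← h2.mul ((l - 1 - c) / ϖ) (i + (1 - (-c - (l - 1 - c) % ϖ)))]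
  congr 1; omega

/-- the pattern of a pair of ends -/
def pat (uL uR : ℤ → A) (q : ℕ) (r : ℤ) (K : ℕ) : Pat A :=
  ⟨seg uL (-K) (K + 1), seg uL 1 q, seg uR r (K + 1 - r).toNat⟩

namespace RunD

variable {Λ : Lang A} {ϖ : ℕ} {uL uR π : ℤ → A} {q : ℕ} {r : ℤ}

theorem pq (D : RunD Λ ϖ uL uR π q r) (m i : ℤ) : π (i + m * q) = π i :=
  (D.per _).2 (Dvd.intro_left m rfl) i

theorem adm (D : RunD Λ ϖ uL uR π q r) {m : ℤ} (h : 1 ≤ 1 - r + m * q) :
    Adm ϖ uL uR (1 - r + m * q) :=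
  ⟨h, fun i i1 i2 => by rw [D.left _ i1, D.right _ i2, ← add_assoc, D.pq]⟩

theorem adm_nat (D : RunD Λ ϖ uL uR π q r) (m : ℕ) : Adm ϖ uL uR (1 - r + m * q) :=
  D.adm (by have := D.r0; have : (0 : ℤ) ≤ m * q := by positivity
            omega)

theorem of_adm (D : RunD Λ ϖ uL uR π q r) {l : ℤ} (h : Adm ϖ uL uR l) :
    ∃ m : ℤ, l = 1 - r + m * q := by
  have := h.1
  obtain ⟨m, hm⟩ := (D.per (l - (1 - r))).1 (Per.eq_of_window D.pos D.pv D.pv (c := 1 - r)
    fun i i1 i2 => by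
      have e := h.2 (i - (1 - r)) (by omega) (by omega)
      rw [D.left _ (by omega), D.right _ (by omega), sub_add_cancel] at e
      rw [← e]; congr 1; ring)
  exact ⟨m, by rw [mul_comm]; omega⟩

theorem rp_eq (D : RunD Λ ϖ uL uR π q r) (m : ℕ) : rp (seg uL 1 q) m = seg π 1 (m * q) := by
  rw [rp_of_per m fun p _ _ => by simpa using D.pq 1 p]
  congr 1
  exact seg_congr fun i _ => D.left _ (by omega)

theorem W_length (D : RunD Λ ϖ uL uR π q r) (K m : ℕ) :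
    (((pat uL uR q r K).W m).length : ℤ) = 1 - r + m * q + 2 * K + 1 := by
  have := D.r0
  simp only [Pat.W, pat, List.length_append, seg_length, rp_length]
  push_cast
  omega

theorem W_of_glue (D : RunD Λ ϖ uL uR π q r) {K m : ℕ} {y : ℤ → A} {s : ℤ}
    (g : Glue ϖ K y s (s + (1 - r + m * q)) uL uR) :
    seg y (s - K) ((pat uL uR q r K).W m).length = (pat uL uR q r K).W m := by
  have := D.r0
  have hm : (0 : ℤ) ≤ m * q := by positivity
  simp only [Pat.W, pat, List.length_append, seg_length, D.rp_eq]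
  rw [seg_add, seg_add]
  congr 1
  · congr 1
    · exact seg_congr fun i hi => by
        rw [← g.left _ (by omega) (by omega)]; congr 1; ring
    · exact seg_congr fun i hi => by
        have : (i : ℤ) < m * q := by exact_mod_cast hi
        rw [← D.left _ (by omega), ← g.left _ (by omega) (by omega)]; congr 1; push_cast; ring
  · exact seg_congr fun i hi => by
      rw [← g.right _ (by omega) (by omega)]; congr 1; push_cast; ring

theorem glue_of_W (D : RunD Λ ϖ uL uR π q r) {K m : ℕ} (hK : ϖ ≤ K) {y : ℤ → A} {a : ℤ}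
    (h : seg y a ((pat uL uR q r K).W m).length = (pat uL uR q r K).W m) :
    Glue ϖ K y (a + K) (a + K + (1 - r + m * q)) uL uR := by
  obtain ⟨z, hz⟩ := (D.adm_nat m).glue (a + K)
  have e := D.W_of_glue (hz K)
  have l := D.W_length K m
  have := (hz K).congr hK (y' := y) (t := 0) fun i i1 i2 => by
    have := seg_eq_seg (h.trans e.symm) (i - a) (by omega) (by omega)
    rw [add_sub_cancel, show a + K - K + (i - a) = i by ring] at this
    rw [add_zero, this]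
  simpa using this

theorem nonmark (D : RunD Λ ϖ uL uR π q r) {K : ℕ} (hK : ϖ ≤ K) (o : A) :
    (∃ d ∈ (pat uL uR q r K).c ++ (pat uL uR q r K).p, d ≠ o) ∧
      ∃ d ∈ (pat uL uR q r K).p ++ (pat uL uR q r K).d, d ≠ o := by
  have := D.r0
  have := D.pos
  have := D.q1
  constructor <;> by_contra hc <;> push Not at hc
  · refine D.eL.br ?_
    obtain ⟨m, hm⟩ := (D.per _).1 D.pv
    rw [hc (uL 0) (List.mem_append_left _ (mem_seg.2 ⟨0, by omega, by omega, rfl⟩)),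
      ← hc (uL q) (List.mem_append_right _ (mem_seg.2 ⟨q, by omega, by omega, rfl⟩)),
      D.left _ (by omega), D.left _ (by omega), ← D.pq (m - 1) q]
    congr 1; rw [hm]; ring
  · refine D.eR.br ?_
    rw [hc (uR 0) (List.mem_append_right _ (mem_seg.2 ⟨0, by omega, by omega, rfl⟩)),
      hc (uR ϖ) (List.mem_append_right _ (mem_seg.2 ⟨ϖ, by omega, by omega, rfl⟩))]

end RunD

variable [Fintype A]

/-- how a desubstitution step acts on runs of a given type -/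
structure StepD (σ : A → List B) (π : ℤ → A) (π' : ℤ → B) (fL fR fπ : ℤ → ℤ) (q q' : ℕ)
    (r r' : ℤ) (κ e : ℕ) : Prop where
  k1 : 1 ≤ κ
  par : Parse σ π' π fπ
  cut : ∀ i, 1 ≤ i → fπ i = fL i
  mul : ∀ i m : ℤ, fπ (i + m * q) = fπ i + m * κ * q'
  l1 : 0 < fL 1
  rr : fR r ≤ r'
  ee : (e : ℤ) * q' = fL 1 - 1 + (r' - fR r)
  aff : ∀ m : ℤ, 1 ≤ 1 - r + m * q → fL (1 - r + m * q) - fR 0 = 1 - r' + (κ * m + e) * q'

variable {σ : A → List B} {Lp : Lang A} {Lc : Lang B} {ϖ : ℕ} {uL uR π : ℤ → A}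
  {vL vR π' : ℤ → B} {fL fR fπ : ℤ → ℤ} {q q' : ℕ} {r r' : ℤ} {κ e : ℕ}

theorem Step.stepD (S : Step σ Lp Lc ϖ) (D : RunD Lp ϖ uL uR π q r) (D' : RunD Lc ϖ vL vR π' q' r')
    (pL : Parse σ vL uL fL) (pR : Parse σ vR uR fR) (hr : fR r ≤ r') :
    ∃ fπ κ e, StepD σ π π' fL fR fπ q q' r r' κ e := by
  have h0 := D.pos
  have r0 := D.r0
  have q1 := D.q1
  have q1' := D'.q1
  have c1 := S.cutL pL D.eL D'.eL
  obtain ⟨x, f, h1, h2, -, h3, h4⟩ := S.down_per pL D.mem D.pv (a := 1) (b := 1 + ϖ) (by omega)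
    fun i i1 _ => (D.left i i1).symm
  have c2 := pL.le_add S.ne (i := 1) (j := 1 + ϖ) (by omega)
  obtain rfl : x = π' := funext fun i => by
    have := Per.eq_of_window h0 D'.pv h2 (c := fL 1) (t := 0) (fun i i1 i2 => by
      rw [add_zero, h4 i i1 (by omega), D'.left _ (by omega)]) i
    rwa [add_zero] at this
  have cut : ∀ i, 1 ≤ i → f i = fL i := fun i hi => by
    have := pL.cuts_right h1 (c := 1) (b := i) (s := 0) (t := 0)
      (fun j j1 _ => by rw [add_zero, D.left j j1]) (by simpa using h3 1 le_rfl (by omega)) i hi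
      le_rfl
    simpa using this
  obtain ⟨p1, p2⟩ := h1.periodic S.ne (q := q) (by simpa using D.pq 1)
  obtain ⟨κ, hκ⟩ := (D'.per _).1 p2
  have c3 := h1.lt S.ne (i := 0) (j := q) (by omega)
  have c4 : 0 < κ := by
    by_contra hc
    nlinarith
  have mul : ∀ i m : ℤ, f (i + m * q) = f i + m * κ * q' := fun i m => by
    induction m using Int.induction_on with
    | zero => simp
    | succ m ih => rw [add_mul, one_mul, ← add_assoc, p1, ih, hκ]; ring
    | pred m ih =>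
      have := p1 (i + (-m - 1) * q)
      rw [show i + (-m - 1) * q + q = i + -m * q by ring, ih, hκ] at this
      linarith
  have ad := D.adm (m := 0) (by omega)
  rw [zero_mul, add_zero] at ad
  obtain ⟨e, he⟩ := D'.of_adm (S.adm_child D.eL D'.eL D.eR D'.eR pL pR ad).1
  have c5 := ad.cut S.ne pL pR (i := r) (by omega) (by omega)
  rw [add_sub_cancel] at c5
  have c6 : 0 ≤ e := by
    by_contra hc
    nlinarith
  lift κ to ℕ using c4.le
  lift e to ℕ using c6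
  refine ⟨f, κ, e, by omega, h1, cut, mul, c1, hr, by omega, fun m hm => ?_⟩
  rw [← cut _ hm, mul, cut _ (by omega)]
  linarith

theorem StepD.low (E : StepD σ π π' fL fR fπ q q' r r' κ e) (D : RunD Lp ϖ uL uR π q r)
    (D' : RunD Lc ϖ vL vR π' q' r') (pL : Parse σ vL uL fL) (pR : Parse σ vR uR fR) {K K' : ℕ}
    (k1 : fL (-K) ≤ -K') (k2 : K' < fR (K + 1)) :
    Low σ (pat uL uR q r K) (pat vL vR q' r' K') κ e := by
  have r0 := D.r0
  have r0' := D'.r0
  have l1 := E.l1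
  have rr := E.rr
  have ee := E.ee
  have a1 := pL.seg_app (a := -K) (b := 1) (by omega)
  have a2 := pR.seg_app (a := r) (b := K + 1) (by omega)
  have a3 := E.par.seg_app (a := 1) (b := 1 + q) (by omega)
  have a4 := E.mul 1 1
  rw [one_mul, one_mul, E.cut 1 le_rfl] at a4
  have y1 : seg vL 1 (fL 1 - 1).toNat = seg π' 1 (fL 1 - 1).toNat :=
    seg_congr fun i _ => D'.left _ (by omega)
  refine ⟨seg vL (fL (-K)) (-K' - fL (-K)).toNat, seg vL 1 (fL 1 - 1).toNat,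
    seg vR (fR r) (r' - fR r).toNat, seg vR (K' + 1) (fR (K + 1) - K' - 1).toNat, ?_, ?_, ?_, ?_⟩
  · simp only [pat]
    rw [show K + 1 = (1 - -(K : ℤ)).toNat by omega, ← a1, show (fL 1 - fL (-K)).toNat =
      (-K' - fL (-K)).toNat + (K' + 1) + (fL 1 - 1).toNat by omega, seg_add, seg_add]
    congr 2
    · congr 1; omega
    · omega
  · simp only [pat]
    rw [← a2, show (fR (K + 1) - fR r).toNat =
      (r' - fR r).toNat + (K' + 1 - r').toNat + (fR (K + 1) - K' - 1).toNat by omega, seg_add,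
      seg_add]
    congr 2
    · congr 1; omega
    · omega
  · simp only [pat]
    have b1 : seg uL 1 q = seg π 1 (1 + q - 1 : ℤ).toNat := by
      rw [show (1 + q - 1 : ℤ).toNat = q by omega]
      exact seg_congr fun i _ => D.left _ (by omega)
    have b2 : (fπ (1 + q) - fπ 1).toNat = κ * q' := by
      rw [a4, E.cut 1 le_rfl, add_sub_cancel_left]; norm_cast
    rw [D'.rp_eq, b1, ← a3, y1, b2, E.cut 1 le_rfl]
    have b3 := seg_add π' 1 (fL 1 - 1).toNat (κ * q')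
    have b4 := seg_add π' 1 (κ * q') (fL 1 - 1).toNat
    rw [show 1 + ((fL 1 - 1).toNat : ℤ) = fL 1 by omega] at b3
    rw [← b3, add_comm, b4]
    congr 1
    exact seg_congr fun i _ => by
      rw [← D'.pq κ (1 + i)]; congr 1; push_cast; ring
  · simp only [pat]
    have b1 : e * q' = (fL 1 - 1).toNat + (r' - fR r).toNat := by
      have : ((e * q' : ℕ) : ℤ) = fL 1 - 1 + (r' - fR r) := by push_cast; exact ee
      omega
    have := D'.pos
    rw [D'.rp_eq, y1, b1, seg_add]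
    congr 1
    exact seg_congr fun i _ => by
      rw [D'.right _ (by omega), ← D'.pq e]; congr 1; omega

end Pool.Agent.P.MP_1e185c_lc

/-! The local conditions `Up` hold for the pattern of a type of runs. -/

set_option autoImplicit false
set_option linter.unusedSectionVars false

namespace Pool.Agent.P.MP_1e185c_lc

open Filter

variable {A B : Type}

theorem drop_seg (y : ℤ → A) (a : ℤ) (n k : ℕ) : (seg y a n).drop k = seg y (a + k) (n - k) := by
  rcases le_or_gt k n with h | h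
  · obtain ⟨m, rfl⟩ := Nat.exists_eq_add_of_le h
    rw [seg_add, List.drop_left' (seg_length _ _ _), Nat.add_sub_cancel_left]
  · rw [List.drop_eq_nil_of_le (by simp; omega), show n - k = 0 by omega, seg_zero]

theorem take_seg (y : ℤ → A) (a : ℤ) {n k : ℕ} (h : k ≤ n) : (seg y a n).take k = seg y a k := by
  obtain ⟨m, rfl⟩ := Nat.exists_eq_add_of_le h
  rw [seg_add, List.take_left' (seg_length _ _ _)]

theorem occ_seg {y : ℤ → A} {n p : ℕ} {u : List A} (h1 : p + u.length ≤ n)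
    (h : seg y p u.length = u) : Occ (seg y 0 n) p u := by
  unfold Occ
  rw [drop_seg, zero_add, ← h, ← take_seg y p (n := n - p) (k := u.length) (by omega)]
  exact List.take_prefix _ _

theorem seg_of_occ {y : ℤ → A} {n p : ℕ} {u : List A} (h : Occ (seg y 0 n) p u) :
    seg y p u.length = u := by
  unfold Occ at h
  rw [drop_seg, zero_add] at h
  have l := h.length_le
  rw [seg_length] at l
  rw [← take_seg y p l]
  exact (List.prefix_iff_eq_take.1 h).symm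

theorem Parse.cf_eq {σ : A → List B} {x : ℤ → B} {y : ℤ → A} {F : ℤ → ℤ} (h : Parse σ x y F)
    (h0 : F 0 = 0) {n i : ℕ} (hi : i ≤ n) : (cf σ (seg y 0 n) i : ℤ) = F i := by
  have := (h.add 0 i).1
  rw [zero_add, h0, zero_add] at this
  rw [cf, take_seg y 0 hi, this]

theorem RunD.c_rp {Λ : Lang A} {ϖ : ℕ} {uL uR π : ℤ → A} {q : ℕ} {r : ℤ}
    (D : RunD Λ ϖ uL uR π q r) (K m : ℕ) :
    seg uL (-K) (K + 1) ++ rp (seg uL 1 q) m = seg uL (-K) (K + 1 + m * q) := by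
  rw [D.rp_eq, seg_add uL (-K) (K + 1)]
  congr 1
  exact seg_congr fun i _ => by rw [← D.left _ (by omega)]; congr 1; push_cast; ring

variable [Fintype A] {σ : A → List B} {Lp : Lang A} {Lc : Lang B} {ϖ : ℕ} {uL uR π : ℤ → A}
  {vL vR π' : ℤ → B} {fL fR fπ : ℤ → ℤ} {q q' : ℕ} {r r' : ℤ} {κ e : ℕ}

theorem StepD.upL (E : StepD σ π π' fL fR fπ q q' r r' κ e) (S : Step σ Lp Lc ϖ)
    (D : RunD Lp ϖ uL uR π q r) (D' : RunD Lc ϖ vL vR π' q' r') (pL : Parse σ vL uL fL)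
    {K K' Ks : ℕ} (k1 : Ks ≤ K')
    (s1 : ∀ {ε ε' : ℤ → B}, End Lc ϖ 1 ε → End Lc ϖ 1 ε' →
      (∀ i : ℤ, -Ks ≤ i → i ≤ Ks → ε i = ε' i) → ε = ε') (L1 : ℕ) :
    ∃ L0 : ℕ, ∀ {N : ℕ} {x : ℤ → B} {y : ℤ → A} {F : ℤ → ℤ}, y ∈ Lp.X → Parse σ x y F → F 0 = 0 →
      K + 1 + (fL 1 - 1).toNat + L1 * q ≤ N → ∀ p, cf σ (seg y 0 (2 * N)) N ≤ p →
      p < cf σ (seg y 0 (2 * N)) (N + 1) → (pat vL vR q' r' K').c.length ≤ p →
      Occ (app σ (seg y 0 (2 * N))) (p - (pat vL vR q' r' K').c.length)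
        ((pat vL vR q' r' K').c ++ rp (pat vL vR q' r' K').p L0) →
      ∃ i, i ≤ 2 * N ∧ (pat uL uR q r K).c.length ≤ i ∧ Occ (seg y 0 (2 * N))
        (i - (pat uL uR q r K).c.length) ((pat uL uR q r K).c ++ rp (pat uL uR q r K).p L1) ∧
        cf σ (seg y 0 (2 * N)) i = p + (fL 1 - 1).toNat := by
  obtain ⟨n, hn⟩ := S.asc (d := 1) (Or.inl rfl) (K + Ks + L1 * q + 1)
  refine ⟨n + ϖ + Ks, fun {N x y F} hy h h0 hN p p1 p2 p3 p4 => ?_⟩
  have l1 := E.l1
  have c1 := h.cf_eq h0 (n := 2 * N) (i := N) (by omega)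
  have c2 := h.cf_eq h0 (n := 2 * N) (i := N + 1) (by omega)
  have c3 := (h.add 0 (2 * N)).2
  simp only [pat, seg_length, D.c_rp, D'.c_rp] at p3 p4 ⊢
  rw [← c3, h0] at p4
  have c4 := seg_of_occ p4
  rw [seg_length] at c4
  have c5 : n + ϖ + Ks ≤ (n + ϖ + Ks) * q' := Nat.le_mul_of_pos_right _ D'.q1
  have hx : ∀ t : ℤ, -K' ≤ t → t ≤ n + ϖ + Ks → x (p - 1 + t) = vL t := fun t t1 t2 => by
    have := seg_eq_seg c4 (t + K') (by omega) (by omega)
    rw [show -(K' : ℤ) + (t + K') = t by ring] at this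
    rw [← this]; congr 1; omega
  obtain ⟨s, ε, ε', f, b1, b2, b3, b4, b5, b6, -⟩ := hn (P := p - 1) (hy _) h (by
      have := hx 0 (by omega) (by omega)
      rw [add_zero] at this
      rw [hx _ (by omega) (by omega), this]; exact D'.eL.br) fun i i1 i2 => by
    rw [add_assoc, hx _ (by omega) (by omega), hx _ (by omega) (by omega)]
    exact D'.eL.unb i i1
  obtain rfl : ε' = vL := s1 b2 D'.eL fun i i1 i2 => by
    rw [← b5 i (by omega) (by omega), hx i (by omega) (by omega)]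
  obtain ⟨rfl, rfl⟩ := S.parent_unique (Or.inl rfl) D.eL b1 pL b3
  have d1 := h.step s
  have d2 := pL.step 0
  have d3 := b4 0 (by omega) (by omega)
  rw [add_zero] at d3
  rw [d3] at d1
  rw [zero_add] at d2
  have d4 := h.le_of_le S.ne (i := N) (j := s + 1) (by omega)
  have d5 := h.le_add S.ne (i := (N + 1 : ℕ)) (j := N + 1 + (f 1 - 1)) (by omega)
  have d6 := h.lt_of_lt (i := s + 1) (j := N + 1 + (f 1 - 1)) (by omega)
  obtain ⟨i, hi⟩ : ∃ i : ℕ, s + 1 = i := ⟨(s + 1).toNat, by omega⟩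
  have d7 := h.cf_eq h0 (n := 2 * N) (i := i) (by omega)
  rw [← hi] at d7
  refine ⟨i, by omega, by omega, occ_seg (by rw [seg_length]; omega) ?_, by omega⟩
  rw [seg_length]
  exact seg_congr fun t ht => by
    rw [← b4 _ (by omega) (by omega)]; congr 1; omega

theorem StepD.upM (E : StepD σ π π' fL fR fπ q q' r r' κ e) (S : Step σ Lp Lc ϖ)
    (D : RunD Lp ϖ uL uR π q r) (D' : RunD Lc ϖ vL vR π' q' r') (pR : Parse σ vR uR fR)
    {K K' Ks : ℕ} (k1 : Ks ≤ K') (k2 : ϖ ≤ K')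
    (s2 : ∀ {ε ε' : ℤ → B}, End Lc ϖ (-1) ε → End Lc ϖ (-1) ε' →
      (∀ i : ℤ, -Ks ≤ i → i ≤ Ks → ε i = ε' i) → ε = ε') :
    ∃ j1 L1 : ℕ, (fL 1 - 1).toNat + κ * q' ≤ j1 * q' ∧ ∀ {N : ℕ} {x : ℤ → B} {y : ℤ → A}
      {F : ℤ → ℤ}, y ∈ Lp.X → Parse σ x y F → F 0 = 0 →
      L1 * q + q + j1 * q' + (K + 1 - r).toNat ≤ N →
      Occ (seg y 0 (2 * N)) (N - L1 * (pat uL uR q r K).p.length) (rp (pat uL uR q r K).p L1) →
      (Occ (app σ (seg y 0 (2 * N))) (cf σ (seg y 0 (2 * N)) N)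
          ((rp (pat vL vR q' r' K').p j1).drop (fL 1 - 1).toNat) →
          Occ (seg y 0 (2 * N)) N (pat uL uR q r K).p) ∧
        ∀ j, j < j1 → j1 ≤ j + κ → Occ (app σ (seg y 0 (2 * N))) (cf σ (seg y 0 (2 * N)) N)
          ((rp (pat vL vR q' r' K').p j).drop (fL 1 - 1).toNat ++ (pat vL vR q' r' K').d) →
          ∃ m, m ≤ N ∧ Occ (seg y 0 (2 * N)) N (rp (pat uL uR q r K).p m ++ (pat uL uR q r K).d) ∧
            j * (pat vL vR q' r' K').p.length = (fL 1 - 1).toNat +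
              m * κ * (pat vL vR q' r' K').p.length + (r' - fR r).toNat := by
  obtain ⟨ρ, hρ⟩ := S.elem.run_right
  obtain ⟨oL, hoL⟩ : ∃ oL, oL = (fL 1 - 1).toNat := ⟨_, rfl⟩
  obtain ⟨oR, hoR⟩ : ∃ oR, oR = (r' - fR r).toNat := ⟨_, rfl⟩
  obtain ⟨j0, hj0⟩ : ∃ j0, j0 = oL + oR + ρ := ⟨_, rfl⟩
  obtain ⟨J, hJ⟩ : ∃ J, J = (κ + j0) * q' := ⟨_, rfl⟩
  obtain ⟨n, hn⟩ := S.asc (d := -1) (Or.inr rfl) (K + Ks + J + r.natAbs + ϖ + 1)
  obtain ⟨M, hM⟩ : ∃ M, M = (n + ϖ + Ks) * q := ⟨_, rfl⟩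
  have a1 : j0 ≤ j0 * q' := Nat.le_mul_of_pos_right _ D'.q1
  have a2 : J = κ * q' + j0 * q' := by rw [hJ, add_mul]
  have a3 : n + ϖ + Ks ≤ M := hM ▸ Nat.le_mul_of_pos_right _ D.q1
  rw [← hoL, ← hoR]
  refine ⟨κ + j0, n + ϖ + Ks, by omega, fun {N x y F} hy h h0 hN p1 => ?_⟩
  have l1 := E.l1
  have rr := E.rr
  have r0 := D.r0
  have r0' := D'.r0
  have h1 := E.cut 1 le_rfl
  have c1 := h.cf_eq h0 (n := 2 * N) (i := N) (by omega)
  have c3 := (h.add 0 (2 * N)).2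
  simp only [pat, seg_length, D.rp_eq, D'.rp_eq, drop_seg] at p1 ⊢
  rw [← c3, h0, ← hJ]
  rw [← hM] at p1 hN
  rw [← hJ] at hN
  have c4 := seg_of_occ p1
  rw [seg_length] at c4
  have hy1 : ∀ t : ℤ, N - M ≤ t → t < N → y t = π (t + (1 - N)) := fun t t1 t2 => by
    have := seg_eq_seg c4 (t - (N - M)) (by omega) (by omega)
    rw [show ((N - M : ℕ) : ℤ) + (t - (N - M)) = t by omega] at this
    rw [this, ← D.pq (n + ϖ + Ks : ℕ) (t + (1 - N))]
    congr 1
    have : (M : ℤ) = (n + ϖ + Ks : ℕ) * q := by rw [hM]; norm_cast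
    omega
  have ref := E.par.shift (fπ 1 - F N) (1 - N)
  have e0 : F (N + 0) = fπ (N + (1 - N)) - (fπ 1 - F N) + 0 := by simp
  have c5 := (ref.agree S.ne h (a := N - M) (b := N) (c := N) (s := 0) (t := 0)
    (fun i i1 i2 => by rw [add_zero, hy1 i i1 i2]) (by omega) le_rfl e0)
  have c6 := c5.1 (N - M) le_rfl (by omega)
  have c7 := c5.2
  simp only [add_zero, add_sub_cancel, sub_sub_cancel] at c6 c7
  rw [← c6] at c7
  constructor
  · intro p2
    have d1 := seg_of_occ p2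
    rw [seg_length, c1] at d1
    have d2 := hρ (c := N) (t := 0) (s := 0) (b := F N + J - oL) ref h e0 fun t t1 t2 => by
      simp only [add_sub_cancel, sub_sub_cancel] at t1
      have := seg_eq_seg d1 (t - F N) (by omega) (by omega)
      rw [add_sub_cancel] at this
      rw [add_zero, this]; congr 1; omega
    refine occ_seg (by rw [seg_length]; omega) ?_
    rw [seg_length]
    refine seg_congr fun i hi => ?_
    have d3 := E.mul 1 1
    have d4 := E.par.mono (i := N + i + (1 - N)) (j := 1 + 1 * q) (by omega)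
    have d5 := (d2 (N + i) (by omega) (by
      have : ((κ * q' : ℕ) : ℤ) = 1 * κ * q' := by push_cast; ring
      omega)).1
    rw [add_zero] at d5
    rw [d5, D.left _ (by omega)]; congr 1; ring
  · intro j j1 j2 p2
    have d0 : j0 * q' ≤ j * q' := Nat.mul_le_mul_right _ (by omega)
    have d0' : j * q' ≤ J := hJ ▸ Nat.mul_le_mul_right _ (by omega)
    have d1 := seg_of_occ p2
    rw [List.length_append, seg_length, seg_length, seg_add, c1] at d1
    obtain ⟨d2, d3⟩ := List.append_inj d1 (by simp)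
    obtain ⟨Q, hQ⟩ : ∃ Q : ℤ, Q = F N + (j * q' : ℕ) - oL - r' := ⟨_, rfl⟩
    have m1 := h.le_add S.ne (i := N - M) (j := N) (by omega)
    have hx : ∀ i : ℤ, -M ≤ i → i ≤ K' → x (Q + i) = vR i := fun i i1 i2 => by
      rcases le_or_gt r' i with l | l
      · have := seg_eq_seg d3 (i - r') (by omega) (by omega)
        rw [add_sub_cancel] at this
        rw [← this]; congr 1; omega
      rw [D'.right _ (by have := D'.pos; omega), ← D'.pq j (i + (1 - r'))]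
      rcases le_or_gt (F N) (Q + i) with l' | l'
      · have := seg_eq_seg d2 (Q + i - F N) (by omega) (by omega)
        rw [add_sub_cancel] at this
        rw [this]; congr 1; push_cast at hQ; omega
      · rw [c7 _ (by omega) l']; congr 1; push_cast at hQ; omega
    obtain ⟨s, ε, ε', f, b1, b2, b3, b4, b5, b6, -⟩ := hn (P := Q) (hy _) h (by
        have := hx 0 (by omega) (by omega)
        rw [add_zero] at this
        rw [hx _ (by omega) (by omega), this]; exact D'.eR.br) fun i i1 i2 => by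
      rw [add_assoc, hx _ (by omega) (by omega), hx _ (by omega) (by omega)]
      exact D'.eR.unb i i1
    obtain rfl : ε' = vR := s2 b2 D'.eR fun i i1 i2 => by
      rw [← b5 i (by omega) (by omega), hx i (by omega) (by omega)]
    obtain ⟨rfl, rfl⟩ := S.parent_unique (Or.inr rfl) D.eR b1 pR b3
    have g1 := pR.cuts_left h (c := 0) (a := r) (s := Q) (t := s)
      (fun i i1 i2 => by rw [add_comm]; exact b4 i (by omega) (by omega))
      (by rw [zero_add, b6, add_comm]) r r0 le_rfl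
    have g2 := h.le_of_le S.ne (i := N) (j := r + s) (by omega)
    have g3 := h.le_add S.ne g2
    obtain ⟨m, hm⟩ := (D.per (-(r + s - N))).1 (Per.eq_of_window D.pos D.pv D.pv (c := 1 - ϖ)
      fun i i1 i2 => by
        have e1 := hy1 (i - (1 - N)) (by omega) (by omega)
        have e2 := b4 (i - (1 - N) - s) (by omega) (by omega)
        rw [sub_add_cancel] at e1
        rw [add_sub_cancel, e1, D.right _ (by omega)] at e2
        rw [e2]; congr 1; ring)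
    have q1 := D.q1
    obtain ⟨m', rfl⟩ : ∃ m' : ℕ, m = -m' := ⟨(-m).toNat, by
      have : m ≤ 0 := by
        by_contra hc
        nlinarith
      omega⟩
    have g4 : r + s - N = (m' * q : ℕ) := by push_cast; linarith
    have g5 : m' ≤ m' * q := Nat.le_mul_of_pos_right _ q1
    have g6 : ∀ i : ℤ, N ≤ i → i < N + (m' * q : ℕ) → y i = π (i + (1 - N)) := fun i i1 i2 => by
      have e2 := b4 (i - s) (by omega) (by omega)
      rw [add_sub_cancel, D.right _ (by omega)] at e2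
      rw [e2, ← D.pq m']; congr 1; push_cast at g4; omega
    have g7 := ref.cuts_right h (c := N) (b := N + (m' * q : ℕ)) (s := 0) (t := 0)
      (fun i i1 i2 => by rw [add_zero, g6 i i1 i2]) e0 _ (by omega) le_rfl
    have g8 := E.mul 1 m'
    rw [add_zero, add_zero, show (N : ℤ) + (m' * q : ℕ) + (1 - N) = 1 + m' * q by push_cast; ring,
      g8, show (N : ℤ) + (m' * q : ℕ) = r + s by omega] at g7
    refine ⟨m', by omega, occ_seg (by simp only [List.length_append, seg_length]; omega) ?_, ?_⟩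
    · rw [List.length_append, seg_length, seg_length, seg_add]
      congr 1
      · exact seg_congr fun i hi => by rw [g6 _ (by omega) (by omega)]; congr 1; ring
      · exact seg_congr fun i hi => by
          rw [← b4 _ (by omega) (by omega)]; congr 1; omega
    · have : ((m' * κ * q' : ℕ) : ℤ) = m' * κ * q' := by push_cast; ring
      omega

theorem StepD.up (E : StepD σ π π' fL fR fπ q q' r r' κ e) (S : Step σ Lp Lc ϖ)
    (D : RunD Lp ϖ uL uR π q r) (D' : RunD Lc ϖ vL vR π' q' r') (pL : Parse σ vL uL fL)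
    (pR : Parse σ vR uR fR) {K K' Ks : ℕ} (k1 : Ks ≤ K') (k2 : ϖ ≤ K')
    (s1 : ∀ {ε ε' : ℤ → B}, End Lc ϖ 1 ε → End Lc ϖ 1 ε' →
      (∀ i : ℤ, -Ks ≤ i → i ≤ Ks → ε i = ε' i) → ε = ε')
    (s2 : ∀ {ε ε' : ℤ → B}, End Lc ϖ (-1) ε → End Lc ϖ (-1) ε' →
      (∀ i : ℤ, -Ks ≤ i → i ≤ Ks → ε i = ε' i) → ε = ε') :
    ∃ n : ℕ, ∀ (L : ℕ) (o : A) (z : ℕ → List A), n ≤ L → (∀ j, pad o (z j) ∈ Lp.V n) →
      Up σ (pat uL uR q r K) (pat vL vR q' r' K') κ e L o z := by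
  obtain ⟨j1, L1, a1, a2⟩ := E.upM S D D' pR (K := K) k1 k2 s2
  obtain ⟨L0, a3⟩ := E.upL S D D' pL (K := K) k1 s1 L1
  obtain ⟨N, hN⟩ : ∃ N, N = K + K' + 2 + L0 * q' + L1 * q + q + (fL 1 - 1).toNat + j1 * q' +
    (K + 1 - r).toNat + (K' + 1 - r').toNat := ⟨_, rfl⟩
  have q1 := D'.q1
  have l1 := E.l1
  have rr := E.rr
  have ee := E.ee
  refine ⟨2 * N + L0 + j1 + L1 * κ, fun L o z hL hz => ⟨(fL 1 - 1).toNat, (r' - fR r).toNat, L0, L1,
    j1, N, ?_, E.k1, ?_, ?_, ?_, ?_, ?_, ?_, by omega, by omega, fun j a => ?_⟩⟩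
  · rw [← List.length_pos_iff]; simp only [pat, seg_length]; omega
  · simp only [pat, seg_length]
    have : ((e * q' : ℕ) : ℤ) = e * q' := by push_cast; ring
    omega
  · simp only [pat, seg_length]
    have b1 := (pL.add 1 q).1
    have b2 := E.mul 1 1
    rw [one_mul, E.cut _ (by omega), E.cut _ le_rfl] at b2
    have : ((κ * q' : ℕ) : ℤ) = 1 * κ * q' := by push_cast; ring
    omega
  · simp only [pat, seg_length]; omega
  · simp only [pat, seg_length]; omega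
  · simp only [pat, seg_length]; omega
  · simp only [pat, seg_length]; omega
  · obtain ⟨y, hy, e1⟩ := Lang.ext (Lang.V_anti (m := 2 * N) (by omega) (hz j) a) 0
    rw [seg_length] at e1
    obtain ⟨x, F, h, h0⟩ := exists_parse S.ne y 0 0
    rw [← e1]
    exact ⟨a3 hy h h0 (by omega), a2 hy h h0 (by omega)⟩

end Pool.Agent.P.MP_1e185c_lc

/-! The words containing a long pattern word form a regular language; an arithmetic lemma. -/

set_option autoImplicit false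

namespace Pool.Agent.P.MP_1e185c_lc

variable {Z : Type}

/-- finitely many left quotients -/
def FQ (R : Set (List Z)) : Prop := (Set.range fun w => {w' | w ++ w' ∈ R}).Finite

theorem FQ.mul {R1 R2 : Set (List Z)} (h1 : FQ R1) (h2 : FQ R2) :
    FQ {w | ∃ u ∈ R1, ∃ v ∈ R2, w = u ++ v} := by
  refine ((h1.prod h2.finite_subsets).image fun t : Set (List Z) × Set (Set (List Z)) =>
    {w' | (∃ u ∈ t.1, ∃ v ∈ R2, w' = u ++ v) ∨ ∃ s ∈ t.2, w' ∈ s}).subset ?_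
  rintro _ ⟨w, rfl⟩
  refine ⟨({w' | w ++ w' ∈ R1}, {s | ∃ w1 ∈ R1, ∃ w2, w = w1 ++ w2 ∧ s = {w' | w2 ++ w' ∈ R2}}),
    ⟨⟨w, rfl⟩, ?_⟩, ?_⟩
  · rintro _ ⟨w1, -, w2, -, rfl⟩
    exact ⟨w2, rfl⟩
  · ext w'
    constructor
    · rintro (⟨u, hu, v, hv, rfl⟩ | ⟨_, ⟨w1, a1, w2, rfl, rfl⟩, a2⟩)
      · exact ⟨w ++ u, hu, v, hv, by simp⟩
      · exact ⟨w1, a1, w2 ++ w', a2, by simp⟩
    · rintro ⟨u, hu, v, hv, e⟩
      rcases List.append_eq_append_iff.1 e with ⟨a, rfl, rfl⟩ | ⟨a, rfl, rfl⟩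
      · exact Or.inl ⟨a, hu, v, hv, rfl⟩
      · exact Or.inr ⟨_, ⟨u, hu, a, rfl, rfl⟩, hv⟩

theorem FQ.univ : FQ (Set.univ : Set (List Z)) :=
  (Set.finite_singleton Set.univ).subset (by rintro _ ⟨w, rfl⟩; simp)

theorem FQ.single (u : List Z) : FQ {u} := by
  refine (List.finite_toSet u.tails).finite_subsets.subset ?_
  rintro _ ⟨w, rfl⟩ w' (e : w ++ w' = u)
  exact (List.mem_tails _ _).2 ⟨w, e⟩

theorem FQ.star (p : List Z) : FQ {w | ∃ m, w = rp p m} := by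
  rcases eq_or_ne p [] with rfl | hp
  · have : {w : List Z | ∃ m, w = rp [] m} = {[]} := by
      ext w; simp [rp]
    rw [this]; exact FQ.single _
  refine (((List.finite_toSet p.inits).image fun w => {w' | ∃ m, w ++ w' = rp p m}).insert
    ∅).subset ?_
  rintro _ ⟨w, rfl⟩
  induction hn : w.length using Nat.strong_induction_on generalizing w with
  | _ n ih =>
    by_cases h1 : w <+: p
    · exact Or.inr ⟨w, (List.mem_inits _ _).2 h1, rfl⟩
    by_cases h2 : p <+: w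
    · obtain ⟨t, rfl⟩ := h2
      have := ih t.length (by
        have := List.length_pos_iff.2 hp
        simp at hn; omega) t rfl
      have e0 : {w' | ∃ m, p ++ t ++ w' = rp p m} = {w' | ∃ m, t ++ w' = rp p m} := by
        ext w'
        constructor
        · rintro ⟨m, e⟩
          cases m with
          | zero => simp [hp] at e
          | succ m => exact ⟨m, by simpa [rp_succ] using e⟩
        · rintro ⟨m, e⟩
          exact ⟨m + 1, by simp [rp_succ, e]⟩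
      show {w' | ∃ m, p ++ t ++ w' = rp p m} ∈ _
      rw [e0]; exact this
    · refine Or.inl (Set.eq_empty_of_forall_notMem ?_)
      rintro w' ⟨m, e⟩
      cases m with
      | zero =>
        rw [rp_zero, List.append_eq_nil_iff] at e
        exact h1 (e.1 ▸ List.nil_prefix)
      | succ m =>
        rw [rp_succ] at e
        rcases List.append_eq_append_iff.1 e with ⟨a, rfl, -⟩ | ⟨a, rfl, -⟩
        · exact h1 (List.prefix_append _ _)
        · exact h2 (List.prefix_append _ _)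

theorem FQ.pat (η : Pat Z) (n : ℕ) : FQ {w | ∃ m, n ≤ m ∧ η.W m <:+: w} := by
  have := FQ.univ.mul ((FQ.single (η.c ++ rp η.p n)).mul ((FQ.star η.p).mul
    ((FQ.single η.d).mul FQ.univ)))
  convert this using 2
  ext w
  constructor
  · rintro ⟨m, hm, s, t, rfl⟩
    obtain ⟨k, rfl⟩ := Nat.exists_eq_add_of_le hm
    exact ⟨s, trivial, _, ⟨_, rfl, _, ⟨_, ⟨k, rfl⟩, _, ⟨_, rfl, t, trivial, rfl⟩, rfl⟩, rfl⟩,
      by simp [Pat.W, rp_add]⟩
  · rintro ⟨s, -, _, ⟨_, rfl, _, ⟨_, ⟨k, rfl⟩, _, ⟨_, rfl, t, -, rfl⟩, rfl⟩, rfl⟩, rfl⟩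
    exact ⟨n + k, by omega, s, t, by simp [Pat.W, rp_add]⟩

theorem arith_lt {κ κ' E E' : ℤ} {u v : ℕ → ℤ} (hu : ∀ j, u (j + 1) = κ * u j + E)
    (hv : ∀ j, v (j + 1) = κ' * v j + E') (k1 : 1 ≤ κ') (hk : κ' < κ) (u1 : u 0 < u 1)
    (v1 : v 0 ≤ v 1) : ∃ j, v j < u j ∧ u j + v (j + 1) ≤ u (j + 1) + v j := by
  have du : ∀ j, u (j + 2) - u (j + 1) = κ * (u (j + 1) - u j) := fun j => by
    rw [hu (j + 1), mul_sub]; linarith [hu j]
  have dv : ∀ j, v (j + 2) - v (j + 1) = κ' * (v (j + 1) - v j) := fun j => by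
    rw [hv (j + 1), mul_sub]; linarith [hv j]
  have pu : ∀ j, 1 ≤ u (j + 1) - u j := fun j => by
    induction j with
    | zero => simp only [zero_add]; omega
    | succ j ih => rw [du]; nlinarith
  have pv : ∀ j, 0 ≤ v (j + 1) - v j := fun j => by
    induction j with
    | zero => simp only [zero_add]; omega
    | succ j ih => rw [dv]; nlinarith
  have a1 : ∀ j : ℕ, (κ' + j) * (v (j + 1) - v j) ≤ κ' * (v 1 - v 0) * (u (j + 1) - u j) := by
    intro j
    induction j with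
    | zero => simp only [zero_add, Nat.cast_zero, add_zero]; nlinarith [mul_nonneg (by omega : 0 ≤ κ') (pv 0)]
    | succ j ih =>
      rw [du, dv]
      push_cast
      have b1 := pv j
      have b2 := pu j
      have b3 : 0 ≤ κ' * (v 1 - v 0) := mul_nonneg (by omega) (by omega)
      have b4 : (κ' + (j + 1)) * κ' ≤ (κ' + 1) * (κ' + j) := by nlinarith
      calc (κ' + (j + 1)) * (κ' * (v (j + 1) - v j))
          = (κ' + (j + 1)) * κ' * (v (j + 1) - v j) := by ring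
        _ ≤ (κ' + 1) * (κ' + j) * (v (j + 1) - v j) := mul_le_mul_of_nonneg_right b4 b1
        _ = (κ' + 1) * ((κ' + j) * (v (j + 1) - v j)) := by ring
        _ ≤ (κ' + 1) * (κ' * (v 1 - v 0) * (u (j + 1) - u j)) :=
          mul_le_mul_of_nonneg_left ih (by omega)
        _ ≤ κ * (κ' * (v 1 - v 0) * (u (j + 1) - u j)) :=
          mul_le_mul_of_nonneg_right (by omega) (mul_nonneg b3 (by omega))
        _ = _ := by ring
  obtain ⟨J, hJ⟩ : ∃ J : ℕ, (J : ℤ) = κ' * (v 1 - v 0) :=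
    ⟨(κ' * (v 1 - v 0)).toNat, Int.toNat_of_nonneg (mul_nonneg (by omega) (by omega))⟩
  have a2 : ∀ j, v (J + j + 1) - v (J + j) + 1 ≤ u (J + j + 1) - u (J + j) := fun j => by
    have b1 := a1 (J + j)
    have b2 := pu (J + j)
    have b3 := pv (J + j)
    rw [← hJ] at b1
    push_cast at b1
    by_contra hc
    nlinarith
  have a3 : ∀ j : ℕ, u J - v J + j ≤ u (J + j) - v (J + j) := fun j => by
    induction j with
    | zero => simp
    | succ j ih => have := a2 j; rw [← add_assoc]; push_cast; omega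
  refine ⟨J + ((u J - v J).natAbs + 1), ?_, ?_⟩
  · have := a3 ((u J - v J).natAbs + 1); omega
  · have := a2 ((u J - v J).natAbs + 1); omega

theorem arith_eq {κ E E' : ℤ} {u v : ℕ → ℤ} (hu : ∀ j, u (j + 1) = κ * u j + E)
    (hv : ∀ j, v (j + 1) = κ * v j + E') (k1 : 1 ≤ κ) (hE : E' < E)
    (h1 : ∀ j, ¬ (v j < u j ∧ u j + v (j + 1) ≤ u (j + 1) + v j))
    (h2 : ∀ j, ¬ (u j < v j ∧ v j + u (j + 1) ≤ v (j + 1) + u j)) : False := by
  have a1 : ∀ j, u j ≤ v j := fun j => by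
    by_contra hc
    exact h1 j ⟨by omega, by rw [hu, hv]; nlinarith⟩
  have a2 : ∀ j, u j < v j := fun j => by
    refine lt_of_le_of_ne (a1 j) fun e => ?_
    have := a1 (j + 1)
    rw [hu, hv, e] at this
    omega
  have a3 : ∀ j : ℕ, v j - u j + j ≤ v 0 - u 0 := fun j => by
    induction j with
    | zero => simp
    | succ j ih =>
      have := h2 j
      have := a2 j
      push_cast; omega
  have := a3 (v 0 - u 0).toNat
  have := a2 (v 0 - u 0).toNat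
  omega

theorem arith {κ κ' E E' : ℤ} {u v : ℕ → ℤ} (hu : ∀ j, u (j + 1) = κ * u j + E)
    (hv : ∀ j, v (j + 1) = κ' * v j + E') (k1 : 1 ≤ κ) (k2 : 1 ≤ κ') (u1 : u 0 ≤ u 1)
    (v1 : v 0 ≤ v 1) (u2 : 2 ≤ κ → u 0 < u 1) (v2 : 2 ≤ κ' → v 0 < v 1)
    (h1 : ∀ j, ¬ (κ' ≤ κ ∧ v j < u j ∧ u j + v (j + 1) ≤ u (j + 1) + v j))
    (h2 : ∀ j, ¬ (κ ≤ κ' ∧ u j < v j ∧ v j + u (j + 1) ≤ v (j + 1) + u j)) :
    κ = κ' ∧ E = E' := by
  rcases lt_trichotomy κ κ' with l | rfl | l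
  · obtain ⟨j, hj⟩ := arith_lt hv hu k1 l (v2 (by omega)) u1
    exact (h2 j ⟨l.le, hj⟩).elim
  · refine ⟨rfl, ?_⟩
    rcases lt_trichotomy E E' with l | l | l
    · exact (arith_eq hv hu k1 l (fun j h => h2 j ⟨le_rfl, h⟩) fun j h => h1 j ⟨le_rfl, h⟩).elim
    · exact l
    · exact (arith_eq hu hv k1 l (fun j h => h1 j ⟨le_rfl, h⟩) fun j h => h2 j ⟨le_rfl, h⟩).elim
  · obtain ⟨j, hj⟩ := arith_lt hu hv k2 l (u2 (by omega)) v1
    exact (h1 j ⟨l.le, hj⟩).elim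

end Pool.Agent.P.MP_1e185c_lc

/-! Longest runs of a given type in the sequence of a system. -/

set_option autoImplicit false
set_option linter.unusedSectionVars false

namespace Pool.Agent.P.MP_1e185c_lc

open Filter

variable {A B Z : Type} [Fintype A] [Fintype B] {G : A → List A} {y0 : List A} {o : A}
  {P : A → List Z} {G' : B → List B} {y0' : List B} {o' : B} {P' : B → List Z} {Lc : Lang Z}
  {ϖ : ℕ}

/-- all data on the runs of a given type in one system -/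
structure Side (S : FS G y0 o P Lc ϖ) (L : S.E 1) (R : S.E (-1)) (π' : ℤ → Z) (q' : ℕ) (r' : ℤ)
    (K K' : ℕ) (π : ℤ → A) (q : ℕ) (r : ℤ) (κ e a b : ℕ) : Prop where
  D : RunD S.sys.lang ϖ L.u R.u π q r
  D' : RunD Lc ϖ L.v R.v π' q' r'
  EG : ∃ f, StepD G π π L.g R.g f q q r r κ e
  EP : ∃ f, StepD P π π' L.f R.f f q q' r r' a b
  k1 : ϖ ≤ K
  k2 : ϖ ≤ K'
  g1 : L.g (-K) ≤ -K
  g2 : K < R.g (K + 1)
  f1 : L.f (-K) ≤ -K'
  f2 : K' < R.f (K + 1)
  upG : ∃ n : ℕ, ∀ (l : ℕ) (z : ℕ → List A), n ≤ l → (∀ j, pad o (z j) ∈ S.sys.lang.V n) →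
    Up G (pat L.u R.u q r K) (pat L.u R.u q r K) κ e l o z
  upP : ∃ n : ℕ, ∀ (l : ℕ) (z : ℕ → List A), n ≤ l → (∀ j, pad o (z j) ∈ S.sys.lang.V n) →
    Up P (pat L.u R.u q r K) (pat L.v R.v q' r' K') a b l o z
  ascG : ∃ n : ℕ, ∀ {x y : ℤ → A} {F : ℤ → ℤ} {p p' : ℤ}, y ∈ S.sys.lang.V n → Parse G x y F →
    Glue ϖ K x p p' L.u R.u → p + n ≤ p' →
    ∃ s t, Glue ϖ K y s t L.u R.u ∧ F s = p + L.g 0 ∧ F t = p' + R.g 0
  ascP : ∃ n : ℕ, ∀ {x : ℤ → Z} {y : ℤ → A} {F : ℤ → ℤ} {p p' : ℤ}, y ∈ S.sys.lang.V n →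
    Parse P x y F → Glue ϖ K' x p p' L.v R.v → p + n ≤ p' →
    ∃ s t, Glue ϖ K y s t L.u R.u ∧ F s = p + L.f 0 ∧ F t = p' + R.f 0

theorem FS.exists_side (S : FS G y0 o P Lc ϖ) : ∃ K1 : ℕ, ∀ K', K1 ≤ K' → ∃ K0, ∀ K, K0 ≤ K →
    ∀ (L : S.E 1) (R : S.E (-1)) (π' : ℤ → Z) (q' : ℕ) (r' l : ℤ), RunD Lc ϖ L.v R.v π' q' r' →
    -ϖ < r' → Adm ϖ L.u R.u l → ∃ π q r κ e a b, Side S L R π' q' r' K K' π q r κ e a b := by
  obtain ⟨K1, s1⟩ := sep_end (S.finc (d := 1) (Or.inl rfl))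
  obtain ⟨K2, s2⟩ := sep_end (S.finc (d := -1) (Or.inr rfl))
  obtain ⟨K3, s3⟩ := sep_end (S.fin (d := 1) (Or.inl rfl))
  obtain ⟨K4, s4⟩ := sep_end (S.fin (d := -1) (Or.inr rfl))
  obtain ⟨K5, s5⟩ := S.step.asc2 (S.finc (Or.inl rfl)) (S.finc (Or.inr rfl))
  obtain ⟨K6, s6⟩ := S.stepG.asc2 (S.fin (Or.inl rfl)) (S.fin (Or.inr rfl))
  refine ⟨K1 + K2 + K5 + ϖ, fun K' hK' => ?_⟩
  obtain ⟨c1, -, u1⟩ := S.unif (d := 1) (Or.inl rfl) (K' + ϖ + 1)
  obtain ⟨c2, -, u2⟩ := S.unif (d := -1) (Or.inr rfl) (K' + ϖ + 1)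
  refine ⟨c1 + c2 + K3 + K4 + K6 + ϖ, fun K hK L R π' q' r' l D' hr ad => ?_⟩
  obtain ⟨π, q, r, D, -, r1⟩ := exists_run_data S.pos L.eu R.eu ad c2
  obtain ⟨⟨a1, -⟩, a2⟩ := u2 R (-r) (by omega)
  have a3 := (a2 0).1
  rw [neg_neg] at a1 a3
  rw [ED.cut_zero] at a3
  obtain ⟨fG, κ, e, EG⟩ := S.stepG.stepD D D L.pg R.pg a1
  obtain ⟨fP, a, b, EP⟩ := S.step.stepD D D' L.pf R.pf (by omega)
  obtain ⟨⟨b1, -⟩, b2⟩ := u1 L K (by omega)
  obtain ⟨⟨-, b3⟩, b4⟩ := u2 R (K + 1) (by omega)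
  have b5 := (b2 0).1
  have b6 := (b4 0).2
  rw [ED.cut_zero] at b5 b6
  obtain ⟨n1, h1⟩ := EG.up S.stepG D D L.pg R.pg (K := K) (K' := K) (Ks := K3 + K4) (by omega)
    (by omega) (fun h h' e => s3 h h' fun i i1 i2 => e i (by omega) (by omega))
    fun h h' e => s4 h h' fun i i1 i2 => e i (by omega) (by omega)
  obtain ⟨n2, h2⟩ := EP.up S.step D D' L.pf R.pf (K := K) (K' := K') (Ks := K1 + K2) (by omega)
    (by omega) (fun h h' e => s1 h h' fun i i1 i2 => e i (by omega) (by omega))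
    fun h h' e => s2 h h' fun i i1 i2 => e i (by omega) (by omega)
  obtain ⟨n3, h3⟩ := s6 K
  obtain ⟨n4, h4⟩ := s5 K
  exact ⟨π, q, r, κ, e, a, b, D, D', ⟨fG, EG⟩, ⟨fP, EP⟩, by omega, by omega, b1, by omega, by omega,
    by omega, ⟨n1, fun l z => h1 l o z⟩, ⟨n2, fun l z => h2 l o z⟩,
    ⟨n3, fun hy h g hl => h3 L.eu L.eu R.eu R.eu L.pg R.pg hy h (g.mono (by omega)) hl⟩,
    ⟨n4, fun hy h g hl => h4 L.eu L.ev R.eu R.ev L.pf R.pf hy h (g.mono (by omega)) hl⟩⟩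

/-- a run with `m` periods occurs at time `j` -/
def FS.OcM (S : FS G y0 o P Lc ϖ) (L : S.E 1) (R : S.E (-1)) (K q : ℕ) (r : ℤ) (j m : ℕ) : Prop :=
  ∃ s, Glue ϖ K (pad o (it G j y0)) s (s + (1 - r + m * q)) L.u R.u

/-- the longest run at time `j` has `m` periods -/
def FS.Mx (S : FS G y0 o P Lc ϖ) (L : S.E 1) (R : S.E (-1)) (K q : ℕ) (r : ℤ) (j m : ℕ) : Prop :=
  S.OcM L R K q r j m ∧ ∀ m', m < m' → ¬ S.OcM L R K q r j m'

namespace Side

variable {S : FS G y0 o P Lc ϖ} {L : S.E 1} {R : S.E (-1)} {π' : ℤ → Z} {q' : ℕ} {r' : ℤ}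
  {K K' : ℕ} {π : ℤ → A} {q : ℕ} {r : ℤ} {κ e a b : ℕ}

theorem k_pos (h : Side S L R π' q' r' K K' π q r κ e a b) : 1 ≤ κ ∧ 1 ≤ a :=
  ⟨h.EG.elim fun _ E => E.k1, h.EP.elim fun _ E => E.k1⟩

theorem oc_succ (h : Side S L R π' q' r' K K' π q r κ e a b) {j m : ℕ}
    (ho : S.OcM L R K q r j m) : S.OcM L R K q r (j + 1) (κ * m + e) := by
  obtain ⟨s, g⟩ := ho
  obtain ⟨f, E⟩ := h.EG
  obtain ⟨F, hF, -⟩ := parse_pad_pad S.norm.ne S.sys.mark (it G j y0)
  obtain ⟨g1, g2⟩ := S.stepG.desc L.eu L.eu R.eu R.eu L.pg R.pg h.k1 h.k1 h.g1 h.g2 hF g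
  rw [add_sub_cancel_left, E.aff m (h.D.adm_nat m).1] at g2
  refine ⟨F s - L.g 0, ?_⟩
  rw [it_succ']
  convert g1 using 1
  push_cast
  omega

theorem oc_ge (h : Side S L R π' q' r' K K' π q r κ e a b) {j m : ℕ}
    (ho : S.OcM L R K q r j m) (i : ℕ) : ∃ m', m ≤ m' ∧ S.OcM L R K q r (j + i) m' := by
  induction i with
  | zero => exact ⟨m, le_rfl, ho⟩
  | succ i ih =>
    obtain ⟨m', h1, h2⟩ := ih
    exact ⟨_, by have := h.k_pos.1; nlinarith, h.oc_succ h2⟩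

theorem oc_bdd (h : Side S L R π' q' r' K K' π q r κ e a b) {j m : ℕ}
    (ho : S.OcM L R K q r j m) : m ≤ (it G j y0).length + ϖ := by
  obtain ⟨s, g⟩ := ho
  have a1 : -ϖ ≤ s := by
    by_contra hc
    exact g.brL L.eu (by rw [pad_out (by omega), pad_out (by omega)])
  have a2 : s + (1 - r + m * q) < (it G j y0).length := by
    by_contra hc
    exact g.brR h.k1 R.eu (by rw [pad_out (by omega), pad_out (by omega)])
  have := h.D.r0
  have : ((m : ℕ) : ℤ) ≤ m * q := by exact_mod_cast Nat.le_mul_of_pos_right m h.D.q1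
  omega

theorem exists_mx (h : Side S L R π' q' r' K K' π q r κ e a b) {j m : ℕ}
    (ho : S.OcM L R K q r j m) : ∃ m', m ≤ m' ∧ S.Mx L R K q r j m' := by
  classical
  refine ⟨Nat.findGreatest (S.OcM L R K q r j) ((it G j y0).length + ϖ),
    Nat.le_findGreatest (h.oc_bdd ho) ho, Nat.findGreatest_spec (h.oc_bdd ho) ho,
    fun m' h1 h2 => Nat.findGreatest_is_greatest h1 (h.oc_bdd h2) h2⟩

theorem mx_succ (h : Side S L R π' q' r' K K' π q r κ e a b) : ∃ n, ∀ j m, n ≤ j → n ≤ m →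
    S.Mx L R K q r j m → S.Mx L R K q r (j + 1) (κ * m + e) := by
  obtain ⟨n, hn⟩ := h.ascG
  refine ⟨2 * n, fun j m hj hm hx => ⟨h.oc_succ hx.1, fun m' h1 ⟨s, g⟩ => ?_⟩⟩
  obtain ⟨f, E⟩ := h.EG
  obtain ⟨F, hF, -⟩ := parse_pad_pad S.norm.ne S.sys.mark (it G j y0)
  rw [it_succ'] at g
  have k1 := E.k1
  have q1 := h.D.q1
  have r0 := h.D.r0
  have a1 : m ≤ κ * m := Nat.le_mul_of_pos_left m k1
  have a2 : ((m' : ℕ) : ℤ) ≤ m' * q := by exact_mod_cast Nat.le_mul_of_pos_right m' q1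
  obtain ⟨s1, t1, g1, e1, e2⟩ := hn (S.sys.pad_V hj) hF g (by omega)
  obtain ⟨-, g2⟩ := S.stepG.desc L.eu L.eu R.eu R.eu L.pg R.pg h.k1 h.k1 h.g1 h.g2 hF g1
  have ad := g1.adm h.k1
  obtain ⟨m1, hm1⟩ := h.D.of_adm ad
  rw [hm1, E.aff m1 (hm1 ▸ ad.1)] at g2
  have a3 : (m' : ℤ) = κ * m1 + e :=
    mul_right_cancel₀ (show (q : ℤ) ≠ 0 by omega) (by omega)
  have a4 : (m : ℤ) < m1 := by
    by_contra hc
    have : ((κ * m + e : ℕ) : ℤ) < m' := by exact_mod_cast h1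
    push_cast at this
    nlinarith
  lift m1 to ℕ using by omega
  exact hx.2 m1 (by omega) ⟨s1, by rwa [← hm1, add_sub_cancel]⟩

theorem w_infix (h : Side S L R π' q' r' K K' π q r κ e a b) {j m : ℕ} (hj : K + ϖ ≤ j)
    (ho : S.OcM L R K q r j m) : (pat L.u R.u q r K).W m <:+: it G j y0 := by
  obtain ⟨s, g⟩ := ho
  obtain ⟨p1, p2⟩ := S.sys.rep_pre (a := j + 1) (m := j) le_rfl
  have a1 : (j : ℤ) + 1 ≤ s + ϖ := by
    by_contra hc
    exact g.brL L.eu (by rw [pad_pre p1 _ (by omega), pad_pre p1 _ (by omega)])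
  have a2 : s + (1 - r + m * q) + (j + 1) < (it G j y0).length := by
    by_contra hc
    exact g.brR h.k1 R.eu (by rw [pad_suf p2 _ (by omega), pad_suf p2 _ (by omega)])
  have := h.D.W_length K m
  rw [← h.D.W_of_glue g]
  exact seg_pad_infix (by omega) (by omega)

theorem low_G (h : Side S L R π' q' r' K K' π q r κ e a b) :
    Low G (pat L.u R.u q r K) (pat L.u R.u q r K) κ e :=
  h.EG.elim fun _ E => E.low h.D h.D L.pg R.pg h.g1 h.g2

theorem low_P (h : Side S L R π' q' r' K K' π q r κ e a b) :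
    Low P (pat L.u R.u q r K) (pat L.v R.v q' r' K') a b :=
  h.EP.elim fun _ E => E.low h.D h.D' L.pf R.pf h.f1 h.f2

theorem unb_of_oc (h : Side S L R π' q' r' K K' π q r κ e a b) (ho : ∀ n, S.Oc L R K n) (n : ℕ) :
    ∀ᶠ j in atTop, ∃ m, n ≤ m ∧ S.OcM L R K q r j m := by
  obtain ⟨j, s, t, g, hl⟩ := ho ((1 - r).toNat + n * q)
  obtain ⟨m, hm⟩ := h.D.of_adm (g.adm h.k1)
  have q1 := h.D.q1
  have a1 : (n : ℤ) ≤ m := by
    have : ((n * q : ℕ) : ℤ) = n * q := by push_cast; ring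
    exact le_of_mul_le_mul_right (show (n : ℤ) * q ≤ m * q by omega) (by omega)
  lift m to ℕ using by omega
  filter_upwards [eventually_ge_atTop j] with i hi
  obtain ⟨i, rfl⟩ := Nat.exists_eq_add_of_le hi
  obtain ⟨m', h1, h2⟩ := h.oc_ge (j := j) (m := m) ⟨s, by rwa [← hm, add_sub_cancel]⟩ i
  exact ⟨m', by omega, h2⟩

theorem unb_down (h : Side S L R π' q' r' K K' π q r κ e a b)
    (ho : ∀ n, ∀ᶠ j in atTop, ∃ m, n ≤ m ∧ S.OcM L R K q r j m) (n : ℕ) :
    ∀ᶠ j in atTop, ∃ m, n ≤ m ∧ (pat L.v R.v q' r' K').W m <:+: app P (it G j y0) := by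
  filter_upwards [ho n, eventually_ge_atTop (K + ϖ)] with j ⟨m, h1, h2⟩ hj
  exact ⟨a * m + b, by have := h.k_pos.2; nlinarith,
    (C3.low_sound h.low_P m).trans (app_infix (h.w_infix hj h2))⟩

theorem unb_up (h : Side S L R π' q' r' K K' π q r κ e a b)
    (ho : ∀ n, ∃ᶠ j in atTop, ∃ m, n ≤ m ∧ (pat L.v R.v q' r' K').W m <:+: app P (it G j y0))
    (n : ℕ) : S.Oc L R K n := by
  obtain ⟨n1, hn⟩ := h.ascP
  obtain ⟨c, c1, hc⟩ := S.lam0_le
  obtain ⟨j, ⟨m, h1, h2⟩, hj⟩ :=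
    ((ho (n1 + c * (n + 1))).and_eventually (eventually_ge_atTop (2 * n1))).exists
  obtain ⟨x, F, hF, -, -, e1⟩ := parse_pad S.step.ne o (it G j y0)
  rw [← e1] at h2
  obtain ⟨i, -, -, h3⟩ := infix_seg h2
  have g := h.D'.glue_of_W h.k2 h3
  have r0 := h.D'.r0
  have a2 : ((m : ℕ) : ℤ) ≤ m * q' := by exact_mod_cast Nat.le_mul_of_pos_right m h.D'.q1
  obtain ⟨s, t, g1, e2, e3⟩ := hn (S.sys.pad_V hj) hF g (by omega)
  obtain ⟨-, g2⟩ := S.step.desc L.eu L.ev R.eu R.ev L.pf R.pf h.k1 h.k2 h.f1 h.f2 hF g1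
  have l := g1.lt
  have a3 := hc L R (t - s) (by omega)
  simp only [FS.Lam, ED.cut_zero] at a3
  have a4 : (c : ℤ) * (n + 1) ≤ c * (t - s + 1) := by
    have : ((c * (n + 1) : ℕ) : ℤ) = c * (n + 1) := by push_cast; ring
    omega
  have := le_of_mul_le_mul_left a4 (by omega)
  exact ⟨j, s, t, g1, by omega⟩

theorem lam_eq (h : Side S L R π' q' r' K K' π q r κ e a b) (j : ℕ) {m : ℤ}
    (hm : 1 ≤ 1 - r + m * q) : FS.Lam L R j (1 - r + m * q) =
      1 - r' + (fun n : ℤ => κ * n + (a * e + b - κ * b))^[j] (a * m + b) * q' := by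
  obtain ⟨f, E⟩ := h.EG
  obtain ⟨f', E'⟩ := h.EP
  induction j generalizing m with
  | zero => exact E'.aff m hm
  | succ j ih =>
    have a1 : FS.phi L R (1 - r + m * q) = 1 - r + (κ * m + e) * q := E.aff m hm
    have a2 := (FS.adm_phi (h.D.adm hm)).1.1
    rw [FS.lam_succ j (h.D.adm hm), a1, ih (a1 ▸ a2), Function.iterate_succ_apply]
    congr 3; ring

end Side

end Pool.Agent.P.MP_1e185c_lc

/-! The main statement on pairs of normalized systems. -/

set_option autoImplicit false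
set_option linter.unusedSectionVars false

namespace Pool.Agent.P.MP_1e185c_lc

open Filter

variable {A B Z : Type} [Fintype A] [Fintype B] {G : A → List A} {y0 : List A} {o : A}
  {P : A → List Z} {G' : B → List B} {y0' : List B} {o' : B} {P' : B → List Z} {Lc : Lang Z}
  {ϖ : ℕ} {S : FS G y0 o P Lc ϖ} {T : FS G' y0' o' P' Lc ϖ} {L : S.E 1} {R : S.E (-1)}
  {L' : T.E 1} {R' : T.E (-1)} {π0 : ℤ → Z} {q0 : ℕ} {r0 : ℤ} {K K' : ℕ} {π : ℤ → A} {q : ℕ}
  {r : ℤ} {κ e a b : ℕ} {π' : ℤ → B} {q' : ℕ} {r' : ℤ} {κ' e' a' b' : ℕ}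

theorem C0.symm {s t : ℕ → List Z} (h : C0 s t) : C0 t s :=
  fun R hR => (h R hR).mono fun _ => Iff.symm

theorem Side.transfer (h : Side S L R π0 q0 r0 K K' π q r κ e a b)
    (h' : Side T L' R' π0 q0 r0 K K' π' q' r' κ' e' a' b') (e1 : L.v = L'.v) (e2 : R.v = R'.v)
    (c0 : C0 (fun j => app P (it G j y0)) (fun j => app P' (it G' j y0')))
    (ho : ∀ n, S.Oc L R K n) (n : ℕ) : T.Oc L' R' K n := by
  refine h'.unb_up (fun n => ?_) n
  rw [← e1, ← e2]
  exact ((c0 _ (FQ.pat (pat L.v R.v q0 r0 K') n)).and_eventually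
    (h.unb_down (h.unb_of_oc ho) n)).mono fun j hj => hj.1.1 hj.2

theorem Side.c3_step (h : Side S L R π0 q0 r0 K K' π q r κ e a b)
    (h' : Side T L' R' π0 q0 r0 K K' π' q' r' κ' e' a' b') (e1 : L.v = L'.v) (e2 : R.v = R'.v)
    (c3 : C3 G P y0 G' P' y0' o') : ∃ n, ∀ j m m', n ≤ j → n ≤ m' → S.OcM L R K q r j m →
      T.Mx L' R' K q' r' j m' → ¬ (κ' ≤ κ ∧ a' * m' + b' < a * m + b ∧
        (a * m + b) + (a' * (κ' * m' + e') + b') ≤ (a * (κ * m + e) + b) + (a' * m' + b')) := by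
  obtain ⟨n1, h1⟩ := h'.upG
  obtain ⟨n2, h2⟩ := h'.upP
  refine ⟨2 * n1 + 2 * n2 + K + ϖ, fun j m m' hj hm o1 o2 => ?_⟩
  have a1 : m' ≤ a' * m' := Nat.le_mul_of_pos_left m' h'.k_pos.2
  refine c3 j _ _ _ κ e a b κ' e' a' b' m m' h.low_G h.low_P (h.w_infix (by omega) o1)
    (h1 _ _ (by omega) fun i => by rw [← it_add]; exact T.sys.pad_V (by omega))
    (by
      rw [e1, e2]
      exact h2 _ _ (by omega) fun i => by rw [← it_add]; exact T.sys.pad_V (by omega))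
    (h'.D.nonmark h'.k1 o').1 (h'.D.nonmark h'.k1 o').2 fun l hl i hi =>
      o2.2 l hl ⟨_, h'.D.glue_of_W h'.k1 hi⟩

theorem Side.mx_seq (h : Side S L R π0 q0 r0 K K' π q r κ e a b) : ∃ n, ∀ J m, n ≤ J → n ≤ m →
    S.Mx L R K q r J m → ∃ u : ℕ → ℕ, ∀ j, m ≤ u j ∧ S.Mx L R K q r (J + j) (u j) ∧
      u (j + 1) = κ * u j + e := by
  obtain ⟨n, hn⟩ := h.mx_succ
  refine ⟨n, fun J m hJ hm hx => ⟨fun j => (fun m => κ * m + e)^[j] m, fun j => ?_⟩⟩
  have : m ≤ (fun m => κ * m + e)^[j] m ∧ S.Mx L R K q r (J + j) ((fun m => κ * m + e)^[j] m) := by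
    induction j with
    | zero => exact ⟨le_rfl, hx⟩
    | succ j ih =>
      rw [Function.iterate_succ_apply']
      have := Nat.le_mul_of_pos_left ((fun m => κ * m + e)^[j] m) h.k_pos.1
      exact ⟨by omega, hn (J + j) _ (by omega) (by omega) ih.2⟩
  exact ⟨this.1, this.2, Function.iterate_succ_apply' _ _ _⟩

theorem Side.same_law (h : Side S L R π0 q0 r0 K K' π q r κ e a b)
    (h' : Side T L' R' π0 q0 r0 K K' π' q' r' κ' e' a' b') (e1 : L.v = L'.v) (e2 : R.v = R'.v)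
    (c3 : C3 G P y0 G' P' y0' o') (c3' : C3 G' P' y0' G P y0 o) (ho : ∀ n, S.Oc L R K n)
    (ho' : ∀ n, T.Oc L' R' K n) :
    (κ : ℤ) = κ' ∧ (a * e + b - κ * b : ℤ) = a' * e' + b' - κ' * b' := by
  obtain ⟨n1, h1⟩ := h.c3_step h' e1 e2 c3
  obtain ⟨n2, h2⟩ := h'.c3_step h e1.symm e2.symm c3'
  obtain ⟨n3, h3⟩ := h.mx_seq
  obtain ⟨n4, h4⟩ := h'.mx_seq
  obtain ⟨J, ⟨⟨m, m1, m2⟩, m', m3, m4⟩, hJ⟩ := (((h.unb_of_oc ho (n1 + n2 + n3 + n4 + 1)).and
    (h'.unb_of_oc ho' (n1 + n2 + n3 + n4 + 1))).and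
    (eventually_ge_atTop (n1 + n2 + n3 + n4))).exists
  obtain ⟨M, m5, m6⟩ := h.exists_mx m2
  obtain ⟨M', m7, m8⟩ := h'.exists_mx m4
  obtain ⟨u, hu⟩ := h3 J M (by omega) (by omega) m6
  obtain ⟨v, hv⟩ := h4 J M' (by omega) (by omega) m8
  obtain ⟨k1, k2⟩ := h.k_pos
  obtain ⟨k3, k4⟩ := h'.k_pos
  have mono : ∀ {κ e a b m : ℕ}, 1 ≤ κ → 1 ≤ a → 1 ≤ m → a * m + b ≤ a * (κ * m + e) + b ∧
      (2 ≤ κ → a * m + b < a * (κ * m + e) + b) := fun {κ e a b m} k1 k2 k3 =>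
    ⟨by
      have : m ≤ κ * m + e := by nlinarith
      nlinarith, fun k4 => by
      have : m < κ * m + e := by nlinarith
      nlinarith⟩
  have u0 := mono (e := e) (b := b) k1 k2 (show 1 ≤ u 0 by have := (hu 0).1; omega)
  have v0 := mono (e := e') (b := b') k3 k4 (show 1 ≤ v 0 by have := (hv 0).1; omega)
  rw [← (hu 0).2.2] at u0
  rw [← (hv 0).2.2] at v0
  refine arith (u := fun j => (a * u j + b : ℕ)) (v := fun j => (a' * v j + b' : ℕ))
    (fun j => by rw [(hu j).2.2]; push_cast; ring) (fun j => by rw [(hv j).2.2]; push_cast; ring)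
    (by omega) (by omega) (by exact_mod_cast u0.1) (by exact_mod_cast v0.1)
    (fun k => by exact_mod_cast u0.2 (by omega)) (fun k => by exact_mod_cast v0.2 (by omega))
    (fun j => ?_) fun j => ?_
  · have := h1 (J + j) (u j) (v j) (by omega) (by have := (hv j).1; omega) (hu j).2.1.1 (hv j).2.1
    rw [← (hu j).2.2, ← (hv j).2.2] at this
    exact_mod_cast this
  · have := h2 (J + j) (v j) (u j) (by omega) (by have := (hu j).1; omega) (hv j).2.1.1 (hu j).2.1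
    rw [← (hu j).2.2, ← (hv j).2.2] at this
    exact_mod_cast this

theorem FS.oc_unif (S : FS G y0 o P Lc ϖ) (K : ℕ) : ∃ n0, ∀ (L : S.E 1) (R : S.E (-1)),
    S.Oc L R K n0 → ∀ n, S.Oc L R K n := by
  have := S.finE (d := 1) (Or.inl rfl)
  have := S.finE (d := -1) (Or.inr rfl)
  obtain ⟨n, hn⟩ := exists_unif (ι := S.E 1 × S.E (-1))
    (fun E n => S.Oc E.1 E.2 K n → ∀ n, S.Oc E.1 E.2 K n)
    (fun E m n hmn h ⟨j, s, t, g, hl⟩ => h ⟨j, s, t, g, by omega⟩) fun E => by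
      by_cases h : ∀ n, S.Oc E.1 E.2 K n
      · exact ⟨0, fun _ => h⟩
      · push Not at h
        obtain ⟨n, hn⟩ := h
        exact ⟨n, fun h => (hn h).elim⟩
  exact ⟨n, fun L R => hn (L, R)⟩

theorem c3l (S : FS G y0 o P Lc ϖ) (T : FS G' y0' o' P' Lc ϖ)
    (c0 : C0 (fun j => app P (it G j y0)) (fun j => app P' (it G' j y0')))
    (c3 : C3 G P y0 G' P' y0' o') (c3' : C3 G' P' y0' G P y0 o) : C3L S T := by
  obtain ⟨K1, h1⟩ := S.exists_side
  obtain ⟨K2, h2⟩ := T.exists_side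
  obtain ⟨K3, h3⟩ := h1 (K1 + K2) (by omega)
  obtain ⟨K4, h4⟩ := h2 (K1 + K2) (by omega)
  obtain ⟨n1, o1⟩ := S.oc_unif (K3 + K4)
  obtain ⟨n2, o2⟩ := T.oc_unif (K3 + K4)
  refine ⟨K3 + K4, n1 + n2, fun L R L' R' e1 e2 ho l l' j ad ad' => ?_⟩
  obtain ⟨π0, q0, r0, D, d1, -⟩ := exists_run_data S.pos L.ev R.ev (FS.adm_lam 0 ad).1 0
  obtain ⟨π, q, r, κ, e, a, b, h⟩ := h3 (K3 + K4) (by omega) L R π0 q0 r0 l D (by omega) ad
  obtain ⟨π', q', r', κ', e', a', b', h'⟩ := h4 (K3 + K4) (by omega) L' R' π0 q0 r0 l'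
    (e1 ▸ e2 ▸ D) (by omega) ad'
  obtain ⟨u1, u2⟩ : (∀ n, S.Oc L R (K3 + K4) n) ∧ ∀ n, T.Oc L' R' (K3 + K4) n := by
    rcases ho with ⟨j, s, t, g, hl⟩ | ⟨j, s, t, g, hl⟩
    · have := o1 L R ⟨j, s, t, g, by omega⟩
      exact ⟨this, h.transfer h' e1 e2 c0 this⟩
    · have := o2 L' R' ⟨j, s, t, g, by omega⟩
      exact ⟨h'.transfer h e1.symm e2.symm c0.symm this, this⟩
  obtain ⟨k1, k2⟩ := h.same_law h' e1 e2 c3 c3' u1 u2
  obtain ⟨m, rfl⟩ := h.D.of_adm ad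
  obtain ⟨m', rfl⟩ := h'.D.of_adm ad'
  have q1 := D.q1
  have k3 := h'.k_pos.1
  rw [h.lam_eq j ad.1, h.lam_eq 0 ad.1, h'.lam_eq j ad'.1, h'.lam_eq 0 ad'.1, k2, k1,
    add_right_inj, add_right_inj, mul_left_inj' (by omega), mul_left_inj' (by omega)]
  exact (Function.Injective.iterate (fun x y hxy =>
    mul_left_cancel₀ (show (κ' : ℤ) ≠ 0 by omega) (add_right_cancel hxy)) j).eq_iff

theorem pairMain (matchM : MatchM) : PairMain := by
  intro A B _ _ G y0 o P H z0 o' R Lc ϖ S T k1 k2 hg c0 c2 c2' c3 c3' c4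
  exact (c3l S T c0 c3 c3').main (matchM A B ℕ G y0 o P H z0 o' R Lc ϖ S.toHS T.toHS c2 c2')
    (matchM B A ℕ H z0 o' R G y0 o P Lc ϖ T.toHS S.toHS c2' c2) k1 k2 hg c4

end Pool.Agent.P.MP_1e185c_lc
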