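import Pool.Agent.P.MP_1e185c_lc.MatchAux2

/-! An aperiodic letter of exponential growth is matched by a letter of the other system. -/

set_option autoImplicit false
set_option linter.unusedSectionVars false

namespace Pool.Agent.P.MP_1e185c_lc

open Filter FM

theorem matchM : MatchM := by
  intro A B Z _ _ G y0 o P H z0 o' R Lc ϖ S T hC hC' a ha hexp hbrk
  obtain ⟨k0, hbrk⟩ : ∃ k, Brk ϖ (sig P G k a) := hbrk
  have hs := S.norm.self
  have hs' := T.norm.self
  obtain ⟨b, ⟨hb, hab, p0, h2⟩, hmax⟩ := Set.exists_max_image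
    {c | [c] ∈ S.sys.lang.L ∧ a ∈ G c ∧ ∃ p, 2 ≤ nn G c p} (rk G) (Set.toFinite _)
    ⟨a, ha, hs a, hexp⟩
  obtain ⟨j1, hj1⟩ := brk_up S hb h2 hab hbrk
  obtain ⟨J, hJ⟩ := marker S hb h2 hj1
  have hM := cnt_le_mark S.step.ne hJ
  have hne : sig P G J b ≠ [] := S.neK J b
  obtain ⟨b', hb', m1, m2⟩ := match1 hs T.sys hC hb h2
  obtain ⟨b'', hb'', m3, m4⟩ := match1 hs' S.sys hC' hb' (h2.trans (m2 p0))
  obtain ⟨j0, hj0⟩ := m1 J
  have hbb : b ∈ G b'' := by
    obtain ⟨l, hl⟩ := m3 j0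
    have h3 := C1.cnt_pos hne (hj0.trans hl)
    have h4 := hM (pw G l b'')
    have h5 : 0 < cp (fun c => c = b) (pw G l b'') := by
      by_contra h6
      rw [show cp (fun c => c = b) (pw G l b'') = 0 by omega, zero_mul] at h4
      unfold sig at h3 h4
      omega
    obtain ⟨c, c1, rfl⟩ := cp_pos.1 h5
    exact S.norm.mem_pw c1
  have hbb' : b'' ∈ G b := by
    by_contra h3
    have h4 := rk_lt S.norm hbb h3
    have h5 := hmax b'' ⟨hb'', S.norm.alph _ _ _ hbb hab, _, (h2.trans (m2 p0)).trans (m4 _)⟩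
    omega
  obtain ⟨r, hr⟩ := nn_big hs h2 (2 * (sig P G J b).length + 1)
  refine ⟨j0 + 4 + r, b', fun k => ?_⟩
  obtain ⟨l, hl⟩ := m3 (k + (j0 + 4 + r))
  have h3 : sig R H (k + (j0 + 4 + r)) b' <:+: app (sig P G (k + 1)) (pw G (l + 1) b) := by
    have := (hl.trans (sig_sub P l hbb')).trans (sig_le hs P b (l := k + 1 + (l + 1)) (by omega))
    rwa [sig_add P G (k + 1)] at this
  rcases cover3 (S.neK (k + 1)) (fun d => b ∈ G d) h3 with ⟨d, d1, d2⟩ | ⟨V, v1, v2, v3⟩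
  · exact (sig_sub P k (S.norm.alph _ _ _ d1 hab)).trans d2
  exfalso
  have h4 := C1.cnt_mono (sig P G J b) v2
  rw [app_sig, ← app_pw] at h4
  have h5 := hM (app (pw G (k + 1)) V)
  have h6 := cp_app_le (g := fun d => b ∈ G d) (g' := fun c => c = b) (σ := pw G (k + 1))
    (r := nn G b (k + 2)) (w := V)
    (fun c hc _ => cp_infix (pw_sub (k + 1) (S.norm.mem_pw (v1.subset hc))))
    (fun c _ hc => cp_eq_zero.2 fun e he hd => hc (hd ▸ S.norm.mem_pw he))
  have h7 := le_cnt_app (sig P G J b) (sig R H j0) (fun c => c = b') (pw H (k + 2 + r + 2) b')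
    (fun c hc => by rw [hc]; exact C1.cnt_pos hne hj0)
  have e : sig R H (k + (j0 + 4 + r)) b' = app (sig R H j0) (pw H (k + 2 + r + 2) b') := by
    rw [show k + (j0 + 4 + r) = j0 + (k + 2 + r + 2) by omega, sig_add]
  rw [e] at h4
  have h8 : nn G b (k + 2 + r) ≤ cp (fun c => c = b') (pw H (k + 2 + r + 2) b') := m2 _
  have h9 := nn_add G b (k + 2) r
  have h10 := nn_pos hs b (k + 2)
  have h11 : nn G b (k + 2) * cp (fun d => b ∈ G d) V ≤ nn G b (k + 2) * 2 :=
    Nat.mul_le_mul_left _ v3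
  have h12 := Nat.mul_le_mul_right (sig P G J b).length (h6.trans h11)
  have h13 := Nat.mul_le_mul_left (nn G b (k + 2)) hr
  nlinarith

end Pool.Agent.P.MP_1e185c_lc
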