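import Pool.Agent.P.MP_1e185c_lc.Defs2
import Pool.Agent.P.MP_1e185c_lc.Cert1Aux

/-! Matching of letters of exponential growth by counting occurrences. -/

set_option autoImplicit false
set_option linter.unusedSectionVars false

namespace Pool.Agent.P.MP_1e185c_lc.FM

open Filter

variable {A B Z : Type}

/-- number of occurrences of `b` in its own `p`-th image -/
noncomputable def nn (G : A → List A) (b : A) (p : ℕ) : ℕ := cp (fun c => c = b) (pw G p b)

theorem nn_add (G : A → List A) (b : A) (p q : ℕ) : nn G b p * nn G b q ≤ nn G b (p + q) := by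
  unfold nn
  rw [pw_add]
  exact cp_app_ge (g := fun c => c = b) (fun c _ hc => by rw [hc])

theorem nn_pos {G : A → List A} (hs : ∀ a, a ∈ G a) (b : A) (p : ℕ) : 1 ≤ nn G b p :=
  cp_pos.2 ⟨b, self_pw hs p b, rfl⟩

theorem nn_mono {G : A → List A} (hs : ∀ a, a ∈ G a) (b : A) {p q : ℕ} (h : p ≤ q) :
    nn G b p ≤ nn G b q := by
  obtain ⟨r, rfl⟩ := Nat.exists_eq_add_of_le h
  have h1 := nn_add G b p r
  have h2 := nn_pos hs b r
  nlinarith

theorem nn_big {G : A → List A} (hs : ∀ a, a ∈ G a) {b : A} {p0 : ℕ} (h : 2 ≤ nn G b p0)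
    (K : ℕ) : ∃ r, K ≤ nn G b r := by
  induction K with
  | zero => exact ⟨0, Nat.zero_le _⟩
  | succ K ih =>
    obtain ⟨r, hr⟩ := ih
    refine ⟨r + p0, ?_⟩
    have h1 := nn_add G b r p0
    have h2 := nn_pos hs b r
    nlinarith

theorem nn_zero (G : A → List A) (b : A) : nn G b 0 ≤ 1 := by
  have := cp_le (fun c => c = b) (pw G 0 b)
  simpa [pw_zero, nn] using this

theorem app_mem_infix (σ : A → List Z) {w : List A} {b : A} (h : b ∈ w) : σ b <:+: app σ w := by
  have := app_infix (g := σ) ((List.singleton_infix_iff _ _).2 h)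
  rwa [app_singleton] at this

theorem pw_sub {G : A → List A} {a b : A} (k : ℕ) (h : b ∈ G a) :
    pw G k b <:+: pw G (k + 1) a := by
  rw [pw_succ]; exact app_mem_infix _ h

theorem sig_le {G : A → List A} (hs : ∀ a, a ∈ G a) (P : A → List Z) (b : A) {k l : ℕ}
    (h : k ≤ l) : sig P G k b <:+: sig P G l b := by
  obtain ⟨r, rfl⟩ := Nat.exists_eq_add_of_le h
  rw [sig_add]
  exact app_mem_infix _ (self_pw hs r b)

theorem sig_sub {G : A → List A} (P : A → List Z) {a b : A} (k : ℕ) (h : b ∈ G a) :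
    sig P G k b <:+: sig P G (k + 1) a := by
  rw [sig_succ]; exact app_mem_infix _ h

theorem cnt_app_le (mu : List Z) (σ : B → List Z) (g : B → Prop) (K U V : ℕ) (w : List B)
    (h1 : ∀ c ∈ w, g c → K * cnt mu (σ c) ≤ U) (h2 : ∀ c ∈ w, ¬ g c → K * cnt mu (σ c) ≤ V) :
    K * cnt mu (app σ w) ≤ U * cp g w + (V + K * mu.length) * w.length := by
  induction w with
  | nil => simp [C1.cnt_nil]
  | cons a w ih =>
    have ih' := ih (fun c hc => h1 c (List.mem_cons_of_mem _ hc))
      (fun c hc => h2 c (List.mem_cons_of_mem _ hc))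
    have h3 := C1.cnt_sub mu (σ a) (app σ w)
    have h4 : min (σ a).length mu.length ≤ mu.length := min_le_right _ _
    have h5 : K * cnt mu (σ a ++ app σ w) ≤
        K * cnt mu (σ a) + K * cnt mu (app σ w) + K * mu.length := by
      rw [← mul_add, ← mul_add]; exact Nat.mul_le_mul_left _ (by omega)
    rw [app_cons, List.length_cons, mul_add _ w.length 1, mul_one]
    by_cases h : g a
    · have := h1 a List.mem_cons_self h
      rw [cp_cons_pos h, mul_add U, mul_one]; omega
    · have := h2 a List.mem_cons_self h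
      rw [cp_cons_neg h]; omega

theorem le_cnt_app (mu : List Z) (σ : B → List Z) (g : B → Prop) (w : List B)
    (h1 : ∀ c, g c → 1 ≤ cnt mu (σ c)) : cp g w ≤ cnt mu (app σ w) := by
  induction w with
  | nil => simp
  | cons a w ih =>
    have h3 := C1.cnt_super mu (σ a) (app σ w)
    rw [app_cons]
    by_cases h : g a
    · have := h1 a h
      rw [cp_cons_pos h]; omega
    · rw [cp_cons_neg h]; omega

/-- number of letters below a letter -/
noncomputable def rk (H : B → List B) (d : B) : ℕ := by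
  classical exact (H d).toFinset.card

variable [Fintype B]

theorem rk_le {H : B → List B} (hH : Norm H) {c d : B} (h : c ∈ H d) : rk H c ≤ rk H d := by
  classical
  unfold rk
  convert Finset.card_le_card (s := (H c).toFinset) (t := (H d).toFinset) (fun e he => by
    simpa using hH.alph d c e h (by simpa using he))

theorem rk_lt {H : B → List B} (hH : Norm H) {c d : B} (h : c ∈ H d) (h' : d ∉ H c) :
    rk H c < rk H d := by
  classical
  unfold rk
  convert Finset.card_lt_card (s := (H c).toFinset) (t := (H d).toFinset) ⟨fun e he => by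
    simpa using hH.alph d c e h (by simpa using he), fun hc => h' (by
      simpa using hc (show d ∈ (H d).toFinset by simpa using hH.self d))⟩

theorem rk_bound (H : B → List B) (d : B) : rk H d ≤ Fintype.card B := by
  classical
  unfold rk
  convert Finset.card_le_univ (H d).toFinset

/-- few letters of the class of `d` are produced in `p` steps -/
def Gd (H : B → List B) (n : ℕ → ℕ) (d : B) (p : ℕ) : Prop :=
  ∀ d1 ∈ H d, cp (fun d' => d ∈ H d') (pw H p d1) < n p

theorem Gd.add {H : B → List B} (hH : Norm H) {n : ℕ → ℕ} (hn : ∀ p q, n p * n q ≤ n (p + q))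
    {d : B} {p q : ℕ} (h1 : Gd H n d p) (h2 : Gd H n d q) : Gd H n d (p + q) := by
  intro d1 hd1
  rw [pw_add]
  have h3 := cp_app_le (g := fun d' => d ∈ H d') (g' := fun d' => d ∈ H d') (σ := pw H p)
    (r := n p - 1) (w := pw H q d1)
    (fun c hc _ => by have := h1 c (hH.alph d d1 c hd1 (hH.mem_pw hc)); omega)
    (fun c _ hc => cp_eq_zero.2 fun e he hd => hc (hH.alph c e d (hH.mem_pw he) hd))
  have h4 := h2 d1 hd1
  have h5 := h1 d (hH.self d)
  have h6 := hn p q
  obtain ⟨m, hm⟩ : ∃ m, n p = m + 1 := ⟨n p - 1, by omega⟩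
  rw [hm] at h3 h6
  simp only [Nat.add_sub_cancel] at h3
  nlinarith

theorem Gd.mul {H : B → List B} (hH : Norm H) {n : ℕ → ℕ} (hn : ∀ p q, n p * n q ≤ n (p + q))
    {d : B} {p : ℕ} (h : Gd H n d p) (k : ℕ) : Gd H n d ((k + 1) * p) := by
  induction k with
  | zero => simpa using h
  | succ k ih => rw [Nat.succ_mul]; exact ih.add hH hn h

theorem Gd.of_lt {H : B → List B} {n : ℕ → ℕ} {d : B} {p : ℕ} (h : nn H d (p + 2) < n p) :
    Gd H n d p := by
  intro d1 hd1
  refine lt_of_le_of_lt ?_ h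
  have h1 := cp_app_ge (g := fun d' => d ∈ H d') (g' := fun c => c = d) (σ := H) (r := 1)
    (w := pw H p d1) (fun c _ hc => cp_pos.2 ⟨d, hc, rfl⟩)
  rw [one_mul, ← pw_succ'] at h1
  exact h1.trans (cp_infix (pw_sub (p + 1) hd1))

theorem growth {H : B → List B} (hH : Norm H) (R : B → List Z) (mu : List Z) (L : B → Prop)
    (hL : ∀ d, L d → ∀ c ∈ H d, L c) {p m : ℕ}
    (hd : ∀ d, L d → (∀ l, ¬ mu <:+: sig R H l d) ∨ cp (fun d' => d ∈ H d') (pw H p d) < m + 2) :
    ∃ C, ∀ i d, L d → 2 ^ i * cnt mu (sig R H (i * p) d) ≤ C * (2 * m + 3) ^ i := by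
  have key : ∀ r, ∃ C, ∀ i d, L d → rk H d < r →
      2 ^ i * cnt mu (sig R H (i * p) d) ≤ C * (2 * m + 3) ^ i := by
    intro r
    induction r with
    | zero => exact ⟨0, fun i d _ h => absurd h (Nat.not_lt_zero _)⟩
    | succ r ih =>
      obtain ⟨C, hC⟩ := ih
      obtain ⟨b, -, hb⟩ := exists_bound (pw H p)
      obtain ⟨b0, -, hb0⟩ := exists_bound R
      refine ⟨b0 + 2 * b * (C + mu.length), fun i => ?_⟩
      induction i with
      | zero =>
        intro d _ _
        have h1 := C1.cnt_le_length mu (R d)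
        have h2 := hb0 d
        simp only [zero_mul, sig_zero, pow_zero, one_mul, mul_one]
        omega
      | succ i ihi =>
        intro d hLd hr
        rcases hd d hLd with h0 | h0
        · rw [C1.cnt_zero (h0 _)]; simp
        rw [Nat.succ_mul, sig_add]
        have h1 := cnt_app_le mu (sig R H (i * p)) (fun d' => d ∈ H d') (2 ^ i)
          ((b0 + 2 * b * (C + mu.length)) * (2 * m + 3) ^ i) (C * (2 * m + 3) ^ i) (pw H p d)
          (fun c hc _ => ihi c (hL d hLd c (hH.mem_pw hc))
            (lt_of_le_of_lt (rk_le hH (hH.mem_pw hc)) hr))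
          (fun c hc hc' => hC i c (hL d hLd c (hH.mem_pw hc))
            (by have := rk_lt hH (hH.mem_pw hc) hc'; omega))
        have h2 : 2 ^ i ≤ (2 * m + 3) ^ i := Nat.pow_le_pow_left (by omega) i
        have h3 := hb d
        simp only [pow_succ]
        generalize (2 * m + 3) ^ i = E at *
        generalize cnt mu (app (sig R H (i * p)) (pw H p d)) = X at *
        generalize cp (fun d' => d ∈ H d') (pw H p d) = u at *
        generalize (pw H p d).length = l at *
        generalize 2 ^ i = K at *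
        generalize mu.length = M at *
        have h4 : (b0 + 2 * b * (C + M)) * E * u ≤ (b0 + 2 * b * (C + M)) * E * (m + 1) :=
          Nat.mul_le_mul_left _ (by omega)
        have h5 : (C * E + K * M) * l ≤ (C * E + E * M) * b :=
          Nat.mul_le_mul (Nat.add_le_add_left (Nat.mul_le_mul_right _ h2) _) h3
        nlinarith [Nat.zero_le (b0 * E)]
  obtain ⟨C, hC⟩ := key (Fintype.card B + 1)
  exact ⟨C, fun i d h => hC i d h (Nat.lt_succ_of_le (rk_bound H d))⟩

theorem lang_below {H : B → List B} {z0 : List B} {o : B} (T : Sys H z0 o) {d c : B}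
    (hd : [d] ∈ T.lang.L) (hc : c ∈ H d) : [c] ∈ T.lang.L := by
  have := T.img_pw 1 hd
  rw [pw_one, app_singleton] at this
  exact T.lang.fac ((List.singleton_infix_iff _ _).2 hc) this

theorem lang_it {H : B → List B} {z0 : List B} {o : B} (T : Sys H z0 o) {c : B} {N : ℕ}
    (hc : c ∈ it H N z0) : [c] ∈ T.lang.L := by
  refine eventually_atTop.2 ⟨N, fun m hm => ?_⟩
  obtain ⟨k, rfl⟩ : ∃ k, m = k + N := ⟨m - N, by omega⟩
  rw [it_add, ← app_pw, List.singleton_infix_iff]
  exact mem_app.2 ⟨c, hc, self_pw T.norm.self k c⟩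

theorem match1 {G : A → List A} {P : A → List Z} {H : B → List B} {R : B → List Z} {z0 : List B}
    {o : B} (hs : ∀ a, a ∈ G a) (T : Sys H z0 o) {Λ : Lang A}
    (hC : C2 G P Λ (fun j => app R (it H j z0))) {b : A} (hb : [b] ∈ Λ.L) {p0 : ℕ}
    (h2 : 2 ≤ nn G b p0) :
    ∃ d, [d] ∈ T.lang.L ∧ (∀ k, ∃ l, sig P G k b <:+: sig R H l d) ∧
      ∀ p, nn G b p ≤ nn H d (p + 2) := by
  by_contra hc
  push Not at hc
  have h3 : ∀ d, ∃ q k : ℕ, 1 ≤ q ∧ ([d] ∈ T.lang.L →
      (∀ l, ¬ sig P G k b <:+: sig R H l d) ∨ Gd H (nn G b) d q) := by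
    intro d
    by_cases hd : [d] ∈ T.lang.L
    · by_cases h : ∀ k, ∃ l, sig P G k b <:+: sig R H l d
      · obtain ⟨q, hq⟩ := hc d hd h
        refine ⟨q, 0, ?_, fun _ => Or.inr (Gd.of_lt hq)⟩
        rcases Nat.eq_zero_or_pos q with rfl | h0
        · have h4 := nn_zero G b
          have h5 := nn_pos T.norm.self d (0 + 2)
          omega
        · exact h0
      · push Not at h
        obtain ⟨k, hk⟩ := h
        exact ⟨1, k, le_rfl, fun _ => Or.inl hk⟩
    · exact ⟨1, 0, le_rfl, fun h => absurd h hd⟩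
  choose q k hq hk using h3
  have hp0 : 1 ≤ p0 := by
    rcases Nat.eq_zero_or_pos p0 with rfl | h0
    · have := nn_zero G b; omega
    · exact h0
  have hQ : 1 ≤ ∏ d, q d := Finset.one_le_prod' fun d _ => hq d
  set p := p0 * ∏ d, q d with hp
  have hp1 : p0 ≤ p := Nat.le_mul_of_pos_right _ hQ
  obtain ⟨m, hm⟩ : ∃ m, nn G b p = m + 2 := ⟨nn G b p - 2, by have := nn_mono hs b hp1; omega⟩
  obtain ⟨j, hj⟩ := (Set.finite_range k).bddAbove
  obtain ⟨C, hC1⟩ := growth T.norm R (sig P G j b) (fun d => [d] ∈ T.lang.L)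
    (fun d hd c hc => lang_below T hd hc) (p := p) (m := m) (fun d hd => by
      rcases hk d hd with h | h
      · exact Or.inl fun l hl => h l ((sig_le hs P b (hj ⟨d, rfl⟩)).trans hl)
      · right
        obtain ⟨e, he⟩ : q d ∣ p :=
          Dvd.dvd.mul_left (Finset.dvd_prod_of_mem q (Finset.mem_univ d)) p0
        obtain ⟨e', rfl⟩ : ∃ e', e = e' + 1 := ⟨e - 1, by
          rcases Nat.eq_zero_or_pos e with rfl | h0
          · omega
          · omega⟩
        have := h.mul T.norm (nn_add G b) e' d (T.norm.self d)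
        rwa [mul_comm, ← he, hm] at this)
  obtain ⟨N, hN⟩ := hC b hb j p (by omega) (by show 2 ≤ nn G b p; omega)
  obtain ⟨i, hi⟩ := hN ((C + (sig P G j b).length) * (it H N z0).length)
  change _ * (2 * nn G b p - 1) ^ i < _ * cnt _ (app R (it H (N + i * p) z0)) at hi
  rw [hm, show 2 * (m + 2) - 1 = 2 * m + 3 by omega, add_comm N, it_add, ← app_sig] at hi
  have h4 := cnt_app_le (sig P G j b) (sig R H (i * p)) (fun _ => False) (2 ^ i) 0
    (C * (2 * m + 3) ^ i) (it H N z0) (fun c _ h => h.elim)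
    (fun c hc _ => hC1 i c (lang_it T hc))
  have h5 : 2 ^ i ≤ (2 * m + 3) ^ i := Nat.pow_le_pow_left (by omega) i
  have h6 : (C * (2 * m + 3) ^ i + 2 ^ i * (sig P G j b).length) * (it H N z0).length ≤
      (C * (2 * m + 3) ^ i + (2 * m + 3) ^ i * (sig P G j b).length) * (it H N z0).length :=
    Nat.mul_le_mul_right _ (Nat.add_le_add_left (Nat.mul_le_mul_right _ h5) _)
  nlinarith

end Pool.Agent.P.MP_1e185c_lc.FM
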