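import Pool.Agent.P.MP_1e185c_lc.MatchAux1

/-! The marker word of an aperiodic letter of exponential growth. -/

set_option autoImplicit false
set_option linter.unusedSectionVars false

namespace Pool.Agent.P.MP_1e185c_lc.FM

open Filter

variable {A B Z : Type}

/-- the word `w` does not have period `ϖ` -/
def Brk (ϖ : ℕ) (w : List A) : Prop := ∃ i, i + ϖ < w.length ∧ w[i + ϖ]? ≠ w[i]?

theorem seg_get {y : ℤ → A} {a : ℤ} {w : List A} (h : seg y a w.length = w) {i : ℕ}
    (hi : i < w.length) : w[i]? = some (y (a + i)) := by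
  have := seg_getElem? y a hi
  rwa [h] at this

theorem get_mid (s u t : List A) {i : ℕ} (hi : i < u.length) :
    (s ++ u ++ t)[s.length + i]? = u[i]? := by
  rw [List.getElem?_append_left (by simp; omega), List.getElem?_append_right (by omega)]
  congr 1; omega

theorem split_cp (b : A) (m : ℕ) (w : List A) : ∀ k, k + 1 + m ≤ cp (fun c => c = b) w →
    ∃ α β, w = α ++ b :: β ∧ k ≤ α.length ∧ m ≤ cp (fun c => c = b) β := by
  induction w with
  | nil => intro k h; simp at h
  | cons c w ih =>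
    intro k h
    by_cases hc : c = b
    · rw [cp_cons_pos (g := fun c => c = b) hc] at h
      rcases Nat.eq_zero_or_pos k with rfl | hk
      · exact ⟨[], w, by simp [hc], le_rfl, by omega⟩
      · obtain ⟨α, β, h1, h2, h3⟩ := ih (k - 1) (by omega)
        exact ⟨c :: α, β, by simp [h1], by simp; omega, h3⟩
    · rw [cp_cons_neg (g := fun c => c = b) hc] at h
      obtain ⟨α, β, h1, h2, h3⟩ := ih k h
      exact ⟨c :: α, β, by simp [h1], by simp; omega, h3⟩

theorem shape {G : A → List A} (hs : ∀ a, a ∈ G a) {b : A} {p0 : ℕ} (h2 : 2 ≤ nn G b p0)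
    {ϖ j1 : ℕ} (hj : Brk ϖ (pw G j1 b)) (ρ : ℕ) :
    ∃ J i0 i1 : ℕ, ρ ≤ i0 ∧ i0 ≤ i1 ∧ i1 + ρ < (pw G J b).length ∧ i0 + ϖ < (pw G J b).length ∧
      (pw G J b)[i0 + ϖ]? ≠ (pw G J b)[i0]? ∧ (pw G J b)[i1]? = some b := by
  obtain ⟨r, hr⟩ := nn_big hs h2 (ρ + 1 + (0 + 1 + ρ))
  obtain ⟨α, β, e1, a1, a2⟩ := split_cp b _ _ ρ hr
  obtain ⟨β1, γ, e2, -, a3⟩ := split_cp b _ _ 0 a2
  have a4 := cp_le (fun c => c = b) γ
  have a5 := ((self_ne hs).pw j1).le_app α
  have a6 := ((self_ne hs).pw j1).le_app γ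
  obtain ⟨i, i1, i2⟩ := hj
  obtain ⟨u1, u2, e3⟩ := List.append_of_mem (self_pw hs j1 b)
  have E1 : pw G (j1 + r) b = app (pw G j1) α ++ pw G j1 b ++
      (app (pw G j1) β1 ++ pw G j1 b ++ app (pw G j1) γ) := by
    rw [pw_add, e1, e2]; simp
  have E2 : pw G (j1 + r) b = (app (pw G j1) α ++ pw G j1 b ++ app (pw G j1) β1 ++ u1) ++ [b] ++
      (u2 ++ app (pw G j1) γ) := by
    rw [E1]
    conv_lhs => enter [2, 1, 2]; rw [e3]
    simp
  have L1 := congrArg List.length E1
  have L2 := congrArg List.length E2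
  simp only [List.length_append, List.length_singleton] at L1 L2
  refine ⟨j1 + r, (app (pw G j1) α).length + i,
    (app (pw G j1) α ++ pw G j1 b ++ app (pw G j1) β1 ++ u1).length + 0, by omega,
    by simp only [List.length_append]; omega, by simp only [List.length_append]; omega,
    by omega, ?_, ?_⟩
  · rw [E1, add_assoc, get_mid _ _ _ i1, get_mid _ _ _ (by omega)]
    exact i2
  · rw [E2, get_mid _ _ _ (by simp)]
    rfl

theorem cnt_single (b : A) (V : List A) : cnt [b] V = cp (fun c => c = b) V := by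
  induction V with
  | nil => simp [C1.cnt_nil]
  | cons a V ih =>
    rw [C1.cnt_cons, ih]
    by_cases h : a = b
    · rw [cp_cons_pos (g := fun c => c = b) h, if_pos (by simp [h])]; omega
    · rw [cp_cons_neg (g := fun c => c = b) h, if_neg (by simpa using Ne.symm h)]; omega

theorem seg_drop {x : ℤ → Z} {W mu : List Z} (h : seg x 0 W.length = W) {p : ℕ}
    (hp : p ≤ W.length) (hm : mu <+: W.drop p) :
    seg x p mu.length = mu ∧ p + mu.length ≤ W.length := by
  obtain ⟨t, ht⟩ := hm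
  have e : W = W.take p ++ mu ++ t := by rw [List.append_assoc, ht, List.take_append_drop]
  have l1 : (W.take p).length = p := by simp [hp]
  have l2 : W.length = p + mu.length + t.length := by
    conv_lhs => rw [e]
    simp only [List.length_append, l1]
  refine ⟨?_, by omega⟩
  rw [l2, seg_add, seg_add] at h
  have h2 := (List.append_inj (List.append_inj (h.trans e) (by simp [hp])).1 (by simp [hp])).2
  simpa using h2

theorem cnt_le_mark {P : A → List Z} (hP : NE P) {mu : List Z} {b : A}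
    (hm : ∀ (x : ℤ → Z) (y : ℤ → A) (f : ℤ → ℤ), Parse P x y f → ∀ p, seg x p mu.length = mu →
      ∃ i, y i = b ∧ p ≤ f i ∧ f i < p + mu.length) (V : List A) :
    cnt mu (app P V) ≤ cp (fun c => c = b) V * mu.length := by
  classical
  obtain ⟨x, f, h, h0, h1, h2⟩ := parse_pad hP b V
  rw [← cnt_single]
  unfold cnt
  refine le_trans (Finset.card_le_card ?_) (Finset.card_biUnion_le_card_mul _
    (fun i : ℕ => Finset.Icc ((f i).toNat + 1 - mu.length) (f i).toNat) _ (fun i _ => by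
      rw [Nat.card_Icc]; omega))
  intro p hp
  simp only [Finset.mem_filter, Finset.mem_range] at hp
  obtain ⟨h3, h4⟩ := seg_drop h2 hp.1.le hp.2
  obtain ⟨i, i1, i2, i3⟩ := hm x _ f h p h3
  have i4 : 0 ≤ i := h.le_of_le hP (by omega)
  have i5 : i < V.length := h.lt_of_lt (by omega)
  obtain ⟨n, rfl⟩ := Int.eq_ofNat_of_zero_le i4
  have i6 : n < V.length := by omega
  refine Finset.mem_biUnion.2 ⟨n, ?_, ?_⟩
  · simp only [Finset.mem_filter, Finset.mem_range]
    refine ⟨i6, ?_⟩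
    have e : V[n] = b := by
      rw [← i1]; simp [pad, i6]
    rw [List.drop_eq_getElem_cons i6, e]
    exact List.prefix_append [b] _
  · rw [Finset.mem_Icc]; omega

theorem cover3 {σ : A → List Z} (hσ : NE σ) (g : A → Prop) {W : List Z} {Y : List A}
    (h : W <:+: app σ Y) : (∃ d, g d ∧ σ d <:+: W) ∨
      ∃ V, V <:+: Y ∧ W <:+: app σ V ∧ cp g V ≤ 2 := by
  by_cases hz : W = []
  · exact Or.inr ⟨[], by simp, by simp [hz], by simp⟩
  by_cases hd : ∃ d, g d ∧ σ d <:+: W
  · exact Or.inl hd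
  right
  obtain ⟨x, y, f, i, p, n, hp, h1, h2, h3, h4, h5, h6, h7⟩ := cover hσ hz h
  refine ⟨_, h1, ?_, ?_⟩
  · obtain ⟨a1, a2⟩ := hp.add i n
    rw [← a2, ← h2]
    exact seg_infix _ h3 (by omega)
  · rcases eq_or_lt_of_le h5 with h8 | h8
    · have := cp_le g (seg y i n)
      rw [seg_length] at this; omega
    · obtain ⟨n, rfl⟩ : ∃ m, n = 1 + m + 1 := ⟨n - 2, by omega⟩
      rw [seg_add, seg_add, cp_append, cp_append]
      have b1 := cp_le g (seg y i 1)
      have b2 := cp_le g (seg y (i + (1 + n : ℕ)) 1)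
      have b3 : cp g (seg y (i + (1 : ℕ)) n) = 0 := by
        refine cp_eq_zero.2 fun c hc hg => hd ⟨c, hg, ?_⟩
        obtain ⟨j, j1, j2, rfl⟩ := mem_seg.1 hc
        have c1 := hp.mono (i := i + 1) (j := j) (by omega)
        have c2 := hp.mono (i := j + 1) (j := i + (1 + n + 1 : ℕ) - 1) (by omega)
        have c3 := hp.step j
        rw [← hp.lett j, ← h2]
        exact seg_infix _ (by omega) (by omega)
      rw [seg_length] at b1 b2
      omega

variable [Fintype A] {G : A → List A} {y0 : List A} {o : A} {P : A → List Z} {Lc : Lang Z} {ϖ : ℕ}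

theorem pw_lang (S : HS G y0 o P Lc ϖ) {b : A} (hb : [b] ∈ S.sys.lang.L) (j : ℕ) :
    pw G j b ∈ S.sys.lang.L := by
  have := S.sys.img_pw j hb
  rwa [app_singleton] at this

theorem brk_up (S : HS G y0 o P Lc ϖ) {a b : A} (hb : [b] ∈ S.sys.lang.L) {p0 : ℕ}
    (h2 : 2 ≤ nn G b p0) (hab : a ∈ G b) {k : ℕ} (h : Brk ϖ (sig P G k a)) :
    ∃ j, Brk ϖ (pw G j b) := by
  by_contra hc
  have hg : Grow G b := by
    by_contra hg
    have := cp_le (fun c => c = b) (pw G p0 b)
    rw [nn, pw_fixed hg] at h2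
    rw [pw_fixed hg] at this
    simp only [List.length_singleton] at this
    omega
  obtain ⟨n, hn⟩ := S.sys.lang.perExt S.pos
  have hl := grow_len S.norm.self hg (n + ϖ + k + 1)
  have hnb : ¬ Brk ϖ (pw G (n + ϖ + k + 1) b) := fun h => hc ⟨_, h⟩
  have hsub : sig P G k a <:+: app P (pw G (n + ϖ + k + 1) b) :=
    (sig_sub P k hab).trans (sig_le S.norm.self P b (by omega))
  obtain ⟨y, hy, e⟩ := Lang.ext (pw_lang S hb (n + ϖ + k + 1)) 0
  generalize pw G (n + ϖ + k + 1) b = w at *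
  have hu : Unb ϖ y 0 (w.length - ϖ) := by
    intro i i1 i2
    obtain ⟨i, rfl⟩ := Int.eq_ofNat_of_zero_le i1
    by_contra hne
    refine hnb ⟨i, by omega, ?_⟩
    rw [seg_get e (by omega), seg_get e (by omega)]
    intro h
    apply hne
    simpa using h
  obtain ⟨ε, e1, e2, e3⟩ := hn y (hy n) 0 _ hu (by omega)
  obtain ⟨x, f, hp, h0⟩ := exists_parse S.step.ne y 0 0
  have hx := S.step.down hp e1 e2 (a := 0) (b := w.length) (by omega)
    (fun i i1 i2 => e3 i i1 (by omega))
  obtain ⟨a1, a2⟩ := hp.add 0 w.length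
  rw [e, h0] at a1 a2
  rw [zero_add] at a1
  rw [← a2] at hsub
  obtain ⟨q, q1, q2, q3⟩ := infix_seg hsub
  obtain ⟨i, i1, i2⟩ := h
  apply i2
  rw [seg_get q3 i1, seg_get q3 (by omega)]
  have := hx (q + i) (by omega) (by omega)
  rw [← this]; congr 2; push_cast; ring

theorem marker (S : HS G y0 o P Lc ϖ) {b : A} (hb : [b] ∈ S.sys.lang.L) {p0 : ℕ}
    (h2 : 2 ≤ nn G b p0) {j1 : ℕ} (hj : Brk ϖ (pw G j1 b)) :
    ∃ J, ∀ (x : ℤ → Z) (y : ℤ → A) (f : ℤ → ℤ), Parse P x y f → ∀ p,
      seg x p (sig P G J b).length = sig P G J b →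
      ∃ i, y i = b ∧ p ≤ f i ∧ f i < p + (sig P G J b).length := by
  obtain ⟨ρ1, h1⟩ := S.step.fd
  obtain ⟨ρ2, h3⟩ := S.step.elem.delay
  obtain ⟨J, i0, i1, s1, s2, s3, s4, s5, s6⟩ := shape S.norm.self h2 hj (ρ1 + ρ2)
  refine ⟨J, fun x y f h p hp => ?_⟩
  obtain ⟨y', hy, e⟩ := Lang.ext (pw_lang S hb J) 0
  unfold sig at hp ⊢
  generalize pw G J b = w at *
  obtain ⟨x', f', h', h0⟩ := exists_parse S.step.ne y' 0 p
  obtain ⟨a1, a2⟩ := h'.add 0 w.length
  rw [e, h0] at a1 a2
  rw [zero_add] at a1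
  have ag : ∀ q, p ≤ q → q < p + (app P w).length → x q = x' q := by
    intro q q1 q2
    have := seg_eq_seg (hp.trans a2.symm) (q - p) (by omega) (by omega)
    simpa using this
  have lo : ∀ m : ℤ, 0 ≤ m → p + m ≤ f' m := fun m hm => by
    have := h'.le_add S.step.ne hm; omega
  have hi : ∀ m : ℤ, m ≤ w.length → f' m + (w.length - m) ≤ p + (app P w).length := fun m hm => by
    have := h'.le_add S.step.ne hm; omega
  have hbr : y' (i0 + ϖ) ≠ y' i0 := by
    rw [seg_get e s4, seg_get e (by omega)] at s5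
    intro hh; apply s5; simpa using hh
  obtain ⟨i', hi'⟩ := (h1 (i := i0) (hy ρ1) h' h (fun q q1 q2 => ag q
    (by have := lo i0 (by omega); omega) (by have := hi i0 (by omega); omega))).resolve_right hbr
  have lett : ∀ m : ℕ, i0 + m ≤ i1 → f (i' + m) = f' (i0 + m) → y (i' + m) = y' (i0 + m) := by
    intro m m1 m2
    refine (h3 h' h m2.symm fun q q1 q2 => (ag q ?_ ?_).symm).symm
    · have := lo (i0 + m) (by omega); omega
    · have := hi (i0 + m) (by omega); omega
  have cuts : ∀ m : ℕ, i0 + m ≤ i1 → f (i' + m) = f' (i0 + m) := by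
    intro m
    induction m with
    | zero => intro _; simpa using hi'
    | succ m ih =>
      intro hm
      have b1 := ih (by omega)
      have b2 := lett m (by omega) b1
      push_cast
      rw [← add_assoc, ← add_assoc, h.step, h'.step, b1, b2]
  obtain ⟨m, rfl⟩ := Nat.exists_eq_add_of_le s2
  have b1 := cuts m le_rfl
  have b2 := lett m le_rfl b1
  refine ⟨i' + m, ?_, ?_, ?_⟩
  · rw [seg_get e (by omega)] at s6
    rw [b2]; simpa using s6
  · have := lo (i0 + m) (by omega); omega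
  · have := hi (i0 + m) (by omega); omega

end Pool.Agent.P.MP_1e185c_lc.FM
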