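import Pool.Agent.P.MP_1e185c_lc.Defs

/-! Test sets for D0L sequences through the Hilbert basis theorem. -/

set_option autoImplicit false

namespace Pool.Agent.P.MP_1e185c_lc

namespace TS

section Words

variable {A B C : Type}

theorem app_nil (f : A → List B) : app f [] = [] := rfl

theorem app_cons (f : A → List B) (a : A) (w : List A) : app f (a :: w) = f a ++ app f w := by
  simp [app]

theorem app_append (f : A → List B) (u w : List A) : app f (u ++ w) = app f u ++ app f w := by
  simp [app]

theorem app_single (f : A → List B) (a : A) : app f [a] = f a := by simp [app]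

theorem app_app (f : B → List C) (g : A → List B) (w : List A) :
    app f (app g w) = app (fun a => app f (g a)) w := by
  induction w with
  | nil => rfl
  | cons a w ih => rw [app_cons, app_append, ih, app_cons]

theorem it_zero (g : A → List A) (w : List A) : it g 0 w = w := rfl

theorem it_succ (g : A → List A) (n : ℕ) (w : List A) : it g (n + 1) w = app g (it g n w) :=
  Function.iterate_succ_apply' _ _ _

theorem it_succ' (g : A → List A) (n : ℕ) (w : List A) : it g (n + 1) w = it g n (app g w) :=
  Function.iterate_succ_apply _ _ _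

theorem it_add (g : A → List A) (m n : ℕ) (w : List A) : it g (m + n) w = it g m (it g n w) :=
  Function.iterate_add_apply _ _ _ _

theorem app_pw (g : A → List A) (n : ℕ) (w : List A) : app (pw g n) w = it g n w := by
  induction n with
  | zero =>
    induction w with
    | nil => rfl
    | cons a w ih => rw [app_cons, ih]; rfl
  | succ n ih =>
    rw [it_succ, ← ih, app_app]
    congr 1
    funext a
    exact it_succ g n [a]

theorem it_pw (g : A → List A) (M j : ℕ) (w : List A) : it (pw g M) j w = it g (j * M) w := by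
  induction j with
  | zero => simp [it_zero]
  | succ j ih => rw [it_succ, ih, app_pw, ← it_add]; congr 1; ring

theorem it_bound {g : A → List A} {P : A → Prop} (hg : ∀ a, ∀ b ∈ g a, P b) {w : List A}
    (hw : ∀ a ∈ w, P a) (n : ℕ) : ∀ a ∈ it g n w, P a := by
  cases n with
  | zero => exact hw
  | succ n =>
    intro b hb
    rw [it_succ, app, List.mem_flatMap] at hb
    obtain ⟨a, -, h⟩ := hb
    exact hg a b h

end Words

section Val

variable {R S : Type} [CommRing R] [CommRing S]

/-- product of the values of the letters -/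
def Aw (x : ℕ → R) (w : List ℕ) : R := (w.map x).prod

/-- positional value of a word -/
def Bw (x y : ℕ → R) : List ℕ → R
  | [] => 0
  | a :: w => y a + x a * Bw x y w

theorem Bw_append (x y : ℕ → R) (u w : List ℕ) :
    Bw x y (u ++ w) = Bw x y u + Aw x u * Bw x y w := by
  induction u with
  | nil => simp [Bw, Aw]
  | cons a u ih =>
    simp only [List.cons_append, Bw, ih, Aw, List.map_cons, List.prod_cons]
    ring

theorem Bw_app (x y : ℕ → R) (f : ℕ → List ℕ) (w : List ℕ) :
    Bw x y (app f w) = Bw (fun a => Aw x (f a)) (fun a => Bw x y (f a)) w := by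
  induction w with
  | nil => rfl
  | cons a w ih => rw [app_cons, Bw_append, ih, Bw]

theorem map_Bw (φ : R →+* S) (x y : ℕ → R) (x' y' : ℕ → S) (w : List ℕ)
    (h : ∀ a ∈ w, φ (x a) = x' a ∧ φ (y a) = y' a) : φ (Bw x y w) = Bw x' y' w := by
  induction w with
  | nil => simp [Bw]
  | cons a w ih =>
    rw [Bw, Bw, map_add, map_mul, ih fun b hb => h b (List.mem_cons_of_mem _ hb),
      (h a List.mem_cons_self).1, (h a List.mem_cons_self).2]

/-- difference of the two positional values under a valuation of the variables -/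
def Dv (x : ℕ → R) (w : List ℕ) : R :=
  Bw (fun a => x (4 * a)) (fun a => x (4 * a + 1)) w -
    Bw (fun a => x (4 * a + 2)) (fun a => x (4 * a + 3)) w

theorem map_Dv (φ : R →+* S) (x : ℕ → R) (x' : ℕ → S) (w : List ℕ)
    (h : ∀ a ∈ w, ∀ i < 4, φ (x (4 * a + i)) = x' (4 * a + i)) : φ (Dv x w) = Dv x' w := by
  rw [Dv, Dv, map_sub]
  congr 1
  · exact map_Bw φ _ _ _ _ w fun a ha => ⟨h a ha 0 (by omega), h a ha 1 (by omega)⟩
  · exact map_Bw φ _ _ _ _ w fun a ha => ⟨h a ha 2 (by omega), h a ha 3 (by omega)⟩

end Val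

open Polynomial in
/-- injective coding of words by polynomials -/
noncomputable def code (w : List ℕ) : Polynomial ℤ := Bw (fun _ => X) (fun a => C ((a : ℤ) + 1)) w

open Polynomial in
theorem code_inj : ∀ u w : List ℕ, code u = code w → u = w
  | [], [], _ => rfl
  | [], b :: w, h => by
    have := congrArg (fun p => coeff p 0) h
    simp [code, Bw] at this
    omega
  | a :: u, [], h => by
    have := congrArg (fun p => coeff p 0) h
    simp [code, Bw] at this
    omega
  | a :: u, b :: w, h => by
    have h0 := congrArg (fun p => coeff p 0) h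
    simp [code, Bw] at h0
    subst h0
    have h1 : code u = code w := by
      simp only [code, Bw, add_right_inj] at h
      exact mul_left_cancel₀ X_ne_zero h
    rw [code_inj u w h1]

open Polynomial in
/-- the valuation attached to a pair of morphisms -/
noncomputable def val (f1 f2 : ℕ → List ℕ) (k : ℕ) : Polynomial ℤ :=
  if k % 4 = 0 then Aw (fun _ => X) (f1 (k / 4)) else if k % 4 = 1 then code (f1 (k / 4))
  else if k % 4 = 2 then Aw (fun _ => X) (f2 (k / 4)) else code (f2 (k / 4))

theorem Dv_val (f1 f2 : ℕ → List ℕ) (w : List ℕ) :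
    Dv (val f1 f2) w = code (app f1 w) - code (app f2 w) := by
  rw [code, code, Bw_app, Bw_app, Dv]
  congr 2 <;> funext a <;> simp only [val]
  · rw [if_pos (by omega), show 4 * a / 4 = a by omega]
  · rw [if_neg (by omega), if_pos (by omega), show (4 * a + 1) / 4 = a by omega, code]
  · rw [if_neg (by omega), if_neg (by omega), if_pos (by omega),
      show (4 * a + 2) / 4 = a by omega]
  · rw [if_neg (by omega), if_neg (by omega), if_neg (by omega),
      show (4 * a + 3) / 4 = a by omega, code]

/-- a polynomial relation between the first terms gives a test set -/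
theorem test_of_rel (h : ℕ → List ℕ) (T : List ℕ) (J : ℕ)
    (hrel : ∀ x : ℕ → Polynomial ℤ, (∀ i ≤ J, Dv x (it h i T) = 0) → Dv x (it h (J + 1) T) = 0)
    (f1 f2 : ℕ → List ℕ) (h0 : ∀ j ≤ J, app f1 (it h j T) = app f2 (it h j T)) (j : ℕ) :
    app f1 (it h j T) = app f2 (it h j T) := by
  induction j using Nat.strong_induction_on with
  | _ j ih =>
    by_cases hj : j ≤ J
    · exact h0 j hj
    obtain ⟨k, rfl⟩ : ∃ k, j = k + (J + 1) := ⟨j - (J + 1), by omega⟩
    have key : ∀ i, Dv (val (fun a => app f1 (pw h k a)) (fun a => app f2 (pw h k a)))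
        (it h i T) = code (app f1 (it h (k + i) T)) - code (app f2 (it h (k + i) T)) := by
      intro i
      rw [Dv_val, ← app_app, ← app_app, app_pw, ← it_add]
    have := hrel _ fun i hi => by rw [key, ih (k + i) (by omega), sub_self]
    rw [key, sub_eq_zero] at this
    exact code_inj _ _ this

open MvPolynomial in
theorem exists_rel (E : ℕ) (W : ℕ → List ℕ) (hW : ∀ j, ∀ a ∈ W j, a < E) :
    ∃ (J : ℕ) (c : ℕ → MvPolynomial ℕ ℤ),
      Dv X (W (J + 1)) = ∑ i ∈ Finset.range (J + 1), c i * Dv X (W i) := by
  let x : ℕ → MvPolynomial (Fin (4 * E)) ℤ := fun k => if h : k < 4 * E then X ⟨k, h⟩ else 0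
  let I : ℕ →o Ideal (MvPolynomial (Fin (4 * E)) ℤ) :=
    ⟨fun n => Submodule.span _ ((fun i => Dv x (W i)) '' (Finset.range (n + 1) : Set ℕ)),
      fun m n hmn => Submodule.span_mono (Set.image_mono (Finset.coe_subset.2
        (Finset.range_mono (by omega))))⟩
  obtain ⟨J, hJ⟩ := monotone_stabilizes_iff_noetherian.2 inferInstance I
  have hmem : Dv x (W (J + 1)) ∈ I J := by
    rw [hJ (J + 1) (by omega)]
    exact Submodule.subset_span ⟨J + 1, by simp, rfl⟩
  obtain ⟨c, hc⟩ := (Submodule.mem_span_image_finset_iff_exists_fun' _).1 hmem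
  have hι : ∀ j, (rename (Fin.val : Fin (4 * E) → ℕ)).toRingHom (Dv x (W j)) = Dv X (W j) :=
    fun j => map_Dv _ _ _ _ fun a ha i hi => by
      have := hW j a ha
      have hlt : 4 * a + i < 4 * E := by omega
      simp [x, hlt]
  refine ⟨J, fun i => (rename (Fin.val : Fin (4 * E) → ℕ)).toRingHom (c i), ?_⟩
  rw [← hι, ← hc, map_sum]
  exact Finset.sum_congr rfl fun i _ => by rw [smul_eq_mul, map_mul, hι]

theorem exists_bound (l : List ℕ) : ∃ E, ∀ a ∈ l, a < E :=
  ⟨l.sum + 1, fun a ha => Nat.lt_succ_of_le (List.single_le_sum (by simp) a ha)⟩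

end TS

open TS in
theorem testset (D : ℕ) (h : ℕ → List ℕ) (hD : ∀ a, D ≤ a → h a = []) (T : List ℕ) :
    ∃ J : ℕ, ∀ f1 f2 : ℕ → List ℕ, (∀ j ≤ J, app f1 (it h j T) = app f2 (it h j T)) →
      ∀ j, app f1 (it h j T) = app f2 (it h j T) := by
  obtain ⟨E, hE⟩ := exists_bound (T ++ (List.range D).flatMap h)
  have h1 : ∀ a, ∀ b ∈ h a, b < E := by
    intro a b hb
    by_cases ha : D ≤ a
    · rw [hD a ha] at hb
      simp at hb
    · exact hE b (List.mem_append_right _ (List.mem_flatMap.2
        ⟨a, List.mem_range.2 (by omega), hb⟩))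
  obtain ⟨J, c, hc⟩ := exists_rel E (fun j => it h j T)
    fun j => it_bound h1 (fun a ha => hE a (List.mem_append_left _ ha)) j
  refine ⟨J, test_of_rel h T J fun x hx => ?_⟩
  have key : ∀ w, (MvPolynomial.aeval (R := ℤ) x).toRingHom (Dv MvPolynomial.X w) = Dv x w :=
    fun w => map_Dv _ _ _ _ fun a _ i _ => by simp
  rw [← key, hc, map_sum]
  refine Finset.sum_eq_zero fun i hi => ?_
  rw [map_mul, key, hx i (by simpa [Nat.lt_succ_iff] using hi), mul_zero]

end Pool.Agent.P.MP_1e185c_lc
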