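import Pool.Agent.P.MP_1e185c_lc.OuterAux2
import Pool.Agent.P.MP_1e185c_lc.TestSet

/-! The combinatorial core follows from the statement on pairs of normalized systems. -/

set_option autoImplicit false
set_option linter.unusedSectionVars false

namespace Pool.Agent.P.MP_1e185c_lc

open Filter

namespace FE

variable {A B : Type} [Fintype A] [Fintype B]
  {g h : ℕ → List ℕ} {u v : List ℕ} {D : ℕ} {U : Ultrafilter ℕ} {M N : ℕ}
  {P : A → List ℕ} {Q : ℕ → List A} {o : A} {R : B → List ℕ} {Q' : ℕ → List B} {o' : B}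

theorem sc_of (hU : (U : Filter ℕ) ≤ atTop) (m : Mg g u D) (m' : Mg h v D) (F : Fac g M P Q o)
    (cl : InCl U M N) {N0 : ℕ}
    (key : ∀ n, N0 ≤ n → ∃ C, ∀ k, ∃ w : List A, w.length ≤ C ∧
      ph (app (sig P (GG P Q) k) w) = ph (it h (N + (n + k + 1) * M) v)) : SC g h v U := by
  obtain ⟨J, hJ⟩ := testset D (pw h M) (m'.pwD F.pos) (it h (N + (N0 + 1) * M) v)
  choose C w hw1 hw2 using fun j => key (N0 + j) (Nat.le_add_right _ _)
  have fin : {x : Fin (J + 1) → List A | ∀ j, (x j).length ≤ C j}.Finite :=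
    Set.Finite.pi' fun j : Fin (J + 1) => List.finite_length_le A (C j)
  obtain ⟨k1, k2, hk, e⟩ := Set.Finite.exists_lt_map_eq_of_forall_mem
    (f := fun (k : ℕ) (j : Fin (J + 1)) => w j k)
    (t := {x : Fin (J + 1) → List A | ∀ j, (x j).length ≤ C j}) (fun k j => hw1 j k) fin
  obtain ⟨i, rfl⟩ : ∃ i, k2 = k1 + i := ⟨k2 - k1, by omega⟩
  have hi : 1 ≤ i := by omega
  have t1 : ∀ j k, app (fun x => ph (pw h (k * M) x)) (it (pw h M) j (it h (N + (N0 + 1) * M) v)) =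
      ph (it h (N + (N0 + j + k + 1) * M) v) := by
    intro j k
    rw [← ph_app, app_pw, it_pw, ← it_add, ← it_add]; congr 2; ring
  have t2 : ∀ j, app (fun x => ph (app (pw g (i * M)) (pw h (k1 * M) x)))
      (it (pw h M) j (it h (N + (N0 + 1) * M) v)) =
      ph (it g (i * M) (it h (N + (N0 + j + k1 + 1) * M) v)) := by
    intro j
    rw [← ph_app, ← app_app, app_pw, app_pw, it_pw, ← it_add, ← it_add]; congr 3; ring
  have all := hJ (fun x => ph (pw h ((k1 + i) * M) x))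
    (fun x => ph (app (pw g (i * M)) (pw h (k1 * M) x))) fun j hj => by
      have e1 : w j k1 = w j (k1 + i) := congrFun e ⟨j, by omega⟩
      rw [t1, t2, ← hw2, ← m.ph_it, ← hw2, m.ph_it, e1, app_sig, app_sig, it_P F.pq, it_P F.pq,
        ← it_add]
      congr 2; ring
  obtain ⟨r, hr⟩ := inCl_refine hU F.pos cl hi (N0 + k1 + 1)
  refine ⟨i * M, _, Nat.one_le_iff_ne_zero.2 (by have := F.pos; positivity), hr, fun j => ?_⟩
  have := all (r + j * i)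
  rw [t1, t2, show N + (N0 + (r + j * i) + (k1 + i) + 1) * M =
      N + (N0 + k1 + 1 + r) * M + j * (i * M) + i * M by ring,
    show N + (N0 + (r + j * i) + k1 + 1) * M = N + (N0 + k1 + 1 + r) * M + j * (i * M) by ring]
    at this
  rw [unph m m' this]; congr 1; ring

/-- a pair of factorizations along a large class, the second sequence lying in the range of
the first coding -/
structure Cfg (g h : ℕ → List ℕ) (v : List ℕ) (U : Ultrafilter ℕ) (P : A → List ℕ) (o : A)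
    (R : B → List ℕ) (o' : B) (M N : ℕ) (Q : ℕ → List A) (Q' : ℕ → List B) : Prop where
  f1 : Fac g M P Q o
  f2 : Fac h M R Q' o'
  cl : InCl U M N
  rg : ∀ j, ∃ w, it h (N + (j + 1) * M) v = app P w

theorem Cfg.refine (c : Cfg g h v U P o R o' M N Q Q') {p : ℕ} (hp : 1 ≤ p) :
    ∃ r, Cfg g h v U P o R o' (p * M) (N + r * M) (rf P Q p) (rf R Q' p) := by
  obtain ⟨r, hr⟩ := inCl_refine0 c.cl hp
  refine ⟨r, c.f1.refine hp, c.f2.refine hp, hr, fun j => ?_⟩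
  obtain ⟨n, rfl⟩ : ∃ n, p = n + 1 := ⟨p - 1, by omega⟩
  have := c.rg (r + j * (n + 1) + n)
  rwa [show N + (r + j * (n + 1) + n + 1) * M = N + r * M + (j + 1) * ((n + 1) * M) by ring]
    at this

theorem exists_cfg (hU : (U : Filter ℕ) ≤ atTop) {M1 M2 : ℕ} (F : Fac g M1 P Q o)
    (F' : Fac h M2 R Q' o') (h0 : H0 g h u v U) :
    ∃ M N Q Q', Cfg g h v U P o R o' M N Q Q' := by
  have F1 := F.refine F'.pos
  have F2 := F'.refine F.pos
  rw [mul_comm] at F2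
  obtain ⟨N, hN⟩ := inCl_refine0 (inCl_one U) F1.pos
  rw [mul_one] at hN
  obtain ⟨M', N', hM', c', e⟩ := h0 _ (range_finite P)
  obtain ⟨r, i, c, k⟩ := inCl_sub hU F1.pos hM' hN c'
  refine ⟨_, _, _, _, F1.refine hM', F2.refine hM', c, fun j => ?_⟩
  have e1 := e (i + (j + 1) * (M2 * M1))
  rw [show N' + (i + (j + 1) * (M2 * M1)) * M' = N' + i * M' + (j + 1) * (M' * (M2 * M1)) by ring,
    ← k] at e1
  obtain ⟨w, hw⟩ := e1.1 ⟨_, seq_eq (F1.refine hM').pq _ j u⟩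
  exact ⟨w, hw.symm⟩

theorem Cfg.norm (c : Cfg g h v U P o R o' M N Q Q') : ∃ M N Q Q',
    Cfg g h v U P o R o' M N Q Q' ∧ Norm (GG P Q) ∧ Norm (GG R Q') := by
  obtain ⟨p1, a1, b1⟩ := exists_norm fun k => elem_pw (c.f1.elem k)
  obtain ⟨p2, a2, b2⟩ := exists_norm fun k => elem_pw (c.f2.elem k)
  have hp : 1 ≤ p2 * p1 := Nat.one_le_iff_ne_zero.2 (by positivity)
  obtain ⟨r, hr⟩ := c.refine hp
  refine ⟨_, _, _, _, hr, ?_, ?_⟩
  · rw [GG_rf hp, ← pw_pw]; exact b1.pow a2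
  · rw [GG_rf hp, mul_comm, ← pw_pw]; exact b2.pow a1

theorem Cfg.fs (hU : (U : Filter ℕ) ≤ atTop) (m : Mg g u D) (m' : Mg h v D) (h0 : H0 g h u v U)
    (c : Cfg g h v U P o R o' M N Q Q') (n1 : Norm (GG P Q)) (n2 : Norm (GG R Q')) :
    ∃ M N Q Q' Lc ϖ, Cfg g h v U P o R o' M N Q Q' ∧
      FS (GG P Q) (app Q (it g N u)) o P Lc ϖ ∧ FS (GG R Q') (app Q' (it h N v)) o' R Lc ϖ := by
  obtain ⟨p, hp, H⟩ := exists_fs (c.f1.sys m n1 N) (c.f2.sys m' n2 N) c.f1.elem c.f2.elem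
    (c0_of hU c.f1 c.f2 c.cl h0)
  obtain ⟨r, hr⟩ := c.refine hp
  obtain ⟨Lc, ϖ, S, T⟩ := H (p - 1 + r)
  refine ⟨_, _, _, _, Lc, ϖ, hr, ?_, ?_⟩
  · rw [GG_rf hp, c.f1.start_rf]; exact S
  · rw [GG_rf hp, c.f2.start_rf]; exact T

end FE

open FE in
theorem core_of_pair (pm : PairMain) : Core := by
  intro D g h u v U mk hU h0 h1 h1' h3 h3'
  have m : Mg g u D := ⟨mk.gD, mk.g0, mk.gn, mk.hu⟩
  have m' : Mg h v D := ⟨mk.hD, mk.h0, mk.hn, mk.hv⟩
  obtain ⟨A, _, M1, P, Q, o, F⟩ := exists_fac m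
  obtain ⟨B, _, M2, R, Q', o', F'⟩ := exists_fac m'
  obtain ⟨_, _, _, _, c1⟩ := exists_cfg hU F F' h0
  obtain ⟨_, _, _, _, c2, n1, n2⟩ := c1.norm
  obtain ⟨M, N, Q, Q', Lc, ϖ, c, S, T⟩ := c2.fs hU m m' h0 n1 n2
  obtain ⟨N0, key⟩ := pm A B _ _ o P _ _ o' R Lc ϖ S T c.f1.mk' c.f2.mk' (c.f1.nomark m)
    (c0_of hU c.f1 c.f2 c.cl h0) (c2_of hU c.f1 c.f2 c.cl h1 S.sys)
    (c2_of hU c.f2 c.f1 c.cl h1' T.sys) (c3_of hU m' c.f1 c.f2 c.cl h3)
    (c3_of hU m c.f2 c.f1 c.cl h3') (fun j => by rw [seq_eq c.f2.pq]; exact c.rg j)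
  refine sc_of hU m m' c.f1 c.cl (N0 := N0) fun n hn => ?_
  obtain ⟨C, hC⟩ := key n hn
  refine ⟨C, fun k => ?_⟩
  obtain ⟨w, w1, w2⟩ := hC k
  rw [seq_eq c.f2.pq] at w2
  exact ⟨w, w1, w2⟩

end Pool.Agent.P.MP_1e185c_lc
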