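import Pool.Agent.P.MP_1e185c_lc.Defs2

/-! Residue classes, marked morphisms and minimal factorizations. -/

set_option autoImplicit false
set_option linter.unusedSectionVars false

namespace Pool.Agent.P.MP_1e185c_lc.FE

open Filter

section classes

variable {U : Ultrafilter ℕ}

theorem inCl_shift (hU : (U : Filter ℕ) ≤ atTop) {M N : ℕ} (hM : 1 ≤ M)
    (h : InCl U M N) (k : ℕ) : InCl U M (N + k * M) := by
  have h1 : {n | N + k * M ≤ n} ∈ (U : Filter ℕ) := hU (mem_atTop _)
  have h2 : {n | ∃ j, n = N + j * M} ∈ (U : Filter ℕ) := h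
  refine (mem_of_superset (inter_mem h1 h2) ?_ : _ ∈ (U : Filter ℕ))
  rintro n ⟨hn, j, rfl⟩
  have hkj : k ≤ j := by
    have : k * M ≤ j * M := by simpa using hn
    exact Nat.le_of_mul_le_mul_right this hM
  obtain ⟨i, rfl⟩ := Nat.exists_eq_add_of_le hkj
  exact ⟨i, by ring⟩

theorem inCl_refine0 {M N : ℕ} (h : InCl U M N) {p : ℕ} (hp : 1 ≤ p) :
    ∃ r, InCl U (p * M) (N + r * M) := by
  have h2 : {n | ∃ j, n = N + j * M} ∈ U := h
  have h3 : (⋃ r ∈ Set.Iio p, {n | ∃ j, n = N + r * M + j * (p * M)}) ∈ U := by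
    refine (mem_of_superset h2 ?_ : _ ∈ (U : Filter ℕ))
    rintro n ⟨j, rfl⟩
    simp only [Set.mem_iUnion]
    refine ⟨j % p, Nat.mod_lt _ hp, j / p, ?_⟩
    conv_lhs => rw [← Nat.mod_add_div j p]
    ring
  obtain ⟨r, -, hr⟩ := (Ultrafilter.finite_biUnion_mem_iff (Set.finite_Iio p)).1 h3
  exact ⟨r, hr⟩

theorem inCl_refine (hU : (U : Filter ℕ) ≤ atTop) {M N : ℕ} (hM : 1 ≤ M) (h : InCl U M N) {p : ℕ}
    (hp : 1 ≤ p) (K : ℕ) : ∃ r, InCl U (p * M) (N + (K + r) * M) := by
  obtain ⟨r, hr⟩ := inCl_refine0 (inCl_shift hU hM h K) hp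
  exact ⟨r, by rwa [add_mul, ← add_assoc]⟩

theorem inCl_one (U : Ultrafilter ℕ) : InCl U 1 0 := by
  refine (mem_of_superset univ_mem ?_ : _ ∈ (U : Filter ℕ))
  intro n _
  exact ⟨n, by simp⟩

theorem inCl_meet {M N M' N' : ℕ} (h : InCl U M N) (h' : InCl U M' N') :
    ∃ j j', N + j * M = N' + j' * M' := by
  have h1 : {n | ∃ j, n = N + j * M} ∈ (U : Filter ℕ) := h
  have h2 : {n | ∃ j, n = N' + j * M'} ∈ (U : Filter ℕ) := h'
  obtain ⟨n, ⟨j, e1⟩, j', e2⟩ := Filter.nonempty_of_mem (inter_mem h1 h2)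
  exact ⟨j, j', e1.symm.trans e2⟩

theorem inCl_sub (hU : (U : Filter ℕ) ≤ atTop) {M N M' N' : ℕ} (hM : 1 ≤ M) (hM' : 1 ≤ M')
    (h : InCl U M N) (h' : InCl U M' N') :
    ∃ r i, InCl U (M' * M) (N + r * M) ∧ N + r * M = N' + i * M' := by
  obtain ⟨r, hr⟩ := inCl_refine hU hM h hM' N'
  obtain ⟨j, j', e⟩ := inCl_meet hr h'
  have h1 : N' ≤ N + (N' + r) * M := by nlinarith
  have h2 : j * M ≤ j' := by
    refine Nat.le_of_mul_le_mul_right ?_ hM'
    have : j * M * M' = j * (M' * M) := by ring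
    omega
  obtain ⟨i, rfl⟩ := Nat.exists_eq_add_of_le h2
  refine ⟨_, i, hr, ?_⟩
  have : (j * M + i) * M' = j * (M' * M) + i * M' := by ring
  omega

end classes

section marked

/-- one half of a marked instance -/
structure Mg (g : ℕ → List ℕ) (u : List ℕ) (D : ℕ) : Prop where
  gD : ∀ a, D ≤ a → g a = []
  g0 : g 0 = [0, 0]
  gn : ∀ a, a ≠ 0 → 0 ∉ g a
  hu : ∃ u0, 0 ∉ u0 ∧ u = 0 :: u0 ++ [0]

variable {g : ℕ → List ℕ} {u : List ℕ} {D : ℕ}

theorem app_rep {A B : Type} {f : A → List B} {a : A} {b : B} {k : ℕ}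
    (h : f a = List.replicate k b) (n : ℕ) :
    app f (List.replicate n a) = List.replicate (n * k) b := by
  induction n with
  | zero => simp
  | succ n ih => rw [List.replicate_succ, app_cons, ih, h, ← List.replicate_add]; congr 1; ring

theorem Mg.it_rep (m : Mg g u D) (n k : ℕ) :
    it g n (List.replicate k 0) = List.replicate (k * 2 ^ n) 0 := by
  induction n with
  | zero => simp
  | succ n ih =>
    rw [it_succ', ih, app_rep (k := 2) (b := 0) m.g0]; congr 1; ring

theorem Mg.pw0 (m : Mg g u D) (n : ℕ) : pw g n 0 = List.replicate (2 ^ n) 0 := by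
  have := m.it_rep n 1
  rwa [one_mul] at this

theorem Mg.free (m : Mg g u D) (n : ℕ) {w : List ℕ} (hw : 0 ∉ w) : 0 ∉ it g n w := by
  induction n with
  | zero => exact hw
  | succ n ih =>
    rw [it_succ', mem_app]
    rintro ⟨a, h1, h2⟩
    exact m.gn a (fun e => ih (e ▸ h1)) h2

theorem Mg.shape (m : Mg g u D) (n : ℕ) : ∃ x, 0 ∉ x ∧
    it g n u = List.replicate (2 ^ n) 0 ++ x ++ List.replicate (2 ^ n) 0 := by
  obtain ⟨u0, h1, rfl⟩ := m.hu
  refine ⟨_, m.free n h1, ?_⟩
  rw [show 0 :: u0 ++ [0] = [0] ++ u0 ++ [0] by simp, it_append, it_append]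
  exact congrArg₂ _ (congrArg₂ _ (m.pw0 n) rfl) (m.pw0 n)

theorem Mg.pwD (m : Mg g u D) {M : ℕ} (hM : 1 ≤ M) (a : ℕ) (ha : D ≤ a) : pw g M a = [] := by
  obtain ⟨n, rfl⟩ : ∃ n, M = n + 1 := ⟨M - 1, by omega⟩
  rw [pw_succ, m.gD a ha]; rfl

/-- erase the marker -/
def ph (w : List ℕ) : List ℕ := w.filter fun c => c ≠ 0

theorem ph_append (v w : List ℕ) : ph (v ++ w) = ph v ++ ph w := by simp [ph]

theorem ph_rep (k : ℕ) : ph (List.replicate k 0) = [] := by simp [ph]

theorem ph_free {w : List ℕ} (hw : 0 ∉ w) : ph w = w := by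
  rw [ph, List.filter_eq_self]
  intro a ha
  simp only [ne_eq, decide_not, Bool.not_eq_eq_eq_not, Bool.not_true, decide_eq_false_iff_not]
  rintro rfl; exact hw ha

theorem ph_app {A : Type} (f : A → List ℕ) (w : List A) :
    ph (app f w) = app (fun a => ph (f a)) w := by
  induction w with
  | nil => rfl
  | cons a w ih => rw [app_cons, app_cons, ph_append, ih]

theorem Mg.ph_it (m : Mg g u D) (n : ℕ) (w : List ℕ) : ph (it g n (ph w)) = ph (it g n w) := by
  induction w with
  | nil => rfl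
  | cons a w ih =>
    rw [show a :: w = [a] ++ w from rfl, ph_append, it_append, it_append, ph_append, ph_append, ih]
    congr 1
    by_cases ha : a = 0
    · subst ha
      rw [show ph [0] = [] from rfl, it_nil, show it g n [0] = pw g n 0 from rfl, m.pw0, ph_rep]
      rfl
    · rw [ph_free (w := [a]) (by simpa using fun e => ha e.symm)]

theorem unph {h : ℕ → List ℕ} {v : List ℕ} (m : Mg g u D) (m' : Mg h v D) {n k : ℕ}
    (e : ph (it h (n + k) v) = ph (it g k (it h n v))) : it g k (it h n v) = it h (n + k) v := by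
  obtain ⟨x, x1, x2⟩ := m'.shape n
  obtain ⟨y, y1, y2⟩ := m'.shape (n + k)
  rw [x2, y2] at e ⊢
  simp only [it_append, m.it_rep, ph_append, ph_rep, List.nil_append, List.append_nil,
    ph_free y1, ph_free (m.free k x1)] at e ⊢
  rw [e, pow_add]

end marked

section fac

variable {A : Type} [Fintype A]

/-- the morphism induced on the intermediate alphabet -/
def GG (P : A → List ℕ) (Q : ℕ → List A) (a : A) : List A := app Q (P a)

/-- a factorization of a power through an alphabet which cannot be made smaller -/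
structure Fac (g : ℕ → List ℕ) (M : ℕ) (P : A → List ℕ) (Q : ℕ → List A) (o : A) : Prop where
  pos : 1 ≤ M
  pq : ∀ x, app P (Q x) = pw g M x
  mk' : Mk P o
  elem : ∀ k, Elem (sig P (GG P Q) k)

variable {g : ℕ → List ℕ} {M : ℕ} {P : A → List ℕ} {Q : ℕ → List A} {o : A}

theorem app_PQ (h : ∀ x, app P (Q x) = pw g M x) (w : List ℕ) :
    app P (app Q w) = it g M w := by
  rw [app_app, ← app_pw]; congr 1; funext x; exact h x

theorem app_GG (w : List A) : app (GG P Q) w = app Q (app P w) := by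
  rw [app_app]; rfl

theorem it_Q (h : ∀ x, app P (Q x) = pw g M x) (j : ℕ) (w : List ℕ) :
    it (GG P Q) j (app Q w) = app Q (it g (j * M) w) := by
  induction j with
  | zero => simp
  | succ j ih => rw [it_succ', ih, app_GG, app_PQ h, ← it_add]; congr 2; ring

theorem it_P (h : ∀ x, app P (Q x) = pw g M x) (j : ℕ) (w : List A) :
    app P (it (GG P Q) j w) = it g (j * M) (app P w) := by
  induction j with
  | zero => simp
  | succ j ih => rw [it_succ', app_GG, app_PQ h, ih, ← it_add]; congr 1; ring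

theorem seq_eq (h : ∀ x, app P (Q x) = pw g M x) (N j : ℕ) (u : List ℕ) :
    app P (it (GG P Q) j (app Q (it g N u))) = it g (N + (j + 1) * M) u := by
  rw [it_P h, app_PQ h, ← it_add, ← it_add]; congr 1; ring

theorem start_eq (h : ∀ x, app P (Q x) = pw g M x) (N j : ℕ) (u : List ℕ) :
    app Q (it g (N + j * M) u) = it (GG P Q) j (app Q (it g N u)) := by
  rw [it_Q h, ← it_add, add_comm]

/-- the refined second factor -/
def rf (P : A → List ℕ) (Q : ℕ → List A) (p : ℕ) (x : ℕ) : List A := it (GG P Q) (p - 1) (Q x)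

theorem app_rf (p : ℕ) (w : List ℕ) : app (rf P Q p) w = it (GG P Q) (p - 1) (app Q w) := by
  rw [← app_pw, app_app]; congr 1; funext x; rw [app_pw]; rfl

theorem GG_rf {p : ℕ} (hp : 1 ≤ p) : GG P (rf P Q p) = pw (GG P Q) p := by
  funext a
  obtain ⟨n, rfl⟩ : ∃ n, p = n + 1 := ⟨p - 1, by omega⟩
  rw [GG, app_rf, pw_succ, app_pw]; rfl

theorem Fac.refine (F : Fac g M P Q o) {p : ℕ} (hp : 1 ≤ p) : Fac g (p * M) P (rf P Q p) o where
  pos := Nat.one_le_iff_ne_zero.2 (by have := F.pos; positivity)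
  pq x := by
    obtain ⟨n, rfl⟩ : ∃ n, p = n + 1 := ⟨p - 1, by omega⟩
    rw [rf, it_P F.pq, F.pq, pw, ← it_add, pw]; congr 1; simp; ring
  mk' := F.mk'
  elem k := by rw [GG_rf hp, sig_pw]; exact F.elem _

theorem Fac.start_rf (F : Fac g M P Q o) (p N r : ℕ) (u : List ℕ) :
    app (rf P Q p) (it g (N + r * M) u) = it (GG P Q) (p - 1 + r) (app Q (it g N u)) := by
  rw [app_rf, start_eq F.pq, ← it_add]

theorem Fac.elemP (F : Fac g M P Q o) : Elem P := by
  have := F.elem 0; rwa [sig_zero] at this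

theorem elem_pw {B : Type} {P : A → List B} {G : A → List A} {k : ℕ} (h : Elem (sig P G k)) :
    Elem (pw G k) := by
  classical
  intro C hC
  refine le_trans (h (C.image (app P)) fun a => ?_) Finset.card_image_le
  obtain ⟨l, h1, h2⟩ := hC a
  refine ⟨l.map (app P), ?_, ?_⟩
  · intro x hx
    obtain ⟨y, y1, rfl⟩ := List.mem_map.1 hx
    exact Finset.mem_image_of_mem _ (h1 y y1)
  · rw [sig, ← h2]
    clear h1 h2
    induction l with
    | nil => rfl
    | cons y l ih => simp [ih]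

theorem Fac.Q0 {u : List ℕ} {D : ℕ} (m : Mg g u D) (F : Fac g M P Q o) :
    Q 0 = List.replicate (2 ^ M) o := by
  have h1 : ∀ c ∈ Q 0, c = o := by
    intro c hc
    by_contra hne
    obtain ⟨b, l, e⟩ := List.exists_cons_of_ne_nil (F.elemP.ne c)
    have h2 : b ∈ app P (Q 0) := mem_app.2 ⟨c, hc, by simp [e]⟩
    rw [F.pq, m.pw0] at h2
    have h3 := List.eq_of_mem_replicate h2
    exact F.mk'.2 c hne (by simp [e, h3])
  have h2 : Q 0 = List.replicate (Q 0).length o := List.eq_replicate_iff.2 ⟨rfl, h1⟩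
  have h3 := F.pq 0
  rw [h2, app_rep (k := 1) (b := 0) F.mk'.1, m.pw0] at h3
  have h4 := congrArg List.length h3
  simp only [List.length_replicate, mul_one] at h4
  rw [h2, h4]

theorem Fac.nomark {u : List ℕ} {D : ℕ} (m : Mg g u D) (F : Fac g M P Q o) (a : A) (ha : a ≠ o) :
    o ∉ GG P Q a := by
  intro h
  have h1 : 0 ∈ app P (app Q (P a)) := mem_app.2 ⟨o, h, by rw [F.mk'.1]; simp⟩
  rw [app_PQ F.pq] at h1
  exact m.free M (F.mk'.2 a ha) h1

theorem Fac.sys {u : List ℕ} {D : ℕ} (m : Mg g u D) (F : Fac g M P Q o) (hn : Norm (GG P Q))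
    (N : ℕ) : Sys (GG P Q) (app Q (it g N u)) o := by
  have e : GG P Q o = List.replicate (2 ^ M) o := by
    rw [GG, F.mk'.1, app_singleton, F.Q0 m]
  have h2 : 2 ≤ 2 ^ M := by
    calc 2 = 2 ^ 1 := rfl
      _ ≤ 2 ^ M := Nat.pow_le_pow_right (by omega) F.pos
  obtain ⟨x, -, hx⟩ := m.shape N
  obtain ⟨k, hk⟩ : ∃ k, 2 ^ N * 2 ^ M = k + 1 :=
    ⟨2 ^ N * 2 ^ M - 1, by have : 0 < 2 ^ N * 2 ^ M := by positivity
                           omega⟩
  have e2 : app Q (it g N u) = List.replicate (k + 1) o ++ app Q x ++ List.replicate (k + 1) o := by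
    rw [hx, app_append, app_append, app_rep (F.Q0 m), hk]
  refine ⟨hn, fun c hc => List.eq_of_mem_replicate (e ▸ hc), fun h => ?_, ?_, ?_⟩
  · have := congrArg List.length (e.symm.trans h)
    simp only [List.length_replicate, List.length_singleton] at this
    omega
  · rw [e2, List.replicate_succ]
    exact ⟨_, rfl⟩
  · rw [e2]
    conv_rhs => rw [List.replicate_succ' (n := k), ← List.append_assoc]
    exact List.suffix_append _ _

end fac

section minimal

/-- a word is a product of words of `C` -/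
def Gen {B : Type} (C : Finset (List B)) (w : List B) : Prop :=
  ∃ l : List (List B), (∀ x ∈ l, x ∈ C) ∧ l.flatten = w

theorem Gen.app {A B : Type} {C : Finset (List B)} {f : A → List B} {w : List A}
    (h : ∀ a ∈ w, Gen C (f a)) : Gen C (app f w) := by
  induction w with
  | nil => exact ⟨[], by simp, rfl⟩
  | cons a w ih =>
    obtain ⟨l, h1, h2⟩ := h a (by simp)
    obtain ⟨l', h3, h4⟩ := ih fun b hb => h b (by simp [hb])
    refine ⟨l ++ l', fun x hx => ?_, by rw [List.flatten_append, h2, h4, app_cons]⟩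
    rcases List.mem_append.1 hx with hx | hx
    · exact h1 x hx
    · exact h3 x hx

theorem Gen.lift {B : Type} {C : Finset (List B)} {w : List B} (h : Gen C w) :
    ∃ l : List C, MP_1e185c_lc.app (fun c : C => c.1) l = w := by
  obtain ⟨l, h1, rfl⟩ := h
  induction l with
  | nil => exact ⟨[], rfl⟩
  | cons x l ih =>
    obtain ⟨l', e⟩ := ih fun y hy => h1 y (by simp [hy])
    exact ⟨⟨x, h1 x (by simp)⟩ :: l', by rw [app_cons, e]; rfl⟩

theorem app_map {A B C : Type} (f : B → List C) (e : A → B) (w : List A) :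
    app f (w.map e) = app (fun a => f (e a)) w := by
  induction w with
  | nil => rfl
  | cons a w ih => simp [ih]

theorem exists_fac {g : ℕ → List ℕ} {u : List ℕ} {D : ℕ} (m : Mg g u D) :
    ∃ (A : Type) (_ : Fintype A) (M : ℕ) (P : A → List ℕ) (Q : ℕ → List A) (o : A),
      Fac g M P Q o := by
  classical
  have ex : ∃ d, ∃ C : Finset (List ℕ), C.card = d ∧ (∀ c ∈ C, 0 ∉ c) ∧
      ∃ M, 1 ≤ M ∧ ∀ x, x ≠ 0 → Gen C (pw g M x) := by
    refine ⟨_, ((Finset.range D).erase 0).image g, rfl, fun c hc => ?_, 1, le_rfl, fun x hx => ?_⟩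
    · obtain ⟨a, a1, rfl⟩ := Finset.mem_image.1 hc
      exact m.gn a (Finset.ne_of_mem_erase a1)
    · rw [pw_one]
      by_cases h : x < D
      · exact ⟨[g x], by
          intro y hy
          rw [List.mem_singleton.1 hy]
          exact Finset.mem_image_of_mem _ (Finset.mem_erase.2 ⟨hx, Finset.mem_range.2 h⟩), by simp⟩
      · exact ⟨[], by simp, (m.gD x (by omega)).symm⟩
  obtain ⟨C, hC, h0, M, hM, hG⟩ := Nat.find_spec ex
  choose Q0 hQ0 using fun x (hx : x ≠ 0) => (hG x hx).lift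
  let P : Option C → List ℕ := fun a => a.elim [0] fun c => c.1
  let Q : ℕ → List (Option C) := fun x =>
    if hx : x = 0 then List.replicate (2 ^ M) none else (Q0 x hx).map some
  have pq : ∀ x, app P (Q x) = pw g M x := by
    intro x
    by_cases hx : x = 0
    · subst hx
      simp only [Q, dif_pos]
      rw [app_rep (f := P) (a := none) (k := 1) (b := 0) rfl, m.pw0, mul_one]
    · simp only [Q, dif_neg hx]
      rw [app_map]; exact hQ0 x hx
  refine ⟨Option C, inferInstance, M, P, Q, none, hM, pq, ⟨rfl, ?_⟩, fun k C' hC' => ?_⟩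
  · rintro (_ | c) h
    · exact absurd rfl h
    · exact h0 c.1 c.2
  have sg : ∀ a, sig P (GG P Q) k a = it g (k * M) (P a) := by
    intro a
    rw [sig, pw, it_P pq, app_singleton]
  have h1 : Nat.find ex ≤ (C'.filter fun c => 0 ∉ c).card := by
    refine Nat.find_min' ex ⟨_, rfl, fun c hc => (Finset.mem_filter.1 hc).2, k * M + M,
      by omega, fun x hx => ?_⟩
    rw [pw_add, ← hQ0 x hx, app_app]
    refine Gen.app fun c _ => ?_
    obtain ⟨l, l1, l2⟩ := hC' (some c)
    rw [sg] at l2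
    refine ⟨l, fun y hy => Finset.mem_filter.2 ⟨l1 y hy, fun h => ?_⟩, by rw [app_pw]; exact l2⟩
    have : 0 ∈ l.flatten := List.mem_flatten.2 ⟨y, hy, h⟩
    rw [l2] at this
    exact m.free _ (h0 c.1 c.2) this
  have h2 : (C'.filter fun c => 0 ∉ c).card < C'.card := by
    obtain ⟨l, l1, l2⟩ := hC' none
    have : 0 ∈ l.flatten := by
      rw [l2, sg, show it g (k * M) (P none) = pw g (k * M) 0 from rfl, m.pw0]
      exact List.mem_replicate.2 ⟨by positivity, rfl⟩
    obtain ⟨y, y1, y2⟩ := List.mem_flatten.1 this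
    exact Finset.card_lt_card (Finset.filter_ssubset.2 ⟨y, l1 y y1, not_not.2 y2⟩)
  rw [Fintype.card_option, Fintype.card_coe]
  omega

end minimal

end Pool.Agent.P.MP_1e185c_lc.FE
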