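import Pool.Agent.P.MP_1e185c_lc.OuterAux1

/-! Regular languages, common coded language, and the hypotheses of the pair statement. -/

set_option autoImplicit false
set_option linter.unusedSectionVars false

namespace Pool.Agent.P.MP_1e185c_lc.FE

open Filter

variable {A B Z : Type}

theorem factor_finite (w : List Z) :
    (Set.range fun x : List Z => {y | x ++ y ∈ {z : List Z | w <:+: z}}).Finite := by
  classical
  let F : Prop × (Fin (w.length + 1) → Prop) → Set (List Z) := fun s =>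
    {y | s.1 ∨ w <:+: y ∨ ∃ i : Fin (w.length + 1), s.2 i ∧ w.drop i <+: y}
  refine (Set.finite_range F).subset ?_
  rintro _ ⟨x, rfl⟩
  refine ⟨(w <:+: x, fun i => w.take i <:+ x), ?_⟩
  ext y
  simp only [F, Set.mem_ofPred_eq]
  rw [List.infix_append_iff]
  refine or_congr Iff.rfl (or_congr Iff.rfl ⟨?_, ?_⟩)
  · rintro ⟨i, h1, h2⟩
    exact ⟨_, _, (List.take_append_drop i w).symm, h1, h2⟩
  · rintro ⟨l1, l2, rfl, h1, h2⟩
    exact ⟨⟨l1.length, by simp⟩, by simpa using h1, by simpa using h2⟩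

theorem split_app (P : A → List Z) (z : List A) : ∀ w w' : List Z, w ++ w' = app P z →
    ∃ s z1 z2, (s = [] ∨ ∃ a, s <:+ P a) ∧ w ++ s = app P z1 ∧ w' = s ++ app P z2 := by
  induction z with
  | nil =>
    intro w w' h
    rw [app_nil, List.append_eq_nil_iff] at h
    exact ⟨[], [], [], Or.inl rfl, by simp [h.1], by simp [h.2]⟩
  | cons a z ih =>
    intro w w' h
    rw [app_cons, List.append_eq_append_iff] at h
    rcases h with ⟨s, h1, h2⟩ | ⟨c, h1, h2⟩
    · exact ⟨s, [a], z, Or.inr ⟨a, w, h1.symm⟩, by simp [h1], h2⟩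
    · obtain ⟨s, z1, z2, k1, k2, k3⟩ := ih c w' h2.symm
      exact ⟨s, a :: z1, z2, k1, by rw [h1, app_cons, List.append_assoc, k2], k3⟩

theorem range_finite [Finite A] (P : A → List Z) :
    (Set.range fun x : List Z => {y | x ++ y ∈ Set.range (app P)}).Finite := by
  have hS : {s : List Z | s = [] ∨ ∃ a, s <:+ P a}.Finite := by
    refine ((Set.finite_singleton []).union
      (Set.finite_iUnion fun a => List.finite_toSet (P a).tails)).subset ?_
    rintro s (rfl | ⟨a, h⟩)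
    · exact Or.inl rfl
    · exact Or.inr (Set.mem_iUnion.2 ⟨a, (List.mem_tails _ _).2 h⟩)
  refine (hS.finite_subsets.image fun T => {y | ∃ s ∈ T, ∃ z, y = s ++ app P z}).subset ?_
  rintro _ ⟨x, rfl⟩
  refine ⟨{s | (s = [] ∨ ∃ a, s <:+ P a) ∧ ∃ z, x ++ s = app P z}, fun s hs => hs.1, ?_⟩
  ext y
  constructor
  · rintro ⟨s, ⟨-, z1, h1⟩, z2, rfl⟩
    exact ⟨z1 ++ z2, by rw [app_append, ← h1, List.append_assoc]⟩
  · rintro ⟨z, hz⟩
    obtain ⟨s, z1, z2, k1, k2, k3⟩ := split_app P z x y hz.symm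
    exact ⟨s, ⟨k1, z1, k2⟩, z2, k3⟩

theorem c0_refl (s : ℕ → List Z) : C0 s s :=
  fun _ _ => Eventually.frequently (Eventually.of_forall fun _ => Iff.rfl)

theorem c0_symm {s t : ℕ → List Z} (h : C0 s t) : C0 t s :=
  fun R hR => (h R hR).mono fun _ e => e.symm

theorem c0_factor {s t : ℕ → List Z} (h : C0 s t) {z : List Z} (hz : ∀ᶠ j in atTop, z <:+: s j) :
    ∃ᶠ j in atTop, z <:+: t j :=
  ((h _ (factor_finite z)).and_eventually hz).mono fun _ e => e.1.1 e.2

theorem decomp_cp (b : A) (L : List A) : ∃ (ys : List (List A)) (yl : List A),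
    L = ys.flatMap (fun y => y ++ [b]) ++ yl ∧ ys.length = cp (fun c => c = b) L := by
  induction L with
  | nil => exact ⟨[], [], rfl, rfl⟩
  | cons a L ih =>
    obtain ⟨ys, yl, e1, e2⟩ := ih
    by_cases h : a = b
    · subst h
      exact ⟨[] :: ys, yl, by rw [e1]; simp, by rw [cp_cons_pos (g := fun c => c = a) rfl, ← e2]; rfl⟩
    · rw [cp_cons_neg (g := fun c => c = b) h]
      cases ys with
      | nil => exact ⟨[], a :: yl, by rw [e1]; simp, e2⟩
      | cons y ys => exact ⟨(a :: y) :: ys, yl, by rw [e1]; simp, e2⟩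

theorem app_flat (σ : A → List Z) (b : A) (ys : List (List A)) :
    app σ (ys.flatMap fun y => y ++ [b]) = (ys.map (app σ)).flatMap fun x => x ++ σ b := by
  induction ys with
  | nil => rfl
  | cons y ys ih => simp [ih]

variable [Fintype A] [Fintype B]

section lang

variable {G : A → List A} {y0 : List A} {o : A} {P : A → List Z}
  {H : B → List B} {z0 : List B} {o' : B} {R : B → List Z}

theorem pre_of (S : Sys G y0 o) (T : Sys H z0 o') (hP : NE P) (hR : Elem R)
    (c0 : C0 (fun j => app P (it G j y0)) (fun j => app R (it H j z0))) :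
    PreStep R T.lang (S.imgLang hP) where
  elem := hR
  img _ hw := S.par_pw hP (c0_factor (c0_symm c0) (Eventually.mono hw fun _ h => app_infix h))
  par _ := fun ⟨_, h1, h2⟩ =>
    T.par_pw hR.ne (c0_factor c0 (Eventually.mono h1 fun _ h => h2.trans (app_infix h)))

theorem hs_of {Lc : Lang Z} (S : Sys G y0 o) (he : ∀ k, Elem (sig P G k))
    (hp : PreStep P S.lang Lc) : ∃ n0 : ℕ, ∀ n, n0 ≤ n → HS G y0 o P Lc n.factorial := by
  obtain ⟨Q1, h1⟩ := S.per_bound
  obtain ⟨Q2, h2⟩ := hp.per_bound S.per_bound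
  obtain ⟨b, -, hb⟩ := exists_bound G
  refine ⟨Q1 + Q2 + b, fun n hn => ⟨S, he, ⟨hp, ?_, ?_⟩, b, hb, divB_factorial (by omega)⟩⟩
  · exact good_of_bound n.factorial_pos (divB_factorial (by omega)) h1
  · exact good_of_bound n.factorial_pos (divB_factorial (by omega)) h2

theorem fs_of {Lc : Lang Z} (S : Sys G y0 o) (he : ∀ k, Elem (sig P G k))
    (hp : PreStep P S.lang Lc) : ∃ p, 1 ≤ p ∧ ∀ m, 1 ≤ m → ∀ r, ∃ n0 : ℕ, ∀ n, n0 ≤ n →
      FS (pw G (m * p)) (it G r y0) o P Lc n.factorial := by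
  obtain ⟨n1, h1⟩ := hs_of S he hp
  obtain ⟨p, p1, p2⟩ := (h1 n1 le_rfl).exists_fix
  refine ⟨p, p1, fun m hm r => ?_⟩
  have hq : 1 ≤ m * p := Nat.one_le_iff_ne_zero.2 (by positivity)
  obtain ⟨n0, h0⟩ := hs_of (P := P) (Lc := Lc) (S.pow hq r)
    (fun k => by rw [sig_pw]; exact he _) (by rw [S.lang_pow hq r]; exact hp)
  refine ⟨n0, fun n hn => ⟨h0 n hn, fun d ε hd hε => ?_⟩⟩
  have e : (h0 n hn).sys.lang = S.lang := S.lang_pow hq r
  have hg := (h0 n hn).step.gp
  rw [e] at hg hε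
  exact p2 m _ d ε hg hd hε

theorem exists_fs (S : Sys G y0 o) (T : Sys H z0 o') (eP : ∀ k, Elem (sig P G k))
    (eR : ∀ k, Elem (sig R H k))
    (c0 : C0 (fun j => app P (it G j y0)) (fun j => app R (it H j z0))) :
    ∃ p, 1 ≤ p ∧ ∀ r, ∃ (Lc : Lang Z) (ϖ : ℕ), FS (pw G p) (it G r y0) o P Lc ϖ ∧
      FS (pw H p) (it H r z0) o' R Lc ϖ := by
  have hP : Elem P := by have := eP 0; rwa [sig_zero] at this
  have hR : Elem R := by have := eR 0; rwa [sig_zero] at this
  obtain ⟨p1, a1, b1⟩ := fs_of S eP (pre_of S S hP.ne hP (c0_refl _))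
  obtain ⟨p2, a2, b2⟩ := fs_of T eR (pre_of S T hP.ne hR c0)
  refine ⟨p2 * p1, Nat.one_le_iff_ne_zero.2 (by positivity), fun r => ?_⟩
  obtain ⟨n1, h1⟩ := b1 p2 a2 r
  obtain ⟨n2, h2⟩ := b2 p1 a1 r
  rw [mul_comm p1 p2] at h2
  exact ⟨_, _, h1 (n1 + n2) (by omega), h2 (n1 + n2) (by omega)⟩

end lang

section hyps

variable {g h : ℕ → List ℕ} {u v : List ℕ} {U : Ultrafilter ℕ} {M N : ℕ}
  {P : A → List ℕ} {Q : ℕ → List A} {o : A} {R : B → List ℕ} {Q' : ℕ → List B} {o' : B}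

theorem c0_of (hU : (U : Filter ℕ) ≤ atTop) (F : Fac g M P Q o) (F' : Fac h M R Q' o')
    (cl : InCl U M N) (h0 : H0 g h u v U) :
    C0 (fun j => app P (it (GG P Q) j (app Q (it g N u))))
      (fun j => app R (it (GG R Q') j (app Q' (it h N v)))) := by
  intro L hL
  obtain ⟨M', N', -, c', e⟩ := h0 L hL
  refine frequently_atTop.2 fun J => ?_
  obtain ⟨j, j', k⟩ := inCl_meet (inCl_shift hU F.pos cl (J + 1)) c'
  refine ⟨J + j, by omega, ?_⟩
  have := e j'
  rw [← k, show N + (J + 1) * M + j * M = N + (J + j + 1) * M by ring] at this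
  simp only [seq_eq F.pq, seq_eq F'.pq]
  exact this

theorem c2_of (hU : (U : Filter ℕ) ≤ atTop) (F : Fac g M P Q o) (F' : Fac h M R Q' o')
    (cl : InCl U M N) (h1 : H1 g h u v U) (S : Sys (GG P Q) (app Q (it g N u)) o) :
    C2 (GG P Q) P S.lang (fun j => app R (it (GG R Q') j (app Q' (it h N v)))) := by
  intro b hb j p hp hm
  obtain ⟨n1, hn1⟩ := eventually_atTop.1 hb
  obtain ⟨r, hr⟩ := inCl_refine hU F.pos cl hp (j + n1 + 1)
  refine ⟨j + n1 + r, fun C => ?_⟩
  obtain ⟨ys, yl, e1, e2⟩ := decomp_cp b (pw (GG P Q) p b)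
  have key := h1 (p * M) (N + (j + n1 + 1 + r) * M) (sig P (GG P Q) j b)
    (ys.map (app (sig P (GG P Q) j))) (app (sig P (GG P Q) j) yl) C
    (Nat.one_le_iff_ne_zero.2 (by have := F.pos; positivity)) hr ((F.elem j).ne b) ?_ ?_
    (by rw [List.length_map, e2]; exact hm)
  · push Not at key
    obtain ⟨i, hi⟩ := key
    refine ⟨i, ?_⟩
    rw [List.length_map, e2] at hi
    simp only [seq_eq F'.pq]
    rwa [show N + (j + n1 + r + i * p + 1) * M = N + (j + n1 + 1 + r) * M + i * (p * M) by ring]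
  · have := app_infix (g := sig P (GG P Q) j) (hn1 (n1 + r) (by omega))
    rwa [app_singleton, app_sig, ← it_add, seq_eq F.pq,
      show j + (n1 + r) + 1 = j + n1 + 1 + r by ring] at this
  · rw [← app_flat, ← app_append, ← e1, app_sig, sig, ← it_P F.pq, pw, pw, ← it_add, ← it_add,
      add_comm]

theorem c3_of {D : ℕ} (hU : (U : Filter ℕ) ≤ atTop) (m' : Mg h v D) (F : Fac g M P Q o)
    (F' : Fac h M R Q' o') (cl : InCl U M N) (h3 : H3 g h u v U) :
    C3 (GG P Q) P (app Q (it g N u)) (GG R Q') R (app Q' (it h N v)) o' := by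
  intro j θ θ' η κ e a b κ' e' a' b' A0 B0 l1 l2 w u1 u2 d1 d2 n
  rw [← start_eq F.pq] at w
  rw [← start_eq F'.pq] at u1 u2 n
  refine h3 M (N + j * M) A B P Q R Q' o' θ θ' η κ e a b κ' e' a' b' A0 B0 F.pos
    (inCl_shift hU F.pos cl j) F.pq F'.pq ?_ F'.elemP.ne ?_ ?_ l1 l2 w u1 u2 d1 d2 n
  · have := (elem_pw (F'.elem 1)).ne
    rwa [pw_one] at this
  · intro d hd
    rw [F'.mk'.1, app_singleton, F'.Q0 m'] at hd
    exact List.eq_of_mem_replicate hd
  · intro x hx
    rw [F'.mk'.1] at hx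
    exact List.mem_singleton.1 hx

end hyps

end Pool.Agent.P.MP_1e185c_lc.FE
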