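import Pool.Agent.P.MP_1e185c_lc.Final
import Pool.Agent.P.MP_1e185c_lc.Main
import Pool.Agent.P.MP_1e185c_lc.Match
import Pool.Agent.P.MP_1e185c_lc.Outer

/-! The set of indices at which two D0L sequences agree is eventually periodic, effectively. -/

set_option autoImplicit false

namespace Pool.Agent.P.MP_1e185c_lc

open Filter Pool.Agent.Lib.ComputableProp

namespace PE

open TS CC

/-- the two sequences agree on the whole class -/
def Agr (p : Inst) (M N : ℕ) : Prop :=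
  ∀ j, it (gOf p) (N + j * M) p.2.1 = it (hOf p) (N + j * M) p.2.2

/-- the check that the first morphism generates the second sequence along a class -/
def ChkG (z : Inst × ℕ × ℕ) (d : ℕ × ℕ × List (List (List ℕ) × List (List ℕ))) : Prop :=
  (∀ a ∈ z.1.2.1 ++ z.1.2.2 ++ (z.1.1.1 ++ z.1.1.2).flatMap (fun l => l), a < d.1) ∧
  (∀ j < d.2.1 + 1, itL z.1.1.1 z.2.1 (itL z.1.1.2 (z.2.2 + j * z.2.1) z.1.2.2) =
    itL z.1.1.2 (z.2.2 + (j + 1) * z.2.1) z.1.2.2) ∧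
  eqv (lhs (fun j => itL z.1.1.2 (z.2.2 + j * z.2.1) z.1.2.2) d.2.1 d.2.2)
    (rhs (fun j => itL z.1.1.2 (z.2.2 + j * z.2.1) z.1.2.2) d.2.1 d.2.2) = true

theorem re_ChkG : RE (fun y : (Inst × ℕ × ℕ) × (ℕ × ℕ × List (List (List ℕ) × List (List ℕ))) =>
    ChkG y.1 y.2) := by
  refine RE.and (RE.forall_mem (by fun_prop) (RE.lt (by fun_prop) (by fun_prop)))
    (RE.and (RE.forall_lt (by fun_prop) (RE.eq (by fun_prop) (by fun_prop)))
      (RE.of_bool (c_eqv ?_ ?_)))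
  · unfold lhs
    fun_prop
  · unfold rhs
    fun_prop

theorem chkG_sound {p : Inst} {M N : ℕ} {d : ℕ × ℕ × List (List (List ℕ) × List (List ℕ))}
    (h : ChkG (p, M, N) d) (j : ℕ) :
    it (gOf p) M (it (hOf p) (N + j * M) p.2.2) = it (hOf p) (N + (j + 1) * M) p.2.2 := by
  obtain ⟨E, J, cs⟩ := d
  obtain ⟨-, h2, h4⟩ := h
  change ∀ j < J + 1, it (gOf p) M (it (hOf p) (N + j * M) p.2.2) =
    it (hOf p) (N + (j + 1) * M) p.2.2 at h2
  change eqv (lhs (fun j => it (hOf p) (N + j * M) p.2.2) J cs)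
    (rhs (fun j => it (hOf p) (N + j * M) p.2.2) J cs) = true at h4
  have hW : ∀ j, it (pw (hOf p) M) j (it (hOf p) N p.2.2) = it (hOf p) (N + j * M) p.2.2 := by
    intro j
    rw [it_pw, ← it_add, add_comm]
  have hW' : ∀ j, app (pw (hOf p) M) (it (hOf p) (N + j * M) p.2.2) =
      it (hOf p) (N + (j + 1) * M) p.2.2 := by
    intro j
    rw [app_pw, ← it_add]
    congr 1
    ring
  have hall := test_of_rel (pw (hOf p) M) (it (hOf p) N p.2.2) J (fun x hx => by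
    simp only [hW] at hx ⊢
    have e := ev_sub x (fun j => it (hOf p) (N + j * M) p.2.2) J cs
    rw [ev_eq, ev_eq, (eqv_iff _ _).1 h4, sub_self, Finset.sum_eq_zero fun i hi => by
      rw [hx i (by simpa [Nat.lt_succ_iff] using hi), mul_zero], sub_zero] at e
    exact e.symm) (pw (gOf p) M) (pw (hOf p) M) (fun j hj => by
    rw [hW, hW', app_pw]
    exact h2 j (by omega))
  simp only [hW, hW'] at hall
  simp only [app_pw] at hall
  exact hall j

theorem chkG_complete (p : Inst) (M N : ℕ)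
    (H : ∀ j, it (gOf p) M (it (hOf p) (N + j * M) p.2.2) = it (hOf p) (N + (j + 1) * M) p.2.2) :
    ∃ d, ChkG (p, M, N) d := by
  obtain ⟨E, hE⟩ := TS.exists_bound (p.2.1 ++ p.2.2 ++ (p.1.1 ++ p.1.2).flatMap (fun l => l))
  obtain ⟨b1, b2, b3, b4⟩ := bounds hE
  obtain ⟨J, c, hc⟩ := exists_rel E (fun j => it (hOf p) (N + j * M) p.2.2)
    fun j => it_bound b4 b2 _
  choose q hq using fun i => exists_code (c i)
  refine ⟨(E, J, (List.range (J + 1)).map q), hE, fun j _ => H j, ?_⟩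
  change eqv (lhs (fun j => it (hOf p) (N + j * M) p.2.2) J _)
    (rhs (fun j => it (hOf p) (N + j * M) p.2.2) J _) = true
  refine eqv_of_ev (sub_eq_zero.1 ?_)
  rw [ev_sub, hc, sub_eq_zero]
  refine Finset.sum_congr rfl fun i hi => ?_
  have hi' : i < J + 1 := Finset.mem_range.1 hi
  rw [List.getD_eq_getElem _ _ (by simpa using hi'), hq i]
  simp

theorem inCl_shift {U : Ultrafilter ℕ} (hU : (U : Filter ℕ) ≤ atTop) {M N : ℕ} (hM : 1 ≤ M)
    (h : InCl U M N) (k : ℕ) : InCl U M (N + k * M) := by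
  have h1 : {n | N + k * M ≤ n} ∈ U := hU (mem_atTop _)
  refine Filter.mem_of_superset (Filter.inter_mem h h1) ?_
  rintro n ⟨⟨j, rfl⟩, hn⟩
  have hk : k ≤ j := by
    have : k * M ≤ j * M := by
      have : N + k * M ≤ N + j * M := hn
      omega
    exact Nat.le_of_mul_le_mul_right this hM
  obtain ⟨i, rfl⟩ := Nat.exists_eq_add_of_le hk
  exact ⟨i, by ring⟩

/-- certificates for the case where the second sequence is generated by the first morphism -/
theorem certG : ∃ C : Inst × ℕ × ℕ → Prop, RE C ∧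
    (∀ p M N, C (p, M, N) → Sep p M N ∨ Agr p M N) ∧
    ∀ p (U : Ultrafilter ℕ), (U : Filter ℕ) ≤ atTop → SC (gOf p) (hOf p) p.2.2 U →
      ∃ M N, 1 ≤ M ∧ InCl U M N ∧ C (p, M, N) := by
  refine ⟨fun z => ∃ d, ChkG z d ∧ (itL z.1.1.1 z.2.2 z.1.2.1 = itL z.1.1.2 z.2.2 z.1.2.2 ∨
      itL z.1.1.1 (d.1 * z.2.1) (itL z.1.1.1 z.2.2 z.1.2.1) ≠
        itL z.1.1.1 (d.1 * z.2.1) (itL z.1.1.2 z.2.2 z.1.2.2)),
    RE.ex (re_ChkG.and (RE.or (RE.eq (by fun_prop) (by fun_prop))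
      (RE.ne (by fun_prop) (by fun_prop)))), ?_, ?_⟩
  · rintro p M N ⟨d, h, h3 | h3⟩
    · refine Or.inr fun j => ?_
      change it (gOf p) N p.2.1 = it (hOf p) N p.2.2 at h3
      rw [gen_of_all (chkG_sound h), ← h3, ← it_add, add_comm]
    · refine Or.inl fun j hj => h3 ?_
      obtain ⟨b1, b2, b3, b4⟩ := bounds h.1
      change it (gOf p) (d.1 * M) (it (gOf p) N p.2.1) = it (gOf p) (d.1 * M) (it (hOf p) N p.2.2)
      rw [gen_of_all (chkG_sound h), add_comm, it_add, ← it_pw, ← it_pw] at hj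
      have := ker_stab_nat (fun A B _ σ h => Elem.inj h) d.1 (pw (gOf p) M)
        (fun a ha => it_bound b3 (fun b hb => by rw [List.mem_singleton.1 hb]; exact ha) M)
        _ _ (it_bound b3 b1 N) (it_bound b4 b2 N) j hj
      rwa [it_pw, it_pw] at this
  · rintro p U hU ⟨M, N, hM, hcl, H⟩
    by_cases he : ∃ k, it (gOf p) (N + k * M) p.2.1 = it (hOf p) (N + k * M) p.2.2
    · obtain ⟨k, hk⟩ := he
      obtain ⟨d, hd⟩ := chkG_complete p M (N + k * M) fun j => by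
        have := H (k + j)
        rwa [show N + (k + j) * M = N + k * M + j * M by ring,
          show N + (k + j + 1) * M = N + k * M + (j + 1) * M by ring] at this
      exact ⟨M, N + k * M, hM, inCl_shift hU hM hcl k, d, hd, Or.inl hk⟩
    · obtain ⟨d, hd⟩ := chkG_complete p M N H
      refine ⟨M, N, hM, hcl, d, hd, Or.inr fun h => he ⟨d.1, ?_⟩⟩
      change it (gOf p) (d.1 * M) (it (gOf p) N p.2.1) =
        it (gOf p) (d.1 * M) (it (hOf p) N p.2.2) at h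
      rw [gen_of_all H, ← h, ← it_add, add_comm]

/-- one enumerable family of certificates of constancy, complete on marked instances -/
theorem cert_const : ∃ C : Inst × ℕ × ℕ → Prop, RE C ∧
    (∀ p M N, C (p, M, N) → Sep p M N ∨ Agr p M N) ∧
    ∀ p D (U : Ultrafilter ℕ), Marked (gOf p) (hOf p) p.2.1 p.2.2 D → (U : Filter ℕ) ≤ atTop →
      ∃ M N, 1 ≤ M ∧ InCl U M N ∧ C (p, M, N) := by
  have core : Core := core_of_pair (pairMain matchM)
  obtain ⟨K0, r0, s0, c0⟩ := cert0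
  obtain ⟨K1, r1, s1, c1⟩ := cert1
  obtain ⟨K3, r3, s3, c3⟩ := cert3
  obtain ⟨KC, rC, sC, cC⟩ := certG
  have hsw : Computable fun z : Inst × ℕ × ℕ => (FD.sw z.1, z.2) :=
    (FD.c_sw.comp Computable.fst).pair Computable.snd
  refine ⟨fun z => K0 z ∨ K1 z ∨ K1 (FD.sw z.1, z.2) ∨ K3 z ∨ K3 (FD.sw z.1, z.2) ∨ KC z,
    r0.or (r1.or ((r1.comp hsw).or (r3.or ((r3.comp hsw).or rC)))), ?_, ?_⟩
  · rintro p M N (h | h | h | h | h | h)
    · exact Or.inl (s0 _ _ _ h)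
    · exact Or.inl (s1 _ _ _ h)
    · exact Or.inl (FD.sep_sw (s1 _ _ _ h))
    · exact Or.inl (s3 _ _ _ h)
    · exact Or.inl (FD.sep_sw (s3 _ _ _ h))
    · exact sC _ _ _ h
  · intro p D U hm hU
    by_cases h0 : H0 (gOf p) (hOf p) p.2.1 p.2.2 U
    swap
    · obtain ⟨M, N, a, b, c⟩ := c0 p U hU h0
      exact ⟨M, N, a, b, Or.inl c⟩
    by_cases h1 : H1 (gOf p) (hOf p) p.2.1 p.2.2 U
    swap
    · obtain ⟨M, N, a, b, c⟩ := c1 p U hU h1
      exact ⟨M, N, a, b, Or.inr (Or.inl c)⟩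
    by_cases h1' : H1 (hOf p) (gOf p) p.2.2 p.2.1 U
    swap
    · obtain ⟨M, N, a, b, c⟩ := c1 (FD.sw p) U hU h1'
      exact ⟨M, N, a, b, Or.inr (Or.inr (Or.inl c))⟩
    by_cases h3 : H3 (gOf p) (hOf p) p.2.1 p.2.2 U
    swap
    · obtain ⟨M, N, a, b, c⟩ := c3 p U hU h3
      exact ⟨M, N, a, b, Or.inr (Or.inr (Or.inr (Or.inl c)))⟩
    by_cases h3' : H3 (hOf p) (gOf p) p.2.2 p.2.1 U
    swap
    · obtain ⟨M, N, a, b, c⟩ := c3 (FD.sw p) U hU h3'
      exact ⟨M, N, a, b, Or.inr (Or.inr (Or.inr (Or.inr (Or.inl c))))⟩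
    obtain ⟨M, N, a, b, c⟩ := cC p U hU (core D _ _ _ _ U hm hU h0 h1 h1' h3 h3')
    exact ⟨M, N, a, b, Or.inr (Or.inr (Or.inr (Or.inr (Or.inr c))))⟩

/-- a threshold and a period of the equality set can be computed -/
theorem period : ∃ f : Inst → ℕ × ℕ, Computable f ∧ ∀ p, 0 < (f p).2 ∧ ∀ n, (f p).1 ≤ n →
    (it (gOf p) n p.2.1 = it (hOf p) n p.2.2 ↔
      it (gOf p) (n + (f p).2) p.2.1 = it (hOf p) (n + (f p).2) p.2.2) := by
  obtain ⟨C, hre, hs, hc⟩ := cert_const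
  have h1 : RE fun z : Inst × ℕ × ℕ => 1 ≤ z.2.2 ∧
      ∀ r < z.2.2, ∃ c : ℕ × ℕ, C (FD.mk z.1, c) ∧ (∃ q, z.2.2 = q * c.1) ∧
        ∃ j, z.2.1 + r = c.2 + j * c.1 := by
    refine RE.and (RE.le (by fun_prop) (by fun_prop)) ?_
    refine RE.forall_lt (by fun_prop) (RE.ex (RE.and ?_ (RE.and ?_ ?_)))
    · exact hre.comp (f := fun z : ((Inst × ℕ × ℕ) × ℕ) × ℕ × ℕ => (FD.mk z.1.1.1, z.2))
        ((FD.c_mk.comp (by fun_prop)).pair Computable.snd)
    · exact RE.ex (RE.eq (by fun_prop) (by fun_prop))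
    · exact RE.ex (RE.eq (by fun_prop) (by fun_prop))
  obtain ⟨f, hf, H⟩ := RE.uniformize (R := fun (p : Inst) (y : ℕ × ℕ) => 1 ≤ y.2 ∧
      ∀ r < y.2, ∃ c : ℕ × ℕ, C (FD.mk p, c) ∧ (∃ q, y.2 = q * c.1) ∧
        ∃ j, y.1 + r = c.2 + j * c.1) h1 fun p => by
    obtain ⟨Mb, N0, hM, hcov⟩ := FD.cover (fun M N => C (FD.mk p, M, N))
      fun U hU => hc (FD.mk p) _ U (FD.marked p) hU
    refine ⟨(N0, Mb), hM, fun r hr => ?_⟩
    obtain ⟨M, N, a, b, c⟩ := hcov r hr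
    exact ⟨(M, N), a, b, c⟩
  refine ⟨f, hf, fun p => ⟨(H p).1, fun n hn => ?_⟩⟩
  obtain ⟨hM, hcov⟩ := H p
  generalize (f p).1 = N0 at hn hcov
  generalize (f p).2 = Mb at hM hcov
  obtain ⟨m, rfl⟩ := Nat.exists_eq_add_of_le hn
  obtain ⟨⟨M, N⟩, hC, ⟨q, hq⟩, j, hj⟩ := hcov (m % Mb) (Nat.mod_lt _ hM)
  simp only at hq hj
  have e : N + (j + m / Mb * q) * M = N0 + m := by
    have := Nat.mod_add_div m Mb
    calc N + (j + m / Mb * q) * M = N + j * M + (q * M) * (m / Mb) := by ring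
      _ = N0 + m % Mb + Mb * (m / Mb) := by rw [← hj, ← hq]
      _ = N0 + m := by omega
  have e' : N + (j + m / Mb * q + q) * M = N0 + m + Mb := by
    rw [← e, add_mul (j + m / Mb * q), ← hq]
    ring
  rw [← FD.mk_iff p (N0 + m), ← FD.mk_iff p (N0 + m + Mb), ← e', ← e]
  rcases hs _ _ _ hC with h | h
  · exact iff_of_false (h _) (h _)
  · exact iff_of_true (h _) (h _)

end PE

end Pool.Agent.P.MP_1e185c_lc
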